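import Mathlib
set_option autoImplicit false
noncomputable section
open scoped BigOperators
open MeasureTheory

namespace Pool.Agent.Helper549.Tri

/-- closed triangle with the three vertices v 0, v 1, v 2 -/
def hull (v : Fin 3 → ℂ) : Set ℂ := convexHull ℝ (Set.range v)
/-- cross product of two plane vectors -/
def cr (z w : ℂ) : ℝ := z.re * w.im - z.im * w.re
/-- twice the signed area -/
def dd (v : Fin 3 → ℂ) : ℝ := cr (v 1 - v 0) (v 2 - v 0)
/-- side vector opposite to vertex k, oriented counterclockwise when dd is positive -/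
def sd (v : Fin 3 → ℂ) (k : Fin 3) : ℂ := v (k + 2) - v (k + 1)
/-- side length -/
def len (v : Fin 3 → ℂ) (k : Fin 3) : ℝ := ‖sd v k‖
/-- unit direction of the side -/
def dir (v : Fin 3 → ℂ) (k : Fin 3) : ℂ := sd v k / (len v k : ℂ)
/-- level of the supporting line of the side -/
def lev (v : Fin 3 → ℂ) (k : Fin 3) : ℝ := cr (dir v k) (v (k + 1))
/-- angle at vertex k -/
def ang (v : Fin 3 → ℂ) (k : Fin 3) : ℝ :=
  EuclideanGeometry.angle (v (k + 1)) (v k) (v (k + 2))
/-- affine function vanishing on side k, positive inside when dd is positive -/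
def lam (v : Fin 3 → ℂ) (k : Fin 3) (p : ℂ) : ℝ := cr (sd v k) (p - v (k + 1))
/-- p is in the relative interior of side k -/
def onSide (v : Fin 3 → ℂ) (k : Fin 3) (p : ℂ) : Prop :=
  p ∈ openSegment ℝ (v (k + 1)) (v (k + 2))
open Classical in
/-- the angle with which the triangle is seen at the point p (0 if p is outside) -/
def angAt (v : Fin 3 → ℂ) (p : ℂ) : ℝ :=
  (∑ k : Fin 3, if p = v k then ang v k else 0) +
  (∑ k : Fin 3, if onSide v k p then Real.pi else 0) +
  (if p ∈ interior (hull v) then 2 * Real.pi else 0)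
/-- dissection of the triangle T into N triangles, everything counterclockwise -/
structure Dis (N : ℕ) (T : Fin 3 → ℂ) (t : Fin N → Fin 3 → ℂ) : Prop where
  ccwT : 0 < dd T
  ccwt : ∀ i, 0 < dd (t i)
  cover : (⋃ i, hull (t i)) = hull T
  disj : ∀ i j, i ≠ j → Disjoint (interior (hull (t i))) (interior (hull (t j)))
/-- side l of v lies on the line of side j of T, with the same direction -/
def onBd (T v : Fin 3 → ℂ) (l j : Fin 3) : Prop := dir v l = dir T j ∧ lev v l = lev T j
open Classical in
/-- number of tile angles of type k at the point p -/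
def cnt {N : ℕ} (t : Fin N → Fin 3 → ℂ) (τ : Fin N → Equiv.Perm (Fin 3)) (p : ℂ) (k : Fin 3) : ℕ :=
  ∑ i : Fin N, ∑ m : Fin 3, if t i m = p ∧ τ i m = k then 1 else 0


end Pool.Agent.Helper549.Tri
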