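import Mathlib
import Pool.Agent.Helper549.Tri.Defs
set_option autoImplicit false
noncomputable section
open scoped BigOperators

namespace Pool.Agent.Helper549.Tri

/-- numerical data of a tiling with not all tile angles rational multiples of pi.
ℓ, θ: sides and angles of the tile; S, A: sides and angles of the big triangle;
κ j k: number of tile angles of type k at corner j; β j k: number of tile sides of type k on side j. -/
structure Data (N : ℕ) (ℓ θ S A : Fin 3 → ℝ) (κ β : Fin 3 → Fin 3 → ℕ) : Prop where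
  lpos : ∀ k, 0 < ℓ k
  Spos : ∀ k, 0 < S k
  tpos : ∀ k, 0 < θ k
  tsum : θ 0 + θ 1 + θ 2 = Real.pi
  Apos : ∀ k, 0 < A k
  Asum : A 0 + A 1 + A 2 = Real.pi
  irr : ¬ ∀ k, ∃ q : ℚ, θ k = q * Real.pi
  sinet : ∀ j k, ℓ j * Real.sin (θ k) = ℓ k * Real.sin (θ j)
  sineT : ∀ j k, S j * Real.sin (A k) = S k * Real.sin (A j)
  area : (N : ℝ) * (ℓ 0 * ℓ 1 * Real.sin (θ 2)) = S 0 * S 1 * Real.sin (A 2)
  angles : ∀ j, A j = ∑ k, (κ j k : ℝ) * θ k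
  kpos : ∀ j, ∃ k, 0 < κ j k
  side : ∀ j, S j = ∑ k, (β j k : ℝ) * ℓ k
  count : ∑ j, ∑ k, β j k ≤ N + 3
  corner : ∀ j k, j ≠ k → ∃ x y, x ≠ y ∧ 0 < κ j x ∧ 0 < β k y
  char : ∀ X : Fin 3 → ℤ, (∀ k, X k = 1 ∨ X k = -1) → X 0 * X 1 * X 2 = -1 →
    (∃ k, ∑ j, κ j k = 0) → ∏ k, X k ^ (∑ j, κ j k) = -1 →
    ∃ M : ℤ, |M| ≤ N ∧ (M - N) % 2 = 0 ∧
      ∑ j, ((∏ k, X k ^ κ j k : ℤ) : ℝ) * S j = M * ∑ k, (X k : ℝ) * ℓ k ∧
      (|M| = N → ∀ j k, 0 < β j k → M * X k = N * ∏ k', X k' ^ κ j k')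


open Classical in
/-- number of tile sides of type k on side j of T -/
def bcnt {N : ℕ} (T : Fin 3 → ℂ) (t : Fin N → Fin 3 → ℂ) (τ : Fin N → Equiv.Perm (Fin 3))
    (j k : Fin 3) : ℕ :=
  ∑ i : Fin N, ∑ l : Fin 3, if onBd T (t i) l j ∧ τ i l = k then 1 else 0

end Pool.Agent.Helper549.Tri
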