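import Mathlib
import Pool.Agent.Helper549.Tri.DataDef
set_option autoImplicit false
noncomputable section
open scoped BigOperators

namespace Pool.Agent.Helper549.Tri.AlgD

theorem D25_quad (y : ℝ) (A B D : ℤ) (h : (A : ℝ) * y ^ 2 + B * y + D = 0) (h0 : A ≠ 0 ∨ B ≠ 0) :
    IsAlgebraic ℚ y := by
  refine ⟨Polynomial.C (A : ℚ) * Polynomial.X ^ 2 + Polynomial.C (B : ℚ) * Polynomial.X
    + Polynomial.C (D : ℚ), ?_, ?_⟩
  · intro h1
    have h2 := congrArg (fun P => Polynomial.coeff P 2) h1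
    have h3 := congrArg (fun P => Polynomial.coeff P 1) h1
    simp only [Polynomial.coeff_add, Polynomial.coeff_C_mul, Polynomial.coeff_X_pow,
      Polynomial.coeff_X, Polynomial.coeff_C, Polynomial.coeff_zero] at h2 h3
    norm_num at h2 h3
    rcases h0 with h0 | h0
    · exact h0 h2
    · exact h0 h3
  · simpa using h

theorem D25_common (l θ : Fin 3 → ℝ) (htpos : ∀ k, 0 < θ k)
    (htsum : θ 0 + θ 1 + θ 2 = Real.pi) (h3 : 3 * θ 0 + 2 * θ 1 = Real.pi)
    (hs : ∀ j k, l j * Real.sin (θ k) = l k * Real.sin (θ j)) :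
    ∃ y : ℝ, 0 < y ∧ y < 1 ∧ l 0 = y * l 2 ∧ l 1 = (1 - y ^ 2) * l 2 ∧
      Real.sin (θ 0) = y * Real.sin (θ 2) ∧ Real.sin (θ 1) = (1 - y ^ 2) * Real.sin (θ 2) ∧
      2 * Real.cos (θ 0) = 2 - y ^ 2 ∧ 2 * Real.cos (θ 1) = 3 * y - y ^ 3 ∧
      0 < Real.sin (θ 2) := by
  have a0 := htpos 0
  have a1 := htpos 1
  have a2 := htpos 2
  obtain ⟨e, he⟩ : ∃ e, e = θ 0 + θ 1 := ⟨_, rfl⟩
  have e0 : θ 0 = Real.pi - 2 * e := by rw [he]; linarith
  have e1 : θ 1 = 3 * e - Real.pi := by rw [he]; linarith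
  have e2 : θ 2 = Real.pi - e := by rw [he]; linarith
  have hsq := Real.sin_sq_add_cos_sq e
  have s2 : Real.sin (θ 2) = Real.sin e := by rw [e2, Real.sin_pi_sub]
  have s0 : Real.sin (θ 0) = 2 * Real.cos e * Real.sin e := by
    rw [e0, Real.sin_pi_sub, Real.sin_two_mul]; ring
  have s1 : Real.sin (θ 1) = (1 - (2 * Real.cos e) ^ 2) * Real.sin e := by
    rw [e1, Real.sin_sub_pi, Real.sin_three_mul]
    linear_combination (4 * Real.sin e) * hsq
  have c0 : 2 * Real.cos (θ 0) = 2 - (2 * Real.cos e) ^ 2 := by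
    rw [e0, Real.cos_pi_sub, Real.cos_two_mul]; ring
  have c1 : 2 * Real.cos (θ 1) = 3 * (2 * Real.cos e) - (2 * Real.cos e) ^ 3 := by
    rw [e1, Real.cos_sub_pi, Real.cos_three_mul]; ring
  have p0 : 0 < Real.sin (θ 0) := Real.sin_pos_of_pos_of_lt_pi a0 (by linarith)
  have p1 : 0 < Real.sin (θ 1) := Real.sin_pos_of_pos_of_lt_pi a1 (by linarith)
  have p2 : 0 < Real.sin (θ 2) := Real.sin_pos_of_pos_of_lt_pi a2 (by linarith)
  obtain ⟨y, hy⟩ : ∃ y, y = 2 * Real.cos e := ⟨_, rfl⟩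
  rw [← hy, ← s2] at s0 s1
  rw [← hy] at c0 c1
  have y0 : 0 < y := by
    rw [s0] at p0
    exact (mul_pos_iff_of_pos_right p2).1 p0
  have y1 : y < 1 := by
    rw [s1] at p1
    have := (mul_pos_iff_of_pos_right p2).1 p1
    nlinarith
  refine ⟨y, y0, y1, ?_, ?_, s0, s1, c0, c1, p2⟩
  · have := hs 0 2
    rw [s0] at this
    have h4 : (l 0 - y * l 2) * Real.sin (θ 2) = 0 := by linear_combination this
    rcases mul_eq_zero.1 h4 with h5 | h5
    · linarith
    · exact absurd h5 p2.ne'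
  · have := hs 1 2
    rw [s1] at this
    have h4 : (l 1 - (1 - y ^ 2) * l 2) * Real.sin (θ 2) = 0 := by linear_combination this
    rcases mul_eq_zero.1 h4 with h5 | h5
    · linarith
    · exact absurd h5 p2.ne'

theorem D25_concl (S : Fin 3 → ℝ) (t : ℝ) (ht : t ≠ 0) (p : Fin 3 → ℝ)
    (hS : ∀ i, S i = t * p i) (hp : ∀ i, p i ∈ algebraicClosure ℚ ℝ) :
    ∀ i j, IsAlgebraic ℚ (S i / S j) := by
  intro i j
  rw [hS i, hS j, mul_div_mul_left _ _ ht, ← mem_algebraicClosure_iff]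
  exact div_mem (hp i) (hp j)

/-- TARGET 1 -/
theorem shapeD2_alg {N : ℕ} {ℓ θ S A : Fin 3 → ℝ} {β : Fin 3 → Fin 3 → ℕ}
    (h : Data N ℓ θ S A ![![1,0,0],![2,0,0],![0,2,0]] β) : ∀ i j, IsAlgebraic ℚ (S i / S j) := by
  have hA0 := h.angles 0
  have hA1 := h.angles 1
  have hA2 := h.angles 2
  simp [Fin.sum_univ_three] at hA0 hA1 hA2
  have hAs := h.Asum
  obtain ⟨y, y0, y1, l0, l1, s0, s1, c0, c1, p2⟩ := D25_common ℓ θ h.tpos h.tsum
    (by rw [hA0, hA1, hA2] at hAs; linarith) h.sinet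
  have hc := h.lpos 2
  have ht := h.Spos 0
  -- sides
  have S1 : S 1 = S 0 * (2 - y ^ 2) := by
    have h1 := h.sineT 0 1
    rw [hA0, hA1, Real.sin_two_mul, s0] at h1
    have h2 : (S 1 - S 0 * (2 - y ^ 2)) * (y * Real.sin (θ 2)) = 0 := by
      linear_combination (-1) * h1 + S 0 * y * Real.sin (θ 2) * c0
    rcases mul_eq_zero.1 h2 with h5 | h5
    · linarith
    · exact absurd h5 (mul_pos y0 p2).ne'
  have S2 : S 2 = S 0 * ((1 - y ^ 2) * (3 - y ^ 2)) := by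
    have h1 := h.sineT 0 2
    rw [hA0, hA2, Real.sin_two_mul, s0, s1] at h1
    have h2 : (S 2 - S 0 * ((1 - y ^ 2) * (3 - y ^ 2))) * (y * Real.sin (θ 2)) = 0 := by
      linear_combination (-1) * h1 + S 0 * (1 - y ^ 2) * Real.sin (θ 2) * c1
    rcases mul_eq_zero.1 h2 with h5 | h5
    · linarith
    · exact absurd h5 (mul_pos y0 p2).ne'
  obtain ⟨M1, -, -, hM1, -⟩ := h.char ![-1, -1, -1] (by decide) (by decide) ⟨2, by decide⟩ (by decide)
  obtain ⟨M2, -, -, hM2, -⟩ := h.char ![-1, 1, 1] (by decide) (by decide) ⟨2, by decide⟩ (by decide)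
  simp [Fin.sum_univ_three, Fin.prod_univ_three] at hM1 hM2
  rw [S1, S2, l0, l1] at hM1 hM2
  have q1 : S 0 * ((1 - y) * (2 + y)) = -M1 * ℓ 2 := by
    have h2 : (S 0 * ((1 - y) * (2 + y)) - (-M1 * ℓ 2)) * ((1 + y) * (2 - y)) = 0 := by
      linear_combination hM1
    rcases mul_eq_zero.1 h2 with h5 | h5
    · linarith
    · exact absurd h5 (mul_pos (by linarith) (by linarith : (0:ℝ) < 2 - y)).ne'
  have q2 : S 0 * ((1 + y) * (2 - y)) = M2 * ℓ 2 := by
    have h2 : (S 0 * ((1 + y) * (2 - y)) - (M2 * ℓ 2)) * ((1 - y) * (2 + y)) = 0 := by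
      linear_combination hM2
    rcases mul_eq_zero.1 h2 with h5 | h5
    · linarith
    · exact absurd h5 (mul_pos (by linarith) (by linarith : (0:ℝ) < 2 + y)).ne'
  have m1 : (0 : ℝ) < -M1 := by
    have : 0 < S 0 * ((1 - y) * (2 + y)) := mul_pos ht (mul_pos (by linarith) (by linarith))
    rw [q1] at this
    exact (mul_pos_iff_of_pos_right hc).1 this
  have m2 : (0 : ℝ) < M2 := by
    have : 0 < S 0 * ((1 + y) * (2 - y)) := mul_pos ht (mul_pos (by linarith) (by linarith))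
    rw [q2] at this
    exact (mul_pos_iff_of_pos_right hc).1 this
  have hy : IsAlgebraic ℚ y := by
    apply D25_quad y (-M1 - M2) (M1 - M2) (2 * (M2 + M1))
    · have h2 : (((-M1 - M2 : ℤ) : ℝ) * y ^ 2 + ((M1 - M2 : ℤ) : ℝ) * y + ((2 * (M2 + M1) : ℤ) : ℝ))
          * (S 0 * ℓ 2) = 0 := by
        push_cast
        linear_combination (S 0 * (1 + y) * (2 - y)) * q1 - (S 0 * (1 - y) * (2 + y)) * q2
      rcases mul_eq_zero.1 h2 with h5 | h5
      · exact h5
      · exact absurd h5 (mul_pos ht hc).ne'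
    · right
      intro h3
      have : (M1 : ℝ) - M2 = 0 := by exact_mod_cast h3
      linarith
  rw [← mem_algebraicClosure_iff] at hy
  apply D25_concl S (S 0) ht.ne' ![1, 2 - y ^ 2, (1 - y ^ 2) * (3 - y ^ 2)]
  · intro i
    fin_cases i
    · simp
    · exact S1
    · exact S2
  · intro i
    have n2 : (2 : ℝ) ∈ algebraicClosure ℚ ℝ := ofNat_mem _ 2
    have n3 : (3 : ℝ) ∈ algebraicClosure ℚ ℝ := ofNat_mem _ 3
    have hy2 := pow_mem hy 2
    fin_cases i
    · exact one_mem _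
    · exact sub_mem n2 hy2
    · exact mul_mem (sub_mem (one_mem _) hy2) (sub_mem n3 hy2)

/-- TARGET 2 -/
theorem shapeD5_alg {N : ℕ} {ℓ θ S A : Fin 3 → ℝ} {β : Fin 3 → Fin 3 → ℕ}
    (h : Data N ℓ θ S A ![![2,0,0],![0,1,0],![1,1,0]] β) : ∀ i j, IsAlgebraic ℚ (S i / S j) := by
  have hA0 := h.angles 0
  have hA1 := h.angles 1
  have hA2 := h.angles 2
  simp [Fin.sum_univ_three] at hA0 hA1 hA2
  have hAs := h.Asum
  obtain ⟨y, y0, y1, l0, l1, s0, s1, c0, c1, p2⟩ := D25_common ℓ θ h.tpos h.tsum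
    (by rw [hA0, hA1, hA2] at hAs; linarith) h.sinet
  have hc := h.lpos 2
  have ht := h.Spos 2
  have sA2 : Real.sin (A 2) = Real.sin (θ 2) := by
    have : θ 2 = Real.pi - A 2 := by rw [hA2]; linarith [h.tsum]
    rw [this, Real.sin_pi_sub]
  -- sides
  have S0 : S 0 = S 2 * (y * (2 - y ^ 2)) := by
    have h1 := h.sineT 0 2
    rw [sA2, hA0, Real.sin_two_mul, s0] at h1
    have h2 : (S 0 - S 2 * (y * (2 - y ^ 2))) * Real.sin (θ 2) = 0 := by
      linear_combination h1 + S 2 * y * Real.sin (θ 2) * c0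
    rcases mul_eq_zero.1 h2 with h5 | h5
    · linarith
    · exact absurd h5 p2.ne'
  have S1 : S 1 = S 2 * (1 - y ^ 2) := by
    have h1 := h.sineT 1 2
    rw [sA2, hA1, s1] at h1
    have h2 : (S 1 - S 2 * (1 - y ^ 2)) * Real.sin (θ 2) = 0 := by
      linear_combination h1
    rcases mul_eq_zero.1 h2 with h5 | h5
    · linarith
    · exact absurd h5 p2.ne'
  obtain ⟨M, -, -, hM, -⟩ := h.char ![-1, -1, -1] (by decide) (by decide) ⟨2, by decide⟩ (by decide)
  simp [Fin.sum_univ_three, Fin.prod_univ_three] at hM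
  have har := h.area
  rw [sA2, S0, S1, l0, l1] at har
  rw [S0, S1, l0, l1] at hM
  have q1 : S 2 * y = -M * ℓ 2 := by
    have h2 : (S 2 * y - (-M * ℓ 2)) * ((1 + y) * (2 - y)) = 0 := by
      linear_combination hM
    rcases mul_eq_zero.1 h2 with h5 | h5
    · linarith
    · exact absurd h5 (mul_pos (by linarith) (by linarith : (0:ℝ) < 2 - y)).ne'
  have m1 : (0 : ℝ) < -M := by
    have : 0 < S 2 * y := mul_pos ht y0
    rw [q1] at this
    exact (mul_pos_iff_of_pos_right hc).1 this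
  have q2 : (N : ℝ) * ℓ 2 ^ 2 = S 2 ^ 2 * (2 - y ^ 2) := by
    have h2 : ((N : ℝ) * ℓ 2 ^ 2 - S 2 ^ 2 * (2 - y ^ 2)) * (y * (1 - y ^ 2) * Real.sin (θ 2)) = 0 := by
      linear_combination har
    rcases mul_eq_zero.1 h2 with h5 | h5
    · linarith
    · exact absurd h5 (mul_pos (mul_pos y0 (by nlinarith)) p2).ne'
  have hy : IsAlgebraic ℚ y := by
    apply D25_quad y (N + M ^ 2) 0 (-2 * M ^ 2)
    · have h2 : (((N + M ^ 2 : ℤ) : ℝ) * y ^ 2 + ((0 : ℤ) : ℝ) * y + ((-2 * M ^ 2 : ℤ) : ℝ))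
          * (ℓ 2 ^ 2) = 0 := by
        push_cast
        linear_combination y ^ 2 * q2 + (2 - y ^ 2) * (S 2 * y - M * ℓ 2) * q1
      rcases mul_eq_zero.1 h2 with h5 | h5
      · exact h5
      · exact absurd h5 (pow_pos hc 2).ne'
    · left
      intro h3
      have h4 : (N : ℝ) + (M : ℝ) ^ 2 = 0 := by exact_mod_cast h3
      have h5 : (0 : ℝ) ≤ N := Nat.cast_nonneg N
      nlinarith
  rw [← mem_algebraicClosure_iff] at hy
  apply D25_concl S (S 2) ht.ne' ![y * (2 - y ^ 2), 1 - y ^ 2, 1]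
  · intro i
    fin_cases i
    · exact S0
    · exact S1
    · simp
  · intro i
    have n2 : (2 : ℝ) ∈ algebraicClosure ℚ ℝ := ofNat_mem _ 2
    have hy2 := pow_mem hy 2
    fin_cases i
    · exact mul_mem hy (sub_mem n2 hy2)
    · exact sub_mem (one_mem _) hy2
    · exact one_mem _

end Pool.Agent.Helper549.Tri.AlgD
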