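import Mathlib
import Pool.Agent.Helper549.Tri.DataDef
set_option autoImplicit false
noncomputable section
open scoped BigOperators

namespace Pool.Agent.Helper549.Tri.AlgE

theorem base {N : ℕ} {ℓ θ S A : Fin 3 → ℝ} {κ β : Fin 3 → Fin 3 → ℕ}
    (h : Data N ℓ θ S A κ β) (hA : A 0 + A 1 + A 2 = 3 * θ 0 + 3 * θ 1) :
    ∃ s x y : ℝ, 0 < s ∧ ℓ 0 = x * ℓ 2 ∧ ℓ 1 = y * ℓ 2 ∧ 0 < x ∧ 0 < y ∧
      x ^ 2 + x * y + y ^ 2 = 1 ∧ Real.sin (θ 0) = x * s ∧ Real.sin (θ 1) = y * s ∧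
      Real.cos (θ 0) = (x + 2 * y) / 2 ∧ Real.cos (θ 1) = (2 * x + y) / 2 ∧
      Real.sin (θ 0 + θ 1) = s ∧ Real.cos (θ 0 + θ 1) = 1 / 2 ∧ s ^ 2 = 3 / 4 := by
  have hsum : θ 0 + θ 1 = Real.pi / 3 := by
    have := h.Asum; linarith
  have h2 : θ 2 = Real.pi - Real.pi / 3 := by
    have := h.tsum; linarith
  have hc := h.lpos 2
  have ha := h.lpos 0
  have hb := h.lpos 1
  have s2 : Real.sin (θ 2) = Real.sin (Real.pi / 3) := by rw [h2, Real.sin_pi_sub]
  have e0 := h.sinet 0 2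
  have e1 := h.sinet 1 2
  rw [s2] at e0 e1
  have hs0 : 0 < Real.sin (Real.pi / 3) := by
    apply Real.sin_pos_of_pos_of_lt_pi <;> linarith [Real.pi_pos]
  have hs2 : Real.sin (Real.pi / 3) ^ 2 = 3 / 4 := by
    rw [Real.sin_pi_div_three]
    rw [div_pow, Real.sq_sqrt (by norm_num)]; norm_num
  have hcc : Real.cos (Real.pi / 3) = 1 / 2 := Real.cos_pi_div_three
  have f0 : Real.sin (θ 0) = ℓ 0 / ℓ 2 * Real.sin (Real.pi / 3) := by
    field_simp; linarith
  have f1 : Real.sin (θ 1) = ℓ 1 / ℓ 2 * Real.sin (Real.pi / 3) := by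
    field_simp; linarith
  have g0 : Real.cos (θ 0) = (ℓ 0 / ℓ 2 + 2 * (ℓ 1 / ℓ 2)) / 2 := by
    have k : Real.sin (θ 1) = Real.sin (Real.pi / 3) * Real.cos (θ 0)
        - Real.cos (Real.pi / 3) * Real.sin (θ 0) := by
      rw [← Real.sin_sub]; congr 1; linarith
    rw [f1, f0, hcc] at k
    have k2 : Real.sin (Real.pi / 3) * (ℓ 1 / ℓ 2 - Real.cos (θ 0) + (ℓ 0 / ℓ 2) / 2) = 0 := by
      linear_combination k
    rcases mul_eq_zero.1 k2 with k3 | k3
    · exact absurd k3 hs0.ne'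
    · linarith
  have g1 : Real.cos (θ 1) = (2 * (ℓ 0 / ℓ 2) + ℓ 1 / ℓ 2) / 2 := by
    have k : Real.sin (θ 0) = Real.sin (Real.pi / 3) * Real.cos (θ 1)
        - Real.cos (Real.pi / 3) * Real.sin (θ 1) := by
      rw [← Real.sin_sub]; congr 1; linarith
    rw [f1, f0, hcc] at k
    have k2 : Real.sin (Real.pi / 3) * (ℓ 0 / ℓ 2 - Real.cos (θ 1) + (ℓ 1 / ℓ 2) / 2) = 0 := by
      linear_combination k
    rcases mul_eq_zero.1 k2 with k3 | k3
    · exact absurd k3 hs0.ne'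
    · linarith
  refine ⟨Real.sin (Real.pi / 3), ℓ 0 / ℓ 2, ℓ 1 / ℓ 2, hs0, by field_simp, by field_simp,
    div_pos ha hc, div_pos hb hc, ?_, f0, f1, g0, g1, by rw [hsum], by rw [hsum, hcc], hs2⟩
  have k := Real.sin_sq_add_cos_sq (θ 0)
  rw [f0, g0] at k
  linear_combination k - (ℓ 0 / ℓ 2) ^ 2 * hs2

theorem quot_alg {S : Fin 3 → ℝ} {t p0 p1 p2 : ℝ} (ht : t ≠ 0) (h0 : S 0 = t * p0)
    (h1 : S 1 = t * p1) (h2 : S 2 = t * p2) (q0 : IsAlgebraic ℚ p0) (q1 : IsAlgebraic ℚ p1)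
    (q2 : IsAlgebraic ℚ p2) : ∀ i j, IsAlgebraic ℚ (S i / S j) := by
  have key : ∀ i, ∃ p, S i = t * p ∧ IsAlgebraic ℚ p := by
    intro i
    fin_cases i
    · exact ⟨p0, h0, q0⟩
    · exact ⟨p1, h1, q1⟩
    · exact ⟨p2, h2, q2⟩
  intro i j
  obtain ⟨p, hp, qp⟩ := key i
  obtain ⟨q, hq, qq⟩ := key j
  have : S i / S j = p * q⁻¹ := by
    rw [hp, hq, mul_div_mul_left _ _ ht, div_eq_mul_inv]
  rw [this]
  exact qp.mul qq.inv

theorem alg_rat (q : ℚ) : IsAlgebraic ℚ (q : ℝ) := isAlgebraic_algebraMap (A := ℝ) q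

theorem alg_of_sq {z w : ℝ} (hw : IsAlgebraic ℚ w) (h : z ^ 2 = w) : IsAlgebraic ℚ z := by
  apply IsAlgebraic.of_pow (n := 2) (by norm_num)
  rw [h]; exact hw

theorem alg_y {x y : ℝ} (hx : IsAlgebraic ℚ x) (h : x ^ 2 + x * y + y ^ 2 = 1) :
    IsAlgebraic ℚ y := by
  have h1 : IsAlgebraic ℚ (2 * y + x) := by
    apply alg_of_sq (w := ((4 : ℚ) : ℝ) - ((3 : ℚ) : ℝ) * (x * x))
    · exact (alg_rat 4).sub ((alg_rat 3).mul (hx.mul hx))
    · push_cast; linear_combination 4 * h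
  have h2 : y = ((1 / 2 : ℚ) : ℝ) * ((2 * y + x) - x) := by push_cast; ring
  rw [h2]
  exact (alg_rat _).mul (h1.sub hx)

theorem alg_x {x r : ℝ} (hr : IsAlgebraic ℚ r) (h : 3 * x ^ 2 - 3 * r * x + r ^ 2 = 1) :
    IsAlgebraic ℚ x := by
  have h1 : IsAlgebraic ℚ (6 * x - 3 * r) := by
    apply alg_of_sq (w := ((12 : ℚ) : ℝ) - ((3 : ℚ) : ℝ) * (r * r))
    · exact (alg_rat 12).sub ((alg_rat 3).mul (hr.mul hr))
    · push_cast; linear_combination 12 * h
  have h2 : x = ((1 / 6 : ℚ) : ℝ) * ((6 * x - 3 * r) + ((3 : ℚ) : ℝ) * r) := by push_cast; ring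
  rw [h2]
  exact (alg_rat _).mul (h1.add ((alg_rat _).mul hr))

theorem alg_ratio {x : ℝ} {m n : ℤ} (hn : (n : ℝ) ≠ 0) (h : x * n = m) : IsAlgebraic ℚ x := by
  have : x = (((m : ℚ) / (n : ℚ) : ℚ) : ℝ) := by
    push_cast
    field_simp
    exact h
  rw [this]
  exact alg_rat _

/-- TARGET 1 -/
theorem shapeE2_alg {N : ℕ} {ℓ θ S A : Fin 3 → ℝ} {β : Fin 3 → Fin 3 → ℕ}
    (h : Data N ℓ θ S A ![![1,0,0],![1,1,0],![1,2,0]] β) : ∀ i j, IsAlgebraic ℚ (S i / S j) := by
  have hA0 : A 0 = θ 0 := by have := h.angles 0; simpa [Fin.sum_univ_three] using this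
  have hA1 : A 1 = θ 0 + θ 1 := by have := h.angles 1; simpa [Fin.sum_univ_three] using this
  have hA2 : A 2 = θ 0 + 2 * θ 1 := by have := h.angles 2; simpa [Fin.sum_univ_three] using this
  obtain ⟨s, x, y, hs, ha, hb, hx, hy, hxy, sa, sb, ca, cb, sab, cab, hs2⟩ :=
    base h (by rw [hA0, hA1, hA2]; ring)
  have hc := h.lpos 2
  have hsA2 : Real.sin (A 2) = (x + y) * s := by
    rw [hA2, show θ 0 + 2 * θ 1 = (θ 0 + θ 1) + θ 1 by ring, Real.sin_add, sab, cab, sb, cb]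
    ring
  have hS0 : S 0 = S 1 * x := by
    have k := h.sineT 0 1
    rw [hA0, hA1, sab, sa] at k
    have : s * (S 0 - S 1 * x) = 0 := by linear_combination k
    rcases mul_eq_zero.1 this with k3 | k3
    · exact absurd k3 hs.ne'
    · linarith
  have hS2 : S 2 = S 1 * (x + y) := by
    have k := h.sineT 2 1
    rw [hsA2, hA1, sab] at k
    have : s * (S 2 - S 1 * (x + y)) = 0 := by linear_combination k
    rcases mul_eq_zero.1 this with k3 | k3
    · exact absurd k3 hs.ne'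
    · linarith
  obtain ⟨M1, -, -, m1, -⟩ := h.char ![1, -1, 1] (by decide) (by decide)
    ⟨2, by decide⟩ (by decide)
  obtain ⟨M2, -, -, m2, -⟩ := h.char ![-1, 1, 1] (by decide) (by decide)
    ⟨2, by decide⟩ (by decide)
  have m1' : S 0 - S 1 + S 2 = M1 * (ℓ 0 - ℓ 1 + ℓ 2) := by
    simp [Fin.sum_univ_three, Fin.prod_univ_three] at m1
    linear_combination m1
  have m2' : - S 0 - S 1 - S 2 = M2 * (- ℓ 0 + ℓ 1 + ℓ 2) := by
    simp [Fin.sum_univ_three, Fin.prod_univ_three] at m2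
    linear_combination m2
  have hS1 := h.Spos 1
  rw [hS0, hS2, ha, hb] at m1' m2'
  -- t(1-x) = M1 c y
  have n1 : S 1 * (1 - x) = M1 * ℓ 2 * y := by
    have : 3 * x * (S 1 * (1 - x) - M1 * ℓ 2 * y) = 0 := by
      linear_combination (-x + y + 1) * m1' - (S 1 + M1 * ℓ 2) * hxy
    rcases mul_eq_zero.1 this with k3 | k3
    · nlinarith
    · linarith
  have n2 : - (S 1 * (1 + x)) = M2 * ℓ 2 * y := by
    have : 3 * x * (- (S 1 * (1 + x)) - M2 * ℓ 2 * y) = 0 := by
      linear_combination (x - y + 1) * m2' - (S 1 + M2 * ℓ 2) * hxy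
    rcases mul_eq_zero.1 this with k3 | k3
    · nlinarith
    · linarith
  have hxa : IsAlgebraic ℚ x := by
    apply alg_ratio (m := -(M1 + M2)) (n := M1 - M2)
    · intro h0
      push_cast at h0
      have : (2 * S 1) = (M1 - M2) * ℓ 2 * y := by linear_combination n1 - n2
      rw [h0] at this
      nlinarith
    · push_cast
      have h5 : ℓ 2 * y * (x * (M1 - M2) + (M1 + M2)) = 0 := by
        linear_combination (-x - 1) * n1 + (x - 1) * n2
      rcases mul_eq_zero.1 h5 with k3 | k3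
      · exact absurd k3 (mul_pos hc hy).ne'
      · linarith
  have hya := alg_y hxa hxy
  exact quot_alg hS1.ne' hS0 (by ring : S 1 = S 1 * 1) hS2 hxa isAlgebraic_one (hxa.add hya)

/-- TARGET 2 -/
theorem shapeE4_alg {N : ℕ} {ℓ θ S A : Fin 3 → ℝ} {β : Fin 3 → Fin 3 → ℕ}
    (h : Data N ℓ θ S A ![![1,0,0],![2,0,0],![0,3,0]] β) : ∀ i j, IsAlgebraic ℚ (S i / S j) := by
  have hA0 : A 0 = θ 0 := by have := h.angles 0; simpa [Fin.sum_univ_three] using this
  have hA1 : A 1 = 2 * θ 0 := by have := h.angles 1; simpa [Fin.sum_univ_three] using this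
  have hA2 : A 2 = 3 * θ 1 := by have := h.angles 2; simpa [Fin.sum_univ_three] using this
  obtain ⟨s, x, y, hs, ha, hb, hx, hy, hxy, sa, sb, ca, cb, sab, cab, hs2⟩ :=
    base h (by rw [hA0, hA1, hA2]; ring)
  have hc := h.lpos 2
  have hsA1 : Real.sin (A 1) = (x * (x + 2 * y)) * s := by
    rw [hA1, Real.sin_two_mul, sa, ca]
    ring
  have hsA2 : Real.sin (A 2) = (3 * x * y * (x + y)) * s := by
    rw [hA2, Real.sin_three_mul, sb]
    linear_combination (-4 * y ^ 3 * s) * hs2 - 3 * y * s * hxy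
  have hS1 : S 1 = S 0 * (x + 2 * y) := by
    have k := h.sineT 1 0
    rw [hA0, hsA1, sa] at k
    have : (x * s) * (S 1 - S 0 * (x + 2 * y)) = 0 := by linear_combination k
    rcases mul_eq_zero.1 this with k3 | k3
    · exact absurd k3 (mul_pos hx hs).ne'
    · linarith
  have hS2 : S 2 = S 0 * (3 * y * (x + y)) := by
    have k := h.sineT 2 0
    rw [hsA2, hA0, sa] at k
    have : (x * s) * (S 2 - S 0 * (3 * y * (x + y))) = 0 := by linear_combination k
    rcases mul_eq_zero.1 this with k3 | k3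
    · exact absurd k3 (mul_pos hx hs).ne'
    · linarith
  obtain ⟨M1, -, -, m1, -⟩ := h.char ![1, -1, 1] (by decide) (by decide)
    ⟨2, by decide⟩ (by decide)
  obtain ⟨M2, -, -, m2, -⟩ := h.char ![-1, 1, 1] (by decide) (by decide)
    ⟨2, by decide⟩ (by decide)
  have m1' : S 0 + S 1 - S 2 = M1 * (ℓ 0 - ℓ 1 + ℓ 2) := by
    simp [Fin.sum_univ_three, Fin.prod_univ_three] at m1
    linear_combination m1
  have m2' : - S 0 + S 1 + S 2 = M2 * (- ℓ 0 + ℓ 1 + ℓ 2) := by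
    simp [Fin.sum_univ_three, Fin.prod_univ_three] at m2
    linear_combination m2
  have hS0 := h.Spos 0
  rw [hS1, hS2, ha, hb] at m1' m2'
  have hxy1 : 0 < x - y + 1 := by nlinarith
  have hxy2 : 0 < -x + y + 1 := by nlinarith
  have n1 : S 0 * (2 * x + y - 1) = M1 * ℓ 2 := by
    have : (x - y + 1) * (S 0 * (2 * x + y - 1) - M1 * ℓ 2) = 0 := by
      linear_combination m1' + 2 * S 0 * hxy
    rcases mul_eq_zero.1 this with k3 | k3
    · exact absurd k3 hxy1.ne'
    · linarith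
  have n2 : S 0 * (2 * x + y + 1) = M2 * ℓ 2 := by
    have : (-x + y + 1) * (S 0 * (2 * x + y + 1) - M2 * ℓ 2) = 0 := by
      linear_combination m2' - 2 * S 0 * hxy
    rcases mul_eq_zero.1 this with k3 | k3
    · exact absurd k3 hxy2.ne'
    · linarith
  have hra : IsAlgebraic ℚ (2 * x + y) := by
    apply alg_ratio (m := M2 + M1) (n := M2 - M1)
    · intro h0
      push_cast at h0
      have : (2 * S 0) = (M2 - M1) * ℓ 2 := by linear_combination n2 - n1
      rw [h0] at this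
      nlinarith
    · push_cast
      have h5 : ℓ 2 * ((2 * x + y) * (M2 - M1) - (M2 + M1)) = 0 := by
        linear_combination (2 * x + y + 1) * n1 + (-(2 * x + y) + 1) * n2
      rcases mul_eq_zero.1 h5 with k3 | k3
      · exact absurd k3 hc.ne'
      · linarith
  have hxa : IsAlgebraic ℚ x := alg_x hra (by linear_combination hxy)
  have hya := alg_y hxa hxy
  have hp1 : IsAlgebraic ℚ (x + 2 * y) := by
    have := hxa.add ((alg_rat 2).mul hya)
    simpa using this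
  have hp2 : IsAlgebraic ℚ (3 * y * (x + y)) := by
    have := ((alg_rat 3).mul hya).mul (hxa.add hya)
    simpa using this
  exact quot_alg hS0.ne' (by ring : S 0 = S 0 * 1) hS1 hS2 isAlgebraic_one hp1 hp2

/-- TARGET 3 -/
theorem shapeE5_alg {N : ℕ} {ℓ θ S A : Fin 3 → ℝ} {β : Fin 3 → Fin 3 → ℕ}
    (h : Data N ℓ θ S A ![![1,0,0],![2,1,0],![0,2,0]] β) : ∀ i j, IsAlgebraic ℚ (S i / S j) := by
  have hA0 : A 0 = θ 0 := by have := h.angles 0; simpa [Fin.sum_univ_three] using this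
  have hA1 : A 1 = 2 * θ 0 + θ 1 := by have := h.angles 1; simpa [Fin.sum_univ_three] using this
  have hA2 : A 2 = 2 * θ 1 := by have := h.angles 2; simpa [Fin.sum_univ_three] using this
  obtain ⟨s, x, y, hs, ha, hb, hx, hy, hxy, sa, sb, ca, cb, sab, cab, hs2⟩ :=
    base h (by rw [hA0, hA1, hA2]; ring)
  have hc := h.lpos 2
  have hsA1 : Real.sin (A 1) = (x + y) * s := by
    rw [hA1, show 2 * θ 0 + θ 1 = (θ 0 + θ 1) + θ 0 by ring, Real.sin_add, sab, cab, sa, ca]
    ring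
  have hsA2 : Real.sin (A 2) = (y * (2 * x + y)) * s := by
    rw [hA2, Real.sin_two_mul, sb, cb]
    ring
  obtain ⟨t, ht, hS0⟩ : ∃ t : ℝ, 0 < t ∧ S 0 = t * x :=
    ⟨S 0 / x, div_pos (h.Spos 0) hx, by field_simp⟩
  have hS1 : S 1 = t * (x + y) := by
    have k := h.sineT 1 0
    rw [hA0, hsA1, sa, hS0] at k
    have : (x * s) * (S 1 - t * (x + y)) = 0 := by linear_combination k
    rcases mul_eq_zero.1 this with k3 | k3
    · exact absurd k3 (mul_pos hx hs).ne'
    · linarith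
  have hS2 : S 2 = t * (y * (2 * x + y)) := by
    have k := h.sineT 2 0
    rw [hsA2, hA0, sa, hS0] at k
    have : (x * s) * (S 2 - t * (y * (2 * x + y))) = 0 := by linear_combination k
    rcases mul_eq_zero.1 this with k3 | k3
    · exact absurd k3 (mul_pos hx hs).ne'
    · linarith
  obtain ⟨M1, -, -, m1, -⟩ := h.char ![1, -1, 1] (by decide) (by decide)
    ⟨2, by decide⟩ (by decide)
  obtain ⟨M2, -, -, m2, -⟩ := h.char ![-1, 1, 1] (by decide) (by decide)
    ⟨2, by decide⟩ (by decide)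
  have m1' : S 0 - S 1 + S 2 = M1 * (ℓ 0 - ℓ 1 + ℓ 2) := by
    simp [Fin.sum_univ_three, Fin.prod_univ_three] at m1
    linear_combination m1
  have m2' : - S 0 + S 1 + S 2 = M2 * (- ℓ 0 + ℓ 1 + ℓ 2) := by
    simp [Fin.sum_univ_three, Fin.prod_univ_three] at m2
    linear_combination m2
  rw [hS0, hS1, hS2, ha, hb] at m1' m2'
  have hxyp : 0 < 3 * x * y := by positivity
  have n1 : t * (1 - x) = M1 * ℓ 2 := by
    have : (3 * x * y) * (t * (1 - x) - M1 * ℓ 2) = 0 := by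
      linear_combination (-x + y + 1) * m1' - (t * y + M1 * ℓ 2) * hxy
    rcases mul_eq_zero.1 this with k3 | k3
    · exact absurd k3 hxyp.ne'
    · linarith
  have n2 : t * (1 + x) = M2 * ℓ 2 := by
    have : (3 * x * y) * (t * (1 + x) - M2 * ℓ 2) = 0 := by
      linear_combination (x - y + 1) * m2' + (t * y - M2 * ℓ 2) * hxy
    rcases mul_eq_zero.1 this with k3 | k3
    · exact absurd k3 hxyp.ne'
    · linarith
  have hxa : IsAlgebraic ℚ x := by
    apply alg_ratio (m := M2 - M1) (n := M2 + M1)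
    · intro h0
      push_cast at h0
      have : (2 * t) = (M2 + M1) * ℓ 2 := by linear_combination n2 + n1
      rw [h0] at this
      nlinarith
    · push_cast
      have h5 : ℓ 2 * (x * (M2 + M1) - (M2 - M1)) = 0 := by
        linear_combination (-x - 1) * n1 + (-x + 1) * n2
      rcases mul_eq_zero.1 h5 with k3 | k3
      · exact absurd k3 hc.ne'
      · linarith
  have hya := alg_y hxa hxy
  have hp2 : IsAlgebraic ℚ (y * (2 * x + y)) := by
    have := hya.mul (((alg_rat 2).mul hxa).add hya)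
    simpa using this
  exact quot_alg ht.ne' hS0 hS1 hS2 hxa (hxa.add hya) hp2

/-- TARGET 4 -/
theorem shapeE6_alg {N : ℕ} {ℓ θ S A : Fin 3 → ℝ} {β : Fin 3 → Fin 3 → ℕ}
    (h : Data N ℓ θ S A ![![2,0,0],![1,1,0],![0,2,0]] β) : ∀ i j, IsAlgebraic ℚ (S i / S j) := by
  have hA0 : A 0 = 2 * θ 0 := by have := h.angles 0; simpa [Fin.sum_univ_three] using this
  have hA1 : A 1 = θ 0 + θ 1 := by have := h.angles 1; simpa [Fin.sum_univ_three] using this
  have hA2 : A 2 = 2 * θ 1 := by have := h.angles 2; simpa [Fin.sum_univ_three] using this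
  obtain ⟨s, x, y, hs, ha, hb, hx, hy, hxy, sa, sb, ca, cb, sab, cab, hs2⟩ :=
    base h (by rw [hA0, hA1, hA2]; ring)
  have hc := h.lpos 2
  have hsA0 : Real.sin (A 0) = (x * (x + 2 * y)) * s := by
    rw [hA0, Real.sin_two_mul, sa, ca]
    ring
  have hsA2 : Real.sin (A 2) = (y * (2 * x + y)) * s := by
    rw [hA2, Real.sin_two_mul, sb, cb]
    ring
  have hS1 := h.Spos 1
  have hS0 : S 0 = S 1 * (x * (x + 2 * y)) := by
    have k := h.sineT 0 1
    rw [hA1, sab, hsA0] at k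
    have : s * (S 0 - S 1 * (x * (x + 2 * y))) = 0 := by linear_combination k
    rcases mul_eq_zero.1 this with k3 | k3
    · exact absurd k3 hs.ne'
    · linarith
  have hS2 : S 2 = S 1 * (y * (2 * x + y)) := by
    have k := h.sineT 2 1
    rw [hsA2, hA1, sab] at k
    have : s * (S 2 - S 1 * (y * (2 * x + y))) = 0 := by linear_combination k
    rcases mul_eq_zero.1 this with k3 | k3
    · exact absurd k3 hs.ne'
    · linarith
  obtain ⟨M1, -, -, m1, -⟩ := h.char ![1, -1, 1] (by decide) (by decide)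
    ⟨2, by decide⟩ (by decide)
  obtain ⟨M2, -, -, m2, -⟩ := h.char ![-1, 1, 1] (by decide) (by decide)
    ⟨2, by decide⟩ (by decide)
  have m1' : S 0 - S 1 + S 2 = M1 * (ℓ 0 - ℓ 1 + ℓ 2) := by
    simp [Fin.sum_univ_three, Fin.prod_univ_three] at m1
    linear_combination m1
  have m2' : S 0 - S 1 + S 2 = M2 * (- ℓ 0 + ℓ 1 + ℓ 2) := by
    simp [Fin.sum_univ_three, Fin.prod_univ_three] at m2
    linear_combination m2
  rw [hS0, hS2, ha, hb] at m1' m2'
  have hxyp : 0 < 3 * x * y := by positivity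
  have n1 : S 1 * (-x + y + 1) = M1 * ℓ 2 := by
    have : (3 * x * y) * (S 1 * (-x + y + 1) - M1 * ℓ 2) = 0 := by
      linear_combination (-x + y + 1) * m1' + (- S 1 * (-x + y + 1) - M1 * ℓ 2) * hxy
    rcases mul_eq_zero.1 this with k3 | k3
    · exact absurd k3 hxyp.ne'
    · linarith
  have n2 : S 1 * (x - y + 1) = M2 * ℓ 2 := by
    have : (3 * x * y) * (S 1 * (x - y + 1) - M2 * ℓ 2) = 0 := by
      linear_combination (x - y + 1) * m2' + (- S 1 * (x - y + 1) - M2 * ℓ 2) * hxy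
    rcases mul_eq_zero.1 this with k3 | k3
    · exact absurd k3 hxyp.ne'
    · linarith
  have hra : IsAlgebraic ℚ (x - y) := by
    apply alg_ratio (m := M2 - M1) (n := M2 + M1)
    · intro h0
      push_cast at h0
      have : (2 * S 1) = (M2 + M1) * ℓ 2 := by linear_combination n2 + n1
      rw [h0] at this
      nlinarith
    · push_cast
      have h5 : ℓ 2 * ((x - y) * (M2 + M1) - (M2 - M1)) = 0 := by
        linear_combination (-(x - y) - 1) * n1 + (-(x - y) + 1) * n2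
      rcases mul_eq_zero.1 h5 with k3 | k3
      · exact absurd k3 hc.ne'
      · linarith
  have hxa : IsAlgebraic ℚ x := alg_x hra (by linear_combination hxy)
  have hya := alg_y hxa hxy
  have hp0 : IsAlgebraic ℚ (x * (x + 2 * y)) := by
    have := hxa.mul (hxa.add ((alg_rat 2).mul hya))
    simpa using this
  have hp2 : IsAlgebraic ℚ (y * (2 * x + y)) := by
    have := hya.mul (((alg_rat 2).mul hxa).add hya)
    simpa using this
  exact quot_alg hS1.ne' hS0 (by ring : S 1 = S 1 * 1) hS2 hp0 isAlgebraic_one hp2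

end Pool.Agent.Helper549.Tri.AlgE
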