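import Mathlib
import Pool.Agent.Helper549.Tri.Defs
set_option autoImplicit false
noncomputable section
open scoped BigOperators
open MeasureTheory

namespace Pool.Agent.Helper549.Tri.Basic

theorem fin3_cases (k : Fin 3) : k = 0 ∨ k = 1 ∨ k = 2 := by
  fin_cases k <;> simp

theorem e01 : (0 : Fin 3) + 1 = 1 := rfl

theorem e02 : (0 : Fin 3) + 2 = 2 := rfl

theorem e11 : (1 : Fin 3) + 1 = 2 := rfl

theorem e12 : (1 : Fin 3) + 2 = 0 := rfl

theorem e21 : (2 : Fin 3) + 1 = 0 := rfl

theorem e22 : (2 : Fin 3) + 2 = 1 := rfl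

theorem lam_self (v : Fin 3 → ℂ) (k : Fin 3) : lam v k (v k) = dd v := by
  obtain rfl | rfl | rfl := fin3_cases k <;>
  simp only [lam, sd, dd, cr, e01, e02, e11, e12, e21, e22, Complex.sub_re, Complex.sub_im] <;>
  ring

theorem lam_next (v : Fin 3 → ℂ) (k : Fin 3) : lam v k (v (k + 1)) = 0 := by
  simp [lam, cr]

theorem lam_prev (v : Fin 3 → ℂ) (k : Fin 3) : lam v k (v (k + 2)) = 0 := by
  simp only [lam, sd, cr]
  ring

theorem lam_sum (v : Fin 3 → ℂ) (p : ℂ) : lam v 0 p + lam v 1 p + lam v 2 p = dd v := by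
  simp only [lam, sd, dd, cr, e01, e02, e11, e12, e21, e22, Complex.sub_re, Complex.sub_im]
  ring

theorem lam_affine (v : Fin 3 → ℂ) (k : Fin 3) (p q : ℂ) (a b : ℝ) (hab : a + b = 1) :
    lam v k (a • p + b • q) = a * lam v k p + b * lam v k q := by
  have hb : b = 1 - a := by linarith
  subst hb
  simp only [lam, sd, cr, Complex.sub_re, Complex.sub_im, Complex.add_re, Complex.add_im,
    Complex.real_smul, Complex.re_ofReal_mul, Complex.im_ofReal_mul]
  ring

theorem bary (v : Fin 3 → ℂ) (hv : 0 < dd v) (p : ℂ) :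
    p = (lam v 0 p / dd v) • v 0 + (lam v 1 p / dd v) • v 1 + (lam v 2 p / dd v) • v 2 := by
  have hd : dd v ≠ 0 := hv.ne'
  have hre : dd v * p.re = lam v 0 p * (v 0).re + lam v 1 p * (v 1).re + lam v 2 p * (v 2).re := by
    simp only [lam, sd, dd, cr, e01, e02, e11, e12, e21, e22, Complex.sub_re, Complex.sub_im]
    ring
  have him : dd v * p.im = lam v 0 p * (v 0).im + lam v 1 p * (v 1).im + lam v 2 p * (v 2).im := by
    simp only [lam, sd, dd, cr, e01, e02, e11, e12, e21, e22, Complex.sub_re, Complex.sub_im]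
    ring
  apply Complex.ext
  · simp only [Complex.add_re, Complex.real_smul, Complex.re_ofReal_mul]
    field_simp
    linarith
  · simp only [Complex.add_im, Complex.real_smul, Complex.im_ofReal_mul]
    field_simp
    linarith

/-- general barycentric formula starting at `k` -/
theorem bary' (v : Fin 3 → ℂ) (hv : 0 < dd v) (k : Fin 3) (p : ℂ) :
    p = (lam v k p / dd v) • v k + (lam v (k + 1) p / dd v) • v (k + 1) +
      (lam v (k + 2) p / dd v) • v (k + 2) := by
  have h := bary v hv p
  obtain rfl | rfl | rfl := fin3_cases k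
  · exact h
  · rw [e11, e12]
    calc p = _ := h
      _ = _ := by abel
  · rw [e21, e22]
    calc p = _ := h
      _ = _ := by abel

theorem lam_sum' (v : Fin 3 → ℂ) (k : Fin 3) (p : ℂ) :
    lam v k p + lam v (k + 1) p + lam v (k + 2) p = dd v := by
  have h := lam_sum v p
  obtain rfl | rfl | rfl := fin3_cases k
  · exact h
  · rw [e11, e12]; linarith
  · rw [e21, e22]; linarith

theorem mem_hull (v : Fin 3 → ℂ) (hv : 0 < dd v) (p : ℂ) :
    p ∈ hull v ↔ ∀ k, 0 ≤ lam v k p := by
  constructor
  · intro hp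
    have hconv : Convex ℝ {p : ℂ | ∀ k, 0 ≤ lam v k p} := by
      intro p hp q hq a b ha hb hab k
      rw [lam_affine v k p q a b hab]
      exact add_nonneg (mul_nonneg ha (hp k)) (mul_nonneg hb (hq k))
    have hsub : Set.range v ⊆ {p : ℂ | ∀ k, 0 ≤ lam v k p} := by
      rintro _ ⟨j, rfl⟩ k
      have h1 := lam_self v k
      have h2 := lam_next v k
      have h3 := lam_prev v k
      obtain h | h | h : j = k ∨ j = k + 1 ∨ j = k + 2 := by
        obtain rfl | rfl | rfl := fin3_cases k <;> obtain rfl | rfl | rfl := fin3_cases j <;>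
          simp [e01, e02, e11, e12, e21, e22]
      · rw [h, h1]; exact hv.le
      · rw [h, h2]
      · rw [h, h3]
    exact convexHull_min hsub hconv hp
  · intro h
    rw [bary v hv p]
    have hc : Convex ℝ (hull v) := convex_convexHull ℝ _
    have hmem : ∀ i, v i ∈ hull v := fun i => subset_convexHull ℝ _ ⟨i, rfl⟩
    have h2 := hc.sum_mem (t := Finset.univ) (w := fun i => lam v i p / dd v) (z := v)
      (fun i _ => div_nonneg (h i) hv.le)
      (by rw [Fin.sum_univ_three, ← add_div, ← add_div, lam_sum, div_self hv.ne'])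
      (fun i _ => hmem i)
    rw [Fin.sum_univ_three] at h2
    exact h2

theorem lam_cont (v : Fin 3 → ℂ) (k : Fin 3) : Continuous (lam v k) := by
  unfold lam cr
  fun_prop

theorem mem_int (v : Fin 3 → ℂ) (hv : 0 < dd v) (p : ℂ) :
    p ∈ interior (hull v) ↔ ∀ k, 0 < lam v k p := by
  constructor
  · intro hp k
    have hp0 := (mem_hull v hv p).1 (interior_subset hp) k
    rcases lt_or_eq_of_le hp0 with h | h
    · exact h
    · exfalso
      have hc : ContinuousAt (fun s : ℝ => ((1 + s) • p + (-s) • v k : ℂ)) 0 := by fun_prop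
      have hm : interior (hull v) ∈ nhds ((fun s : ℝ => ((1 + s) • p + (-s) • v k : ℂ)) 0) := by
        apply isOpen_interior.mem_nhds
        simpa using hp
      have hev := hc.eventually_mem hm
      obtain ⟨δ, hδ, hδ2⟩ := Metric.eventually_nhds_iff.1 hev
      have h3 := hδ2 (y := δ / 2) (by
        rw [Real.dist_eq, sub_zero, abs_of_pos (by positivity)]; linarith)
      have h4 := (mem_hull v hv _).1 (interior_subset h3) k
      rw [lam_affine v k _ _ _ _ (by ring), ← h, lam_self] at h4
      nlinarith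
  · intro h
    have hopen : IsOpen {p : ℂ | ∀ k, 0 < lam v k p} := by
      have : {p : ℂ | ∀ k, 0 < lam v k p} = ⋂ k, {p | 0 < lam v k p} := by
        ext; simp
      rw [this]
      exact isOpen_iInter_of_finite fun k => isOpen_lt continuous_const (lam_cont v k)
    have hsub : {p : ℂ | ∀ k, 0 < lam v k p} ⊆ hull v := by
      intro q hq
      exact (mem_hull v hv q).2 fun k => (hq k).le
    exact interior_maximal hsub hopen h

theorem onSide_iff (v : Fin 3 → ℂ) (hv : 0 < dd v) (k : Fin 3) (p : ℂ) :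
    onSide v k p ↔ lam v k p = 0 ∧ 0 < lam v (k + 1) p ∧ 0 < lam v (k + 2) p := by
  constructor
  · rintro ⟨a, b, ha, hb, hab, rfl⟩
    rw [lam_affine v k _ _ _ _ hab, lam_affine v (k + 1) _ _ _ _ hab,
      lam_affine v (k + 2) _ _ _ _ hab, lam_self, lam_self, lam_next, lam_prev]
    have h1 : lam v (k + 1) (v (k + 2)) = 0 := by
      have := lam_next v (k + 1)
      rwa [show k + 1 + 1 = k + 2 by
        obtain rfl | rfl | rfl := fin3_cases k <;> rfl] at this
    have h2 : lam v (k + 2) (v (k + 1)) = 0 := by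
      have := lam_prev v (k + 2)
      rwa [show k + 2 + 2 = k + 1 by
        obtain rfl | rfl | rfl := fin3_cases k <;> rfl] at this
    rw [h1, h2]
    refine ⟨by ring, ?_, ?_⟩
    · have := mul_pos ha hv; linarith
    · have := mul_pos hb hv; linarith
  · rintro ⟨h1, h2, h3⟩
    refine ⟨lam v (k + 1) p / dd v, lam v (k + 2) p / dd v, div_pos h2 hv, div_pos h3 hv, ?_, ?_⟩
    · have h4 := lam_sum' v k p
      rw [h1] at h4
      rw [← add_div, div_eq_one_iff_eq hv.ne']
      linarith
    · have h4 := bary' v hv k p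
      rw [h1, zero_div, zero_smul, zero_add] at h4
      exact h4.symm

theorem len_pos (v : Fin 3 → ℂ) (hv : 0 < dd v) (k : Fin 3) : 0 < len v k := by
  unfold len
  rw [norm_pos_iff]
  intro h
  have h1 := lam_self v k
  rw [lam, h] at h1
  simp [cr] at h1
  linarith

theorem norm_dir (v : Fin 3 → ℂ) (hv : 0 < dd v) (k : Fin 3) : ‖dir v k‖ = 1 := by
  have h := len_pos v hv k
  rw [dir, norm_div, Complex.norm_real, Real.norm_of_nonneg h.le]
  show len v k / len v k = 1
  exact div_self h.ne'

theorem sd_eq (v : Fin 3 → ℂ) (hv : 0 < dd v) (k : Fin 3) : sd v k = (len v k : ℂ) * dir v k := by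
  have h := len_pos v hv k
  rw [dir, mul_div_cancel₀]
  exact_mod_cast h.ne'

theorem lam_eq (v : Fin 3 → ℂ) (hv : 0 < dd v) (k : Fin 3) (p : ℂ) :
    lam v k p = len v k * (cr (dir v k) p - lev v k) := by
  rw [lam, sd_eq v hv k, lev]
  simp only [cr, Complex.re_ofReal_mul, Complex.im_ofReal_mul, Complex.sub_re, Complex.sub_im]
  ring

theorem vertex_cases (v : Fin 3 → ℂ) (hv : 0 < dd v) (p : ℂ) (hp : p ∈ hull v) :
    p ∈ interior (hull v) ∨ (∃ k, onSide v k p) ∨ (∃ k, p = v k) := by
  have h := (mem_hull v hv p).1 hp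
  by_cases h0 : ∀ k, 0 < lam v k p
  · exact Or.inl ((mem_int v hv p).2 h0)
  · right
    push Not at h0
    obtain ⟨k, hk⟩ := h0
    have hk0 : lam v k p = 0 := le_antisymm hk (h k)
    have hsum := lam_sum' v k p
    have hb := bary' v hv k p
    rcases lt_or_eq_of_le (h (k + 1)) with h1 | h1
    · rcases lt_or_eq_of_le (h (k + 2)) with h2 | h2
      · left
        exact ⟨k, (onSide_iff v hv k p).2 ⟨hk0, h1, h2⟩⟩
      · right
        refine ⟨k + 1, ?_⟩
        have h3 : lam v (k + 1) p = dd v := by linarith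
        rw [hk0, ← h2, h3, div_self hv.ne', zero_div, zero_smul, zero_smul, one_smul, zero_add,
          add_zero] at hb
        exact hb
    · right
      refine ⟨k + 2, ?_⟩
      have h3 : lam v (k + 2) p = dd v := by linarith
      rw [hk0, ← h1, h3, div_self hv.ne', zero_div, zero_smul, zero_smul, one_smul, zero_add,
        zero_add] at hb
      exact hb

theorem vertex_inj (v : Fin 3 → ℂ) (hv : 0 < dd v) : Function.Injective v := by
  intro i j hij
  by_contra hne
  have h1 := lam_self v i
  have h2 := lam_next v i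
  have h3 := lam_prev v i
  obtain h | h : j = i + 1 ∨ j = i + 2 := by
    obtain rfl | rfl | rfl := fin3_cases i <;> obtain rfl | rfl | rfl := fin3_cases j <;>
      simp [e01, e02, e11, e12, e21, e22] at hne ⊢
  · rw [← h, ← hij] at h2; linarith
  · rw [← h, ← hij] at h3; linarith

theorem hull_closed (v : Fin 3 → ℂ) : IsClosed (hull v) := by
  exact ((Set.finite_range v).isCompact_convexHull (𝕜 := ℝ)).isClosed

theorem hull_null_frontier (v : Fin 3 → ℂ) : volume (frontier (hull v)) = 0 := by
  exact (convex_convexHull ℝ (Set.range v)).addHaar_frontier volume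

end Pool.Agent.Helper549.Tri.Basic
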