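import Mathlib
import Pool.Agent.Helper549.Tri.Defs
import Pool.Agent.Helper549.Tri.Basic
set_option autoImplicit false
noncomputable section
open scoped BigOperators
open MeasureTheory

namespace Pool.Agent.Helper549.Tri.Angles
open Pool.Agent.Helper549.Tri.Basic

/- TARGETS below -/
theorem aux_inner (A B : ℂ) : inner ℝ A B = A.re * B.re + A.im * B.im := by
  rw [Complex.inner]
  simp [Complex.mul_re]
  ring

theorem aux_cos (A B : ℂ) :
    ‖A‖ * ‖B‖ * Real.cos (InnerProductGeometry.angle A B) = A.re * B.re + A.im * B.im := by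
  have h := InnerProductGeometry.cos_angle_mul_norm_mul_norm A B
  rw [aux_inner] at h
  linarith

theorem aux_sin (A B : ℂ) (h : 0 < cr A B) :
    ‖A‖ * ‖B‖ * Real.sin (InnerProductGeometry.angle A B) = cr A B := by
  have h1 := InnerProductGeometry.sin_angle_mul_norm_mul_norm A B
  rw [aux_inner, aux_inner, aux_inner] at h1
  have h2 : (A.re * A.re + A.im * A.im) * (B.re * B.re + B.im * B.im) -
      (A.re * B.re + A.im * B.im) * (A.re * B.re + A.im * B.im) = cr A B ^ 2 := by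
    unfold cr
    ring
  rw [h2, Real.sqrt_sq h.le] at h1
  linarith

theorem aux_norm_pos (A B : ℂ) (h : 0 < cr A B) : 0 < ‖A‖ ∧ 0 < ‖B‖ := by
  constructor
  · rw [norm_pos_iff]
    rintro rfl
    simp [cr] at h
  · rw [norm_pos_iff]
    rintro rfl
    simp [cr] at h

theorem aux_sin_pos (A B : ℂ) (h : 0 < cr A B) :
    0 < Real.sin (InnerProductGeometry.angle A B) := by
  have h1 := aux_sin A B h
  obtain ⟨hA, hB⟩ := aux_norm_pos A B h
  by_contra hn
  push Not at hn
  have : ‖A‖ * ‖B‖ * Real.sin (InnerProductGeometry.angle A B) ≤ 0 :=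
    mul_nonpos_of_nonneg_of_nonpos (by positivity) hn
  linarith

theorem aux_angle_pos (A B : ℂ) (h : 0 < cr A B) : 0 < InnerProductGeometry.angle A B := by
  have h1 := aux_sin_pos A B h
  rcases (InnerProductGeometry.angle_nonneg A B).lt_or_eq with h2 | h2
  · exact h2
  · rw [← h2, Real.sin_zero] at h1
    exact absurd h1 (lt_irrefl _)

theorem aux_angle_lt (A B : ℂ) (h : 0 < cr A B) :
    InnerProductGeometry.angle A B < Real.pi := by
  have h1 := aux_sin_pos A B h
  rcases (InnerProductGeometry.angle_le_pi A B).lt_or_eq with h2 | h2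
  · exact h2
  · rw [h2, Real.sin_pi] at h1
    exact absurd h1 (lt_irrefl _)

theorem aux_exp (A B : ℂ) (h : 0 < cr A B) :
    A / (‖A‖ : ℂ) = Complex.exp (-(InnerProductGeometry.angle A B : ℂ) * Complex.I) *
      (B / (‖B‖ : ℂ)) := by
  obtain ⟨hA, hB⟩ := aux_norm_pos A B h
  have hc := aux_cos A B
  have hs := aux_sin A B h
  have hA' : (‖A‖ : ℂ) ≠ 0 := by exact_mod_cast hA.ne'
  have hB' : (‖B‖ : ℂ) ≠ 0 := by exact_mod_cast hB.ne'
  have e1 : Complex.exp (-(InnerProductGeometry.angle A B : ℂ) * Complex.I) =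
      (Real.cos (InnerProductGeometry.angle A B) : ℂ) -
        (Real.sin (InnerProductGeometry.angle A B) : ℂ) * Complex.I := by
    rw [Complex.exp_mul_I, Complex.cos_neg, Complex.sin_neg, Complex.ofReal_cos,
      Complex.ofReal_sin]
    ring
  rw [e1]
  set c := Real.cos (InnerProductGeometry.angle A B) with hcdef
  set s := Real.sin (InnerProductGeometry.angle A B) with hsdef
  have hBsq : B.re ^ 2 + B.im ^ 2 = ‖B‖ ^ 2 := by
    rw [← Complex.normSq_eq_norm_sq, Complex.normSq_apply]; ring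
  unfold cr at hs
  have k1 : A.re * ‖B‖ = ‖A‖ * (c * B.re + s * B.im) := by
    apply mul_right_cancel₀ hB.ne'
    have e2 : ‖A‖ * (c * B.re + s * B.im) * ‖B‖ =
      (‖A‖ * ‖B‖ * c) * B.re + (‖A‖ * ‖B‖ * s) * B.im := by ring
    rw [e2, hc, hs]
    have : A.re * ‖B‖ * ‖B‖ = A.re * (‖B‖ ^ 2) := by ring
    rw [this, ← hBsq]
    ring
  have k2 : A.im * ‖B‖ = ‖A‖ * (c * B.im - s * B.re) := by
    apply mul_right_cancel₀ hB.ne'
    have e2 : ‖A‖ * (c * B.im - s * B.re) * ‖B‖ =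
      (‖A‖ * ‖B‖ * c) * B.im - (‖A‖ * ‖B‖ * s) * B.re := by ring
    rw [e2, hc, hs]
    have : A.im * ‖B‖ * ‖B‖ = A.im * (‖B‖ ^ 2) := by ring
    rw [this, ← hBsq]
    ring
  have key : (A : ℂ) * (‖B‖ : ℂ) = (‖A‖ : ℂ) * (((c : ℂ) - (s : ℂ) * Complex.I) * B) := by
    apply Complex.ext
    · simp only [Complex.mul_re, Complex.mul_im, Complex.sub_re, Complex.sub_im,
        Complex.ofReal_re, Complex.ofReal_im, Complex.I_re, Complex.I_im]
      linarith [k1]
    · simp only [Complex.mul_re, Complex.mul_im, Complex.sub_re, Complex.sub_im,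
        Complex.ofReal_re, Complex.ofReal_im, Complex.I_re, Complex.I_im]
      linarith [k2]
  rw [mul_div_assoc', div_eq_div_iff hA' hB', key]
  ring

theorem aux_cr (v : Fin 3 → ℂ) (k : Fin 3) :
    cr (v (k + 1) - v k) (v (k + 2) - v k) = dd v := by
  fin_cases k
  · simp [dd]
  · have e1 : (1 : Fin 3) + 1 = 2 := rfl
    have e2 : (1 : Fin 3) + 2 = 0 := rfl
    simp only [Fin.mk_one, e1, e2, dd, cr, Complex.sub_re, Complex.sub_im]
    ring
  · have e1 : (2 : Fin 3) + 1 = 0 := rfl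
    have e2 : (2 : Fin 3) + 2 = 1 := rfl
    simp only [Fin.reduceFinMk, e1, e2, dd, cr, Complex.sub_re, Complex.sub_im]
    ring

theorem aux_ang (v : Fin 3 → ℂ) (k : Fin 3) :
    ang v k = InnerProductGeometry.angle (v (k + 1) - v k) (v (k + 2) - v k) := by
  unfold ang EuclideanGeometry.angle
  simp [vsub_eq_sub]

theorem aux_sd2 (v : Fin 3 → ℂ) (k : Fin 3) : sd v (k + 2) = v (k + 1) - v k := by
  have e1 : k + 2 + 2 = k + 1 := by fin_cases k <;> rfl
  have e2 : k + 2 + 1 = k := by fin_cases k <;> rfl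
  unfold sd
  rw [e1, e2]

theorem aux_sd1 (v : Fin 3 → ℂ) (k : Fin 3) : sd v (k + 1) = -(v (k + 2) - v k) := by
  have e1 : k + 1 + 2 = k := by fin_cases k <;> rfl
  have e2 : k + 1 + 1 = k + 2 := by fin_cases k <;> rfl
  unfold sd
  rw [e1, e2]
  ring

theorem ang_pos (v : Fin 3 → ℂ) (hv : 0 < dd v) (k : Fin 3) : 0 < ang v k := by
  rw [aux_ang]
  exact aux_angle_pos _ _ (by rw [aux_cr]; exact hv)

theorem ang_lt_pi (v : Fin 3 → ℂ) (hv : 0 < dd v) (k : Fin 3) : ang v k < Real.pi := by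
  rw [aux_ang]
  exact aux_angle_lt _ _ (by rw [aux_cr]; exact hv)

theorem ang_sum (v : Fin 3 → ℂ) (hv : 0 < dd v) : ang v 0 + ang v 1 + ang v 2 = Real.pi := by
  have hinj := vertex_inj v hv
  have h10 : v 1 ≠ v 0 := fun h => absurd (hinj h) (by decide)
  have h20 : v 2 ≠ v 0 := fun h => absurd (hinj h) (by decide)
  have h := EuclideanGeometry.angle_add_angle_add_angle_eq_pi (p₁ := v 0) (p₂ := v 1) (v 2) h10
  unfold ang
  have e1 : (0 : Fin 3) + 1 = 1 := rfl
  have e2 : (0 : Fin 3) + 2 = 2 := rfl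
  have e3 : (1 : Fin 3) + 1 = 2 := rfl
  have e4 : (1 : Fin 3) + 2 = 0 := rfl
  have e5 : (2 : Fin 3) + 1 = 0 := rfl
  have e6 : (2 : Fin 3) + 2 = 1 := rfl
  rw [e1, e2, e3, e4, e5, e6]
  have s1 := EuclideanGeometry.angle_comm (v 1) (v 0) (v 2)
  have s2 := EuclideanGeometry.angle_comm (v 2) (v 1) (v 0)
  have s3 := EuclideanGeometry.angle_comm (v 0) (v 2) (v 1)
  linarith

theorem dir_rel (v : Fin 3 → ℂ) (hv : 0 < dd v) (k : Fin 3) :
    dir v (k + 2) = - Complex.exp (-(ang v k : ℂ) * Complex.I) * dir v (k + 1) := by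
  have h := aux_exp (v (k + 1) - v k) (v (k + 2) - v k) (by rw [aux_cr]; exact hv)
  unfold dir len
  rw [aux_sd2, aux_sd1, aux_ang, norm_neg, h]
  ring

theorem dd_eq (v : Fin 3 → ℂ) (hv : 0 < dd v) (k : Fin 3) :
    dd v = len v (k + 1) * len v (k + 2) * Real.sin (ang v k) := by
  have h := aux_sin (v (k + 1) - v k) (v (k + 2) - v k) (by rw [aux_cr]; exact hv)
  unfold len
  rw [aux_sd2, aux_sd1, aux_ang, norm_neg]
  rw [aux_cr] at h
  rw [← h]
  ring

theorem sine_law (v : Fin 3 → ℂ) (hv : 0 < dd v) (k l : Fin 3) :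
    len v k * Real.sin (ang v l) = len v l * Real.sin (ang v k) := by
  have h0 := dd_eq v hv 0
  have h1 := dd_eq v hv 1
  have h2 := dd_eq v hv 2
  have e1 : (0 : Fin 3) + 1 = 1 := rfl
  have e2 : (0 : Fin 3) + 2 = 2 := rfl
  have e3 : (1 : Fin 3) + 1 = 2 := rfl
  have e4 : (1 : Fin 3) + 2 = 0 := rfl
  have e5 : (2 : Fin 3) + 1 = 0 := rfl
  have e6 : (2 : Fin 3) + 2 = 1 := rfl
  rw [e1, e2] at h0
  rw [e3, e4] at h1
  rw [e5, e6] at h2
  have p0 := len_pos v hv 0
  have p1 := len_pos v hv 1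
  have p2 := len_pos v hv 2
  have a01 : len v 0 * Real.sin (ang v 1) = len v 1 * Real.sin (ang v 0) := by
    apply mul_left_cancel₀ p2.ne'
    linarith [h0, h1, mul_comm (len v 2) (len v 0 * Real.sin (ang v 1))]
  have a02 : len v 0 * Real.sin (ang v 2) = len v 2 * Real.sin (ang v 0) := by
    apply mul_left_cancel₀ p1.ne'
    linarith [h0, h2, mul_comm (len v 2) (len v 0 * Real.sin (ang v 1))]
  have a12 : len v 1 * Real.sin (ang v 2) = len v 2 * Real.sin (ang v 1) := by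
    apply mul_left_cancel₀ p0.ne'
    linarith [h1, h2, mul_comm (len v 2) (len v 0 * Real.sin (ang v 1))]
  fin_cases k <;> fin_cases l <;> simp_all

end Pool.Agent.Helper549.Tri.Angles
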