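import Mathlib
import Pool.Agent.Helper549.Tri.Defs
import Pool.Agent.Helper549.Tri.Basic
set_option autoImplicit false
noncomputable section
open scoped BigOperators
open MeasureTheory

namespace Pool.Agent.Helper549.Tri.Sector
open Pool.Agent.Helper549.Tri.Basic

open Set in
theorem polar_vol (S : Set ℂ) (hS : MeasurableSet S) (θ r : ℝ) (h0 : 0 < θ) (h1 : θ ≤ Real.pi)
    (hr : 0 < r) (h : ∀ ρ φ : ℝ, 0 < ρ → -Real.pi < φ → φ < Real.pi →
      (((ρ : ℂ) * ((Real.cos φ : ℂ) + (Real.sin φ : ℂ) * Complex.I)) ∈ S ↔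
        (ρ < r ∧ 0 ≤ φ ∧ φ ≤ θ))) :
    volume S = ENNReal.ofReal (θ / 2 * r ^ 2) := by
  have hpi := Real.pi_pos
  rw [← lintegral_indicator_one hS, ← Complex.lintegral_comp_polarCoord_symm]
  have htgt : polarCoord.target = Ioi (0 : ℝ) ×ˢ Ioo (-Real.pi) Real.pi := rfl
  rw [htgt]
  have e1 : ∫⁻ p in Ioi (0 : ℝ) ×ˢ Ioo (-Real.pi) Real.pi,
      ENNReal.ofReal p.1 • S.indicator (1 : ℂ → ENNReal) (Complex.polarCoord.symm p) =
      ∫⁻ p in Ioi (0 : ℝ) ×ˢ Ioo (-Real.pi) Real.pi,
        ((Iio r).indicator (fun x => ENNReal.ofReal x) p.1) *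
          ((Icc 0 θ).indicator (1 : ℝ → ENNReal) p.2) := by
    apply setLIntegral_congr_fun (measurableSet_Ioi.prod measurableSet_Ioo)
    rintro ⟨ρ, φ⟩ ⟨hρ, hφ⟩
    simp only [mem_Ioi] at hρ
    have hh := h ρ φ hρ hφ.1 hφ.2
    simp only [Complex.polarCoord_symm_apply, smul_eq_mul]
    by_cases hin : ρ < r ∧ 0 ≤ φ ∧ φ ≤ θ
    · have h2 := hh.2 hin
      rw [Set.indicator_of_mem h2, Set.indicator_of_mem (show ρ ∈ Iio r from hin.1),
        Set.indicator_of_mem (show φ ∈ Icc 0 θ from hin.2)]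
      rfl
    · have h2 : ((ρ : ℂ) * ((Real.cos φ : ℂ) + (Real.sin φ : ℂ) * Complex.I)) ∉ S :=
        fun h3 => hin (hh.1 h3)
      rw [Set.indicator_of_notMem h2, mul_zero]
      by_cases h3 : ρ < r
      · have h4 : φ ∉ Icc 0 θ := fun h5 => hin ⟨h3, h5⟩
        rw [Set.indicator_of_notMem h4, mul_zero]
      · rw [Set.indicator_of_notMem (show ρ ∉ Iio r from h3), zero_mul]
  rw [e1, Measure.volume_eq_prod, ← Measure.prod_restrict, lintegral_prod_mul]
  · have i1 : ∫⁻ x in Ioi (0 : ℝ), (Iio r).indicator (fun x => ENNReal.ofReal x) x =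
        ENNReal.ofReal (r ^ 2 / 2) := by
      rw [lintegral_indicator measurableSet_Iio, Measure.restrict_restrict measurableSet_Iio]
      have : Iio r ∩ Ioi 0 = Ioo 0 r := by ext x; simp [and_comm]
      rw [this, restrict_Ioo_eq_restrict_Ioc, ← ofReal_integral_eq_lintegral_ofReal]
      · rw [← intervalIntegral.integral_of_le hr.le, integral_id]
        congr 1
        ring
      · exact (continuous_id.integrableOn_Icc (a := 0) (b := r)).mono_set Ioc_subset_Icc_self
      · filter_upwards [ae_restrict_mem measurableSet_Ioc] with x hx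
        exact hx.1.le
    have i2 : ∫⁻ x in Ioo (-Real.pi) Real.pi, (Icc 0 θ).indicator (1 : ℝ → ENNReal) x =
        ENNReal.ofReal θ := by
      rw [lintegral_indicator_one measurableSet_Icc, Measure.restrict_apply measurableSet_Icc]
      rcases h1.lt_or_eq with h2 | h2
      · have : Icc 0 θ ∩ Ioo (-Real.pi) Real.pi = Icc 0 θ := by
          apply inter_eq_left.2
          intro x hx
          exact ⟨by linarith [hx.1], by linarith [hx.2]⟩
        rw [this, Real.volume_Icc]
        simp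
      · have : Icc 0 θ ∩ Ioo (-Real.pi) Real.pi = Ico 0 θ := by
          ext x
          simp only [mem_inter_iff, mem_Icc, mem_Ioo, mem_Ico]
          constructor
          · rintro ⟨⟨a, b⟩, c, d⟩
            exact ⟨a, by linarith⟩
          · rintro ⟨a, b⟩
            exact ⟨⟨a, b.le⟩, by linarith, by linarith⟩
        rw [this, Real.volume_Ico]
        simp
    rw [i1, i2, ← ENNReal.ofReal_mul (by positivity)]
    congr 1
    ring
  · exact (Measurable.indicator (by fun_prop) measurableSet_Iio).aemeasurable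
  · exact (measurable_one.indicator measurableSet_Icc).aemeasurable

theorem cr_cont_left (w : ℂ) : Continuous (fun z => cr w z) := by
  unfold cr
  fun_prop

theorem cr_cont_right (w : ℂ) : Continuous (fun z => cr z w) := by
  unfold cr
  fun_prop

theorem cr_one_polar (ρ φ : ℝ) :
    cr 1 ((ρ : ℂ) * ((Real.cos φ : ℂ) + (Real.sin φ : ℂ) * Complex.I)) = ρ * Real.sin φ := by
  simp only [cr, Complex.mul_re, Complex.mul_im, Complex.add_re, Complex.add_im,
    Complex.ofReal_re, Complex.ofReal_im, Complex.I_re, Complex.I_im, Complex.one_re,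
    Complex.one_im]
  ring

theorem cr_exp_polar (ρ φ θ : ℝ) :
    cr ((ρ : ℂ) * ((Real.cos φ : ℂ) + (Real.sin φ : ℂ) * Complex.I))
      (Complex.exp (θ * Complex.I)) = ρ * Real.sin (θ - φ) := by
  have e : Complex.exp (θ * Complex.I) = (Real.cos θ : ℂ) + (Real.sin θ : ℂ) * Complex.I := by
    rw [Complex.exp_mul_I, Complex.ofReal_cos, Complex.ofReal_sin]
  rw [e]
  simp only [cr, Complex.mul_re, Complex.mul_im, Complex.add_re, Complex.add_im,
    Complex.ofReal_re, Complex.ofReal_im, Complex.I_re, Complex.I_im, Real.sin_sub]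
  ring

theorem norm_polar (ρ φ : ℝ) (hρ : 0 < ρ) :
    ‖(ρ : ℂ) * ((Real.cos φ : ℂ) + (Real.sin φ : ℂ) * Complex.I)‖ = ρ := by
  have := Complex.norm_polarCoord_symm (ρ, φ)
  rw [Complex.polarCoord_symm_apply] at this
  simpa [abs_of_pos hρ] using this

theorem sin_nonneg_iff' (φ : ℝ) (h1 : -Real.pi < φ) (h2 : φ < Real.pi) :
    0 ≤ Real.sin φ ↔ 0 ≤ φ := by
  constructor
  · intro h
    by_contra hn
    push Not at hn
    have := Real.sin_neg_of_neg_of_neg_pi_lt hn h1
    linarith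
  · intro h
    exact Real.sin_nonneg_of_nonneg_of_le_pi h h2.le

/-- area of a circular sector -/
theorem sector_vol (θ r : ℝ) (h0 : 0 < θ) (h1 : θ < Real.pi) (hr : 0 < r) :
    volume ({z : ℂ | 0 ≤ cr 1 z ∧ 0 ≤ cr z (Complex.exp (θ * Complex.I))} ∩ Metric.ball 0 r) =
      ENNReal.ofReal (θ / 2 * r ^ 2) := by
  apply polar_vol _ _ θ r h0 h1.le hr
  · intro ρ φ hρ hφ1 hφ2
    rw [Set.mem_inter_iff, Set.mem_ofPred_eq, cr_one_polar, cr_exp_polar, mem_ball_zero_iff,
      norm_polar ρ φ hρ]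
    have e1 : 0 ≤ ρ * Real.sin φ ↔ 0 ≤ φ := by
      rw [mul_nonneg_iff_of_pos_left hρ, sin_nonneg_iff' φ hφ1 hφ2]
    have e2 : 0 ≤ φ → (0 ≤ ρ * Real.sin (θ - φ) ↔ φ ≤ θ) := by
      intro h
      rw [mul_nonneg_iff_of_pos_left hρ, sin_nonneg_iff' (θ - φ) (by linarith) (by linarith)]
      constructor <;> intro h <;> linarith
    constructor
    · rintro ⟨⟨a, b⟩, c⟩
      have a' := e1.1 a
      exact ⟨c, a', (e2 a').1 b⟩
    · rintro ⟨a, b, c⟩
      exact ⟨⟨e1.2 b, (e2 b).2 c⟩, a⟩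
  · apply MeasurableSet.inter _ Metric.isOpen_ball.measurableSet
    exact ((isClosed_le continuous_const (cr_cont_left 1)).inter
      (isClosed_le continuous_const (cr_cont_right _))).measurableSet

/-- area of a half disc -/
theorem halfdisc_vol (r : ℝ) (hr : 0 < r) :
    volume ({z : ℂ | 0 ≤ cr 1 z} ∩ Metric.ball 0 r) = ENNReal.ofReal (Real.pi / 2 * r ^ 2) := by
  apply polar_vol _ _ Real.pi r Real.pi_pos le_rfl hr
  · intro ρ φ hρ hφ1 hφ2
    rw [Set.mem_inter_iff, Set.mem_ofPred_eq, cr_one_polar, mem_ball_zero_iff,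
      norm_polar ρ φ hρ]
    have e1 : 0 ≤ ρ * Real.sin φ ↔ 0 ≤ φ := by
      rw [mul_nonneg_iff_of_pos_left hρ, sin_nonneg_iff' φ hφ1 hφ2]
    constructor
    · rintro ⟨a, c⟩
      exact ⟨c, e1.1 a, hφ2.le⟩
    · rintro ⟨a, b, c⟩
      exact ⟨e1.2 b, a⟩
  · apply MeasurableSet.inter _ Metric.isOpen_ball.measurableSet
    exact (isClosed_le continuous_const (cr_cont_left 1)).measurableSet

theorem rigid_mp (w p : ℂ) (hw : ‖w‖ = 1) :
    MeasurePreserving (fun z : ℂ => p + w * z) volume volume := by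
  have hm : w ∈ Submonoid.unitSphere ℂ := by
    rw [Submonoid.unitSphere]
    simp [hw]
  have h1 : MeasurePreserving (rotation ⟨w, hm⟩) volume volume :=
    LinearIsometryEquiv.measurePreserving _
  have h2 : MeasurePreserving (fun z : ℂ => p + z) volume volume :=
    measurePreserving_add_left volume p
  exact h2.comp h1

theorem cr_mul_mul (w a b : ℂ) (hw : ‖w‖ = 1) : cr (w * a) (w * b) = cr a b := by
  have h : w.re ^ 2 + w.im ^ 2 = 1 := by
    have := Complex.normSq_eq_norm_sq w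
    rw [Complex.normSq_apply, hw] at this
    linarith
  have e : cr (w * a) (w * b) = (w.re ^ 2 + w.im ^ 2) * cr a b := by
    simp only [cr, Complex.mul_re, Complex.mul_im]
    ring
  rw [e, h, one_mul]

theorem cr_mul_one (w a : ℂ) (hw : ‖w‖ = 1) : cr w (w * a) = cr 1 a := by
  have := cr_mul_mul w 1 a hw
  rwa [mul_one] at this

/-- rotated and translated versions -/
theorem sector_vol' (θ r : ℝ) (h0 : 0 < θ) (h1 : θ < Real.pi) (hr : 0 < r) (w p : ℂ) (hw : ‖w‖ = 1) :
    volume ({z : ℂ | 0 ≤ cr w (z - p) ∧ 0 ≤ cr (z - p) (w * Complex.exp (θ * Complex.I))} ∩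
      Metric.ball p r) = ENNReal.ofReal (θ / 2 * r ^ 2) := by
  have hm : MeasurableSet ({z : ℂ | 0 ≤ cr w (z - p) ∧
      0 ≤ cr (z - p) (w * Complex.exp (θ * Complex.I))} ∩ Metric.ball p r) := by
    apply MeasurableSet.inter _ Metric.isOpen_ball.measurableSet
    exact ((isClosed_le continuous_const ((cr_cont_left w).comp (by fun_prop : Continuous fun z : ℂ => z - p))).inter
      (isClosed_le continuous_const ((cr_cont_right _).comp (by fun_prop : Continuous fun z : ℂ => z - p)))).measurableSet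
  rw [← (rigid_mp w p hw).measure_preimage hm.nullMeasurableSet, ← sector_vol θ r h0 h1 hr]
  congr 1
  ext z
  simp only [Set.mem_preimage, Set.mem_inter_iff, Set.mem_ofPred_eq, add_sub_cancel_left,
    cr_mul_one w z hw, cr_mul_mul w _ _ hw, mem_ball_iff_norm, sub_zero, norm_mul, hw, one_mul]

theorem halfdisc_vol' (r : ℝ) (hr : 0 < r) (w p : ℂ) (hw : ‖w‖ = 1) :
    volume ({z : ℂ | 0 ≤ cr w (z - p)} ∩ Metric.ball p r) = ENNReal.ofReal (Real.pi / 2 * r ^ 2) := by
  have hm : MeasurableSet ({z : ℂ | 0 ≤ cr w (z - p)} ∩ Metric.ball p r) := by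
    apply MeasurableSet.inter _ Metric.isOpen_ball.measurableSet
    exact (isClosed_le continuous_const ((cr_cont_left w).comp (by fun_prop : Continuous fun z : ℂ => z - p))).measurableSet
  rw [← (rigid_mp w p hw).measure_preimage hm.nullMeasurableSet, ← halfdisc_vol r hr]
  congr 1
  ext z
  simp only [Set.mem_preimage, Set.mem_inter_iff, Set.mem_ofPred_eq, add_sub_cancel_left,
    cr_mul_one w z hw, mem_ball_iff_norm, sub_zero, norm_mul, hw, one_mul]

end Pool.Agent.Helper549.Tri.Sector
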