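import Mathlib
import Pool.Agent.Helper549.Tri.Defs
import Pool.Agent.Helper549.Tri.Basic
import Pool.Agent.Helper549.Tri.Angles
import Pool.Agent.Helper549.Tri.Sector
set_option autoImplicit false
noncomputable section
open scoped BigOperators
open MeasureTheory

namespace Pool.Agent.Helper549.Tri.Local
open Pool.Agent.Helper549.Tri.Basic Pool.Agent.Helper549.Tri.Angles Pool.Agent.Helper549.Tri.Sector

theorem lv_cont (v : Fin 3 → ℂ) (k : Fin 3) : Continuous (lam v k) := by
  unfold lam cr
  fun_prop

theorem lv_zero (v : Fin 3 → ℂ) (hv : 0 < dd v) (k : Fin 3) (p z : ℂ) (h : lam v k p = 0) :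
    lam v k z = len v k * cr (dir v k) (z - p) := by
  have h1 : lam v k z = lam v k p + cr (sd v k) (z - p) := by
    unfold lam cr
    simp only [Complex.sub_re, Complex.sub_im]
    ring
  rw [h1, h, zero_add, sd_eq v hv k]
  unfold cr
  rw [Complex.re_ofReal_mul, Complex.im_ofReal_mul]
  ring

theorem lv_ne : ∀ j k : Fin 3, j ≠ k → j = k + 1 ∨ j = k + 2 := by decide

theorem lv_12 : ∀ k : Fin 3, k + 1 + 2 = k := by decide

theorem lv_21 : ∀ k : Fin 3, k + 2 + 1 = k := by decide

theorem lv_nn : ∀ j : Fin 3, j + 2 ≠ j + 1 := by decide

theorem lv_11 : ∀ k : Fin 3, k + 1 + 1 = k + 2 := by decide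

theorem lv_22 : ∀ k : Fin 3, k + 2 + 2 = k + 1 := by decide

theorem lv_v1 (v : Fin 3 → ℂ) (k : Fin 3) : lam v (k + 1) (v k) = 0 := by
  have h := lam_prev v (k + 1)
  rwa [lv_12] at h

theorem lv_v2 (v : Fin 3 → ℂ) (k : Fin 3) : lam v (k + 2) (v k) = 0 := by
  have h := lam_next v (k + 2)
  rwa [lv_21] at h

/-- TARGET: near a point p the triangle has area angAt/2 * r^2 in small balls -/
theorem local_vol (v : Fin 3 → ℂ) (hv : 0 < dd v) (p : ℂ) :
    ∃ r0 : ℝ, 0 < r0 ∧ ∀ r : ℝ, 0 < r → r < r0 →
      volume (hull v ∩ Metric.ball p r) = ENNReal.ofReal (angAt v p / 2 * r ^ 2) := by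
  classical
  by_cases hp : p ∈ hull v
  · rcases vertex_cases v hv p hp with hint | ⟨k, hk⟩ | ⟨k, hk⟩
    · -- interior
      have hlam := (mem_int v hv p).1 hint
      have hang : angAt v p = 2 * Real.pi := by
        unfold angAt
        have h1 : ∀ k : Fin 3, (if p = v k then ang v k else 0) = 0 := by
          intro k
          rw [if_neg]
          intro h
          have := hlam (k + 1)
          rw [h, lv_v1] at this
          exact lt_irrefl _ this
        have h2 : ∀ k : Fin 3, (if onSide v k p then Real.pi else 0) = 0 := by
          intro k
          rw [if_neg]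
          intro h
          have := hlam k
          rw [((onSide_iff v hv k p).1 h).1] at this
          exact lt_irrefl _ this
        rw [Finset.sum_eq_zero (fun k _ => h1 k), Finset.sum_eq_zero (fun k _ => h2 k),
          if_pos hint, zero_add, zero_add]
      obtain ⟨r0, hr0, hball⟩ := Metric.isOpen_iff.1 isOpen_interior p hint
      refine ⟨r0, hr0, fun r hr hrr => ?_⟩
      have h3 : hull v ∩ Metric.ball p r = Metric.ball p r := by
        rw [Set.inter_eq_right]
        exact (Metric.ball_subset_ball hrr.le).trans (hball.trans interior_subset)
      rw [h3, Complex.volume_ball, hang]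
      have h4 : (NNReal.pi : ENNReal) = ENNReal.ofReal Real.pi := by
        rw [← NNReal.coe_real_pi, ENNReal.ofReal_coe_nnreal]
      rw [h4, ← ENNReal.ofReal_pow hr.le, ← ENNReal.ofReal_mul (by positivity)]
      congr 1
      ring
    · -- side
      obtain ⟨l0, l1, l2⟩ := (onSide_iff v hv k p).1 hk
      have hang : angAt v p = Real.pi := by
        unfold angAt
        have h1 : ∀ j : Fin 3, (if p = v j then ang v j else 0) = 0 := by
          intro j
          rw [if_neg]
          intro h
          have e1 := lv_v1 v j
          have e2 := lv_v2 v j
          rw [← h] at e1 e2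
          by_cases hj : j + 1 = k
          · have hne : j + 2 ≠ k := by
              rw [← hj]
              exact lv_nn j
            rcases lv_ne _ _ hne with h5 | h5
            · rw [h5] at e2
              linarith
            · rw [h5] at e2
              linarith
          · rcases lv_ne _ _ hj with h5 | h5
            · rw [h5] at e1
              linarith
            · rw [h5] at e1
              linarith
        have h2 : ∑ j : Fin 3, (if onSide v j p then Real.pi else 0) = Real.pi := by
          rw [Finset.sum_eq_single k]
          · rw [if_pos hk]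
          · intro j _ hj
            rw [if_neg]
            intro h
            have h5 := ((onSide_iff v hv j p).1 h).1
            rcases lv_ne j k hj with h6 | h6
            · rw [h6] at h5
              linarith
            · rw [h6] at h5
              linarith
          · intro h; exact absurd (Finset.mem_univ k) h
        have h3 : p ∉ interior (hull v) := by
          intro h
          have := (mem_int v hv p).1 h k
          linarith
        rw [Finset.sum_eq_zero (fun k _ => h1 k), h2, if_neg h3, zero_add, add_zero]
      have hopen : IsOpen {z : ℂ | 0 < lam v (k + 1) z ∧ 0 < lam v (k + 2) z} :=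
        (isOpen_lt continuous_const (lv_cont v (k + 1))).inter
          (isOpen_lt continuous_const (lv_cont v (k + 2)))
      obtain ⟨r0, hr0, hball⟩ := Metric.isOpen_iff.1 hopen p ⟨l1, l2⟩
      refine ⟨r0, hr0, fun r hr hrr => ?_⟩
      have h3 : hull v ∩ Metric.ball p r =
          {z : ℂ | 0 ≤ cr (dir v k) (z - p)} ∩ Metric.ball p r := by
        ext z
        constructor
        · rintro ⟨hz, hzb⟩
          refine ⟨?_, hzb⟩
          have h5 := (mem_hull v hv z).1 hz k
          rw [lv_zero v hv k p z l0] at h5
          exact nonneg_of_mul_nonneg_right h5 (len_pos v hv k)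
        · rintro ⟨hz, hzb⟩
          refine ⟨?_, hzb⟩
          rw [mem_hull v hv z]
          intro j
          have h6 := hball (Metric.ball_subset_ball hrr.le hzb)
          by_cases hj : j = k
          · rw [hj, lv_zero v hv k p z l0]
            exact mul_nonneg (len_pos v hv k).le hz
          · rcases lv_ne j k hj with h7 | h7
            · rw [h7]; exact h6.1.le
            · rw [h7]; exact h6.2.le
      rw [h3, hang]
      exact halfdisc_vol' r hr (dir v k) p (norm_dir v hv k)
    · -- vertex
      have l0 : lam v k p = dd v := by rw [hk]; exact lam_self v k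
      have l1 : lam v (k + 1) p = 0 := by rw [hk]; exact lv_v1 v k
      have l2 : lam v (k + 2) p = 0 := by rw [hk]; exact lv_v2 v k
      have hang : angAt v p = ang v k := by
        unfold angAt
        have h1 : ∑ j : Fin 3, (if p = v j then ang v j else 0) = ang v k := by
          rw [Finset.sum_eq_single k]
          · rw [if_pos hk]
          · intro j _ hj
            rw [if_neg]
            intro h
            exact hj (vertex_inj v hv (h.symm.trans hk))
          · intro h; exact absurd (Finset.mem_univ k) h
        have h2 : ∀ j : Fin 3, (if onSide v j p then Real.pi else 0) = 0 := by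
          intro j
          rw [if_neg]
          intro h
          obtain ⟨m0, m1, m2⟩ := (onSide_iff v hv j p).1 h
          by_cases hj : j = k
          · rw [hj] at m0
            linarith
          · rcases lv_ne j k hj with h7 | h7
            · have h8 : j + 1 = k + 2 := by rw [h7]; exact lv_11 k
              rw [h8] at m1
              linarith
            · have h8 : j + 2 = k + 1 := by rw [h7]; exact lv_22 k
              rw [h8] at m2
              linarith
        have h3 : p ∉ interior (hull v) := by
          intro h
          have := (mem_int v hv p).1 h (k + 1)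
          linarith
        rw [h1, Finset.sum_eq_zero (fun k _ => h2 k), if_neg h3, add_zero, add_zero]
      have hopen : IsOpen {z : ℂ | 0 < lam v k z} := isOpen_lt continuous_const (lv_cont v k)
      obtain ⟨r0, hr0, hball⟩ := Metric.isOpen_iff.1 hopen p (by
        show 0 < lam v k p
        rw [l0]; exact hv)
      refine ⟨r0, hr0, fun r hr hrr => ?_⟩
      have hdir : dir v (k + 1) = -(dir v (k + 2) * Complex.exp ((ang v k : ℂ) * Complex.I)) := by
        rw [dir_rel v hv k]
        have : Complex.exp (-(ang v k : ℂ) * Complex.I) * Complex.exp ((ang v k : ℂ) * Complex.I) =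
            1 := by
          rw [← Complex.exp_add]
          rw [show -(ang v k : ℂ) * Complex.I + (ang v k : ℂ) * Complex.I = 0 by ring,
            Complex.exp_zero]
        linear_combination (-dir v (k + 1)) * this
      have hcr : ∀ z : ℂ, cr (dir v (k + 1)) (z - p) =
          cr (z - p) (dir v (k + 2) * Complex.exp ((ang v k : ℂ) * Complex.I)) := by
        intro z
        rw [hdir]
        unfold cr
        simp only [Complex.neg_re, Complex.neg_im]
        ring
      have h3 : hull v ∩ Metric.ball p r =
          {z : ℂ | 0 ≤ cr (dir v (k + 2)) (z - p) ∧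
            0 ≤ cr (z - p) (dir v (k + 2) * Complex.exp ((ang v k : ℂ) * Complex.I))} ∩
            Metric.ball p r := by
        ext z
        constructor
        · rintro ⟨hz, hzb⟩
          refine ⟨⟨?_, ?_⟩, hzb⟩
          · have h5 := (mem_hull v hv z).1 hz (k + 2)
            rw [lv_zero v hv (k + 2) p z l2] at h5
            exact nonneg_of_mul_nonneg_right h5 (len_pos v hv _)
          · have h5 := (mem_hull v hv z).1 hz (k + 1)
            rw [lv_zero v hv (k + 1) p z l1] at h5
            rw [← hcr]
            exact nonneg_of_mul_nonneg_right h5 (len_pos v hv _)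
        · rintro ⟨⟨hz1, hz2⟩, hzb⟩
          refine ⟨?_, hzb⟩
          rw [mem_hull v hv z]
          intro j
          have h6 : 0 < lam v k z := hball (Metric.ball_subset_ball hrr.le hzb)
          by_cases hj : j = k
          · rw [hj]
            exact h6.le
          · rcases lv_ne j k hj with h7 | h7
            · rw [h7, lv_zero v hv (k + 1) p z l1, hcr]
              exact mul_nonneg (len_pos v hv _).le hz2
            · rw [h7, lv_zero v hv (k + 2) p z l2]
              exact mul_nonneg (len_pos v hv _).le hz1
      rw [h3, hang]
      exact sector_vol' (ang v k) r (ang_pos v hv k) (ang_lt_pi v hv k) hr (dir v (k + 2)) p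
        (norm_dir v hv _)
  · -- outside
    have hang : angAt v p = 0 := by
      unfold angAt
      have h1 : ∀ k : Fin 3, (if p = v k then ang v k else 0) = 0 := by
        intro k
        rw [if_neg]
        intro h
        apply hp
        rw [h]
        exact subset_convexHull ℝ _ (Set.mem_range_self k)
      have h2 : ∀ k : Fin 3, (if onSide v k p then Real.pi else 0) = 0 := by
        intro k
        rw [if_neg]
        intro h
        obtain ⟨m0, m1, m2⟩ := (onSide_iff v hv k p).1 h
        apply hp
        rw [mem_hull v hv]
        intro j
        by_cases hj : j = k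
        · rw [hj, m0]
        · rcases lv_ne j k hj with h7 | h7
          · rw [h7]; exact m1.le
          · rw [h7]; exact m2.le
      have h3 : p ∉ interior (hull v) := fun h => hp (interior_subset h)
      rw [Finset.sum_eq_zero (fun k _ => h1 k), Finset.sum_eq_zero (fun k _ => h2 k),
        if_neg h3, zero_add, zero_add]
    obtain ⟨r0, hr0, hball⟩ := Metric.isOpen_iff.1 (hull_closed v).isOpen_compl p hp
    refine ⟨r0, hr0, fun r hr hrr => ?_⟩
    have h3 : hull v ∩ Metric.ball p r = ∅ := by
      rw [Set.eq_empty_iff_forall_notMem]
      rintro z ⟨hz, hzb⟩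
      exact hball (Metric.ball_subset_ball hrr.le hzb) hz
    rw [h3, hang, measure_empty, zero_div, zero_mul, ENNReal.ofReal_zero]

end Pool.Agent.Helper549.Tri.Local
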