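import Mathlib
import Pool.Agent.Helper549.Tri.Defs
import Pool.Agent.Helper549.Tri.Basic
import Pool.Agent.Helper549.Tri.Angles
import Pool.Agent.Helper549.Tri.Local
set_option autoImplicit false
noncomputable section
open scoped BigOperators
open MeasureTheory

namespace Pool.Agent.Helper549.Tri.AngleSum
open Pool.Agent.Helper549.Tri.Basic Pool.Agent.Helper549.Tri.Angles Pool.Agent.Helper549.Tri.Local

theorem angAt_nonneg (v : Fin 3 → ℂ) (hv : 0 < dd v) (p : ℂ) : 0 ≤ angAt v p := by
  unfold angAt
  have hpi := Real.pi_pos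
  refine add_nonneg (add_nonneg ?_ ?_) ?_
  · refine Finset.sum_nonneg fun k _ => ?_
    split_ifs
    · exact (ang_pos v hv k).le
    · exact le_rfl
  · refine Finset.sum_nonneg fun k _ => ?_
    split_ifs
    · exact hpi.le
    · exact le_rfl
  · split_ifs
    · positivity
    · exact le_rfl

theorem hull_interior_nonempty (v : Fin 3 → ℂ) (hv : 0 < dd v) : (interior (hull v)).Nonempty := by
  refine ⟨(v 0 + v 1 + v 2) / 3, ?_⟩
  rw [mem_int v hv]
  have h : ∀ k, lam v k ((v 0 + v 1 + v 2) / 3) = dd v / 3 := by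
    intro k
    have hre : ((v 0 + v 1 + v 2) / 3).re = ((v 0).re + (v 1).re + (v 2).re) / 3 := by
      simp
    have him : ((v 0 + v 1 + v 2) / 3).im = ((v 0).im + (v 1).im + (v 2).im) / 3 := by
      simp
    fin_cases k
    · change cr (v 2 - v 1) ((v 0 + v 1 + v 2) / 3 - v 1) = cr (v 1 - v 0) (v 2 - v 0) / 3
      unfold cr
      simp only [Complex.sub_re, Complex.sub_im, hre, him]
      ring
    · change cr (v 0 - v 2) ((v 0 + v 1 + v 2) / 3 - v 2) = cr (v 1 - v 0) (v 2 - v 0) / 3
      unfold cr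
      simp only [Complex.sub_re, Complex.sub_im, hre, him]
      ring
    · change cr (v 1 - v 0) ((v 0 + v 1 + v 2) / 3 - v 0) = cr (v 1 - v 0) (v 2 - v 0) / 3
      unfold cr
      simp only [Complex.sub_re, Complex.sub_im, hre, him]
      ring
  intro k
  rw [h k]
  positivity

theorem hull_inter_null (u v : Fin 3 → ℂ) (hv : 0 < dd v)
    (hd : Disjoint (interior (hull u)) (interior (hull v))) : volume (hull u ∩ hull v) = 0 := by
  have hsub : hull u ∩ hull v ⊆ frontier (hull u) ∪ frontier (hull v) := by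
    rintro x ⟨hxu, hxv⟩
    left
    rw [(hull_closed u).frontier_eq]
    refine ⟨hxu, fun hxi => ?_⟩
    have hconv : Convex ℝ (hull v) := convex_convexHull ℝ _
    have hcl : closure (interior (hull v)) = closure (hull v) :=
      hconv.closure_interior_eq_closure_of_nonempty_interior (hull_interior_nonempty v hv)
    have hx : x ∈ closure (interior (hull v)) := by
      rw [hcl]; exact subset_closure hxv
    obtain ⟨y, hy1, hy2⟩ := mem_closure_iff.mp hx _ isOpen_interior hxi
    exact Set.disjoint_left.mp hd hy1 hy2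
  exact measure_mono_null hsub (measure_union_null (hull_null_frontier u) (hull_null_frontier v))

theorem dis_additive {N : ℕ} {T : Fin 3 → ℂ} {t : Fin N → Fin 3 → ℂ} (h : Dis N T t) (B : Set ℂ)
    (hB : MeasurableSet B) : volume (hull T ∩ B) = ∑ i, volume (hull (t i) ∩ B) := by
  rw [← h.cover, Set.iUnion_inter, measure_iUnion₀, tsum_fintype]
  · intro i j hij
    have h1 := hull_inter_null (t i) (t j) (h.ccwt j) (h.disj i j hij)
    refine measure_mono_null ?_ h1
    rintro x ⟨hx1, hx2⟩
    exact ⟨hx1.1, hx2.1⟩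
  · intro i
    exact ((hull_closed (t i)).measurableSet.inter hB).nullMeasurableSet

/-- TARGET: the angles of the pieces at p add up to the angle of T at p -/
theorem angle_sum {N : ℕ} {T : Fin 3 → ℂ} {t : Fin N → Fin 3 → ℂ} (h : Dis N T t) (p : ℂ) :
    ∑ i, angAt (t i) p = angAt T p := by
  have hev : ∀ v : Fin 3 → ℂ, 0 < dd v → ∀ᶠ r in nhdsWithin (0:ℝ) (Set.Ioi 0),
      volume (hull v ∩ Metric.ball p r) = ENNReal.ofReal (angAt v p / 2 * r ^ 2) := by
    intro v hv
    obtain ⟨r0, hr0, h0⟩ := local_vol v hv p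
    filter_upwards [Ioo_mem_nhdsGT hr0] with r hr
    exact h0 r hr.1 hr.2
  have hall : ∀ᶠ r in nhdsWithin (0:ℝ) (Set.Ioi 0), ∀ i,
      volume (hull (t i) ∩ Metric.ball p r) = ENNReal.ofReal (angAt (t i) p / 2 * r ^ 2) :=
    Filter.eventually_all.mpr fun i => hev (t i) (h.ccwt i)
  obtain ⟨r, ⟨hrT, hri⟩, hr⟩ := ((hev T h.ccwT).and hall |>.and self_mem_nhdsWithin).exists
  have hr0 : 0 < r := hr
  have hadd := dis_additive h (Metric.ball p r) measurableSet_ball
  rw [hrT, Finset.sum_congr rfl (fun i _ => hri i),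
    ← ENNReal.ofReal_sum_of_nonneg (fun i _ => by
      have := angAt_nonneg (t i) (h.ccwt i) p
      positivity),
    ENNReal.ofReal_eq_ofReal_iff (by
      have := angAt_nonneg T h.ccwT p
      positivity) (Finset.sum_nonneg fun i _ => by
      have := angAt_nonneg (t i) (h.ccwt i) p
      positivity)] at hadd
  rw [← Finset.sum_mul, ← Finset.sum_div] at hadd
  have hr2 : r ^ 2 ≠ 0 := by positivity
  have h3 := mul_right_cancel₀ hr2 hadd
  linarith

/-- TARGET: affine scaling of area -/
theorem vol_hull : ∃ c : ℝ, 0 < c ∧ ∀ v : Fin 3 → ℂ, 0 < dd v →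
    volume (hull v) = ENNReal.ofReal (c * dd v) := by
  let std : Fin 3 → ℂ := ![0, 1, Complex.I]
  have hstd : 0 < dd std := by
    change 0 < cr (1 - 0) (Complex.I - 0)
    simp [cr]
  have hpos : 0 < volume (hull std) :=
    (isOpen_interior.measure_pos volume (hull_interior_nonempty std hstd)).trans_le
      (measure_mono interior_subset)
  have hfin : volume (hull std) < ⊤ :=
    ((Set.finite_range std).isCompact_convexHull (𝕜 := ℝ)).measure_lt_top
  refine ⟨(volume (hull std)).toReal, ENNReal.toReal_pos hpos.ne' hfin.ne, ?_⟩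
  intro v hv
  let f : ℂ →ₗ[ℝ] ℂ := (Complex.reLm.smulRight (v 1 - v 0)) + (Complex.imLm.smulRight (v 2 - v 0))
  have hf : ∀ z, f z = z.re • (v 1 - v 0) + z.im • (v 2 - v 0) := fun z => rfl
  have hdet : LinearMap.det f = dd v := by
    rw [← LinearMap.det_toMatrix Complex.basisOneI, Matrix.det_fin_two]
    simp [LinearMap.toMatrix_apply, hf, dd, cr]
    ring
  let g : ℂ →ᵃ[ℝ] ℂ := f.toAffineMap + AffineMap.const ℝ ℂ (v 0)
  have hg : ∀ z, g z = f z + v 0 := fun z => rfl
  have himg : hull v = g '' hull std := by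
    unfold hull
    rw [g.image_convexHull]
    congr 1
    rw [← Set.range_comp]
    congr 1
    funext k
    fin_cases k
    · simp [hg, hf, std]
    · simp [hg, hf, std]
    · simp [hg, hf, std]
  have himg2 : g '' hull std = (fun z => z + v 0) '' (f '' hull std) := by
    rw [Set.image_image]
    rfl
  rw [himg, himg2, Set.image_add_right, measure_preimage_add_right,
    Measure.addHaar_image_linearMap, hdet, abs_of_pos hv, mul_comm (ENNReal.toReal _),
    ENNReal.ofReal_mul hv.le, ENNReal.ofReal_toReal hfin.ne]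

/-- TARGET: areas add up -/
theorem area_sum {N : ℕ} {T : Fin 3 → ℂ} {t : Fin N → Fin 3 → ℂ} (h : Dis N T t) :
    ∑ i, dd (t i) = dd T := by
  obtain ⟨c, hc, hvol⟩ := vol_hull
  have hadd := dis_additive h Set.univ MeasurableSet.univ
  simp only [Set.inter_univ] at hadd
  rw [hvol T h.ccwT, Finset.sum_congr rfl (fun i _ => hvol (t i) (h.ccwt i)),
    ← ENNReal.ofReal_sum_of_nonneg (fun i _ => by
      have := h.ccwt i
      positivity),
    ENNReal.ofReal_eq_ofReal_iff (by
      have := h.ccwT
      positivity) (Finset.sum_nonneg fun i _ => by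
      have := h.ccwt i
      positivity), ← Finset.mul_sum] at hadd
  exact (mul_left_cancel₀ hc.ne' hadd).symm

end Pool.Agent.Helper549.Tri.AngleSum
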