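import Mathlib
import Pool.Agent.Helper549.Tri.Defs
set_option autoImplicit false
noncomputable section
open scoped BigOperators
open MeasureTheory

namespace Pool.Agent.Helper549.Tri.Char

/-- element of the coset -/
def EE (θ : Fin 3 → ℝ) (z0 : ℂ) (m : ℤ) (x : Fin 3 → ℤ) : ℂ :=
  z0 * (-1) ^ m * Complex.exp (Complex.I * ∑ k, (x k : ℂ) * (θ k : ℂ))

theorem lemA (θ : Fin 3 → ℝ) (hsum : θ 0 + θ 1 + θ 2 = Real.pi)
    (hirr : ¬ ∀ k, ∃ q : ℚ, θ k = q * Real.pi)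
    (d : Fin 3 → ℤ) (hd : ∑ k, (d k : ℝ) * θ k = 0) (hd1 : ∃ k, d k = -1)
    (X : Fin 3 → ℂ) (hX : ∀ k, X k ≠ 0) (hprod : X 0 * X 1 * X 2 = -1)
    (hXd : ∏ k, X k ^ d k = 1) (y : Fin 3 → ℤ) (s : ℤ) (hy : ∑ k, (y k : ℝ) * θ k = s * Real.pi) :
    ∏ k, X k ^ y k = (-1) ^ s := by
  obtain ⟨w, hw⟩ : ∃ w : Fin 3 → ℤ, w = fun k => y k - s := ⟨_, rfl⟩
  have hyw : ∀ k, y k = w k + s := by intro k; rw [hw]; ring
  simp only [Fin.sum_univ_three] at hd hy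
  have hwθ : (w 0 : ℝ) * θ 0 + w 1 * θ 1 + w 2 * θ 2 = 0 := by
    have h0 := hyw 0; have h1 := hyw 1; have h2 := hyw 2
    rw [h0, h1, h2] at hy
    push_cast at hy
    rw [← hsum] at hy
    linarith
  obtain ⟨c0, hc0⟩ : ∃ c : ℤ, c = w 1 * d 2 - w 2 * d 1 := ⟨_, rfl⟩
  obtain ⟨c1, hc1⟩ : ∃ c : ℤ, c = w 2 * d 0 - w 0 * d 2 := ⟨_, rfl⟩
  obtain ⟨c2, hc2⟩ : ∃ c : ℤ, c = w 0 * d 1 - w 1 * d 0 := ⟨_, rfl⟩
  have rc0 : (c0 : ℝ) = w 1 * d 2 - w 2 * d 1 := by rw [hc0]; push_cast; ring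
  have rc1 : (c1 : ℝ) = w 2 * d 0 - w 0 * d 2 := by rw [hc1]; push_cast; ring
  have rc2 : (c2 : ℝ) = w 0 * d 1 - w 1 * d 0 := by rw [hc2]; push_cast; ring
  have e01 : θ 0 * c1 = θ 1 * c0 := by
    rw [rc0, rc1]
    linear_combination (-(d 2 : ℝ)) * hwθ + (w 2 : ℝ) * hd
  have e12 : θ 1 * c2 = θ 2 * c1 := by
    rw [rc1, rc2]
    linear_combination (-(d 0 : ℝ)) * hwθ + (w 0 : ℝ) * hd
  have e20 : θ 2 * c0 = θ 0 * c2 := by
    rw [rc0, rc2]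
    linear_combination (-(d 1 : ℝ)) * hwθ + (w 1 : ℝ) * hd
  have f0 : θ 0 * ((c0 + c1 + c2 : ℤ) : ℝ) = c0 * Real.pi := by
    push_cast; rw [← hsum]; linear_combination e01 - e20
  have f1 : θ 1 * ((c0 + c1 + c2 : ℤ) : ℝ) = c1 * Real.pi := by
    push_cast; rw [← hsum]; linear_combination e12 - e01
  have f2 : θ 2 * ((c0 + c1 + c2 : ℤ) : ℝ) = c2 * Real.pi := by
    push_cast; rw [← hsum]; linear_combination e20 - e12
  have hpi := Real.pi_ne_zero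
  by_cases hS : c0 + c1 + c2 = 0
  · rw [hS] at f0 f1 f2
    have z0 : c0 = 0 := by
      have : (c0 : ℝ) * Real.pi = 0 := by rw [← f0]; simp
      exact_mod_cast (mul_eq_zero.1 this).resolve_right hpi
    have z1 : c1 = 0 := by
      have : (c1 : ℝ) * Real.pi = 0 := by rw [← f1]; simp
      exact_mod_cast (mul_eq_zero.1 this).resolve_right hpi
    have z2 : c2 = 0 := by
      have : (c2 : ℝ) * Real.pi = 0 := by rw [← f2]; simp
      exact_mod_cast (mul_eq_zero.1 this).resolve_right hpi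
    rw [z0] at hc0; rw [z1] at hc1; rw [z2] at hc2
    obtain ⟨k0, hk0⟩ := hd1
    have cross : ∀ i j, w i * d j = w j * d i := by
      intro i j
      fin_cases i <;> fin_cases j <;> simp only [Fin.zero_eta, Fin.mk_one, Fin.reduceFinMk] <;> linarith
    have key : ∀ i, w i = d i * (- w k0) := by
      intro i
      have := cross i k0
      rw [hk0] at this
      linarith
    have hw1 : ∏ k, X k ^ w k = 1 := by
      have : ∏ k, X k ^ w k = (∏ k, X k ^ d k) ^ (- w k0) := by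
        rw [← Finset.prod_zpow]
        refine Finset.prod_congr rfl fun k _ => ?_
        rw [← zpow_mul, ← key k]
      rw [this, hXd, one_zpow]
    have : ∏ k, X k ^ y k = (∏ k, X k ^ w k) * (X 0 * X 1 * X 2) ^ s := by
      rw [Fin.prod_univ_three, Fin.prod_univ_three, mul_zpow, mul_zpow, hyw 0, hyw 1, hyw 2,
        zpow_add₀ (hX 0), zpow_add₀ (hX 1), zpow_add₀ (hX 2)]
      ring
    rw [this, hw1, hprod, one_mul]
  · exfalso
    have hSr : ((c0 + c1 + c2 : ℤ) : ℝ) ≠ 0 := by exact_mod_cast hS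
    apply hirr
    intro k
    fin_cases k
    · refine ⟨(c0 : ℚ) / ((c0 + c1 + c2 : ℤ) : ℚ), ?_⟩
      show θ 0 = _
      rw [Rat.cast_div, Rat.cast_intCast, Rat.cast_intCast, div_mul_eq_mul_div, eq_div_iff hSr, f0]
    · refine ⟨(c1 : ℚ) / ((c0 + c1 + c2 : ℤ) : ℚ), ?_⟩
      show θ 1 = _
      rw [Rat.cast_div, Rat.cast_intCast, Rat.cast_intCast, div_mul_eq_mul_div, eq_div_iff hSr, f1]
    · refine ⟨(c2 : ℚ) / ((c0 + c1 + c2 : ℤ) : ℚ), ?_⟩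
      show θ 2 = _
      rw [Rat.cast_div, Rat.cast_intCast, Rat.cast_intCast, div_mul_eq_mul_div, eq_div_iff hSr, f2]

theorem neg_one_zpow_eq (n : ℤ) : ((-1 : ℂ)) ^ n = Complex.exp (Complex.I * (n * (Real.pi : ℂ))) := by
  have : Complex.I * (n * (Real.pi : ℂ)) = n * (Real.pi * Complex.I) := by ring
  rw [this, Complex.exp_int_mul, Complex.exp_pi_mul_I]

theorem lemB (θ : Fin 3 → ℝ) (hsum : θ 0 + θ 1 + θ 2 = Real.pi)
    (hirr : ¬ ∀ k, ∃ q : ℚ, θ k = q * Real.pi)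
    (d : Fin 3 → ℤ) (hd : ∑ k, (d k : ℝ) * θ k = 0) (hd1 : ∃ k, d k = -1)
    (X : Fin 3 → ℂ) (hX : ∀ k, X k ≠ 0) (hprod : X 0 * X 1 * X 2 = -1)
    (hXd : ∏ k, X k ^ d k = 1) (z0 : ℂ) (hz0 : z0 ≠ 0) (m m' : ℤ) (x x' : Fin 3 → ℤ)
    (h : EE θ z0 m x = EE θ z0 m' x') :
    (-1) ^ m * ∏ k, X k ^ x k = (-1) ^ m' * ∏ k, X k ^ x' k := by
  unfold EE at h
  rw [mul_assoc, mul_assoc] at h
  have h1 := mul_left_cancel₀ hz0 h
  rw [neg_one_zpow_eq, neg_one_zpow_eq, ← Complex.exp_add, ← Complex.exp_add] at h1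
  obtain ⟨n, hn⟩ := Complex.exp_eq_exp_iff_exists_int.1 h1
  have h2 : (m * (Real.pi : ℂ)) + ∑ k, (x k : ℂ) * (θ k : ℂ) =
      (m' * (Real.pi : ℂ)) + ∑ k, (x' k : ℂ) * (θ k : ℂ) + n * (2 * Real.pi) := by
    apply mul_left_cancel₀ Complex.I_ne_zero
    linear_combination hn
  have h3 : (m * Real.pi) + ∑ k, (x k : ℝ) * (θ k : ℝ) =
      (m' * Real.pi) + ∑ k, (x' k : ℝ) * (θ k : ℝ) + n * (2 * Real.pi) := by
    exact_mod_cast h2
  have h4 : ∑ k, ((x k - x' k : ℤ) : ℝ) * θ k = ((m' - m + 2 * n : ℤ) : ℝ) * Real.pi := by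
    have : ∑ k, ((x k - x' k : ℤ) : ℝ) * θ k = ∑ k, (x k : ℝ) * (θ k : ℝ) - ∑ k, (x' k : ℝ) * (θ k : ℝ) := by
      rw [← Finset.sum_sub_distrib]
      refine Finset.sum_congr rfl fun k _ => ?_
      push_cast; ring
    rw [this]; push_cast; linarith
  have h5 := lemA θ hsum hirr d hd hd1 X hX hprod hXd (fun k => x k - x' k) _ h4
  have h6 : ∏ k, X k ^ x k = (∏ k, X k ^ (x k - x' k)) * ∏ k, X k ^ x' k := by
    rw [← Finset.prod_mul_distrib]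
    refine Finset.prod_congr rfl fun k _ => ?_
    rw [← zpow_add₀ (hX k)]; congr 1; ring
  have hne : (-1 : ℂ) ≠ 0 := by norm_num
  rw [h6, h5, ← mul_assoc, ← zpow_add₀ hne]
  congr 1
  have : m + (m' - m + 2 * n) = m' + 2 * n := by ring
  rw [this, zpow_add₀ hne, zpow_mul]
  norm_num

/-- TARGET: characters on the direction group when the angles are not all rational -/
theorem char_exists (θ : Fin 3 → ℝ) (hsum : θ 0 + θ 1 + θ 2 = Real.pi)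
    (hirr : ¬ ∀ k, ∃ q : ℚ, θ k = q * Real.pi)
    (d : Fin 3 → ℤ) (hd : ∑ k, (d k : ℝ) * θ k = 0) (hd1 : ∃ k, d k = -1)
    (X : Fin 3 → ℂ) (hX : ∀ k, X k ≠ 0) (hprod : X 0 * X 1 * X 2 = -1)
    (hXd : ∏ k, X k ^ d k = 1) (z0 : ℂ) (hz0 : z0 ≠ 0) :
    ∃ φ : ℂ → ℂ, (∀ z, φ (-z) = - φ z) ∧
      (∀ (m : ℤ) (x : Fin 3 → ℤ),
        φ (z0 * (-1) ^ m * Complex.exp (Complex.I * ∑ k, (x k : ℂ) * (θ k : ℂ))) =
          (-1) ^ m * ∏ k, X k ^ x k) ∧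
      (∀ z k, φ (Complex.exp ((θ k : ℂ) * Complex.I) * z) = X k * φ z) := by
  classical
  obtain ⟨φ, hφ⟩ : ∃ φ : ℂ → ℂ, φ = fun z =>
      if h : ∃ p : ℤ × (Fin 3 → ℤ), z = EE θ z0 p.1 p.2 then (-1) ^ h.choose.1 * ∏ k, X k ^ (h.choose.2 k) else 0 :=
    ⟨_, rfl⟩
  have ev : ∀ (m : ℤ) (x : Fin 3 → ℤ), φ (EE θ z0 m x) = (-1) ^ m * ∏ k, X k ^ x k := by
    intro m x
    have h : ∃ p : ℤ × (Fin 3 → ℤ), EE θ z0 m x = EE θ z0 p.1 p.2 := ⟨(m, x), rfl⟩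
    rw [hφ]
    simp only [dif_pos h]
    exact (lemB θ hsum hirr d hd hd1 X hX hprod hXd z0 hz0 _ _ _ _ h.choose_spec).symm
  have ev0 : ∀ z, (¬ ∃ p : ℤ × (Fin 3 → ℤ), z = EE θ z0 p.1 p.2) → φ z = 0 := by
    intro z hz
    rw [hφ]
    simp only [dif_neg hz]
  have hne : (-1 : ℂ) ≠ 0 := by norm_num
  have hneg : ∀ m x, - EE θ z0 m x = EE θ z0 (m + 1) x := by
    intro m x
    unfold EE
    rw [zpow_add₀ hne, zpow_one]; ring
  have hrot : ∀ m x k, Complex.exp ((θ k : ℂ) * Complex.I) * EE θ z0 m x = EE θ z0 m (x + (Pi.single k 1 : Fin 3 → ℤ)) := by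
    intro m x k
    unfold EE
    have : ∑ j, (((x + (Pi.single k 1 : Fin 3 → ℤ)) j : ℤ) : ℂ) * (θ j : ℂ) = ∑ j, (x j : ℂ) * (θ j : ℂ) + θ k := by
      have : ∀ j, (((x + (Pi.single k 1 : Fin 3 → ℤ)) j : ℤ) : ℂ) * (θ j : ℂ) = (x j : ℂ) * (θ j : ℂ) + (if j = k then (θ j : ℂ) else 0) := by
        intro j
        by_cases hj : j = k
        · subst hj; simp; ring
        · simp [Pi.single_apply, hj]
      simp only [this, Finset.sum_add_distrib]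
      simp
    rw [this, mul_add, Complex.exp_add]
    ring_nf
  refine ⟨φ, ?_, ev, ?_⟩
  · intro z
    by_cases h : ∃ p : ℤ × (Fin 3 → ℤ), z = EE θ z0 p.1 p.2
    · obtain ⟨⟨m, x⟩, rfl⟩ := h
      rw [hneg, ev, ev, zpow_add₀ hne, zpow_one]; ring
    · have h' : ¬ ∃ p : ℤ × (Fin 3 → ℤ), -z = EE θ z0 p.1 p.2 := by
        rintro ⟨⟨m, x⟩, hp⟩
        exact h ⟨(m + 1, x), by rw [← hneg, ← hp, neg_neg]⟩
      rw [ev0 z h, ev0 (-z) h', neg_zero]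
  · intro z k
    by_cases h : ∃ p : ℤ × (Fin 3 → ℤ), z = EE θ z0 p.1 p.2
    · obtain ⟨⟨m, x⟩, rfl⟩ := h
      rw [hrot, ev, ev]
      have : ∏ j, X j ^ ((x + (Pi.single k 1 : Fin 3 → ℤ)) j) = (∏ j, X j ^ x j) * X k := by
        have : ∀ j, X j ^ ((x + (Pi.single k 1 : Fin 3 → ℤ)) j) = X j ^ x j * (if j = k then X j else 1) := by
          intro j
          by_cases hj : j = k
          · subst hj; simp [zpow_add₀ (hX j)]
          · simp [Pi.single_apply, hj]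
        simp only [this, Finset.prod_mul_distrib]
        simp
      rw [this]; ring
    · have h' : ¬ ∃ p : ℤ × (Fin 3 → ℤ), Complex.exp ((θ k : ℂ) * Complex.I) * z = EE θ z0 p.1 p.2 := by
        rintro ⟨⟨m, x⟩, hp⟩
        apply h
        refine ⟨(m, x - (Pi.single k 1 : Fin 3 → ℤ)), ?_⟩
        have h1 := hrot m (x - (Pi.single k 1 : Fin 3 → ℤ)) k
        rw [sub_add_cancel, ← hp] at h1
        exact (mul_left_cancel₀ (Complex.exp_ne_zero _) h1).symm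
      rw [ev0 z h, ev0 _ h', mul_zero]

end Pool.Agent.Helper549.Tri.Char
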