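import Mathlib
import Pool.Agent.Helper549.Tri.Defs
import Pool.Agent.Helper549.Tri.Basic
import Pool.Agent.Helper549.Tri.Angles
import Pool.Agent.Helper549.Tri.AngleSum
set_option autoImplicit false
noncomputable section
open scoped BigOperators
open MeasureTheory

namespace Pool.Agent.Helper549.Tri.Opp
open Pool.Agent.Helper549.Tri.Basic Pool.Agent.Helper549.Tri.Angles Pool.Agent.Helper549.Tri.AngleSum

theorem sc_fin3 (k m : Fin 3) : m = k ∨ m = k + 1 ∨ m = k + 2 := by
  revert k m; decide

theorem sc_cr_add (a z w : ℂ) : cr a (z + w) = cr a z + cr a w := by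
  unfold cr
  rw [Complex.add_im, Complex.add_re]
  ring

theorem sc_cr_smul (a w : ℂ) (ε : ℝ) : cr a ((ε : ℂ) * w) = ε * cr a w := by
  unfold cr
  rw [Complex.re_ofReal_mul, Complex.im_ofReal_mul]
  ring

theorem sc_cr_mul (a w : ℂ) (ε : ℝ) : cr ((ε : ℂ) * a) w = ε * cr a w := by
  unfold cr
  rw [Complex.re_ofReal_mul, Complex.im_ofReal_mul]
  ring

theorem sc_lam_add (v : Fin 3 → ℂ) (m : Fin 3) (p w : ℂ) (ε : ℝ) :
    lam v m (p + (ε : ℂ) * w) = lam v m p + ε * cr (sd v m) w := by
  unfold lam
  have e : p + (ε : ℂ) * w - v (m + 1) = (p - v (m + 1)) + (ε : ℂ) * w := by ring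
  rw [e, sc_cr_add, sc_cr_smul]

theorem sc_ev {c d : ℝ} (h : 0 < c ∨ (c = 0 ∧ 0 < d)) :
    ∀ᶠ ε : ℝ in nhdsWithin 0 (Set.Ioi 0), 0 < c + ε * d := by
  rcases h with h | ⟨h, hd⟩
  · have h1 : Filter.Tendsto (fun ε : ℝ => c + ε * d) (nhds 0) (nhds (c + 0 * d)) :=
      (continuous_const.add (continuous_id.mul continuous_const)).tendsto 0
    rw [zero_mul, add_zero] at h1
    exact (h1.mono_left nhdsWithin_le_nhds).eventually_const_lt h
  · filter_upwards [self_mem_nhdsWithin] with ε hε
    have hε0 : 0 < ε := hε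
    rw [h, zero_add]
    exact mul_pos hε0 hd

theorem sc_sd_cr (v : Fin 3 → ℂ) (hv : 0 < dd v) (k : Fin 3) (w : ℂ) :
    cr (sd v k) w = len v k * cr (dir v k) w := by
  rw [sd_eq v hv k, sc_cr_mul]

/-- pushing a point of an open side inside -/
theorem sc_pert (v : Fin 3 → ℂ) (hv : 0 < dd v) (k : Fin 3) (p w : ℂ) (hp : onSide v k p)
    (hw : 0 < cr (dir v k) w) :
    ∀ᶠ ε : ℝ in nhdsWithin 0 (Set.Ioi 0), p + (ε : ℂ) * w ∈ interior (hull v) := by
  obtain ⟨h0, h1, h2⟩ := (onSide_iff v hv k p).1 hp
  have a0 : ∀ᶠ ε : ℝ in nhdsWithin 0 (Set.Ioi 0), 0 < lam v k p + ε * cr (sd v k) w := by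
    apply sc_ev
    right
    refine ⟨h0, ?_⟩
    rw [sc_sd_cr v hv]
    exact mul_pos (len_pos v hv k) hw
  have a1 : ∀ᶠ ε : ℝ in nhdsWithin 0 (Set.Ioi 0), 0 < lam v (k + 1) p + ε * cr (sd v (k + 1)) w :=
    sc_ev (Or.inl h1)
  have a2 : ∀ᶠ ε : ℝ in nhdsWithin 0 (Set.Ioi 0), 0 < lam v (k + 2) p + ε * cr (sd v (k + 2)) w :=
    sc_ev (Or.inl h2)
  filter_upwards [a0, a1, a2] with ε b0 b1 b2
  rw [mem_int v hv]
  intro m
  rw [sc_lam_add]
  rcases sc_fin3 k m with rfl | rfl | rfl
  · exact b0
  · exact b1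
  · exact b2

theorem sc_norm {a : ℂ} (ha : ‖a‖ = 1) : a.re * a.re + a.im * a.im = 1 := by
  have h := Complex.normSq_eq_norm_sq a
  rw [ha, Complex.normSq_apply] at h
  linarith

/-- TARGET -/
theorem opp_dir {N : ℕ} {T : Fin 3 → ℂ} {t : Fin N → Fin 3 → ℂ} (h : Dis N T t) {i j : Fin N}
    (hij : i ≠ j) {k l : Fin 3} {p : ℂ} (hi : onSide (t i) k p) (hj : onSide (t j) l p) :
    dir (t i) k = - dir (t j) l := by
  by_contra hne
  set a : ℂ := dir (t i) k with ha
  set b : ℂ := dir (t j) l with hb
  have ha1 := sc_norm (norm_dir (t i) (h.ccwt i) k)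
  have hb1 := sc_norm (norm_dir (t j) (h.ccwt j) l)
  rw [← ha] at ha1
  rw [← hb] at hb1
  have hpos : 0 < (a.re + b.re) * (a.re + b.re) + (a.im + b.im) * (a.im + b.im) := by
    by_contra hcon
    rw [not_lt] at hcon
    have h1 : a.re + b.re = 0 := by nlinarith [mul_self_nonneg (a.re + b.re), mul_self_nonneg (a.im + b.im)]
    have h2 : a.im + b.im = 0 := by nlinarith [mul_self_nonneg (a.re + b.re), mul_self_nonneg (a.im + b.im)]
    apply hne
    apply Complex.ext
    · rw [Complex.neg_re]; linarith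
    · rw [Complex.neg_im]; linarith
  have c1 : 0 < cr a (Complex.I * (a + b)) := by
    unfold cr
    simp only [Complex.mul_re, Complex.mul_im, Complex.I_re, Complex.I_im, Complex.add_re, Complex.add_im]
    nlinarith
  have c2 : 0 < cr b (Complex.I * (a + b)) := by
    unfold cr
    simp only [Complex.mul_re, Complex.mul_im, Complex.I_re, Complex.I_im, Complex.add_re, Complex.add_im]
    nlinarith
  have e1 := sc_pert (t i) (h.ccwt i) k p _ hi c1
  have e2 := sc_pert (t j) (h.ccwt j) l p _ hj c2
  obtain ⟨ε, he1, he2⟩ := (e1.and e2).exists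
  exact Set.disjoint_left.1 (h.disj i j hij) he1 he2

/-- TARGET -/
theorem bd_dir {N : ℕ} {T : Fin 3 → ℂ} {t : Fin N → Fin 3 → ℂ} (h : Dis N T t) {i : Fin N}
    {k l : Fin 3} {p : ℂ} (hi : onSide (t i) k p) (hT : onSide T l p) :
    dir (t i) k = dir T l := by
  by_contra hne
  set a : ℂ := dir (t i) k with ha
  set b : ℂ := dir T l with hb
  have ha1 := sc_norm (norm_dir (t i) (h.ccwt i) k)
  have hb1 := sc_norm (norm_dir T h.ccwT l)
  rw [← ha] at ha1
  rw [← hb] at hb1
  have hpos : 0 < (a.re - b.re) * (a.re - b.re) + (a.im - b.im) * (a.im - b.im) := by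
    by_contra hcon
    rw [not_lt] at hcon
    have h1 : a.re - b.re = 0 := by nlinarith [mul_self_nonneg (a.re - b.re), mul_self_nonneg (a.im - b.im)]
    have h2 : a.im - b.im = 0 := by nlinarith [mul_self_nonneg (a.re - b.re), mul_self_nonneg (a.im - b.im)]
    apply hne
    apply Complex.ext
    · linarith
    · linarith
  have c1 : 0 < cr a (Complex.I * (a - b)) := by
    unfold cr
    simp only [Complex.mul_re, Complex.mul_im, Complex.I_re, Complex.I_im, Complex.sub_re, Complex.sub_im]
    nlinarith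
  have c2 : cr b (Complex.I * (a - b)) < 0 := by
    unfold cr
    simp only [Complex.mul_re, Complex.mul_im, Complex.I_re, Complex.I_im, Complex.sub_re, Complex.sub_im]
    nlinarith
  have e1 := sc_pert (t i) (h.ccwt i) k p _ hi c1
  have e2 : ∀ᶠ ε : ℝ in nhdsWithin 0 (Set.Ioi 0), 0 < ε := self_mem_nhdsWithin
  obtain ⟨ε, he1, he2⟩ := (e1.and e2).exists
  have h1 : p + (ε : ℂ) * (Complex.I * (a - b)) ∈ hull T := by
    rw [← h.cover]
    exact Set.mem_iUnion.2 ⟨i, interior_subset he1⟩
  have h2 := (mem_hull T h.ccwT _).1 h1 l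
  rw [sc_lam_add, ((onSide_iff T h.ccwT l p).1 hT).1, sc_sd_cr T h.ccwT, zero_add, ← hb] at h2
  have h3 := len_pos T h.ccwT l
  have h4 : len T l * cr b (Complex.I * (a - b)) < 0 := mul_neg_of_pos_of_neg h3 c2
  have h5 : ε * (len T l * cr b (Complex.I * (a - b))) < 0 := mul_neg_of_pos_of_neg he2 h4
  linarith

theorem sc_uniq (v : Fin 3 → ℂ) (hv : 0 < dd v) {k m : Fin 3} {p : ℂ} (hk : onSide v k p) (hm : onSide v m p) :
    m = k := by
  obtain ⟨h0, h1, h2⟩ := (onSide_iff v hv k p).1 hk
  have g0 := ((onSide_iff v hv m p).1 hm).1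
  rcases sc_fin3 k m with h | h | h
  · exact h
  · rw [h] at g0; linarith
  · rw [h] at g0; linarith

theorem sc_notint (v : Fin 3 → ℂ) (hv : 0 < dd v) {k : Fin 3} {p : ℂ} (hk : onSide v k p) :
    p ∉ interior (hull v) := by
  intro h
  have h1 := (mem_int v hv p).1 h k
  rw [((onSide_iff v hv k p).1 hk).1] at h1
  exact lt_irrefl _ h1

theorem sc_mem (v : Fin 3 → ℂ) (hv : 0 < dd v) {k : Fin 3} {p : ℂ} (hk : onSide v k p) : p ∈ hull v := by
  obtain ⟨h0, h1, h2⟩ := (onSide_iff v hv k p).1 hk
  rw [mem_hull v hv]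
  intro m
  rcases sc_fin3 k m with h | h | h
  · rw [h, h0]
  · rw [h]; exact h1.le
  · rw [h]; exact h2.le

open Classical in
def sc_g (u d : ℂ) : ℝ := (if d = u then (1:ℝ) else 0) - (if d = -u then 1 else 0)

theorem sc_g_neg (u d : ℂ) : sc_g u (-d) = - sc_g u d := by
  classical
  unfold sc_g
  have e1 : (-d = u) ↔ (d = -u) := neg_eq_iff_eq_neg
  have e2 : (-d = -u) ↔ (d = u) := neg_inj
  simp only [e1, e2]
  ring

/-- TARGET: a tile side reaching the boundary in its relative interior at an interior point of a side of T -/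
theorem side_count {N : ℕ} {T : Fin 3 → ℂ} {t : Fin N → Fin 3 → ℂ} (h : Dis N T t) (p u : ℂ)
    (hu : u ≠ 0) (hp : ∀ i k, p ≠ t i k) (hpT : ∀ k, p ≠ T k) :
    open Classical in
    (∑ i, ∑ k, if onSide (t i) k p then
      ((if dir (t i) k = u then (1:ℝ) else 0) - (if dir (t i) k = -u then 1 else 0)) else 0) =
    ∑ k, if onSide T k p then
      ((if dir T k = u then (1:ℝ) else 0) - (if dir T k = -u then 1 else 0)) else 0 := by
  classical
  have goal' : (∑ i, ∑ k, if onSide (t i) k p then sc_g u (dir (t i) k) else 0) =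
      ∑ k, if onSide T k p then sc_g u (dir T k) else 0 := by
    set S : Finset (Fin N × Fin 3) := Finset.univ.filter (fun x => onSide (t x.1) x.2 p) with hS
    set M : Finset (Fin N) := Finset.univ.filter (fun i => p ∈ interior (hull (t i))) with hM
    have hL : (∑ i, ∑ k, if onSide (t i) k p then sc_g u (dir (t i) k) else 0) =
        ∑ x ∈ S, sc_g u (dir (t x.1) x.2) := by
      rw [hS, Finset.sum_filter, Fintype.sum_prod_type]
    have hA : ∑ i, angAt (t i) p = Real.pi * (S.card + 2 * M.card : ℕ) := by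
      have h1 : ∀ i, angAt (t i) p = (∑ k : Fin 3, if onSide (t i) k p then Real.pi else 0) +
          (if p ∈ interior (hull (t i)) then 2 * Real.pi else 0) := by
        intro i
        unfold angAt
        have : (∑ k : Fin 3, if p = t i k then ang (t i) k else 0) = 0 :=
          Finset.sum_eq_zero fun k _ => if_neg (hp i k)
        rw [this, zero_add]
      simp only [h1]
      rw [Finset.sum_add_distrib]
      have h2 : (∑ i, ∑ k : Fin 3, if onSide (t i) k p then Real.pi else 0) = Real.pi * S.card := by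
        have : (∑ i, ∑ k : Fin 3, if onSide (t i) k p then Real.pi else 0) = ∑ x ∈ S, Real.pi := by
          rw [hS, Finset.sum_filter, Fintype.sum_prod_type]
        rw [this, Finset.sum_const, nsmul_eq_mul, mul_comm]
      have h3 : (∑ i, if p ∈ interior (hull (t i)) then 2 * Real.pi else 0) = 2 * Real.pi * M.card := by
        rw [← Finset.sum_filter, ← hM, Finset.sum_const, nsmul_eq_mul, mul_comm]
      rw [h2, h3]
      push_cast
      ring
    have hB : angAt T p = (∑ k : Fin 3, if onSide T k p then Real.pi else 0) +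
          (if p ∈ interior (hull T) then 2 * Real.pi else 0) := by
      unfold angAt
      have : (∑ k : Fin 3, if p = T k then ang T k else 0) = 0 :=
        Finset.sum_eq_zero fun k _ => if_neg (hpT k)
      rw [this, zero_add]
    have hAB := angle_sum h p
    rw [hA, hB] at hAB
    rw [hL]
    have hpi := Real.pi_pos
    by_cases hpH : p ∈ hull T
    · rcases vertex_cases T h.ccwT p hpH with h1 | ⟨l, h1⟩ | ⟨k, h1⟩
      · -- interior
        have hno : ∀ k, ¬ onSide T k p := fun k hk => sc_notint T h.ccwT hk h1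
        have hR : (∑ k, if onSide T k p then sc_g u (dir T k) else 0) = 0 :=
          Finset.sum_eq_zero fun k _ => if_neg (hno k)
        have hR2 : (∑ k : Fin 3, if onSide T k p then Real.pi else 0) = 0 :=
          Finset.sum_eq_zero fun k _ => if_neg (hno k)
        rw [hR]
        rw [hR2, if_pos h1, zero_add] at hAB
        have h2 : ((S.card + 2 * M.card : ℕ) : ℝ) = (2 : ℕ) := by
          have h3 : Real.pi * ((S.card + 2 * M.card : ℕ) : ℝ) = Real.pi * ((2 : ℕ) : ℝ) := by
            rw [hAB]; push_cast; ring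
          exact mul_left_cancel₀ hpi.ne' h3
        have h3 : S.card + 2 * M.card = 2 := by exact_mod_cast h2
        have h4 : S.card = 0 ∨ S.card = 2 := by omega
        rcases h4 with h4 | h4
        · rw [Finset.card_eq_zero] at h4
          rw [h4, Finset.sum_empty]
        · obtain ⟨x, y, hxy, hSxy⟩ := Finset.card_eq_two.1 h4
          have hx : onSide (t x.1) x.2 p := by
            have : x ∈ S := by rw [hSxy]; exact Finset.mem_insert_self _ _
            exact (Finset.mem_filter.1 this).2
          have hy : onSide (t y.1) y.2 p := by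
            have : y ∈ S := by rw [hSxy]; exact Finset.mem_insert_of_mem (Finset.mem_singleton_self _)
            exact (Finset.mem_filter.1 this).2
          have hne : x.1 ≠ y.1 := by
            intro he
            apply hxy
            rw [← he] at hy
            exact Prod.ext he (sc_uniq (t x.1) (h.ccwt x.1) hy hx)
          rw [hSxy, Finset.sum_pair hxy, opp_dir h hne hx hy, sc_g_neg]
          ring
      · -- side of T
        have huniq : ∀ k, k ≠ l → ¬ onSide T k p := fun k hk hk2 => hk (sc_uniq T h.ccwT h1 hk2)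
        have hR : (∑ k, if onSide T k p then sc_g u (dir T k) else 0) = sc_g u (dir T l) := by
          rw [Finset.sum_eq_single l (fun k _ hk => if_neg (huniq k hk))
            (fun hh => absurd (Finset.mem_univ _) hh), if_pos h1]
        have hR2 : (∑ k : Fin 3, if onSide T k p then Real.pi else 0) = Real.pi := by
          rw [Finset.sum_eq_single l (fun k _ hk => if_neg (huniq k hk))
            (fun hh => absurd (Finset.mem_univ _) hh), if_pos h1]
        rw [hR]
        rw [hR2, if_neg (sc_notint T h.ccwT h1), add_zero] at hAB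
        have h2 : ((S.card + 2 * M.card : ℕ) : ℝ) = (1 : ℕ) := by
          have h3 : Real.pi * ((S.card + 2 * M.card : ℕ) : ℝ) = Real.pi * ((1 : ℕ) : ℝ) := by
            rw [hAB]; push_cast; ring
          exact mul_left_cancel₀ hpi.ne' h3
        have h3 : S.card + 2 * M.card = 1 := by exact_mod_cast h2
        have h4 : S.card = 1 := by omega
        obtain ⟨x, hx⟩ := Finset.card_eq_one.1 h4
        have hx2 : onSide (t x.1) x.2 p := by
          have : x ∈ S := by rw [hx]; exact Finset.mem_singleton_self _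
          exact (Finset.mem_filter.1 this).2
        rw [hx, Finset.sum_singleton, bd_dir h hx2 h1]
      · exact absurd h1 (hpT k)
    · have hR : (∑ k, if onSide T k p then sc_g u (dir T k) else 0) = 0 :=
        Finset.sum_eq_zero fun k _ => if_neg (fun hk => hpH (sc_mem T h.ccwT hk))
      have hS0 : S = ∅ := by
        rw [Finset.eq_empty_iff_forall_notMem]
        intro x hx
        have hx2 := (Finset.mem_filter.1 hx).2
        apply hpH
        rw [← h.cover]
        exact Set.mem_iUnion.2 ⟨x.1, sc_mem _ (h.ccwt x.1) hx2⟩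
      rw [hR, hS0, Finset.sum_empty]
  exact goal'

end Pool.Agent.Helper549.Tri.Opp
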