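import Mathlib
import Pool.Agent.Helper549.Tri.Defs
import Pool.Agent.Helper549.Tri.Basic
import Pool.Agent.Helper549.Tri.Angles
import Pool.Agent.Helper549.Tri.AngleSum
import Pool.Agent.Helper549.Tri.Opp
set_option autoImplicit false
noncomputable section
open scoped BigOperators
open MeasureTheory

namespace Pool.Agent.Helper549.Tri.Class
open Pool.Agent.Helper549.Tri.Basic Pool.Agent.Helper549.Tri.Angles Pool.Agent.Helper549.Tri.AngleSum Pool.Agent.Helper549.Tri.Opp

theorem sc_fin {ι : Type} (V : Finset ι) (p q : ι → ℝ) (hpq : ∀ v ∈ V, q v ≠ 0) (ε : ℝ)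
    (hε : 0 < ε) : ∃ s : ℝ, 0 < s ∧ s < ε ∧ ∀ v ∈ V, p v + s * q v ≠ 0 := by
  classical
  obtain ⟨s, hs, hs2⟩ := (Set.Ioo_infinite hε).exists_notMem_finset (V.image fun v => -p v / q v)
  refine ⟨s, hs.1, hs.2, ?_⟩
  intro v hv h0
  apply hs2
  rw [Finset.mem_image]
  refine ⟨v, hv, ?_⟩
  have hq := hpq v hv
  rw [div_eq_iff hq]
  linarith

theorem sc_ang0 (v : Fin 3 → ℂ) (hv : 0 < dd v) (p : ℂ) : 0 ≤ angAt v p := by
  classical
  unfold angAt
  have h1 : 0 ≤ ∑ k : Fin 3, if p = v k then ang v k else 0 := by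
    apply Finset.sum_nonneg
    intro k _
    split_ifs
    · exact (ang_pos v hv k).le
    · exact le_rfl
  have h2 : 0 ≤ ∑ k : Fin 3, if onSide v k p then Real.pi else 0 := by
    apply Finset.sum_nonneg
    intro k _
    split_ifs
    · exact Real.pi_pos.le
    · exact le_rfl
  have h3 : 0 ≤ (if p ∈ interior (hull v) then 2 * Real.pi else 0) := by
    split_ifs
    · have := Real.pi_pos; linarith
    · exact le_rfl
  linarith

theorem sc_ang_int (v : Fin 3 → ℂ) (hv : 0 < dd v) (p : ℂ) (hp : p ∈ interior (hull v)) :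
    2 * Real.pi ≤ angAt v p := by
  classical
  unfold angAt
  have h1 : 0 ≤ ∑ k : Fin 3, if p = v k then ang v k else 0 := by
    apply Finset.sum_nonneg
    intro k _
    split_ifs
    · exact (ang_pos v hv k).le
    · exact le_rfl
  have h2 : 0 ≤ ∑ k : Fin 3, if onSide v k p then Real.pi else 0 := by
    apply Finset.sum_nonneg
    intro k _
    split_ifs
    · exact Real.pi_pos.le
    · exact le_rfl
  rw [if_pos hp]
  linarith

theorem sc_ang_side (v : Fin 3 → ℂ) (hv : 0 < dd v) (p : ℂ) (k : Fin 3) (hp : onSide v k p) :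
    Real.pi ≤ angAt v p := by
  classical
  unfold angAt
  have h1 : 0 ≤ ∑ k : Fin 3, if p = v k then ang v k else 0 := by
    apply Finset.sum_nonneg
    intro k _
    split_ifs
    · exact (ang_pos v hv k).le
    · exact le_rfl
  have h2 : Real.pi ≤ ∑ k : Fin 3, if onSide v k p then Real.pi else 0 := by
    have h4 : (if onSide v k p then Real.pi else 0) ≤ ∑ k : Fin 3, if onSide v k p then Real.pi else 0 := by
      apply Finset.single_le_sum (f := fun k => if onSide v k p then Real.pi else 0)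
      · intro l _
        show 0 ≤ if onSide v l p then Real.pi else 0
        split_ifs
        · exact Real.pi_pos.le
        · exact le_rfl
      · exact Finset.mem_univ k
    rw [if_pos hp] at h4
    exact h4
  have h3 : 0 ≤ (if p ∈ interior (hull v) then 2 * Real.pi else 0) := by
    split_ifs
    · have := Real.pi_pos; linarith
    · exact le_rfl
  linarith

theorem sc_ang_T (v : Fin 3 → ℂ) (hv : 0 < dd v) (p : ℂ) (hp : p ∈ interior (hull v)) :
    angAt v p = 2 * Real.pi := by
  classical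
  have hl := (mem_int v hv p).1 hp
  unfold angAt
  have h1 : ∑ k : Fin 3, (if p = v k then ang v k else 0) = 0 := by
    apply Finset.sum_eq_zero
    intro k _
    rw [if_neg]
    intro h
    have h2 := hl (k + 2)
    have h3 := lam_next v (k + 2)
    have h4 : k + 2 + 1 = k := by fin_cases k <;> rfl
    rw [h4] at h3
    rw [h, h3] at h2
    exact lt_irrefl _ h2
  have h2 : ∑ k : Fin 3, (if onSide v k p then Real.pi else 0) = 0 := by
    apply Finset.sum_eq_zero
    intro k _
    rw [if_neg]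
    intro h
    have h3 := ((onSide_iff v hv k p).1 h).1
    have h4 := hl k
    linarith
  rw [h1, h2, if_pos hp]
  ring

theorem sc_step {N : ℕ} {T : Fin 3 → ℂ} {t : Fin N → Fin 3 → ℂ} (h : Dis N T t) {a b : Fin N}
    (hab : a ≠ b) (p : ℂ) (hpT : p ∈ interior (hull T)) (hpa : p ∈ hull (t a))
    (hpb : p ∈ hull (t b)) (hpV : ∀ (c : Fin N) (k : Fin 3), p ≠ t c k) :
    ∃ k l, dir (t a) k = - dir (t b) l := by
  classical
  have hsum := angle_sum h p
  rw [sc_ang_T T h.ccwT p hpT] at hsum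
  have hπ := Real.pi_pos
  have two : angAt (t a) p + angAt (t b) p ≤ 2 * Real.pi := by
    rw [← hsum]
    have h1 : ∑ c ∈ ({a, b} : Finset (Fin N)), angAt (t c) p ≤ ∑ c, angAt (t c) p :=
      Finset.sum_le_sum_of_subset_of_nonneg (Finset.subset_univ _)
        (fun c _ _ => sc_ang0 (t c) (h.ccwt c) p)
    rwa [Finset.sum_pair hab] at h1
  have pos : ∀ c, p ∈ hull (t c) → Real.pi ≤ angAt (t c) p := by
    intro c hc
    rcases vertex_cases (t c) (h.ccwt c) p hc with h1 | ⟨k, h1⟩ | ⟨k, h1⟩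
    · have := sc_ang_int (t c) (h.ccwt c) p h1; linarith
    · exact sc_ang_side (t c) (h.ccwt c) p k h1
    · exact absurd h1 (hpV c k)
  have ha := pos a hpa
  have hb := pos b hpb
  rcases vertex_cases (t a) (h.ccwt a) p hpa with h1 | ⟨k, h1⟩ | ⟨k, h1⟩
  · have := sc_ang_int (t a) (h.ccwt a) p h1; linarith
  · rcases vertex_cases (t b) (h.ccwt b) p hpb with h2 | ⟨l, h2⟩ | ⟨l, h2⟩
    · have := sc_ang_int (t b) (h.ccwt b) p h2; linarith
    · exact ⟨k, l, opp_dir h hab h1 h2⟩
    · exact absurd h2 (hpV b l)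
  · exact absurd h1 (hpV a k)

theorem sc_int_ne (v : Fin 3 → ℂ) (hv : 0 < dd v) : ∃ p, p ∈ interior (hull v) := by
  refine ⟨(v 0 + v 1 + v 2) / 3, ?_⟩
  rw [mem_int v hv]
  have hd : dd v = (v 1).re * (v 2).im - (v 1).im * (v 2).re - (v 0).re * (v 2).im
      + (v 0).im * (v 2).re - (v 1).re * (v 0).im + (v 1).im * (v 0).re := by
    unfold dd cr
    simp only [Complex.sub_re, Complex.sub_im]
    ring
  intro k
  have h3 : lam v k ((v 0 + v 1 + v 2) / 3) = dd v / 3 := by
    have e3 : ((v 0 + v 1 + v 2) / 3 : ℂ) = ((1 / 3 : ℝ) : ℂ) * (v 0 + v 1 + v 2) := by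
      push_cast; ring
    rw [hd, e3]
    unfold lam sd cr
    fin_cases k <;>
    · simp [Complex.sub_re, Complex.sub_im, Complex.add_re, Complex.add_im, Complex.mul_re,
        Complex.mul_im]
      ring
  rw [h3]; positivity

/-- TARGET: directions of all tiles are in one class of any equivalence relation R that contains
z ~ -z and the three side directions of each tile -/
theorem same_class {N : ℕ} {T : Fin 3 → ℂ} {t : Fin N → Fin 3 → ℂ} (h : Dis N T t)
    (R : ℂ → ℂ → Prop) (hR : Equivalence R) (hneg : ∀ z, R z (-z))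
    (htile : ∀ i k l, R (dir (t i) k) (dir (t i) l)) (i j : Fin N) (k l : Fin 3) :
    R (dir (t i) k) (dir (t j) l) := by
  classical
  by_contra hcon
  obtain ⟨C, hC⟩ : ∃ C : Set (Fin N), C = {a | R (dir (t i) k) (dir (t a) 0)} := ⟨_, rfl⟩
  have hiC : i ∈ C := by rw [hC]; exact htile i k 0
  have hjC : j ∉ C := by
    rw [hC]
    intro hj
    exact hcon (hR.trans hj (htile j 0 l))
  have hCmem : ∀ a m, R (dir (t i) k) (dir (t a) m) → a ∈ C := by
    intro a m ham
    rw [hC]
    exact hR.trans ham (htile a m 0)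
  have hCmem' : ∀ a m, a ∈ C → R (dir (t i) k) (dir (t a) m) := by
    intro a m ham
    rw [hC] at ham
    exact hR.trans ham (htile a 0 m)
  -- choice of the points
  obtain ⟨c1, hc1⟩ := sc_int_ne (t i) (h.ccwt i)
  obtain ⟨c2, hc2⟩ := sc_int_ne (t j) (h.ccwt j)
  obtain ⟨r1, hr1, hb1⟩ := Metric.isOpen_iff.1 isOpen_interior c1 hc1
  obtain ⟨r2, hr2, hb2⟩ := Metric.isOpen_iff.1 isOpen_interior c2 hc2
  obtain ⟨s1, hs1, hs1', hs1v⟩ := sc_fin (Finset.univ : Finset (Fin N × Fin 3))
    (fun v => (c1 - t v.1 v.2).re) (fun _ => 1) (fun _ _ => one_ne_zero) r1 hr1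
  obtain ⟨x, hx⟩ : ∃ x : ℂ, x = c1 + (s1 : ℂ) := ⟨_, rfl⟩
  have hxint : x ∈ interior (hull (t i)) := by
    apply hb1
    rw [Metric.mem_ball, hx, dist_eq_norm, add_sub_cancel_left, Complex.norm_real,
      Real.norm_of_nonneg hs1.le]
    exact hs1'
  have hxre : ∀ v : Fin N × Fin 3, (t v.1 v.2 - x).re ≠ 0 := by
    intro v h0
    apply hs1v v (Finset.mem_univ v)
    rw [hx] at h0
    simp only [Complex.sub_re, Complex.add_re, Complex.ofReal_re] at h0 ⊢
    linarith
  obtain ⟨s2, hs2, hs2', hs2v⟩ := sc_fin (Finset.univ : Finset (Fin N × Fin 3))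
    (fun v => cr (t v.1 v.2 - x) (c2 - x)) (fun v => (t v.1 v.2 - x).re) (fun v _ => hxre v) r2 hr2
  obtain ⟨y, hy⟩ : ∃ y : ℂ, y = c2 + (s2 : ℂ) * Complex.I := ⟨_, rfl⟩
  have hyint : y ∈ interior (hull (t j)) := by
    apply hb2
    rw [Metric.mem_ball, hy, dist_eq_norm, add_sub_cancel_left, norm_mul, Complex.norm_I, mul_one,
      Complex.norm_real, Real.norm_of_nonneg hs2.le]
    exact hs2'
  have hycr : ∀ v : Fin N × Fin 3, cr (t v.1 v.2 - x) (y - x) ≠ 0 := by
    intro v h0
    apply hs2v v (Finset.mem_univ v)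
    rw [← h0, hy]
    unfold cr
    simp
    ring
  have hsubT : ∀ a, hull (t a) ⊆ hull T := by
    intro a
    rw [← h.cover]
    exact Set.subset_iUnion (fun i => hull (t i)) a
  have hxT : x ∈ interior (hull T) := interior_mono (hsubT i) hxint
  have hyT : y ∈ interior (hull T) := interior_mono (hsubT j) hyint
  have hconv : Convex ℝ (interior (hull T)) := (convex_convexHull ℝ _).interior
  have hseg : segment ℝ x y ⊆ interior (hull T) := hconv.segment_subset hxT hyT
  have hpre : IsPreconnected (segment ℝ x y) := (convex_segment x y).isPreconnected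
  rw [isPreconnected_closed_iff] at hpre
  have hcl : ∀ S : Set (Fin N), IsClosed (⋃ a ∈ S, hull (t a)) := by
    intro S
    exact Set.Finite.isClosed_biUnion (Set.toFinite S) fun a _ => hull_closed (t a)
  obtain ⟨p, hp, hp1, hp2⟩ := hpre (⋃ a ∈ C, hull (t a)) (⋃ a ∈ Cᶜ, hull (t a)) (hcl C) (hcl Cᶜ)
    (by
      intro p hp
      have h1 : p ∈ hull T := interior_subset (hseg hp)
      rw [← h.cover] at h1
      obtain ⟨a, ha⟩ := Set.mem_iUnion.1 h1
      by_cases haC : a ∈ C
      · exact Or.inl (Set.mem_biUnion haC ha)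
      · exact Or.inr (Set.mem_biUnion haC ha))
    ⟨x, left_mem_segment ℝ x y, Set.mem_biUnion hiC (interior_subset hxint)⟩
    ⟨y, right_mem_segment ℝ x y, Set.mem_biUnion hjC (interior_subset hyint)⟩
  rw [Set.mem_iUnion₂] at hp1 hp2
  obtain ⟨a, haC, hpa⟩ := hp1
  obtain ⟨b, hbC, hpb⟩ := hp2
  have hab : a ≠ b := by
    rintro rfl
    exact hbC haC
  have hpV : ∀ (c : Fin N) (m : Fin 3), p ≠ t c m := by
    intro c m hpe
    have hp' := hp
    rw [segment_eq_image'] at hp'
    obtain ⟨θ, -, hθ⟩ := hp'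
    apply hycr (c, m)
    show cr (t c m - x) (y - x) = 0
    rw [← hpe, ← hθ]
    unfold cr
    simp
    ring
  obtain ⟨k1, l1, hkl⟩ := sc_step h hab p (hseg hp) hpa hpb hpV
  apply hbC
  apply hCmem b l1
  have h1 := hCmem' a k1 haC
  rw [hkl] at h1
  exact hR.trans h1 (hR.symm (hneg _))

end Pool.Agent.Helper549.Tri.Class
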