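import Mathlib
set_option autoImplicit false
noncomputable section
open scoped BigOperators

namespace Pool.Agent.Helper549.Tri.Classify

/-- TARGET 1: two integer relations orthogonal to an irrational angle vector are proportional -/
theorem rel_prop (θ : Fin 3 → ℝ) (hsum : θ 0 + θ 1 + θ 2 = Real.pi)
    (hirr : ¬ ∀ k, ∃ q : ℚ, θ k = q * Real.pi)
    (d w : Fin 3 → ℤ) (hd : ∑ k, (d k : ℝ) * θ k = 0) (hw : ∑ k, (w k : ℝ) * θ k = 0)
    (k0 : Fin 3) (hd1 : d k0 = -1) : ∀ k, w k = - w k0 * d k := by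
  have hpi : Real.pi ≠ 0 := Real.pi_ne_zero
  simp only [Fin.sum_univ_three] at hd hw
  set c : Fin 3 → ℤ := ![d 1 * w 2 - d 2 * w 1, d 2 * w 0 - d 0 * w 2, d 0 * w 1 - d 1 * w 0] with hc
  have c0 : (c 0 : ℝ) = d 1 * w 2 - d 2 * w 1 := by simp [hc]
  have c1 : (c 1 : ℝ) = d 2 * w 0 - d 0 * w 2 := by simp [hc]
  have c2 : (c 2 : ℝ) = d 0 * w 1 - d 1 * w 0 := by simp [hc]
  have h01 : (c 0 : ℝ) * θ 1 = c 1 * θ 0 := by
    rw [c0, c1]; linear_combination (- (w 2 : ℝ)) * hd * (-1) + (-(d 2 : ℝ)) * hw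
  have h02 : (c 0 : ℝ) * θ 2 = c 2 * θ 0 := by
    rw [c0, c2]; linear_combination (- (w 1 : ℝ)) * hd + ((d 1 : ℝ)) * hw
  have h12 : (c 1 : ℝ) * θ 2 = c 2 * θ 1 := by
    rw [c1, c2]; linear_combination ((w 0 : ℝ)) * hd + (-(d 0 : ℝ)) * hw
  have hS0 : ((c 0 + c 1 + c 2 : ℤ) : ℝ) * θ 0 = c 0 * Real.pi := by
    push_cast
    rw [← hsum]; linear_combination - h01 - h02
  have hS1 : ((c 0 + c 1 + c 2 : ℤ) : ℝ) * θ 1 = c 1 * Real.pi := by
    push_cast
    rw [← hsum]; linear_combination h01 - h12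
  have hS2 : ((c 0 + c 1 + c 2 : ℤ) : ℝ) * θ 2 = c 2 * Real.pi := by
    push_cast
    rw [← hsum]; linear_combination h02 + h12
  have hSz : (c 0 + c 1 + c 2 : ℤ) = 0 := by
    by_contra hne
    have hne' : ((c 0 + c 1 + c 2 : ℤ) : ℝ) ≠ 0 := by exact_mod_cast hne
    apply hirr
    intro k
    have key : ((c 0 + c 1 + c 2 : ℤ) : ℝ) * θ k = c k * Real.pi := by
      fin_cases k
      · exact hS0
      · exact hS1
      · exact hS2
    refine ⟨(c k : ℚ) / ((c 0 + c 1 + c 2 : ℤ) : ℚ), ?_⟩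
    push_cast
    push_cast at key hne'
    field_simp
    linear_combination key
  rw [hSz] at hS0 hS1 hS2
  simp only [Int.cast_zero, zero_mul] at hS0 hS1 hS2
  have e0 : c 0 = 0 := by
    have : (c 0 : ℝ) = 0 := by
      rcases mul_eq_zero.mp hS0.symm with h | h
      · exact h
      · exact absurd h hpi
    exact_mod_cast this
  have e1 : c 1 = 0 := by
    have : (c 1 : ℝ) = 0 := by
      rcases mul_eq_zero.mp hS1.symm with h | h
      · exact h
      · exact absurd h hpi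
    exact_mod_cast this
  have e2 : c 2 = 0 := by
    have : (c 2 : ℝ) = 0 := by
      rcases mul_eq_zero.mp hS2.symm with h | h
      · exact h
      · exact absurd h hpi
    exact_mod_cast this
  have f0 : d 1 * w 2 - d 2 * w 1 = 0 := by simpa [hc] using e0
  have f1 : d 2 * w 0 - d 0 * w 2 = 0 := by simpa [hc] using e1
  have f2 : d 0 * w 1 - d 1 * w 0 = 0 := by simpa [hc] using e2
  intro k
  clear_value c
  clear hS0 hS1 hS2 e0 e1 e2 hSz h01 h02 h12 c0 c1 c2 hc c hd hw
  fin_cases k0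
  · change d 0 = -1 at hd1
    rw [hd1] at f1 f2
    fin_cases k
    · change w 0 = - w 0 * d 0
      rw [hd1]; ring
    · change w 1 = - w 0 * d 1
      linarith
    · change w 2 = - w 0 * d 2
      linarith
  · change d 1 = -1 at hd1
    rw [hd1] at f0 f2
    fin_cases k
    · change w 0 = - w 1 * d 0
      linarith
    · change w 1 = - w 1 * d 1
      rw [hd1]; ring
    · change w 2 = - w 1 * d 2
      linarith
  · change d 2 = -1 at hd1
    rw [hd1] at f0 f1
    fin_cases k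
    · change w 0 = - w 2 * d 0
      linarith
    · change w 1 = - w 2 * d 1
      linarith
    · change w 2 = - w 2 * d 2
      rw [hd1]; ring

lemma fin_check : ∀ P : Fin 3 → Fin 4, (∃ k, P k = 0) → 3 ≤ (P 0).val + (P 1).val + (P 2).val →
    ∃ σ : Equiv.Perm (Fin 3), 
      (![(P (σ 0)).val, (P (σ 1)).val, (P (σ 2)).val] = ![2, 0, 1] ∨ 
       ![(P (σ 0)).val, (P (σ 1)).val, (P (σ 2)).val] = ![3, 0, 1] ∨ 
       ![(P (σ 0)).val, (P (σ 1)).val, (P (σ 2)).val] = ![2, 2, 0] ∨ 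
       ![(P (σ 0)).val, (P (σ 1)).val, (P (σ 2)).val] = ![3, 2, 0] ∨
       ![(P (σ 0)).val, (P (σ 1)).val, (P (σ 2)).val] = ![3, 3, 0] ∨ 
       ![(P (σ 0)).val, (P (σ 1)).val, (P (σ 2)).val] = ![0, 0, 3]) := by
  decide +kernel

/-- TARGET 2: classification of the column sums of the corner matrix -/
theorem classify {ι : Type*} [Fintype ι] (N : ℕ) (θ : Fin 3 → ℝ) (hpos : ∀ k, 0 < θ k)
    (hsum : θ 0 + θ 1 + θ 2 = Real.pi) (hirr : ¬ ∀ k, ∃ q : ℚ, θ k = q * Real.pi)
    (κ : Fin 3 → Fin 3 → ℕ) (hκ : ∑ j, ∑ k, (κ j k : ℝ) * θ k = Real.pi)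
    (hκpos : ∀ j, ∃ k, 0 < κ j k)
    (n : ι → Fin 3 → ℕ) (c : ι → ℕ) (hc : ∀ v, c v = 1 ∨ c v = 2)
    (hn : ∀ v, ∑ k, (n v k : ℝ) * θ k = c v * Real.pi)
    (htot : ∀ k, ∑ v, n v k + ∑ j, κ j k = N) :
    ∃ σ : Equiv.Perm (Fin 3), ∃ P : Fin 3 → ℕ, (∀ k, ∑ j, κ j (σ k) = P k) ∧
      (P = ![1, 1, 1] ∨ P = ![2, 0, 1] ∨ P = ![3, 0, 1] ∨ P = ![2, 2, 0] ∨ P = ![3, 2, 0] ∨
        P = ![3, 3, 0] ∨ P = ![0, 0, 3]) := by
  have hpi : 0 < Real.pi := Real.pi_pos
  set Q : Fin 3 → ℕ := fun k => ∑ j, κ j k with hQ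
  set d : Fin 3 → ℤ := fun k => (Q k : ℤ) - 1 with hddef
  have hQθ : ∑ k, (Q k : ℝ) * θ k = Real.pi := by
    rw [← hκ, Finset.sum_comm]
    refine Finset.sum_congr rfl fun k _ => ?_
    simp only [hQ]; push_cast
    rw [Finset.sum_mul]
  have hθsum : ∑ k, θ k = Real.pi := by rw [Fin.sum_univ_three]; exact hsum
  have hd : ∑ k, (d k : ℝ) * θ k = 0 := by
    have : ∑ k, (d k : ℝ) * θ k = ∑ k, (Q k : ℝ) * θ k - ∑ k, θ k := by
      rw [← Finset.sum_sub_distrib]
      refine Finset.sum_congr rfl fun k _ => ?_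
      simp only [hddef]; push_cast; ring
    rw [this, hQθ, hθsum, sub_self]
  have hQsum : 3 ≤ Q 0 + Q 1 + Q 2 := by
    have h1 : ∀ j, 1 ≤ ∑ k, κ j k := by
      intro j
      obtain ⟨k, hk⟩ := hκpos j
      exact le_trans hk (Finset.single_le_sum (f := fun k => κ j k) (fun _ _ => Nat.zero_le _) (Finset.mem_univ k))
    have h2 : ∑ k, Q k = ∑ j, ∑ k, κ j k := by
      simp only [hQ]; exact Finset.sum_comm
    have h3 : ∑ k, Q k = Q 0 + Q 1 + Q 2 := Fin.sum_univ_three _
    rw [← h3, h2, Fin.sum_univ_three]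
    have := h1 0; have := h1 1; have := h1 2
    omega
  by_cases hdz : ∀ k, d k = 0
  · refine ⟨1, ![1, 1, 1], ?_, Or.inl rfl⟩
    intro k
    have h := hdz k
    simp only [hddef] at h
    have hk : Q k = 1 := by omega
    fin_cases k <;> simpa [hQ] using hk
  · -- some d k0 < 0
    have hneg : ∃ k0, d k0 < 0 := by
      by_contra hcon
      push Not at hcon
      apply hdz
      have hterm : ∀ k ∈ (Finset.univ : Finset (Fin 3)), 0 ≤ (d k : ℝ) * θ k := by
        intro k _
        exact mul_nonneg (by exact_mod_cast hcon k) (hpos k).le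
      have hz := (Finset.sum_eq_zero_iff_of_nonneg hterm).mp hd
      intro k
      have h := hz k (Finset.mem_univ k)
      rcases mul_eq_zero.mp h with h | h
      · exact_mod_cast h
      · exact absurd h (hpos k).ne'
    obtain ⟨k0, hk0⟩ := hneg
    have hdk0 : d k0 = -1 := by
      have : -1 ≤ d k0 := by simp only [hddef]; omega
      omega
    -- vertices relations
    set w : ι → Fin 3 → ℤ := fun v k => (n v k : ℤ) - c v with hwdef
    have hw : ∀ v, ∑ k, (w v k : ℝ) * θ k = 0 := by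
      intro v
      have : ∑ k, (w v k : ℝ) * θ k = ∑ k, (n v k : ℝ) * θ k - c v * ∑ k, θ k := by
        rw [Finset.mul_sum, ← Finset.sum_sub_distrib]
        refine Finset.sum_congr rfl fun k _ => ?_
        simp only [hwdef]; push_cast; ring
      rw [this, hn, hθsum, sub_self]
    have hprop : ∀ v k, w v k = - w v k0 * d k := fun v =>
      rel_prop θ hsum hirr d (w v) hd (hw v) k0 hdk0
    -- total count
    have hN : (N : ℝ) = (∑ v, (c v : ℝ)) + 1 := by
      have h1 : ∀ k, (∑ v, (n v k : ℝ)) + (Q k : ℝ) = N := by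
        intro k
        have := htot k
        simp only [hQ]
        rw [← this]; push_cast; ring
      have h2 : (N : ℝ) * Real.pi = (∑ v, (c v : ℝ)) * Real.pi + Real.pi := by
        calc (N : ℝ) * Real.pi = ∑ k, (N : ℝ) * θ k := by rw [← Finset.mul_sum, hθsum]
          _ = ∑ k, ((∑ v, (n v k : ℝ)) * θ k + (Q k : ℝ) * θ k) := by
              refine Finset.sum_congr rfl fun k _ => ?_
              rw [← h1 k]; ring
          _ = ∑ k, ∑ v, (n v k : ℝ) * θ k + ∑ k, (Q k : ℝ) * θ k := by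
              rw [Finset.sum_add_distrib]
              congr 1
              refine Finset.sum_congr rfl fun k _ => ?_
              rw [Finset.sum_mul]
          _ = ∑ v, ∑ k, (n v k : ℝ) * θ k + Real.pi := by rw [Finset.sum_comm, hQθ]
          _ = (∑ v, (c v : ℝ)) * Real.pi + Real.pi := by
              rw [Finset.sum_mul]
              congr 1
              exact Finset.sum_congr rfl fun v _ => hn v
      have h3 : ((N : ℝ) - ((∑ v, (c v : ℝ)) + 1)) * Real.pi = 0 := by linarith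
      rcases mul_eq_zero.mp h3 with h | h
      · linarith
      · exact absurd h hpi.ne'
    have hNZ : (N : ℤ) = (∑ v, (c v : ℤ)) + 1 := by
      have : ((N : ℤ) : ℝ) = (((∑ v, (c v : ℤ)) + 1 : ℤ) : ℝ) := by push_cast; exact hN
      exact_mod_cast this
    have hsw : ∑ v, w v k0 = 1 := by
      have h1 : ∑ v, w v k0 = ∑ v, (n v k0 : ℤ) - ∑ v, (c v : ℤ) := by
        rw [← Finset.sum_sub_distrib]
      have h2 : (∑ v, (n v k0 : ℤ)) + (Q k0 : ℤ) = N := by
        have := htot k0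
        rw [← this]; simp only [hQ]; push_cast; ring
      have h3 : (Q k0 : ℤ) - 1 = -1 := hdk0
      rw [h1]; linarith
    have hexv : ∃ v, 1 ≤ w v k0 := by
      by_contra hcon
      push Not at hcon
      have : ∑ v, w v k0 ≤ 0 := Finset.sum_nonpos fun v _ => by have := hcon v; omega
      omega
    obtain ⟨v, hv⟩ := hexv
    have hle : ∀ k, d k ≤ 2 := by
      intro k
      by_contra hcon
      push Not at hcon
      have h1 := hprop v k
      have h2 : w v k = (n v k : ℤ) - c v := rfl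
      have h3 : (0 : ℤ) ≤ n v k := Int.natCast_nonneg _
      have h4 : (c v : ℤ) ≤ 2 := by rcases hc v with h | h <;> rw [h] <;> norm_num
      nlinarith
    have hQ4 : ∀ k, Q k < 4 := by
      intro k
      have := hle k
      simp only [hddef] at this
      omega
    have hQ0 : Q k0 = 0 := by
      have h := hdk0
      simp only [hddef] at h
      omega
    obtain ⟨σ, hσ⟩ := fin_check (fun k => ⟨Q k, hQ4 k⟩) ⟨k0, by simp [hQ0]⟩ (by simpa using hQsum)
    refine ⟨σ, ![Q (σ 0), Q (σ 1), Q (σ 2)], ?_, Or.inr ?_⟩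
    · intro k
      fin_cases k <;> rfl
    · simpa using hσ

end Pool.Agent.Helper549.Tri.Classify
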