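import Mathlib
import Pool.Agent.Helper549.Tri.Defs
import Pool.Agent.Helper549.Tri.Basic
import Pool.Agent.Helper549.Tri.Angles
import Pool.Agent.Helper549.Tri.AngleSum
set_option autoImplicit false
noncomputable section
open scoped BigOperators
open MeasureTheory

namespace Pool.Agent.Helper549.Tri.Vertex
open Pool.Agent.Helper549.Tri.Basic Pool.Agent.Helper549.Tri.Angles Pool.Agent.Helper549.Tri.AngleSum

theorem q_e12 : ∀ j : Fin 3, j + 1 + 2 = j := by decide

theorem q_e21 : ∀ j : Fin 3, j + 2 + 1 = j := by decide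

theorem q_e11 : ∀ j : Fin 3, j + 1 + 1 = j + 2 := by decide

theorem q_e22 : ∀ j : Fin 3, j + 2 + 2 = j + 1 := by decide

theorem q_ne : ∀ k : Fin 3, k + 1 ≠ k + 2 := by decide

open Classical in
/-- vertex part of the angle -/
def q_V (v : Fin 3 → ℂ) (p : ℂ) : ℝ := ∑ k : Fin 3, if p = v k then ang v k else 0

open Classical in
/-- number of straight angles at the point -/
def q_E (v : Fin 3 → ℂ) (p : ℂ) : ℕ :=
  (∑ k : Fin 3, if onSide v k p then 1 else 0) + (if p ∈ interior (hull v) then 2 else 0)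

theorem q_angAt (v : Fin 3 → ℂ) (p : ℂ) : angAt v p = q_V v p + (q_E v p : ℝ) * Real.pi := by
  classical
  unfold angAt q_V q_E
  push_cast
  rw [add_mul, Finset.sum_mul]
  have h1 : (∑ k : Fin 3, if onSide v k p then Real.pi else 0) =
      ∑ k : Fin 3, (if onSide v k p then (1 : ℝ) else 0) * Real.pi := by
    refine Finset.sum_congr rfl (fun k _ => ?_)
    split_ifs <;> simp
  have h2 : (if p ∈ interior (hull v) then 2 * Real.pi else 0) =
      (if p ∈ interior (hull v) then (2 : ℝ) else 0) * Real.pi := by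
    split_ifs <;> simp
  rw [h1, h2, add_assoc]

theorem q_Vsum {N : ℕ} (t : Fin N → Fin 3 → ℂ) (τ : Fin N → Equiv.Perm (Fin 3)) (θ : Fin 3 → ℝ)
    (hang : ∀ i m, ang (t i) m = θ (τ i m)) (p : ℂ) :
    ∑ i, q_V (t i) p = ∑ k, (cnt t τ p k : ℝ) * θ k := by
  classical
  unfold q_V cnt
  have hR : ∀ k : Fin 3, ((∑ i : Fin N, ∑ m : Fin 3,
      (if t i m = p ∧ τ i m = k then 1 else 0) : ℕ) : ℝ) * θ k =
      ∑ i : Fin N, ∑ m : Fin 3, (if t i m = p ∧ τ i m = k then (1 : ℝ) else 0) * θ k := by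
    intro k
    push_cast
    simp_rw [Finset.sum_mul]
  rw [Finset.sum_congr rfl (fun k _ => hR k)]
  conv_rhs => rw [Finset.sum_comm]
  refine Finset.sum_congr rfl (fun i _ => ?_)
  conv_rhs => rw [Finset.sum_comm]
  refine Finset.sum_congr rfl (fun m _ => ?_)
  rw [hang]
  by_cases h : p = t i m
  · rw [if_pos h]
    rw [Finset.sum_eq_single (τ i m)]
    · rw [if_pos ⟨h.symm, rfl⟩, one_mul]
    · intro b _ hb
      rw [if_neg (fun hc => hb hc.2.symm), zero_mul]
    · intro hc
      exact absurd (Finset.mem_univ _) hc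
  · rw [if_neg h]
    symm
    refine Finset.sum_eq_zero (fun k _ => ?_)
    rw [if_neg (fun hc => h hc.1.symm), zero_mul]

theorem q_sub {N : ℕ} {T : Fin 3 → ℂ} {t : Fin N → Fin 3 → ℂ} (h : Dis N T t) (i : Fin N) :
    hull (t i) ⊆ hull T := by
  rw [← h.cover]
  exact Set.subset_iUnion (fun i => hull (t i)) i

theorem q_vertex_mem (v : Fin 3 → ℂ) (k : Fin 3) : v k ∈ hull v :=
  subset_convexHull ℝ _ (Set.mem_range_self k)

theorem q_lam_aff (v : Fin 3 → ℂ) (k : Fin 3) (a b : ℂ) (x y : ℝ) (hxy : x + y = 1) :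
    lam v k (x • a + y • b) = x * lam v k a + y * lam v k b := by
  unfold lam cr
  simp only [Complex.sub_re, Complex.sub_im, Complex.add_re, Complex.add_im, Complex.real_smul,
    Complex.mul_re, Complex.mul_im, Complex.ofReal_re, Complex.ofReal_im]
  have hy : y = 1 - x := by linarith
  subst hy
  ring

theorem q_lam1 (T : Fin 3 → ℂ) (j : Fin 3) : lam T (j + 1) (T j) = 0 := by
  have h := lam_prev T (j + 1)
  have e : j + 1 + 2 = j := q_e12 j
  rwa [e] at h

theorem q_lam2 (T : Fin 3 → ℂ) (j : Fin 3) : lam T (j + 2) (T j) = 0 := by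
  have h := lam_next T (j + 2)
  have e : j + 2 + 1 = j := q_e21 j
  rwa [e] at h

theorem q_fin3 (j k : Fin 3) : k = j ∨ k = j + 1 ∨ k = j + 2 := by
  revert j k
  decide

theorem q_notSide (T : Fin 3 → ℂ) (hT : 0 < dd T) (j : Fin 3) (p : ℂ)
    (h1 : lam T (j + 1) p = 0) (h2 : lam T (j + 2) p = 0) (k : Fin 3) : ¬ onSide T k p := by
  intro hs
  rw [onSide_iff T hT] at hs
  obtain ⟨_, h4, h5⟩ := hs
  rcases q_fin3 j k with rfl | rfl | rfl
  · rw [h1] at h4
    exact lt_irrefl _ h4
  · have e : j + 1 + 1 = j + 2 := q_e11 j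
    rw [e, h2] at h4
    exact lt_irrefl _ h4
  · have e : j + 2 + 2 = j + 1 := q_e22 j
    rw [e, h1] at h5
    exact lt_irrefl _ h5

theorem q_notInt (T : Fin 3 → ℂ) (hT : 0 < dd T) (j : Fin 3) (p : ℂ)
    (h1 : lam T (j + 1) p = 0) : p ∉ interior (hull T) := by
  intro hs
  rw [mem_int T hT] at hs
  have := hs (j + 1)
  rw [h1] at this
  exact lt_irrefl _ this

theorem q_unique (T : Fin 3 → ℂ) (hT : 0 < dd T) (j : Fin 3) (p : ℂ) (hp : p ∈ hull T)
    (h1 : lam T (j + 1) p = 0) (h2 : lam T (j + 2) p = 0) : p = T j := by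
  rcases vertex_cases T hT p hp with h | ⟨k, h⟩ | ⟨k, h⟩
  · exact absurd h (q_notInt T hT j p h1)
  · exact absurd h (q_notSide T hT j p h1 h2 k)
  · rcases q_fin3 j k with rfl | rfl | rfl
    · exact h
    · rw [h, lam_self] at h1
      exact absurd h1 hT.ne'
    · rw [h, lam_self] at h2
      exact absurd h2 hT.ne'

theorem q_angT (T : Fin 3 → ℂ) (hT : 0 < dd T) (j : Fin 3) : angAt T (T j) = ang T j := by
  classical
  rw [q_angAt]
  have h1 : q_V T (T j) = ang T j := by
    unfold q_V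
    rw [Finset.sum_eq_single j]
    · rw [if_pos rfl]
    · intro b _ hb
      rw [if_neg (fun hc => hb (vertex_inj T hT hc).symm)]
    · intro hc
      exact absurd (Finset.mem_univ _) hc
  have h2 : q_E T (T j) = 0 := by
    unfold q_E
    rw [if_neg (q_notInt T hT j (T j) (q_lam1 T j)), add_zero]
    refine Finset.sum_eq_zero (fun k _ => ?_)
    rw [if_neg (q_notSide T hT j (T j) (q_lam1 T j) (q_lam2 T j) k)]
  rw [h1, h2]
  simp

theorem q_Etile {N : ℕ} {T : Fin 3 → ℂ} {t : Fin N → Fin 3 → ℂ} (h : Dis N T t)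
    (i : Fin N) (j : Fin 3) : q_E (t i) (T j) = 0 := by
  classical
  unfold q_E
  have h0 : T j ∉ interior (hull (t i)) := by
    intro hc
    exact q_notInt T h.ccwT j (T j) (q_lam1 T j) (interior_mono (q_sub h i) hc)
  rw [if_neg h0, add_zero]
  refine Finset.sum_eq_zero (fun k _ => ?_)
  rw [if_neg]
  intro hs
  obtain ⟨x, y, hx, hy, hxy, he⟩ := hs
  have ha : t i (k + 1) ∈ hull T := q_sub h i (q_vertex_mem _ _)
  have hb : t i (k + 2) ∈ hull T := q_sub h i (q_vertex_mem _ _)
  have hzero : ∀ l, lam T l (T j) = 0 → lam T l (t i (k + 1)) = 0 ∧ lam T l (t i (k + 2)) = 0 := by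
    intro l hl
    rw [← he, q_lam_aff T l _ _ x y hxy] at hl
    have h1 : 0 ≤ lam T l (t i (k + 1)) := (mem_hull T h.ccwT _).1 ha l
    have h2 : 0 ≤ lam T l (t i (k + 2)) := (mem_hull T h.ccwT _).1 hb l
    constructor
    · by_contra hne
      have h3 : 0 < lam T l (t i (k + 1)) := lt_of_le_of_ne h1 (Ne.symm hne)
      have h4 := mul_pos hx h3
      have h5 := mul_nonneg hy.le h2
      linarith
    · by_contra hne
      have h3 : 0 < lam T l (t i (k + 2)) := lt_of_le_of_ne h2 (Ne.symm hne)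
      have h4 := mul_pos hy h3
      have h5 := mul_nonneg hx.le h1
      linarith
  have h1 := hzero (j + 1) (q_lam1 T j)
  have h2 := hzero (j + 2) (q_lam2 T j)
  have ea := q_unique T h.ccwT j _ ha h1.1 h2.1
  have eb := q_unique T h.ccwT j _ hb h1.2 h2.2
  have hne : k + 1 ≠ k + 2 := q_ne k
  exact hne (vertex_inj (t i) (h.ccwt i) (ea.trans eb.symm))

/-- TARGET: corners of T -/
theorem corner_angles {N : ℕ} {T : Fin 3 → ℂ} {t : Fin N → Fin 3 → ℂ} (h : Dis N T t)
    (τ : Fin N → Equiv.Perm (Fin 3)) (θ : Fin 3 → ℝ) (hang : ∀ i m, ang (t i) m = θ (τ i m))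
    (j : Fin 3) : ∑ k, (cnt t τ (T j) k : ℝ) * θ k = ang T j := by
  rw [← q_Vsum t τ θ hang, ← q_angT T h.ccwT j, ← angle_sum h (T j)]
  refine Finset.sum_congr rfl (fun i _ => ?_)
  rw [q_angAt, q_Etile h i j]
  simp

/-- TARGET: other vertices -/
theorem vertex_angles {N : ℕ} {T : Fin 3 → ℂ} {t : Fin N → Fin 3 → ℂ} (h : Dis N T t)
    (τ : Fin N → Equiv.Perm (Fin 3)) (θ : Fin 3 → ℝ) (hang : ∀ i m, ang (t i) m = θ (τ i m))
    (i : Fin N) (m : Fin 3) (hT : ∀ j, t i m ≠ T j) :
    ∃ c : ℕ, (c = 1 ∨ c = 2) ∧ ∑ k, (cnt t τ (t i m) k : ℝ) * θ k = c * Real.pi := by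
  classical
  have hmem : t i m ∈ hull T := q_sub h i (q_vertex_mem _ _)
  -- the angle of T at the point
  have hbig : ∃ c : ℕ, c ≤ 2 ∧ angAt T (t i m) = c * Real.pi := by
    have hV : q_V T (t i m) = 0 := by
      unfold q_V
      refine Finset.sum_eq_zero (fun k _ => ?_)
      rw [if_neg (hT k)]
    refine ⟨q_E T (t i m), ?_, by rw [q_angAt, hV, zero_add]⟩
    unfold q_E
    rcases vertex_cases T h.ccwT _ hmem with h1 | ⟨k, h1⟩ | ⟨k, h1⟩
    · rw [if_pos h1]
      have : (∑ k : Fin 3, if onSide T k (t i m) then 1 else 0) = 0 := by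
        refine Finset.sum_eq_zero (fun k _ => ?_)
        rw [if_neg]
        intro hs
        rw [onSide_iff T h.ccwT] at hs
        rw [mem_int T h.ccwT] at h1
        have := h1 k
        rw [hs.1] at this
        exact lt_irrefl _ this
      rw [this]
    · have hint : t i m ∉ interior (hull T) := by
        intro hc
        rw [onSide_iff T h.ccwT] at h1
        rw [mem_int T h.ccwT] at hc
        have := hc k
        rw [h1.1] at this
        exact lt_irrefl _ this
      rw [if_neg hint, add_zero]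
      rw [Finset.sum_eq_single k]
      · rw [if_pos h1]
        norm_num
      · intro b _ hb
        rw [if_neg]
        intro hs
        rw [onSide_iff T h.ccwT] at hs h1
        rcases q_fin3 k b with rfl | rfl | rfl
        · exact hb rfl
        · rw [hs.1] at h1
          exact lt_irrefl _ h1.2.1
        · rw [hs.1] at h1
          exact lt_irrefl _ h1.2.2
      · intro hc
        exact absurd (Finset.mem_univ _) hc
    · exact absurd h1 (hT k)
  obtain ⟨c, hc, hcT⟩ := hbig
  have hsum : ∑ k, (cnt t τ (t i m) k : ℝ) * θ k +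
      ((∑ i', q_E (t i') (t i m) : ℕ) : ℝ) * Real.pi = c * Real.pi := by
    rw [← q_Vsum t τ θ hang, ← hcT, ← angle_sum h (t i m)]
    push_cast
    rw [Finset.sum_mul, ← Finset.sum_add_distrib]
    refine Finset.sum_congr rfl (fun i' _ => ?_)
    rw [q_angAt]
  set e : ℕ := ∑ i', q_E (t i') (t i m) with he
  have hpos : 0 < ∑ k, (cnt t τ (t i m) k : ℝ) * θ k := by
    rw [← q_Vsum t τ θ hang]
    have hnn : ∀ i' ∈ (Finset.univ : Finset (Fin N)), 0 ≤ q_V (t i') (t i m) := by
      intro i' _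
      unfold q_V
      refine Finset.sum_nonneg (fun k _ => ?_)
      split_ifs
      · exact (ang_pos _ (h.ccwt i') k).le
      · exact le_refl _
    have h1 : q_V (t i) (t i m) ≤ ∑ i', q_V (t i') (t i m) :=
      Finset.single_le_sum hnn (Finset.mem_univ i)
    have h2 : ang (t i) m ≤ q_V (t i) (t i m) := by
      unfold q_V
      have h3 : ∀ k ∈ (Finset.univ : Finset (Fin 3)),
          0 ≤ (if t i m = t i k then ang (t i) k else 0) := by
        intro k _
        split_ifs
        · exact (ang_pos _ (h.ccwt i) k).le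
        · exact le_refl _
      have h4 := Finset.single_le_sum h3 (Finset.mem_univ m)
      rw [if_pos rfl] at h4
      exact h4
    have h5 := ang_pos _ (h.ccwt i) m
    linarith
  have hpi := Real.pi_pos
  have hlt : e < c := by
    by_contra hcon
    have h1 : c ≤ e := not_lt.1 hcon
    have h2 : (c : ℝ) ≤ e := by exact_mod_cast h1
    nlinarith
  refine ⟨c - e, ?_, ?_⟩
  · omega
  · rw [Nat.cast_sub hlt.le]
    linarith

/-- TARGET: total count -/
theorem cnt_total {N : ℕ} (t : Fin N → Fin 3 → ℂ)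
    (τ : Fin N → Equiv.Perm (Fin 3)) (k : Fin 3) :
    open Classical in
    ∑ p ∈ (Finset.univ.image (fun x : Fin N × Fin 3 => t x.1 x.2)), cnt t τ p k = N := by
  classical
  unfold cnt
  rw [Finset.sum_comm]
  have h1 : ∀ i ∈ (Finset.univ : Finset (Fin N)),
      (∑ p ∈ (Finset.univ.image (fun x : Fin N × Fin 3 => t x.1 x.2)),
        ∑ m : Fin 3, if t i m = p ∧ τ i m = k then 1 else 0) = 1 := by
    intro i _
    rw [Finset.sum_comm]
    have h2 : ∀ m ∈ (Finset.univ : Finset (Fin 3)),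
        (∑ p ∈ (Finset.univ.image (fun x : Fin N × Fin 3 => t x.1 x.2)),
          if t i m = p ∧ τ i m = k then 1 else 0) = if m = (τ i).symm k then 1 else 0 := by
      intro m _
      have hm : t i m ∈ (Finset.univ.image (fun x : Fin N × Fin 3 => t x.1 x.2)) :=
        Finset.mem_image.2 ⟨(i, m), Finset.mem_univ _, rfl⟩
      by_cases hk : τ i m = k
      · rw [if_pos ((τ i).eq_symm_apply.2 hk)]
        rw [Finset.sum_eq_single (t i m)]
        · rw [if_pos ⟨rfl, hk⟩]
        · intro b _ hb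
          rw [if_neg (fun hc => hb hc.1.symm)]
        · intro hc
          exact absurd hm hc
      · rw [if_neg (fun hc => hk ((τ i).eq_symm_apply.1 hc))]
        refine Finset.sum_eq_zero (fun p _ => ?_)
        rw [if_neg (fun hc => hk hc.2)]
    rw [Finset.sum_congr rfl h2]
    simp
  rw [Finset.sum_congr rfl h1]
  simp

end Pool.Agent.Helper549.Tri.Vertex
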