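import Mathlib
import Pool.Agent.Helper549.Tri.Defs
import Pool.Agent.Helper549.Tri.Basic
import Pool.Agent.Helper549.Tri.Angles
import Pool.Agent.Helper549.Tri.Classify
import Pool.Agent.Helper549.Tri.Vertex
set_option autoImplicit false
noncomputable section
open scoped BigOperators
open MeasureTheory

namespace Pool.Agent.Helper549.Tri.ClassDis
open Pool.Agent.Helper549.Tri.Basic Pool.Agent.Helper549.Tri.Angles Pool.Agent.Helper549.Tri.Classify Pool.Agent.Helper549.Tri.Vertex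

theorem cnt_pos_exists {N : ℕ} {t : Fin N → Fin 3 → ℂ} {τ : Fin N → Equiv.Perm (Fin 3)} {p : ℂ} {k : Fin 3}
    (h : 0 < cnt t τ p k) : ∃ i m, t i m = p := by
  classical
  by_contra hcon
  push Not at hcon
  have : cnt t τ p k = 0 := by
    unfold cnt
    apply Finset.sum_eq_zero
    intro i _
    apply Finset.sum_eq_zero
    intro m _
    rw [if_neg (fun h => hcon i m h.1)]
  omega

/-- TARGET -/
theorem class_of_dis {N : ℕ} (hN : 0 < N) {T : Fin 3 → ℂ} {t : Fin N → Fin 3 → ℂ} (h : Dis N T t)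
    (τ : Fin N → Equiv.Perm (Fin 3)) (θ : Fin 3 → ℝ)
    (hang : ∀ i m, ang (t i) m = θ (τ i m)) (hirr : ¬ ∀ k, ∃ q : ℚ, θ k = q * Real.pi) :
    ∃ σ : Equiv.Perm (Fin 3), ∃ P : Fin 3 → ℕ, (∀ k, ∑ j, cnt t τ (T j) (σ k) = P k) ∧
      (P = ![1, 1, 1] ∨ P = ![2, 0, 1] ∨ P = ![3, 0, 1] ∨ P = ![2, 2, 0] ∨ P = ![3, 2, 0] ∨
        P = ![3, 3, 0] ∨ P = ![0, 0, 3]) := by
  classical
  let i0 : Fin N := ⟨0, hN⟩
  have hpos : ∀ k, 0 < θ k := by
    intro k
    have h1 := ang_pos (t i0) (h.ccwt i0) ((τ i0).symm k)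
    rw [hang, Equiv.apply_symm_apply] at h1
    exact h1
  have hsum : θ 0 + θ 1 + θ 2 = Real.pi := by
    have h1 := ang_sum (t i0) (h.ccwt i0)
    have h2 : ∑ m, θ (τ i0 m) = ∑ k, θ k := Equiv.sum_comp (τ i0) θ
    rw [Fin.sum_univ_three, Fin.sum_univ_three] at h2
    rw [← h2, ← hang, ← hang, ← hang]
    exact h1
  have hcor := fun j => corner_angles h τ θ hang j
  have hκ : ∑ j, ∑ k, (cnt t τ (T j) k : ℝ) * θ k = Real.pi := by
    rw [Finset.sum_congr rfl (fun j _ => hcor j), Fin.sum_univ_three]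
    exact ang_sum T h.ccwT
  have hκpos : ∀ j, ∃ k, 0 < cnt t τ (T j) k := by
    intro j
    by_contra hcon
    push Not at hcon
    have h1 := hcor j
    have h2 : ∑ k, (cnt t τ (T j) k : ℝ) * θ k = 0 := by
      apply Finset.sum_eq_zero
      intro k _
      have : cnt t τ (T j) k = 0 := by have := hcon k; omega
      rw [this]; simp
    have h3 := ang_pos T h.ccwT j
    rw [h2] at h1
    linarith
  set V : Finset ℂ := Finset.univ.image (fun x : Fin N × Fin 3 => t x.1 x.2) with hV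
  have hTV : ∀ j, T j ∈ V := by
    intro j
    obtain ⟨k, hk⟩ := hκpos j
    obtain ⟨i, m, him⟩ := cnt_pos_exists hk
    rw [hV, Finset.mem_image]
    exact ⟨(i, m), Finset.mem_univ _, him⟩
  set F : Finset ℂ := V.filter (fun p => ∀ j, p ≠ T j) with hF
  have hc : ∀ v : {p // p ∈ F}, ∃ c : ℕ, (c = 1 ∨ c = 2) ∧ ∑ k, (cnt t τ (v : ℂ) k : ℝ) * θ k = c * Real.pi := by
    rintro ⟨p, hp⟩
    rw [hF, Finset.mem_filter, hV, Finset.mem_image] at hp
    obtain ⟨⟨⟨i, m⟩, _, him⟩, hpT⟩ := hp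
    simp only at him
    subst him
    exact vertex_angles h τ θ hang i m hpT
  choose c hc1 hc2 using hc
  have htot : ∀ k, ∑ v : {p // p ∈ F}, cnt t τ (v : ℂ) k + ∑ j, cnt t τ (T j) k = N := by
    intro k
    have h1 := cnt_total t τ k
    have h1' : ∑ p ∈ V, cnt t τ p k = N := by
      rw [hV]
      convert h1
    rw [← Finset.sum_filter_add_sum_filter_not V (fun p => ∀ j, p ≠ T j)] at h1'
    have h2 : V.filter (fun p => ¬ ∀ j, p ≠ T j) = Finset.univ.image T := by
      ext p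
      simp only [Finset.mem_filter, Finset.mem_image, Finset.mem_univ, true_and]
      constructor
      · rintro ⟨_, h3⟩
        push Not at h3
        obtain ⟨j, hj⟩ := h3
        exact ⟨j, hj.symm⟩
      · rintro ⟨j, rfl⟩
        exact ⟨hTV j, fun h3 => h3 j rfl⟩
    rw [h2, Finset.sum_image (fun a _ b _ hab => vertex_inj T h.ccwT hab)] at h1'
    refine Eq.trans ?_ h1'
    congr 1
    rw [Finset.sum_coe_sort F (fun p => cnt t τ p k)]
  exact classify N θ hpos hsum hirr (fun j k => cnt t τ (T j) k) hκ hκpos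
    (fun (v : {p // p ∈ F}) k => cnt t τ (v : ℂ) k) c hc1 hc2 htot

end Pool.Agent.Helper549.Tri.ClassDis
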