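import Mathlib
import Pool.Agent.Helper549.Tri.Defs
import Pool.Agent.Helper549.Tri.Basic
import Pool.Agent.Helper549.Tri.Angles
import Pool.Agent.Helper549.Tri.AngleSum
import Pool.Agent.Helper549.Tri.Opp
set_option autoImplicit false
noncomputable section
open scoped BigOperators
open MeasureTheory
open Filter Topology

namespace Pool.Agent.Helper549.Tri.Corner
open Pool.Agent.Helper549.Tri.Basic Pool.Agent.Helper549.Tri.Angles Pool.Agent.Helper549.Tri.AngleSum Pool.Agent.Helper549.Tri.Opp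

section jobhelpers

theorem h_cr_sd (v : Fin 3 → ℂ) (k : Fin 3) : cr (sd v k) (sd v (k + 1)) = dd v := by
  match k with
  | 0 =>
    show cr (v 2 - v 1) (v 0 - v 2) = cr (v 1 - v 0) (v 2 - v 0)
    unfold cr; simp only [Complex.sub_re, Complex.sub_im]; ring
  | 1 =>
    show cr (v 0 - v 2) (v 1 - v 0) = cr (v 1 - v 0) (v 2 - v 0)
    unfold cr; simp only [Complex.sub_re, Complex.sub_im]; ring
  | 2 =>
    show cr (v 1 - v 0) (v 2 - v 1) = cr (v 1 - v 0) (v 2 - v 0)
    unfold cr; simp only [Complex.sub_re, Complex.sub_im]; ring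

theorem h_dir_ne (v : Fin 3 → ℂ) (hv : 0 < dd v) (k : Fin 3) : dir v k ≠ dir v (k + 1) := by
  intro h
  have h1 := h_cr_sd v k
  rw [sd_eq v hv k, sd_eq v hv (k + 1), ← h] at h1
  have h2 : cr ((len v k : ℂ) * dir v k) ((len v (k + 1) : ℂ) * dir v k) = 0 := by
    unfold cr
    simp only [Complex.mul_re, Complex.mul_im, Complex.ofReal_re, Complex.ofReal_im]
    ring
  rw [h2] at h1
  linarith

theorem h_dir_inj (v : Fin 3 → ℂ) (hv : 0 < dd v) : Function.Injective (dir v) := by
  have h0 := h_dir_ne v hv 0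
  have h1 := h_dir_ne v hv 1
  have h2 := h_dir_ne v hv 2
  have e1 : (0 : Fin 3) + 1 = 1 := rfl
  have e2 : (1 : Fin 3) + 1 = 2 := rfl
  have e3 : (2 : Fin 3) + 1 = 0 := rfl
  rw [e1] at h0
  rw [e2] at h1
  rw [e3] at h2
  intro a b hab
  fin_cases a <;> fin_cases b
  · rfl
  · exact absurd hab h0
  · exact absurd hab h2.symm
  · exact absurd hab h0.symm
  · rfl
  · exact absurd hab h1
  · exact absurd hab h2
  · exact absurd hab h1.symm
  · rfl

theorem h_lam_cont (v : Fin 3 → ℂ) (k : Fin 3) : Continuous (lam v k) := by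
  unfold lam cr
  fun_prop

theorem h_lam_add (v : Fin 3 → ℂ) (k : Fin 3) (p w : ℂ) (s : ℝ) :
    lam v k (p + s * w) = lam v k p + s * cr (sd v k) w := by
  unfold lam cr
  simp only [Complex.sub_re, Complex.sub_im, Complex.add_re, Complex.add_im, Complex.mul_re, Complex.mul_im,
    Complex.ofReal_re, Complex.ofReal_im]
  ring

theorem h_lam_comb (v : Fin 3 → ℂ) (k : Fin 3) (x y : ℂ) (a b : ℝ) (hab : a + b = 1) :
    lam v k (a • x + b • y) = a * lam v k x + b * lam v k y := by
  have hb : b = 1 - a := by linarith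
  subst hb
  unfold lam cr
  simp only [Complex.sub_re, Complex.sub_im, Complex.add_re, Complex.add_im, Complex.real_smul, Complex.mul_re,
    Complex.mul_im, Complex.ofReal_re, Complex.ofReal_im]
  ring

theorem h_cr_sub (v : Fin 3 → ℂ) (k : Fin 3) (x y : ℂ) : cr (sd v k) (x - y) = lam v k x - lam v k y := by
  unfold lam cr
  simp only [Complex.sub_re, Complex.sub_im]
  ring

theorem h_cr_zero {u v w : ℂ} (h : cr u v ≠ 0) (h1 : cr u w = 0) (h2 : cr v w = 0) : w = 0 := by
  unfold cr at h h1 h2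
  apply Complex.ext
  · apply mul_left_cancel₀ h
    rw [Complex.zero_re, mul_zero]
    linear_combination v.re * h1 - u.re * h2
  · apply mul_left_cancel₀ h
    rw [Complex.zero_im, mul_zero]
    linear_combination v.im * h1 - u.im * h2

theorem h_lev (v : Fin 3 → ℂ) (hv : 0 < dd v) (k : Fin 3) (p : ℂ) (h : lam v k p = 0) :
    lev v k = cr (dir v k) p := by
  rw [lam_eq v hv] at h
  have := len_pos v hv k
  rcases mul_eq_zero.mp h with h1 | h1
  · exact absurd h1 this.ne'
  · linarith

theorem h_ext (T : Fin 3 → ℂ) (hT : 0 < dd T) (j : Fin 3) (x y : ℂ) (hx : x ∈ hull T) (hy : y ∈ hull T)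
    (h : T j ∈ openSegment ℝ x y) : x = y := by
  obtain ⟨a, b, ha, hb, hab, e⟩ := h
  rw [mem_hull T hT] at hx hy
  have z : ∀ k : Fin 3, lam T k (T j) = 0 → lam T k x = 0 ∧ lam T k y = 0 := by
    intro k hk
    rw [← e, h_lam_comb T k x y a b hab] at hk
    have h1 := mul_nonneg ha.le (hx k)
    have h2 := mul_nonneg hb.le (hy k)
    have h3 : a * lam T k x = 0 := by linarith
    have h4 : b * lam T k y = 0 := by linarith
    exact ⟨(mul_eq_zero.mp h3).resolve_left ha.ne', (mul_eq_zero.mp h4).resolve_left hb.ne'⟩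
  have e1 : lam T (j + 1) (T j) = 0 := by
    have := lam_prev T (j + 1)
    rwa [show j + 1 + 2 = j by rw [add_assoc]; exact add_zero j] at this
  have e2 : lam T (j + 2) (T j) = 0 := by
    have := lam_next T (j + 2)
    rwa [show j + 2 + 1 = j by rw [add_assoc]; exact add_zero j] at this
  obtain ⟨x1, y1⟩ := z _ e1
  obtain ⟨x2, y2⟩ := z _ e2
  have hne : cr (sd T (j + 1)) (sd T (j + 2)) ≠ 0 := by
    have := h_cr_sd T (j + 1)
    rw [show j + 1 + 1 = j + 2 by rw [add_assoc]; rfl] at this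
    rw [this]; exact hT.ne'
  have hw := h_cr_zero (w := x - y) hne (by rw [h_cr_sub, x1, y1, sub_zero]) (by rw [h_cr_sub, x2, y2, sub_zero])
  exact sub_eq_zero.mp hw

theorem h_angAt_pos (v : Fin 3 → ℂ) (hv : 0 < dd v) (k : Fin 3) (p : ℂ) (h : onSide v k p) : 0 < angAt v p := by
  classical
  unfold angAt
  have h1 : 0 ≤ ∑ k : Fin 3, (if p = v k then ang v k else 0) := by
    apply Finset.sum_nonneg
    intro i _
    split_ifs
    · exact (ang_pos v hv i).le
    · exact le_rfl
  have h2 : Real.pi ≤ ∑ k : Fin 3, (if onSide v k p then Real.pi else 0) := by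
    have := Finset.single_le_sum (f := fun k : Fin 3 => (if onSide v k p then Real.pi else 0))
      (fun i _ => by
        show 0 ≤ (if onSide v i p then Real.pi else 0)
        split_ifs
        · exact Real.pi_pos.le
        · exact le_rfl) (Finset.mem_univ k)
    simp only [if_pos h] at this
    exact this
  have h3 : (0 : ℝ) ≤ (if p ∈ interior (hull v) then 2 * Real.pi else 0) := by
    split_ifs
    · exact (by positivity)
    · exact le_rfl
  have := Real.pi_pos
  linarith

theorem h_angAt_cases (v : Fin 3 → ℂ) (p : ℂ) (h : 0 < angAt v p) :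
    (∃ m, p = v m) ∨ (∃ l, onSide v l p) ∨ p ∈ interior (hull v) := by
  classical
  by_contra hcon
  push Not at hcon
  obtain ⟨h1, h2, h3⟩ := hcon
  unfold angAt at h
  rw [if_neg h3, Finset.sum_eq_zero (fun k _ => if_neg (h1 k)), Finset.sum_eq_zero (fun k _ => if_neg (h2 k))] at h
  simp at h

theorem h_sub {N : ℕ} {T : Fin 3 → ℂ} {t : Fin N → Fin 3 → ℂ} (h : Dis N T t) (i : Fin N) :
    hull (t i) ⊆ hull T := by
  rw [← h.cover]
  exact Set.subset_iUnion (fun i => hull (t i)) i

theorem h_core {N : ℕ} {T : Fin 3 → ℂ} {t : Fin N → Fin 3 → ℂ} (h : Dis N T t) (j j' k : Fin 3)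
    (hjj : j ≠ j') (hseg : ∀ s : ℝ, 0 < s → s < 1 → onSide T k (T j + s * (T j' - T j))) :
    ∃ i m l, t i m = T j ∧ l ≠ m ∧ onBd T (t i) l k := by
  classical
  obtain ⟨p, hp⟩ : ∃ p : ℝ → ℂ, p = fun s : ℝ => T j + s * (T j' - T j) := ⟨_, rfl⟩
  have hpc : Continuous p := by rw [hp]; fun_prop
  have hp0 : p 0 = T j := by rw [hp]; simp
  have hlim : Tendsto p (𝓝[>] 0) (𝓝 (T j)) := by
    have := hpc.tendsto 0
    rw [hp0] at this
    exact this.mono_left nhdsWithin_le_nhds
  have hseg' : ∀ s : ℝ, 0 < s → s < 1 → onSide T k (p s) := by rw [hp]; exact hseg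
  have hTne : T j' - T j ≠ 0 := sub_ne_zero.mpr (fun e => hjj (vertex_inj T h.ccwT e).symm)
  have hIoo : ∀ᶠ s : ℝ in 𝓝[>] 0, 0 < s ∧ s < 1 := by
    filter_upwards [Ioo_mem_nhdsGT (show (0 : ℝ) < 1 by norm_num)] with s hs using hs
  have hvert : ∀ᶠ s : ℝ in 𝓝[>] 0, ∀ im : Fin N × Fin 3, p s ≠ t im.1 im.2 := by
    rw [eventually_all]
    rintro ⟨i, m⟩
    by_cases e : t i m = T j
    · filter_upwards [hIoo] with s hs
      rw [e, hp]
      intro e2
      have e2 : T j + (s : ℂ) * (T j' - T j) = T j := e2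
      have e3 : (s : ℂ) * (T j' - T j) = 0 := by
        have : T j + (s : ℂ) * (T j' - T j) = T j + 0 := by rw [e2, add_zero]
        exact add_left_cancel this
      rcases mul_eq_zero.mp e3 with e4 | e4
      · have : s = 0 := by exact_mod_cast e4
        linarith [hs.1]
      · exact hTne e4
    · exact hlim.eventually_ne (fun e' => e e'.symm)
  have hside : ∀ s : ℝ, 0 < s → s < 1 → (∃ im : Fin N × Fin 3, p s = t im.1 im.2) ∨
      ∃ il : Fin N × Fin 3, onSide (t il.1) il.2 (p s) := by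
    intro s hs0 hs1
    have hon := hseg' s hs0 hs1
    have hpos := h_angAt_pos T h.ccwT k (p s) hon
    rw [← angle_sum h (p s)] at hpos
    obtain ⟨i, hi⟩ : ∃ i, 0 < angAt (t i) (p s) := by
      by_contra hcon
      push Not at hcon
      have := Finset.sum_nonpos (s := Finset.univ) (fun i _ => hcon i)
      linarith
    rcases h_angAt_cases (t i) (p s) hi with ⟨m, hm⟩ | ⟨l, hl⟩ | hint
    · left; exact ⟨(i, m), hm⟩
    · right; exact ⟨(i, l), hl⟩
    · exfalso
      have h1 := interior_mono (h_sub h i) hint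
      rw [mem_int T h.ccwT] at h1
      have h2 := h1 k
      have h3 := ((onSide_iff T h.ccwT k (p s)).mp hon).1
      linarith
  obtain ⟨⟨i, l⟩, hil⟩ : ∃ il : Fin N × Fin 3, ∃ᶠ s in 𝓝[>] (0 : ℝ), onSide (t il.1) il.2 (p s) := by
    by_contra hcon
    push Not at hcon
    have hall : ∀ᶠ s in 𝓝[>] (0 : ℝ), ∀ il : Fin N × Fin 3, ¬ onSide (t il.1) il.2 (p s) := by
      rw [eventually_all]
      intro il
      exact hcon il
    obtain ⟨s, h1, h2, h3⟩ := (hall.and (hvert.and hIoo)).exists
    rcases hside s h3.1 h3.2 with ⟨im, e⟩ | ⟨il, e⟩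
    · exact h2 im e
    · exact h1 il e
  simp only at hil
  have hccw := h.ccwt i
  -- closedness
  have hl0 : lam (t i) l (T j) = 0 := by
    have hcl : IsClosed {z : ℂ | lam (t i) l z = 0} := isClosed_eq (h_lam_cont _ _) continuous_const
    exact hcl.mem_of_frequently_of_tendsto (hil.mono fun s hs => ((onSide_iff _ hccw _ _).mp hs).1) hlim
  have hge : ∀ m : Fin 3, (∀ z, onSide (t i) l z → 0 ≤ lam (t i) m z) → 0 ≤ lam (t i) m (T j) := by
    intro m hm
    have hcl : IsClosed {z : ℂ | 0 ≤ lam (t i) m z} := isClosed_le continuous_const (h_lam_cont _ _)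
    exact hcl.mem_of_frequently_of_tendsto (hil.mono fun s hs => hm _ hs) hlim
  have hmem : T j ∈ hull (t i) := by
    rw [mem_hull _ hccw]
    intro m
    apply hge
    intro z hz
    have h1 : z ∈ hull (t i) := by
      have h2 : z ∈ segment ℝ (t i (l + 1)) (t i (l + 2)) := openSegment_subset_segment ℝ _ _ hz
      have h3 : Convex ℝ (hull (t i)) := convex_convexHull ℝ _
      exact h3.segment_subset (subset_convexHull ℝ _ (Set.mem_range_self _))
        (subset_convexHull ℝ _ (Set.mem_range_self _)) h2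
    exact (mem_hull _ hccw z).mp h1 m
  have hver : ∃ m, T j = t i m := by
    rcases vertex_cases (t i) hccw (T j) hmem with h1 | ⟨k', h1⟩ | h1
    · rw [mem_int _ hccw] at h1
      have := h1 l
      linarith
    · exfalso
      have hx : t i (k' + 1) ∈ hull T := h_sub h i (subset_convexHull ℝ _ (Set.mem_range_self _))
      have hy : t i (k' + 2) ∈ hull T := h_sub h i (subset_convexHull ℝ _ (Set.mem_range_self _))
      have h2 := vertex_inj (t i) hccw (h_ext T h.ccwT j _ _ hx hy h1)
      have h3 := add_left_cancel h2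
      exact absurd h3 (by decide)
    · exact h1
  obtain ⟨m, hm⟩ := hver
  obtain ⟨s, hs, hs1⟩ := (hil.and_eventually hIoo).exists
  have honT := hseg' s hs1.1 hs1.2
  refine ⟨i, m, l, hm.symm, ?_, ?_, ?_⟩
  · rintro rfl
    rw [hm, lam_self] at hl0
    linarith
  · exact bd_dir h hs honT
  · rw [h_lev (t i) hccw l (p s) ((onSide_iff _ hccw _ _).mp hs).1,
      h_lev T h.ccwT k (p s) ((onSide_iff _ h.ccwT _ _).mp honT).1, bd_dir h hs honT]

theorem h_third {v : Fin 3 → ℂ} {l1 l2 : Fin 3} (hl : l1 ≠ l2) {p : ℂ} (hv : 0 < dd v)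
    (h1 : lam v l1 p = 0) (h2 : lam v l2 p = 0) (l3 : Fin 3) (h13 : l3 ≠ l1) (h23 : l3 ≠ l2) :
    0 < lam v l3 p := by
  have hs := lam_sum v p
  fin_cases l1 <;> fin_cases l2 <;> fin_cases l3 <;>
    first
    | exact absurd rfl hl
    | exact absurd rfl h13
    | exact absurd rfl h23
    | (simp only [Fin.zero_eta, Fin.mk_one, Fin.reduceFinMk] at *; linarith)

/-- near the corner, a tile with two sides along the sides of `T` looks like `T` -/
theorem h_near {T v : Fin 3 → ℂ} (hT : 0 < dd T) (hv : 0 < dd v) {j j1 j2 l1 l2 : Fin 3}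
    (hj1 : lam T j1 (T j) = 0) (hj2 : lam T j2 (T j) = 0) (hj : j1 ≠ j2)
    (b1 : onBd T v l1 j1) (b2 : onBd T v l2 j2) :
    ∀ᶠ p in 𝓝 (T j), 0 < lam T j1 p → 0 < lam T j2 p → p ∈ interior (hull v) := by
  have hl : l1 ≠ l2 := by
    rintro rfl
    exact hj (h_dir_inj T hT (b1.1.symm.trans b2.1))
  have conv : ∀ (l j' : Fin 3), onBd T v l j' → ∀ p, lam v l p = len v l / len T j' * lam T j' p := by
    intro l j' hb p
    rw [lam_eq v hv, lam_eq T hT, hb.1, hb.2]
    have := (len_pos T hT j').ne'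
    field_simp
  have z1 : lam v l1 (T j) = 0 := by rw [conv _ _ b1, hj1, mul_zero]
  have z2 : lam v l2 (T j) = 0 := by rw [conv _ _ b2, hj2, mul_zero]
  have hev : ∀ᶠ p in 𝓝 (T j), ∀ l3 : Fin 3, l3 ≠ l1 → l3 ≠ l2 → 0 < lam v l3 p := by
    rw [eventually_all]
    intro l3
    by_cases h13 : l3 = l1
    · exact Eventually.of_forall fun p hh => absurd h13 hh
    · by_cases h23 : l3 = l2
      · exact Eventually.of_forall fun p _ hh => absurd h23 hh
      · have := h_third hl hv z1 z2 l3 h13 h23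
        have h4 := (h_lam_cont v l3).continuousAt.eventually_const_lt this
        exact h4.mono fun p hp _ _ => hp
  filter_upwards [hev] with p hp q1 q2
  rw [mem_int v hv]
  intro l
  by_cases h13 : l = l1
  · rw [h13, conv _ _ b1]
    exact mul_pos (div_pos (len_pos v hv _) (len_pos T hT _)) q1
  · by_cases h23 : l = l2
    · rw [h23, conv _ _ b2]
      exact mul_pos (div_pos (len_pos v hv _) (len_pos T hT _)) q2
    · exact hp l h13 h23

theorem h_unique {N : ℕ} {T : Fin 3 → ℂ} {t : Fin N → Fin 3 → ℂ} (h : Dis N T t) {j j1 j2 : Fin 3}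
    (hj1 : j1 = j + 1) (hj2 : j2 = j + 2) {i i' : Fin N} {l1 l2 l1' l2' : Fin 3}
    (b1 : onBd T (t i) l1 j1) (b2 : onBd T (t i) l2 j2)
    (b1' : onBd T (t i') l1' j1) (b2' : onBd T (t i') l2' j2) : i = i' := by
  by_contra hne
  have hj : j1 ≠ j2 := by
    rw [hj1, hj2]
    intro e
    exact absurd (add_left_cancel e) (by decide)
  have e1 : lam T j1 (T j) = 0 := by
    rw [hj1]
    have := lam_prev T (j + 1)
    rwa [show j + 1 + 2 = j by rw [add_assoc]; exact add_zero j] at this
  have e2 : lam T j2 (T j) = 0 := by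
    rw [hj2]
    have := lam_next T (j + 2)
    rwa [show j + 2 + 1 = j by rw [add_assoc]; exact add_zero j] at this
  have n1 := h_near h.ccwT (h.ccwt i) e1 e2 hj b1 b2
  have n2 := h_near h.ccwT (h.ccwt i') e1 e2 hj b1' b2'
  obtain ⟨w, hw⟩ : ∃ w : ℂ, w = (T j1 - T j) + (T j2 - T j) := ⟨_, rfl⟩
  have hcont : Continuous (fun s : ℝ => T j + s * w) := by fun_prop
  have hlim : Tendsto (fun s : ℝ => T j + s * w) (𝓝[>] 0) (𝓝 (T j)) := by
    have := hcont.tendsto 0
    simp only [Complex.ofReal_zero, zero_mul, add_zero] at this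
    exact this.mono_left nhdsWithin_le_nhds
  have hcr : ∀ k : Fin 3, cr (sd T k) w = lam T k (T j1) - lam T k (T j) + (lam T k (T j2) - lam T k (T j)) := by
    intro k
    rw [hw, ← h_cr_sub, ← h_cr_sub]
    unfold cr
    simp only [Complex.add_re, Complex.add_im]
    ring
  have f1 : lam T j1 (T j2) = 0 := by
    have := lam_next T j1
    rwa [show j1 + 1 = j2 by rw [hj1, hj2, add_assoc]; rfl] at this
  have f2 : lam T j2 (T j1) = 0 := by
    have := lam_prev T j2
    rwa [show j2 + 2 = j1 by rw [hj1, hj2, add_assoc]; rfl] at this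
  have g1 : ∀ s : ℝ, lam T j1 (T j + s * w) = s * dd T := by
    intro s
    rw [h_lam_add, hcr, e1, f1, lam_self]; ring
  have g2 : ∀ s : ℝ, lam T j2 (T j + s * w) = s * dd T := by
    intro s
    rw [h_lam_add, hcr, e2, f2, lam_self]; ring
  have hpos : ∀ᶠ s : ℝ in 𝓝[>] 0, 0 < s := by
    filter_upwards [self_mem_nhdsWithin] with s hs using hs
  obtain ⟨s, h1, h2, hs⟩ := ((hlim.eventually n1).and ((hlim.eventually n2).and hpos)).exists
  have p1 : 0 < lam T j1 (T j + s * w) := by rw [g1]; exact mul_pos hs h.ccwT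
  have p2 : 0 < lam T j2 (T j + s * w) := by rw [g2]; exact mul_pos hs h.ccwT
  exact Set.disjoint_left.mp (h.disj i i' hne) (h1 p1 p2) (h2 p1 p2)

end jobhelpers

/-- TARGET: at the corner j some tile has a vertex there and a side along side k of T -/
theorem corner_side {N : ℕ} {T : Fin 3 → ℂ} {t : Fin N → Fin 3 → ℂ} (h : Dis N T t) (j k : Fin 3)
    (hjk : j ≠ k) : ∃ i m l, t i m = T j ∧ l ≠ m ∧ onBd T (t i) l k := by
  have hcases : (j = k + 1) ∨ (j = k + 2) := by
    revert hjk
    fin_cases j <;> fin_cases k <;> decide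
  rcases hcases with e | e
  · apply h_core h j (k + 2) k
    · rw [e]; intro e2; exact absurd (add_left_cancel e2) (by decide)
    · intro s hs0 hs1
      refine ⟨1 - s, s, by linarith, hs0, by ring, ?_⟩
      rw [e]
      simp only [Complex.real_smul]
      push_cast
      ring
  · apply h_core h j (k + 1) k
    · rw [e]; intro e2; exact absurd (add_left_cancel e2) (by decide)
    · intro s hs0 hs1
      refine ⟨s, 1 - s, hs0, by linarith, by ring, ?_⟩
      rw [e]
      simp only [Complex.real_smul]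
      push_cast
      ring

/-- TARGET: at most N+3 tile sides lie on the boundary of T -/
theorem bd_count {N : ℕ} {T : Fin 3 → ℂ} {t : Fin N → Fin 3 → ℂ} (h : Dis N T t) (hN : 2 ≤ N) :
    open Classical in
    (∑ j : Fin 3, ∑ i : Fin N, ∑ l : Fin 3, if onBd T (t i) l j then 1 else 0) ≤ N + 3 := by
  classical
  obtain ⟨a, ha⟩ : ∃ a : Fin N → Fin 3 → ℕ, a = fun i j => if ∃ l, onBd T (t i) l j then 1 else 0 := ⟨_, rfl⟩
  have ha01 : ∀ i j, a i j = 0 ∨ a i j = 1 := by
    intro i j
    rw [ha]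
    by_cases hh : ∃ l, onBd T (t i) l j
    · right; simp only [if_pos hh]
    · left; simp only [if_neg hh]
  have ha1 : ∀ i j, a i j ≠ 0 → ∃ l, onBd T (t i) l j := by
    intro i j hne
    by_contra hcon
    apply hne
    rw [ha]
    simp only [if_neg hcon]
  have step1 : ∀ i j, (∑ l : Fin 3, if onBd T (t i) l j then 1 else 0) ≤ a i j := by
    intro i j
    by_cases hh : ∃ l, onBd T (t i) l j
    · obtain ⟨l, hl⟩ := hh
      have e : a i j = 1 := by rw [ha]; simp only [if_pos (⟨l, hl⟩ : ∃ l, onBd T (t i) l j)]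
      rw [e, Finset.sum_eq_single l]
      · rw [if_pos hl]
      · intro b _ hb
        rw [if_neg]
        intro hb2
        exact hb (h_dir_inj (t i) (h.ccwt i) (hb2.1.trans hl.1.symm))
      · intro hcon; exact absurd (Finset.mem_univ l) hcon
    · have : (∑ l : Fin 3, if onBd T (t i) l j then 1 else 0) = 0 := by
        apply Finset.sum_eq_zero
        intro l _
        rw [if_neg]
        intro hl
        exact hh ⟨l, hl⟩
      rw [this]; exact Nat.zero_le _
  have step2 : ∀ j : Fin 3, ∑ i : Fin N, a i (j + 1) * a i (j + 2) ≤ 1 := by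
    intro j
    by_cases hh : ∃ i, a i (j + 1) * a i (j + 2) ≠ 0
    · obtain ⟨i, hi⟩ := hh
      have hi1 := left_ne_zero_of_mul hi
      have hi2 := right_ne_zero_of_mul hi
      obtain ⟨l1, b1⟩ := ha1 _ _ hi1
      obtain ⟨l2, b2⟩ := ha1 _ _ hi2
      rw [Finset.sum_eq_single i]
      · rcases ha01 i (j + 1) with e | e <;> rcases ha01 i (j + 2) with e' | e' <;> rw [e, e'] <;> norm_num
      · intro i' _ hne
        by_contra hcon
        have hi1' := left_ne_zero_of_mul hcon
        have hi2' := right_ne_zero_of_mul hcon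
        obtain ⟨l1', b1'⟩ := ha1 _ _ hi1'
        obtain ⟨l2', b2'⟩ := ha1 _ _ hi2'
        exact hne (h_unique h rfl rfl b1' b2' b1 b2)
      · intro hcon; exact absurd (Finset.mem_univ i) hcon
    · push Not at hh
      rw [Finset.sum_eq_zero (fun i _ => hh i)]
      exact Nat.zero_le _
  have s0 := step2 0
  have s1 := step2 1
  have s2 := step2 2
  have e1 : (0 : Fin 3) + 1 = 1 := rfl
  have e2 : (0 : Fin 3) + 2 = 2 := rfl
  have e3 : (1 : Fin 3) + 1 = 2 := rfl
  have e4 : (1 : Fin 3) + 2 = 0 := rfl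
  have e5 : (2 : Fin 3) + 1 = 0 := rfl
  have e6 : (2 : Fin 3) + 2 = 1 := rfl
  rw [e1, e2] at s0
  rw [e3, e4] at s1
  rw [e5, e6] at s2
  have step3 : ∀ i, a i 0 + a i 1 + a i 2 ≤ 1 + (a i 1 * a i 2 + a i 2 * a i 0 + a i 0 * a i 1) := by
    intro i
    rcases ha01 i 0 with x | x <;> rcases ha01 i 1 with y | y <;> rcases ha01 i 2 with z | z <;>
      rw [x, y, z] <;> norm_num
  calc (∑ j : Fin 3, ∑ i : Fin N, ∑ l : Fin 3, if onBd T (t i) l j then 1 else 0)
      ≤ ∑ j : Fin 3, ∑ i : Fin N, a i j :=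
        Finset.sum_le_sum fun j _ => Finset.sum_le_sum fun i _ => step1 i j
    _ = ∑ i : Fin N, (a i 0 + a i 1 + a i 2) := by
        rw [Finset.sum_comm]
        apply Finset.sum_congr rfl
        intro i _
        rw [Fin.sum_univ_three]
    _ ≤ ∑ i : Fin N, (1 + (a i 1 * a i 2 + a i 2 * a i 0 + a i 0 * a i 1)) :=
        Finset.sum_le_sum fun i _ => step3 i
    _ = N + (∑ i : Fin N, a i 1 * a i 2 + ∑ i : Fin N, a i 2 * a i 0 + ∑ i : Fin N, a i 0 * a i 1) := by
        rw [Finset.sum_add_distrib, Finset.sum_add_distrib, Finset.sum_add_distrib]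
        simp
    _ ≤ N + 3 := by omega

end Pool.Agent.Helper549.Tri.Corner
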