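import Mathlib
import Pool.Agent.Helper549.Tri.Defs
import Pool.Agent.Helper549.Tri.Basic
import Pool.Agent.Helper549.Tri.Angles
import Pool.Agent.Helper549.Tri.Opp
set_option autoImplicit false
noncomputable section
open scoped BigOperators
open MeasureTheory

namespace Pool.Agent.Helper549.Tri.Line
open Pool.Agent.Helper549.Tri.Basic Pool.Agent.Helper549.Tri.Angles Pool.Agent.Helper549.Tri.Opp

/-- the line of direction `u` and level `s` -/
def zl (u : ℂ) (s x : ℝ) : ℂ := ((x : ℂ) + (s : ℂ) * Complex.I) * u

theorem zl_re (u : ℂ) (s x : ℝ) : (zl u s x).re = x * u.re - s * u.im := by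
  simp [zl]

theorem zl_im (u : ℂ) (s x : ℝ) : (zl u s x).im = x * u.im + s * u.re := by
  simp [zl]

theorem usq (u : ℂ) (hu : ‖u‖ = 1) : u.re * u.re + u.im * u.im = 1 := by
  have h1 : Complex.normSq u = 1 := by
    rw [Complex.normSq_eq_norm_sq, hu]; norm_num
  rwa [Complex.normSq_apply] at h1

theorem cr_zl (u : ℂ) (hu : ‖u‖ = 1) (s x : ℝ) : cr u (zl u s x) = s := by
  have h := usq u hu
  unfold cr
  rw [zl_re, zl_im]
  linear_combination s * h

theorem cr_neg (u p : ℂ) : cr (-u) p = -cr u p := by
  unfold cr
  rw [Complex.neg_re, Complex.neg_im]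
  ring

theorem zl_inj (u : ℂ) (hu : ‖u‖ = 1) (s : ℝ) : Function.Injective (zl u s) := by
  intro x y hxy
  have hu0 : u ≠ 0 := by
    intro h; rw [h, norm_zero] at hu; norm_num at hu
  have h1 := mul_right_cancel₀ hu0 hxy
  have h2 := add_right_cancel h1
  exact_mod_cast h2

theorem zl_surj (u : ℂ) (hu : ‖u‖ = 1) (s : ℝ) (p : ℂ) (hp : cr u p = s) :
    ∃ a : ℝ, p = zl u s a := by
  have h := usq u hu
  refine ⟨u.re * p.re + u.im * p.im, ?_⟩
  unfold cr at hp
  apply Complex.ext
  · rw [zl_re, ← hp]
    linear_combination (-p.re) * h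
  · rw [zl_im, ← hp]
    linear_combination (-p.im) * h

theorem zl_add (u : ℂ) (s a l : ℝ) : zl u s a + (l : ℂ) * u = zl u s (a + l) := by
  unfold zl
  push_cast
  ring

theorem zl_seg (u : ℂ) (hu : ‖u‖ = 1) (s a b x : ℝ) :
    zl u s x ∈ openSegment ℝ (zl u s a) (zl u s b) ↔ x ∈ openSegment ℝ a b := by
  have haff : ∀ α β : ℝ, α + β = 1 → α • zl u s a + β • zl u s b = zl u s (α * a + β * b) := by
    intro α β h
    unfold zl
    rw [Complex.real_smul, Complex.real_smul]
    have h2 : (α : ℂ) + β = 1 := by exact_mod_cast h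
    push_cast
    linear_combination (s : ℂ) * Complex.I * u * h2
  constructor
  · rintro ⟨α, β, hα, hβ, hab, h⟩
    rw [haff α β hab] at h
    refine ⟨α, β, hα, hβ, hab, ?_⟩
    rw [smul_eq_mul, smul_eq_mul]
    exact zl_inj u hu s h
  · rintro ⟨α, β, hα, hβ, hab, h⟩
    refine ⟨α, β, hα, hβ, hab, ?_⟩
    rw [haff α β hab]
    rw [smul_eq_mul, smul_eq_mul] at h
    rw [h]

theorem onSide_lev (v : Fin 3 → ℂ) (hv : 0 < dd v) (k : Fin 3) (p : ℂ) (h : onSide v k p) :
    cr (dir v k) p = lev v k := by
  have h1 := ((onSide_iff v hv k p).1 h).1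
  rw [lam_eq v hv] at h1
  have h2 := len_pos v hv k
  rcases mul_eq_zero.1 h1 with h3 | h3
  · exact absurd h3 h2.ne'
  · linarith

theorem v_next (v : Fin 3 → ℂ) (hv : 0 < dd v) (k : Fin 3) :
    v (k + 2) = v (k + 1) + (len v k : ℂ) * dir v k := by
  rw [← sd_eq v hv k, sd]; ring

open Classical in
theorem side_int (v : Fin 3 → ℂ) (hv : 0 < dd v) (k : Fin 3) (u : ℂ) (hu : ‖u‖ = 1) (s : ℝ) :
    Integrable (fun x : ℝ => if onSide v k (zl u s x) then
      ((if dir v k = u then (1:ℝ) else 0) - (if dir v k = -u then 1 else 0)) else 0) ∧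
    ∫ x : ℝ, (if onSide v k (zl u s x) then
      ((if dir v k = u then (1:ℝ) else 0) - (if dir v k = -u then 1 else 0)) else 0)
      = len v k * ((if dir v k = u ∧ lev v k = s then (1:ℝ) else 0) -
        (if dir v k = -u ∧ lev v k = -s then 1 else 0)) := by
  have hu0 : u ≠ 0 := by
    intro h; rw [h, norm_zero] at hu; norm_num at hu
  have hne : u ≠ -u := by
    intro h
    apply hu0
    have : (2 : ℂ) * u = 0 := by linear_combination h
    exact (mul_eq_zero.1 this).resolve_left two_ne_zero
  have hl := len_pos v hv k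
  by_cases h1 : dir v k = u
  · have h1' : ¬ (dir v k = -u) := fun h => hne (h1 ▸ h)
    by_cases h2 : lev v k = s
    · obtain ⟨a, ha⟩ := zl_surj u hu s (v (k + 1)) (by rw [← h1, ← h2]; rfl)
      have hb : v (k + 2) = zl u s (a + len v k) := by
        rw [v_next v hv k, ha, h1, zl_add]
      have hset : ∀ x, onSide v k (zl u s x) ↔ x ∈ Set.Ioo a (a + len v k) := by
        intro x
        unfold onSide
        rw [ha, hb, zl_seg u hu, openSegment_eq_Ioo (by linarith)]
      have hfun : (fun x : ℝ => if onSide v k (zl u s x) then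
          ((if dir v k = u then (1:ℝ) else 0) - (if dir v k = -u then 1 else 0)) else 0)
          = (Set.Ioo a (a + len v k)).indicator (fun _ => (1 : ℝ)) := by
        funext x
        rw [Set.indicator_apply, if_pos h1, if_neg h1', sub_zero]
        by_cases hx : x ∈ Set.Ioo a (a + len v k)
        · rw [if_pos ((hset x).2 hx), if_pos hx]
        · rw [if_neg (fun h => hx ((hset x).1 h)), if_neg hx]
      rw [hfun]
      constructor
      · rw [integrable_indicator_iff measurableSet_Ioo]
        exact integrableOn_const (by rw [Real.volume_Ioo]; exact ENNReal.ofReal_ne_top)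
      · rw [integral_indicator measurableSet_Ioo, setIntegral_const, if_pos ⟨h1, h2⟩,
          if_neg (fun h => h1' h.1), sub_zero, smul_eq_mul, Measure.real, Real.volume_Ioo,
          ENNReal.toReal_ofReal (by linarith)]
        ring
    · have hno : ∀ x, ¬ onSide v k (zl u s x) := by
        intro x hx
        apply h2
        rw [← onSide_lev v hv k _ hx, h1, cr_zl u hu]
      have hfun : (fun x : ℝ => if onSide v k (zl u s x) then
          ((if dir v k = u then (1:ℝ) else 0) - (if dir v k = -u then 1 else 0)) else 0)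
          = fun _ => 0 := by
        funext x
        rw [if_neg (hno x)]
      rw [hfun]
      refine ⟨integrable_zero _ _ _, ?_⟩
      rw [integral_zero, if_neg (fun h => h2 h.2), if_neg (fun h => h1' h.1), sub_zero, mul_zero]
  · by_cases h1' : dir v k = -u
    · by_cases h2 : lev v k = -s
      · have hcr : cr u (v (k + 1)) = s := by
          have h3 : cr (dir v k) (v (k + 1)) = -s := h2
          rw [h1', cr_neg] at h3
          linarith
        obtain ⟨a, ha⟩ := zl_surj u hu s (v (k + 1)) hcr
        have hb : v (k + 2) = zl u s (a - len v k) := by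
          have h4 := zl_add u s a (-len v k)
          rw [v_next v hv k, ha, h1', sub_eq_add_neg, ← h4]
          push_cast
          ring
        have hset : ∀ x, onSide v k (zl u s x) ↔ x ∈ Set.Ioo (a - len v k) a := by
          intro x
          unfold onSide
          rw [ha, hb, zl_seg u hu, openSegment_symm, openSegment_eq_Ioo (by linarith)]
        have hfun : (fun x : ℝ => if onSide v k (zl u s x) then
            ((if dir v k = u then (1:ℝ) else 0) - (if dir v k = -u then 1 else 0)) else 0)
            = (Set.Ioo (a - len v k) a).indicator (fun _ => (-1 : ℝ)) := by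
          funext x
          rw [Set.indicator_apply, if_neg h1, if_pos h1', zero_sub]
          by_cases hx : x ∈ Set.Ioo (a - len v k) a
          · rw [if_pos ((hset x).2 hx), if_pos hx]
          · rw [if_neg (fun h => hx ((hset x).1 h)), if_neg hx]
        rw [hfun]
        constructor
        · rw [integrable_indicator_iff measurableSet_Ioo]
          exact integrableOn_const (by rw [Real.volume_Ioo]; exact ENNReal.ofReal_ne_top)
        · rw [integral_indicator measurableSet_Ioo, setIntegral_const,
            if_neg (fun h => h1 h.1), if_pos ⟨h1', h2⟩, zero_sub, smul_eq_mul, Measure.real,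
            Real.volume_Ioo, ENNReal.toReal_ofReal (by linarith)]
          ring
      · have hno : ∀ x, ¬ onSide v k (zl u s x) := by
          intro x hx
          apply h2
          rw [← onSide_lev v hv k _ hx, h1', cr_neg, cr_zl u hu]
        have hfun : (fun x : ℝ => if onSide v k (zl u s x) then
            ((if dir v k = u then (1:ℝ) else 0) - (if dir v k = -u then 1 else 0)) else 0)
            = fun _ => 0 := by
          funext x
          rw [if_neg (hno x)]
        rw [hfun]
        refine ⟨integrable_zero _ _ _, ?_⟩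
        rw [integral_zero, if_neg (fun h => h1 h.1), if_neg (fun h => h2 h.2), sub_zero, mul_zero]
    · have hfun : (fun x : ℝ => if onSide v k (zl u s x) then
          ((if dir v k = u then (1:ℝ) else 0) - (if dir v k = -u then 1 else 0)) else 0)
          = fun _ => 0 := by
        funext x
        rw [if_neg h1, if_neg h1', sub_zero, ite_self]
      rw [hfun]
      refine ⟨integrable_zero _ _ _, ?_⟩
      rw [integral_zero, if_neg (fun h => h1 h.1), if_neg (fun h => h1' h.1), sub_zero, mul_zero]

/-- TARGET: one-dimensional integration of side_count along the line of direction u and level s -/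
theorem line_sum {N : ℕ} {T : Fin 3 → ℂ} {t : Fin N → Fin 3 → ℂ} (h : Dis N T t) (u : ℂ)
    (hu : ‖u‖ = 1) (s : ℝ) :
    open Classical in
    (∑ i, ∑ k, len (t i) k * ((if dir (t i) k = u ∧ lev (t i) k = s then (1:ℝ) else 0) -
      (if dir (t i) k = -u ∧ lev (t i) k = -s then 1 else 0))) =
    ∑ k, len T k * ((if dir T k = u ∧ lev T k = s then (1:ℝ) else 0) -
      (if dir T k = -u ∧ lev T k = -s then 1 else 0)) := by
  classical
  have hu0 : u ≠ 0 := by
    intro h; rw [h, norm_zero] at hu; norm_num at hu
  have hI1 := fun i k => side_int (t i) (h.ccwt i) k u hu s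
  have hI2 := fun k => side_int T h.ccwT k u hu s
  have e1 : (∑ i, ∑ k, len (t i) k * ((if dir (t i) k = u ∧ lev (t i) k = s then (1:ℝ) else 0) -
      (if dir (t i) k = -u ∧ lev (t i) k = -s then 1 else 0)))
      = ∫ x : ℝ, ∑ i, ∑ k, (if onSide (t i) k (zl u s x) then
      ((if dir (t i) k = u then (1:ℝ) else 0) - (if dir (t i) k = -u then 1 else 0)) else 0) := by
    rw [integral_finsetSum _ (fun i _ => integrable_finsetSum _ (fun k _ => (hI1 i k).1))]
    apply Finset.sum_congr rfl
    intro i _
    rw [integral_finsetSum _ (fun k _ => (hI1 i k).1)]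
    apply Finset.sum_congr rfl
    intro k _
    exact (hI1 i k).2.symm
  have e2 : (∑ k, len T k * ((if dir T k = u ∧ lev T k = s then (1:ℝ) else 0) -
      (if dir T k = -u ∧ lev T k = -s then 1 else 0)))
      = ∫ x : ℝ, ∑ k, (if onSide T k (zl u s x) then
      ((if dir T k = u then (1:ℝ) else 0) - (if dir T k = -u then 1 else 0)) else 0) := by
    rw [integral_finsetSum _ (fun k _ => (hI2 k).1)]
    apply Finset.sum_congr rfl
    intro k _
    exact (hI2 k).2.symm
  rw [e1, e2]
  apply integral_congr_ae
  have hfin : (zl u s ⁻¹' ((⋃ i, Set.range (t i)) ∪ Set.range T)).Finite := by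
    apply Set.Finite.preimage (zl_inj u hu s).injOn
    apply Set.Finite.union
    · exact Set.finite_iUnion (fun i => Set.finite_range _)
    · exact Set.finite_range _
  have hae : ∀ᵐ x : ℝ, x ∉ zl u s ⁻¹' ((⋃ i, Set.range (t i)) ∪ Set.range T) :=
    hfin.countable.ae_notMem _
  filter_upwards [hae] with x hx
  have hx1 : ∀ i k, zl u s x ≠ t i k := by
    intro i k hk
    apply hx
    left
    exact Set.mem_iUnion.2 ⟨i, ⟨k, hk.symm⟩⟩
  have hx2 : ∀ k, zl u s x ≠ T k := by
    intro k hk
    apply hx
    right
    exact ⟨k, hk.symm⟩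
  exact side_count h (zl u s x) u hu0 hx1 hx2

end Pool.Agent.Helper549.Tri.Line
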