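import Mathlib
import Pool.Agent.Helper549.Tri.Defs
import Pool.Agent.Helper549.Tri.Basic
import Pool.Agent.Helper549.Tri.Angles
import Pool.Agent.Helper549.Tri.Line
set_option autoImplicit false
noncomputable section
open scoped BigOperators
open MeasureTheory

namespace Pool.Agent.Helper549.Tri.Odd
open Pool.Agent.Helper549.Tri.Basic Pool.Agent.Helper549.Tri.Angles Pool.Agent.Helper549.Tri.Line

theorem odd_core {ι : Type} [Fintype ι] (d : ι → ℂ) (e : ι → ℝ) (w : ι → ℝ) (hd : ∀ x, ‖d x‖ = 1)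
    (H : ∀ u : ℂ, ‖u‖ = 1 → ∀ s : ℝ, open Classical in
      (∑ x, w x * ((if d x = u ∧ e x = s then (1:ℝ) else 0) -
        (if d x = -u ∧ e x = -s then 1 else 0))) = 0)
    (φ : ℂ → ℂ) (hφ : ∀ z, φ (-z) = - φ z) : ∑ x, (w x : ℂ) * φ (d x) = 0 := by
  classical
  obtain ⟨P, hPdef⟩ : ∃ P : Finset (ℂ × ℝ), P = (Finset.univ.image (fun x => (d x, e x))) ∪
    (Finset.univ.image (fun x => (-d x, -e x))) := ⟨_, rfl⟩
  have hP1 : ∀ x, (d x, e x) ∈ P := by
    intro x
    rw [hPdef]
    exact Finset.mem_union_left _ (Finset.mem_image_of_mem _ (Finset.mem_univ x))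
  have hP2 : ∀ x, (-d x, -e x) ∈ P := by
    intro x
    rw [hPdef]
    exact Finset.mem_union_right _
      (Finset.mem_image_of_mem (fun x => (-d x, -e x)) (Finset.mem_univ x))
  have hPn : ∀ p ∈ P, ‖p.1‖ = 1 := by
    intro p hp
    rw [hPdef, Finset.mem_union, Finset.mem_image, Finset.mem_image] at hp
    rcases hp with ⟨x, _, hx⟩ | ⟨x, _, hx⟩
    · rw [← hx]; exact hd x
    · rw [← hx]
      show ‖-d x‖ = 1
      rw [norm_neg]; exact hd x
  have key : ∀ x, ∑ p ∈ P, φ p.1 * (((if d x = p.1 ∧ e x = p.2 then (1:ℝ) else 0) -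
      (if d x = -p.1 ∧ e x = -p.2 then (1:ℝ) else 0) : ℝ) : ℂ) = 2 * φ (d x) := by
    intro x
    have h1 : ∑ p ∈ P, φ p.1 * (if d x = p.1 ∧ e x = p.2 then (1:ℂ) else 0) = φ (d x) := by
      rw [Finset.sum_eq_single (d x, e x)]
      · simp
      · intro p hp hne
        rw [if_neg]
        · simp
        · rintro ⟨h1, h2⟩
          exact hne (Prod.ext h1.symm h2.symm)
      · intro h
        exact absurd (hP1 x) h
    have h2 : ∑ p ∈ P, φ p.1 * (if d x = -p.1 ∧ e x = -p.2 then (1:ℂ) else 0) = - φ (d x) := by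
      rw [Finset.sum_eq_single (-d x, -e x)]
      · simp [hφ]
      · intro p hp hne
        rw [if_neg]
        · simp
        · rintro ⟨h1, h2⟩
          apply hne
          apply Prod.ext
          · show p.1 = -d x
            rw [h1, neg_neg]
          · show p.2 = -e x
            rw [h2, neg_neg]
      · intro h
        exact absurd (hP2 x) h
    have h3 : ∑ p ∈ P, φ p.1 * (((if d x = p.1 ∧ e x = p.2 then (1:ℝ) else 0) -
      (if d x = -p.1 ∧ e x = -p.2 then (1:ℝ) else 0) : ℝ) : ℂ) =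
      ∑ p ∈ P, (φ p.1 * (if d x = p.1 ∧ e x = p.2 then (1:ℂ) else 0) -
        φ p.1 * (if d x = -p.1 ∧ e x = -p.2 then (1:ℂ) else 0)) := by
      refine Finset.sum_congr rfl fun p _ => ?_
      split_ifs <;> push_cast <;> ring
    rw [h3, Finset.sum_sub_distrib, h1, h2]
    ring
  have tot : 2 * ∑ x, (w x : ℂ) * φ (d x) = 0 := by
    have e1 : 2 * ∑ x, (w x : ℂ) * φ (d x) = ∑ x, (w x : ℂ) * (2 * φ (d x)) := by
      rw [Finset.mul_sum]
      exact Finset.sum_congr rfl fun x _ => by ring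
    have e2 : ∑ x, (w x : ℂ) * (2 * φ (d x)) =
        ∑ x, ∑ p ∈ P, φ p.1 * ((w x * ((if d x = p.1 ∧ e x = p.2 then (1:ℝ) else 0) -
      (if d x = -p.1 ∧ e x = -p.2 then (1:ℝ) else 0)) : ℝ) : ℂ) := by
      refine Finset.sum_congr rfl fun x _ => ?_
      rw [← key x, Finset.mul_sum]
      refine Finset.sum_congr rfl fun p _ => ?_
      rw [Complex.ofReal_mul]
      ring
    rw [e1, e2, Finset.sum_comm]
    refine Finset.sum_eq_zero fun p hp => ?_
    rw [← Finset.mul_sum, ← Complex.ofReal_sum]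
    have := H p.1 (hPn p hp) p.2
    have h0 : (∑ x, (w x * ((if d x = p.1 ∧ e x = p.2 then (1:ℝ) else 0) -
      (if d x = -p.1 ∧ e x = -p.2 then (1:ℝ) else 0)))) = 0 := by
      rw [← this]
      refine Finset.sum_congr rfl fun x _ => ?_
      congr
    rw [h0]
    simp
  have h2 : (2:ℂ) ≠ 0 := two_ne_zero
  exact (mul_eq_zero.mp tot).resolve_left h2

/-- TARGET -/
theorem odd_sum {N : ℕ} {T : Fin 3 → ℂ} {t : Fin N → Fin 3 → ℂ} (h : Dis N T t) (φ : ℂ → ℂ)
    (hφ : ∀ z, φ (-z) = - φ z) :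
    ∑ i, ∑ k, (len (t i) k : ℂ) * φ (dir (t i) k) = ∑ k, (len T k : ℂ) * φ (dir T k) := by
  classical
  have H := odd_core (ι := (Fin N × Fin 3) ⊕ Fin 3)
    (Sum.elim (fun p => dir (t p.1) p.2) (fun k => dir T k))
    (Sum.elim (fun p => lev (t p.1) p.2) (fun k => lev T k))
    (Sum.elim (fun p => len (t p.1) p.2) (fun k => - len T k))
    (by
      rintro (⟨i, k⟩ | k)
      · exact norm_dir (t i) (h.ccwt i) k
      · exact norm_dir T h.ccwT k)
    (by
      intro u hu s
      have hl := line_sum h u hu s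
      rw [Fintype.sum_sum_type, Fintype.sum_prod_type]
      have h3 := sub_eq_zero.mpr hl
      rw [sub_eq_add_neg, ← Finset.sum_neg_distrib] at h3
      refine Eq.trans (congrArg₂ (· + ·) (Finset.sum_congr rfl fun i _ =>
        Finset.sum_congr rfl fun k _ => ?_) (Finset.sum_congr rfl fun k _ => ?_)) h3
      · simp only [Sum.elim_inl]
        congr
      · simp only [Sum.elim_inr]
        rw [neg_mul]
        congr)
    φ hφ
  rw [Fintype.sum_sum_type, Fintype.sum_prod_type] at H
  simp only [Sum.elim_inl, Sum.elim_inr] at H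
  have h2 : ∑ k, ((-len T k : ℝ) : ℂ) * φ (dir T k) = - ∑ k, (len T k : ℂ) * φ (dir T k) := by
    rw [← Finset.sum_neg_distrib]
    refine Finset.sum_congr rfl fun k _ => ?_
    push_cast
    ring
  rw [h2] at H
  linear_combination H

theorem cr_sd (v : Fin 3 → ℂ) (k : Fin 3) : cr (sd v k) (sd v (k + 1)) = dd v := by
  fin_cases k <;> simp [cr, sd, dd] <;> ring_nf

theorem cr_neg_left (z w : ℂ) : cr (-z) w = - cr z w := by
  simp [cr]; ring

theorem cr_self (z : ℂ) : cr z z = 0 := by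
  simp [cr]; ring

theorem cr_smul (a b : ℝ) (z w : ℂ) : cr ((a:ℂ) * z) ((b:ℂ) * w) = a * b * cr z w := by
  simp [cr]; ring

theorem cr_dir_pos (v : Fin 3 → ℂ) (hv : 0 < dd v) (k : Fin 3) :
    0 < cr (dir v k) (dir v (k + 1)) := by
  have h1 := cr_sd v k
  rw [sd_eq v hv k, sd_eq v hv (k+1), cr_smul] at h1
  have h2 := len_pos v hv k
  have h3 := len_pos v hv (k+1)
  rw [← h1] at hv
  have h4 : 0 < len v k * len v (k+1) := mul_pos h2 h3
  exact (mul_pos_iff_of_pos_left h4).mp hv

theorem cr_antisymm (z w : ℂ) : cr z w = - cr w z := by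
  simp [cr]; ring

theorem dir_ne (v : Fin 3 → ℂ) (hv : 0 < dd v) (k j : Fin 3) (hkj : k ≠ j) :
    cr (dir v k) (dir v j) ≠ 0 := by
  have h3 : j = k + 1 ∨ k = j + 1 := by
    fin_cases k <;> fin_cases j <;> simp_all
  rcases h3 with h3 | h3
  · rw [h3]; exact (cr_dir_pos v hv k).ne'
  · rw [h3, cr_antisymm]
    exact neg_ne_zero.mpr (cr_dir_pos v hv j).ne'

theorem dir_ne_neg (v : Fin 3 → ℂ) (hv : 0 < dd v) (j : Fin 3) : dir v j ≠ - dir v j := by
  intro h
  have h1 := norm_dir v hv j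
  have h2 : dir v j = 0 := self_eq_neg.mp h
  rw [h2, norm_zero] at h1
  exact zero_ne_one h1

/-- TARGET -/
theorem bd_len {N : ℕ} {T : Fin 3 → ℂ} {t : Fin N → Fin 3 → ℂ} (h : Dis N T t) (j : Fin 3) :
    open Classical in
    (∑ i, ∑ l, if onBd T (t i) l j then len (t i) l else 0) = len T j := by
  classical
  have hl := line_sum h (dir T j) (norm_dir T h.ccwT j) (lev T j)
  have hR : (∑ k, len T k * ((if dir T k = dir T j ∧ lev T k = lev T j then (1:ℝ) else 0) -
      (if dir T k = -dir T j ∧ lev T k = -lev T j then 1 else 0))) = len T j := by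
    rw [Finset.sum_eq_single j]
    · rw [if_pos ⟨rfl, rfl⟩, if_neg (fun hh => dir_ne_neg T h.ccwT j hh.1)]
      ring
    · intro k _ hk
      have hc := dir_ne T h.ccwT k j hk
      rw [if_neg, if_neg]
      · ring
      · rintro ⟨h1, _⟩
        apply hc
        rw [h1, cr_neg_left, cr_self, neg_zero]
      · rintro ⟨h1, _⟩
        apply hc
        rw [h1, cr_self]
    · intro hh
      exact absurd (Finset.mem_univ j) hh
  have hL : (∑ i, ∑ k, len (t i) k * ((if dir (t i) k = dir T j ∧ lev (t i) k = lev T j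
      then (1:ℝ) else 0) -
      (if dir (t i) k = -dir T j ∧ lev (t i) k = -lev T j then 1 else 0))) =
      ∑ i, ∑ l, if onBd T (t i) l j then len (t i) l else 0 := by
    refine Finset.sum_congr rfl fun i _ => Finset.sum_congr rfl fun l _ => ?_
    have hno : ¬ (dir (t i) l = -dir T j ∧ lev (t i) l = -lev T j) := by
      rintro ⟨h1, h2⟩
      have h3 := lam_self (t i) l
      rw [lam_eq (t i) (h.ccwt i) l, h1, h2, cr_neg_left] at h3
      have h4 := h.ccwt i
      rw [← h3] at h4
      have h5 := len_pos (t i) (h.ccwt i) l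
      have h6 := (mul_pos_iff_of_pos_left h5).mp h4
      have hmem : t i l ∈ hull T := by
        rw [← h.cover]
        refine Set.mem_iUnion.mpr ⟨i, ?_⟩
        exact subset_convexHull ℝ _ (Set.mem_range_self l)
      have h7 := (mem_hull T h.ccwT (t i l)).mp hmem j
      rw [lam_eq T h.ccwT j] at h7
      have h8 := len_pos T h.ccwT j
      have h9 : 0 ≤ cr (dir T j) (t i l) - lev T j := by
        by_contra hneg
        have := mul_neg_of_pos_of_neg h8 (not_le.mp hneg)
        linarith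
      linarith
    rw [if_neg hno]
    by_cases hb : onBd T (t i) l j
    · have hb' : dir (t i) l = dir T j ∧ lev (t i) l = lev T j := hb
      rw [if_pos hb, if_pos hb']
      ring
    · have hb' : ¬ (dir (t i) l = dir T j ∧ lev (t i) l = lev T j) := hb
      rw [if_neg hb, if_neg hb']
      ring
  rw [← hL, ← hR]
  convert hl using 1

end Pool.Agent.Helper549.Tri.Odd
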