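import Mathlib
import Pool.Agent.Helper549.Tri.Defs
import Pool.Agent.Helper549.Tri.Basic
import Pool.Agent.Helper549.Tri.Angles
import Pool.Agent.Helper549.Tri.Char
import Pool.Agent.Helper549.Tri.Odd
import Pool.Agent.Helper549.Tri.Corner
import Pool.Agent.Helper549.Tri.Class
import Pool.Agent.Helper549.Tri.Vertex
set_option autoImplicit false
noncomputable section
open scoped BigOperators
open MeasureTheory

namespace Pool.Agent.Helper549.Tri.RealChar
open Pool.Agent.Helper549.Tri.Basic Pool.Agent.Helper549.Tri.Angles Pool.Agent.Helper549.Tri.Char Pool.Agent.Helper549.Tri.Odd Pool.Agent.Helper549.Tri.Corner Pool.Agent.Helper549.Tri.Class Pool.Agent.Helper549.Tri.Vertex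

/-- relation of the cosets -/
def CR (θ : Fin 3 → ℝ) (z w : ℂ) : Prop :=
  ∃ (m : ℤ) (x : Fin 3 → ℤ), z = w * (-1) ^ m * Complex.exp (Complex.I * ∑ k, (x k : ℂ) * (θ k : ℂ))

theorem CR_equiv (θ : Fin 3 → ℝ) : Equivalence (CR θ) := by
  refine ⟨?_, ?_, ?_⟩
  · intro z
    exact ⟨0, 0, by simp⟩
  · rintro z w ⟨m, x, h⟩
    refine ⟨-m, -x, ?_⟩
    rw [h]
    have h1 : Complex.I * ∑ k, (((-x) k : ℤ) : ℂ) * (θ k : ℂ)
        = -(Complex.I * ∑ k, (x k : ℂ) * (θ k : ℂ)) := by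
      simp only [Pi.neg_apply, Int.cast_neg, neg_mul, Finset.sum_neg_distrib, mul_neg]
    rw [h1, Complex.exp_neg, zpow_neg]
    have h2 : ((-1 : ℂ)) ^ m ≠ 0 := zpow_ne_zero _ (by norm_num)
    have h3 := Complex.exp_ne_zero (Complex.I * ∑ k, (x k : ℂ) * (θ k : ℂ))
    field_simp
  · rintro z w u ⟨m, x, h⟩ ⟨m', x', h'⟩
    refine ⟨m + m', x + x', ?_⟩
    rw [h, h']
    have h1 : Complex.I * ∑ k, (((x + x') k : ℤ) : ℂ) * (θ k : ℂ)
        = Complex.I * ∑ k, (x k : ℂ) * (θ k : ℂ) + Complex.I * ∑ k, (x' k : ℂ) * (θ k : ℂ) := by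
      simp only [Pi.add_apply, Int.cast_add, add_mul, Finset.sum_add_distrib, mul_add]
    rw [h1, Complex.exp_add, zpow_add₀ (by norm_num)]
    ring

/-- TARGET 1: every tile direction is in the coset of dir T 0 -/
theorem dir_coset {N : ℕ} {T : Fin 3 → ℂ} {t : Fin N → Fin 3 → ℂ} (h : Dis N T t)
    (τ : Fin N → Equiv.Perm (Fin 3)) (θ : Fin 3 → ℝ) (hang : ∀ i m, ang (t i) m = θ (τ i m))
    (i : Fin N) (l j : Fin 3) : ∃ (m : ℤ) (x : Fin 3 → ℤ), dir (t i) l =
      dir T j * (-1) ^ m * Complex.exp (Complex.I * ∑ k, (x k : ℂ) * (θ k : ℂ)) := by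
  have hE := CR_equiv θ
  have hneg : ∀ z, CR θ z (-z) := by
    intro z
    exact ⟨1, 0, by simp⟩
  have hstep : ∀ i k, CR θ (dir (t i) (k + 2)) (dir (t i) (k + 1)) := by
    intro i k
    refine ⟨1, fun n => if n = τ i k then -1 else 0, ?_⟩
    rw [dir_rel (t i) (h.ccwt i) k, hang]
    have h1 : Complex.I * ∑ n, (((if n = τ i k then -1 else 0 : ℤ)) : ℂ) * (θ n : ℂ)
        = -(θ (τ i k) : ℂ) * Complex.I := by
      rw [Finset.sum_eq_single (τ i k)]
      · simp; ring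
      · intro b _ hb
        simp [hb]
      · intro hb
        exact absurd (Finset.mem_univ _) hb
    rw [h1]
    simp
    ring
  have htile : ∀ i k l, CR θ (dir (t i) k) (dir (t i) l) := by
    intro i k l
    have a0 : CR θ (dir (t i) 2) (dir (t i) 1) := hstep i 0
    have a1 : CR θ (dir (t i) 0) (dir (t i) 2) := hstep i 1
    have a2 : CR θ (dir (t i) 1) (dir (t i) 0) := hstep i 2
    have b0 : ∀ k, CR θ (dir (t i) k) (dir (t i) 0) := by
      intro k
      fin_cases k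
      · exact hE.refl _
      · exact a2
      · exact hE.symm a1
    exact hE.trans (b0 k) (hE.symm (b0 l))
  obtain ⟨i', m', l', -, -, hb⟩ := corner_side h (j + 1) j (by
    intro hc
    revert hc
    revert j
    decide)
  have h2 := same_class h (CR θ) hE hneg htile i i' l l'
  rw [hb.1] at h2
  exact h2

theorem pm_zpow (z : ℂ) (hz : z = 1 ∨ z = -1) (n : ℤ) : z ^ n = 1 ∨ z ^ n = -1 := by
  rcases hz with rfl | rfl
  · left; exact one_zpow n
  · rcases Int.even_or_odd n with h | h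
    · left; exact h.neg_one_zpow
    · right; exact h.neg_one_zpow

theorem pm_mul (z w : ℂ) (hz : z = 1 ∨ z = -1) (hw : w = 1 ∨ w = -1) :
    z * w = 1 ∨ z * w = -1 := by
  rcases hz with rfl | rfl <;> rcases hw with rfl | rfl <;> norm_num

theorem pm_natAbs (X : ℤ) (hX : X = 1 ∨ X = -1) (d : ℤ) :
    ((X : ℂ)) ^ d = ((X ^ d.natAbs : ℤ) : ℂ) := by
  rcases Int.natAbs_eq d with h | h
  · conv_lhs => rw [h]
    rw [zpow_natCast]; push_cast; rfl
  · conv_lhs => rw [h]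
    rw [zpow_neg, zpow_natCast]
    push_cast
    have h1 : (X : ℂ) = 1 ∨ (X : ℂ) = -1 := by
      rcases hX with rfl | rfl
      · left; norm_num
      · right; norm_num
    have h2 : (X : ℂ) ^ d.natAbs = 1 ∨ (X : ℂ) ^ d.natAbs = -1 := by
      have := pm_zpow _ h1 (d.natAbs : ℤ)
      rwa [zpow_natCast] at this
    rcases h2 with h2 | h2 <;> rw [h2] <;> norm_num

theorem ipm_pow (X : ℤ) (hX : X = 1 ∨ X = -1) (n : ℕ) : X ^ n = 1 ∨ X ^ n = -1 := by
  rcases hX with rfl | rfl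
  · left; exact one_pow n
  · exact neg_one_pow_eq_or ℤ n

theorem ipm_mul (x y : ℤ) (hx : x = 1 ∨ x = -1) (hy : y = 1 ∨ y = -1) :
    x * y = 1 ∨ x * y = -1 := by
  rcases hx with rfl | rfl <;> rcases hy with rfl | rfl <;> norm_num

theorem ipm_sq (x : ℤ) (hx : x = 1 ∨ x = -1) : x * x = 1 := by
  rcases hx with rfl | rfl <;> norm_num

/-- TARGET 2: the real character identity -/
theorem real_char {N : ℕ} {T : Fin 3 → ℂ} {t : Fin N → Fin 3 → ℂ} (h : Dis N T t)
    (τ : Fin N → Equiv.Perm (Fin 3)) (ℓ θ : Fin 3 → ℝ) (hlen : ∀ i m, len (t i) m = ℓ (τ i m))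
    (hang : ∀ i m, ang (t i) m = θ (τ i m)) (hsum : θ 0 + θ 1 + θ 2 = Real.pi)
    (hirr : ¬ ∀ k, ∃ q : ℚ, θ k = q * Real.pi)
    (d : Fin 3 → ℤ) (hd : ∑ k, (d k : ℝ) * θ k = 0) (hd1 : ∃ k, d k = -1)
    (X : Fin 3 → ℤ) (hX : ∀ k, X k = 1 ∨ X k = -1) (hprod : X 0 * X 1 * X 2 = -1)
    (hXd : ∏ k, X k ^ (d k).natAbs = 1) :
    ∃ s : Fin N → ℤ, (∀ i, s i = 1 ∨ s i = -1) ∧
      ∑ j, ((∏ k, X k ^ cnt t τ (T j) k : ℤ) : ℝ) * len T j =
        ((∑ i, s i : ℤ) : ℝ) * ∑ k, (X k : ℝ) * ℓ k ∧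
      (∀ i l j, onBd T (t i) l j → s i * X (τ i l) = ∏ k, X k ^ cnt t τ (T j) k) := by
  have hXC : ∀ k, (X k : ℂ) = 1 ∨ (X k : ℂ) = -1 := by
    intro k
    rcases hX k with h1 | h1
    · left; rw [h1]; norm_num
    · right; rw [h1]; norm_num
  have hX0 : ∀ k, (X k : ℂ) ≠ 0 := by
    intro k
    rcases hXC k with h1 | h1 <;> rw [h1] <;> norm_num
  have hz0 : dir T 0 ≠ 0 := by
    intro h1
    have h2 := norm_dir T h.ccwT 0
    rw [h1] at h2
    simp at h2
  obtain ⟨φ, f1, f2, f3⟩ := char_exists θ hsum hirr d hd hd1 (fun k => (X k : ℂ)) hX0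
    (by exact_mod_cast hprod)
    (by
      have h1 : ∏ k, ((X k : ℂ)) ^ d k = ∏ k, ((X k ^ (d k).natAbs : ℤ) : ℂ) :=
        Finset.prod_congr rfl (fun k _ => pm_natAbs (X k) (hX k) (d k))
      rw [h1]
      exact_mod_cast hXd)
    (dir T 0) hz0
  -- values of the character
  have hval : ∀ i l, ∃ u : ℤ, (u = 1 ∨ u = -1) ∧ φ (dir (t i) l) = (u : ℂ) := by
    intro i l
    obtain ⟨m, x, hx⟩ := dir_coset h τ θ hang i l 0
    have h1 := f2 m x
    rw [← hx] at h1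
    have h2 : φ (dir (t i) l) = 1 ∨ φ (dir (t i) l) = -1 := by
      rw [h1, Fin.prod_univ_three]
      refine pm_mul _ _ (pm_zpow _ (Or.inr rfl) _) ?_
      refine pm_mul _ _ (pm_mul _ _ ?_ ?_) ?_
      · exact pm_zpow _ (hXC 0) _
      · exact pm_zpow _ (hXC 1) _
      · exact pm_zpow _ (hXC 2) _
    rcases h2 with h2 | h2
    · exact ⟨1, Or.inl rfl, by rw [h2]; norm_num⟩
    · exact ⟨-1, Or.inr rfl, by rw [h2]; norm_num⟩
  choose p hp1 hp2 using hval
  have hvalT : ∀ j, ∃ u : ℤ, (u = 1 ∨ u = -1) ∧ φ (dir T j) = (u : ℂ) := by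
    intro j
    obtain ⟨i', m', l', -, -, hb⟩ := corner_side h (j + 1) j (by
      intro hc
      revert hc
      revert j
      decide)
    exact ⟨p i' l', hp1 i' l', by rw [← hb.1]; exact hp2 i' l'⟩
  choose q hq1 hq2 using hvalT
  -- tile relation
  have hinv : ∀ k z, φ (Complex.exp (-(θ k : ℂ) * Complex.I) * z) = (X k : ℂ) * φ z := by
    intro k z
    have h1 := f3 (Complex.exp (-(θ k : ℂ) * Complex.I) * z) k
    rw [← mul_assoc, ← Complex.exp_add, neg_mul, add_neg_cancel, Complex.exp_zero, one_mul] at h1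
    rw [h1, ← mul_assoc, neg_mul]
    have h2 : (X k : ℂ) * (X k : ℂ) = 1 := by exact_mod_cast ipm_sq _ (hX k)
    rw [h2, one_mul]
  have hprodτ : ∀ i k, X (τ i k) * X (τ i (k + 1)) * X (τ i (k + 2)) = -1 := by
    intro i k
    have h1 : ∏ m, X (τ i m) = ∏ m, X m := Equiv.prod_comp (τ i) X
    rw [Fin.prod_univ_three, Fin.prod_univ_three, hprod] at h1
    fin_cases k
    · exact h1
    · show X (τ i 1) * X (τ i 2) * X (τ i 0) = -1
      rw [← h1]; ring
    · show X (τ i 2) * X (τ i 0) * X (τ i 1) = -1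
      rw [← h1]; ring
  have hrelp : ∀ i k, p i (k + 2) = - (X (τ i k) * p i (k + 1)) := by
    intro i k
    have h1 : (p i (k + 2) : ℂ) = -((X (τ i k) : ℂ) * (p i (k + 1) : ℂ)) := by
      rw [← hp2, ← hp2, dir_rel (t i) (h.ccwt i) k, hang, neg_mul, f1, hinv]
    exact_mod_cast h1
  have hg : ∀ i l, p i l * X (τ i l) = p i 0 * X (τ i 0) := by
    intro i
    have h1 : ∀ k, p i (k + 2) * X (τ i (k + 2)) = p i (k + 1) * X (τ i (k + 1)) := by
      intro k
      rw [hrelp]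
      have h2 := hprodτ i k
      have h3 := ipm_sq _ (hX (τ i (k + 1)))
      linear_combination (-(p i (k + 1) * X (τ i (k + 1)))) * h2
        + (X (τ i k) * X (τ i (k + 2)) * p i (k + 1)) * h3
    intro l
    fin_cases l
    · rfl
    · have a1 : p i 1 * X (τ i 1) = p i 0 * X (τ i 0) := h1 2
      exact a1
    · have a1 : p i 0 * X (τ i 0) = p i 2 * X (τ i 2) := h1 1
      exact a1.symm
  -- big triangle
  set Y : Fin 3 → ℤ := fun j => ∏ k, X k ^ cnt t τ (T j) k with hY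
  have hYpm : ∀ j, Y j = 1 ∨ Y j = -1 := by
    intro j
    rw [hY]
    simp only [Fin.prod_univ_three]
    exact ipm_mul _ _ (ipm_mul _ _ (ipm_pow _ (hX 0) _) (ipm_pow _ (hX 1) _)) (ipm_pow _ (hX 2) _)
  have hpow : ∀ (k : Fin 3) (n : ℕ) (z : ℂ),
      φ (Complex.exp (((n : ℝ) * θ k : ℝ) * Complex.I) * z) = (X k : ℂ) ^ n * φ z := by
    intro k n
    induction n with
    | zero => intro z; simp
    | succ n ih =>
      intro z
      have h1 : Complex.exp ((((n + 1 : ℕ) : ℝ) * θ k : ℝ) * Complex.I) * z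
          = Complex.exp ((θ k : ℂ) * Complex.I) *
            (Complex.exp (((n : ℝ) * θ k : ℝ) * Complex.I) * z) := by
        rw [← mul_assoc, ← Complex.exp_add]
        congr 2
        push_cast
        ring
      rw [h1, f3, ih, pow_succ]
      ring
  have hangT : ∀ j z, φ (Complex.exp ((ang T j : ℂ) * Complex.I) * z) = (Y j : ℂ) * φ z := by
    intro j z
    have h1 := corner_angles h τ θ hang j
    rw [Fin.sum_univ_three] at h1
    have h2 : Complex.exp ((ang T j : ℂ) * Complex.I) * z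
        = Complex.exp (((cnt t τ (T j) 0 : ℝ) * θ 0 : ℝ) * Complex.I) *
          (Complex.exp (((cnt t τ (T j) 1 : ℝ) * θ 1 : ℝ) * Complex.I) *
          (Complex.exp (((cnt t τ (T j) 2 : ℝ) * θ 2 : ℝ) * Complex.I) * z)) := by
      rw [← h1, ← mul_assoc, ← mul_assoc, ← Complex.exp_add, ← Complex.exp_add]
      congr 2
      push_cast
      ring
    rw [h2, hpow, hpow, hpow, hY]
    simp only [Fin.prod_univ_three]
    push_cast
    ring
  have hinvT : ∀ j z, φ (Complex.exp (-(ang T j : ℂ) * Complex.I) * z) = (Y j : ℂ) * φ z := by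
    intro j z
    have h1 := hangT j (Complex.exp (-(ang T j : ℂ) * Complex.I) * z)
    rw [← mul_assoc, ← Complex.exp_add, neg_mul, add_neg_cancel, Complex.exp_zero, one_mul] at h1
    rw [h1, ← mul_assoc, neg_mul]
    have h2 : (Y j : ℂ) * (Y j : ℂ) = 1 := by exact_mod_cast ipm_sq _ (hYpm j)
    rw [h2, one_mul]
  have hYprod : Y 0 * Y 1 * Y 2 = -1 := by
    have h2 : ((ang T 0 : ℂ) + (ang T 1 : ℂ) + (ang T 2 : ℂ)) = (Real.pi : ℂ) := by
      exact_mod_cast ang_sum T h.ccwT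
    have h0 : Complex.exp ((ang T 0 : ℂ) * Complex.I) *
        (Complex.exp ((ang T 1 : ℂ) * Complex.I) *
        (Complex.exp ((ang T 2 : ℂ) * Complex.I) * dir T 0)) = - dir T 0 := by
      rw [← mul_assoc, ← mul_assoc, ← Complex.exp_add, ← Complex.exp_add,
        ← add_mul, ← add_mul, h2, Complex.exp_pi_mul_I, neg_one_mul]
    have h1 : φ (- dir T 0) = (Y 0 : ℂ) * ((Y 1 : ℂ) * ((Y 2 : ℂ) * φ (dir T 0))) := by
      rw [← h0, hangT, hangT, hangT]
    rw [f1, hq2] at h1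
    have h3 : -(q 0) = Y 0 * (Y 1 * (Y 2 * q 0)) := by exact_mod_cast h1
    rcases hq1 0 with h4 | h4 <;> rw [h4] at h3 <;> linarith
  have hYprod' : ∀ k : Fin 3, Y k * Y (k + 1) * Y (k + 2) = -1 := by
    intro k
    fin_cases k
    · exact hYprod
    · show Y 1 * Y 2 * Y 0 = -1
      rw [← hYprod]; ring
    · show Y 2 * Y 0 * Y 1 = -1
      rw [← hYprod]; ring
  have hrelq : ∀ k : Fin 3, q (k + 2) = - (Y k * q (k + 1)) := by
    intro k
    have h1 : (q (k + 2) : ℂ) = -((Y k : ℂ) * (q (k + 1) : ℂ)) := by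
      rw [← hq2, ← hq2, dir_rel T h.ccwT k, neg_mul, f1, hinvT]
    exact_mod_cast h1
  have hgT : ∀ l, q l * Y l = q 0 * Y 0 := by
    have h1 : ∀ k : Fin 3, q (k + 2) * Y (k + 2) = q (k + 1) * Y (k + 1) := by
      intro k
      rw [hrelq]
      have h2 := hYprod' k
      have h3 := ipm_sq _ (hYpm (k + 1))
      linear_combination (-(q (k + 1) * Y (k + 1))) * h2
        + (Y k * Y (k + 2) * q (k + 1)) * h3
    intro l
    fin_cases l
    · rfl
    · have a1 : q 1 * Y 1 = q 0 * Y 0 := h1 2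
      exact a1
    · have a1 : q 0 * Y 0 = q 2 * Y 2 := h1 1
      exact a1.symm
  set sT : ℤ := q 0 * Y 0 with hsT
  have hsTpm : sT = 1 ∨ sT = -1 := ipm_mul _ _ (hq1 0) (hYpm 0)
  have hsT2 := ipm_sq _ hsTpm
  have hpX : ∀ i l, p i l = (p i 0 * X (τ i 0)) * X (τ i l) := by
    intro i l
    rw [← hg i l, mul_assoc, ipm_sq _ (hX _), mul_one]
  have hqY : ∀ j, q j = sT * Y j := by
    intro j
    rw [← hgT j, mul_assoc, ipm_sq _ (hYpm _), mul_one]
  refine ⟨fun i => sT * (p i 0 * X (τ i 0)), ?_, ?_, ?_⟩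
  · intro i
    exact ipm_mul _ _ hsTpm (ipm_mul _ _ (hp1 i 0) (hX _))
  · have h1 := odd_sum h φ f1
    have h2 : ∀ i, ∑ k, (len (t i) k : ℂ) * φ (dir (t i) k)
        = ((p i 0 * X (τ i 0) : ℤ) : ℂ) * ∑ k, (X k : ℂ) * (ℓ k : ℂ) := by
      intro i
      rw [← Equiv.sum_comp (τ i) (fun k => (X k : ℂ) * (ℓ k : ℂ)), Finset.mul_sum]
      apply Finset.sum_congr rfl
      intro k _
      rw [hlen, hp2, hpX i k]
      push_cast
      ring
    have h3 : ∀ k, (len T k : ℂ) * φ (dir T k) = (sT : ℂ) * ((Y k : ℂ) * (len T k : ℂ)) := by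
      intro k
      rw [hq2, hqY k]
      push_cast
      ring
    rw [Finset.sum_congr rfl (fun i _ => h2 i), Finset.sum_congr rfl (fun k _ => h3 k),
      ← Finset.sum_mul, ← Finset.mul_sum] at h1
    have h4 : (sT : ℂ) * (sT : ℂ) = 1 := by exact_mod_cast hsT2
    have h5 : ∑ j, (Y j : ℂ) * (len T j : ℂ)
        = ((∑ i, sT * (p i 0 * X (τ i 0)) : ℤ) : ℂ) * ∑ k, (X k : ℂ) * (ℓ k : ℂ) := by
      have h6 : ((∑ i, sT * (p i 0 * X (τ i 0)) : ℤ) : ℂ)
          = (sT : ℂ) * ∑ i, ((p i 0 * X (τ i 0) : ℤ) : ℂ) := by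
        push_cast
        rw [Finset.mul_sum]
      rw [h6, mul_assoc, h1, ← mul_assoc, h4, one_mul]
    have h7 : ((∑ j, (Y j : ℝ) * len T j : ℝ) : ℂ)
        = ((((∑ i, sT * (p i 0 * X (τ i 0)) : ℤ) : ℝ) * ∑ k, (X k : ℝ) * ℓ k : ℝ) : ℂ) := by
      push_cast
      push_cast at h5
      exact h5
    exact_mod_cast h7
  · intro i l j hb
    have h1 : (p i l : ℂ) = (q j : ℂ) := by
      rw [← hp2, ← hq2, hb.1]
    have h2 : p i l = q j := by exact_mod_cast h1
    rw [hpX i l, hqY j] at h2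
    show sT * (p i 0 * X (τ i 0)) * X (τ i l) = Y j
    rw [mul_assoc, h2, ← mul_assoc, hsT2, one_mul]

end Pool.Agent.Helper549.Tri.RealChar
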