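import Mathlib
set_option autoImplicit false
noncomputable section
open Polynomial

namespace Pool.Agent.Helper549.Tri.DvdEq

theorem aux_mult_pow {F : Type*} [Field F] (ξ : F) (p : F[X]) (hp : p ≠ 0) (k : ℕ) :
    rootMultiplicity ξ (p ^ k) = k * rootMultiplicity ξ p := by
  induction k with
  | zero =>
      simp only [pow_zero, zero_mul]
      exact rootMultiplicity_eq_zero (by simp)
  | succ k ih =>
      rw [pow_succ, rootMultiplicity_mul (mul_ne_zero (pow_ne_zero k hp) hp), ih]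
      ring

theorem aux_mult {F : Type*} [Field F] (l : ℕ) [hl : Fact l.Prime] [CharP F l]
    (m n a D : ℕ) (hD : 0 < D) (hD2 : D < l ^ (m + 1) * n)
    (ξ : F) (hξ : IsPrimitiveRoot ξ n) (hn : 0 < n) (hcop : ¬ l ∣ n) :
    (X ^ a * (X ^ D - 1) : F[X]) ≠ 0 ∧ rootMultiplicity ξ (X ^ a * (X ^ D - 1) : F[X]) ≤ l ^ m := by
  have hlp := hl.out
  obtain ⟨j, w, hw, hDw⟩ := Nat.exists_eq_pow_mul_and_not_dvd (Nat.pos_iff_ne_zero.1 hD) l hlp.ne_one
  have hw0 : w ≠ 0 := by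
    rintro rfl
    exact hw (dvd_zero _)
  have hexp : (X ^ D - 1 : F[X]) = (X ^ w - 1) ^ (l ^ j) := by
    have := sub_pow_char_pow (R := F[X]) (p := l) (n := j) (X ^ w) 1
    rw [this, one_pow, ← pow_mul, hDw, mul_comm]
  have hwF : (w : F) ≠ 0 := by
    intro h
    exact hw ((CharP.cast_eq_zero_iff F l w).1 h)
  have hsep : (X ^ w - 1 : F[X]).Separable := X_pow_sub_one_separable_iff.2 hwF
  have hne : (X ^ w - 1 : F[X]) ≠ 0 := hsep.ne_zero
  have hξ0 : ξ ≠ 0 := hξ.ne_zero (Nat.pos_iff_ne_zero.1 hn)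
  have hne2 : (X ^ a * (X ^ D - 1) : F[X]) ≠ 0 := by
    rw [hexp]
    exact mul_ne_zero (pow_ne_zero _ X_ne_zero) (pow_ne_zero _ hne)
  refine ⟨hne2, ?_⟩
  rw [rootMultiplicity_mul hne2]
  have h0 : rootMultiplicity ξ (X ^ a : F[X]) = 0 := by
    apply rootMultiplicity_eq_zero
    simp only [IsRoot.def, eval_pow, eval_X]
    exact pow_ne_zero _ hξ0
  rw [h0, zero_add, hexp, aux_mult_pow ξ _ hne]
  by_cases hr : ξ ^ w = 1
  · have hnw : n ∣ w := hξ.dvd_of_pow_eq_one w hr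
    have hle1 : rootMultiplicity ξ (X ^ w - 1 : F[X]) ≤ 1 := rootMultiplicity_le_one_of_separable hsep ξ
    have hnw' : n ≤ w := Nat.le_of_dvd (Nat.pos_of_ne_zero hw0) hnw
    have h3 : l ^ j * n < l ^ (m + 1) * n := by
      calc l ^ j * n ≤ l ^ j * w := Nat.mul_le_mul_left _ hnw'
        _ = D := hDw.symm
        _ < _ := hD2
    have h4 : l ^ j < l ^ (m + 1) := lt_of_mul_lt_mul_right h3 (Nat.zero_le n)
    have h5 : j < m + 1 := (Nat.pow_lt_pow_iff_right hlp.one_lt).1 h4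
    have h6 : l ^ j ≤ l ^ m := Nat.pow_le_pow_right hlp.pos (Nat.lt_succ_iff.1 h5)
    calc l ^ j * rootMultiplicity ξ (X ^ w - 1 : F[X]) ≤ l ^ j * 1 := Nat.mul_le_mul_left _ hle1
      _ ≤ l ^ m := by rw [mul_one]; exact h6
  · have : rootMultiplicity ξ (X ^ w - 1 : F[X]) = 0 := by
      apply rootMultiplicity_eq_zero
      simp only [IsRoot.def, eval_sub, eval_pow, eval_X, eval_one]
      intro h
      exact hr (sub_eq_zero.1 h)
    rw [this, mul_zero]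
    exact Nat.zero_le _

theorem aux_mult2 {F : Type*} [Field F] (l : ℕ) [hl : Fact l.Prime] [CharP F l]
    (m n E : ℕ) (hE0 : 0 < E) (hE : E < l ^ (m + 1) * n) (hE2 : 2 * E ≠ l ^ (m + 1) * n)
    (ξ : F) (hξ : IsPrimitiveRoot ξ n) (hn : 0 < n) (hcop : ¬ l ∣ n) :
    (X ^ E - X ^ (l ^ (m + 1) * n - E) : F[X]) ≠ 0 ∧
      rootMultiplicity ξ (X ^ E - X ^ (l ^ (m + 1) * n - E) : F[X]) ≤ l ^ m := by
  generalize hN : l ^ (m + 1) * n = N at *
  rcases lt_or_gt_of_ne hE2 with h | h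
  · -- 2E < N
    have hform : (X ^ E - X ^ (N - E) : F[X]) = C (-1) * (X ^ E * (X ^ (N - E - E) - 1)) := by
      have : (X : F[X]) ^ (N - E) = X ^ E * X ^ (N - E - E) := by
        rw [← pow_add]; congr 1; omega
      rw [this]
      simp only [map_neg, map_one]
      ring
    obtain ⟨h1, h2⟩ := aux_mult (F := F) l m n E (N - E - E) (by omega) (by omega) ξ hξ hn hcop
    have hC : (C (-1 : F)) ≠ 0 := by simp
    rw [hform]
    refine ⟨mul_ne_zero hC h1, ?_⟩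
    rw [rootMultiplicity_mul (mul_ne_zero hC h1), rootMultiplicity_C, zero_add]
    exact h2
  · have hform : (X ^ E - X ^ (N - E) : F[X]) = X ^ (N - E) * (X ^ (E - (N - E)) - 1) := by
      have : (X : F[X]) ^ E = X ^ (N - E) * X ^ (E - (N - E)) := by
        rw [← pow_add]; congr 1; omega
      rw [mul_sub, mul_one, ← this]
    obtain ⟨h1, h2⟩ := aux_mult (F := F) l m n (N - E) (E - (N - E)) (by omega) (by omega) ξ hξ hn hcop
    rw [hform]
    exact ⟨h1, h2⟩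

/-- order computation above l in the cyclotomic ring, done with polynomials modulo l -/
theorem dvd_of_eq (l : ℕ) [hl : Fact l.Prime] (h15 : 15 ≤ l) (m n : ℕ) (hn : 0 < n) (hcop : ¬ l ∣ n)
    (ω : ℂ) (hω : IsPrimitiveRoot ω (l ^ (m + 1) * n))
    (Y R : ℤ[X]) (E1 E2 : ℕ)
    (h1 : E1 < l ^ (m + 1) * n) (h1' : 0 < E1) (h1'' : 2 * E1 ≠ l ^ (m + 1) * n)
    (h2 : E2 < l ^ (m + 1) * n) (h2' : 0 < E2) (h2'' : 2 * E2 ≠ l ^ (m + 1) * n)
    (h : aeval ω (Y ^ 2 * (X ^ E1 - X ^ (l ^ (m + 1) * n - E1)) *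
      (X ^ E2 - X ^ (l ^ (m + 1) * n - E2)) - C (l : ℤ) * R) = 0)
    (ξ : AlgebraicClosure (ZMod l)) (hξ : IsPrimitiveRoot ξ n) :
    (X - C ξ) ^ (6 * l ^ m) ∣ Y.map (algebraMap ℤ (AlgebraicClosure (ZMod l))) := by
  have hlp := hl.out
  have hN0 : 0 < l ^ (m + 1) * n := Nat.mul_pos (pow_pos hlp.pos _) hn
  haveI : CharP (AlgebraicClosure (ZMod l)) l := charP_of_injective_algebraMap
    (algebraMap (ZMod l) (AlgebraicClosure (ZMod l))).injective l
  set φ := algebraMap ℤ (AlgebraicClosure (ZMod l)) with hφ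
  set G : ℤ[X] := (Y ^ 2 * (X ^ E1 - X ^ (l ^ (m + 1) * n - E1)) *
      (X ^ E2 - X ^ (l ^ (m + 1) * n - E2)) - C (l : ℤ) * R) with hG
  have hdvd : cyclotomic (l ^ (m + 1) * n) ℤ ∣ G := by
    rw [cyclotomic_eq_minpoly hω hN0]
    exact minpoly.isIntegrallyClosed_dvd (hω.isIntegral hN0) h
  have hdvd2 := Polynomial.map_dvd φ hdvd
  rw [map_cyclotomic, cyclotomic_mul_prime_pow_eq _ hcop (Nat.succ_pos m)] at hdvd2
  have hcl : φ (l : ℤ) = 0 := by
    simp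
  have hGm : G.map φ = (Y.map φ) ^ 2 * (X ^ E1 - X ^ (l ^ (m + 1) * n - E1)) *
      (X ^ E2 - X ^ (l ^ (m + 1) * n - E2)) := by
    rw [hG]
    simp only [Polynomial.map_sub, Polynomial.map_mul, Polynomial.map_pow, Polynomial.map_X,
      Polynomial.map_C, hcl, C_0, zero_mul, sub_zero]
  rw [hGm] at hdvd2
  have hroot : (X - C ξ) ∣ cyclotomic n (AlgebraicClosure (ZMod l)) :=
    dvd_iff_isRoot.2 (hξ.isRoot_cyclotomic hn)
  have hdvd3 := (pow_dvd_pow_of_dvd hroot (l ^ (m + 1) - l ^ (m + 1 - 1))).trans hdvd2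
  by_cases hY : Y.map φ = 0
  · rw [hY]; exact dvd_zero _
  obtain ⟨hs1, hs1'⟩ := aux_mult2 (F := AlgebraicClosure (ZMod l)) l m n E1 h1' h1 h1'' ξ hξ hn hcop
  obtain ⟨hs2, hs2'⟩ := aux_mult2 (F := AlgebraicClosure (ZMod l)) l m n E2 h2' h2 h2'' ξ hξ hn hcop
  have hne : (Y.map φ) ^ 2 * (X ^ E1 - X ^ (l ^ (m + 1) * n - E1)) *
      (X ^ E2 - X ^ (l ^ (m + 1) * n - E2)) ≠ 0 :=
    mul_ne_zero (mul_ne_zero (pow_ne_zero _ hY) hs1) hs2
  have hle := (le_rootMultiplicity_iff hne).2 hdvd3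
  rw [rootMultiplicity_mul hne, rootMultiplicity_mul (mul_ne_zero (pow_ne_zero _ hY) hs1),
    aux_mult_pow ξ _ hY] at hle
  have hpow : l ^ (m + 1) = l * l ^ m := by ring
  have hge : 15 * l ^ m ≤ l ^ (m + 1) := by
    rw [hpow]; exact Nat.mul_le_mul_right _ h15
  rw [Nat.add_sub_cancel] at hle
  rw [← le_rootMultiplicity_iff hY]
  omega

end Pool.Agent.Helper549.Tri.DvdEq
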