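import Mathlib
import Pool.Agent.Helper549.Tri.DataDef
set_option autoImplicit false
noncomputable section
open scoped BigOperators

namespace Pool.Agent.Helper549.Tri

theorem perm_area_aux (u v : Fin 3 → ℝ) (h : ∀ j k, u j * v k = u k * v j)
    (i j k : Fin 3) (hij : i ≠ j) (hjk : j ≠ k) (hik : i ≠ k) :
    u i * u j * v k = u 0 * u 1 * v 2 := by
  have h01 : ∀ i : Fin 3, i = 0 ∨ i = 1 ∨ i = 2 := by decide
  rcases h01 i with rfl | rfl | rfl <;> rcases h01 j with rfl | rfl | rfl <;>
    rcases h01 k with rfl | rfl | rfl <;>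
    first
    | exact absurd rfl hij
    | exact absurd rfl hjk
    | exact absurd rfl hik
    | ring1
    | linear_combination u 0 * h 2 1
    | linear_combination u 1 * h 2 0

/-- TARGET 1 -/
theorem Data.perm_types {N : ℕ} {ℓ θ S A : Fin 3 → ℝ} {κ β : Fin 3 → Fin 3 → ℕ}
    (h : Data N ℓ θ S A κ β) (σ : Equiv.Perm (Fin 3)) :
    Data N (fun k => ℓ (σ k)) (fun k => θ (σ k)) S A (fun j k => κ j (σ k))
      (fun j k => β j (σ k)) where
  lpos := fun k => h.lpos (σ k)
  Spos := h.Spos
  tpos := fun k => h.tpos (σ k)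
  tsum := by
    have h1 := Equiv.sum_comp σ θ
    rw [Fin.sum_univ_three, Fin.sum_univ_three, h.tsum] at h1
    exact h1
  Apos := h.Apos
  Asum := h.Asum
  irr := by
    intro hcon
    apply h.irr
    intro k
    obtain ⟨q, hq⟩ := hcon (σ.symm k)
    rw [Equiv.apply_symm_apply] at hq
    exact ⟨q, hq⟩
  sinet := fun j k => h.sinet (σ j) (σ k)
  sineT := h.sineT
  area := by
    have h1 := perm_area_aux ℓ (fun k => Real.sin (θ k)) (fun j k => h.sinet j k)
      (σ 0) (σ 1) (σ 2) (σ.injective.ne (by decide)) (σ.injective.ne (by decide))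
      (σ.injective.ne (by decide))
    rw [h1]
    exact h.area
  angles := by
    intro j
    rw [h.angles j]
    exact (Equiv.sum_comp σ (fun k => (κ j k : ℝ) * θ k)).symm
  kpos := by
    intro j
    obtain ⟨k, hk⟩ := h.kpos j
    exact ⟨σ.symm k, by rw [Equiv.apply_symm_apply]; exact hk⟩
  side := by
    intro j
    rw [h.side j]
    exact (Equiv.sum_comp σ (fun k => (β j k : ℝ) * ℓ k)).symm
  count := by
    refine le_trans (le_of_eq ?_) h.count
    exact Finset.sum_congr rfl fun j _ => Equiv.sum_comp σ (fun k => β j k)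
  corner := by
    intro j k hjk
    obtain ⟨x, y, hxy, hx, hy⟩ := h.corner j k hjk
    refine ⟨σ.symm x, σ.symm y, σ.symm.injective.ne hxy, ?_, ?_⟩
    · rw [Equiv.apply_symm_apply]; exact hx
    · rw [Equiv.apply_symm_apply]; exact hy
  char := by
    intro X hX h1 h2 h3
    have e0 : ∀ f : Fin 3 → ℕ, ∏ k, X (σ.symm k) ^ f k = ∏ k, X k ^ f (σ k) := by
      intro f
      have := Equiv.prod_comp σ (fun k => X (σ.symm k) ^ f k)
      simp only [Equiv.symm_apply_apply] at this
      exact this.symm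
    have e1 : ∑ k, ((X (σ.symm k) : ℤ) : ℝ) * ℓ k = ∑ k, (X k : ℝ) * ℓ (σ k) := by
      have := Equiv.sum_comp σ (fun k => ((X (σ.symm k) : ℤ) : ℝ) * ℓ k)
      simp only [Equiv.symm_apply_apply] at this
      exact this.symm
    obtain ⟨M, hM1, hM2, hM3, hM4⟩ := h.char (fun k => X (σ.symm k)) (fun k => hX _) (by
        have h4 := Equiv.prod_comp σ.symm X
        rw [Fin.prod_univ_three, Fin.prod_univ_three, h1] at h4
        exact h4) (by
        obtain ⟨k, hk⟩ := h2
        exact ⟨σ k, hk⟩) (by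
        rw [e0]
        exact h3)
    refine ⟨M, hM1, hM2, ?_, ?_⟩
    · simp only [e0] at hM3
      rw [e1] at hM3
      exact hM3
    · intro hM j k hjk
      have h5 := hM4 hM j (σ k) hjk
      simp only [Equiv.symm_apply_apply] at h5
      rw [h5, e0]

/-- TARGET 2 -/
theorem Data.perm_corners {N : ℕ} {ℓ θ S A : Fin 3 → ℝ} {κ β : Fin 3 → Fin 3 → ℕ}
    (h : Data N ℓ θ S A κ β) (π : Equiv.Perm (Fin 3)) :
    Data N ℓ θ (fun j => S (π j)) (fun j => A (π j)) (fun j => κ (π j)) (fun j => β (π j)) where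
  lpos := h.lpos
  Spos := fun k => h.Spos (π k)
  tpos := h.tpos
  tsum := h.tsum
  Apos := fun k => h.Apos (π k)
  Asum := by
    have h1 := Equiv.sum_comp π A
    rw [Fin.sum_univ_three, Fin.sum_univ_three, h.Asum] at h1
    exact h1
  irr := h.irr
  sinet := h.sinet
  sineT := fun j k => h.sineT (π j) (π k)
  area := by
    have h1 := perm_area_aux S (fun k => Real.sin (A k)) (fun j k => h.sineT j k)
      (π 0) (π 1) (π 2) (π.injective.ne (by decide)) (π.injective.ne (by decide))
      (π.injective.ne (by decide))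
    rw [h1]
    exact h.area
  angles := fun j => h.angles (π j)
  kpos := fun j => h.kpos (π j)
  side := fun j => h.side (π j)
  count := by
    refine le_trans (le_of_eq ?_) h.count
    exact Equiv.sum_comp π (fun j => ∑ k, β j k)
  corner := by
    intro j k hjk
    exact h.corner (π j) (π k) (π.injective.ne hjk)
  char := by
    intro X hX h1 h2 h3
    have e0 : ∀ k, ∑ j, κ (π j) k = ∑ j, κ j k := fun k => Equiv.sum_comp π (fun j => κ j k)
    simp only [e0] at h2 h3
    obtain ⟨M, hM1, hM2, hM3, hM4⟩ := h.char X hX h1 h2 h3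
    refine ⟨M, hM1, hM2, ?_, ?_⟩
    · rw [← hM3]
      exact Equiv.sum_comp π (fun j => ((∏ k, X k ^ κ j k : ℤ) : ℝ) * S j)
    · intro hM j k hjk
      exact hM4 hM (π j) k hjk

end Pool.Agent.Helper549.Tri
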