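import Mathlib
import Pool.Agent.Helper549.Tri.DataDef
set_option autoImplicit false
noncomputable section
open scoped BigOperators

namespace Pool.Agent.Helper549.Tri.ShapeE7p

theorem core7534 {N : ℕ} (h5 : 5 < N) {a b c s : ℝ} (hc : 0 < c)
    (h1 : s = a - b + c) (h2 : 3 * s = N * (-a + b + c)) (h3 : s ^ 2 = N * a * b) (q w : ℕ)
    (h4 : s = q * b + w * c) : False := by
  have hN : (5 : ℝ) < N := by exact_mod_cast h5
  have e1 : ((N : ℝ) + 3) * (a - b) = (N - 3) * c := by
    rw [h1] at h2; linear_combination h2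
  have e2 : ((N : ℝ) + 3) * s = 2 * N * c := by
    rw [h1]; linear_combination e1
  have e3 : ((N : ℝ) + 3) ^ 2 * (a * b) = 4 * N * c ^ 2 := by
    have hN0 : (N : ℝ) ≠ 0 := by positivity
    apply mul_left_cancel₀ hN0
    have : (N : ℝ) * (((N : ℝ) + 3) ^ 2 * (a * b)) = (((N : ℝ) + 3) * s) ^ 2 := by
      rw [mul_pow, h3]; ring
    rw [this, e2]; ring
  have e4 : (((N : ℝ) + 3) * (a + b)) ^ 2 = ((N : ℝ) + 1) * (N + 9) * c ^ 2 := by
    have : (((N : ℝ) + 3) * (a + b)) ^ 2 = (((N : ℝ) + 3) * (a - b)) ^ 2 +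
      4 * (((N : ℝ) + 3) ^ 2 * (a * b)) := by ring
    rw [this, e1, e3]; ring
  have e5 : (q : ℝ) * (((N : ℝ) + 3) * (a + b)) =
      ((4 * N + q * (N - 3) - 2 * (N + 3) * w : ℤ) : ℝ) * c := by
    have h6 : 2 * (((N : ℝ) + 3) * s) = 2 * ((N : ℝ) + 3) * (q * b + w * c) := by rw [h4]; ring
    rw [e2] at h6
    push_cast
    linear_combination (-1 : ℝ) * h6 + (q : ℝ) * e1
  set z : ℤ := 4 * N + q * (N - 3) - 2 * (N + 3) * w with hz
  have e6 : (q : ℝ) ^ 2 * (((N : ℝ) + 1) * (N + 9)) = (z : ℝ) ^ 2 := by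
    have hc2 : c ^ 2 ≠ 0 := by positivity
    apply mul_right_cancel₀ hc2
    have : (z : ℝ) ^ 2 * c ^ 2 = ((z : ℝ) * c) ^ 2 := by ring
    rw [this, ← e5, mul_pow, e4]; ring
  have e7 : (q : ℤ) ^ 2 * (((N : ℤ) + 1) * (N + 9)) = z ^ 2 := by exact_mod_cast e6
  rcases Nat.eq_zero_or_pos q with hq | hq
  · rw [hq] at e7
    have hz0 : z = 0 := by
      have : z ^ 2 = 0 := by rw [← e7]; simp
      exact pow_eq_zero_iff (two_ne_zero) |>.mp this
    rw [hz, hq] at hz0
    have h8 : 2 * (N : ℤ) = (N + 3) * w := by push_cast at hz0; linarith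
    have h9 : 2 * N = (N + 3) * w := by exact_mod_cast h8
    rcases w with _ | _ | w
    · omega
    · omega
    · have : (N + 3) * 2 ≤ (N + 3) * (w + 1 + 1) := Nat.mul_le_mul_left _ (by omega)
      omega
  · have hdvd : (q : ℤ) ^ 2 ∣ z ^ 2 := ⟨_, e7.symm⟩
    have hqz : (q : ℤ) ∣ z := (Int.pow_dvd_pow_iff two_ne_zero).mp hdvd
    obtain ⟨y, hy⟩ := hqz
    rw [hy, mul_pow] at e7
    have hq0 : (q : ℤ) ^ 2 ≠ 0 := by positivity
    have e8 := mul_left_cancel₀ hq0 e7
    have e9 : ((y.natAbs : ℤ)) ^ 2 = ((N : ℤ) + 1) * (N + 9) := by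
      rw [Int.natAbs_sq, e8]
    have e10 : (y.natAbs) ^ 2 = (N + 1) * (N + 9) := by exact_mod_cast e9
    have l1 : N + 4 < y.natAbs := by
      by_contra hn
      push Not at hn
      have h10 := Nat.pow_le_pow_left hn 2
      rw [e10] at h10
      nlinarith
    have l2 : y.natAbs < N + 5 := by
      by_contra hn
      push Not at hn
      have h10 := Nat.pow_le_pow_left hn 2
      rw [e10] at h10
      nlinarith
    omega

/-- TARGET: this corner pattern is impossible for a prime number N > 5 of tiles -/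
theorem shapeE7_prime {N : ℕ} (hN : N.Prime) (h5 : 5 < N) {ℓ θ S A : Fin 3 → ℝ}
    {β : Fin 3 → Fin 3 → ℕ} (h : Data N ℓ θ S A ![![1,1,0],![1,1,0],![1,1,0]] β) : False := by
  have hA0 : A 0 = θ 0 + θ 1 := by have := h.angles 0; simpa [Fin.sum_univ_three] using this
  have hA1 : A 1 = θ 0 + θ 1 := by have := h.angles 1; simpa [Fin.sum_univ_three] using this
  have hA2 : A 2 = θ 0 + θ 1 := by have := h.angles 2; simpa [Fin.sum_univ_three] using this
  have hAs := h.Asum
  have hts := h.tsum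
  have hth : θ 0 + θ 1 = Real.pi / 3 := by linarith
  have hA0' : A 0 = Real.pi / 3 := by linarith
  have hA1' : A 1 = Real.pi / 3 := by linarith
  have hA2' : A 2 = Real.pi / 3 := by linarith
  have hs3 : 0 < Real.sin (Real.pi / 3) := Real.sin_pos_of_pos_of_lt_pi (by positivity) (by
    have := Real.pi_pos; linarith)
  have hS01 : S 0 = S 1 := by
    have := h.sineT 0 1
    rw [hA0', hA1'] at this
    exact mul_right_cancel₀ hs3.ne' this
  have hS02 : S 0 = S 2 := by
    have := h.sineT 0 2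
    rw [hA0', hA2'] at this
    exact mul_right_cancel₀ hs3.ne' this
  have hθ2 : Real.sin (θ 2) = Real.sin (θ 0 + θ 1) := by
    have : θ 2 = Real.pi - (θ 0 + θ 1) := by linarith
    rw [this, Real.sin_pi_sub]
  have ha := h.lpos 0
  have hb := h.lpos 1
  have hc := h.lpos 2
  set a := ℓ 0 with ha_def
  set b := ℓ 1 with hb_def
  set c := ℓ 2 with hc_def
  set s := S 0 with hs_def
  have hspos : 0 < s := h.Spos 0
  have harea : s ^ 2 = N * a * b := by
    have h1 := h.area
    rw [hθ2, hth, hA2', ← hS01] at h1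
    have h2 : ((N : ℝ) * a * b) * Real.sin (Real.pi / 3) = s ^ 2 * Real.sin (Real.pi / 3) := by
      linear_combination h1
    exact (mul_right_cancel₀ hs3.ne' h2).symm
  -- law of cosines
  have hsθ2 : 0 < Real.sin (θ 2) := by rw [hθ2, hth]; exact hs3
  have hsin0 : c * Real.sin (θ 0) = a * Real.sin (θ 2) := (h.sinet 2 0)
  have hsin1 : c * Real.sin (θ 1) = b * Real.sin (θ 2) := (h.sinet 2 1)
  have hcos : c ^ 2 = a ^ 2 + a * b + b ^ 2 := by
    have hid : Real.sin (θ 0 + θ 1) ^ 2 = Real.sin (θ 0) ^ 2 + Real.sin (θ 1) ^ 2 +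
        2 * Real.sin (θ 0) * Real.sin (θ 1) * Real.cos (θ 0 + θ 1) := by
      rw [Real.sin_add, Real.cos_add]
      have p0 := Real.sin_sq_add_cos_sq (θ 0)
      have p1 := Real.sin_sq_add_cos_sq (θ 1)
      have q0 : Real.cos (θ 0) ^ 2 = 1 - Real.sin (θ 0) ^ 2 := by linarith
      have q1 : Real.cos (θ 1) ^ 2 = 1 - Real.sin (θ 1) ^ 2 := by linarith
      linear_combination (Real.sin (θ 0)) ^ 2 * q1 + (Real.sin (θ 1)) ^ 2 * q0
    rw [← hθ2, hth, Real.cos_pi_div_three] at hid
    have h1 : (c ^ 2) * Real.sin (θ 2) ^ 2 = (a ^ 2 + a * b + b ^ 2) * Real.sin (θ 2) ^ 2 := by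
      have e1 : c ^ 2 * Real.sin (θ 2) ^ 2 = (c * Real.sin (θ 0)) ^ 2 + (c * Real.sin (θ 1)) ^ 2 +
          (c * Real.sin (θ 0)) * (c * Real.sin (θ 1)) := by
        rw [hid]; ring
      rw [e1, hsin0, hsin1]; ring
    exact mul_right_cancel₀ (by positivity) h1
  have hc1 : a - b < c := by nlinarith
  have hc2 : b - a < c := by nlinarith
  -- characters
  obtain ⟨M1, hM1, hp1, hr1, hb1⟩ := h.char ![1, -1, 1] (by decide) (by decide) ⟨2, by decide⟩ (by decide)
  obtain ⟨M2, hM2, hp2, hr2, hb2⟩ := h.char ![-1, 1, 1] (by decide) (by decide) ⟨2, by decide⟩ (by decide)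
  simp [Fin.sum_univ_three, Fin.prod_univ_three] at hr1 hr2
  rw [← hS01, ← hS02] at hr1 hr2
  have r1 : 3 * s = (-M1 : ℝ) * (a - b + c) := by
    linear_combination (-1 : ℝ) * hr1
  have r2 : 3 * s = (-M2 : ℝ) * (-a + b + c) := by
    linear_combination (-1 : ℝ) * hr2
  have p1 : (0 : ℝ) < -M1 := by
    by_contra hn
    push Not at hn
    nlinarith [mul_nonneg (neg_nonneg.mpr hn) (by linarith : (0:ℝ) ≤ a - b + c)]
  have p2 : (0 : ℝ) < -M2 := by
    by_contra hn
    push Not at hn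
    nlinarith [mul_nonneg (neg_nonneg.mpr hn) (by linarith : (0:ℝ) ≤ -a + b + c)]
  have p1' : 0 < -M1 := by exact_mod_cast p1
  have p2' : 0 < -M2 := by exact_mod_cast p2
  obtain ⟨m, hm⟩ : ∃ m : ℕ, (m : ℤ) = -M1 := ⟨(-M1).toNat, Int.toNat_of_nonneg p1'.le⟩
  obtain ⟨n, hn⟩ : ∃ n : ℕ, (n : ℤ) = -M2 := ⟨(-M2).toNat, Int.toNat_of_nonneg p2'.le⟩
  have hmR : (m : ℝ) = -M1 := by exact_mod_cast hm
  have hnR : (n : ℝ) = -M2 := by exact_mod_cast hn
  rw [← hmR] at r1
  rw [← hnR] at r2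
  have hmN : m ≤ N := by
    have := neg_le_abs M1
    have h2 : (m : ℤ) ≤ N := by rw [hm]; exact this.trans hM1
    exact_mod_cast h2
  have hnN : n ≤ N := by
    have := neg_le_abs M2
    have h2 : (n : ℤ) ≤ N := by rw [hn]; exact this.trans hM2
    exact_mod_cast h2
  have hmpos : 0 < m := by
    have : (0 : ℤ) < m := by rw [hm]; exact p1'
    exact_mod_cast this
  have hnpos : 0 < n := by
    have : (0 : ℤ) < n := by rw [hn]; exact p2'
    exact_mod_cast this
  have hmn : m * n = 3 * N := by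
    have h1 : ((m : ℝ) * n) * (3 * (a * b)) = (3 * N) * (3 * (a * b)) := by
      have e1 : 9 * s ^ 2 = (m : ℝ) * n * ((a - b + c) * (-a + b + c)) := by
        have : 9 * s ^ 2 = (3 * s) * (3 * s) := by ring
        rw [this]
        nth_rewrite 1 [r1]
        rw [r2]; ring
      have e2 : (a - b + c) * (-a + b + c) = 3 * (a * b) := by
        linear_combination hcos
      rw [e2, harea] at e1
      linear_combination (-1 : ℝ) * e1
    have h2 := mul_right_cancel₀ (by positivity) h1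
    exact_mod_cast h2
  have hdvd : N ∣ m * n := ⟨3, by rw [hmn]; ring⟩
  have hj : ∀ j, S j = β j 0 * a + β j 1 * b + β j 2 * c := by
    intro j
    have := h.side j
    rw [Fin.sum_univ_three] at this
    exact this
  rcases (Nat.Prime.dvd_mul hN).mp hdvd with hd | hd
  · have hmN' : m = N := le_antisymm hmN (Nat.le_of_dvd hmpos hd)
    have hn3 : n = 3 := by
      rw [hmN'] at hmn
      have : N * n = N * 3 := by rw [hmn]; ring
      exact Nat.eq_of_mul_eq_mul_left hN.pos this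
    have hM1' : M1 = -N := by rw [← hmN']; linarith
    have hβ : β 0 1 = 0 := by
      by_contra hne
      have h1 := hb1 (by rw [hM1']; simp) 0 1 (Nat.pos_of_ne_zero hne)
      rw [hM1'] at h1
      simp [Fin.prod_univ_three] at h1
      have hNpos := hN.pos
      omega
    have hs0 := hj 0
    rw [hβ] at hs0
    rw [hmN'] at r1
    rw [hn3] at r2
    refine core7534 h5 (a := b) (b := a) (c := c) (s := s) hc ?_ ?_ ?_ (β 0 0) (β 0 2) ?_
    · push_cast at r2; linarith
    · rw [r1]; ring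
    · rw [harea]; ring
    · rw [hs_def, hs0]; simp
  · have hnN' : n = N := le_antisymm hnN (Nat.le_of_dvd hnpos hd)
    have hm3 : m = 3 := by
      rw [hnN'] at hmn
      have : N * m = N * 3 := by rw [mul_comm, hmn]; ring
      exact Nat.eq_of_mul_eq_mul_left hN.pos this
    have hM2' : M2 = -N := by rw [← hnN']; linarith
    have hβ : β 0 0 = 0 := by
      by_contra hne
      have h1 := hb2 (by rw [hM2']; simp) 0 0 (Nat.pos_of_ne_zero hne)
      rw [hM2'] at h1
      simp [Fin.prod_univ_three] at h1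
      have hNpos := hN.pos
      omega
    have hs0 := hj 0
    rw [hβ] at hs0
    rw [hnN'] at r2
    rw [hm3] at r1
    refine core7534 h5 (a := a) (b := b) (c := c) (s := s) hc ?_ ?_ ?_ (β 0 1) (β 0 2) ?_
    · push_cast at r1; linarith
    · rw [r2]
    · rw [harea]
    · rw [hs_def, hs0]; simp

end Pool.Agent.Helper549.Tri.ShapeE7p
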