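import Mathlib
import Pool.Agent.Helper549.Tri.DataDef
set_option autoImplicit false
noncomputable section
open scoped BigOperators

namespace Pool.Agent.Helper549.Tri.ShapeFp

theorem not_sq_aux (N t : ℤ) (hN : 11 ≤ N) (h : (N - 1) * (N - 9) = t ^ 2) : False := by
  have h1 : |t| ^ 2 = (N - 5) ^ 2 - 16 := by rw [sq_abs, ← h]; ring
  have h0 : 0 ≤ |t| := abs_nonneg t
  rcases lt_trichotomy (|t|) (N - 6) with h2 | h2 | h2
  · have h3 : |t| ≤ N - 7 := by omega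
    nlinarith
  · rw [h2] at h1
    have : 2 * N - 11 = 16 := by nlinarith
    omega
  · have h3 : N - 5 ≤ |t| := by omega
    nlinarith

theorem not_sq_aux2 (N p q : ℤ) (hN : 11 ≤ N)
    (h : (p - q) ^ 2 * ((N - 1) * (N - 9)) = (4 * N - (p + q) * (N + 3)) ^ 2) : p = q := by
  by_contra hne
  have hpq : p - q ≠ 0 := sub_ne_zero.2 hne
  have hd : (p - q) ^ 2 ∣ (4 * N - (p + q) * (N + 3)) ^ 2 := ⟨_, h.symm⟩
  rw [Int.pow_dvd_pow_iff (by norm_num)] at hd
  obtain ⟨t, ht⟩ := hd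
  rw [ht, mul_pow] at h
  have h2 := mul_left_cancel₀ (pow_ne_zero 2 hpq) h
  exact not_sq_aux N t hN h2

theorem law_cos {a b c x y z : ℝ} (hx : 0 < Real.sin z) (hxyz : x + y + z = Real.pi)
    (h1 : a * Real.sin z = c * Real.sin x) (h2 : b * Real.sin z = c * Real.sin y) :
    c ^ 2 = a ^ 2 + b ^ 2 - 2 * a * b * Real.cos z := by
  have hz : z = Real.pi - (x + y) := by linarith
  have hs : Real.sin z = Real.sin x * Real.cos y + Real.cos x * Real.sin y := by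
    rw [hz, Real.sin_pi_sub, Real.sin_add]
  have hc : Real.cos z = -(Real.cos x * Real.cos y - Real.sin x * Real.sin y) := by
    rw [hz, Real.cos_pi_sub, Real.cos_add]
  have e : Real.sin z ^ 2 = Real.sin x ^ 2 + Real.sin y ^ 2 - 2 * Real.sin x * Real.sin y * Real.cos z := by
    rw [hs, hc]
    have e1 := Real.sin_sq_add_cos_sq x
    have e2 := Real.sin_sq_add_cos_sq y
    have e3 : Real.cos x ^ 2 = 1 - Real.sin x ^ 2 := by linarith
    have e4 : Real.cos y ^ 2 = 1 - Real.sin y ^ 2 := by linarith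
    linear_combination (Real.sin x ^ 2) * e4 + (Real.sin y ^ 2) * e3
  have h3 : Real.sin z ^ 2 * c ^ 2 = Real.sin z ^ 2 * (a ^ 2 + b ^ 2 - 2 * a * b * Real.cos z) := by
    calc Real.sin z ^ 2 * c ^ 2 = (Real.sin x ^ 2 + Real.sin y ^ 2 - 2 * Real.sin x * Real.sin y * Real.cos z) * c ^ 2 := by rw [e]
      _ = (c * Real.sin x) ^ 2 + (c * Real.sin y) ^ 2 - 2 * (c * Real.sin x) * (c * Real.sin y) * Real.cos z := by ring
      _ = (a * Real.sin z) ^ 2 + (b * Real.sin z) ^ 2 - 2 * (a * Real.sin z) * (b * Real.sin z) * Real.cos z := by rw [h1, h2]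
      _ = _ := by ring
  exact mul_left_cancel₀ (pow_ne_zero 2 hx.ne') h3

/-- TARGET: this corner pattern is impossible for a prime number N > 5 of tiles -/
theorem shapeF_prime {N : ℕ} (hN : N.Prime) (h5 : 5 < N) {ℓ θ S A : Fin 3 → ℝ}
    {β : Fin 3 → Fin 3 → ℕ} (h : Data N ℓ θ S A ![![0,0,1],![0,0,1],![0,0,1]] β) : False := by
  have ha := h.lpos 0
  have hb := h.lpos 1
  have hc := h.lpos 2
  have hA0 : A 0 = θ 2 := by
    have := h.angles 0
    simpa [Fin.sum_univ_three] using this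
  have hA1 : A 1 = θ 2 := by
    have := h.angles 1
    simpa [Fin.sum_univ_three] using this
  have hA2 : A 2 = θ 2 := by
    have := h.angles 2
    simpa [Fin.sum_univ_three] using this
  have hθ : θ 2 = Real.pi / 3 := by
    have := h.Asum
    rw [hA0, hA1, hA2] at this
    linarith
  have hsin : 0 < Real.sin (θ 2) := by
    apply Real.sin_pos_of_pos_of_lt_pi (h.tpos 2)
    rw [hθ]
    linarith [Real.pi_pos]
  have hS1 : S 1 = S 0 := by
    have := h.sineT 1 0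
    rw [hA0, hA1] at this
    exact mul_right_cancel₀ hsin.ne' this
  have hS2 : S 2 = S 0 := by
    have := h.sineT 2 0
    rw [hA0, hA2] at this
    exact mul_right_cancel₀ hsin.ne' this
  have hs := h.Spos 0
  have hcos : ℓ 2 ^ 2 = ℓ 0 ^ 2 + ℓ 1 ^ 2 - ℓ 0 * ℓ 1 := by
    have := law_cos hsin h.tsum (h.sinet 0 2) (h.sinet 1 2)
    rw [this, hθ, Real.cos_pi_div_three]
    ring
  have harea : S 0 ^ 2 = N * (ℓ 0 * ℓ 1) := by
    have := h.area
    rw [hA2, hS1] at this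
    have h2 : Real.sin (θ 2) * (N * (ℓ 0 * ℓ 1)) = Real.sin (θ 2) * (S 0 ^ 2) := by
      linear_combination this
    exact (mul_left_cancel₀ hsin.ne' h2).symm
  obtain ⟨M1, hM1, -, hM1e, hM1b⟩ := h.char ![1, 1, -1] (by intro k; fin_cases k <;> simp) (by simp)
    ⟨0, by simp [Fin.sum_univ_three]⟩ (by simp [Fin.sum_univ_three, Fin.prod_univ_three])
  obtain ⟨M2, hM2, -, hM2e, -⟩ := h.char ![-1, -1, -1] (by intro k; fin_cases k <;> simp) (by simp)
    ⟨0, by simp [Fin.sum_univ_three]⟩ (by simp [Fin.sum_univ_three, Fin.prod_univ_three])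
  simp [Fin.sum_univ_three, Fin.prod_univ_three] at hM1e hM2e
  rw [hS1, hS2] at hM1e hM2e
  have hlt : ℓ 2 < ℓ 0 + ℓ 1 := by
    apply lt_of_pow_lt_pow_left₀ 2 (by positivity)
    rw [hcos]
    nlinarith [mul_pos ha hb]
  have hM1neg : (M1 : ℝ) < 0 := by
    by_contra hcon
    push Not at hcon
    have : 0 ≤ (M1 : ℝ) * (ℓ 0 + ℓ 1 + -ℓ 2) := mul_nonneg hcon (by linarith)
    linarith
  have hM2pos : (0 : ℝ) < M2 := by
    by_contra hcon
    push Not at hcon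
    have : 0 ≤ (M2 : ℝ) * (-ℓ 0 + -ℓ 1 + -ℓ 2) := mul_nonneg_of_nonpos_of_nonpos hcon (by linarith)
    linarith
  have hM1neg' : M1 < 0 := by exact_mod_cast hM1neg
  have hM2pos' : 0 < M2 := by exact_mod_cast hM2pos
  obtain ⟨m, hm⟩ : ∃ m : ℕ, M1 = -(m : ℤ) := ⟨(-M1).toNat, by omega⟩
  obtain ⟨n, hn⟩ : ∃ n : ℕ, M2 = (n : ℤ) := ⟨M2.toNat, by omega⟩
  have hmN : m ≤ N := by
    rw [hm, abs_neg, abs_of_nonneg (by positivity)] at hM1
    exact_mod_cast hM1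
  have hnN : n ≤ N := by
    rw [hn, abs_of_nonneg (by positivity)] at hM2
    exact_mod_cast hM2
  have hm0 : 0 < m := by omega
  have hn0 : 0 < n := by omega
  have e1 : 3 * S 0 = m * (ℓ 0 + ℓ 1 - ℓ 2) := by
    rw [hm] at hM1e
    push_cast at hM1e
    linarith
  have e2 : 3 * S 0 = n * (ℓ 0 + ℓ 1 + ℓ 2) := by
    rw [hn] at hM2e
    push_cast at hM2e
    linarith
  have hmn : m * n = 3 * N := by
    have hab : (3 * (ℓ 0 * ℓ 1)) ≠ 0 := by positivity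
    have : (3 * (ℓ 0 * ℓ 1)) * ((m : ℝ) * n) = (3 * (ℓ 0 * ℓ 1)) * (3 * N) := by
      calc (3 * (ℓ 0 * ℓ 1)) * ((m : ℝ) * n)
          = ((ℓ 0 + ℓ 1) ^ 2 - ℓ 2 ^ 2) * (m * n) := by rw [hcos]; ring
        _ = (m * (ℓ 0 + ℓ 1 - ℓ 2)) * (n * (ℓ 0 + ℓ 1 + ℓ 2)) := by ring
        _ = (3 * S 0) * (3 * S 0) := by rw [← e1, ← e2]
        _ = 9 * S 0 ^ 2 := by ring
        _ = _ := by rw [harea]; ring
    have := mul_left_cancel₀ hab this
    exact_mod_cast this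
  have hdvd : N ∣ m * n := ⟨3, by rw [hmn]; ring⟩
  have hN0 : (0:ℝ) < N := by exact_mod_cast hN.pos
  rcases (Nat.Prime.dvd_mul hN).1 hdvd with hd | hd
  · have hmN' : m = N := le_antisymm hmN (Nat.le_of_dvd hm0 hd)
    have hn3 : n = 3 := by
      rw [hmN', mul_comm 3 N] at hmn
      exact Nat.eq_of_mul_eq_mul_left hN.pos hmn
    subst hmN'
    subst hn3
    have hb2 : β 0 2 = 0 := by
      by_contra hne
      have h1 := hM1b (by rw [hm, abs_neg, abs_of_nonneg (by positivity)]) 0 2 (Nat.pos_of_ne_zero hne)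
      simp [Fin.prod_univ_three, hm] at h1
      omega
    have hside := h.side 0
    rw [Fin.sum_univ_three, hb2] at hside
    push_cast at e2
    have e3 : ((m:ℝ) + 3) * ℓ 2 = (m - 3) * (ℓ 0 + ℓ 1) := by linarith
    have e4 : ((m:ℝ) + 3) * S 0 = 2 * m * (ℓ 0 + ℓ 1) := by
      linear_combination (((m:ℝ) + 3) / 3) * e2 + e3
    have hm3 : (0:ℝ) < (m:ℝ) + 3 := by positivity
    have e5 : ((m:ℝ) + 3) ^ 2 * (ℓ 0 * ℓ 1) = 4 * m * (ℓ 0 + ℓ 1) ^ 2 := by
      have : (m:ℝ) * (((m:ℝ) + 3) ^ 2 * (ℓ 0 * ℓ 1)) = m * (4 * m * (ℓ 0 + ℓ 1) ^ 2) := by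
        calc (m:ℝ) * (((m:ℝ) + 3) ^ 2 * (ℓ 0 * ℓ 1)) = ((m:ℝ) + 3) ^ 2 * (m * (ℓ 0 * ℓ 1)) := by ring
          _ = (((m:ℝ) + 3) * S 0) ^ 2 := by rw [← harea]; ring
          _ = _ := by rw [e4]; ring
      exact mul_left_cancel₀ hN0.ne' this
    have e6 : ((m:ℝ) + 3) ^ 2 * (ℓ 0 - ℓ 1) ^ 2 = (ℓ 0 + ℓ 1) ^ 2 * ((m - 1) * (m - 9)) := by
      linear_combination (-4) * e5
    have hu : 0 < ℓ 0 + ℓ 1 := by positivity
    rcases Nat.lt_or_ge m 11 with hlt11 | hge11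
    · have h9 : (m:ℝ) < 9 := by
        have : m < 9 := by
          interval_cases m <;> first | omega | (exfalso; revert hN; norm_num)
        exact_mod_cast this
      have h1 : (1:ℝ) < m := by exact_mod_cast hN.one_lt
      have h7 : (ℓ 0 + ℓ 1) ^ 2 * ((m - 1) * (m - 9)) < 0 := by
        apply mul_neg_of_pos_of_neg (by positivity)
        nlinarith
      have h8 : 0 ≤ ((m:ℝ) + 3) ^ 2 * (ℓ 0 - ℓ 1) ^ 2 := by positivity
      linarith
    · have e7 : ((β 0 0 : ℝ) - β 0 1) * ((ℓ 0 - ℓ 1) * (m + 3))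
          = (ℓ 0 + ℓ 1) * (4 * m - (β 0 0 + β 0 1) * (m + 3)) := by
        push_cast at hside
        linear_combination (-2) * ((m:ℝ) + 3) * hside + 2 * e4
      have e8 : ((β 0 0 : ℝ) - β 0 1) ^ 2 * ((m - 1) * (m - 9))
          = (4 * m - (β 0 0 + β 0 1) * (m + 3)) ^ 2 := by
        have : (ℓ 0 + ℓ 1) ^ 2 * (((β 0 0 : ℝ) - β 0 1) ^ 2 * ((m - 1) * (m - 9)))
            = (ℓ 0 + ℓ 1) ^ 2 * ((4 * m - (β 0 0 + β 0 1) * (m + 3)) ^ 2) := by
          calc (ℓ 0 + ℓ 1) ^ 2 * (((β 0 0 : ℝ) - β 0 1) ^ 2 * ((m - 1) * (m - 9)))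
              = ((β 0 0 : ℝ) - β 0 1) ^ 2 * ((ℓ 0 + ℓ 1) ^ 2 * ((m - 1) * (m - 9))) := by ring
            _ = (((β 0 0 : ℝ) - β 0 1) * ((ℓ 0 - ℓ 1) * (m + 3))) ^ 2 := by rw [← e6]; ring
            _ = _ := by rw [e7]; ring
        exact mul_left_cancel₀ (pow_ne_zero 2 hu.ne') this
      have e9 : ((β 0 0 : ℤ) - β 0 1) ^ 2 * (((m:ℤ) - 1) * (m - 9))
          = (4 * m - (β 0 0 + β 0 1) * (m + 3)) ^ 2 := by exact_mod_cast e8
      have hpq := not_sq_aux2 m (β 0 0) (β 0 1) (by exact_mod_cast hge11) e9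
      rw [hpq] at e9
      have e10 : (4 * (m:ℤ) - (β 0 1 + β 0 1) * (m + 3)) = 0 := by
        have : (4 * (m:ℤ) - (β 0 1 + β 0 1) * (m + 3)) ^ 2 = 0 := by
          rw [← e9]; ring
        exact pow_eq_zero_iff (by norm_num) |>.1 this
      have e11 : 2 * m = β 0 1 * (m + 3) := by
        have : 2 * (m:ℤ) = β 0 1 * (m + 3) := by linarith
        exact_mod_cast this
      rcases Nat.lt_or_ge (β 0 1) 2 with h7 | h7
      · interval_cases (β 0 1) <;> omega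
      · nlinarith
  · have hnN' : n = N := le_antisymm hnN (Nat.le_of_dvd hn0 hd)
    have hm3 : m = 3 := by
      rw [hnN'] at hmn
      exact Nat.eq_of_mul_eq_mul_right hN.pos hmn
    subst hm3
    subst hnN'
    have h5' : (5:ℝ) < n := by exact_mod_cast h5
    push_cast at e1
    nlinarith [mul_pos (show (0:ℝ) < (n:ℝ) - 3 by linarith) (show 0 < ℓ 0 + ℓ 1 + ℓ 2 by positivity)]

end Pool.Agent.Helper549.Tri.ShapeFp
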