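import Mathlib
import Pool.Agent.Helper549.Tri.DataDef
import Pool.Agent.Helper549.Tri.PermX
import Pool.Agent.Helper549.Tri.ShapeE7p
import Pool.Agent.Helper549.Tri.ShapeFp
import Pool.Agent.Helper549.Tri.Classify
set_option autoImplicit false
noncomputable section
open scoped BigOperators

namespace Pool.Agent.Helper549.Tri.EqFinal
open Pool.Agent.Helper549.Tri.ShapeE7p Pool.Agent.Helper549.Tri.ShapeFp Pool.Agent.Helper549.Tri.Classify

theorem eqf_aux {N : ℕ} (hN : N.Prime) (h5 : 5 < N) {ℓ θ S A : Fin 3 → ℝ}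
    {x β : Fin 3 → Fin 3 → ℕ}
    (h : Data N ℓ θ S A x β) (hA : ∀ j, A j = Real.pi / 3) (P : Fin 3 → ℕ)
    (hP : ∀ k, ∑ j, x j k = P k)
    (hc : P = ![1, 1, 1] ∨ P = ![2, 0, 1] ∨ P = ![3, 0, 1] ∨ P = ![2, 2, 0] ∨ P = ![3, 2, 0] ∨
        P = ![3, 3, 0] ∨ P = ![0, 0, 3]) : False := by
  have hP' : ∀ k, x 0 k + x 1 k + x 2 k = P k := by
    intro k
    rw [← hP k, Fin.sum_univ_three]
  have hP0 := hP' 0
  have hP1 := hP' 1
  have hP2 := hP' 2
  have hang : ∀ j, (x j 0 : ℝ) * θ 0 + (x j 1 : ℝ) * θ 1 + (x j 2 : ℝ) * θ 2 = Real.pi / 3 := by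
    intro j
    rw [← hA j, h.angles j, Fin.sum_univ_three]
  have hrow : ∀ j, 1 ≤ x j 0 + x j 1 + x j 2 := by
    intro j
    obtain ⟨k, hk⟩ := h.kpos j
    fin_cases k
    · simp only [Fin.zero_eta] at hk; omega
    · simp only [Fin.mk_one] at hk; omega
    · simp only [Fin.reduceFinMk] at hk; omega
  have hr0 := hrow 0
  have hr1 := hrow 1
  have hr2 := hrow 2
  have hsum := h.tsum
  have hw : ∀ j, ∑ k, (((3 * (x j k : ℤ) - 1 : ℤ)) : ℝ) * θ k = 0 := by
    intro j
    rw [Fin.sum_univ_three]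
    push_cast
    linear_combination 3 * hang j - hsum
  have hd : ∑ k, ((((P k : ℤ) - 1 : ℤ)) : ℝ) * θ k = 0 := by
    rw [Fin.sum_univ_three]
    have e0 : (P 0 : ℝ) = x 0 0 + x 1 0 + x 2 0 := by rw [← hP0]; push_cast; ring
    have e1 : (P 1 : ℝ) = x 0 1 + x 1 1 + x 2 1 := by rw [← hP1]; push_cast; ring
    have e2 : (P 2 : ℝ) = x 0 2 + x 1 2 + x 2 2 := by rw [← hP2]; push_cast; ring
    push_cast
    rw [e0, e1, e2]
    linear_combination hang 0 + hang 1 + hang 2 - hsum
  have key : ∀ (k0 : Fin 3), (P k0 : ℤ) - 1 = -1 → ∀ j k,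
      3 * (x j k : ℤ) - 1 = -(3 * (x j k0 : ℤ) - 1) * ((P k : ℤ) - 1) := fun k0 h0 j k =>
    rel_prop θ hsum h.irr (fun k => (P k : ℤ) - 1) (fun k => 3 * (x j k : ℤ) - 1) hd (hw j) k0 h0 k
  rcases hc with hc | hc | hc | hc | hc | hc | hc
  · have p0 : P 0 = 1 := by rw [hc]; rfl
    have p1 : P 1 = 1 := by rw [hc]; rfl
    have p2 : P 2 = 1 := by rw [hc]; rfl
    have hone : ∀ k, P k = 1 := by rw [hc]; decide
    apply h.irr
    intro k
    refine ⟨1 / 3, ?_⟩
    have hk := hP' k
    rw [hone k] at hk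
    have hj : ∃ j, x j k = 1 := by
      have : x 0 k = 1 ∨ x 1 k = 1 ∨ x 2 k = 1 := by omega
      rcases this with h' | h' | h'
      · exact ⟨0, h'⟩
      · exact ⟨1, h'⟩
      · exact ⟨2, h'⟩
    obtain ⟨j, hj⟩ := hj
    have hrj : x j 0 + x j 1 + x j 2 = 1 := by
      fin_cases j
      · simp only [Fin.zero_eta]; omega
      · simp only [Fin.mk_one]; omega
      · simp only [Fin.reduceFinMk]; omega
    have ha := hang j
    have hk3 : k = 0 ∨ k = 1 ∨ k = 2 := by
      fin_cases k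
      · exact Or.inl rfl
      · exact Or.inr (Or.inl rfl)
      · exact Or.inr (Or.inr rfl)
    rcases hk3 with rfl | rfl | rfl
    · have e1 : x j 1 = 0 := by omega
      have e2 : x j 2 = 0 := by omega
      rw [hj, e1, e2] at ha
      push_cast at ha ⊢
      linarith
    · have e1 : x j 0 = 0 := by omega
      have e2 : x j 2 = 0 := by omega
      rw [hj, e1, e2] at ha
      push_cast at ha ⊢
      linarith
    · have e1 : x j 0 = 0 := by omega
      have e2 : x j 1 = 0 := by omega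
      rw [hj, e1, e2] at ha
      push_cast at ha ⊢
      linarith
  · have p1 : P 1 = 0 := by rw [hc]; rfl
    have p2 : P 2 = 1 := by rw [hc]; rfl
    have := key 1 (by rw [p1]; rfl) 0 2
    rw [p2] at this
    omega
  · have p1 : P 1 = 0 := by rw [hc]; rfl
    have p2 : P 2 = 1 := by rw [hc]; rfl
    have := key 1 (by rw [p1]; rfl) 0 2
    rw [p2] at this
    omega
  · have p2 : P 2 = 0 := by rw [hc]; rfl
    have p0 : P 0 = 2 := by rw [hc]; rfl
    have := key 2 (by rw [p2]; rfl) 0 0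
    rw [p0] at this
    push_cast at this
    omega
  · have p2 : P 2 = 0 := by rw [hc]; rfl
    have p1 : P 1 = 2 := by rw [hc]; rfl
    have := key 2 (by rw [p2]; rfl) 0 1
    rw [p1] at this
    push_cast at this
    omega
  · have p2 : P 2 = 0 := by rw [hc]; rfl
    have p0 : P 0 = 3 := by rw [hc]; rfl
    have p1 : P 1 = 3 := by rw [hc]; rfl
    have hx2 : ∀ j, x j 2 = 0 := by
      intro j
      fin_cases j
      · simp only [Fin.zero_eta]; omega
      · simp only [Fin.mk_one]; omega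
      · simp only [Fin.reduceFinMk]; omega
    have hx0 : ∀ j, x j 0 = 1 := by
      intro j
      have := key 2 (by rw [p2]; rfl) j 0
      rw [p0, hx2 j] at this
      push_cast at this
      omega
    have hx1 : ∀ j, x j 1 = 1 := by
      intro j
      have := key 2 (by rw [p2]; rfl) j 1
      rw [p1, hx2 j] at this
      push_cast at this
      omega
    have hx : x = ![![1,1,0],![1,1,0],![1,1,0]] := by
      funext j k
      fin_cases j <;> fin_cases k
      · exact hx0 0
      · exact hx1 0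
      · exact hx2 0
      · exact hx0 1
      · exact hx1 1
      · exact hx2 1
      · exact hx0 2
      · exact hx1 2
      · exact hx2 2
    rw [hx] at h
    exact shapeE7_prime hN h5 h
  · have p2 : P 2 = 3 := by rw [hc]; rfl
    have p0 : P 0 = 0 := by rw [hc]; rfl
    have p1 : P 1 = 0 := by rw [hc]; rfl
    have hx0 : ∀ j, x j 0 = 0 := by
      intro j
      fin_cases j
      · simp only [Fin.zero_eta]; omega
      · simp only [Fin.mk_one]; omega
      · simp only [Fin.reduceFinMk]; omega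
    have hx1 : ∀ j, x j 1 = 0 := by
      intro j
      fin_cases j
      · simp only [Fin.zero_eta]; omega
      · simp only [Fin.mk_one]; omega
      · simp only [Fin.reduceFinMk]; omega
    have hx2 : ∀ j, x j 2 = 1 := by
      intro j
      have := key 0 (by rw [p0]; rfl) j 2
      rw [p2, hx0 j] at this
      push_cast at this
      omega
    have hx : x = ![![0,0,1],![0,0,1],![0,0,1]] := by
      funext j k
      fin_cases j <;> fin_cases k
      · exact hx0 0
      · exact hx1 0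
      · exact hx2 0
      · exact hx0 1
      · exact hx1 1
      · exact hx2 1
      · exact hx0 2
      · exact hx1 2
      · exact hx2 2
    rw [hx] at h
    exact shapeF_prime hN h5 h

/-- TARGET: equilateral big triangle -/
theorem equilateral_final {N : ℕ} (hN : N.Prime) (h5 : 5 < N) {ℓ θ S A : Fin 3 → ℝ}
    {κ β : Fin 3 → Fin 3 → ℕ}
    (h : Data N ℓ θ S A κ β) (hA : ∀ j, A j = Real.pi / 3) (σ : Equiv.Perm (Fin 3)) (P : Fin 3 → ℕ)
    (hP : ∀ k, ∑ j, κ j (σ k) = P k)
    (hc : P = ![1, 1, 1] ∨ P = ![2, 0, 1] ∨ P = ![3, 0, 1] ∨ P = ![2, 2, 0] ∨ P = ![3, 2, 0] ∨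
        P = ![3, 3, 0] ∨ P = ![0, 0, 3]) : False :=
  eqf_aux hN h5 (h.perm_types σ) hA P hP hc

end Pool.Agent.Helper549.Tri.EqFinal
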