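import Mathlib
import Pool.Agent.Helper549.Tri.DataDef
set_option autoImplicit false
noncomputable section
open scoped BigOperators

namespace Pool.Agent.Helper549.Tri.ShapeA

/-- TARGET: this corner pattern is impossible for N = 19 -/
theorem shapeA {ℓ θ S A : Fin 3 → ℝ} {β : Fin 3 → Fin 3 → ℕ}
    (h : Data 19 ℓ θ S A ![![1,0,0],![1,0,0],![0,0,1]] β) : False := by
  have e0 := h.angles 0
  have e1 := h.angles 1
  have e2 := h.angles 2
  simp [Fin.sum_univ_three] at e0 e1 e2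
  have ht : θ 1 = θ 0 := by
    have := h.Asum
    have := h.tsum
    linarith
  have hp0 : 0 < θ 0 := h.tpos 0
  have hp1 : 0 < θ 1 := h.tpos 1
  have hp2 : 0 < θ 2 := h.tpos 2
  have hsum := h.tsum
  have s0 : 0 < Real.sin (θ 0) := Real.sin_pos_of_pos_of_lt_pi hp0 (by linarith)
  have s2 : 0 < Real.sin (θ 2) := Real.sin_pos_of_pos_of_lt_pi hp2 (by linarith)
  have l01 : ℓ 0 = ℓ 1 := by
    have := h.sinet 0 1
    rw [ht] at this
    exact mul_right_cancel₀ s0.ne' this
  have S01 : S 0 = S 1 := by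
    have := h.sineT 0 1
    rw [e1, e0] at this
    exact mul_right_cancel₀ s0.ne' this
  have hl2 := h.sinet 0 2
  have hS2 := h.sineT 0 2
  rw [e2, e0] at hS2
  have har := h.area
  rw [e2, ← l01, ← S01] at har
  have hsq : 19 * (ℓ 0) ^ 2 = (S 0) ^ 2 := by
    have : (19 * (ℓ 0) ^ 2) * Real.sin (θ 2) = (S 0) ^ 2 * Real.sin (θ 2) := by
      push_cast at har
      linarith
    exact mul_right_cancel₀ s2.ne' this
  have hcr : S 0 * ℓ 2 = ℓ 0 * S 2 := by
    have : (S 0 * ℓ 2) * Real.sin (θ 0) = (ℓ 0 * S 2) * Real.sin (θ 0) := by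
      linear_combination (-S 0) * hl2 + ℓ 0 * hS2
    exact mul_right_cancel₀ s0.ne' this
  obtain ⟨M, -, -, hM, -⟩ := h.char ![-1,-1,-1] (by decide) (by decide) (by decide) (by decide)
  have hM' : S 0 + S 1 + S 2 = M * (ℓ 0 + ℓ 1 + ℓ 2) := by
    simp [Fin.sum_univ_three, Fin.prod_univ_three] at hM
    linarith
  rw [← l01, ← S01] at hM'
  have ha := h.lpos 0
  have hc := h.lpos 2
  have hk : S 0 = M * ℓ 0 := by
    have : S 0 * (2 * ℓ 0 + ℓ 2) = (M * ℓ 0) * (2 * ℓ 0 + ℓ 2) := by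
      linear_combination hcr + ℓ 0 * hM'
    exact mul_right_cancel₀ (by positivity) this
  have h19 : (M : ℝ) ^ 2 = 19 := by
    rw [hk] at hsq
    have : (M : ℝ) ^ 2 * (ℓ 0) ^ 2 = 19 * (ℓ 0) ^ 2 := by linarith
    exact mul_right_cancel₀ (by positivity) this
  have h19' : M ^ 2 = 19 := by exact_mod_cast h19
  have hb1 : M ≤ 4 := by nlinarith
  have hb2 : -4 ≤ M := by nlinarith
  interval_cases M <;> omega

end Pool.Agent.Helper549.Tri.ShapeA
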