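import Mathlib
import Pool.Agent.Helper549.Tri.DataDef
set_option autoImplicit false
noncomputable section
open scoped BigOperators

namespace Pool.Agent.Helper549.Tri.ShapeB1

/-- TARGET: this corner pattern is impossible for N = 19 -/
theorem shapeB1 {ℓ θ S A : Fin 3 → ℝ} {β : Fin 3 → Fin 3 → ℕ}
    (h : Data 19 ℓ θ S A ![![2,0,0],![1,0,0],![0,0,1]] β) : False := by
  have hA0 : A 0 = 2 * θ 0 := by
    have := h.angles 0
    simpa [Fin.sum_univ_three] using this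
  have hA1 : A 1 = θ 0 := by
    have := h.angles 1
    simpa [Fin.sum_univ_three] using this
  have hA2 : A 2 = θ 2 := by
    have := h.angles 2
    simpa [Fin.sum_univ_three] using this
  have hAs := h.Asum
  have hts := h.tsum
  have hb : θ 1 = 2 * θ 0 := by
    rw [hA0, hA1, hA2] at hAs
    linarith
  have ht0 := h.tpos 0
  have ht1 := h.tpos 1
  have ht2 := h.tpos 2
  have hs0 : 0 < Real.sin (θ 0) := Real.sin_pos_of_pos_of_lt_pi ht0 (by linarith)
  have hs1 : 0 < Real.sin (θ 1) := Real.sin_pos_of_pos_of_lt_pi ht1 (by linarith)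
  have hs2 : 0 < Real.sin (θ 2) := Real.sin_pos_of_pos_of_lt_pi ht2 (by linarith)
  have ha := h.lpos 0
  have hbp := h.lpos 1
  have hcp := h.lpos 2
  have e01 := h.sinet 0 1
  have e02 := h.sinet 0 2
  have E01 := h.sineT 0 1
  have E12 := h.sineT 1 2
  have harea := h.area
  rw [hA0, hA1, ← hb] at E01
  rw [hA1, hA2] at E12
  rw [hA2] at harea
  obtain ⟨ρ, hρ⟩ : ∃ ρ, ρ = S 1 / ℓ 0 := ⟨_, rfl⟩
  have hS1 : S 1 = ρ * ℓ 0 := by
    rw [hρ, div_mul_cancel₀ _ ha.ne']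
  have hS0 : S 0 = ρ * ℓ 1 := by
    have h1 : S 0 * Real.sin (θ 0) = (ρ * ℓ 1) * Real.sin (θ 0) := by
      rw [E01, hS1, mul_assoc, mul_assoc, e01]
    exact mul_right_cancel₀ hs0.ne' h1
  have hS2 : S 2 = ρ * ℓ 2 := by
    have h1 : S 2 * Real.sin (θ 0) = (ρ * ℓ 2) * Real.sin (θ 0) := by
      rw [← E12, hS1, mul_assoc, mul_assoc, e02]
    exact mul_right_cancel₀ hs0.ne' h1
  have hρ2 : ρ ^ 2 = 19 := by
    rw [hS0, hS1] at harea
    have h1 : 0 < ℓ 0 * ℓ 1 * Real.sin (θ 2) := by positivity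
    have h2 : ρ ^ 2 * (ℓ 0 * ℓ 1 * Real.sin (θ 2)) = 19 * (ℓ 0 * ℓ 1 * Real.sin (θ 2)) := by
      have h3 : ((19 : ℕ) : ℝ) = 19 := by norm_num
      rw [h3] at harea
      linarith [harea]
    exact mul_right_cancel₀ h1.ne' h2
  have htri : 0 < ℓ 0 + ℓ 1 - ℓ 2 := by
    have h1 : (ℓ 0 + ℓ 1 - ℓ 2) * Real.sin (θ 0) =
        ℓ 0 * (Real.sin (θ 0) + Real.sin (θ 1) - Real.sin (θ 2)) := by
      linear_combination (-1 : ℝ) * e01 + e02
    have h2 : Real.sin (θ 2) = Real.sin (θ 0) * Real.cos (θ 1) + Real.cos (θ 0) * Real.sin (θ 1) := by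
      rw [← Real.sin_add, ← Real.sin_pi_sub (θ 0 + θ 1)]
      congr 1
      linarith
    have hc1 : Real.cos (θ 1) < 1 := by
      have := Real.cos_lt_cos_of_nonneg_of_le_pi (x := 0) (y := θ 1) le_rfl (by linarith) ht1
      rwa [Real.cos_zero] at this
    have hc0 : Real.cos (θ 0) < 1 := by
      have := Real.cos_lt_cos_of_nonneg_of_le_pi (x := 0) (y := θ 0) le_rfl (by linarith) ht0
      rwa [Real.cos_zero] at this
    have h3 : 0 < Real.sin (θ 0) + Real.sin (θ 1) - Real.sin (θ 2) := by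
      have h4 := mul_pos hs0 (sub_pos.2 hc1)
      have h5 := mul_pos hs1 (sub_pos.2 hc0)
      rw [h2]
      linarith
    have h6 : 0 < (ℓ 0 + ℓ 1 - ℓ 2) * Real.sin (θ 0) := by
      rw [h1]; exact mul_pos ha h3
    exact (pos_iff_pos_of_mul_pos h6).2 hs0
  obtain ⟨M, -, -, hM, -⟩ := h.char ![1, 1, -1] (by decide) (by decide) ⟨1, by decide⟩ (by decide)
  have hM' : S 0 + S 1 - S 2 = M * (ℓ 0 + ℓ 1 - ℓ 2) := by
    have h1 := hM
    simp [Fin.sum_univ_three, Fin.prod_univ_three] at h1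
    linarith
  have h1 : (ρ - M) * (ℓ 0 + ℓ 1 - ℓ 2) = 0 := by
    rw [hS0, hS1, hS2] at hM'
    linarith
  have h2 : ρ = M := by
    rcases mul_eq_zero.1 h1 with h3 | h3
    · linarith
    · exact absurd h3 htri.ne'
  have h3 : M ^ 2 = 19 := by
    rw [h2] at hρ2
    exact_mod_cast hρ2
  have h4 : |M| ≤ 4 ∨ 5 ≤ |M| := by omega
  have h5 : |M| ^ 2 = 19 := by rw [sq_abs]; exact h3
  have h6 := abs_nonneg M
  rcases h4 with h4 | h4
  · nlinarith
  · nlinarith

end Pool.Agent.Helper549.Tri.ShapeB1
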