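import Mathlib
import Pool.Agent.Helper549.Tri.DataDef
set_option autoImplicit false
noncomputable section
open scoped BigOperators

namespace Pool.Agent.Helper549.Tri.ShapeB2

/-- TARGET: this corner pattern is impossible for N = 19 -/
theorem shapeB2 {ℓ θ S A : Fin 3 → ℝ} {β : Fin 3 → Fin 3 → ℕ}
    (h : Data 19 ℓ θ S A ![![1,0,0],![1,0,0],![1,0,1]] β) : False := by
  have hA0 : A 0 = θ 0 := by
    have := h.angles 0
    simpa [Fin.sum_univ_three] using this
  have hA1 : A 1 = θ 0 := by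
    have := h.angles 1
    simpa [Fin.sum_univ_three] using this
  have hA2 : A 2 = θ 0 + θ 2 := by
    have := h.angles 2
    simpa [Fin.sum_univ_three] using this
  have hAs := h.Asum
  have hts := h.tsum
  rw [hA0, hA1, hA2] at hAs
  obtain ⟨α, hα⟩ : ∃ α, α = θ 0 := ⟨_, rfl⟩
  have hθ1 : θ 1 = 2 * α := by rw [hα]; linarith
  have hθ2 : θ 2 = Real.pi - 3 * α := by rw [hα]; linarith
  have hA2' : A 2 = Real.pi - 2 * α := by rw [hA2, hα]; linarith
  rw [← hα] at hA0 hA1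
  have hθ0 : θ 0 = α := hα.symm
  obtain ⟨y, hy⟩ : ∃ y, y = 2 * Real.cos α := ⟨_, rfl⟩
  obtain ⟨σ, hσ⟩ : ∃ σ, σ = Real.sin α := ⟨_, rfl⟩
  have t0 := h.tpos 0
  have t1 := h.tpos 1
  have t2 := h.tpos 2
  rw [hθ0] at t0
  rw [hθ2] at t2
  have hσpos : 0 < σ := by
    rw [hσ]; exact Real.sin_pos_of_pos_of_lt_pi t0 (by linarith)
  have hsc : σ ^ 2 + (y / 2) ^ 2 = 1 := by
    rw [hσ, hy]
    have := Real.sin_sq_add_cos_sq α
    nlinarith
  have sin1 : Real.sin (θ 1) = y * σ := by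
    rw [hθ1, Real.sin_two_mul, hy, hσ]; ring
  have sin2 : Real.sin (θ 2) = (y ^ 2 - 1) * σ := by
    rw [hθ2, Real.sin_pi_sub, Real.sin_three_mul, ← hσ]
    have : σ ^ 3 = σ * σ ^ 2 := by ring
    rw [this, show σ ^ 2 = 1 - (y / 2) ^ 2 by linarith]
    ring
  have sinA2 : Real.sin (A 2) = y * σ := by
    rw [hA2', Real.sin_pi_sub, Real.sin_two_mul, hy, hσ]; ring
  have sin0 : Real.sin (θ 0) = σ := by rw [hθ0, hσ]
  have sinA0 : Real.sin (A 0) = σ := by rw [hA0, hσ]
  have sinA1 : Real.sin (A 1) = σ := by rw [hA1, hσ]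
  have l0 := h.lpos 0
  have l1 := h.lpos 1
  have l2 := h.lpos 2
  have s0 := h.Spos 0
  have s1 := h.Spos 1
  have s2 := h.Spos 2
  have e1 := h.sinet 0 1
  have e2 := h.sinet 0 2
  have e3 := h.sineT 0 1
  have e4 := h.sineT 0 2
  have e5 := h.area
  have c1 := h.char ![1, 1, -1] (by decide) (by decide) ⟨1, by decide⟩ (by decide)
  have c2 := h.char ![-1, 1, 1] (by decide) (by decide) ⟨1, by decide⟩ (by decide)
  have d0 := h.side 0
  have d1 := h.side 1
  have d2 := h.side 2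
  have hc := h.count
  simp only [sin0, sin1, sin2, sinA0, sinA1, sinA2] at e1 e2 e3 e4 e5
  clear h
  obtain ⟨M1, m1, m2, m3, -⟩ := c1
  obtain ⟨M2, n1, n2, n3, n4⟩ := c2
  simp only [Fin.sum_univ_three] at m3 n3 d0 d1 d2 hc
  simp [Fin.prod_univ_three] at m3 n3
  generalize ℓ 0 = a at *
  generalize ℓ 1 = b at *
  generalize ℓ 2 = c at *
  generalize hT0 : S 0 = s at *
  have hb : b = y * a := mul_right_cancel₀ hσpos.ne' (by linarith : b * σ = y * a * σ)
  have hcc : c = (y ^ 2 - 1) * a :=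
    mul_right_cancel₀ hσpos.ne' (by linarith : c * σ = (y ^ 2 - 1) * a * σ)
  have hS1 : S 1 = s := mul_right_cancel₀ hσpos.ne' e3.symm
  have hS2 : S 2 = y * s := mul_right_cancel₀ hσpos.ne' (by linarith : S 2 * σ = y * s * σ)
  have y0 : 0 < y := by
    rw [hb] at l1
    exact pos_of_mul_pos_left l1 l0.le
  have y1 : 1 < y := by
    rw [hcc] at l2
    have : 0 < y ^ 2 - 1 := pos_of_mul_pos_left l2 l0.le
    nlinarith
  have y2 : y < 2 := by
    nlinarith [mul_pos hσpos hσpos]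
  have hsq : 19 * a ^ 2 * (y ^ 2 - 1) = s ^ 2 := by
    rw [hb, hS1] at e5
    push_cast at e5
    refine mul_right_cancel₀ (mul_pos y0 hσpos).ne' ?_
    linarith
  have p1 : s = M1 * a * (1 + y) := by
    rw [hS1, hS2, hb, hcc] at m3
    refine mul_right_cancel₀ (sub_pos.2 y2).ne' ?_
    linarith
  have p2 : s = -M2 * a * (y - 1) := by
    rw [hS1, hS2, hb, hcc] at n3
    refine mul_right_cancel₀ (by linarith : (2 + y) ≠ 0) ?_
    linarith
  have M1pos : 0 < (M1 : ℝ) := by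
    rw [p1] at s0
    have := pos_of_mul_pos_left s0 (by linarith : (0:ℝ) ≤ 1 + y)
    exact pos_of_mul_pos_left this l0.le
  have M2pos : 0 < (-M2 : ℝ) := by
    rw [p2] at s0
    have := pos_of_mul_pos_left s0 (by linarith : (0:ℝ) ≤ y - 1)
    exact pos_of_mul_pos_left this l0.le
  have hprod : (M1 : ℝ) * (-M2) = 19 := by
    have h1 : s ^ 2 = (M1 * a * (1 + y)) * (-M2 * a * (y - 1)) := by
      rw [← p1, ← p2]; ring
    rw [← hsq] at h1
    have h2 : 0 < a ^ 2 * (y ^ 2 - 1) := by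
      have : 0 < y ^ 2 - 1 := by nlinarith
      positivity
    refine mul_right_cancel₀ h2.ne' ?_
    linarith
  have hlt : (M1 : ℝ) < -M2 := by
    have h1 : (M1 : ℝ) * (1 + y) = -M2 * (y - 1) := by
      have : (M1 : ℝ) * a * (1 + y) = -M2 * a * (y - 1) := by rw [← p1, ← p2]
      refine mul_right_cancel₀ l0.ne' ?_
      linarith
    nlinarith
  have i1 : 0 < M1 := by exact_mod_cast M1pos
  have i2 : M1 < -M2 := by exact_mod_cast hlt
  have i3 : M1 * (-M2) = 19 := by exact_mod_cast hprod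
  have i4 : M1 ≤ 4 := by nlinarith
  have i5 : M1 = 1 ∧ M2 = -19 := by
    interval_cases M1 <;> omega
  obtain ⟨rfl, rfl⟩ := i5
  push_cast at p1 p2
  have hy9 : y = 10 / 9 := by
    have : (1 : ℝ) * a * (1 + y) = 19 * a * (y - 1) := by rw [← p1]; linarith
    have h3 : (1 : ℝ) * (1 + y) = 19 * (y - 1) := by
      refine mul_right_cancel₀ l0.ne' ?_
      linarith
    linarith
  have hβ : ∀ j, β j 0 = 0 := by
    intro j
    by_contra hj
    have := n4 (by norm_num) j 0 (Nat.pos_of_ne_zero hj)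
    fin_cases j <;> simp [Fin.prod_univ_three] at this
  rw [hβ 0] at d0 hc
  rw [hβ 1] at d1 hc
  rw [hβ 2] at d2 hc
  rw [hS1] at d1
  rw [hS2] at d2
  rw [hb, hcc, hy9] at d0 d1
  rw [hb, hcc, hy9] at d2
  rw [hy9] at p1
  generalize β 0 1 = q0 at *
  generalize β 0 2 = r0 at *
  generalize β 1 1 = q1 at *
  generalize β 1 2 = r1 at *
  generalize β 2 1 = q2 at *
  generalize β 2 2 = r2 at *
  have f0 : (171 : ℝ) = 90 * q0 + 19 * r0 := by
    refine mul_right_cancel₀ l0.ne' ?_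
    rw [p1] at d0
    push_cast at d0
    linarith
  have f1 : (171 : ℝ) = 90 * q1 + 19 * r1 := by
    refine mul_right_cancel₀ l0.ne' ?_
    rw [p1] at d1
    push_cast at d1
    linarith
  have f2 : (190 : ℝ) = 90 * q2 + 19 * r2 := by
    refine mul_right_cancel₀ l0.ne' ?_
    rw [p1] at d2
    push_cast at d2
    linarith
  have g0 : 171 = 90 * q0 + 19 * r0 := by exact_mod_cast f0
  have g1 : 171 = 90 * q1 + 19 * r1 := by exact_mod_cast f1
  have g2 : 190 = 90 * q2 + 19 * r2 := by exact_mod_cast f2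
  omega

end Pool.Agent.Helper549.Tri.ShapeB2
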