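import Mathlib
import Pool.Agent.Helper549.Tri.DataDef
import Pool.Agent.Helper549.Tri.MatJ
set_option autoImplicit false
noncomputable section
open scoped BigOperators

namespace Pool.Agent.Helper549.Tri.ShapeC2
open Pool.Agent.Helper549.Tri.MatJ

/-- TARGET: this corner pattern is impossible for N = 19 -/
theorem shapeC2 {ℓ θ S A : Fin 3 → ℝ} {β : Fin 3 → Fin 3 → ℕ}
    (h : Data 19 ℓ θ S A ![![1,0,0],![0,1,0],![1,1,0]] β) : False := by
  have a0 := h.angles 0
  have a1 := h.angles 1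
  have a2 := h.angles 2
  simp only [Fin.sum_univ_three, Matrix.cons_val_zero, Matrix.cons_val_one, Matrix.cons_val,
    Nat.cast_one, Nat.cast_zero, one_mul, zero_mul, add_zero, zero_add] at a0 a1 a2
  have hA := h.Asum
  have ht := h.tsum
  have hg : θ 2 = Real.pi / 2 := by linarith
  have hA2 : A 2 = Real.pi / 2 := by linarith
  have hb : θ 1 = Real.pi / 2 - θ 0 := by linarith
  have hsl0 := h.sinet 0 2
  have hsl1 := h.sinet 1 2
  have hsS0 := h.sineT 0 2
  have hsS1 := h.sineT 1 2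
  rw [hg, Real.sin_pi_div_two, mul_one] at hsl0 hsl1
  rw [hA2, Real.sin_pi_div_two, mul_one] at hsS0 hsS1
  rw [a0] at hsS0
  rw [a1] at hsS1
  have hl2 := h.lpos 2
  have hl0 := h.lpos 0
  have hl1 := h.lpos 1
  have hS2 := h.Spos 2
  have har := h.area
  rw [hg, hA2, Real.sin_pi_div_two, mul_one, mul_one] at har
  obtain ⟨ρ, hρ⟩ : ∃ ρ, ρ = S 2 / ℓ 2 := ⟨_, rfl⟩
  have hρpos : 0 < ρ := by rw [hρ]; positivity
  have hr2 : S 2 = ρ * ℓ 2 := by rw [hρ]; field_simp
  have hr0 : S 0 = ρ * ℓ 0 := by rw [hsS0, hr2, hsl0]; ring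
  have hr1 : S 1 = ρ * ℓ 1 := by rw [hsS1, hr2, hsl1]; ring
  have hρ2 : ρ ^ 2 = 19 := by
    rw [hr0, hr1] at har
    have h1 : (ρ ^ 2 - 19) * (ℓ 0 * ℓ 1) = 0 := by
      push_cast at har
      linear_combination -har
    rcases mul_eq_zero.1 h1 with h2 | h2
    · linarith
    · exact absurd h2 (by positivity)
  have hρs : ρ = Real.sqrt 19 := by
    rw [← hρ2, Real.sqrt_sq hρpos.le]
  have hS : ∀ k, S k = ρ * ℓ k := by
    intro k
    fin_cases k
    · exact hr0
    · exact hr1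
    · exact hr2
  refine two_good_false β ℓ h.lpos (fun k => ?_) (fun k l hk hlk => ?_) ?_
  · rw [← h.side k, hS k, hρs]
  · obtain ⟨x, y, hxy, hx, hy⟩ := h.corner k l (Ne.symm hlk)
    refine ⟨y, ?_, hy⟩
    have hxk : x = k := by
      revert hx hk
      clear hy hxy hlk
      revert k x
      decide
    rw [← hxk]
    exact Ne.symm hxy
  · rw [hsl0, hsl1, hb, Real.sin_pi_div_two_sub]
    have := Real.sin_sq_add_cos_sq (θ 0)
    linear_combination (ℓ 2) ^ 2 * this

end Pool.Agent.Helper549.Tri.ShapeC2
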