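import Mathlib
import Pool.Agent.Helper549.Tri.DataDef
set_option autoImplicit false
noncomputable section
open scoped BigOperators

namespace Pool.Agent.Helper549.Tri.ShapeD1

theorem sd1_fin (m n : ℤ) (hm0 : 0 < m) (hn0 : 0 < n) (hm : m ≤ 19) (hn : n ≤ 19)
    (hmo : (m - 19) % 2 = 0) (hno : (n - 19) % 2 = 0) (hmn : m < n) (h1 : 38 < m * n)
    (h2 : m * n < 57)
    (h : 1444 * (n - m) ^ 2 = (m * n - 19) * (2 * (m * n - 19) - 38) * (n + m) ^ 2) : False := by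
  interval_cases m <;> first | omega | (interval_cases n <;> omega)

theorem sd1_alg (m n y s : ℝ) (hs : 0 < s) (hy0 : 0 < y) (hy1 : y < 1)
    (h1 : s * (2 + y) = m * (1 + y)) (h2 : s * (2 - y) = n * (1 - y))
    (h3 : 19 * (1 - y ^ 2) = s ^ 2 * (2 - y ^ 2)) :
    0 < m ∧ 0 < n ∧ m < n ∧ 38 < m * n ∧ m * n < 57 ∧
    1444 * (n - m) ^ 2 = (m * n - 19) * (2 * (m * n - 19) - 38) * (n + m) ^ 2 := by
  have hm : 0 < m := by
    have : 0 < m * (1 + y) := by rw [← h1]; positivity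
    exact (mul_pos_iff_of_pos_right (by linarith)).1 this
  have hn : 0 < n := by
    have h4 : 0 < n * (1 - y) := by rw [← h2]; apply mul_pos hs; linarith
    exact (mul_pos_iff_of_pos_right (by linarith)).1 h4
  have hy2 : 0 < 1 - y ^ 2 := by nlinarith
  -- product
  have h5 : s ^ 2 * (4 - y ^ 2) = m * n * (1 - y ^ 2) := by
    calc s ^ 2 * (4 - y ^ 2) = (s * (2 + y)) * (s * (2 - y)) := by ring
      _ = (m * (1 + y)) * (n * (1 - y)) := by rw [h1, h2]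
      _ = _ := by ring
  have h6 : 19 * (4 - y ^ 2) = m * n * (2 - y ^ 2) := by
    have h7 : (1 - y ^ 2) * (19 * (4 - y ^ 2)) = (1 - y ^ 2) * (m * n * (2 - y ^ 2)) := by
      calc (1 - y ^ 2) * (19 * (4 - y ^ 2)) = (19 * (1 - y ^ 2)) * (4 - y ^ 2) := by ring
        _ = (s ^ 2 * (2 - y ^ 2)) * (4 - y ^ 2) := by rw [h3]
        _ = (s ^ 2 * (4 - y ^ 2)) * (2 - y ^ 2) := by ring
        _ = (m * n * (1 - y ^ 2)) * (2 - y ^ 2) := by rw [h5]
        _ = _ := by ring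
    exact mul_left_cancel₀ hy2.ne' h7
  have h8 : (2 - y ^ 2) * (m * n - 19) = 38 := by linarith
  have h9 : (2 - y ^ 2) * (n - m) = y * (n + m) := by
    have h10 : s * ((2 - y ^ 2) * (n - m)) = s * (y * (n + m)) := by
      have e1 : s * (2 + y) * (n * (1 - y)) = s * (2 - y) * (m * (1 + y)) := by
        rw [h1, h2]; ring
      linear_combination e1
    exact mul_left_cancel₀ hs.ne' h10
  have h2y : 0 < 2 - y ^ 2 := by linarith
  have hd : 0 < m * n - 19 := by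
    by_contra hcon
    have : (2 - y ^ 2) * (m * n - 19) ≤ 0 := mul_nonpos_of_nonneg_of_nonpos h2y.le (not_lt.1 hcon)
    linarith
  refine ⟨hm, hn, ?_, ?_, ?_, ?_⟩
  · have : 0 < (2 - y ^ 2) * (n - m) := by rw [h9]; positivity
    have := (mul_pos_iff_of_pos_left h2y).1 this
    linarith
  · have h11 : 0 < y ^ 2 * (m * n - 19) := by positivity
    nlinarith
  · have h11 : 0 < (1 - y ^ 2) * (m * n - 19) := by positivity
    nlinarith
  · have h12 : (2 - y ^ 2) ^ 2 * (n - m) ^ 2 = y ^ 2 * (n + m) ^ 2 := by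
      rw [← mul_pow, h9, mul_pow]
    have h13 : y ^ 2 * (m * n - 19) = 2 * (m * n - 19) - 38 := by linarith
    calc 1444 * (n - m) ^ 2 = ((2 - y ^ 2) * (m * n - 19)) ^ 2 * (n - m) ^ 2 := by rw [h8]; norm_num
      _ = (m * n - 19) ^ 2 * ((2 - y ^ 2) ^ 2 * (n - m) ^ 2) := by ring
      _ = (m * n - 19) ^ 2 * (y ^ 2 * (n + m) ^ 2) := by rw [h12]
      _ = (m * n - 19) * (y ^ 2 * (m * n - 19)) * (n + m) ^ 2 := by ring
      _ = _ := by rw [h13]

/-- TARGET: this corner pattern is impossible for N = 19 -/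
theorem shapeD1 {ℓ θ S A : Fin 3 → ℝ} {β : Fin 3 → Fin 3 → ℕ}
    (h : Data 19 ℓ θ S A ![![1,0,0],![1,0,0],![1,2,0]] β) : False := by
  have hA0 : A 0 = θ 0 := by have := h.angles 0; simpa [Fin.sum_univ_three] using this
  have hA1 : A 1 = θ 0 := by have := h.angles 1; simpa [Fin.sum_univ_three] using this
  have hA2 : A 2 = θ 0 + 2 * θ 1 := by
    have := h.angles 2; simpa [Fin.sum_univ_three] using this
  have hπ := Real.pi_pos
  have hsum := h.Asum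
  rw [hA0, hA1, hA2] at hsum
  have htsum := h.tsum
  have ht0 := h.tpos 0
  have ht1 := h.tpos 1
  have ht2 := h.tpos 2
  obtain ⟨ε, hε⟩ : ∃ ε : ℝ, ε = θ 0 + θ 1 := ⟨_, rfl⟩
  have e0 : θ 0 = Real.pi - 2 * ε := by linarith
  have e1 : θ 1 = 3 * ε - Real.pi := by linarith
  have e2 : θ 2 = Real.pi - ε := by linarith
  have eA : A 2 = 4 * ε - Real.pi := by rw [hA2]; linarith
  have hεpos : 0 < ε := by linarith
  have hεlt : ε < Real.pi / 2 := by linarith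
  have hsin : 0 < Real.sin ε := Real.sin_pos_of_pos_of_lt_pi hεpos (by linarith)
  have hcos : 0 < Real.cos ε := Real.cos_pos_of_mem_Ioo ⟨by linarith, hεlt⟩
  obtain ⟨y, hy⟩ : ∃ y : ℝ, y = 2 * Real.cos ε := ⟨_, rfl⟩
  have hy0 : 0 < y := by rw [hy]; positivity
  have hsc := Real.sin_sq_add_cos_sq ε
  have s2 : Real.sin (θ 2) = Real.sin ε := by rw [e2, Real.sin_pi_sub]
  have s0 : Real.sin (θ 0) = y * Real.sin ε := by
    rw [e0, Real.sin_pi_sub, Real.sin_two_mul, hy]; ring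
  have s1 : Real.sin (θ 1) = (1 - y ^ 2) * Real.sin ε := by
    rw [e1, Real.sin_sub_pi, Real.sin_three_mul, hy]
    linear_combination (4 * Real.sin ε) * hsc
  have sA : Real.sin (A 2) = Real.sin ε * y * (2 - y ^ 2) := by
    rw [eA, Real.sin_sub_pi, show (4 * ε) = 2 * (2 * ε) by ring, Real.sin_two_mul,
      Real.sin_two_mul, Real.cos_two_mul, hy]
    ring
  have hy1 : y < 1 := by
    have h1 : 0 < Real.sin (θ 1) := Real.sin_pos_of_pos_of_lt_pi ht1 (by linarith)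
    rw [s1] at h1
    have h2 : 0 < 1 - y ^ 2 := (mul_pos_iff_of_pos_right hsin).1 h1
    nlinarith
  obtain ⟨c, hc⟩ : ∃ c : ℝ, c = ℓ 2 := ⟨_, rfl⟩
  have hc0 : 0 < c := by rw [hc]; exact h.lpos 2
  have l0 : ℓ 0 = y * c := by
    have h1 := h.sinet 0 2
    rw [s2, s0] at h1
    have h2 : Real.sin ε * ℓ 0 = Real.sin ε * (y * c) := by rw [hc]; linarith
    exact mul_left_cancel₀ hsin.ne' h2
  have l1 : ℓ 1 = (1 - y ^ 2) * c := by
    have h1 := h.sinet 1 2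
    rw [s2, s1] at h1
    have h2 : Real.sin ε * ℓ 1 = Real.sin ε * ((1 - y ^ 2) * c) := by rw [hc]; linarith
    exact mul_left_cancel₀ hsin.ne' h2
  have hsA0 : 0 < Real.sin (A 0) := by rw [hA0, s0]; positivity
  have hS1 : S 1 = S 0 := by
    have h1 := h.sineT 0 1
    rw [hA1, ← hA0] at h1
    exact (mul_right_cancel₀ hsA0.ne' h1).symm
  have hS2 : S 2 = (2 - y ^ 2) * S 0 := by
    have h1 := h.sineT 0 2
    rw [sA, hA0, s0] at h1
    have h2 : (y * Real.sin ε) * S 2 = (y * Real.sin ε) * ((2 - y ^ 2) * S 0) := by linarith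
    exact mul_left_cancel₀ (by positivity) h2
  have hS0 := h.Spos 0
  obtain ⟨s, hs⟩ : ∃ s : ℝ, s = S 0 / c := ⟨_, rfl⟩
  have hs0 : 0 < s := by rw [hs]; positivity
  have hSs : S 0 = s * c := by rw [hs]; field_simp
  have harea : 19 * (1 - y ^ 2) = s ^ 2 * (2 - y ^ 2) := by
    have h1 := h.area
    rw [l0, l1, s2, hS1, hSs, sA] at h1
    have h2 : (y * c ^ 2 * Real.sin ε) * (19 * (1 - y ^ 2)) =
        (y * c ^ 2 * Real.sin ε) * (s ^ 2 * (2 - y ^ 2)) := by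
      push_cast at h1
      linear_combination h1
    exact mul_left_cancel₀ (by positivity) h2
  obtain ⟨M1, hM1a, hM1b, hM1c, -⟩ := h.char ![-1, -1, -1] (by decide) (by decide)
    ⟨2, by decide⟩ (by decide)
  obtain ⟨M2, hM2a, hM2b, hM2c, -⟩ := h.char ![-1, 1, 1] (by decide) (by decide)
    ⟨2, by decide⟩ (by decide)
  have hY1 : ∀ j : Fin 3, (∏ k, (![-1, -1, -1] : Fin 3 → ℤ) k ^
      (![![1, 0, 0], ![1, 0, 0], ![1, 2, 0]] : Fin 3 → Fin 3 → ℕ) j k) = -1 := by decide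
  have hY2 : ∀ j : Fin 3, (∏ k, (![-1, 1, 1] : Fin 3 → ℤ) k ^
      (![![1, 0, 0], ![1, 0, 0], ![1, 2, 0]] : Fin 3 → Fin 3 → ℕ) j k) = -1 := by decide
  simp only [hY1, Fin.sum_univ_three] at hM1c
  simp only [hY2, Fin.sum_univ_three] at hM2c
  replace hM1c : ((-1 : ℤ) : ℝ) * S 0 + ((-1 : ℤ) : ℝ) * S 1 + ((-1 : ℤ) : ℝ) * S 2 =
    M1 * (((-1 : ℤ) : ℝ) * ℓ 0 + ((-1 : ℤ) : ℝ) * ℓ 1 + ((-1 : ℤ) : ℝ) * ℓ 2) := hM1c
  replace hM2c : ((-1 : ℤ) : ℝ) * S 0 + ((-1 : ℤ) : ℝ) * S 1 + ((-1 : ℤ) : ℝ) * S 2 =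
    M2 * (((-1 : ℤ) : ℝ) * ℓ 0 + ((1 : ℤ) : ℝ) * ℓ 1 + ((1 : ℤ) : ℝ) * ℓ 2) := hM2c
  push_cast at hM1c hM2c
  rw [hS1, hS2, hSs, l0, l1, ← hc] at hM1c hM2c
  have k1 : s * (2 + y) = (M1 : ℝ) * (1 + y) := by
    have h1 : (c * (2 - y)) * (s * (2 + y)) = (c * (2 - y)) * ((M1 : ℝ) * (1 + y)) := by
      linear_combination (-1) * hM1c
    have h2 : 0 < c * (2 - y) := by apply mul_pos hc0; linarith
    exact mul_left_cancel₀ h2.ne' h1
  have k2 : s * (2 - y) = ((-M2 : ℤ) : ℝ) * (1 - y) := by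
    have h1 : (c * (2 + y)) * (s * (2 - y)) = (c * (2 + y)) * (((-M2 : ℤ) : ℝ) * (1 - y)) := by
      push_cast
      linear_combination (-1) * hM2c
    have h2 : 0 < c * (2 + y) := by positivity
    exact mul_left_cancel₀ h2.ne' h1
  obtain ⟨q1, q2, q3, q4, q5, q6⟩ := sd1_alg M1 (-M2 : ℤ) y s hs0 hy0 hy1 k1 k2 harea
  have r1 : 0 < M1 := by exact_mod_cast q1
  have r2 : 0 < -M2 := by exact_mod_cast q2
  have r3 : M1 < -M2 := by exact_mod_cast q3
  have r4 : 38 < M1 * (-M2) := by exact_mod_cast q4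
  have r5 : M1 * (-M2) < 57 := by exact_mod_cast q5
  have r6 : 1444 * (-M2 - M1) ^ 2 = (M1 * (-M2) - 19) * (2 * (M1 * (-M2) - 19) - 38) * (-M2 + M1) ^ 2 := by
    exact_mod_cast q6
  have a1 := (abs_le.1 hM1a)
  have a2 := (abs_le.1 hM2a)
  push_cast at a1 a2
  exact sd1_fin M1 (-M2) r1 r2 (by linarith [a1.2]) (by linarith [a2.1])
    (by push_cast at hM1b; omega) (by push_cast at hM2b; omega) r3 r4 r5 r6

end Pool.Agent.Helper549.Tri.ShapeD1
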