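import Mathlib
import Pool.Agent.Helper549.Tri.DataDef
set_option autoImplicit false
noncomputable section
open scoped BigOperators

namespace Pool.Agent.Helper549.Tri.ShapeD2

theorem nonsqX (q : ℤ) (h : q * q = 630) : False := by
  rcases le_or_gt q (-26) with h1 | h1
  · nlinarith
  · rcases le_or_gt 26 q with h2 | h2
    · nlinarith
    · nlinarith [mul_nonneg (show (0:ℤ) ≤ 25 - q by omega) (show (0:ℤ) ≤ q + 25 by omega)]

theorem intX (p q : ℤ) (hp : 0 < p) (hp4 : p ≤ 4)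
    (h : p ^ 2 * q ^ 2 = (19 - p ^ 2) * (38 - 3 * p ^ 2)) : False := by
  have e : q ^ 2 = q * q := sq q
  rw [e] at h
  have h4 : p = 1 ∨ p = 2 ∨ p = 3 ∨ p = 4 := by omega
  rcases h4 with h1 | h1 | h1 | h1
  · subst h1
    exact nonsqX q (by linarith)
  · subst h1
    generalize q * q = t at h
    omega
  · subst h1
    generalize q * q = t at h
    omega
  · subst h1
    generalize q * q = t at h
    omega

theorem algX (s y : ℝ) (hs : 0 < s) (hy0 : 0 < y) (hy1 : y < 1) (M1 M2 : ℤ)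
    (o1 : (M1 - 19) % 2 = 0) (o2 : (M2 - 19) % 2 = 0)
    (h1 : s * ((1 - y) * (2 + y)) = -M1) (h2 : s * ((1 + y) * (2 - y)) = M2)
    (ha : s ^ 2 * ((2 - y ^ 2) * (3 - y ^ 2)) = 19) : False := by
  obtain ⟨p, hp⟩ : ∃ p : ℤ, M2 - M1 = 2 * p := ⟨(M2 - M1) / 2, by omega⟩
  obtain ⟨q, hq⟩ : ∃ q : ℤ, M2 + M1 = 2 * q := ⟨(M2 + M1) / 2, by omega⟩
  have hpR : (M2 : ℝ) - M1 = 2 * p := by exact_mod_cast hp
  have hqR : (M2 : ℝ) + M1 = 2 * q := by exact_mod_cast hq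
  have ep : (p : ℝ) = s * (2 - y ^ 2) := by
    have : 2 * (p : ℝ) = 2 * (s * (2 - y ^ 2)) := by
      rw [← hpR, ← h2]
      have : -(M1 : ℝ) = s * ((1 - y) * (2 + y)) := h1.symm
      have e2 : s * ((1 + y) * (2 - y)) - (M1 : ℝ) = s * ((1 + y) * (2 - y)) + -(M1:ℝ) := by ring
      rw [e2, this]
      ring
    linarith
  have eq : (q : ℝ) = s * y := by
    have : 2 * (q : ℝ) = 2 * (s * y) := by
      rw [← hqR, ← h2]
      have : (M1 : ℝ) = -(s * ((1 - y) * (2 + y))) := by linarith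
      rw [this]
      ring
    linarith
  have hy2 : y ^ 2 < 1 := by nlinarith
  have hpos : (0:ℝ) < p := by
    rw [ep]
    exact mul_pos hs (by linarith)
  have e19 : (p : ℝ) * (p + s) = 19 := by
    rw [ep, ← ha]
    ring
  have eps : (p : ℝ) * s = 2 * s ^ 2 - (q:ℝ) ^ 2 := by
    rw [ep, eq]
    ring
  have hps : (p : ℝ) * s = 19 - (p:ℝ) ^ 2 := by linarith [e19]
  have hps' : 0 < (p : ℝ) * s := mul_pos hpos hs
  have hp5 : (p:ℝ) < 5 := by nlinarith
  have hfin : (p:ℝ) ^ 2 * (q:ℝ) ^ 2 = (19 - (p:ℝ) ^ 2) * (38 - 3 * (p:ℝ) ^ 2) := by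
    have e1 : (q:ℝ) ^ 2 = 2 * s ^ 2 - (p : ℝ) * s := by linarith
    rw [e1]
    have e2 : (p:ℝ) ^ 2 * (2 * s ^ 2 - (p : ℝ) * s) = 2 * ((p:ℝ) * s) ^ 2 - (p:ℝ) ^ 2 * ((p:ℝ) * s) := by ring
    rw [e2, hps]
    ring
  have hfinZ : p ^ 2 * q ^ 2 = (19 - p ^ 2) * (38 - 3 * p ^ 2) := by exact_mod_cast hfin
  have hpZ : 0 < p := by exact_mod_cast hpos
  have hpZ5 : p < 5 := by exact_mod_cast hp5
  exact intX p q hpZ (by omega) hfinZ

theorem alg2X (a b c S0 S1 S2 y : ℝ) (hc : 0 < c) (hS0 : 0 < S0) (hy0 : 0 < y) (hy1 : y < 1)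
    (M1 M2 : ℤ) (o1 : (M1 - 19) % 2 = 0) (o2 : (M2 - 19) % 2 = 0)
    (ea : a = y * c) (eb : b = (1 - y ^ 2) * c) (eS1 : S1 = S0 * (2 - y ^ 2))
    (eS2 : S2 = S0 * ((1 - y ^ 2) * (3 - y ^ 2)))
    (h1 : -S0 + S1 + S2 = M1 * (-a - b - c)) (h2 : -S0 + S1 + S2 = M2 * (-a + b + c))
    (ha : 19 * (a * b) = S0 * S1 * ((1 - y ^ 2) * (3 * y - y ^ 3))) : False := by
  subst ea eb eS1 eS2
  have hcne : c ≠ 0 := hc.ne'
  obtain ⟨s, hs⟩ : ∃ s, S0 = s * c := ⟨S0 / c, by field_simp⟩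
  have hspos : 0 < s := by
    by_contra hneg
    push Not at hneg
    nlinarith
  subst hs
  have hy2 : y ^ 2 < 1 := by nlinarith
  refine algX s y hspos hy0 hy1 M1 M2 o1 o2 ?_ ?_ ?_
  · have hne : c * ((2 - y) * (1 + y)) ≠ 0 := by
      have : 0 < c * ((2 - y) * (1 + y)) := mul_pos hc (mul_pos (by linarith) (by linarith))
      exact this.ne'
    refine mul_left_cancel₀ hne ?_
    linear_combination h1
  · have hne : c * ((2 + y) * (1 - y)) ≠ 0 := by
      have : 0 < c * ((2 + y) * (1 - y)) := mul_pos hc (mul_pos (by linarith) (by linarith))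
      exact this.ne'
    refine mul_left_cancel₀ hne ?_
    linear_combination h2
  · have hne : c ^ 2 * (y * (1 - y ^ 2)) ≠ 0 := by
      have : 0 < c ^ 2 * (y * (1 - y ^ 2)) := mul_pos (by positivity) (mul_pos hy0 (by linarith))
      exact this.ne'
    refine mul_left_cancel₀ hne ?_
    linear_combination -ha

theorem trigX (α β γ : ℝ) (h1 : 3 * α + 2 * β = Real.pi) (h2 : α + β + γ = Real.pi) :
    Real.sin α = (-2 * Real.cos γ) * Real.sin γ ∧
    Real.sin β = (1 - (-2 * Real.cos γ) ^ 2) * Real.sin γ ∧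
    2 * Real.cos α = 2 - (-2 * Real.cos γ) ^ 2 ∧
    2 * Real.cos β = 3 * (-2 * Real.cos γ) - (-2 * Real.cos γ) ^ 3 := by
  have eα : α = 2 * γ - Real.pi := by linarith
  have eβ : β = 2 * Real.pi - 3 * γ := by linarith
  subst eα eβ
  have hsc := Real.sin_sq_add_cos_sq γ
  refine ⟨?_, ?_, ?_, ?_⟩
  · rw [Real.sin_sub_pi, Real.sin_two_mul]
    ring
  · rw [Real.sin_two_pi_sub, Real.sin_three_mul]
    have : Real.sin γ ^ 3 = Real.sin γ * (1 - Real.cos γ ^ 2) := by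
      rw [← hsc]
      ring
    rw [this]
    ring
  · rw [Real.cos_sub_pi, Real.cos_two_mul]
    ring
  · rw [Real.cos_two_pi_sub, Real.cos_three_mul]
    ring

/-- TARGET: this corner pattern is impossible for N = 19 -/
theorem shapeD2 {ℓ θ S A : Fin 3 → ℝ} {β : Fin 3 → Fin 3 → ℕ}
    (h : Data 19 ℓ θ S A ![![1,0,0],![2,0,0],![0,2,0]] β) : False := by
  have hA0 := h.angles 0
  have hA1 := h.angles 1
  have hA2 := h.angles 2
  simp [Fin.sum_univ_three] at hA0 hA1 hA2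
  have hAs := h.Asum
  have hts := h.tsum
  have hrel : 3 * θ 0 + 2 * θ 1 = Real.pi := by linarith
  obtain ⟨t0, t1, c0, c1⟩ := trigX (θ 0) (θ 1) (θ 2) hrel hts
  have hγ : 0 < Real.sin (θ 2) := by
    refine Real.sin_pos_of_pos_of_lt_pi (h.tpos 2) ?_
    have := h.tpos 0
    have := h.tpos 1
    linarith
  generalize hy : -2 * Real.cos (θ 2) = y at t0 t1 c0 c1
  have sa := h.sinet 0 2
  have sb := h.sinet 1 2
  rw [t0] at sa
  rw [t1] at sb
  have ea : ℓ 0 = y * ℓ 2 := by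
    refine mul_right_cancel₀ hγ.ne' ?_
    linear_combination sa
  have eb : ℓ 1 = (1 - y ^ 2) * ℓ 2 := by
    refine mul_right_cancel₀ hγ.ne' ?_
    linear_combination sb
  have hl0 := h.lpos 0
  have hl1 := h.lpos 1
  have hl2 := h.lpos 2
  have hy0 : 0 < y := by
    rw [ea] at hl0
    exact (pos_iff_pos_of_mul_pos hl0).2 hl2
  have hy1' : 0 < 1 - y ^ 2 := by
    rw [eb] at hl1
    exact (pos_iff_pos_of_mul_pos hl1).2 hl2
  have hy1 : y < 1 := by nlinarith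
  have s0 : Real.sin (A 0) = y * Real.sin (θ 2) := by rw [hA0, t0]
  have s1 : Real.sin (A 1) = y * (2 - y ^ 2) * Real.sin (θ 2) := by
    rw [hA1, Real.sin_two_mul, t0]
    linear_combination (y * Real.sin (θ 2)) * c0
  have s2 : Real.sin (A 2) = (1 - y ^ 2) * (3 * y - y ^ 3) * Real.sin (θ 2) := by
    rw [hA2, Real.sin_two_mul, t1]
    linear_combination ((1 - y ^ 2) * Real.sin (θ 2)) * c1
  have hyγ : y * Real.sin (θ 2) ≠ 0 := (mul_pos hy0 hγ).ne'
  have T1 := h.sineT 1 0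
  have T2 := h.sineT 2 0
  rw [s0, s1] at T1
  rw [s0, s2] at T2
  have eS1 : S 1 = S 0 * (2 - y ^ 2) := by
    refine mul_right_cancel₀ hyγ ?_
    linear_combination T1
  have eS2 : S 2 = S 0 * ((1 - y ^ 2) * (3 - y ^ 2)) := by
    refine mul_right_cancel₀ hyγ ?_
    linear_combination T2
  have har := h.area
  rw [s2] at har
  have har2 : 19 * (ℓ 0 * ℓ 1) = S 0 * S 1 * ((1 - y ^ 2) * (3 * y - y ^ 3)) := by
    refine mul_right_cancel₀ hγ.ne' ?_
    push_cast at har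
    linear_combination har
  obtain ⟨M1, -, hm1, hs1, -⟩ := h.char ![-1, -1, -1] (by intro k; fin_cases k <;> simp) (by simp)
    ⟨2, by simp [Fin.sum_univ_three]⟩ (by simp [Fin.sum_univ_three, Fin.prod_univ_three])
  obtain ⟨M2, -, hm2, hs2, -⟩ := h.char ![-1, 1, 1] (by intro k; fin_cases k <;> simp) (by simp)
    ⟨2, by simp [Fin.sum_univ_three]⟩ (by simp [Fin.sum_univ_three, Fin.prod_univ_three])
  simp [Fin.sum_univ_three, Fin.prod_univ_three] at hs1 hs2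
  refine alg2X (ℓ 0) (ℓ 1) (ℓ 2) (S 0) (S 1) (S 2) y hl2 (h.Spos 0) hy0 hy1 M1 M2
    (by exact_mod_cast hm1) (by exact_mod_cast hm2) ea eb eS1 eS2 ?_ ?_ har2
  · linear_combination hs1
  · linear_combination hs2

end Pool.Agent.Helper549.Tri.ShapeD2
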