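import Mathlib
import Pool.Agent.Helper549.Tri.DataDef
set_option autoImplicit false
noncomputable section
open scoped BigOperators

namespace Pool.Agent.Helper549.Tri.ShapeD3

/-- TARGET: this corner pattern is impossible for N = 19 -/
theorem shapeD3 {ℓ θ S A : Fin 3 → ℝ} {β : Fin 3 → Fin 3 → ℕ}
    (h : Data 19 ℓ θ S A ![![1,0,0],![1,1,0],![1,1,0]] β) : False := by
  have hA0 : A 0 = θ 0 := by
    have := h.angles 0
    simpa [Fin.sum_univ_three] using this
  have hA1 : A 1 = θ 0 + θ 1 := by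
    have := h.angles 1
    simpa [Fin.sum_univ_three] using this
  have hA2 : A 2 = θ 0 + θ 1 := by
    have := h.angles 2
    simpa [Fin.sum_univ_three] using this
  have hAs := h.Asum
  have hts := h.tsum
  have hθ0p := h.tpos 0
  have hθ1p := h.tpos 1
  have hθ2p := h.tpos 2
  obtain ⟨e, he⟩ : ∃ e, e = θ 0 + θ 1 := ⟨_, rfl⟩
  have hθ0 : θ 0 = Real.pi - 2 * e := by linarith
  have hθ1 : θ 1 = 3 * e - Real.pi := by linarith
  have hθ2 : θ 2 = Real.pi - e := by linarith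
  have hse : 0 < Real.sin e := by
    apply Real.sin_pos_of_pos_of_lt_pi <;> linarith
  obtain ⟨y, hy⟩ : ∃ y, y = 2 * Real.cos e := ⟨_, rfl⟩
  have hs0 : Real.sin (θ 0) = y * Real.sin e := by
    rw [hθ0, Real.sin_pi_sub, Real.sin_two_mul, hy]; ring
  have hs1 : Real.sin (θ 1) = (1 - y ^ 2) * Real.sin e := by
    rw [hθ1, Real.sin_sub_pi, Real.sin_three_mul, hy]
    have := Real.sin_sq_add_cos_sq e
    have h3 : Real.sin e ^ 3 = Real.sin e * (1 - Real.cos e ^ 2) := by
      rw [← this]; ring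
    rw [h3]; ring
  have hs2 : Real.sin (θ 2) = Real.sin e := by
    rw [hθ2, Real.sin_pi_sub]
  have hℓ0p := h.lpos 0
  have hℓ1p := h.lpos 1
  have hc := h.lpos 2
  have ha : ℓ 0 = y * ℓ 2 := by
    have h1 := h.sinet 0 2
    rw [hs2, hs0] at h1
    have : (ℓ 0 - y * ℓ 2) * Real.sin e = 0 := by linarith
    rcases mul_eq_zero.1 this with h2 | h2
    · linarith
    · exact absurd h2 hse.ne'
  have hb : ℓ 1 = (1 - y ^ 2) * ℓ 2 := by
    have h1 := h.sinet 1 2
    rw [hs2, hs1] at h1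
    have : (ℓ 1 - (1 - y ^ 2) * ℓ 2) * Real.sin e = 0 := by linarith
    rcases mul_eq_zero.1 this with h2 | h2
    · linarith
    · exact absurd h2 hse.ne'
  have hy0 : 0 < y := by
    rw [ha] at hℓ0p
    exact pos_of_mul_pos_left hℓ0p hc.le
  have hy1 : 0 < 1 - y ^ 2 := by
    rw [hb] at hℓ1p
    exact pos_of_mul_pos_left hℓ1p hc.le
  have hy2 : y < 1 := by nlinarith
  obtain ⟨s, hs⟩ : ∃ s, s = S 2 / ℓ 2 := ⟨_, rfl⟩
  have hS2 : S 2 = s * ℓ 2 := by rw [hs]; field_simp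
  have hsp : 0 < s := by rw [hs]; exact div_pos (h.Spos 2) hc
  have hS1 : S 1 = s * ℓ 2 := by
    have h1 := h.sineT 1 2
    rw [hA1, hA2, ← he] at h1
    have := mul_right_cancel₀ hse.ne' h1
    rw [this, hS2]
  have hS0 : S 0 = s * y * ℓ 2 := by
    have h1 := h.sineT 0 2
    rw [hA0, hA2, ← he, hs0, hS2] at h1
    have : S 0 * Real.sin e = (s * y * ℓ 2) * Real.sin e := by linarith
    exact mul_right_cancel₀ hse.ne' this
  have harea : s ^ 2 = 19 * (1 - y ^ 2) := by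
    have h1 := h.area
    rw [hs2, hA2, ← he, ha, hb, hS0, hS1] at h1
    have h2 : (s ^ 2 - 19 * (1 - y ^ 2)) * (y * ℓ 2 ^ 2 * Real.sin e) = 0 := by
      push_cast at h1
      linarith
    have h3 : 0 < y * ℓ 2 ^ 2 * Real.sin e := by positivity
    rcases mul_eq_zero.1 h2 with h4 | h4
    · linarith
    · exact absurd h4 h3.ne'
  obtain ⟨M1, hM1, hM1o, hM1e, -⟩ := h.char ![-1, -1, -1] (by decide) (by decide)
    ⟨2, by decide⟩ (by decide)
  obtain ⟨M2, hM2, hM2o, hM2e, hM2i⟩ := h.char ![-1, 1, 1] (by decide) (by decide)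
    ⟨2, by decide⟩ (by decide)
  simp [Fin.sum_univ_three, Fin.prod_univ_three] at hM1e hM2e
  rw [ha, hb, hS0, hS1, hS2] at hM1e hM2e
  have e1 : s = -(M1 : ℝ) * (1 + y) := by
    have h1 : (s + (M1 : ℝ) * (1 + y)) * ((2 - y) * ℓ 2) = 0 := by linarith
    have h2 : 0 < (2 - y) * ℓ 2 := mul_pos (by linarith) hc
    rcases mul_eq_zero.1 h1 with h3 | h3
    · linarith
    · exact absurd h3 h2.ne'
  have e2 : s = -(M2 : ℝ) * (1 - y) := by
    have h1 : (s + (M2 : ℝ) * (1 - y)) * ((2 + y) * ℓ 2) = 0 := by linarith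
    have h2 : 0 < (2 + y) * ℓ 2 := mul_pos (by linarith) hc
    rcases mul_eq_zero.1 h1 with h3 | h3
    · linarith
    · exact absurd h3 h2.ne'
  have hprod : M1 * M2 = 19 := by
    have h1 : ((M1 : ℝ) * M2 - 19) * (1 - y ^ 2) = 0 := by
      have : s ^ 2 = (-(M1 : ℝ) * (1 + y)) * (-(M2 : ℝ) * (1 - y)) := by
        rw [sq]; nth_rewrite 1 [e1]; nth_rewrite 1 [e2]; rfl
      rw [harea] at this
      linarith
    rcases mul_eq_zero.1 h1 with h3 | h3
    · have : ((M1 * M2 : ℤ) : ℝ) = ((19 : ℤ) : ℝ) := by push_cast; linarith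
      exact_mod_cast this
    · exact absurd h3 hy1.ne'
  have hM1n : M1 < 0 := by
    have : (M1 : ℝ) < 0 := by
      by_contra hcon
      push Not at hcon
      have : 0 ≤ (M1 : ℝ) * (1 + y) := mul_nonneg hcon (by linarith)
      linarith
    exact_mod_cast this
  have hM2n : M2 < 0 := by
    have : (M2 : ℝ) < 0 := by
      by_contra hcon
      push Not at hcon
      have : 0 ≤ (M2 : ℝ) * (1 - y) := mul_nonneg hcon (by linarith)
      linarith
    exact_mod_cast this
  have hlt : M2 < M1 := by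
    have h1 : -(M1 : ℝ) * (1 + y) = -(M2 : ℝ) * (1 - y) := by rw [← e1, ← e2]
    have h2 : (M1 : ℝ) < 0 := by exact_mod_cast hM1n
    have h3 : (M2 : ℝ) < 0 := by exact_mod_cast hM2n
    have h4 : (M2 : ℝ) < M1 := by
      have h5 : 0 < (-(M1 : ℝ)) * y := mul_pos (by linarith) hy0
      have h6 : 0 < (-(M2 : ℝ)) * y := mul_pos (by linarith) hy0
      linarith
    exact_mod_cast h4
  have hcases : M1 = -1 ∧ M2 = -19 := by
    rw [Nat.cast_ofNat] at hM2
    have h1 := (abs_le.1 hM2).1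
    have h2 : -19 ≤ M2 := h1
    interval_cases M2 <;> omega
  obtain ⟨rfl, rfl⟩ := hcases
  push_cast at e1 e2
  have hyv : y = 9 / 10 := by linarith
  have hsv : s = 19 / 10 := by rw [e1, hyv]; norm_num
  have hi := hM2i (by norm_num)
  have hβ0 : ∀ j, β j 0 = 0 := by
    intro j
    by_contra hcon
    have h1 := hi j 0 (Nat.pos_of_ne_zero hcon)
    fin_cases j <;> simp [Fin.prod_univ_three] at h1
  have hℓ1v : ℓ 1 = 19 / 100 * ℓ 2 := by rw [hb, hyv]; norm_num
  have side : ∀ j, S j = (19 * (β j 1 : ℝ) + 100 * (β j 2 : ℝ)) / 100 * ℓ 2 := by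
    intro j
    have h1 := h.side j
    rw [Fin.sum_univ_three, hβ0 j, hℓ1v] at h1
    rw [h1]; push_cast; ring
  have k0 : 19 * β 0 1 + 100 * β 0 2 = 171 := by
    have h1 := side 0
    rw [hS0, hsv, hyv] at h1
    have h2 := mul_right_cancel₀ hc.ne' h1
    have h3 : (19 * (β 0 1 : ℝ) + 100 * (β 0 2 : ℝ)) = 171 := by linarith
    exact_mod_cast h3
  have k1 : 19 * β 1 1 + 100 * β 1 2 = 190 := by
    have h1 := side 1
    rw [hS1, hsv] at h1
    have h2 := mul_right_cancel₀ hc.ne' h1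
    have h3 : (19 * (β 1 1 : ℝ) + 100 * (β 1 2 : ℝ)) = 190 := by linarith
    exact_mod_cast h3
  have k2 : 19 * β 2 1 + 100 * β 2 2 = 190 := by
    have h1 := side 2
    rw [hS2, hsv] at h1
    have h2 := mul_right_cancel₀ hc.ne' h1
    have h3 : (19 * (β 2 1 : ℝ) + 100 * (β 2 2 : ℝ)) = 190 := by linarith
    exact_mod_cast h3
  have hcount := h.count
  simp only [Fin.sum_univ_three] at hcount
  omega

end Pool.Agent.Helper549.Tri.ShapeD3
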