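import Mathlib
import Pool.Agent.Helper549.Tri.DataDef
set_option autoImplicit false
noncomputable section
open scoped BigOperators

namespace Pool.Agent.Helper549.Tri.ShapeD4

/-- TARGET: this corner pattern is impossible for N = 19 -/
theorem shapeD4 {ℓ θ S A : Fin 3 → ℝ} {β : Fin 3 → Fin 3 → ℕ}
    (h : Data 19 ℓ θ S A ![![1,0,0],![0,1,0],![2,1,0]] β) : False := by
  have a0 := h.angles 0
  have a1 := h.angles 1
  have a2 := h.angles 2
  simp [Fin.sum_univ_three] at a0 a1 a2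
  have hs := h.Asum
  have ht := h.tsum
  have t0 := h.tpos 0
  have t1 := h.tpos 1
  have t2 := h.tpos 2
  have hA2 : A 2 = θ 2 := by linarith
  have p0 : 0 < Real.sin (θ 0) := Real.sin_pos_of_pos_of_lt_pi t0 (by linarith)
  have p1 : 0 < Real.sin (θ 1) := Real.sin_pos_of_pos_of_lt_pi t1 (by linarith)
  have p2 : 0 < Real.sin (θ 2) := Real.sin_pos_of_pos_of_lt_pi t2 (by linarith)
  have l0 := h.lpos 0
  have l1 := h.lpos 1
  have l2 := h.lpos 2
  have e10 := h.sinet 1 0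
  have e20 := h.sinet 2 0
  have s10 := h.sineT 1 0
  have s20 := h.sineT 2 0
  rw [a0, a1] at s10
  rw [a0, hA2] at s20
  have f1 : S 1 * ℓ 0 = S 0 * ℓ 1 := by
    have : (S 1 * ℓ 0 - S 0 * ℓ 1) * Real.sin (θ 0) = 0 := by
      linear_combination ℓ 0 * s10 - S 0 * e10
    rcases mul_eq_zero.mp this with h1 | h1
    · linarith
    · exact absurd h1 p0.ne'
  have f2 : S 2 * ℓ 0 = S 0 * ℓ 2 := by
    have : (S 2 * ℓ 0 - S 0 * ℓ 2) * Real.sin (θ 0) = 0 := by
      linear_combination ℓ 0 * s20 - S 0 * e20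
    rcases mul_eq_zero.mp this with h1 | h1
    · linarith
    · exact absurd h1 p0.ne'
  have ar := h.area
  rw [hA2] at ar
  push_cast at ar
  have g1 : 19 * (ℓ 0) ^ 2 = (S 0) ^ 2 := by
    have : (19 * (ℓ 0) ^ 2 - (S 0) ^ 2) * (ℓ 1 * Real.sin (θ 2)) = 0 := by
      linear_combination ℓ 0 * ar + S 0 * Real.sin (θ 2) * f1
    rcases mul_eq_zero.mp this with h1 | h1
    · linarith
    · exact absurd h1 (mul_pos l1 p2).ne'
  -- the triangle inequality
  have hsin : Real.sin (θ 0) = Real.sin (θ 1) * Real.cos (θ 2) + Real.cos (θ 1) * Real.sin (θ 2) := by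
    rw [← Real.sin_add, ← Real.sin_pi_sub]
    congr 1
    linarith
  have c1 : Real.cos (θ 1) < 1 := by
    rcases lt_or_eq_of_le (Real.cos_le_one (θ 1)) with hc | hc
    · exact hc
    · have := Real.sin_sq_add_cos_sq (θ 1)
      rw [hc] at this
      nlinarith [mul_pos p1 p1]
  have c2 : Real.cos (θ 2) ≤ 1 := Real.cos_le_one (θ 2)
  have q : 0 < -Real.sin (θ 0) + Real.sin (θ 1) + Real.sin (θ 2) := by
    rw [hsin]
    nlinarith [mul_nonneg p1.le (sub_nonneg.mpr c2), mul_pos p2 (sub_pos.mpr c1)]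
  have tri : 0 < -ℓ 0 + ℓ 1 + ℓ 2 := by
    have h1 : (-ℓ 0 + ℓ 1 + ℓ 2) * Real.sin (θ 0) =
        ℓ 0 * (-Real.sin (θ 0) + Real.sin (θ 1) + Real.sin (θ 2)) := by
      linear_combination e10 + e20
    have h2 : 0 < (-ℓ 0 + ℓ 1 + ℓ 2) * Real.sin (θ 0) := by
      rw [h1]; exact mul_pos l0 q
    exact (mul_pos_iff_of_pos_right p0).mp h2
  obtain ⟨M, hM1, -, hM3, -⟩ := h.char ![-1, 1, 1] (by decide) (by decide)
    ⟨2, by decide⟩ (by decide)
  simp [Fin.sum_univ_three, Fin.prod_univ_three] at hM3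
  have k1 : (S 0 - M * ℓ 0) * (-ℓ 0 + ℓ 1 + ℓ 2) = 0 := by
    linear_combination ℓ 0 * hM3 - f1 - f2
  have k2 : S 0 = M * ℓ 0 := by
    rcases mul_eq_zero.mp k1 with h1 | h1
    · linarith
    · exact absurd h1 tri.ne'
  have k3 : ((M : ℝ) ^ 2 - 19) * (ℓ 0) ^ 2 = 0 := by
    rw [k2] at g1
    linear_combination -g1
  have k4 : (M : ℝ) ^ 2 = 19 := by
    rcases mul_eq_zero.mp k3 with h1 | h1
    · linarith
    · exact absurd h1 (pow_pos l0 2).ne'
  have k5 : M ^ 2 = 19 := by exact_mod_cast k4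
  have k6 : -4 ≤ M ∧ M ≤ 4 := by
    constructor <;> nlinarith
  obtain ⟨k7, k8⟩ := k6
  interval_cases M <;> omega

end Pool.Agent.Helper549.Tri.ShapeD4
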