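import Mathlib
import Pool.Agent.Helper549.Tri.DataDef
set_option autoImplicit false
noncomputable section
open scoped BigOperators

namespace Pool.Agent.Helper549.Tri.ShapeD5

theorem aux_irr {s : ℝ} {N : ℕ} (hN : ¬ IsSquare N) (hs : 0 < s) (hs2 : s ^ 2 = N) {q r : ℚ}
    (h : (r : ℝ) = s * (q : ℝ)) : q = 0 := by
  by_contra hq
  have h1 : Irrational (Real.sqrt (N : ℝ)) := irrational_sqrt_natCast_iff.mpr hN
  have h2 : Real.sqrt (N : ℝ) = s := by
    rw [← hs2, Real.sqrt_sq hs.le]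
  rw [h2] at h1
  apply h1
  refine ⟨r / q, ?_⟩
  have hq' : (q : ℝ) ≠ 0 := by exact_mod_cast hq
  push_cast
  rw [h]
  field_simp

theorem aux_ns10 : ¬ IsSquare 10 := by
  rintro ⟨r, hr⟩
  have h1 : r < 4 := by nlinarith
  interval_cases r <;> omega

theorem aux_ns14 : ¬ IsSquare 14 := by
  rintro ⟨r, hr⟩
  have h1 : r < 4 := by nlinarith
  interval_cases r <;> omega

/-- TARGET: this corner pattern is impossible for N = 19 -/
theorem shapeD5 {ℓ θ S A : Fin 3 → ℝ} {β : Fin 3 → Fin 3 → ℕ}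
    (h : Data 19 ℓ θ S A ![![2,0,0],![0,1,0],![1,1,0]] β) : False := by
  have hA0 : A 0 = 2 * θ 0 := by
    have := h.angles 0
    simpa [Fin.sum_univ_three] using this
  have hA1 : A 1 = θ 1 := by
    have := h.angles 1
    simpa [Fin.sum_univ_three] using this
  have hA2 : A 2 = θ 0 + θ 1 := by
    have := h.angles 2
    simpa [Fin.sum_univ_three] using this
  have h3 := h.Asum
  have h4 := h.tsum
  obtain ⟨ε, hε⟩ : ∃ ε, ε = θ 0 + θ 1 := ⟨_, rfl⟩
  have hα : θ 0 = Real.pi - 2 * ε := by linarith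
  have hβ : θ 1 = 3 * ε - Real.pi := by linarith
  have hγ : θ 2 = Real.pi - ε := by linarith
  obtain ⟨y, hy⟩ : ∃ y, y = 2 * Real.cos ε := ⟨_, rfl⟩
  have hsin : 0 < Real.sin ε := by
    apply Real.sin_pos_of_pos_of_lt_pi
    · have := h.Apos 2
      linarith
    · have h5 := h.Apos 0
      have h6 := h.Apos 1
      linarith
  obtain ⟨σ, hσ⟩ : ∃ σ, σ = Real.sin ε := ⟨_, rfl⟩
  have hcs : σ ^ 2 = 1 - (y / 2) ^ 2 := by
    have := Real.sin_sq_add_cos_sq ε
    rw [hσ, hy]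
    linarith [this]
  have hc : Real.cos ε = y / 2 := by rw [hy]; ring
  have sα : Real.sin (θ 0) = y * σ := by
    rw [hα, Real.sin_pi_sub, Real.sin_two_mul, hc, ← hσ]; ring
  have sβ : Real.sin (θ 1) = (1 - y ^ 2) * σ := by
    rw [hβ, Real.sin_sub_pi, Real.sin_three_mul, ← hσ]
    have : σ ^ 3 = σ * σ ^ 2 := by ring
    rw [this, hcs]; ring
  have sγ : Real.sin (θ 2) = σ := by
    rw [hγ, Real.sin_pi_sub, ← hσ]
  have cα : Real.cos (θ 0) = 1 - y ^ 2 / 2 := by
    rw [hα, Real.cos_pi_sub, Real.cos_two_mul, hc]; ring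
  have sA0 : Real.sin (A 0) = y * (2 - y ^ 2) * σ := by
    rw [hA0, Real.sin_two_mul, sα, cα]; ring
  have sA1 : Real.sin (A 1) = (1 - y ^ 2) * σ := by rw [hA1, sβ]
  have sA2 : Real.sin (A 2) = σ := by rw [hA2, ← hε, hσ]
  rw [← hσ] at hsin
  have hne : σ ≠ 0 := hsin.ne'
  have ha : ℓ 0 = ℓ 2 * y := by
    have := h.sinet 0 2
    rw [sα, sγ] at this
    apply mul_right_cancel₀ hne
    rw [this]; ring
  have hb : ℓ 1 = ℓ 2 * (1 - y ^ 2) := by
    have := h.sinet 1 2
    rw [sβ, sγ] at this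
    apply mul_right_cancel₀ hne
    rw [this]; ring
  have hS0 : S 0 = S 2 * (y * (2 - y ^ 2)) := by
    have := h.sineT 0 2
    rw [sA0, sA2] at this
    apply mul_right_cancel₀ hne
    rw [this]; ring
  have hS1 : S 1 = S 2 * (1 - y ^ 2) := by
    have := h.sineT 1 2
    rw [sA1, sA2] at this
    apply mul_right_cancel₀ hne
    rw [this]; ring
  have hl0 := h.lpos 0
  have hl1 := h.lpos 1
  have hc0 := h.lpos 2
  have hS2 := h.Spos 2
  have hy0 : 0 < y := by
    rw [ha] at hl0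
    exact pos_of_mul_pos_right hl0 hc0.le
  have hy1 : 0 < 1 - y ^ 2 := by
    rw [hb] at hl1
    exact pos_of_mul_pos_right hl1 hc0.le
  have hylt : y < 1 := by nlinarith
  obtain ⟨s, hs⟩ : ∃ s, s = S 2 / ℓ 2 := ⟨_, rfl⟩
  have hs0 : 0 < s := by rw [hs]; positivity
  have hSs : S 2 = s * ℓ 2 := by rw [hs]; field_simp
  have harea : s ^ 2 * (2 - y ^ 2) = 19 := by
    have := h.area
    rw [sγ, sA2, hS0, hS1, ha, hb, hSs] at this
    have h7 : 0 < ℓ 2 ^ 2 * y * (1 - y ^ 2) * σ := by positivity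
    apply mul_left_cancel₀ h7.ne'
    push_cast at this
    linear_combination -this
  obtain ⟨M, hM1, hM2, hM3, -⟩ := h.char ![-1, -1, -1] (by decide) (by decide) (by decide) (by decide)
  have hM4 : s * y = -(M : ℝ) := by
    simp [Fin.sum_univ_three, Fin.prod_univ_three] at hM3
    rw [hS0, hS1, ha, hb, hSs] at hM3
    have h7 : 0 < ℓ 2 * (2 + y - y ^ 2) := by
      apply mul_pos hc0
      nlinarith
    apply mul_left_cancel₀ h7.ne'
    linear_combination hM3
  have hMsq : (M : ℝ) ^ 2 = s ^ 2 * y ^ 2 := by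
    have : (M : ℝ) = -(s * y) := by linarith
    rw [this]; ring
  have hs2 : 2 * s ^ 2 = 19 + (M : ℝ) ^ 2 := by
    rw [hMsq]; linarith
  have hMneg : M < 0 := by
    have : (0 : ℝ) < -(M : ℝ) := by rw [← hM4]; positivity
    have h8 : (M : ℝ) < 0 := by linarith
    exact_mod_cast h8
  have hMlt : M ^ 2 < 19 := by
    have h8 : s ^ 2 * y ^ 2 < s ^ 2 := by
      have : 0 < s ^ 2 := by positivity
      nlinarith
    have h9 : (M : ℝ) ^ 2 < 19 := by linarith
    exact_mod_cast h9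
  have hMge : -5 < M := by nlinarith
  have hside : s = β 2 0 * y + β 2 1 * (1 - y ^ 2) + β 2 2 := by
    have := h.side 2
    rw [Fin.sum_univ_three, ha, hb, hSs] at this
    apply mul_left_cancel₀ hc0.ne'
    linear_combination this
  have hside2 : s ^ 2 = -(M : ℝ) * β 2 0 + s * (β 2 1 * (1 - y ^ 2) + β 2 2) := by
    rw [← hM4]
    calc s ^ 2 = s * s := by ring
      _ = s * (β 2 0 * y + β 2 1 * (1 - y ^ 2) + β 2 2) := by rw [← hside]
      _ = _ := by ring
  have hMcases : M = -1 ∨ M = -3 := by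
    have h10 : M = -4 ∨ M = -3 ∨ M = -2 ∨ M = -1 := by omega
    rcases h10 with h10 | h10 | h10 | h10 <;> subst h10
    · norm_num at hM2
    · right; rfl
    · norm_num at hM2
    · left; rfl
  rcases hMcases with hM | hM
  · subst hM
    have e1 : s ^ 2 = ((10 : ℕ) : ℝ) := by push_cast at hs2 ⊢; linarith
    have e2 : y ^ 2 = 1 / 10 := by
      have : s ^ 2 * y ^ 2 = 1 := by rw [← hMsq]; norm_num
      rw [e1] at this
      push_cast at this
      linarith
    rw [e2, e1] at hside2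
    have e3 := aux_irr (q := (β 2 1 : ℚ) * (9 / 10) + (β 2 2 : ℚ)) (r := 10 - (β 2 0 : ℚ))
      aux_ns10 hs0 e1 (by push_cast at hside2 ⊢; linarith)
    have e4 : (0 : ℚ) ≤ (β 2 1 : ℚ) := Nat.cast_nonneg _
    have e5 : (0 : ℚ) ≤ (β 2 2 : ℚ) := Nat.cast_nonneg _
    have e6 : (β 2 1 : ℚ) = 0 := by linarith
    have e7 : (β 2 2 : ℚ) = 0 := by linarith
    have e8 : β 2 1 = 0 := by exact_mod_cast e6
    have e9 : β 2 2 = 0 := by exact_mod_cast e7
    obtain ⟨x, z, hxz, hx, hz⟩ := h.corner 0 2 (by decide)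
    fin_cases x
    · fin_cases z
      · exact hxz rfl
      · exact absurd hz (by simp [e8])
      · exact absurd hz (by simp [e9])
    · exact absurd hx (by simp)
    · exact absurd hx (by simp)
  · subst hM
    have e1 : s ^ 2 = ((14 : ℕ) : ℝ) := by push_cast at hs2 ⊢; linarith
    have e2 : y ^ 2 = 9 / 14 := by
      have : s ^ 2 * y ^ 2 = 9 := by rw [← hMsq]; norm_num
      rw [e1] at this
      push_cast at this
      linarith
    rw [e2, e1] at hside2
    have e3 := aux_irr (q := (β 2 1 : ℚ) * (5 / 14) + (β 2 2 : ℚ)) (r := 14 - 3 * (β 2 0 : ℚ))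
      aux_ns14 hs0 e1 (by push_cast at hside2 ⊢; linarith)
    have e4 : (0 : ℚ) ≤ (β 2 1 : ℚ) := Nat.cast_nonneg _
    have e5 : (0 : ℚ) ≤ (β 2 2 : ℚ) := Nat.cast_nonneg _
    have e6 : (β 2 1 : ℚ) = 0 := by linarith
    have e7 : (β 2 2 : ℚ) = 0 := by linarith
    have e8 : β 2 1 = 0 := by exact_mod_cast e6
    have e9 : β 2 2 = 0 := by exact_mod_cast e7
    rw [e8, e9] at hside2
    push_cast at hside2
    have e10 : (14 : ℝ) = ((3 * β 2 0 : ℕ) : ℝ) := by push_cast; linarith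
    have e11 : 14 = 3 * β 2 0 := by exact_mod_cast e10
    omega

end Pool.Agent.Helper549.Tri.ShapeD5
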