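import Mathlib
import Pool.Agent.Helper549.Tri.DataDef
set_option autoImplicit false
noncomputable section
open scoped BigOperators

namespace Pool.Agent.Helper549.Tri.ShapeD6

/-- TARGET: this corner pattern is impossible for N = 19 -/
theorem shapeD6 {ℓ θ S A : Fin 3 → ℝ} {β : Fin 3 → Fin 3 → ℕ}
    (h : Data 19 ℓ θ S A ![![3,0,0],![0,1,0],![0,1,0]] β) : False := by
  have hA0 : A 0 = 3 * θ 0 := by
    have := h.angles 0
    simpa [Fin.sum_univ_three] using this
  have hA1 : A 1 = θ 1 := by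
    have := h.angles 1
    simpa [Fin.sum_univ_three] using this
  have hA2 : A 2 = θ 1 := by
    have := h.angles 2
    simpa [Fin.sum_univ_three] using this
  obtain ⟨m, -, -, hm, -⟩ := h.char ![-1,-1,-1] (by intro k; fin_cases k <;> simp) (by simp)
    ⟨2, by simp [Fin.sum_univ_three]⟩ (by simp [Fin.prod_univ_three, Fin.sum_univ_three])
  obtain ⟨n, -, -, hn, -⟩ := h.char ![-1,1,1] (by intro k; fin_cases k <;> simp) (by simp)
    ⟨2, by simp [Fin.sum_univ_three]⟩ (by simp [Fin.prod_univ_three, Fin.sum_univ_three])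
  simp [Fin.sum_univ_three, Fin.prod_univ_three] at hm hn
  obtain ⟨l0, l1, l2⟩ : 0 < ℓ 0 ∧ 0 < ℓ 1 ∧ 0 < ℓ 2 := ⟨h.lpos 0, h.lpos 1, h.lpos 2⟩
  obtain ⟨s0, s1, s2⟩ : 0 < S 0 ∧ 0 < S 1 ∧ 0 < S 2 := ⟨h.Spos 0, h.Spos 1, h.Spos 2⟩
  have hts := h.tsum
  have hAs := h.Asum
  rw [hA0, hA1, hA2] at hAs
  have t0 := h.tpos 0
  have t1 := h.tpos 1
  have t2 := h.tpos 2
  obtain ⟨e, he⟩ : ∃ e, e = θ 0 + θ 1 := ⟨_, rfl⟩
  have e0 : θ 0 = Real.pi - 2 * e := by rw [he]; linarith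
  have e1 : θ 1 = 3 * e - Real.pi := by rw [he]; linarith
  have e2 : θ 2 = Real.pi - e := by rw [he]; linarith
  have hse : 0 < Real.sin e := by
    apply Real.sin_pos_of_pos_of_lt_pi
    · linarith
    · linarith
  have hsc := Real.sin_sq_add_cos_sq e
  obtain ⟨y, hy⟩ : ∃ y, y = 2 * Real.cos e := ⟨_, rfl⟩
  have hc : Real.cos e = y / 2 := by linarith
  have hss : Real.sin e ^ 2 = 1 - y ^ 2 / 4 := by rw [hc] at hsc; linarith
  have q0 : Real.sin (θ 0) = y * Real.sin e := by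
    rw [e0, Real.sin_pi_sub, Real.sin_two_mul, hc]; ring
  have q1 : Real.sin (θ 1) = (1 - y ^ 2) * Real.sin e := by
    rw [e1, Real.sin_sub_pi, Real.sin_three_mul]
    have : Real.sin e ^ 3 = Real.sin e * Real.sin e ^ 2 := by ring
    rw [this, hss]; ring
  have q2 : Real.sin (θ 2) = Real.sin e := by rw [e2, Real.sin_pi_sub]
  have q3 : 2 * Real.cos (θ 1) = y * (3 - y ^ 2) := by
    rw [e1, Real.cos_sub_pi, Real.cos_three_mul, hc]; ring
  -- sides of the tile
  have a0 : ℓ 0 = y * ℓ 2 := by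
    have := h.sinet 0 2
    rw [q0, q2] at this
    have h2 : (ℓ 0 - y * ℓ 2) * Real.sin e = 0 := by linarith
    rcases mul_eq_zero.1 h2 with h3 | h3
    · linarith
    · exact absurd h3 hse.ne'
  have a1 : ℓ 1 = (1 - y ^ 2) * ℓ 2 := by
    have := h.sinet 1 2
    rw [q1, q2] at this
    have h2 : (ℓ 1 - (1 - y ^ 2) * ℓ 2) * Real.sin e = 0 := by linarith
    rcases mul_eq_zero.1 h2 with h3 | h3
    · linarith
    · exact absurd h3 hse.ne'
  have hy0 : 0 < y := by
    by_contra hcon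
    push Not at hcon
    nlinarith
  have hy1 : 0 < 1 - y ^ 2 := by
    by_contra hcon
    push Not at hcon
    nlinarith
  have hy2 : y < 1 := by nlinarith
  have hs1 : 0 < Real.sin (θ 1) := by rw [q1]; positivity
  -- sides of the triangle
  have b1 : S 2 = S 1 := by
    have := h.sineT 1 2
    rw [hA1, hA2] at this
    have h2 : (S 2 - S 1) * Real.sin (θ 1) = 0 := by linarith
    rcases mul_eq_zero.1 h2 with h3 | h3
    · linarith
    · exact absurd h3 hs1.ne'
  have b0 : S 0 = y * (3 - y ^ 2) * S 1 := by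
    have := h.sineT 0 1
    rw [hA0, hA1] at this
    have h4 : 3 * θ 0 = Real.pi - 2 * θ 1 := by linarith
    rw [h4, Real.sin_pi_sub, Real.sin_two_mul] at this
    have h2 : (S 0 - (2 * Real.cos (θ 1)) * S 1) * Real.sin (θ 1) = 0 := by linarith
    rcases mul_eq_zero.1 h2 with h3 | h3
    · rw [q3] at h3; linarith
    · exact absurd h3 hs1.ne'
  have har := h.area
  rw [hA2, q1, q2, b0, a0, a1] at har
  push_cast at har
  rw [b0, b1, a0, a1] at hm hn
  have r1 : S 1 * (1 + y) = m * ℓ 2 := by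
    have h2 : (S 1 * (1 + y) - m * ℓ 2) * ((2 - y) * (1 + y)) = 0 := by linear_combination -hm
    rcases mul_eq_zero.1 h2 with h3 | h3
    · linarith
    · exfalso
      have : 0 < (2 - y) * (1 + y) := mul_pos (by linarith) (by linarith)
      linarith
  have r2 : S 1 * (1 - y) = n * ℓ 2 := by
    have h2 : (S 1 * (1 - y) - n * ℓ 2) * ((2 + y) * (1 - y)) = 0 := by linear_combination hn
    rcases mul_eq_zero.1 h2 with h3 | h3
    · linarith
    · exfalso
      have : 0 < (2 + y) * (1 - y) := mul_pos (by linarith) (by linarith)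
      linarith
  have r3 : 19 * ℓ 2 ^ 2 = (3 - y ^ 2) * S 1 ^ 2 := by
    have h2 : (19 * ℓ 2 ^ 2 - (3 - y ^ 2) * S 1 ^ 2) * (y * (1 - y ^ 2) * Real.sin e) = 0 := by
      linear_combination har
    rcases mul_eq_zero.1 h2 with h3 | h3
    · linarith
    · exfalso
      have : 0 < y * (1 - y ^ 2) * Real.sin e := by positivity
      linarith
  have r4 : (3 * ((m : ℝ) + n) ^ 2 - ((m : ℝ) - n) ^ 2 - 76) * ℓ 2 ^ 2 = 0 := by
    have p1 : ((m : ℝ) + n) * ℓ 2 = 2 * S 1 := by linear_combination -r1 - r2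
    have p2 : ((m : ℝ) - n) * ℓ 2 = 2 * y * S 1 := by linear_combination -r1 + r2
    calc _ = 3 * (((m : ℝ) + n) * ℓ 2) ^ 2 - (((m : ℝ) - n) * ℓ 2) ^ 2 - 4 * (19 * ℓ 2 ^ 2) := by
          ring
      _ = 0 := by rw [p1, p2, r3]; ring
  have r5 : 3 * ((m : ℝ) + n) ^ 2 - ((m : ℝ) - n) ^ 2 - 76 = 0 := by
    rcases mul_eq_zero.1 r4 with h3 | h3
    · exact h3
    · exact absurd h3 (by positivity)
  have r6 : 3 * (m + n) ^ 2 - (m - n) ^ 2 - 76 = 0 := by exact_mod_cast r5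
  have r7 : ∀ u : ℤ, u ^ 2 % 3 = 0 ∨ u ^ 2 % 3 = 1 := by
    intro u
    have h1 : u % 3 = 0 ∨ u % 3 = 1 ∨ u % 3 = 2 := by omega
    rcases h1 with h1 | h1 | h1 <;> simp [pow_two, Int.mul_emod, h1]
  have r8 := r7 (m - n)
  omega

end Pool.Agent.Helper549.Tri.ShapeD6
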