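import Mathlib
import Pool.Agent.Helper549.Tri.DataDef
set_option autoImplicit false
noncomputable section
open scoped BigOperators

namespace Pool.Agent.Helper549.Tri.ShapeE2

/-- TARGET: this corner pattern is impossible for N = 19 -/
theorem shapeE2 {ℓ θ S A : Fin 3 → ℝ} {β : Fin 3 → Fin 3 → ℕ}
    (h : Data 19 ℓ θ S A ![![1,0,0],![1,1,0],![1,2,0]] β) : False := by
  have hA0 := h.angles 0
  have hA1 := h.angles 1
  have hA2 := h.angles 2
  simp [Fin.sum_univ_three] at hA0 hA1 hA2
  have hAs := h.Asum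
  have hts := h.tsum
  have ha := h.lpos 0
  have hb := h.lpos 1
  have hc := h.lpos 2
  obtain ⟨a, ha'⟩ : ∃ a, a = ℓ 0 := ⟨_, rfl⟩
  obtain ⟨b, hb'⟩ : ∃ a, a = ℓ 1 := ⟨_, rfl⟩
  obtain ⟨c, hc'⟩ : ∃ a, a = ℓ 2 := ⟨_, rfl⟩
  obtain ⟨α, hα'⟩ : ∃ a, a = θ 0 := ⟨_, rfl⟩
  obtain ⟨β', hβ'⟩ : ∃ a, a = θ 1 := ⟨_, rfl⟩
  have hs1 := h.sinet 0 2
  have hs2 := h.sinet 1 2
  have hT1 := h.sineT 0 1
  have hT2 := h.sineT 0 2
  have hT3 := h.area
  have hS2 := h.side 2
  simp only [Fin.sum_univ_three] at hS2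
  rw [← ha', ← hb', ← hc'] at hS2
  rw [← ha'] at ha
  rw [← hb'] at hb
  rw [← hc'] at hc
  rw [← hα'] at hts hA0 hA1 hA2
  rw [← hβ'] at hts hA1 hA2
  have hαβ : α + β' = Real.pi / 3 := by linarith
  have hγ : θ 2 = 2 * Real.pi / 3 := by linarith
  have hγ' : θ 2 = Real.pi - Real.pi / 3 := by linarith
  have hsγ : Real.sin (θ 2) = Real.sin (Real.pi / 3) := by rw [hγ', Real.sin_pi_sub]
  have hcγ : Real.cos (Real.pi / 3) = 1 / 2 := Real.cos_pi_div_three
  have hspos : 0 < Real.sin (Real.pi / 3) :=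
    Real.sin_pos_of_pos_of_lt_pi (by positivity) (by linarith [Real.pi_pos])
  obtain ⟨κ, hκ⟩ : ∃ κ, κ = Real.sin (Real.pi / 3) / c := ⟨_, rfl⟩
  have hκpos : 0 < κ := by rw [hκ]; positivity
  have hsc : Real.sin (Real.pi / 3) = κ * c := by rw [hκ]; field_simp
  have hsinα : Real.sin α = κ * a := by
    rw [hsγ, hsc, ← ha', ← hc', ← hα'] at hs1
    have : c * (Real.sin α) = c * (κ * a) := by linarith
    exact mul_left_cancel₀ hc.ne' this
  have hsinβ : Real.sin β' = κ * b := by
    rw [hsγ, hsc, ← hb', ← hc', ← hβ'] at hs2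
    have : c * (Real.sin β') = c * (κ * b) := by linarith
    exact mul_left_cancel₀ hc.ne' this
  have hcosβ : c * Real.cos β' = a + b / 2 := by
    have h1 : Real.sin α = Real.sin (Real.pi / 3 - β') := by
      congr 1; linarith
    rw [Real.sin_sub, hcγ, hsc, hsinα, hsinβ] at h1
    have : κ * (c * Real.cos β') = κ * (a + b / 2) := by linarith
    exact mul_left_cancel₀ hκpos.ne' this
  have hcosα : c * Real.cos α = b + a / 2 := by
    have h1 : Real.sin β' = Real.sin (Real.pi / 3 - α) := by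
      congr 1; linarith
    rw [Real.sin_sub, hcγ, hsc, hsinα, hsinβ] at h1
    have : κ * (c * Real.cos α) = κ * (b + a / 2) := by linarith
    exact mul_left_cancel₀ hκpos.ne' this
  have hsq : c ^ 2 = a ^ 2 + a * b + b ^ 2 := by
    have h1 : Real.sin (Real.pi / 3) = Real.sin (α + β') := by rw [hαβ]
    rw [Real.sin_add, hsc, hsinα, hsinβ] at h1
    have h2 : κ * (c ^ 2) = κ * (a ^ 2 + a * b + b ^ 2) := by
      have : κ * c ^ 2 = κ * a * (c * Real.cos β') + κ * b * (c * Real.cos α) := by
        have : κ * c * c = (κ * a * Real.cos β' + Real.cos α * (κ * b)) * c := by rw [h1]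
        linear_combination this
      rw [this, hcosβ, hcosα]; ring
    exact mul_left_cancel₀ hκpos.ne' h2
  have hsA2 : Real.sin (A 2) = κ * (a + b) := by
    have h1 : A 2 = Real.pi / 3 + β' := by linarith
    rw [h1, Real.sin_add, hcγ, hsc, hsinβ]
    have : κ * c * Real.cos β' = κ * (c * Real.cos β') := by ring
    rw [this, hcosβ]; ring
  have hsA1 : Real.sin (A 1) = κ * c := by
    have h1 : A 1 = Real.pi / 3 := by linarith
    rw [h1, hsc]
  have hsA0 : Real.sin (A 0) = κ * a := by rw [hA0, hsinα]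
  obtain ⟨s, hs⟩ : ∃ s, s = S 0 / a := ⟨_, rfl⟩
  have hspos' : 0 < s := by rw [hs]; exact div_pos (h.Spos 0) ha
  have hS0 : S 0 = s * a := by rw [hs]; field_simp
  have hS1 : S 1 = s * c := by
    rw [hsA1, hsA0, hS0] at hT1
    have : (κ * a) * S 1 = (κ * a) * (s * c) := by linarith
    exact mul_left_cancel₀ (by positivity) this
  have hS2' : S 2 = s * (a + b) := by
    rw [hsA2, hsA0, hS0] at hT2
    have : (κ * a) * S 2 = (κ * a) * (s * (a + b)) := by linarith
    exact mul_left_cancel₀ (by positivity) this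
  have harea : 19 * b = s ^ 2 * (a + b) := by
    rw [hS0, hS1, hsA2, hsγ, hsc, ← ha', ← hb'] at hT3
    push_cast at hT3
    have : (κ * a * c) * (19 * b) = (κ * a * c) * (s ^ 2 * (a + b)) := by linarith
    exact mul_left_cancel₀ (by positivity) this
  obtain ⟨M1, hM1a, -, hM1, -⟩ := h.char ![1, -1, 1] (by intro k; fin_cases k <;> simp) (by simp)
    (by decide) (by decide)
  obtain ⟨M2, hM2a, -, hM2, hM2b⟩ := h.char ![-1, 1, 1] (by intro k; fin_cases k <;> simp) (by simp)
    (by decide) (by decide)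
  simp [Fin.sum_univ_three, Fin.prod_univ_three] at hM1 hM2
  rw [hS0, hS1, hS2', ← ha', ← hb', ← hc'] at hM1 hM2
  have e1 : s * (2 * a + b - c) = M1 * (a - b + c) := by linarith
  have e2 : s * (2 * a + b + c) = (-M2 : ℤ) * (-a + b + c) := by push_cast; linarith
  obtain ⟨n, hn⟩ : ∃ n, n = -M2 := ⟨_, rfl⟩
  rw [← hn] at e2
  have hab := mul_pos ha hb
  have ha2 := pow_pos ha 2
  have hb2 := pow_pos hb 2
  have hca : a < c := lt_of_pow_lt_pow_left₀ 2 hc.le (by rw [hsq]; linarith)
  have hcb : b < c := lt_of_pow_lt_pow_left₀ 2 hc.le (by rw [hsq]; linarith)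
  have hprod : (M1 : ℝ) * n = 19 := by
    have h1 : (s * (2 * a + b - c)) * (s * (2 * a + b + c)) = s ^ 2 * (3 * (a * (a + b))) := by
      have : (2 * a + b) ^ 2 - c ^ 2 = 3 * (a * (a + b)) := by rw [hsq]; ring
      rw [← this]; ring
    have h2 : (M1 * (a - b + c)) * (n * (-a + b + c)) = M1 * n * (3 * a * b) := by
      have : c ^ 2 - (a - b) ^ 2 = 3 * a * b := by rw [hsq]; ring
      rw [← this]; ring
    rw [e1, e2, h2] at h1
    have h3 : (3 * a * b) * (M1 * n : ℝ) = (3 * a * b) * 19 := by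
      calc (3 * a * b) * (M1 * n : ℝ) = M1 * n * (3 * a * b) := by ring
        _ = s ^ 2 * (3 * (a * (a + b))) := h1
        _ = 3 * a * (s ^ 2 * (a + b)) := by ring
        _ = 3 * a * (19 * b) := by rw [harea]
        _ = _ := by ring
    exact mul_left_cancel₀ (by positivity) h3
  have hprodZ : M1 * n = 19 := by exact_mod_cast hprod
  have hnpos : 0 < n := by
    have h1 : 0 < (n : ℝ) * (-a + b + c) := by rw [← e2]; positivity
    have h2 : (0 : ℝ) < n := by
      by_contra hcon
      push Not at hcon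
      have : (n : ℝ) * (-a + b + c) ≤ 0 := mul_nonpos_of_nonpos_of_nonneg hcon (by linarith)
      linarith
    exact_mod_cast h2
  have hn19 : n ∣ 19 := ⟨M1, by linarith⟩
  have hcases : n = 1 ∨ n = 19 := by
    obtain ⟨k, hk⟩ := Int.eq_ofNat_of_zero_le hnpos.le
    rw [hk] at hn19 ⊢
    have hk19 : k ∣ 19 := by exact_mod_cast hn19
    rcases (Nat.dvd_prime (by norm_num : Nat.Prime 19)).1 hk19 with h1 | h1
    · left; rw [h1]; rfl
    · right; rw [h1]; rfl
  rcases hcases with hn1 | hn1
  · subst hn1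
    have hM : M1 = 19 := by linarith
    subst hM
    push_cast at e1 e2
    have hs1' : s < 1 := by
      by_contra hcon
      push Not at hcon
      have : 2 * a + b + c ≤ s * (2 * a + b + c) := by
        have : 0 < 2 * a + b + c := by positivity
        exact le_mul_of_one_le_left this.le hcon
      linarith
    have h2 : 0 < 2 * a + b - c := by
      have : 0 < s * (2 * a + b - c) := by rw [e1]; linarith
      exact (pos_iff_pos_of_mul_pos this).1 hspos'
    have h3 := mul_lt_mul_of_pos_right hs1' h2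
    linarith
  · subst hn1
    have hM : M1 = 1 := by linarith
    subst hM
    have hM2' : M2 = -19 := by linarith
    subst hM2'
    have hβ0 : β 2 0 = 0 := by
      by_contra hcon
      have := hM2b (by norm_num) 2 0 (Nat.pos_of_ne_zero hcon)
      revert this
      simp [Fin.prod_univ_three]
    rw [hβ0] at hS2
    push_cast at e1 e2 hS2
    -- scale
    obtain ⟨x, hx⟩ : ∃ x, x = a / c := ⟨_, rfl⟩
    obtain ⟨y, hy⟩ : ∃ y, y = b / c := ⟨_, rfl⟩
    have hax : a = x * c := by rw [hx]; field_simp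
    have hby : b = y * c := by rw [hy]; field_simp
    have hxpos : 0 < x := by rw [hx]; positivity
    have hypos : 0 < y := by rw [hy]; positivity
    have hx1 : x < 1 := by rw [hx]; exact (div_lt_one hc).2 hca
    have hy1 : y < 1 := by rw [hy]; exact (div_lt_one hc).2 hcb
    have q1 : s * (2 * x + y - 1) = x - y + 1 := by
      rw [hax, hby] at e1
      have : c * (s * (2 * x + y - 1)) = c * (x - y + 1) := by linarith
      exact mul_left_cancel₀ hc.ne' this
    have q2 : s * (2 * x + y + 1) = 19 * (-x + y + 1) := by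
      rw [hax, hby] at e2
      have : c * (s * (2 * x + y + 1)) = c * (19 * (-x + y + 1)) := by linarith
      exact mul_left_cancel₀ hc.ne' this
    have q3 : 1 = x ^ 2 + x * y + y ^ 2 := by
      rw [hax, hby] at hsq
      have : c ^ 2 * 1 = c ^ 2 * (x ^ 2 + x * y + y ^ 2) := by linarith
      exact mul_left_cancel₀ (by positivity) this
    have q4 : s = 9 - 10 * (x - y) := by linarith
    have q5 : s * (2 * x + y) = 10 - 9 * (x - y) := by linarith
    obtain ⟨w, hw⟩ : ∃ w, w = x - y := ⟨_, rfl⟩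
    obtain ⟨z, hz⟩ : ∃ z, z = 2 * x + y := ⟨_, rfl⟩
    rw [← hw] at q4 q5
    rw [← hz] at q5
    have q6 : z ^ 2 - z * w + w ^ 2 = 3 := by rw [hz, hw]; linarith
    have q7 : (w ^ 2 - 1) * (100 * w ^ 2 - 270 * w + 143) = 0 := by
      have h1 : s ^ 2 * (z ^ 2 - z * w + w ^ 2) = s ^ 2 * 3 := by rw [q6]
      have h2 : s ^ 2 * (z ^ 2 - z * w + w ^ 2) =
          (s * z) ^ 2 - (s * z) * w * s + w ^ 2 * s ^ 2 := by ring
      rw [h2, q5, q4] at h1
      linarith
    have hw1 : w < 1 := by rw [hw]; linarith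
    have hw2 : -1 < w := by rw [hw]; linarith
    have q8 : 100 * w ^ 2 - 270 * w + 143 = 0 := by
      rcases mul_eq_zero.1 q7 with h1 | h1
      · have := mul_pos (sub_pos.2 hw1) (by linarith : 0 < 1 + w)
        linarith
      · exact h1
    -- x = 9/10
    have hx9 : x = 9 / 10 := by
      have h1 : s * (3 * x) = s * (27 / 10) := by
        have h2 : 3 * x = z + w := by rw [hz, hw]; ring
        have h3 : s * (3 * x) = s * z + s * w := by rw [h2]; ring
        rw [h3, q5, q4]
        linarith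
      have := mul_left_cancel₀ hspos'.ne' h1
      linarith
    have hy2 : 100 * y ^ 2 + 90 * y - 19 = 0 := by
      rw [hx9] at q3; linarith
    have hsy : s = 10 * y := by rw [q4, hw, hx9]; ring
    have hS2c : (19 / 10 : ℝ) = β 2 1 * y + β 2 2 := by
      have h1 : S 2 = (19 / 10) * c := by
        rw [hS2', hax, hby, hsy, hx9]
        linear_combination (c / 10) * hy2
      rw [h1, hby] at hS2
      have : c * (19 / 10 : ℝ) = c * (β 2 1 * y + β 2 2) := by linarith
      exact mul_left_cancel₀ hc.ne' this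
    -- irrationality
    have hirr : Irrational y := by
      have h157 : Irrational (Real.sqrt 157) := by
        have : Nat.Prime 157 := by norm_num
        exact_mod_cast this.irrational_sqrt
      have hysq : (20 * y + 9) ^ 2 = 157 := by linarith
      have hy3 : 20 * y + 9 = Real.sqrt 157 := by
        rw [← hysq, Real.sqrt_sq (by positivity)]
      rw [← hy3] at h157
      intro hrat
      apply h157
      obtain ⟨q, hq⟩ := hrat
      exact ⟨20 * q + 9, by push_cast; rw [hq]⟩
    have hβ1 : β 2 1 = 0 := by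
      by_contra hcon
      apply hirr
      refine ⟨(19 / 10 - β 2 2) / β 2 1, ?_⟩
      have : (β 2 1 : ℝ) ≠ 0 := by exact_mod_cast hcon
      push_cast
      field_simp
      linarith
    rw [hβ1] at hS2c
    push_cast at hS2c
    have h19 : (19 : ℝ) = 10 * β 2 2 := by linarith
    have h19' : (19 : ℕ) = 10 * β 2 2 := by exact_mod_cast h19
    omega

end Pool.Agent.Helper549.Tri.ShapeE2
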