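import Mathlib
import Pool.Agent.Helper549.Tri.DataDef
set_option autoImplicit false
noncomputable section
open scoped BigOperators

namespace Pool.Agent.Helper549.Tri.ShapeE3

/-- TARGET: this corner pattern is impossible for N = 19 -/
theorem shapeE3 {ℓ θ S A : Fin 3 → ℝ} {β : Fin 3 → Fin 3 → ℕ}
    (h : Data 19 ℓ θ S A ![![1,0,0],![0,1,0],![2,2,0]] β) : False := by
  have hA0 : A 0 = θ 0 := by
    have := h.angles 0
    simpa [Fin.sum_univ_three] using this
  have hA1 : A 1 = θ 1 := by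
    have := h.angles 1
    simpa [Fin.sum_univ_three] using this
  have hA2 : A 2 = 2 * θ 0 + 2 * θ 1 := by
    have := h.angles 2
    simpa [Fin.sum_univ_three] using this
  have hsum := h.Asum
  have htsum := h.tsum
  rw [hA0, hA1, hA2] at hsum
  have ht0 := h.tpos 0
  have ht1 := h.tpos 1
  have h01 : θ 0 + θ 1 = Real.pi / 3 := by linarith
  have hθ2 : θ 2 = Real.pi - Real.pi / 3 := by linarith
  have hA2' : A 2 = θ 2 := by rw [hA2, hθ2]; linarith
  have hpi := Real.pi_pos
  have hs0 : 0 < Real.sin (θ 0) := Real.sin_pos_of_pos_of_lt_pi ht0 (by linarith)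
  have hs1 : 0 < Real.sin (θ 1) := Real.sin_pos_of_pos_of_lt_pi ht1 (by linarith)
  have hs12 : Real.sin (θ 1) < Real.sin (θ 2) := by
    rw [hθ2, Real.sin_pi_sub]
    exact Real.sin_lt_sin_of_lt_of_le_pi_div_two (by linarith) (by linarith) (by linarith)
  have hs2 : 0 < Real.sin (θ 2) := hs1.trans hs12
  have l0 := h.lpos 0
  have l1 := h.lpos 1
  have l2 := h.lpos 2
  have hl21 : ℓ 1 < ℓ 2 := by
    have e := h.sinet 2 1
    by_contra hcon
    rw [not_lt] at hcon
    nlinarith
  -- the big triangle is similar to the tile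
  have r1 : S 1 * ℓ 0 = S 0 * ℓ 1 := by
    have e1 := h.sineT 1 0
    have e2 := h.sinet 1 0
    rw [hA0, hA1] at e1
    have : (S 1 * ℓ 0 - S 0 * ℓ 1) * (Real.sin (θ 0)) = 0 := by
      linear_combination ℓ 0 * e1 - S 0 * e2
    rcases mul_eq_zero.1 this with h' | h'
    · linarith
    · exact absurd h' hs0.ne'
  have r2 : S 2 * ℓ 0 = S 0 * ℓ 2 := by
    have e1 := h.sineT 2 0
    have e2 := h.sinet 2 0
    rw [hA0, hA2'] at e1
    have : (S 2 * ℓ 0 - S 0 * ℓ 2) * (Real.sin (θ 0)) = 0 := by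
      linear_combination ℓ 0 * e1 - S 0 * e2
    rcases mul_eq_zero.1 this with h' | h'
    · linarith
    · exact absurd h' hs0.ne'
  have harea := h.area
  rw [hA2'] at harea
  have har : 19 * (ℓ 0 * ℓ 1) = S 0 * S 1 := by
    have : (19 * (ℓ 0 * ℓ 1) - S 0 * S 1) * Real.sin (θ 2) = 0 := by
      push_cast at harea
      linear_combination harea
    rcases mul_eq_zero.1 this with h' | h'
    · linarith
    · exact absurd h' hs2.ne'
  have har2 : 19 * ℓ 0 ^ 2 = S 0 ^ 2 := by
    have : (19 * ℓ 0 ^ 2 - S 0 ^ 2) * ℓ 1 = 0 := by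
      linear_combination ℓ 0 * har + S 0 * r1
    rcases mul_eq_zero.1 this with h' | h'
    · linarith
    · exact absurd h' l1.ne'
  obtain ⟨M, -, -, hM3, -⟩ := h.char ![1, -1, 1] (by intro k; fin_cases k <;> simp) (by simp)
    ⟨2, by simp [Fin.sum_univ_three]⟩ (by simp [Fin.prod_univ_three, Fin.sum_univ_three])
  simp [Fin.prod_univ_three, Fin.sum_univ_three] at hM3
  have hd : 0 < ℓ 0 - ℓ 1 + ℓ 2 := by linarith
  have hMl : S 0 = M * ℓ 0 := by
    have : (S 0 - M * ℓ 0) * (ℓ 0 - ℓ 1 + ℓ 2) = 0 := by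
      linear_combination ℓ 0 * hM3 + r1 - r2
    rcases mul_eq_zero.1 this with h' | h'
    · linarith
    · exact absurd h' hd.ne'
  have hM2 : (M : ℝ) ^ 2 = 19 := by
    have : ((M : ℝ) ^ 2 - 19) * ℓ 0 ^ 2 = 0 := by
      rw [hMl] at har2
      linear_combination -har2
    rcases mul_eq_zero.1 this with h' | h'
    · linarith
    · exact absurd h' (by positivity)
  have hM2' : M ^ 2 = 19 := by exact_mod_cast hM2
  have hlo : -5 < M := by nlinarith
  have hhi : M < 5 := by nlinarith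
  interval_cases M <;> omega

end Pool.Agent.Helper549.Tri.ShapeE3
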