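import Mathlib
import Pool.Agent.Helper549.Tri.DataDef
set_option autoImplicit false
noncomputable section
open scoped BigOperators

namespace Pool.Agent.Helper549.Tri.ShapeE4

theorem shapeE4_aux : ∀ P ∈ Finset.Icc (1 : ℤ) 19, ∀ Q ∈ Finset.Icc (1 : ℤ) 19,
    (3 * Q ^ 2 - P ^ 2 - 19) * (3 * Q ^ 2 - 3 * P ^ 2 - 19) ≠ 76 * P ^ 2 := by
  decide +kernel

/-- TARGET: this corner pattern is impossible for N = 19 -/
theorem shapeE4 {ℓ θ S A : Fin 3 → ℝ} {β : Fin 3 → Fin 3 → ℕ}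
    (h : Data 19 ℓ θ S A ![![1,0,0],![2,0,0],![0,3,0]] β) : False := by
  have hA0 : A 0 = θ 0 := by
    have := h.angles 0
    simpa [Fin.sum_univ_three] using this
  have hA1 : A 1 = 2 * θ 0 := by
    have := h.angles 1
    simpa [Fin.sum_univ_three] using this
  have hA2 : A 2 = 3 * θ 1 := by
    have := h.angles 2
    simpa [Fin.sum_univ_three] using this
  have hAs := h.Asum
  have hts := h.tsum
  rw [hA0, hA1, hA2] at hAs
  obtain ⟨a, ha⟩ : ∃ a, a = ℓ 0 := ⟨_, rfl⟩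
  obtain ⟨b, hb⟩ : ∃ b, b = ℓ 1 := ⟨_, rfl⟩
  obtain ⟨c, hc⟩ : ∃ c, c = ℓ 2 := ⟨_, rfl⟩
  have ha0 : 0 < a := ha ▸ h.lpos 0
  have hb0 : 0 < b := hb ▸ h.lpos 1
  have hc0 : 0 < c := hc ▸ h.lpos 2
  have hS0 := h.Spos 0
  have ht0 := h.tpos 0
  have ht1 := h.tpos 1
  have hg : θ 2 = Real.pi - Real.pi / 3 := by linarith
  have hcosg : Real.cos (θ 2) = -(1 / 2) := by
    rw [hg, Real.cos_pi_sub, Real.cos_pi_div_three]
  obtain ⟨σ, hσ⟩ : ∃ σ, σ = Real.sin (θ 2) := ⟨_, rfl⟩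
  have hσ0 : 0 < σ := by
    rw [hσ, hg, Real.sin_pi_sub]
    apply Real.sin_pos_of_pos_of_lt_pi
    · linarith [Real.pi_pos]
    · linarith [Real.pi_pos]
  have hσ2 : σ ^ 2 = 3 / 4 := by
    have := Real.sin_sq_add_cos_sq (θ 2)
    rw [hcosg, ← hσ] at this
    linarith
  have hs0 : c * Real.sin (θ 0) = a * σ := by
    have := h.sinet 0 2
    rw [ha, hc, hσ]; linarith
  have hs1 : c * Real.sin (θ 1) = b * σ := by
    have := h.sinet 1 2
    rw [hb, hc, hσ]; linarith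
  have hca : c * Real.cos (θ 0) = b + a / 2 := by
    have h1 : Real.sin (θ 1) = Real.sin (θ 0 + θ 2) := by
      rw [← Real.sin_pi_sub (θ 0 + θ 2)]
      congr 1
      linarith
    rw [Real.sin_add, hcosg, ← hσ] at h1
    have h2 : σ * (c * Real.cos (θ 0)) = σ * (b + a / 2) := by
      linear_combination (-1 : ℝ) * c * h1 + hs1 + (1/2) * hs0
    exact mul_left_cancel₀ hσ0.ne' h2
  have hcc : c ^ 2 = a ^ 2 + a * b + b ^ 2 := by
    have := Real.sin_sq_add_cos_sq (θ 0)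
    have h2 : (c * Real.sin (θ 0)) ^ 2 + (c * Real.cos (θ 0)) ^ 2 = c ^ 2 := by
      linear_combination c ^ 2 * this
    rw [hs0, hca] at h2
    linear_combination (-1 : ℝ) * h2 + a ^ 2 * hσ2
  have hsin0 : 0 < Real.sin (θ 0) := by
    by_contra hcon
    have : c * Real.sin (θ 0) ≤ 0 := mul_nonpos_of_nonneg_of_nonpos hc0.le (not_lt.1 hcon)
    rw [hs0] at this
    have : 0 < a * σ := by positivity
    linarith
  have hS1 : c * S 1 = S 0 * (a + 2 * b) := by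
    have h1 := h.sineT 0 1
    rw [hA0, hA1, Real.sin_two_mul] at h1
    have h2 : Real.sin (θ 0) * (c * S 1) = Real.sin (θ 0) * (S 0 * (a + 2 * b)) := by
      linear_combination (-1 : ℝ) * c * h1 + 2 * S 0 * Real.sin (θ 0) * hca
    exact mul_left_cancel₀ hsin0.ne' h2
  have hsA2 : c ^ 3 * Real.sin (A 2) = 3 * a * b * (a + b) * σ := by
    rw [hA2, Real.sin_three_mul]
    have h1 : c ^ 3 * (3 * Real.sin (θ 1) - 4 * Real.sin (θ 1) ^ 3) =
        3 * c ^ 2 * (c * Real.sin (θ 1)) - 4 * (c * Real.sin (θ 1)) ^ 3 := by ring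
    rw [h1, hs1]
    linear_combination 3 * b * σ * hcc - 4 * b ^ 3 * σ * hσ2
  have hS2 : c ^ 2 * S 2 = S 0 * (3 * b * (a + b)) := by
    have h1 := h.sineT 0 2
    rw [hA0] at h1
    have h2 : (a * σ) * (c ^ 2 * S 2) = (a * σ) * (S 0 * (3 * b * (a + b))) := by
      rw [← hs0]
      have : (c * Real.sin (θ 0)) * (c ^ 2 * S 2) = c ^ 3 * (S 2 * Real.sin (θ 0)) := by ring
      rw [this, ← h1]
      have : c ^ 3 * (S 0 * Real.sin (A 2)) = S 0 * (c ^ 3 * Real.sin (A 2)) := by ring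
      rw [this, hsA2]
      linear_combination (-1 : ℝ) * (S 0 * (3 * b * (a + b))) * hs0
    exact mul_left_cancel₀ (by positivity) h2
  obtain ⟨M1, hM1, hM1', hM1e, -⟩ := h.char ![1, -1, 1] (by decide) (by decide) (by decide) (by decide)
  obtain ⟨M2, hM2, hM2', hM2e, -⟩ := h.char ![-1, 1, 1] (by decide) (by decide) (by decide) (by decide)
  simp only [Fin.sum_univ_three, Fin.prod_univ_three] at hM1e hM2e
  simp at hM1e hM2e
  rw [← ha, ← hb, ← hc] at hM1e hM2e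
  have hbc : b < c := by nlinarith
  have hac : a < c := by nlinarith
  have e1 : S 0 * (2 * a + b - c) = M1 * c ^ 2 := by
    have h1 : (a - b + c) * (S 0 * (2 * a + b - c)) = (a - b + c) * (M1 * c ^ 2) := by
      have h2 : c ^ 2 * (S 0 + S 1 - S 2) = c ^ 2 * (M1 * (a - b + c)) := by
        rw [show S 0 + S 1 - S 2 = M1 * (a - b + c) by linarith]
      linear_combination h2 - c * hS1 + hS2 - 2 * S 0 * hcc
    exact mul_left_cancel₀ (by linarith : (a - b + c) ≠ 0) h1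
  have e2 : S 0 * (2 * a + b + c) = M2 * c ^ 2 := by
    have h1 : (-a + b + c) * (S 0 * (2 * a + b + c)) = (-a + b + c) * (M2 * c ^ 2) := by
      have h2 : c ^ 2 * (-S 0 + S 1 + S 2) = c ^ 2 * (M2 * (-a + b + c)) := by
        rw [show -S 0 + S 1 + S 2 = M2 * (-a + b + c) by linarith]
      linear_combination h2 - c * hS1 - hS2 + 2 * S 0 * hcc
    exact mul_left_cancel₀ (by linarith : (-a + b + c) ≠ 0) h1
  have hM1b := abs_le.1 hM1
  have hM2b := abs_le.1 hM2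
  obtain ⟨P, Q, hP, hQ⟩ : ∃ P Q : ℤ, M1 + M2 = 2 * P ∧ M2 - M1 = 2 * Q := by
    refine ⟨(M1 + M2) / 2, (M2 - M1) / 2, ?_, ?_⟩
    · push_cast at hM1' hM2'; omega
    · push_cast at hM1' hM2'; omega
  have hPr : (M1 : ℝ) + M2 = 2 * P := by exact_mod_cast hP
  have hQr : (M2 : ℝ) - M1 = 2 * Q := by exact_mod_cast hQ
  have f1 : S 0 = Q * c := by
    have : c * (S 0) = c * (Q * c) := by
      linear_combination (1/2) * e2 - (1/2) * e1 + (1/2) * c ^ 2 * hQr
    exact mul_left_cancel₀ hc0.ne' this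
  have f2 : Q * (2 * a + b) = P * c := by
    have : c * (Q * (2 * a + b)) = c * (P * c) := by
      linear_combination (1/2) * e2 + (1/2) * e1 + (1/2) * c ^ 2 * hPr - (2 * a + b) * f1
    exact mul_left_cancel₀ hc0.ne' this
  have hQpos : (0 : ℝ) < Q := by
    by_contra hcon
    have : (Q : ℝ) * c ≤ 0 := mul_nonpos_of_nonpos_of_nonneg (not_lt.1 hcon) hc0.le
    linarith
  have hPpos : (0 : ℝ) < P := by
    by_contra hcon
    have h1 : (P : ℝ) * c ≤ 0 := mul_nonpos_of_nonpos_of_nonneg (not_lt.1 hcon) hc0.le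
    have h2 : 0 < (Q : ℝ) * (2 * a + b) := by positivity
    linarith
  have hQi : 0 < Q := by exact_mod_cast hQpos
  have hPi : 0 < P := by exact_mod_cast hPpos
  have f3 : 19 * c ^ 2 = 3 * Q ^ 2 * ((a + 2 * b) * (a + b)) := by
    have h1 := h.area
    rw [← ha, ← hb, ← hσ] at h1
    push_cast at h1
    have h2 : (a * b * σ * c ^ 2) * (19 * c ^ 2) = (a * b * σ * c ^ 2) * (3 * Q ^ 2 * ((a + 2 * b) * (a + b))) := by
      have h3 : c ^ 4 * (19 * (a * b * σ)) = S 0 * (c * S 1) * (c ^ 3 * Real.sin (A 2)) := by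
        linear_combination c ^ 4 * h1
      rw [hS1, hsA2, f1] at h3
      linear_combination h3
    exact mul_left_cancel₀ (by positivity) h2
  obtain ⟨x, hx⟩ : ∃ x, x = Q * a / c := ⟨_, rfl⟩
  obtain ⟨y, hy⟩ : ∃ y, y = Q * b / c := ⟨_, rfl⟩
  have g1 : 2 * x + y = P := by
    rw [hx, hy]
    field_simp
    linear_combination f2
  have g2 : x ^ 2 + x * y + y ^ 2 = Q ^ 2 := by
    rw [hx, hy]
    field_simp
    linear_combination (-1 : ℝ) * hcc
  have g3 : 3 * (x + 2 * y) * (x + y) = 19 := by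
    rw [hx, hy]
    field_simp
    linear_combination (-1 : ℝ) * f3
  have hy2 : y = P - 2 * x := by linarith
  subst hy2
  have k1 : 6 * x * P = 3 * P ^ 2 + 3 * Q ^ 2 - 19 := by
    linear_combination (-1 : ℝ) * g3 + 3 * g2
  have k2 : (3 * (Q : ℝ) ^ 2 - P ^ 2 - 19) * (3 * Q ^ 2 - 3 * P ^ 2 - 19) = 76 * P ^ 2 := by
    have k3 : (3 * (P : ℝ) ^ 2 + 3 * Q ^ 2 - 19) ^ 2 = 12 * P ^ 2 * Q ^ 2 - 12 * P ^ 4 +
        6 * P ^ 2 * (3 * (P : ℝ) ^ 2 + 3 * Q ^ 2 - 19) := by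
      rw [← k1]
      linear_combination 12 * (P : ℝ) ^ 2 * g2
    linear_combination k3
  have k4 : (3 * Q ^ 2 - P ^ 2 - 19) * (3 * Q ^ 2 - 3 * P ^ 2 - 19) = 76 * P ^ 2 := by
    exact_mod_cast k2
  have hP19 : P ≤ 19 := by push_cast at hM1b hM2b; omega
  have hQ19 : Q ≤ 19 := by push_cast at hM1b hM2b; omega
  exact shapeE4_aux P (Finset.mem_Icc.2 ⟨by omega, hP19⟩) Q (Finset.mem_Icc.2 ⟨by omega, hQ19⟩) k4

end Pool.Agent.Helper549.Tri.ShapeE4
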