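import Mathlib
import Pool.Agent.Helper549.Tri.DataDef
set_option autoImplicit false
noncomputable section
open scoped BigOperators

namespace Pool.Agent.Helper549.Tri.ShapeE5

theorem shapeE5_num (t σ g m n : ℝ) (mz nz : ℤ) (hm : m = mz) (hn : n = nz)
    (hm1 : 1 ≤ mz) (hn1 : 1 ≤ nz) (hmo : mz % 2 = 1) (hno : nz % 2 = 1) (ht : 0 < t)
    (E1 : g ^ 2 = 1 + t + t ^ 2)
    (E2 : σ * t * (2 + t - g) = m * (1 - t + g)) (E3 : σ * t * (2 + t + g) = n * (-1 + t + g))
    (E4 : σ ^ 2 * ((1 + t) * (2 + t)) = 19) (E5 : m * n * (2 + t) = 19 * t) : False := by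
  have K1 : (2 * σ * t - (n - m)) * g = (n + m) * (t - 1) := by linear_combination E3 - E2
  have K2 : (2 * σ * t - (n - m)) ^ 2 * g ^ 2 = (n + m) ^ 2 * (t - 1) ^ 2 := by
    rw [← mul_pow, K1, mul_pow]
  set P := (1 + t) * (2 + t) with hP
  rw [E1] at K2
  have K3 : σ * (4 * t * (n - m) * (1 + t + t ^ 2) * P) =
      (4 * 19 * t ^ 2 + (n - m) ^ 2 * P) * (1 + t + t ^ 2) - (n + m) ^ 2 * (t - 1) ^ 2 * P := by
    linear_combination (-P) * K2 + (4 * t ^ 2 * (1 + t + t ^ 2)) * E4
  have K4 : (4 * t * (n - m) * (1 + t + t ^ 2)) ^ 2 * 19 * P =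
      ((4 * 19 * t ^ 2 + (n - m) ^ 2 * P) * (1 + t + t ^ 2) -
        (n + m) ^ 2 * (t - 1) ^ 2 * P) ^ 2 := by
    rw [← K3]
    linear_combination (-(4 * t * (n - m) * (1 + t + t ^ 2)) ^ 2 * P) * E4
  have hlt : mz * nz < 19 := by
    have h1 : m * n < 19 := by
      by_contra hcon
      push Not at hcon
      have := mul_le_mul_of_nonneg_right hcon (by linarith : (0 : ℝ) ≤ 2 + t)
      linarith
    rw [hm, hn] at h1
    exact_mod_cast h1
  have hm2 : mz ≤ 18 := by nlinarith
  have hn2 : nz ≤ 18 := by nlinarith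
  have ht2 : t = 2 * (m * n) / (19 - m * n) := by
    have h1 : m * n < 19 := by rw [hm, hn]; exact_mod_cast hlt
    rw [eq_div_iff (by linarith)]
    linarith
  rw [hP, ht2] at K4
  clear_value P
  clear K1 K2 K3 E1 E2 E3 E4 hP ht2 E5
  subst hm hn
  interval_cases mz <;> first
    | omega
    | (interval_cases nz <;> first
        | omega
        | (exfalso; norm_num at K4))

/-- TARGET: this corner pattern is impossible for N = 19 -/
theorem shapeE5 {ℓ θ S A : Fin 3 → ℝ} {β : Fin 3 → Fin 3 → ℕ}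
    (h : Data 19 ℓ θ S A ![![1,0,0],![2,1,0],![0,2,0]] β) : False := by
  have hA0 : A 0 = θ 0 := by have := h.angles 0; simpa [Fin.sum_univ_three] using this
  have hA1 : A 1 = 2 * θ 0 + θ 1 := by have := h.angles 1; simpa [Fin.sum_univ_three] using this
  have hA2 : A 2 = 2 * θ 1 := by have := h.angles 2; simpa [Fin.sum_univ_three] using this
  have hAs := h.Asum
  have hts := h.tsum
  rw [hA0, hA1, hA2] at hAs
  have ha := h.lpos 0
  have hb := h.lpos 1
  have hc := h.lpos 2
  have hS0 := h.Spos 0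
  have hS1 := h.Spos 1
  have hS2 := h.Spos 2
  have hab : θ 0 + θ 1 = Real.pi / 3 := by linarith
  have hg : θ 2 = Real.pi - Real.pi / 3 := by linarith
  obtain ⟨M1, hM1a, hM1b, hM1c, -⟩ := h.char ![1, -1, 1] (by intro k; fin_cases k <;> simp)
    (by simp) ⟨2, by simp [Fin.sum_univ_three]⟩ (by simp [Fin.prod_univ_three, Fin.sum_univ_three])
  obtain ⟨M2, hM2a, hM2b, hM2c, -⟩ := h.char ![-1, 1, 1] (by intro k; fin_cases k <;> simp)
    (by simp) ⟨2, by simp [Fin.sum_univ_three]⟩ (by simp [Fin.prod_univ_three, Fin.sum_univ_three])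
  simp [Fin.prod_univ_three, Fin.sum_univ_three] at hM1c hM2c
  have s02 := h.sinet 0 2
  have s12 := h.sinet 1 2
  have T01 := h.sineT 0 1
  have T02 := h.sineT 0 2
  have harea := h.area
  rw [hA0, hA1] at T01
  rw [hA0, hA2] at T02
  rw [hA2] at harea
  have hsg : Real.sin (θ 2) = √3 / 2 := by
    rw [hg, Real.sin_pi_sub, Real.sin_pi_div_three]
  generalize hae : ℓ 0 = a at *
  generalize hbe : ℓ 1 = b at *
  generalize hce : ℓ 2 = c at *
  generalize hS0e : S 0 = S0 at *
  generalize hS1e : S 1 = S1 at *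
  generalize hS2e : S 2 = S2 at *
  have hsin3 : 0 < √3 := by positivity
  have hsq3 : √3 ^ 2 = 3 := Real.sq_sqrt (by norm_num)
  obtain ⟨kap, hkap⟩ : ∃ kap : ℝ, kap = Real.sin (θ 2) / c := ⟨_, rfl⟩
  have hkp : 0 < kap := by rw [hkap, hsg]; positivity
  have hsγ : Real.sin (θ 2) = kap * c := by rw [hkap]; field_simp
  have hsα : Real.sin (θ 0) = kap * a := by rw [hkap]; field_simp; linarith
  have hsβ : Real.sin (θ 1) = kap * b := by rw [hkap]; field_simp; linarith
  have hsab : Real.sin (θ 0 + θ 1) = kap * c := by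
    rw [← hsγ, hg, Real.sin_pi_sub, hab]
  have hcab : Real.cos (θ 0 + θ 1) = 1 / 2 := by rw [hab, Real.cos_pi_div_three]
  obtain ⟨x, hx⟩ : ∃ x : ℝ, x = Real.cos (θ 0) := ⟨_, rfl⟩
  obtain ⟨y, hy⟩ : ∃ y : ℝ, y = Real.cos (θ 1) := ⟨_, rfl⟩
  have p1 : (kap * a) ^ 2 + x ^ 2 = 1 := by rw [← hsα, hx]; exact Real.sin_sq_add_cos_sq _
  have p2 : (kap * b) ^ 2 + y ^ 2 = 1 := by rw [← hsβ, hy]; exact Real.sin_sq_add_cos_sq _
  have e1 : kap * (a * y + b * x) = kap * c := by
    rw [← hsab, Real.sin_add, hsα, hsβ, ← hx, ← hy]; ring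
  have e1' : a * y + b * x = c := mul_left_cancel₀ hkp.ne' e1
  have e2 : x * y - kap ^ 2 * (a * b) = 1 / 2 := by
    rw [← hcab, Real.cos_add, hsα, hsβ, ← hx, ← hy]; ring
  have c2 : c ^ 2 = a ^ 2 + a * b + b ^ 2 := by
    rw [← e1']; linear_combination (a ^ 2) * p2 + (b ^ 2) * p1 + (2 * a * b) * e2
  have cx : 2 * c * x = a + 2 * b := by
    rw [← e1']; linear_combination (2 * a) * e2 + (2 * b) * p1
  have cy : 2 * c * y = 2 * a + b := by
    rw [← e1']; linear_combination (2 * b) * e2 + (2 * a) * p2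
  have hs2b : Real.sin (2 * θ 1) * c = kap * (b * (2 * a + b)) := by
    rw [Real.sin_two_mul, hsβ, ← hy]; linear_combination (kap * b) * cy
  have hs2ab : Real.sin (2 * θ 0 + θ 1) = kap * (a + b) := by
    have : 2 * θ 0 + θ 1 = θ 0 + (θ 0 + θ 1) := by ring
    rw [this, Real.sin_add (θ 0), hsab, hcab, hsα, ← hx]
    linear_combination (kap / 2) * cx
  rw [hs2ab, hsα] at T01
  rw [hsα] at T02
  have T1 : S0 * (a + b) = S1 * a := by
    have : kap * (S0 * (a + b)) = kap * (S1 * a) := by linarith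
    exact mul_left_cancel₀ hkp.ne' this
  have T2 : S0 * (b * (2 * a + b)) = S2 * (a * c) := by
    have : kap * (S0 * (b * (2 * a + b))) = kap * (S2 * (a * c)) := by
      linear_combination c * T02 - S0 * hs2b
    exact mul_left_cancel₀ hkp.ne' this
  obtain ⟨s, hs⟩ : ∃ s : ℝ, s = S0 / (a * c) := ⟨_, rfl⟩
  have hsp : 0 < s := by rw [hs]; positivity
  have r0 : S0 = s * (a * c) := by rw [hs]; field_simp
  have r1 : S1 = s * ((a + b) * c) := by
    have : a * S1 = a * (s * ((a + b) * c)) := by linear_combination -T1 + (a + b) * r0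
    exact mul_left_cancel₀ ha.ne' this
  have r2 : S2 = s * (b * (2 * a + b)) := by
    have : (a * c) * S2 = (a * c) * (s * (b * (2 * a + b))) := by
      linear_combination -T2 + (b * (2 * a + b)) * r0
    exact mul_left_cancel₀ (by positivity) this
  have hA : s ^ 2 * ((a + b) * (2 * a + b)) = 19 := by
    rw [hsγ] at harea
    have h1 : (kap * (a * b * c ^ 2)) * (s ^ 2 * ((a + b) * (2 * a + b))) =
        (kap * (a * b * c ^ 2)) * 19 := by
      have h2 : (19 : ℝ) * (a * b * (kap * c)) * c = S0 * S1 * (Real.sin (2 * θ 1) * c) := by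
        push_cast at harea
        linear_combination c * harea
      rw [hs2b, r0, r1] at h2
      linear_combination -h2
    exact mul_left_cancel₀ (by positivity) h1
  rw [r0, r1, r2] at hM1c hM2c
  have m1 : s * (b * (2 * a + b - c)) = M1 * (a - b + c) := by linear_combination hM1c
  have m2 : s * (b * (2 * a + b + c)) = M2 * (-a + b + c) := by linear_combination hM2c
  have hab0 : 0 < a * b := mul_pos ha hb
  have haa0 : 0 < a * a := mul_pos ha ha
  have q1 : 0 < 2 * a + b - c := by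
    have : c < 2 * a + b := by
      refine lt_of_pow_lt_pow_left₀ 2 (by positivity) ?_
      linarith [c2, (by ring : (2 * a + b) ^ 2 = 4 * (a * a) + 4 * (a * b) + b ^ 2),
        (by ring : a ^ 2 = a * a)]
    linarith
  have q23 := abs_lt.1 (abs_lt_of_sq_lt_sq (a := b - a) (b := c)
    (by linarith [c2, (by ring : (b - a) ^ 2 = b ^ 2 - 2 * (a * b) + a ^ 2)]) hc.le)
  have q2 : 0 < a - b + c := by linarith [q23.2]
  have q3 : 0 < -a + b + c := by linarith [q23.1]
  have hM1p : 0 < (M1 : ℝ) := by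
    have : 0 < (M1 : ℝ) * (a - b + c) := by rw [← m1]; positivity
    exact pos_of_mul_pos_left this q2.le
  have hM2p : 0 < (M2 : ℝ) := by
    have : 0 < (M2 : ℝ) * (-a + b + c) := by rw [← m2]; positivity
    exact pos_of_mul_pos_left this q3.le
  have hM1z : 1 ≤ M1 := by exact_mod_cast (Int.cast_pos.1 hM1p)
  have hM2z : 1 ≤ M2 := by exact_mod_cast (Int.cast_pos.1 hM2p)
  -- product
  have hprod : s ^ 2 * (b * (a + b)) = M1 * M2 := by
    have h1 : (3 * (a * b)) * (s ^ 2 * (b * (a + b))) = (3 * (a * b)) * (M1 * M2) := by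
      have h2 : (s * (b * (2 * a + b - c))) * (s * (b * (2 * a + b + c))) =
          (M1 * (a - b + c)) * (M2 * (-a + b + c)) := by rw [m1, m2]
      linear_combination h2 + (s ^ 2 * b ^ 2 + M1 * M2) * c2
    exact mul_left_cancel₀ (by positivity) h1
  have E5' : (M1 : ℝ) * M2 * (2 * a + b) = 19 * b := by
    have h1 : (a + b) * ((M1 : ℝ) * M2 * (2 * a + b)) = (a + b) * (19 * b) := by
      linear_combination (-(a + b) * (2 * a + b)) * hprod + (b * (a + b)) * hA
    exact mul_left_cancel₀ (by positivity) h1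
  refine shapeE5_num (b / a) (s * a) (c / a) M1 M2 M1 M2 rfl rfl hM1z hM2z (by omega) (by omega)
    (by positivity) ?_ ?_ ?_ ?_ ?_
  · field_simp; linarith
  · field_simp; linear_combination m1
  · field_simp; linear_combination m2
  · field_simp; linear_combination hA
  · field_simp; linear_combination E5'

end Pool.Agent.Helper549.Tri.ShapeE5
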