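import Mathlib
import Pool.Agent.Helper549.Tri.DataDef
set_option autoImplicit false
noncomputable section
open scoped BigOperators

namespace Pool.Agent.Helper549.Tri.ShapeE6

/-- TARGET: this corner pattern is impossible for N = 19 -/
theorem shapeE6 {ℓ θ S A : Fin 3 → ℝ} {β : Fin 3 → Fin 3 → ℕ}
    (h : Data 19 ℓ θ S A ![![2,0,0],![1,1,0],![0,2,0]] β) : False := by
  have hA0 : A 0 = 2 * θ 0 := by simpa [Fin.sum_univ_three] using h.angles 0
  have hA1 : A 1 = θ 0 + θ 1 := by simpa [Fin.sum_univ_three] using h.angles 1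
  have hA2 : A 2 = 2 * θ 1 := by simpa [Fin.sum_univ_three] using h.angles 2
  have hAs := h.Asum
  have hts := h.tsum
  rw [hA0, hA1, hA2] at hAs
  have hab : θ 0 + θ 1 = Real.pi / 3 := by linarith
  have hg : θ 2 = Real.pi - Real.pi / 3 := by linarith
  have hsg : Real.sin (θ 2) = √3 / 2 := by rw [hg, Real.sin_pi_sub, Real.sin_pi_div_three]
  have hsA1 : Real.sin (A 1) = √3 / 2 := by rw [hA1, hab, Real.sin_pi_div_three]
  obtain ⟨t, ht⟩ : ∃ t : ℝ, t = √3 / 2 := ⟨_, rfl⟩
  have ht0 : 0 < t := by rw [ht]; positivity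
  have ht2 : t ^ 2 = 3 / 4 := by
    rw [ht, div_pow, Real.sq_sqrt (by norm_num)]; norm_num
  rw [← ht] at hsg hsA1
  obtain ⟨a, ha⟩ : ∃ a, a = ℓ 0 := ⟨_, rfl⟩
  obtain ⟨b, hb⟩ : ∃ b, b = ℓ 1 := ⟨_, rfl⟩
  obtain ⟨c, hc⟩ : ∃ c, c = ℓ 2 := ⟨_, rfl⟩
  have ha0 : 0 < a := ha ▸ h.lpos 0
  have hb0 : 0 < b := hb ▸ h.lpos 1
  have hc0 : 0 < c := hc ▸ h.lpos 2
  have e1 := h.sinet 0 2
  have e2 := h.sinet 1 2
  rw [hsg, ← ha, ← hc] at e1
  rw [hsg, ← hb, ← hc] at e2
  have hb' : θ 1 = Real.pi / 3 - θ 0 := by linarith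
  have ha' : θ 0 = Real.pi / 3 - θ 1 := by linarith
  have f1 : Real.sin (θ 1) = t * Real.cos (θ 0) - 1 / 2 * Real.sin (θ 0) := by
    conv_lhs => rw [hb']
    rw [Real.sin_sub, Real.sin_pi_div_three, Real.cos_pi_div_three, ht]
  have f2 : Real.sin (θ 0) = t * Real.cos (θ 1) - 1 / 2 * Real.sin (θ 1) := by
    conv_lhs => rw [ha']
    rw [Real.sin_sub, Real.sin_pi_div_three, Real.cos_pi_div_three, ht]
  have g1 : c * Real.cos (θ 0) = b + a / 2 := by
    have : t * (c * Real.cos (θ 0)) = t * (b + a / 2) := by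
      linear_combination (-c) * f1 - e2 - e1 / 2
    exact mul_left_cancel₀ ht0.ne' this
  have g2 : c * Real.cos (θ 1) = a + b / 2 := by
    have : t * (c * Real.cos (θ 1)) = t * (a + b / 2) := by
      linear_combination (-c) * f2 - e1 - e2 / 2
    exact mul_left_cancel₀ ht0.ne' this
  have law : c ^ 2 = a ^ 2 + a * b + b ^ 2 := by
    have h1 := Real.sin_sq_add_cos_sq (θ 0)
    have h2 : (c * Real.sin (θ 0)) ^ 2 + (c * Real.cos (θ 0)) ^ 2 = c ^ 2 := by
      linear_combination c ^ 2 * h1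
    rw [← e1, g1] at h2
    linear_combination -h2 + a ^ 2 * ht2
  have sA0 : c ^ 2 * Real.sin (A 0) = t * (a * (a + 2 * b)) := by
    rw [hA0, Real.sin_two_mul]
    have : c ^ 2 * (2 * Real.sin (θ 0) * Real.cos (θ 0)) =
        2 * (c * Real.sin (θ 0)) * (c * Real.cos (θ 0)) := by ring
    rw [this, ← e1, g1]
    ring
  have sA2 : c ^ 2 * Real.sin (A 2) = t * (b * (2 * a + b)) := by
    rw [hA2, Real.sin_two_mul]
    have : c ^ 2 * (2 * Real.sin (θ 1) * Real.cos (θ 1)) =
        2 * (c * Real.sin (θ 1)) * (c * Real.cos (θ 1)) := by ring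
    rw [this, ← e2, g2]
    ring
  have q1 := h.sineT 0 1
  have q2 := h.sineT 2 1
  rw [hsA1] at q1 q2
  have hS0 : S 0 * c ^ 2 = S 1 * (a * (a + 2 * b)) := by
    have : t * (S 0 * c ^ 2) = t * (S 1 * (a * (a + 2 * b))) := by
      linear_combination c ^ 2 * q1 + S 1 * sA0
    exact mul_left_cancel₀ ht0.ne' this
  have hS2 : S 2 * c ^ 2 = S 1 * (b * (2 * a + b)) := by
    have : t * (S 2 * c ^ 2) = t * (S 1 * (b * (2 * a + b))) := by
      linear_combination c ^ 2 * q2 + S 1 * sA2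
    exact mul_left_cancel₀ ht0.ne' this
  have har := h.area
  rw [hsg, ← ha, ← hb] at har
  obtain ⟨s, hs⟩ : ∃ s, s = S 1 / c ^ 2 := ⟨_, rfl⟩
  have hS1 : S 1 = s * c ^ 2 := by rw [hs]; field_simp
  have hs0 : 0 < s := by rw [hs]; have := h.Spos 1; positivity
  have hS0' : S 0 = s * (a * (a + 2 * b)) := by
    have : S 0 * c ^ 2 = (s * (a * (a + 2 * b))) * c ^ 2 := by
      rw [hS0, hS1]; ring
    exact mul_right_cancel₀ (by positivity) this
  have hS2' : S 2 = s * (b * (2 * a + b)) := by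
    have : S 2 * c ^ 2 = (s * (b * (2 * a + b))) * c ^ 2 := by
      rw [hS2, hS1]; ring
    exact mul_right_cancel₀ (by positivity) this
  have harea : 19 = s ^ 2 * ((a + 2 * b) * (2 * a + b)) := by
    have h1 : (19 : ℝ) * (a * b * t) = s * (a * (a + 2 * b)) * s * (c ^ 2 * Real.sin (A 2)) := by
      rw [hS0', hS1] at har
      push_cast at har
      linear_combination har
    rw [sA2] at h1
    have h2 : (a * b * t) * 19 = (a * b * t) * (s ^ 2 * ((a + 2 * b) * (2 * a + b))) := by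
      linear_combination h1
    exact mul_left_cancel₀ (by positivity) h2
  obtain ⟨m, hm1, -, hm3, -⟩ := h.char ![1, -1, 1] (by intro k; fin_cases k <;> simp) (by simp)
    ⟨2, by decide⟩ (by decide)
  obtain ⟨n, hn1, -, hn3, -⟩ := h.char ![-1, 1, 1] (by intro k; fin_cases k <;> simp) (by simp)
    ⟨2, by decide⟩ (by decide)
  have hm : 3 * (a * b) * s = m * (a - b + c) := by
    simp [Fin.sum_univ_three, Fin.prod_univ_three, ← ha, ← hb, ← hc] at hm3
    rw [hS0', hS1, hS2'] at hm3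
    linear_combination hm3 + s * law
  have hn : 3 * (a * b) * s = n * (-a + b + c) := by
    simp [Fin.sum_univ_three, Fin.prod_univ_three, ← ha, ← hb, ← hc] at hn3
    rw [hS0', hS1, hS2'] at hn3
    linear_combination hn3 + s * law
  have pab : 0 < a * b := by positivity
  have wabs : |a - b| < c := abs_lt_of_sq_lt_sq (by linarith) hc0.le
  rw [abs_lt] at wabs
  have w1 : 0 < a - b + c := by linarith [wabs.1]
  have w2 : 0 < -a + b + c := by linarith [wabs.2]
  have m0 : (0 : ℝ) < m := by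
    by_contra hcon
    push Not at hcon
    have : (m : ℝ) * (a - b + c) ≤ 0 := mul_nonpos_of_nonpos_of_nonneg hcon w1.le
    have h3 : 0 < 3 * (a * b) * s := by positivity
    linarith
  have n0 : (0 : ℝ) < n := by
    by_contra hcon
    push Not at hcon
    have : (n : ℝ) * (-a + b + c) ≤ 0 := mul_nonpos_of_nonpos_of_nonneg hcon w2.le
    have h3 : 0 < 3 * (a * b) * s := by positivity
    linarith
  have hmn : 3 * (a * b) * s ^ 2 = m * n := by
    have h1 : (3 * (a * b)) * (3 * (a * b) * s ^ 2) = (3 * (a * b)) * (m * n) := by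
      have : (3 * (a * b) * s) * (3 * (a * b) * s) = (m * (a - b + c)) * (n * (-a + b + c)) := by
        rw [← hm, ← hn]
      linear_combination this + m * n * law
    exact mul_left_cancel₀ (by positivity) h1
  have hD : 4 * (a - b) ^ 2 * (m * n) = 3 * (a * b) * (n - m) ^ 2 := by
    have h1 : 2 * (a - b) * (m * n) = 3 * (a * b) * s * (n - m) := by
      linear_combination (-(n : ℝ)) * hm + m * hn
    have h2 : (m * n : ℝ) * (4 * (a - b) ^ 2 * (m * n)) = (m * n) * (3 * (a * b) * (n - m) ^ 2) := by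
      have h3 : (2 * (a - b) * (m * n)) ^ 2 = (3 * (a * b) * s * (n - m)) ^ 2 := by rw [h1]
      linear_combination h3 + (3 * (a * b) * (n - m) ^ 2) * hmn
    exact mul_left_cancel₀ (by positivity) h2
  have hfin : (38 : ℝ) = (n - m) ^ 2 + 6 * (m * n) := by
    have h1 : 57 * (a * b) = (m * n) * (2 * (a - b) ^ 2 + 9 * (a * b)) := by
      linear_combination 3 * (a * b) * harea + ((a + 2 * b) * (2 * a + b)) * hmn
    have h2 : (3 * (a * b)) * 38 = (3 * (a * b)) * ((n - m) ^ 2 + 6 * (m * n)) := by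
      linear_combination 2 * h1 + hD
    exact mul_left_cancel₀ (by positivity) h2
  have hZ : (38 : ℤ) = (n - m) ^ 2 + 6 * (m * n) := by exact_mod_cast hfin
  have m0' : 0 < m := by exact_mod_cast m0
  have n0' : 0 < n := by exact_mod_cast n0
  have m6 : m ≤ 6 := by nlinarith [sq_nonneg (n - m)]
  have n6 : n ≤ 6 := by nlinarith [sq_nonneg (n - m)]
  interval_cases m <;> interval_cases n <;> omega

end Pool.Agent.Helper549.Tri.ShapeE6
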