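import Mathlib
import Pool.Agent.Helper549.Tri.DataDef
set_option autoImplicit false
noncomputable section
open scoped BigOperators

namespace Pool.Agent.Helper549.Tri.ShapeE7

theorem e7_final {a b c s : ℝ} {q r : ℕ} (_ha : 0 < a) (hb : 0 < b) (hc : 0 < c)
    (h1 : s = a - b + c) (h2 : 3 * s = 19 * (-a + b + c)) (h3 : s ^ 2 = 19 * (a * b))
    (h4 : s = q * b + r * c) : False := by
  have e1 : a - b = 8 / 11 * c := by linarith
  have e2 : s = 19 / 11 * c := by linarith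
  have e3 : a = b + 8 / 11 * c := by linarith
  set x : ℝ := 11 * b / c with hx
  have hxpos : 0 < x := by positivity
  have hbx : b = x * c / 11 := by rw [hx]; field_simp
  have e4 : x * (x + 8) = 19 := by
    rw [e2, e3, hbx] at h3
    have hc2 : c ^ 2 ≠ 0 := pow_ne_zero _ hc.ne'
    apply mul_right_cancel₀ hc2
    linear_combination (-121 / 19) * h3
  have e5 : (q : ℝ) * x + 11 * r = 19 := by
    rw [e2, hbx] at h4
    apply mul_right_cancel₀ hc.ne'
    linear_combination (-11) * h4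
  have hq0 : (0 : ℝ) ≤ q := Nat.cast_nonneg q
  have hr : r ≤ 1 := by
    by_contra hcon
    push Not at hcon
    have : (2 : ℝ) ≤ r := by exact_mod_cast hcon
    nlinarith
  have key : (19 - 11 * (r : ℝ) + 4 * q) ^ 2 = 35 * (q : ℝ) ^ 2 := by
    have : 19 - 11 * (r : ℝ) + 4 * q = q * (x + 4) := by linear_combination (-1) * e5
    rw [this]
    linear_combination ((q : ℝ) ^ 2) * e4
  have key' : (19 - 11 * (r : ℤ) + 4 * q) ^ 2 = 35 * (q : ℤ) ^ 2 := by exact_mod_cast key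
  interval_cases r
  · have : q ≤ 10 := by
      by_contra hcon
      push Not at hcon
      have : (11 : ℤ) ≤ q := by exact_mod_cast hcon
      push_cast at key'
      nlinarith
    interval_cases q <;> norm_num at key'
  · have : q ≤ 10 := by
      by_contra hcon
      push Not at hcon
      have : (11 : ℤ) ≤ q := by exact_mod_cast hcon
      push_cast at key'
      nlinarith
    interval_cases q <;> norm_num at key'

theorem e7_pos {a b c : ℝ} (ha : 0 < a) (hb : 0 < b) (hc : 0 < c)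
    (h : c ^ 2 = a ^ 2 + a * b + b ^ 2) : 0 < a - b + c ∧ 0 < -a + b + c := by
  have hab : 0 < a * b := mul_pos ha hb
  have h1 : (a - b) ^ 2 < c ^ 2 := by nlinarith
  have h2 := abs_lt.mp (abs_lt_of_sq_lt_sq h1 hc.le)
  constructor <;> linarith

/-- TARGET: this corner pattern is impossible for N = 19 -/
theorem shapeE7 {ℓ θ S A : Fin 3 → ℝ} {β : Fin 3 → Fin 3 → ℕ}
    (h : Data 19 ℓ θ S A ![![1,1,0],![1,1,0],![1,1,0]] β) : False := by
  have hA : ∀ j, A j = θ 0 + θ 1 := by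
    intro j
    have := h.angles j
    rw [Fin.sum_univ_three] at this
    fin_cases j <;> simpa using this
  have hsum := h.Asum
  rw [hA 0, hA 1, hA 2] at hsum
  have hab : θ 0 + θ 1 = Real.pi / 3 := by linarith
  have hg : θ 2 = Real.pi - Real.pi / 3 := by have := h.tsum; linarith
  have hsg : Real.sin (θ 2) = Real.sqrt 3 / 2 := by
    rw [hg, Real.sin_pi_sub, Real.sin_pi_div_three]
  have hs3 : Real.sqrt 3 * Real.sqrt 3 = 3 := Real.mul_self_sqrt (by norm_num)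
  have hs3p : 0 < Real.sqrt 3 := Real.sqrt_pos.mpr (by norm_num)
  have ha := h.lpos 0
  have hb := h.lpos 1
  have hc := h.lpos 2
  have hl1 := h.sinet 0 2
  have hl2 := h.sinet 1 2
  have hl3 := h.sinet 0 1
  rw [hsg] at hl1 hl2
  have hSin : Real.sin (θ 0) * Real.cos (θ 1) + Real.cos (θ 0) * Real.sin (θ 1) = Real.sqrt 3 / 2 := by
    rw [← Real.sin_add, hab, Real.sin_pi_div_three]
  have hCos : Real.cos (θ 0) * Real.cos (θ 1) - Real.sin (θ 0) * Real.sin (θ 1) = 1 / 2 := by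
    rw [← Real.cos_add, hab, Real.cos_pi_div_three]
  have hP0 := Real.sin_sq_add_cos_sq (θ 0)
  have hP1 := Real.sin_sq_add_cos_sq (θ 1)
  generalize Real.sin (θ 0) = s0 at *
  generalize Real.sin (θ 1) = s1 at *
  generalize Real.cos (θ 0) = c0 at *
  generalize Real.cos (θ 1) = c1 at *
  have hproj : ℓ 2 = ℓ 0 * c1 + ℓ 1 * c0 := by
    have : (Real.sqrt 3 / 2) * ℓ 2 = (Real.sqrt 3 / 2) * (ℓ 0 * c1 + ℓ 1 * c0) := by
      have e0 : ℓ 0 * (Real.sqrt 3 / 2) = ℓ 2 * s0 := hl1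
      have e1 : ℓ 1 * (Real.sqrt 3 / 2) = ℓ 2 * s1 := hl2
      calc (Real.sqrt 3 / 2) * ℓ 2 = ℓ 2 * (s0 * c1 + c0 * s1) := by rw [hSin]; ring
        _ = (ℓ 2 * s0) * c1 + (ℓ 2 * s1) * c0 := by ring
        _ = (Real.sqrt 3 / 2) * (ℓ 0 * c1 + ℓ 1 * c0) := by rw [← e0, ← e1]; ring
    exact mul_left_cancel₀ (by positivity) this
  have hcos : ℓ 2 ^ 2 = ℓ 0 ^ 2 + ℓ 0 * ℓ 1 + ℓ 1 ^ 2 := by
    have e1 : ℓ 2 ^ 2 = ℓ 0 ^ 2 * c1 ^ 2 + ℓ 1 ^ 2 * c0 ^ 2 + 2 * ℓ 0 * ℓ 1 * (c0 * c1) := by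
      rw [hproj]; ring
    have e2 : c0 * c1 = 1 / 2 + s0 * s1 := by linarith
    have e3 : c0 ^ 2 = 1 - s0 ^ 2 := by linarith
    have e4 : c1 ^ 2 = 1 - s1 ^ 2 := by linarith
    rw [e2, e3, e4] at e1
    have e5 : (ℓ 0 * s1 - ℓ 1 * s0) = 0 := by linarith
    linear_combination e1 + (-1) * (ℓ 0 * s1 - ℓ 1 * s0) * e5
  -- the big triangle is equilateral
  have hsA : Real.sin (θ 0 + θ 1) = Real.sqrt 3 / 2 := by rw [hab, Real.sin_pi_div_three]
  have hT1 := h.sineT 0 1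
  have hT2 := h.sineT 0 2
  rw [hA 0, hA 1, hsA] at hT1
  rw [hA 0, hA 2, hsA] at hT2
  have hS1 : S 1 = S 0 := by
    have : (Real.sqrt 3 / 2) ≠ 0 := by positivity
    exact (mul_right_cancel₀ this hT1).symm
  have hS2 : S 2 = S 0 := by
    have : (Real.sqrt 3 / 2) ≠ 0 := by positivity
    exact (mul_right_cancel₀ this hT2).symm
  have hArea := h.area
  rw [hA 2, hsA, hsg, hS1] at hArea
  have hArea2 : S 0 ^ 2 = 19 * (ℓ 0 * ℓ 1) := by
    have h0 : (Real.sqrt 3 / 2) ≠ 0 := by positivity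
    apply mul_right_cancel₀ h0
    push_cast at hArea
    linear_combination (-1) * hArea
  have hS0 := h.Spos 0
  obtain ⟨M1, hM1a, hM1b, hM1c, hM1d⟩ := h.char ![1, -1, 1] (by decide) (by decide) (by decide) (by decide)
  obtain ⟨M2, hM2a, hM2b, hM2c, hM2d⟩ := h.char ![-1, 1, 1] (by decide) (by decide) (by decide) (by decide)
  have hY1 : ∀ j : Fin 3, (∏ k, (![1, -1, 1] : Fin 3 → ℤ) k ^ (![![1,1,0],![1,1,0],![1,1,0]] : Fin 3 → Fin 3 → ℕ) j k) = -1 := by
    decide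
  have hY2 : ∀ j : Fin 3, (∏ k, (![-1, 1, 1] : Fin 3 → ℤ) k ^ (![![1,1,0],![1,1,0],![1,1,0]] : Fin 3 → Fin 3 → ℕ) j k) = -1 := by
    decide
  have e1 : -(3 * S 0) = M1 * (ℓ 0 - ℓ 1 + ℓ 2) := by
    rw [Fin.sum_univ_three, Fin.sum_univ_three, hY1, hY1, hY1, hS1, hS2] at hM1c
    simp at hM1c
    linear_combination hM1c
  have e2 : -(3 * S 0) = M2 * (-ℓ 0 + ℓ 1 + ℓ 2) := by
    rw [Fin.sum_univ_three, Fin.sum_univ_three, hY2, hY2, hY2, hS1, hS2] at hM2c
    simp at hM2c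
    linear_combination hM2c
  obtain ⟨p1, p2⟩ := e7_pos ha hb hc hcos
  have hM1neg : M1 < 0 := by
    by_contra hcon
    push Not at hcon
    have : (0 : ℝ) ≤ M1 := by exact_mod_cast hcon
    have := mul_nonneg this p1.le
    linarith
  have hM2neg : M2 < 0 := by
    by_contra hcon
    push Not at hcon
    have : (0 : ℝ) ≤ M2 := by exact_mod_cast hcon
    have := mul_nonneg this p2.le
    linarith
  have hprod : M1 * M2 = 57 := by
    have e3 : (M1 : ℝ) * M2 * (3 * (ℓ 0 * ℓ 1)) = 57 * (3 * (ℓ 0 * ℓ 1)) := by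
      have : (ℓ 0 - ℓ 1 + ℓ 2) * (-ℓ 0 + ℓ 1 + ℓ 2) = 3 * (ℓ 0 * ℓ 1) := by
        linear_combination hcos
      calc (M1 : ℝ) * M2 * (3 * (ℓ 0 * ℓ 1)) = (M1 * (ℓ 0 - ℓ 1 + ℓ 2)) * (M2 * (-ℓ 0 + ℓ 1 + ℓ 2)) := by
            rw [← this]; ring
        _ = (-(3 * S 0)) * (-(3 * S 0)) := by rw [← e1, ← e2]
        _ = 57 * (3 * (ℓ 0 * ℓ 1)) := by linear_combination 9 * hArea2
    have e4 : (M1 : ℝ) * M2 = 57 := mul_right_cancel₀ (by positivity) e3
    exact_mod_cast e4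
  have hM1l : -19 ≤ M1 := by
    have := (abs_le.mp hM1a).1
    simpa using this
  have hM2l : -19 ≤ M2 := by
    have := (abs_le.mp hM2a).1
    simpa using this
  have hcases : (M1 = -3 ∧ M2 = -19) ∨ (M1 = -19 ∧ M2 = -3) := by
    interval_cases M1 <;> omega
  have hside := h.side 0
  rw [Fin.sum_univ_three] at hside
  rcases hcases with ⟨rfl, rfl⟩ | ⟨rfl, rfl⟩
  · have hb0 : β 0 0 = 0 := by
      by_contra hne
      have := hM2d (by norm_num) 0 0 (Nat.pos_of_ne_zero hne)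
      rw [hY2] at this
      norm_num at this
    rw [hb0] at hside
    push_cast at e1 e2 hside
    exact e7_final (a := ℓ 0) (b := ℓ 1) (c := ℓ 2) (s := S 0) (q := β 0 1) (r := β 0 2) ha hb hc
      (by linarith) (by linarith) hArea2 (by linarith)
  · have hb0 : β 0 1 = 0 := by
      by_contra hne
      have := hM1d (by norm_num) 0 1 (Nat.pos_of_ne_zero hne)
      rw [hY1] at this
      norm_num at this
    rw [hb0] at hside
    push_cast at e1 e2 hside
    exact e7_final (a := ℓ 1) (b := ℓ 0) (c := ℓ 2) (s := S 0) (q := β 0 0) (r := β 0 2) hb ha hc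
      (by linarith) (by linarith) (by linarith) (by linarith)

end Pool.Agent.Helper549.Tri.ShapeE7
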