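import Mathlib
import Pool.Agent.Helper549.Tri.DataDef
set_option autoImplicit false
noncomputable section
open scoped BigOperators

namespace Pool.Agent.Helper549.Tri.ShapeF

theorem fiveF (x y : ℤ) (h : 5 * x ^ 2 = y ^ 2) : x = 0 ∧ y = 0 := by
  by_cases hx : x = 0
  · refine ⟨hx, ?_⟩
    rw [hx] at h
    have : y ^ 2 = 0 := by linarith
    exact pow_eq_zero_iff (two_ne_zero) |>.1 this
  · exfalso
    have hxR : (x : ℝ) ≠ 0 := by exact_mod_cast hx
    have h1 : (5 : ℝ) * (x : ℝ) ^ 2 = (y : ℝ) ^ 2 := by exact_mod_cast h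
    have h2 : ((y : ℝ) / x) ^ 2 = 5 := by
      rw [div_pow, ← h1]
      field_simp
    have h3 : Real.sqrt 5 = |(y : ℝ) / x| := by
      rw [← h2, Real.sqrt_sq_eq_abs]
    have h4 := Nat.Prime.irrational_sqrt (by norm_num : Nat.Prime 5)
    apply h4
    refine ⟨|(y : ℚ) / x|, ?_⟩
    push_cast
    rw [h3]

theorem cosF {ℓ θ : Fin 3 → ℝ} (tpos : ∀ k, 0 < θ k) (tsum : θ 0 + θ 1 + θ 2 = Real.pi)
    (sinet : ∀ j k, ℓ j * Real.sin (θ k) = ℓ k * Real.sin (θ j)) :
    ℓ 2 ^ 2 = ℓ 0 ^ 2 + ℓ 1 ^ 2 - 2 * ℓ 0 * ℓ 1 * Real.cos (θ 2) := by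
  have hpi : ∀ k, θ k < Real.pi := by
    intro k
    have h0 := tpos 0
    have h1 := tpos 1
    have h2 := tpos 2
    fin_cases k
    · show θ 0 < Real.pi; linarith
    · show θ 1 < Real.pi; linarith
    · show θ 2 < Real.pi; linarith
  have hs0 : 0 < Real.sin (θ 0) := Real.sin_pos_of_pos_of_lt_pi (tpos 0) (hpi 0)
  set L := ℓ 0 / Real.sin (θ 0) with hL
  have e0 : ℓ 0 = L * Real.sin (θ 0) := by rw [hL]; field_simp
  have e1 : ℓ 1 = L * Real.sin (θ 1) := by
    rw [hL]; field_simp; linarith [sinet 0 1]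
  have e2 : ℓ 2 = L * Real.sin (θ 2) := by
    rw [hL]; field_simp; linarith [sinet 0 2]
  have h2 : θ 2 = Real.pi - (θ 0 + θ 1) := by linarith
  rw [e0, e1, e2, h2, Real.sin_pi_sub, Real.cos_pi_sub, Real.sin_add, Real.cos_add]
  have q0 := Real.sin_sq_add_cos_sq (θ 0)
  have q1 := Real.sin_sq_add_cos_sq (θ 1)
  have c0 : Real.cos (θ 0) ^ 2 = 1 - Real.sin (θ 0) ^ 2 := by linarith
  have c1 : Real.cos (θ 1) ^ 2 = 1 - Real.sin (θ 1) ^ 2 := by linarith
  linear_combination (-L ^ 2 * Real.sin (θ 0) ^ 2 + 2 * L ^ 2 * Real.sin (θ 0) ^ 2 * 1 -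
    2 * L ^ 2 * Real.sin (θ 0) ^ 2 + 2 * L ^ 2 * Real.sin (θ 0) ^ 2) * c1 + L ^ 2 * Real.sin (θ 1) ^ 2 * c0

theorem finF (a b c s : ℝ) (ha : 0 < a) (hb : 0 < b) (hc : 0 < c) (hs : 0 < s)
    (hlaw : c ^ 2 = a ^ 2 + b ^ 2 - 2 * a * b * (1 / 2)) (harea : 19 * (a * b) = s ^ 2)
    (M1 M2 : ℤ) (h1 : |M1| ≤ 19) (h2 : |M2| ≤ 19)
    (e1 : -s + -s + -s = (M1 : ℝ) * (a + b + -c))
    (e2 : -s + -s + -s = (M2 : ℝ) * (-a + -b + -c)) (p q r : ℕ) (hr : r = 0 ∨ |M1| ≠ 19)
    (hside : s = (p : ℝ) * a + q * b + r * c) : False := by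
  have hab : 0 < a * b := mul_pos ha hb
  have htri : 0 < a + b - c := by
    by_contra hcon
    push Not at hcon
    nlinarith
  have hM1 : M1 < 0 := by
    by_contra hcon
    push Not at hcon
    have h3 : (0 : ℝ) ≤ M1 := by exact_mod_cast hcon
    have h4 : 0 ≤ (M1 : ℝ) * (a + b + -c) := mul_nonneg h3 (by linarith)
    linarith
  have hM2 : 0 < M2 := by
    by_contra hcon
    push Not at hcon
    have h3 : (M2 : ℝ) ≤ 0 := by exact_mod_cast hcon
    have h4 : 0 ≤ (M2 : ℝ) * (-a + -b + -c) := mul_nonneg_of_nonpos_of_nonpos h3 (by linarith)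
    linarith
  have hprod : (M1 : ℝ) * M2 = -57 := by
    have h5 : (3 * (a * b)) * ((M1 : ℝ) * M2) = (3 * (a * b)) * (-57) := by
      have h6 : (-s + -s + -s) * (-s + -s + -s) =
          ((M1 : ℝ) * (a + b + -c)) * ((M2 : ℝ) * (-a + -b + -c)) := by
        rw [← e1, ← e2]
      have h7 : (a + b + -c) * (-a + -b + -c) = -(3 * (a * b)) := by nlinarith
      have h8 : ((M1 : ℝ) * (a + b + -c)) * ((M2 : ℝ) * (-a + -b + -c)) =
          ((M1 : ℝ) * M2) * ((a + b + -c) * (-a + -b + -c)) := by ring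
      rw [h8, h7] at h6
      nlinarith
    exact mul_left_cancel₀ (by positivity) h5
  have hprodZ : M1 * M2 = -57 := by exact_mod_cast hprod
  have h1' := (abs_le.1 h1).1
  have h2' := (abs_le.1 h2).2
  have hcase : (M1 = -19 ∧ M2 = 3) ∨ (M1 = -3 ∧ M2 = 19) := by
    interval_cases M1 <;> omega
  rcases hcase with ⟨c1, c2⟩ | ⟨c1, c2⟩
  · have hr0 : r = 0 := by
      rcases hr with h | h
      · exact h
      · exact absurd (by rw [c1]; norm_num) h
    rw [c1] at e1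
    rw [c2] at e2
    rw [hr0] at hside
    push_cast at e1 e2 hside
    have hcab : c = 8 / 11 * (a + b) := by linarith
    have hsab : s = 19 / 11 * (a + b) := by linarith
    have hd : (a - b) ^ 2 = 45 / 121 * (a + b) ^ 2 := by
      rw [hsab] at harea
      nlinarith
    have hlin : ((p : ℝ) - q) * (a - b) = (38 / 11 - ((p : ℝ) + q)) * (a + b) := by
      rw [hsab] at hside
      linarith
    have hsq : 45 * ((p : ℝ) - q) ^ 2 = (38 - 11 * ((p : ℝ) + q)) ^ 2 := by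
      have h9 : (((p : ℝ) - q) * (a - b)) ^ 2 = ((38 / 11 - ((p : ℝ) + q)) * (a + b)) ^ 2 := by
        rw [hlin]
      rw [mul_pow, mul_pow, hd] at h9
      have hu : (a + b) ^ 2 ≠ 0 := by positivity
      have h10 : (((p : ℝ) - q) ^ 2 * (45 / 121)) * (a + b) ^ 2 =
          (38 / 11 - ((p : ℝ) + q)) ^ 2 * (a + b) ^ 2 := by linarith
      have h11 := mul_right_cancel₀ hu h10
      nlinarith
    have hsqZ : 5 * (3 * ((p : ℤ) - q)) ^ 2 = (38 - 11 * ((p : ℤ) + q)) ^ 2 := by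
      have : (5 : ℝ) * (3 * ((p : ℝ) - q)) ^ 2 = (38 - 11 * ((p : ℝ) + q)) ^ 2 := by
        rw [← hsq]; ring
      exact_mod_cast this
    have := (fiveF _ _ hsqZ).2
    omega
  · rw [c1] at e1
    rw [c2] at e2
    push_cast at e1 e2
    linarith

/-- TARGET: this corner pattern is impossible for N = 19 -/
theorem shapeF {ℓ θ S A : Fin 3 → ℝ} {β : Fin 3 → Fin 3 → ℕ}
    (h : Data 19 ℓ θ S A ![![0,0,1],![0,0,1],![0,0,1]] β) : False := by
  have ha := h.lpos 0
  have hb := h.lpos 1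
  have hc := h.lpos 2
  have A0 := h.angles 0
  have A1 := h.angles 1
  have A2 := h.angles 2
  simp [Fin.sum_univ_three] at A0 A1 A2
  have hsum := h.Asum
  have ht2 : θ 2 = Real.pi / 3 := by linarith
  have hsin : 0 < Real.sin (θ 2) := by
    rw [ht2]
    exact Real.sin_pos_of_pos_of_lt_pi (by positivity) (by linarith [Real.pi_pos])
  have hcos : Real.cos (θ 2) = 1 / 2 := by rw [ht2, Real.cos_pi_div_three]
  have hS : ∀ j, S j = S 0 := by
    intro j
    have h1 := h.sineT j 0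
    have h2 : A j = θ 2 := by
      fin_cases j
      · exact A0
      · exact A1
      · exact A2
    rw [A0, h2] at h1
    exact mul_right_cancel₀ hsin.ne' h1
  have hlaw := cosF h.tpos h.tsum h.sinet
  rw [hcos] at hlaw
  have harea := h.area
  rw [A2, hS 1] at harea
  have harea2 : 19 * (ℓ 0 * ℓ 1) = S 0 ^ 2 := by
    have h1 : (19 * (ℓ 0 * ℓ 1)) * Real.sin (θ 2) = S 0 ^ 2 * Real.sin (θ 2) := by
      push_cast at harea
      linarith
    exact mul_right_cancel₀ hsin.ne' h1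
  obtain ⟨M1, hM1a, hM1b, hM1c, hM1d⟩ := h.char ![1, 1, -1] (by decide) (by decide)
    ⟨0, by decide⟩ (by simp [Fin.prod_univ_three, Fin.sum_univ_three])
  obtain ⟨M2, hM2a, hM2b, hM2c, hM2d⟩ := h.char ![-1, -1, -1] (by decide) (by decide)
    ⟨0, by decide⟩ (by simp [Fin.prod_univ_three, Fin.sum_univ_three])
  simp [Fin.prod_univ_three, Fin.sum_univ_three] at hM1c hM2c
  rw [hS 1, hS 2] at hM1c hM2c
  have hside := h.side 0
  have hb2 : β 0 2 = 0 ∨ |M1| ≠ 19 := by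
    by_cases h1 : |M1| = 19
    · left
      by_contra hne
      have h2 := hM1d (by exact_mod_cast h1) 0 2 (Nat.pos_of_ne_zero hne)
      simp [Fin.prod_univ_three] at h2
      have h3 : M1 = 19 := by omega
      rw [h3] at hM1c
      have hs := h.Spos 0
      push_cast at hM1c
      nlinarith [mul_pos ha hb]
    · exact Or.inr h1
  have hs0 := h.Spos 0
  rw [Fin.sum_univ_three] at hside
  exact finF (ℓ 0) (ℓ 1) (ℓ 2) (S 0) ha hb hc hs0 hlaw harea2 M1 M2 (by exact_mod_cast hM1a)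
    (by exact_mod_cast hM2a) hM1c hM2c (β 0 0) (β 0 1) (β 0 2) hb2 hside

end Pool.Agent.Helper549.Tri.ShapeF
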