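import Mathlib
import Pool.Agent.Helper549.Tri.DataDef
import Pool.Agent.Helper549.Tri.MatJ
set_option autoImplicit false
noncomputable section
open scoped BigOperators

namespace Pool.Agent.Helper549.Tri.ShapeG
open Pool.Agent.Helper549.Tri.MatJ

/-- TARGET: this corner pattern is impossible for N = 19 -/
theorem shapeG {ℓ θ S A : Fin 3 → ℝ} {β : Fin 3 → Fin 3 → ℕ}
    (h : Data 19 ℓ θ S A ![![1,0,0],![0,1,0],![0,0,1]] β) : False := by
  have hA : ∀ j, A j = θ j := by
    intro j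
    rw [h.angles j]
    fin_cases j <;> simp [Fin.sum_univ_three]
  have hsin : ∀ k, 0 < Real.sin (θ k) := by
    intro k
    apply Real.sin_pos_of_pos_of_lt_pi (h.tpos k)
    have h1 := h.tsum
    have h2 := h.tpos 0
    have h3 := h.tpos 1
    have h4 := h.tpos 2
    fin_cases k
    · simp only [Fin.zero_eta]; linarith
    · simp only [Fin.mk_one]; linarith
    · simp only [Fin.reduceFinMk]; linarith
  obtain ⟨ρ, hρ⟩ : ∃ ρ, ρ = S 0 / ℓ 0 := ⟨_, rfl⟩
  have hρpos : 0 < ρ := by rw [hρ]; exact div_pos (h.Spos 0) (h.lpos 0)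
  have hS0 : S 0 = ρ * ℓ 0 := by
    rw [hρ, div_mul_cancel₀ _ (h.lpos 0).ne']
  have hS : ∀ j, S j = ρ * ℓ j := by
    intro j
    have h1 := h.sineT j 0
    have h2 := h.sinet j 0
    rw [hA, hA] at h1
    have h3 : (S j - ρ * ℓ j) * Real.sin (θ 0) = 0 := by
      rw [hS0] at h1
      linear_combination h1 - ρ * h2
    rcases mul_eq_zero.1 h3 with h4 | h4
    · linarith
    · exact absurd h4 (hsin 0).ne'
  have hsq : ρ ^ 2 = 19 := by
    have h1 := h.area
    rw [hA, hS 0, hS 1] at h1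
    have h2 : (ρ ^ 2 - 19) * (ℓ 0 * ℓ 1 * Real.sin (θ 2)) = 0 := by
      push_cast at h1
      linear_combination -h1
    rcases mul_eq_zero.1 h2 with h4 | h4
    · linarith
    · exact absurd h4 (mul_pos (mul_pos (h.lpos 0) (h.lpos 1)) (hsin 2)).ne'
  have hρ19 : Real.sqrt 19 = ρ := by
    rw [← hsq]
    exact Real.sqrt_sq hρpos.le
  refine all_good_false β ℓ h.lpos ?_ ?_
  · intro k
    rw [hρ19, ← hS k, ← h.side k]
  · intro k l hlk
    obtain ⟨x, y, hxy, hx, hy⟩ := h.corner k l (Ne.symm hlk)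
    have hxk : x = k := by
      revert hx
      fin_cases k <;> fin_cases x <;> simp
    exact ⟨y, by rw [← hxk]; exact hxy.symm, hy⟩

end Pool.Agent.Helper549.Tri.ShapeG
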