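import Mathlib
import Pool.Agent.Helper549.Tri.DataDef
import Pool.Agent.Helper549.Tri.PermX
import Pool.Agent.Helper549.Tri.ShapeA
import Pool.Agent.Helper549.Tri.ShapeB1
import Pool.Agent.Helper549.Tri.ShapeB2
import Pool.Agent.Helper549.Tri.ShapeC2
import Pool.Agent.Helper549.Tri.ShapeG
import Pool.Agent.Helper549.Tri.ShapeD1
import Pool.Agent.Helper549.Tri.ShapeD2
import Pool.Agent.Helper549.Tri.ShapeD3
import Pool.Agent.Helper549.Tri.ShapeD4
import Pool.Agent.Helper549.Tri.ShapeD5
import Pool.Agent.Helper549.Tri.ShapeD6
import Pool.Agent.Helper549.Tri.ShapeE1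
import Pool.Agent.Helper549.Tri.ShapeE2
import Pool.Agent.Helper549.Tri.ShapeE3
import Pool.Agent.Helper549.Tri.ShapeE4
import Pool.Agent.Helper549.Tri.ShapeE5
import Pool.Agent.Helper549.Tri.ShapeE6
import Pool.Agent.Helper549.Tri.ShapeE7
import Pool.Agent.Helper549.Tri.ShapeF
set_option autoImplicit false
noncomputable section
open scoped BigOperators

namespace Pool.Agent.Helper549.Tri.Final0
open Pool.Agent.Helper549.Tri.ShapeA Pool.Agent.Helper549.Tri.ShapeB1 Pool.Agent.Helper549.Tri.ShapeB2 Pool.Agent.Helper549.Tri.ShapeC2 Pool.Agent.Helper549.Tri.ShapeG Pool.Agent.Helper549.Tri.ShapeD1 Pool.Agent.Helper549.Tri.ShapeD2 Pool.Agent.Helper549.Tri.ShapeD3 Pool.Agent.Helper549.Tri.ShapeD4 Pool.Agent.Helper549.Tri.ShapeD5 Pool.Agent.Helper549.Tri.ShapeD6 Pool.Agent.Helper549.Tri.ShapeE1 Pool.Agent.Helper549.Tri.ShapeE2 Pool.Agent.Helper549.Tri.ShapeE3 Pool.Agent.Helper549.Tri.ShapeE4 Pool.Agent.Helper549.Tri.ShapeE5 Pool.Agent.Helper549.Tri.ShapeE6 Pool.Agent.Helper549.Tri.ShapeE7 Pool.Agent.Helper549.Tri.ShapeF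

theorem shape_close {κ κ' : Fin 3 → Fin 3 → ℕ}
    (hs : ∀ {ℓ θ S A : Fin 3 → ℝ} {β : Fin 3 → Fin 3 → ℕ}, Data 19 ℓ θ S A κ' β → False)
    (π σ : Equiv.Perm (Fin 3)) (hk : (fun j k => κ (π j) (σ k)) = κ')
    {ℓ θ S A : Fin 3 → ℝ} {β : Fin 3 → Fin 3 → ℕ} (h : Data 19 ℓ θ S A κ β) : False := by
  have h1 := (h.perm_types σ).perm_corners π
  rw [← hk] at hs
  exact hs h1

theorem iso_gen {ℓ θ S A : Fin 3 → ℝ} {κ β : Fin 3 → Fin 3 → ℕ} (h : Data 19 ℓ θ S A κ β)
    (a b c j0 : Fin 3) (hab : a ≠ b) (hac : a ≠ c) (hbc : b ≠ c)
    (h0 : A j0 = 2 * θ b) (h1 : A (j0 + 1) = θ a) (h2 : A (j0 + 2) = θ a) :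
    ∃ a b c : Fin 3, a ≠ b ∧ a ≠ c ∧ b ≠ c ∧ θ c = Real.pi / 2 ∧
      ∃ j0 : Fin 3, A j0 = 2 * θ b ∧ A (j0 + 1) = θ a ∧ A (j0 + 2) = θ a := by
  refine ⟨a, b, c, hab, hac, hbc, ?_, j0, h0, h1, h2⟩
  have e1 : A j0 + A (j0 + 1) + A (j0 + 2) = Real.pi := by
    rw [← h.Asum]
    fin_cases j0
    · rfl
    · change A 1 + A 2 + A 0 = _
      ring
    · change A 2 + A 0 + A 1 = _
      ring
  have e2 : θ a + θ b + θ c = Real.pi := by
    rw [← h.tsum]
    revert hab hac hbc
    fin_cases a <;> fin_cases b <;> fin_cases c <;> intro hab hac hbc <;>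
      first
      | exact absurd rfl hab
      | exact absurd rfl hac
      | exact absurd rfl hbc
      | (simp only [Fin.zero_eta, Fin.mk_one, Fin.reduceFinMk] <;> ring)
  linarith

theorem iso_aux1 {ℓ θ S A : Fin 3 → ℝ} {κ β : Fin 3 → Fin 3 → ℕ} (h : Data 19 ℓ θ S A κ β)
    (j0 : Fin 3) (h0 : κ j0 = ![0, 2, 0]) (h1 : κ (j0 + 1) = ![1, 0, 0])
    (h2 : κ (j0 + 2) = ![1, 0, 0]) :
    ∃ a b c : Fin 3, a ≠ b ∧ a ≠ c ∧ b ≠ c ∧ θ c = Real.pi / 2 ∧
      ∃ j0 : Fin 3, A j0 = 2 * θ b ∧ A (j0 + 1) = θ a ∧ A (j0 + 2) = θ a := by
  refine iso_gen h 0 1 2 j0 (by decide) (by decide) (by decide) ?_ ?_ ?_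
  · rw [h.angles, h0]
    simp [Fin.sum_univ_three]
  · rw [h.angles, h1]
    simp [Fin.sum_univ_three]
  · rw [h.angles, h2]
    simp [Fin.sum_univ_three]

theorem iso_aux0 {ℓ θ S A : Fin 3 → ℝ} {κ β : Fin 3 → Fin 3 → ℕ} (h : Data 19 ℓ θ S A κ β)
    (j0 : Fin 3) (h0 : κ j0 = ![2, 0, 0]) (h1 : κ (j0 + 1) = ![0, 1, 0])
    (h2 : κ (j0 + 2) = ![0, 1, 0]) :
    ∃ a b c : Fin 3, a ≠ b ∧ a ≠ c ∧ b ≠ c ∧ θ c = Real.pi / 2 ∧
      ∃ j0 : Fin 3, A j0 = 2 * θ b ∧ A (j0 + 1) = θ a ∧ A (j0 + 2) = θ a := by
  refine iso_gen h 1 0 2 j0 (by decide) (by decide) (by decide) ?_ ?_ ?_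
  · rw [h.angles, h0]
    simp [Fin.sum_univ_three]
  · rw [h.angles, h1]
    simp [Fin.sum_univ_three]
  · rw [h.angles, h2]
    simp [Fin.sum_univ_three]

theorem core_111 {ℓ θ S A : Fin 3 → ℝ} {β : Fin 3 → Fin 3 → ℕ}
    {a0 a1 a2 b0 b1 b2 c0 c1 c2 : ℕ}
    (h : Data 19 ℓ θ S A ![![a0,b0,c0],![a1,b1,c1],![a2,b2,c2]] β)
    (ha : a0 + a1 + a2 = 1) (hb : b0 + b1 + b2 = 1) (hc : c0 + c1 + c2 = 1)
    (r0 : 0 < a0 + b0 + c0) (r1 : 0 < a1 + b1 + c1) (r2 : 0 < a2 + b2 + c2) : False := by
  have hd : a0 = 0 ∨ a0 = 1 := by omega
  rcases hd with rfl | rfl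
  ·
    have hd : a1 = 0 ∨ a1 = 1 := by omega
    rcases hd with rfl | rfl
    ·
      obtain rfl : a2 = 1 := by omega
      have hd : b0 = 0 ∨ b0 = 1 := by omega
      rcases hd with rfl | rfl
      ·
        obtain rfl : b1 = 1 := by omega
        obtain rfl : b2 = 0 := by omega
        obtain rfl : c0 = 1 := by omega
        obtain rfl : c1 = 0 := by omega
        obtain rfl : c2 = 0 := by omega
        exact shape_close (fun h => shapeG h) (Equiv.swap 0 2) 1 (by decide) h
      ·
        obtain rfl : b1 = 0 := by omega
        obtain rfl : b2 = 0 := by omega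
        obtain rfl : c0 = 0 := by omega
        obtain rfl : c1 = 1 := by omega
        obtain rfl : c2 = 0 := by omega
        exact shape_close (fun h => shapeG h) (Equiv.swap 1 2 * Equiv.swap 0 1) 1 (by decide) h
    ·
      obtain rfl : a2 = 0 := by omega
      have hd : b0 = 0 ∨ b0 = 1 := by omega
      rcases hd with rfl | rfl
      ·
        obtain rfl : b1 = 0 := by omega
        obtain rfl : b2 = 1 := by omega
        obtain rfl : c0 = 1 := by omega
        obtain rfl : c1 = 0 := by omega
        obtain rfl : c2 = 0 := by omega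
        exact shape_close (fun h => shapeG h) (Equiv.swap 0 1 * Equiv.swap 1 2) 1 (by decide) h
      ·
        obtain rfl : b1 = 0 := by omega
        obtain rfl : b2 = 0 := by omega
        obtain rfl : c0 = 0 := by omega
        obtain rfl : c1 = 0 := by omega
        obtain rfl : c2 = 1 := by omega
        exact shape_close (fun h => shapeG h) (Equiv.swap 0 1) 1 (by decide) h
  ·
    obtain rfl : a1 = 0 := by omega
    obtain rfl : a2 = 0 := by omega
    obtain rfl : b0 = 0 := by omega
    have hd : b1 = 0 ∨ b1 = 1 := by omega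
    rcases hd with rfl | rfl
    ·
      obtain rfl : b2 = 1 := by omega
      obtain rfl : c0 = 0 := by omega
      obtain rfl : c1 = 1 := by omega
      obtain rfl : c2 = 0 := by omega
      exact shape_close (fun h => shapeG h) (Equiv.swap 1 2) 1 (by decide) h
    ·
      obtain rfl : b2 = 0 := by omega
      obtain rfl : c0 = 0 := by omega
      obtain rfl : c1 = 0 := by omega
      obtain rfl : c2 = 1 := by omega
      exact shape_close (fun h => shapeG h) 1 1 (by decide) h

theorem core_201 {ℓ θ S A : Fin 3 → ℝ} {β : Fin 3 → Fin 3 → ℕ}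
    {a0 a1 a2 b0 b1 b2 c0 c1 c2 : ℕ}
    (h : Data 19 ℓ θ S A ![![a0,b0,c0],![a1,b1,c1],![a2,b2,c2]] β)
    (ha : a0 + a1 + a2 = 2) (hb : b0 + b1 + b2 = 0) (hc : c0 + c1 + c2 = 1)
    (r0 : 0 < a0 + b0 + c0) (r1 : 0 < a1 + b1 + c1) (r2 : 0 < a2 + b2 + c2) : False := by
  have hd : a0 = 0 ∨ a0 = 1 := by omega
  rcases hd with rfl | rfl
  ·
    obtain rfl : a1 = 1 := by omega
    obtain rfl : a2 = 1 := by omega
    obtain rfl : b0 = 0 := by omega
    obtain rfl : b1 = 0 := by omega
    obtain rfl : b2 = 0 := by omega
    obtain rfl : c0 = 1 := by omega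
    obtain rfl : c1 = 0 := by omega
    obtain rfl : c2 = 0 := by omega
    exact shape_close (fun h => shapeA h) (Equiv.swap 0 2) 1 (by decide) h
  ·
    have hd : a1 = 0 ∨ a1 = 1 := by omega
    rcases hd with rfl | rfl
    ·
      obtain rfl : a2 = 1 := by omega
      obtain rfl : b0 = 0 := by omega
      obtain rfl : b1 = 0 := by omega
      obtain rfl : b2 = 0 := by omega
      obtain rfl : c0 = 0 := by omega
      obtain rfl : c1 = 1 := by omega
      obtain rfl : c2 = 0 := by omega
      exact shape_close (fun h => shapeA h) (Equiv.swap 1 2) 1 (by decide) h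
    ·
      obtain rfl : a2 = 0 := by omega
      obtain rfl : b0 = 0 := by omega
      obtain rfl : b1 = 0 := by omega
      obtain rfl : b2 = 0 := by omega
      obtain rfl : c0 = 0 := by omega
      obtain rfl : c1 = 0 := by omega
      obtain rfl : c2 = 1 := by omega
      exact shape_close (fun h => shapeA h) 1 1 (by decide) h

theorem core_301 {ℓ θ S A : Fin 3 → ℝ} {β : Fin 3 → Fin 3 → ℕ}
    {a0 a1 a2 b0 b1 b2 c0 c1 c2 : ℕ}
    (h : Data 19 ℓ θ S A ![![a0,b0,c0],![a1,b1,c1],![a2,b2,c2]] β)
    (ha : a0 + a1 + a2 = 3) (hb : b0 + b1 + b2 = 0) (hc : c0 + c1 + c2 = 1)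
    (r0 : 0 < a0 + b0 + c0) (r1 : 0 < a1 + b1 + c1) (r2 : 0 < a2 + b2 + c2) : False := by
  have hd : a0 = 0 ∨ a0 = 1 ∨ a0 = 2 := by omega
  rcases hd with rfl | rfl | rfl
  ·
    have hd : a1 = 1 ∨ a1 = 2 := by omega
    rcases hd with rfl | rfl
    ·
      obtain rfl : a2 = 2 := by omega
      obtain rfl : b0 = 0 := by omega
      obtain rfl : b1 = 0 := by omega
      obtain rfl : b2 = 0 := by omega
      obtain rfl : c0 = 1 := by omega
      obtain rfl : c1 = 0 := by omega
      obtain rfl : c2 = 0 := by omega
      exact shape_close (fun h => shapeB1 h) (Equiv.swap 0 2) 1 (by decide) h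
    ·
      obtain rfl : a2 = 1 := by omega
      obtain rfl : b0 = 0 := by omega
      obtain rfl : b1 = 0 := by omega
      obtain rfl : b2 = 0 := by omega
      obtain rfl : c0 = 1 := by omega
      obtain rfl : c1 = 0 := by omega
      obtain rfl : c2 = 0 := by omega
      exact shape_close (fun h => shapeB1 h) (Equiv.swap 0 1 * Equiv.swap 1 2) 1 (by decide) h
  ·
    have hd : a1 = 0 ∨ a1 = 1 ∨ a1 = 2 := by omega
    rcases hd with rfl | rfl | rfl
    ·
      obtain rfl : a2 = 2 := by omega
      obtain rfl : b0 = 0 := by omega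
      obtain rfl : b1 = 0 := by omega
      obtain rfl : b2 = 0 := by omega
      obtain rfl : c0 = 0 := by omega
      obtain rfl : c1 = 1 := by omega
      obtain rfl : c2 = 0 := by omega
      exact shape_close (fun h => shapeB1 h) (Equiv.swap 1 2 * Equiv.swap 0 1) 1 (by decide) h
    ·
      obtain rfl : a2 = 1 := by omega
      obtain rfl : b0 = 0 := by omega
      obtain rfl : b1 = 0 := by omega
      obtain rfl : b2 = 0 := by omega
      have hd : c0 = 0 ∨ c0 = 1 := by omega
      rcases hd with rfl | rfl
      ·
        have hd : c1 = 0 ∨ c1 = 1 := by omega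
        rcases hd with rfl | rfl
        ·
          obtain rfl : c2 = 1 := by omega
          exact shape_close (fun h => shapeB2 h) 1 1 (by decide) h
        ·
          obtain rfl : c2 = 0 := by omega
          exact shape_close (fun h => shapeB2 h) (Equiv.swap 1 2) 1 (by decide) h
      ·
        obtain rfl : c1 = 0 := by omega
        obtain rfl : c2 = 0 := by omega
        exact shape_close (fun h => shapeB2 h) (Equiv.swap 0 2) 1 (by decide) h
    ·
      obtain rfl : a2 = 0 := by omega
      obtain rfl : b0 = 0 := by omega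
      obtain rfl : b1 = 0 := by omega
      obtain rfl : b2 = 0 := by omega
      obtain rfl : c0 = 0 := by omega
      obtain rfl : c1 = 0 := by omega
      obtain rfl : c2 = 1 := by omega
      exact shape_close (fun h => shapeB1 h) (Equiv.swap 0 1) 1 (by decide) h
  ·
    have hd : a1 = 0 ∨ a1 = 1 := by omega
    rcases hd with rfl | rfl
    ·
      obtain rfl : a2 = 1 := by omega
      obtain rfl : b0 = 0 := by omega
      obtain rfl : b1 = 0 := by omega
      obtain rfl : b2 = 0 := by omega
      obtain rfl : c0 = 0 := by omega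
      obtain rfl : c1 = 1 := by omega
      obtain rfl : c2 = 0 := by omega
      exact shape_close (fun h => shapeB1 h) (Equiv.swap 1 2) 1 (by decide) h
    ·
      obtain rfl : a2 = 0 := by omega
      obtain rfl : b0 = 0 := by omega
      obtain rfl : b1 = 0 := by omega
      obtain rfl : b2 = 0 := by omega
      obtain rfl : c0 = 0 := by omega
      obtain rfl : c1 = 0 := by omega
      obtain rfl : c2 = 1 := by omega
      exact shape_close (fun h => shapeB1 h) 1 1 (by decide) h

theorem core_220 {ℓ θ S A : Fin 3 → ℝ} {β : Fin 3 → Fin 3 → ℕ}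
    {a0 a1 a2 b0 b1 b2 c0 c1 c2 : ℕ}
    (h : Data 19 ℓ θ S A ![![a0,b0,c0],![a1,b1,c1],![a2,b2,c2]] β)
    (ha : a0 + a1 + a2 = 2) (hb : b0 + b1 + b2 = 2) (hc : c0 + c1 + c2 = 0)
    (r0 : 0 < a0 + b0 + c0) (r1 : 0 < a1 + b1 + c1) (r2 : 0 < a2 + b2 + c2) : ∃ a b c : Fin 3, a ≠ b ∧ a ≠ c ∧ b ≠ c ∧ θ c = Real.pi / 2 ∧
      ∃ j0 : Fin 3, A j0 = 2 * θ b ∧ A (j0 + 1) = θ a ∧ A (j0 + 2) = θ a := by
  have hd : a0 = 0 ∨ a0 = 1 ∨ a0 = 2 := by omega
  rcases hd with rfl | rfl | rfl
  ·
    have hd : a1 = 0 ∨ a1 = 1 ∨ a1 = 2 := by omega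
    rcases hd with rfl | rfl | rfl
    ·
      obtain rfl : a2 = 2 := by omega
      obtain rfl : b0 = 1 := by omega
      obtain rfl : b1 = 1 := by omega
      obtain rfl : b2 = 0 := by omega
      obtain rfl : c0 = 0 := by omega
      obtain rfl : c1 = 0 := by omega
      obtain rfl : c2 = 0 := by omega
      exact iso_aux0 h 2 (by decide) (by decide) (by decide)
    ·
      obtain rfl : a2 = 1 := by omega
      have hd : b0 = 1 ∨ b0 = 2 := by omega
      rcases hd with rfl | rfl
      ·
        have hd : b1 = 0 ∨ b1 = 1 := by omega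
        rcases hd with rfl | rfl
        ·
          obtain rfl : b2 = 1 := by omega
          obtain rfl : c0 = 0 := by omega
          obtain rfl : c1 = 0 := by omega
          obtain rfl : c2 = 0 := by omega
          exact (shape_close (fun h => shapeC2 h) (Equiv.swap 0 1) 1 (by decide) h).elim
        ·
          obtain rfl : b2 = 0 := by omega
          obtain rfl : c0 = 0 := by omega
          obtain rfl : c1 = 0 := by omega
          obtain rfl : c2 = 0 := by omega
          exact (shape_close (fun h => shapeC2 h) (Equiv.swap 1 2 * Equiv.swap 0 1) 1 (by decide) h).elim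
      ·
        obtain rfl : b1 = 0 := by omega
        obtain rfl : b2 = 0 := by omega
        obtain rfl : c0 = 0 := by omega
        obtain rfl : c1 = 0 := by omega
        obtain rfl : c2 = 0 := by omega
        exact iso_aux1 h 0 (by decide) (by decide) (by decide)
    ·
      obtain rfl : a2 = 0 := by omega
      obtain rfl : b0 = 1 := by omega
      obtain rfl : b1 = 0 := by omega
      obtain rfl : b2 = 1 := by omega
      obtain rfl : c0 = 0 := by omega
      obtain rfl : c1 = 0 := by omega
      obtain rfl : c2 = 0 := by omega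
      exact iso_aux0 h 1 (by decide) (by decide) (by decide)
  ·
    have hd : a1 = 0 ∨ a1 = 1 := by omega
    rcases hd with rfl | rfl
    ·
      obtain rfl : a2 = 1 := by omega
      have hd : b0 = 0 ∨ b0 = 1 := by omega
      rcases hd with rfl | rfl
      ·
        have hd : b1 = 1 ∨ b1 = 2 := by omega
        rcases hd with rfl | rfl
        ·
          obtain rfl : b2 = 1 := by omega
          obtain rfl : c0 = 0 := by omega
          obtain rfl : c1 = 0 := by omega
          obtain rfl : c2 = 0 := by omega
          exact (shape_close (fun h => shapeC2 h) 1 1 (by decide) h).elim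
        ·
          obtain rfl : b2 = 0 := by omega
          obtain rfl : c0 = 0 := by omega
          obtain rfl : c1 = 0 := by omega
          obtain rfl : c2 = 0 := by omega
          exact iso_aux1 h 1 (by decide) (by decide) (by decide)
      ·
        obtain rfl : b1 = 1 := by omega
        obtain rfl : b2 = 0 := by omega
        obtain rfl : c0 = 0 := by omega
        obtain rfl : c1 = 0 := by omega
        obtain rfl : c2 = 0 := by omega
        exact (shape_close (fun h => shapeC2 h) (Equiv.swap 0 2) 1 (by decide) h).elim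
    ·
      obtain rfl : a2 = 0 := by omega
      have hd : b0 = 0 ∨ b0 = 1 := by omega
      rcases hd with rfl | rfl
      ·
        have hd : b1 = 0 ∨ b1 = 1 := by omega
        rcases hd with rfl | rfl
        ·
          obtain rfl : b2 = 2 := by omega
          obtain rfl : c0 = 0 := by omega
          obtain rfl : c1 = 0 := by omega
          obtain rfl : c2 = 0 := by omega
          exact iso_aux1 h 2 (by decide) (by decide) (by decide)
        ·
          obtain rfl : b2 = 1 := by omega
          obtain rfl : c0 = 0 := by omega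
          obtain rfl : c1 = 0 := by omega
          obtain rfl : c2 = 0 := by omega
          exact (shape_close (fun h => shapeC2 h) (Equiv.swap 1 2) 1 (by decide) h).elim
      ·
        obtain rfl : b1 = 0 := by omega
        obtain rfl : b2 = 1 := by omega
        obtain rfl : c0 = 0 := by omega
        obtain rfl : c1 = 0 := by omega
        obtain rfl : c2 = 0 := by omega
        exact (shape_close (fun h => shapeC2 h) (Equiv.swap 0 1 * Equiv.swap 1 2) 1 (by decide) h).elim
  ·
    obtain rfl : a1 = 0 := by omega
    obtain rfl : a2 = 0 := by omega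
    obtain rfl : b0 = 0 := by omega
    obtain rfl : b1 = 1 := by omega
    obtain rfl : b2 = 1 := by omega
    obtain rfl : c0 = 0 := by omega
    obtain rfl : c1 = 0 := by omega
    obtain rfl : c2 = 0 := by omega
    exact iso_aux0 h 0 (by decide) (by decide) (by decide)

theorem core_320 {ℓ θ S A : Fin 3 → ℝ} {β : Fin 3 → Fin 3 → ℕ}
    {a0 a1 a2 b0 b1 b2 c0 c1 c2 : ℕ}
    (h : Data 19 ℓ θ S A ![![a0,b0,c0],![a1,b1,c1],![a2,b2,c2]] β)
    (ha : a0 + a1 + a2 = 3) (hb : b0 + b1 + b2 = 2) (hc : c0 + c1 + c2 = 0)
    (r0 : 0 < a0 + b0 + c0) (r1 : 0 < a1 + b1 + c1) (r2 : 0 < a2 + b2 + c2) : False := by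
  have hd : a0 = 0 ∨ a0 = 1 ∨ a0 = 2 ∨ a0 = 3 := by omega
  rcases hd with rfl | rfl | rfl | rfl
  ·
    have hd : a1 = 0 ∨ a1 = 1 ∨ a1 = 2 ∨ a1 = 3 := by omega
    rcases hd with rfl | rfl | rfl | rfl
    ·
      obtain rfl : a2 = 3 := by omega
      obtain rfl : b0 = 1 := by omega
      obtain rfl : b1 = 1 := by omega
      obtain rfl : b2 = 0 := by omega
      obtain rfl : c0 = 0 := by omega
      obtain rfl : c1 = 0 := by omega
      obtain rfl : c2 = 0 := by omega
      exact shape_close (fun h => shapeD6 h) (Equiv.swap 0 2) 1 (by decide) h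
    ·
      obtain rfl : a2 = 2 := by omega
      have hd : b0 = 1 ∨ b0 = 2 := by omega
      rcases hd with rfl | rfl
      ·
        have hd : b1 = 0 ∨ b1 = 1 := by omega
        rcases hd with rfl | rfl
        ·
          obtain rfl : b2 = 1 := by omega
          obtain rfl : c0 = 0 := by omega
          obtain rfl : c1 = 0 := by omega
          obtain rfl : c2 = 0 := by omega
          exact shape_close (fun h => shapeD4 h) (Equiv.swap 0 1) 1 (by decide) h
        ·
          obtain rfl : b2 = 0 := by omega
          obtain rfl : c0 = 0 := by omega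
          obtain rfl : c1 = 0 := by omega
          obtain rfl : c2 = 0 := by omega
          exact shape_close (fun h => shapeD5 h) (Equiv.swap 1 2 * Equiv.swap 0 1) 1 (by decide) h
      ·
        obtain rfl : b1 = 0 := by omega
        obtain rfl : b2 = 0 := by omega
        obtain rfl : c0 = 0 := by omega
        obtain rfl : c1 = 0 := by omega
        obtain rfl : c2 = 0 := by omega
        exact shape_close (fun h => shapeD2 h) (Equiv.swap 0 1 * Equiv.swap 1 2) 1 (by decide) h
    ·
      obtain rfl : a2 = 1 := by omega
      have hd : b0 = 1 ∨ b0 = 2 := by omega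
      rcases hd with rfl | rfl
      ·
        have hd : b1 = 0 ∨ b1 = 1 := by omega
        rcases hd with rfl | rfl
        ·
          obtain rfl : b2 = 1 := by omega
          obtain rfl : c0 = 0 := by omega
          obtain rfl : c1 = 0 := by omega
          obtain rfl : c2 = 0 := by omega
          exact shape_close (fun h => shapeD5 h) (Equiv.swap 0 1) 1 (by decide) h
        ·
          obtain rfl : b2 = 0 := by omega
          obtain rfl : c0 = 0 := by omega
          obtain rfl : c1 = 0 := by omega
          obtain rfl : c2 = 0 := by omega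
          exact shape_close (fun h => shapeD4 h) (Equiv.swap 1 2 * Equiv.swap 0 1) 1 (by decide) h
      ·
        obtain rfl : b1 = 0 := by omega
        obtain rfl : b2 = 0 := by omega
        obtain rfl : c0 = 0 := by omega
        obtain rfl : c1 = 0 := by omega
        obtain rfl : c2 = 0 := by omega
        exact shape_close (fun h => shapeD2 h) (Equiv.swap 0 2) 1 (by decide) h
    ·
      obtain rfl : a2 = 0 := by omega
      obtain rfl : b0 = 1 := by omega
      obtain rfl : b1 = 0 := by omega
      obtain rfl : b2 = 1 := by omega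
      obtain rfl : c0 = 0 := by omega
      obtain rfl : c1 = 0 := by omega
      obtain rfl : c2 = 0 := by omega
      exact shape_close (fun h => shapeD6 h) (Equiv.swap 0 1) 1 (by decide) h
  ·
    have hd : a1 = 0 ∨ a1 = 1 ∨ a1 = 2 := by omega
    rcases hd with rfl | rfl | rfl
    ·
      obtain rfl : a2 = 2 := by omega
      have hd : b0 = 0 ∨ b0 = 1 := by omega
      rcases hd with rfl | rfl
      ·
        have hd : b1 = 1 ∨ b1 = 2 := by omega
        rcases hd with rfl | rfl
        ·
          obtain rfl : b2 = 1 := by omega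
          obtain rfl : c0 = 0 := by omega
          obtain rfl : c1 = 0 := by omega
          obtain rfl : c2 = 0 := by omega
          exact shape_close (fun h => shapeD4 h) 1 1 (by decide) h
        ·
          obtain rfl : b2 = 0 := by omega
          obtain rfl : c0 = 0 := by omega
          obtain rfl : c1 = 0 := by omega
          obtain rfl : c2 = 0 := by omega
          exact shape_close (fun h => shapeD2 h) (Equiv.swap 1 2) 1 (by decide) h
      ·
        obtain rfl : b1 = 1 := by omega
        obtain rfl : b2 = 0 := by omega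
        obtain rfl : c0 = 0 := by omega
        obtain rfl : c1 = 0 := by omega
        obtain rfl : c2 = 0 := by omega
        exact shape_close (fun h => shapeD5 h) (Equiv.swap 0 2) 1 (by decide) h
    ·
      obtain rfl : a2 = 1 := by omega
      have hd : b0 = 0 ∨ b0 = 1 ∨ b0 = 2 := by omega
      rcases hd with rfl | rfl | rfl
      ·
        have hd : b1 = 0 ∨ b1 = 1 ∨ b1 = 2 := by omega
        rcases hd with rfl | rfl | rfl
        ·
          obtain rfl : b2 = 2 := by omega
          obtain rfl : c0 = 0 := by omega
          obtain rfl : c1 = 0 := by omega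
          obtain rfl : c2 = 0 := by omega
          exact shape_close (fun h => shapeD1 h) 1 1 (by decide) h
        ·
          obtain rfl : b2 = 1 := by omega
          obtain rfl : c0 = 0 := by omega
          obtain rfl : c1 = 0 := by omega
          obtain rfl : c2 = 0 := by omega
          exact shape_close (fun h => shapeD3 h) 1 1 (by decide) h
        ·
          obtain rfl : b2 = 0 := by omega
          obtain rfl : c0 = 0 := by omega
          obtain rfl : c1 = 0 := by omega
          obtain rfl : c2 = 0 := by omega
          exact shape_close (fun h => shapeD1 h) (Equiv.swap 1 2) 1 (by decide) h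
      ·
        have hd : b1 = 0 ∨ b1 = 1 := by omega
        rcases hd with rfl | rfl
        ·
          obtain rfl : b2 = 1 := by omega
          obtain rfl : c0 = 0 := by omega
          obtain rfl : c1 = 0 := by omega
          obtain rfl : c2 = 0 := by omega
          exact shape_close (fun h => shapeD3 h) (Equiv.swap 0 1) 1 (by decide) h
        ·
          obtain rfl : b2 = 0 := by omega
          obtain rfl : c0 = 0 := by omega
          obtain rfl : c1 = 0 := by omega
          obtain rfl : c2 = 0 := by omega
          exact shape_close (fun h => shapeD3 h) (Equiv.swap 0 2) 1 (by decide) h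
      ·
        obtain rfl : b1 = 0 := by omega
        obtain rfl : b2 = 0 := by omega
        obtain rfl : c0 = 0 := by omega
        obtain rfl : c1 = 0 := by omega
        obtain rfl : c2 = 0 := by omega
        exact shape_close (fun h => shapeD1 h) (Equiv.swap 0 2) 1 (by decide) h
    ·
      obtain rfl : a2 = 0 := by omega
      have hd : b0 = 0 ∨ b0 = 1 := by omega
      rcases hd with rfl | rfl
      ·
        have hd : b1 = 0 ∨ b1 = 1 := by omega
        rcases hd with rfl | rfl
        ·
          obtain rfl : b2 = 2 := by omega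
          obtain rfl : c0 = 0 := by omega
          obtain rfl : c1 = 0 := by omega
          obtain rfl : c2 = 0 := by omega
          exact shape_close (fun h => shapeD2 h) 1 1 (by decide) h
        ·
          obtain rfl : b2 = 1 := by omega
          obtain rfl : c0 = 0 := by omega
          obtain rfl : c1 = 0 := by omega
          obtain rfl : c2 = 0 := by omega
          exact shape_close (fun h => shapeD4 h) (Equiv.swap 1 2) 1 (by decide) h
      ·
        obtain rfl : b1 = 0 := by omega
        obtain rfl : b2 = 1 := by omega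
        obtain rfl : c0 = 0 := by omega
        obtain rfl : c1 = 0 := by omega
        obtain rfl : c2 = 0 := by omega
        exact shape_close (fun h => shapeD5 h) (Equiv.swap 0 1 * Equiv.swap 1 2) 1 (by decide) h
  ·
    have hd : a1 = 0 ∨ a1 = 1 := by omega
    rcases hd with rfl | rfl
    ·
      obtain rfl : a2 = 1 := by omega
      have hd : b0 = 0 ∨ b0 = 1 := by omega
      rcases hd with rfl | rfl
      ·
        have hd : b1 = 1 ∨ b1 = 2 := by omega
        rcases hd with rfl | rfl
        ·
          obtain rfl : b2 = 1 := by omega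
          obtain rfl : c0 = 0 := by omega
          obtain rfl : c1 = 0 := by omega
          obtain rfl : c2 = 0 := by omega
          exact shape_close (fun h => shapeD5 h) 1 1 (by decide) h
        ·
          obtain rfl : b2 = 0 := by omega
          obtain rfl : c0 = 0 := by omega
          obtain rfl : c1 = 0 := by omega
          obtain rfl : c2 = 0 := by omega
          exact shape_close (fun h => shapeD2 h) (Equiv.swap 1 2 * Equiv.swap 0 1) 1 (by decide) h
      ·
        obtain rfl : b1 = 1 := by omega
        obtain rfl : b2 = 0 := by omega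
        obtain rfl : c0 = 0 := by omega
        obtain rfl : c1 = 0 := by omega
        obtain rfl : c2 = 0 := by omega
        exact shape_close (fun h => shapeD4 h) (Equiv.swap 0 2) 1 (by decide) h
    ·
      obtain rfl : a2 = 0 := by omega
      have hd : b0 = 0 ∨ b0 = 1 := by omega
      rcases hd with rfl | rfl
      ·
        have hd : b1 = 0 ∨ b1 = 1 := by omega
        rcases hd with rfl | rfl
        ·
          obtain rfl : b2 = 2 := by omega
          obtain rfl : c0 = 0 := by omega
          obtain rfl : c1 = 0 := by omega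
          obtain rfl : c2 = 0 := by omega
          exact shape_close (fun h => shapeD2 h) (Equiv.swap 0 1) 1 (by decide) h
        ·
          obtain rfl : b2 = 1 := by omega
          obtain rfl : c0 = 0 := by omega
          obtain rfl : c1 = 0 := by omega
          obtain rfl : c2 = 0 := by omega
          exact shape_close (fun h => shapeD5 h) (Equiv.swap 1 2) 1 (by decide) h
      ·
        obtain rfl : b1 = 0 := by omega
        obtain rfl : b2 = 1 := by omega
        obtain rfl : c0 = 0 := by omega
        obtain rfl : c1 = 0 := by omega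
        obtain rfl : c2 = 0 := by omega
        exact shape_close (fun h => shapeD4 h) (Equiv.swap 0 1 * Equiv.swap 1 2) 1 (by decide) h
  ·
    obtain rfl : a1 = 0 := by omega
    obtain rfl : a2 = 0 := by omega
    obtain rfl : b0 = 0 := by omega
    obtain rfl : b1 = 1 := by omega
    obtain rfl : b2 = 1 := by omega
    obtain rfl : c0 = 0 := by omega
    obtain rfl : c1 = 0 := by omega
    obtain rfl : c2 = 0 := by omega
    exact shape_close (fun h => shapeD6 h) 1 1 (by decide) h

theorem core_330 {ℓ θ S A : Fin 3 → ℝ} {β : Fin 3 → Fin 3 → ℕ}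
    {a0 a1 a2 b0 b1 b2 c0 c1 c2 : ℕ}
    (h : Data 19 ℓ θ S A ![![a0,b0,c0],![a1,b1,c1],![a2,b2,c2]] β)
    (ha : a0 + a1 + a2 = 3) (hb : b0 + b1 + b2 = 3) (hc : c0 + c1 + c2 = 0)
    (r0 : 0 < a0 + b0 + c0) (r1 : 0 < a1 + b1 + c1) (r2 : 0 < a2 + b2 + c2) : False := by
  have hd : a0 = 0 ∨ a0 = 1 ∨ a0 = 2 ∨ a0 = 3 := by omega
  rcases hd with rfl | rfl | rfl | rfl
  ·
    have hd : a1 = 0 ∨ a1 = 1 ∨ a1 = 2 ∨ a1 = 3 := by omega
    rcases hd with rfl | rfl | rfl | rfl
    ·
      obtain rfl : a2 = 3 := by omega
      have hd : b0 = 1 ∨ b0 = 2 := by omega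
      rcases hd with rfl | rfl
      ·
        have hd : b1 = 1 ∨ b1 = 2 := by omega
        rcases hd with rfl | rfl
        ·
          obtain rfl : b2 = 1 := by omega
          obtain rfl : c0 = 0 := by omega
          obtain rfl : c1 = 0 := by omega
          obtain rfl : c2 = 0 := by omega
          exact shape_close (fun h => shapeE1 h) 1 (Equiv.swap 0 1) (by decide) h
        ·
          obtain rfl : b2 = 0 := by omega
          obtain rfl : c0 = 0 := by omega
          obtain rfl : c1 = 0 := by omega
          obtain rfl : c2 = 0 := by omega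
          exact shape_close (fun h => shapeE4 h) 1 (Equiv.swap 0 1) (by decide) h
      ·
        obtain rfl : b1 = 1 := by omega
        obtain rfl : b2 = 0 := by omega
        obtain rfl : c0 = 0 := by omega
        obtain rfl : c1 = 0 := by omega
        obtain rfl : c2 = 0 := by omega
        exact shape_close (fun h => shapeE4 h) (Equiv.swap 0 1) (Equiv.swap 0 1) (by decide) h
    ·
      obtain rfl : a2 = 2 := by omega
      have hd : b0 = 1 ∨ b0 = 2 ∨ b0 = 3 := by omega
      rcases hd with rfl | rfl | rfl
      ·
        have hd : b1 = 0 ∨ b1 = 1 ∨ b1 = 2 := by omega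
        rcases hd with rfl | rfl | rfl
        ·
          obtain rfl : b2 = 2 := by omega
          obtain rfl : c0 = 0 := by omega
          obtain rfl : c1 = 0 := by omega
          obtain rfl : c2 = 0 := by omega
          exact shape_close (fun h => shapeE3 h) (Equiv.swap 0 1) 1 (by decide) h
        ·
          obtain rfl : b2 = 1 := by omega
          obtain rfl : c0 = 0 := by omega
          obtain rfl : c1 = 0 := by omega
          obtain rfl : c2 = 0 := by omega
          exact shape_close (fun h => shapeE2 h) 1 (Equiv.swap 0 1) (by decide) h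
        ·
          obtain rfl : b2 = 0 := by omega
          obtain rfl : c0 = 0 := by omega
          obtain rfl : c1 = 0 := by omega
          obtain rfl : c2 = 0 := by omega
          exact shape_close (fun h => shapeE5 h) 1 (Equiv.swap 0 1) (by decide) h
      ·
        have hd : b1 = 0 ∨ b1 = 1 := by omega
        rcases hd with rfl | rfl
        ·
          obtain rfl : b2 = 1 := by omega
          obtain rfl : c0 = 0 := by omega
          obtain rfl : c1 = 0 := by omega
          obtain rfl : c2 = 0 := by omega
          exact shape_close (fun h => shapeE5 h) (Equiv.swap 0 1 * Equiv.swap 1 2) 1 (by decide) h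
        ·
          obtain rfl : b2 = 0 := by omega
          obtain rfl : c0 = 0 := by omega
          obtain rfl : c1 = 0 := by omega
          obtain rfl : c2 = 0 := by omega
          exact shape_close (fun h => shapeE6 h) (Equiv.swap 0 2) 1 (by decide) h
      ·
        obtain rfl : b1 = 0 := by omega
        obtain rfl : b2 = 0 := by omega
        obtain rfl : c0 = 0 := by omega
        obtain rfl : c1 = 0 := by omega
        obtain rfl : c2 = 0 := by omega
        exact shape_close (fun h => shapeE4 h) (Equiv.swap 0 1 * Equiv.swap 1 2) 1 (by decide) h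
    ·
      obtain rfl : a2 = 1 := by omega
      have hd : b0 = 1 ∨ b0 = 2 ∨ b0 = 3 := by omega
      rcases hd with rfl | rfl | rfl
      ·
        have hd : b1 = 0 ∨ b1 = 1 ∨ b1 = 2 := by omega
        rcases hd with rfl | rfl | rfl
        ·
          obtain rfl : b2 = 2 := by omega
          obtain rfl : c0 = 0 := by omega
          obtain rfl : c1 = 0 := by omega
          obtain rfl : c2 = 0 := by omega
          exact shape_close (fun h => shapeE5 h) (Equiv.swap 1 2) (Equiv.swap 0 1) (by decide) h
        ·
          obtain rfl : b2 = 1 := by omega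
          obtain rfl : c0 = 0 := by omega
          obtain rfl : c1 = 0 := by omega
          obtain rfl : c2 = 0 := by omega
          exact shape_close (fun h => shapeE2 h) (Equiv.swap 1 2) (Equiv.swap 0 1) (by decide) h
        ·
          obtain rfl : b2 = 0 := by omega
          obtain rfl : c0 = 0 := by omega
          obtain rfl : c1 = 0 := by omega
          obtain rfl : c2 = 0 := by omega
          exact shape_close (fun h => shapeE3 h) (Equiv.swap 1 2 * Equiv.swap 0 1) 1 (by decide) h
      ·
        have hd : b1 = 0 ∨ b1 = 1 := by omega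
        rcases hd with rfl | rfl
        ·
          obtain rfl : b2 = 1 := by omega
          obtain rfl : c0 = 0 := by omega
          obtain rfl : c1 = 0 := by omega
          obtain rfl : c2 = 0 := by omega
          exact shape_close (fun h => shapeE6 h) (Equiv.swap 0 1 * Equiv.swap 1 2) 1 (by decide) h
        ·
          obtain rfl : b2 = 0 := by omega
          obtain rfl : c0 = 0 := by omega
          obtain rfl : c1 = 0 := by omega
          obtain rfl : c2 = 0 := by omega
          exact shape_close (fun h => shapeE5 h) (Equiv.swap 0 2) 1 (by decide) h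
      ·
        obtain rfl : b1 = 0 := by omega
        obtain rfl : b2 = 0 := by omega
        obtain rfl : c0 = 0 := by omega
        obtain rfl : c1 = 0 := by omega
        obtain rfl : c2 = 0 := by omega
        exact shape_close (fun h => shapeE4 h) (Equiv.swap 0 2) 1 (by decide) h
    ·
      obtain rfl : a2 = 0 := by omega
      have hd : b0 = 1 ∨ b0 = 2 := by omega
      rcases hd with rfl | rfl
      ·
        have hd : b1 = 0 ∨ b1 = 1 := by omega
        rcases hd with rfl | rfl
        ·
          obtain rfl : b2 = 2 := by omega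
          obtain rfl : c0 = 0 := by omega
          obtain rfl : c1 = 0 := by omega
          obtain rfl : c2 = 0 := by omega
          exact shape_close (fun h => shapeE4 h) (Equiv.swap 1 2) (Equiv.swap 0 1) (by decide) h
        ·
          obtain rfl : b2 = 1 := by omega
          obtain rfl : c0 = 0 := by omega
          obtain rfl : c1 = 0 := by omega
          obtain rfl : c2 = 0 := by omega
          exact shape_close (fun h => shapeE1 h) (Equiv.swap 1 2) (Equiv.swap 0 1) (by decide) h
      ·
        obtain rfl : b1 = 0 := by omega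
        obtain rfl : b2 = 1 := by omega
        obtain rfl : c0 = 0 := by omega
        obtain rfl : c1 = 0 := by omega
        obtain rfl : c2 = 0 := by omega
        exact shape_close (fun h => shapeE4 h) (Equiv.swap 1 2 * Equiv.swap 0 1) (Equiv.swap 0 1) (by decide) h
  ·
    have hd : a1 = 0 ∨ a1 = 1 ∨ a1 = 2 := by omega
    rcases hd with rfl | rfl | rfl
    ·
      obtain rfl : a2 = 2 := by omega
      have hd : b0 = 0 ∨ b0 = 1 ∨ b0 = 2 := by omega
      rcases hd with rfl | rfl | rfl
      ·
        have hd : b1 = 1 ∨ b1 = 2 ∨ b1 = 3 := by omega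
        rcases hd with rfl | rfl | rfl
        ·
          obtain rfl : b2 = 2 := by omega
          obtain rfl : c0 = 0 := by omega
          obtain rfl : c1 = 0 := by omega
          obtain rfl : c2 = 0 := by omega
          exact shape_close (fun h => shapeE3 h) 1 1 (by decide) h
        ·
          obtain rfl : b2 = 1 := by omega
          obtain rfl : c0 = 0 := by omega
          obtain rfl : c1 = 0 := by omega
          obtain rfl : c2 = 0 := by omega
          exact shape_close (fun h => shapeE5 h) (Equiv.swap 1 2) 1 (by decide) h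
        ·
          obtain rfl : b2 = 0 := by omega
          obtain rfl : c0 = 0 := by omega
          obtain rfl : c1 = 0 := by omega
          obtain rfl : c2 = 0 := by omega
          exact shape_close (fun h => shapeE4 h) (Equiv.swap 1 2) 1 (by decide) h
      ·
        have hd : b1 = 1 ∨ b1 = 2 := by omega
        rcases hd with rfl | rfl
        ·
          obtain rfl : b2 = 1 := by omega
          obtain rfl : c0 = 0 := by omega
          obtain rfl : c1 = 0 := by omega
          obtain rfl : c2 = 0 := by omega
          exact shape_close (fun h => shapeE2 h) (Equiv.swap 0 1) (Equiv.swap 0 1) (by decide) h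
        ·
          obtain rfl : b2 = 0 := by omega
          obtain rfl : c0 = 0 := by omega
          obtain rfl : c1 = 0 := by omega
          obtain rfl : c2 = 0 := by omega
          exact shape_close (fun h => shapeE6 h) (Equiv.swap 1 2 * Equiv.swap 0 1) 1 (by decide) h
      ·
        obtain rfl : b1 = 1 := by omega
        obtain rfl : b2 = 0 := by omega
        obtain rfl : c0 = 0 := by omega
        obtain rfl : c1 = 0 := by omega
        obtain rfl : c2 = 0 := by omega
        exact shape_close (fun h => shapeE5 h) (Equiv.swap 0 1) (Equiv.swap 0 1) (by decide) h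
    ·
      obtain rfl : a2 = 1 := by omega
      have hd : b0 = 0 ∨ b0 = 1 ∨ b0 = 2 ∨ b0 = 3 := by omega
      rcases hd with rfl | rfl | rfl | rfl
      ·
        have hd : b1 = 0 ∨ b1 = 1 ∨ b1 = 2 ∨ b1 = 3 := by omega
        rcases hd with rfl | rfl | rfl | rfl
        ·
          obtain rfl : b2 = 3 := by omega
          obtain rfl : c0 = 0 := by omega
          obtain rfl : c1 = 0 := by omega
          obtain rfl : c2 = 0 := by omega
          exact shape_close (fun h => shapeE1 h) 1 1 (by decide) h
        ·
          obtain rfl : b2 = 2 := by omega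
          obtain rfl : c0 = 0 := by omega
          obtain rfl : c1 = 0 := by omega
          obtain rfl : c2 = 0 := by omega
          exact shape_close (fun h => shapeE2 h) 1 1 (by decide) h
        ·
          obtain rfl : b2 = 1 := by omega
          obtain rfl : c0 = 0 := by omega
          obtain rfl : c1 = 0 := by omega
          obtain rfl : c2 = 0 := by omega
          exact shape_close (fun h => shapeE2 h) (Equiv.swap 1 2) 1 (by decide) h
        ·
          obtain rfl : b2 = 0 := by omega
          obtain rfl : c0 = 0 := by omega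
          obtain rfl : c1 = 0 := by omega
          obtain rfl : c2 = 0 := by omega
          exact shape_close (fun h => shapeE1 h) (Equiv.swap 1 2) 1 (by decide) h
      ·
        have hd : b1 = 0 ∨ b1 = 1 ∨ b1 = 2 := by omega
        rcases hd with rfl | rfl | rfl
        ·
          obtain rfl : b2 = 2 := by omega
          obtain rfl : c0 = 0 := by omega
          obtain rfl : c1 = 0 := by omega
          obtain rfl : c2 = 0 := by omega
          exact shape_close (fun h => shapeE2 h) (Equiv.swap 0 1) 1 (by decide) h
        ·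
          obtain rfl : b2 = 1 := by omega
          obtain rfl : c0 = 0 := by omega
          obtain rfl : c1 = 0 := by omega
          obtain rfl : c2 = 0 := by omega
          exact shape_close (fun h => shapeE7 h) 1 1 (by decide) h
        ·
          obtain rfl : b2 = 0 := by omega
          obtain rfl : c0 = 0 := by omega
          obtain rfl : c1 = 0 := by omega
          obtain rfl : c2 = 0 := by omega
          exact shape_close (fun h => shapeE2 h) (Equiv.swap 1 2 * Equiv.swap 0 1) 1 (by decide) h
      ·
        have hd : b1 = 0 ∨ b1 = 1 := by omega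
        rcases hd with rfl | rfl
        ·
          obtain rfl : b2 = 1 := by omega
          obtain rfl : c0 = 0 := by omega
          obtain rfl : c1 = 0 := by omega
          obtain rfl : c2 = 0 := by omega
          exact shape_close (fun h => shapeE2 h) (Equiv.swap 0 1 * Equiv.swap 1 2) 1 (by decide) h
        ·
          obtain rfl : b2 = 0 := by omega
          obtain rfl : c0 = 0 := by omega
          obtain rfl : c1 = 0 := by omega
          obtain rfl : c2 = 0 := by omega
          exact shape_close (fun h => shapeE2 h) (Equiv.swap 0 2) 1 (by decide) h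
      ·
        obtain rfl : b1 = 0 := by omega
        obtain rfl : b2 = 0 := by omega
        obtain rfl : c0 = 0 := by omega
        obtain rfl : c1 = 0 := by omega
        obtain rfl : c2 = 0 := by omega
        exact shape_close (fun h => shapeE1 h) (Equiv.swap 0 2) 1 (by decide) h
    ·
      obtain rfl : a2 = 0 := by omega
      have hd : b0 = 0 ∨ b0 = 1 ∨ b0 = 2 := by omega
      rcases hd with rfl | rfl | rfl
      ·
        have hd : b1 = 0 ∨ b1 = 1 ∨ b1 = 2 := by omega
        rcases hd with rfl | rfl | rfl
        ·
          obtain rfl : b2 = 3 := by omega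
          obtain rfl : c0 = 0 := by omega
          obtain rfl : c1 = 0 := by omega
          obtain rfl : c2 = 0 := by omega
          exact shape_close (fun h => shapeE4 h) 1 1 (by decide) h
        ·
          obtain rfl : b2 = 2 := by omega
          obtain rfl : c0 = 0 := by omega
          obtain rfl : c1 = 0 := by omega
          obtain rfl : c2 = 0 := by omega
          exact shape_close (fun h => shapeE5 h) 1 1 (by decide) h
        ·
          obtain rfl : b2 = 1 := by omega
          obtain rfl : c0 = 0 := by omega
          obtain rfl : c1 = 0 := by omega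
          obtain rfl : c2 = 0 := by omega
          exact shape_close (fun h => shapeE3 h) (Equiv.swap 1 2) 1 (by decide) h
      ·
        have hd : b1 = 0 ∨ b1 = 1 := by omega
        rcases hd with rfl | rfl
        ·
          obtain rfl : b2 = 2 := by omega
          obtain rfl : c0 = 0 := by omega
          obtain rfl : c1 = 0 := by omega
          obtain rfl : c2 = 0 := by omega
          exact shape_close (fun h => shapeE6 h) (Equiv.swap 0 1) 1 (by decide) h
        ·
          obtain rfl : b2 = 1 := by omega
          obtain rfl : c0 = 0 := by omega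
          obtain rfl : c1 = 0 := by omega
          obtain rfl : c2 = 0 := by omega
          exact shape_close (fun h => shapeE2 h) (Equiv.swap 1 2 * Equiv.swap 0 1) (Equiv.swap 0 1) (by decide) h
      ·
        obtain rfl : b1 = 0 := by omega
        obtain rfl : b2 = 1 := by omega
        obtain rfl : c0 = 0 := by omega
        obtain rfl : c1 = 0 := by omega
        obtain rfl : c2 = 0 := by omega
        exact shape_close (fun h => shapeE5 h) (Equiv.swap 1 2 * Equiv.swap 0 1) (Equiv.swap 0 1) (by decide) h
  ·
    have hd : a1 = 0 ∨ a1 = 1 := by omega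
    rcases hd with rfl | rfl
    ·
      obtain rfl : a2 = 1 := by omega
      have hd : b0 = 0 ∨ b0 = 1 ∨ b0 = 2 := by omega
      rcases hd with rfl | rfl | rfl
      ·
        have hd : b1 = 1 ∨ b1 = 2 ∨ b1 = 3 := by omega
        rcases hd with rfl | rfl | rfl
        ·
          obtain rfl : b2 = 2 := by omega
          obtain rfl : c0 = 0 := by omega
          obtain rfl : c1 = 0 := by omega
          obtain rfl : c2 = 0 := by omega
          exact shape_close (fun h => shapeE5 h) (Equiv.swap 0 1 * Equiv.swap 1 2) (Equiv.swap 0 1) (by decide) h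
        ·
          obtain rfl : b2 = 1 := by omega
          obtain rfl : c0 = 0 := by omega
          obtain rfl : c1 = 0 := by omega
          obtain rfl : c2 = 0 := by omega
          exact shape_close (fun h => shapeE6 h) (Equiv.swap 1 2) 1 (by decide) h
        ·
          obtain rfl : b2 = 0 := by omega
          obtain rfl : c0 = 0 := by omega
          obtain rfl : c1 = 0 := by omega
          obtain rfl : c2 = 0 := by omega
          exact shape_close (fun h => shapeE4 h) (Equiv.swap 1 2 * Equiv.swap 0 1) 1 (by decide) h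
      ·
        have hd : b1 = 1 ∨ b1 = 2 := by omega
        rcases hd with rfl | rfl
        ·
          obtain rfl : b2 = 1 := by omega
          obtain rfl : c0 = 0 := by omega
          obtain rfl : c1 = 0 := by omega
          obtain rfl : c2 = 0 := by omega
          exact shape_close (fun h => shapeE2 h) (Equiv.swap 0 1 * Equiv.swap 1 2) (Equiv.swap 0 1) (by decide) h
        ·
          obtain rfl : b2 = 0 := by omega
          obtain rfl : c0 = 0 := by omega
          obtain rfl : c1 = 0 := by omega
          obtain rfl : c2 = 0 := by omega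
          exact shape_close (fun h => shapeE5 h) (Equiv.swap 1 2 * Equiv.swap 0 1) 1 (by decide) h
      ·
        obtain rfl : b1 = 1 := by omega
        obtain rfl : b2 = 0 := by omega
        obtain rfl : c0 = 0 := by omega
        obtain rfl : c1 = 0 := by omega
        obtain rfl : c2 = 0 := by omega
        exact shape_close (fun h => shapeE3 h) (Equiv.swap 0 2) 1 (by decide) h
    ·
      obtain rfl : a2 = 0 := by omega
      have hd : b0 = 0 ∨ b0 = 1 ∨ b0 = 2 := by omega
      rcases hd with rfl | rfl | rfl
      ·
        have hd : b1 = 0 ∨ b1 = 1 ∨ b1 = 2 := by omega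
        rcases hd with rfl | rfl | rfl
        ·
          obtain rfl : b2 = 3 := by omega
          obtain rfl : c0 = 0 := by omega
          obtain rfl : c1 = 0 := by omega
          obtain rfl : c2 = 0 := by omega
          exact shape_close (fun h => shapeE4 h) (Equiv.swap 0 1) 1 (by decide) h
        ·
          obtain rfl : b2 = 2 := by omega
          obtain rfl : c0 = 0 := by omega
          obtain rfl : c1 = 0 := by omega
          obtain rfl : c2 = 0 := by omega
          exact shape_close (fun h => shapeE6 h) 1 1 (by decide) h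
        ·
          obtain rfl : b2 = 1 := by omega
          obtain rfl : c0 = 0 := by omega
          obtain rfl : c1 = 0 := by omega
          obtain rfl : c2 = 0 := by omega
          exact shape_close (fun h => shapeE5 h) (Equiv.swap 0 2) (Equiv.swap 0 1) (by decide) h
      ·
        have hd : b1 = 0 ∨ b1 = 1 := by omega
        rcases hd with rfl | rfl
        ·
          obtain rfl : b2 = 2 := by omega
          obtain rfl : c0 = 0 := by omega
          obtain rfl : c1 = 0 := by omega
          obtain rfl : c2 = 0 := by omega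
          exact shape_close (fun h => shapeE5 h) (Equiv.swap 0 1) 1 (by decide) h
        ·
          obtain rfl : b2 = 1 := by omega
          obtain rfl : c0 = 0 := by omega
          obtain rfl : c1 = 0 := by omega
          obtain rfl : c2 = 0 := by omega
          exact shape_close (fun h => shapeE2 h) (Equiv.swap 0 2) (Equiv.swap 0 1) (by decide) h
      ·
        obtain rfl : b1 = 0 := by omega
        obtain rfl : b2 = 1 := by omega
        obtain rfl : c0 = 0 := by omega
        obtain rfl : c1 = 0 := by omega
        obtain rfl : c2 = 0 := by omega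
        exact shape_close (fun h => shapeE3 h) (Equiv.swap 0 1 * Equiv.swap 1 2) 1 (by decide) h
  ·
    obtain rfl : a1 = 0 := by omega
    obtain rfl : a2 = 0 := by omega
    have hd : b0 = 0 ∨ b0 = 1 := by omega
    rcases hd with rfl | rfl
    ·
      have hd : b1 = 1 ∨ b1 = 2 := by omega
      rcases hd with rfl | rfl
      ·
        obtain rfl : b2 = 2 := by omega
        obtain rfl : c0 = 0 := by omega
        obtain rfl : c1 = 0 := by omega
        obtain rfl : c2 = 0 := by omega
        exact shape_close (fun h => shapeE4 h) (Equiv.swap 0 1 * Equiv.swap 1 2) (Equiv.swap 0 1) (by decide) h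
      ·
        obtain rfl : b2 = 1 := by omega
        obtain rfl : c0 = 0 := by omega
        obtain rfl : c1 = 0 := by omega
        obtain rfl : c2 = 0 := by omega
        exact shape_close (fun h => shapeE4 h) (Equiv.swap 0 2) (Equiv.swap 0 1) (by decide) h
    ·
      obtain rfl : b1 = 1 := by omega
      obtain rfl : b2 = 1 := by omega
      obtain rfl : c0 = 0 := by omega
      obtain rfl : c1 = 0 := by omega
      obtain rfl : c2 = 0 := by omega
      exact shape_close (fun h => shapeE1 h) (Equiv.swap 0 2) (Equiv.swap 0 1) (by decide) h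

theorem core_003 {ℓ θ S A : Fin 3 → ℝ} {β : Fin 3 → Fin 3 → ℕ}
    {a0 a1 a2 b0 b1 b2 c0 c1 c2 : ℕ}
    (h : Data 19 ℓ θ S A ![![a0,b0,c0],![a1,b1,c1],![a2,b2,c2]] β)
    (ha : a0 + a1 + a2 = 0) (hb : b0 + b1 + b2 = 0) (hc : c0 + c1 + c2 = 3)
    (r0 : 0 < a0 + b0 + c0) (r1 : 0 < a1 + b1 + c1) (r2 : 0 < a2 + b2 + c2) : False := by
  obtain rfl : a0 = 0 := by omega
  obtain rfl : a1 = 0 := by omega
  obtain rfl : a2 = 0 := by omega
  obtain rfl : b0 = 0 := by omega
  obtain rfl : b1 = 0 := by omega
  obtain rfl : b2 = 0 := by omega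
  obtain rfl : c0 = 1 := by omega
  obtain rfl : c1 = 1 := by omega
  obtain rfl : c2 = 1 := by omega
  exact shape_close (fun h => shapeF h) 1 1 (by decide) h

theorem data_core {ℓ θ S A : Fin 3 → ℝ} {κ β : Fin 3 → Fin 3 → ℕ}
    (h : Data 19 ℓ θ S A κ β) (P : Fin 3 → ℕ)
    (hP : ∀ k, ∑ j, κ j k = P k)
    (hc : P = ![1, 1, 1] ∨ P = ![2, 0, 1] ∨ P = ![3, 0, 1] ∨ P = ![2, 2, 0] ∨ P = ![3, 2, 0] ∨
        P = ![3, 3, 0] ∨ P = ![0, 0, 3]) :
    ∃ a b c : Fin 3, a ≠ b ∧ a ≠ c ∧ b ≠ c ∧ θ c = Real.pi / 2 ∧
      ∃ j0 : Fin 3, A j0 = 2 * θ b ∧ A (j0 + 1) = θ a ∧ A (j0 + 2) = θ a := by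
  have p0 := hP 0
  have p1 := hP 1
  have p2 := hP 2
  rw [Fin.sum_univ_three] at p0 p1 p2
  have rr : ∀ j, 0 < κ j 0 + κ j 1 + κ j 2 := by
    intro j
    obtain ⟨k, hk⟩ := h.kpos j
    fin_cases k
    · have : 0 < κ j 0 := hk
      omega
    · have : 0 < κ j 1 := hk
      omega
    · have : 0 < κ j 2 := hk
      omega
  have r0 := rr 0
  have r1 := rr 1
  have r2 := rr 2
  have hκ : κ = ![![κ 0 0, κ 0 1, κ 0 2], ![κ 1 0, κ 1 1, κ 1 2], ![κ 2 0, κ 2 1, κ 2 2]] := by
    funext j k
    fin_cases j <;> fin_cases k <;> rfl
  rw [hκ] at h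
  rcases hc with rfl | rfl | rfl | rfl | rfl | rfl | rfl
  · exact (core_111 h p0 p1 p2 r0 r1 r2).elim
  · exact (core_201 h p0 p1 p2 r0 r1 r2).elim
  · exact (core_301 h p0 p1 p2 r0 r1 r2).elim
  · exact core_220 h p0 p1 p2 r0 r1 r2
  · exact (core_320 h p0 p1 p2 r0 r1 r2).elim
  · exact (core_330 h p0 p1 p2 r0 r1 r2).elim
  · exact (core_003 h p0 p1 p2 r0 r1 r2).elim

/-- TARGET: all corner patterns lead to a contradiction, except the right tile with isosceles T -/
theorem data_final {ℓ θ S A : Fin 3 → ℝ} {κ β : Fin 3 → Fin 3 → ℕ}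
    (h : Data 19 ℓ θ S A κ β) (σ : Equiv.Perm (Fin 3)) (P : Fin 3 → ℕ)
    (hP : ∀ k, ∑ j, κ j (σ k) = P k)
    (hc : P = ![1, 1, 1] ∨ P = ![2, 0, 1] ∨ P = ![3, 0, 1] ∨ P = ![2, 2, 0] ∨ P = ![3, 2, 0] ∨
        P = ![3, 3, 0] ∨ P = ![0, 0, 3]) :
    ∃ a b c : Fin 3, a ≠ b ∧ a ≠ c ∧ b ≠ c ∧ θ c = Real.pi / 2 ∧
      ∃ j0 : Fin 3, A j0 = 2 * θ b ∧ A (j0 + 1) = θ a ∧ A (j0 + 2) = θ a := by
  obtain ⟨a, b, c, hab, hac, hbc, h1, j0, h2, h3, h4⟩ := data_core (h.perm_types σ) P hP hc
  exact ⟨σ a, σ b, σ c, fun e => hab (σ.injective e), fun e => hac (σ.injective e),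
    fun e => hbc (σ.injective e), h1, j0, h2, h3, h4⟩

end Pool.Agent.Helper549.Tri.Final0
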