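import Mathlib
set_option autoImplicit false
noncomputable section
open Polynomial

namespace Pool.Agent.Helper549.Tri.Lift

/-- an integer polynomial with small coefficients which vanishes modulo l at all primitive n-th roots
of unity in characteristic l (l not dividing n) vanishes at all complex primitive n-th roots of unity -/
theorem lift_zero (l : ℕ) [hl : Fact l.Prime] (n : ℕ) (hn : 0 < n) (hcop : ¬ l ∣ n)
    (g : ℤ[X])
    (hv : ∀ ξ : AlgebraicClosure (ZMod l), IsPrimitiveRoot ξ n → aeval ξ g = 0)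
    (hs : ∑ i ∈ g.support, |g.coeff i| < (l : ℤ))
    (ξ : ℂ) (hξ : IsPrimitiveRoot ξ n) : aeval ξ g = 0 := by
  classical
  have hn0 : NeZero n := ⟨hn.ne'⟩
  let K := AlgebraicClosure (ZMod l)
  have hch : CharP K l := charP_of_injective_algebraMap (algebraMap (ZMod l) K).injective l
  have hnK : ((n : ℕ) : K) ≠ 0 := by
    intro h
    rw [CharP.cast_eq_zero_iff K l] at h
    exact hcop h
  have hneK : NeZero ((n : ℕ) : K) := ⟨hnK⟩
  obtain ⟨ζK, hζK⟩ := HasEnoughRootsOfUnity.exists_primitiveRoot K n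
  have hΦ : (cyclotomic n ℤ).Monic := cyclotomic.monic n ℤ
  have hdvd : (cyclotomic n ℤ).map (Int.castRingHom K) ∣ g.map (Int.castRingHom K) := by
    rw [map_cyclotomic_int, cyclotomic_eq_prod_X_sub_primitiveRoots hζK]
    apply Finset.prod_dvd_of_coprime
    · intro a _ b _ hab
      exact pairwise_coprime_X_sub_C Function.injective_id hab
    · intro a ha
      rw [dvd_iff_isRoot, IsRoot, eval_map]
      exact hv a ((mem_primitiveRoots hn).mp ha)
  have hr : (g %ₘ cyclotomic n ℤ).map (Int.castRingHom K) = 0 := by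
    rw [map_modByMonic _ hΦ, (modByMonic_eq_zero_iff_dvd (hΦ.map _)).mpr hdvd]
  have hC : C (l : ℤ) ∣ g %ₘ cyclotomic n ℤ := by
    rw [C_dvd_iff_dvd_coeff]
    intro i
    have h1 : ((g %ₘ cyclotomic n ℤ).map (Int.castRingHom K)).coeff i = 0 := by rw [hr]; simp
    rw [coeff_map] at h1
    exact (CharP.intCast_eq_zero_iff K l _).mp h1
  obtain ⟨h, hh⟩ := hC
  have hval : ∀ ξ : ℂ, IsPrimitiveRoot ξ n → aeval ξ g = (l : ℂ) * aeval ξ h := by
    intro ξ hξ
    have h0 : aeval ξ (cyclotomic n ℤ) = 0 := by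
      have := hξ.isRoot_cyclotomic hn
      rw [IsRoot, ← map_cyclotomic_int, eval_map] at this
      exact this
    have h1 := congrArg (aeval ξ) (modByMonic_add_div g (cyclotomic n ℤ))
    rw [map_add, map_mul, h0, zero_mul, add_zero, hh, map_mul, aeval_C] at h1
    rw [← h1]
    simp
  have hbd : ∀ ξ : ℂ, IsPrimitiveRoot ξ n → ‖aeval ξ h‖ < 1 := by
    intro ξ hξ
    have hnorm : ‖ξ‖ = 1 := hξ.norm'_eq_one hn.ne'
    have h1 : ‖aeval ξ g‖ ≤ ∑ i ∈ g.support, ‖((g.coeff i : ℤ) : ℂ)‖ := by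
      rw [aeval_def, eval₂_eq_sum, Polynomial.sum]
      refine (norm_sum_le _ _).trans (Finset.sum_le_sum ?_)
      intro i _
      rw [norm_mul, norm_pow, hnorm, one_pow, mul_one]
      rfl
    have h2 : ∑ i ∈ g.support, ‖((g.coeff i : ℤ) : ℂ)‖ = ((∑ i ∈ g.support, |g.coeff i| : ℤ) : ℝ) := by
      push_cast
      apply Finset.sum_congr rfl
      intro i _
      rw [Complex.norm_intCast]
    have h3 : ((∑ i ∈ g.support, |g.coeff i| : ℤ) : ℝ) < (l : ℝ) := by exact_mod_cast hs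
    rw [hval ξ hξ, norm_mul, Complex.norm_natCast, h2] at h1
    have hl0 : (0 : ℝ) < l := by exact_mod_cast hl.out.pos
    by_contra hge
    push Not at hge
    have : (l : ℝ) ≤ (l : ℝ) * ‖aeval ξ h‖ := le_mul_of_one_le_right hl0.le hge
    linarith
  have hnQ : NeZero ((n : ℕ) : ℚ) := ⟨by exact_mod_cast hn.ne'⟩
  have hcyc : IsCyclotomicExtension {n} ℚ (CyclotomicField n ℚ) := CyclotomicField.isCyclotomicExtension n ℚ
  have hζ : IsPrimitiveRoot (IsCyclotomicExtension.zeta n ℚ (CyclotomicField n ℚ)) n := IsCyclotomicExtension.zeta_spec n ℚ (CyclotomicField n ℚ)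
  set ζ := IsCyclotomicExtension.zeta n ℚ (CyclotomicField n ℚ) with hζdef
  have hfd : FiniteDimensional ℚ (CyclotomicField n ℚ) := IsCyclotomicExtension.finiteDimensional {n} ℚ (CyclotomicField n ℚ)
  have hα : aeval ζ h = 0 := by
    by_contra hne
    have hint : IsIntegral ℤ (aeval ζ h) :=
      adjoin_le_integralClosure (hζ.isIntegral hn) (aeval_mem_adjoin_singleton ℤ ζ)
    have hN := Algebra.isIntegral_norm ℚ hint
    obtain ⟨y, hy⟩ := IsIntegrallyClosed.isIntegral_iff.mp hN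
    have hy0 : y ≠ 0 := by
      rintro rfl
      rw [map_zero] at hy
      exact hne (Algebra.norm_eq_zero_iff.mp hy.symm)
    have hprod := Algebra.norm_eq_prod_embeddings ℚ ℂ (aeval ζ h)
    rw [← hy] at hprod
    have hnrm := congrArg norm hprod
    rw [norm_prod] at hnrm
    have hσ : ∀ σ : (CyclotomicField n ℚ) →ₐ[ℚ] ℂ, σ (aeval ζ h) = aeval (σ ζ) h := by
      intro σ
      exact (Polynomial.aeval_algHom_apply (σ.restrictScalars ℤ) ζ h).symm
    have hlt : ∏ σ : (CyclotomicField n ℚ) →ₐ[ℚ] ℂ, ‖σ (aeval ζ h)‖ < ∏ σ : (CyclotomicField n ℚ) →ₐ[ℚ] ℂ, (1 : ℝ) := by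
      apply Finset.prod_lt_prod_of_nonempty
      · intro σ _
        rw [norm_pos_iff]
        exact (map_ne_zero σ).mpr hne
      · intro σ _
        rw [hσ]
        exact hbd _ (hζ.map_of_injective σ.injective)
      · exact Finset.univ_nonempty_iff.mpr ⟨IsAlgClosed.lift⟩
    rw [Finset.prod_const_one, ← hnrm] at hlt
    have hge : (1 : ℝ) ≤ ‖(algebraMap ℚ ℂ) ((algebraMap ℤ ℚ) y)‖ := by
      have : (algebraMap ℚ ℂ) ((algebraMap ℤ ℚ) y) = ((y : ℤ) : ℂ) := by simp
      rw [this, Complex.norm_intCast]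
      exact_mod_cast Int.one_le_abs hy0
    linarith
  have hirr : Irreducible (cyclotomic n ℚ) := cyclotomic.irreducible_rat hn
  obtain ⟨σ, hσ⟩ := (hζ.embeddingsEquivPrimitiveRoots ℂ hirr).surjective ⟨ξ, (mem_primitiveRoots hn).mpr hξ⟩
  have hσ' : σ ζ = ξ := by
    have := hζ.embeddingsEquivPrimitiveRoots_apply_coe ℂ hirr σ
    rw [hσ] at this
    exact this.symm
  rw [hval ξ hξ, ← hσ']
  have : aeval (σ ζ) h = σ (aeval ζ h) := Polynomial.aeval_algHom_apply (σ.restrictScalars ℤ) ζ h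
  rw [this, hα, map_zero, mul_zero]

end Pool.Agent.Helper549.Tri.Lift
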