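import Mathlib
set_option autoImplicit false
noncomputable section
open Polynomial

namespace Pool.Agent.Helper549.Tri.Sparse

theorem sz_core {F : Type*} [Field F] (l : ℕ) [hl : Fact l.Prime] [CharP F l] (m r : ℕ)
    (ihm : ∀ m', m = m' + 1 → ∀ f : F[X], f.natDegree < l ^ m → f.support.card ≤ r + 1 →
      (X - 1 : F[X]) ^ ((r + 1) * l ^ m') ∣ f → f = 0)
    (ihr : ∀ f : F[X], f.natDegree < l ^ (m + 1) → f.support.card ≤ r →
      (X - 1 : F[X]) ^ (r * l ^ m) ∣ f → f = 0)
    (g : F[X]) (hg0 : g.coeff 0 ≠ 0) (hdeg : g.natDegree < l ^ (m + 1))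
    (hsupp : g.support.card ≤ r + 1)
    (hdvd : (X - 1 : F[X]) ^ ((r + 1) * l ^ m) ∣ g) : False := by
  have hlp : 0 < l := hl.out.pos
  have hlm : 0 < l ^ m := pow_pos hlp m
  have hgne : g ≠ 0 := by
    rintro rfl
    simp at hg0
  -- the derivative
  have hder : derivative g = 0 := by
    apply ihr
    · exact lt_of_le_of_lt (natDegree_derivative_le g) (by omega)
    · have h1 : (derivative g).support ⊆ (g.support.erase 0).image (fun n => n - 1) := by
        intro n hn
        rw [mem_support_iff, coeff_derivative] at hn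
        rw [Finset.mem_image]
        refine ⟨n + 1, ?_, rfl⟩
        rw [Finset.mem_erase, mem_support_iff]
        exact ⟨by omega, left_ne_zero_of_mul hn⟩
      have h2 := (Finset.card_le_card h1).trans Finset.card_image_le
      rw [Finset.card_erase_of_mem (mem_support_iff.2 hg0)] at h2
      omega
    · refine dvd_trans (pow_dvd_pow _ ?_) (pow_sub_one_dvd_derivative_of_pow_dvd hdvd)
      have : (r + 1) * l ^ m = r * l ^ m + l ^ m := by ring
      omega
  have hexp : expand F l (contract l g) = g := expand_contract l hder hlp.ne'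
  obtain ⟨g', hg'⟩ : ∃ g', g' = contract l g := ⟨_, rfl⟩
  rw [← hg'] at hexp
  have hdg : g.natDegree = g'.natDegree * l := by
    rw [← hexp, natDegree_expand]
  rcases m with _ | m
  · -- m = 0
    have h3 : g'.natDegree = 0 := by
      by_contra h
      have h4 : 1 ≤ g'.natDegree := Nat.one_le_iff_ne_zero.2 h
      have h5 : l ≤ g'.natDegree * l := Nat.le_mul_of_pos_left l (by omega)
      rw [zero_add, pow_one] at hdeg
      omega
    have h6 : g.natDegree = 0 := by rw [hdg, h3, zero_mul]
    have h7 : g = C (g.coeff 0) := eq_C_of_natDegree_eq_zero h6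
    have h8 : (X - 1 : F[X]) ∣ g := by
      refine dvd_trans (dvd_pow_self _ ?_) hdvd
      simp
    have h9 : g.eval 1 = 0 := by
      obtain ⟨h, hh⟩ := h8
      rw [hh]
      simp
    rw [h7, eval_C] at h9
    exact hg0 h9
  · -- m + 1
    have hg'0 : g' = 0 := by
      apply ihm m rfl
      · have h3 : g'.natDegree * l < l ^ (m + 1) * l := by
          rw [← hdg, ← pow_succ]
          exact hdeg
        exact Nat.lt_of_mul_lt_mul_right h3
      · refine le_trans ?_ hsupp
        apply Finset.card_le_card_of_injOn (fun n => n * l)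
        · intro n hn
          rw [Finset.mem_coe, mem_support_iff] at hn ⊢
          rw [hg', coeff_contract hlp.ne'] at hn
          exact hn
        · intro a _ b _ hab
          exact Nat.eq_of_mul_eq_mul_right hlp hab
      · have hg'ne : g' ≠ 0 := by
          rintro h
          rw [h] at hexp
          simp at hexp
          exact hgne hexp.symm
        rw [← C_1, ← le_rootMultiplicity_iff hg'ne]
        rw [← C_1, ← le_rootMultiplicity_iff hgne, ← hexp, rootMultiplicity_expand, one_pow] at hdvd
        have h4 : (r + 1) * l ^ (m + 1) = l * ((r + 1) * l ^ m) := by ring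
        rw [h4] at hdvd
        exact Nat.le_of_mul_le_mul_left hdvd hlp
    rw [hg'0] at hexp
    simp at hexp
    exact hgne hexp.symm

theorem sz_step {F : Type*} [Field F] (l : ℕ) [hl : Fact l.Prime] [CharP F l] (m r : ℕ)
    (ihm : ∀ m', m = m' + 1 → ∀ f : F[X], f.natDegree < l ^ m → f.support.card ≤ r + 1 →
      (X - 1 : F[X]) ^ ((r + 1) * l ^ m') ∣ f → f = 0)
    (ihr : ∀ f : F[X], f.natDegree < l ^ (m + 1) → f.support.card ≤ r →
      (X - 1 : F[X]) ^ (r * l ^ m) ∣ f → f = 0)
    (f : F[X]) (hdeg : f.natDegree < l ^ (m + 1))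
    (hsupp : f.support.card ≤ r + 1)
    (hdvd : (X - 1 : F[X]) ^ ((r + 1) * l ^ m) ∣ f) : f = 0 := by
  by_contra hf
  obtain ⟨j, hj⟩ : ∃ j, j = f.natTrailingDegree := ⟨_, rfl⟩
  have h1 : X ^ j ∣ f := by
    rw [X_pow_dvd_iff]
    intro d hd
    apply coeff_eq_zero_of_lt_natTrailingDegree
    rw [← hj]; exact hd
  obtain ⟨g, hg⟩ := h1
  have hc : ∀ n, g.coeff n = f.coeff (n + j) := by
    intro n
    rw [hg, coeff_X_pow_mul]
  have hg0 : g.coeff 0 ≠ 0 := by
    rw [hc, zero_add, hj]
    have := trailingCoeff_nonzero_iff_nonzero.2 hf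
    exact this
  have hgne : g ≠ 0 := by
    rintro rfl
    simp at hg0
  apply sz_core l m r ihm ihr g hg0
  · refine lt_of_le_of_lt ?_ hdeg
    rw [hg, natDegree_mul (pow_ne_zero _ X_ne_zero) hgne]
    omega
  · refine le_trans ?_ hsupp
    apply Finset.card_le_card_of_injOn (fun n => n + j)
    · intro n hn
      rw [Finset.mem_coe, mem_support_iff] at hn ⊢
      rw [hc] at hn
      exact hn
    · intro a _ b _ hab
      exact Nat.add_right_cancel hab
  · have hcop : IsCoprime ((X - 1 : F[X]) ^ ((r + 1) * l ^ m)) (X ^ j) := by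
      apply IsCoprime.pow
      refine ⟨-1, 1, ?_⟩
      ring
    apply hcop.dvd_of_dvd_mul_left
    rw [← hg]
    exact hdvd

/-- a polynomial with at most r terms, of degree < l^(m+1), in characteristic l, that is divisible by
(X-1)^(r*l^m) is zero -/
theorem sparse_zero {F : Type*} [Field F] (l : ℕ) [hl : Fact l.Prime] [CharP F l] (m r : ℕ)
    (f : F[X]) (hdeg : f.natDegree < l ^ (m + 1)) (hsupp : f.support.card ≤ r)
    (hdvd : (X - 1 : F[X]) ^ (r * l ^ m) ∣ f) : f = 0 := by
  have hr0 : ∀ f : F[X], f.support.card ≤ 0 → f = 0 := by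
    intro f hf
    rw [Nat.le_zero, Finset.card_eq_zero, support_eq_empty] at hf
    exact hf
  induction m generalizing r f with
  | zero =>
    induction r generalizing f with
    | zero => exact hr0 f hsupp
    | succ r ihr =>
      exact sz_step l 0 r (fun m' h => by omega) ihr f hdeg hsupp hdvd
  | succ m ihm =>
    induction r generalizing f with
    | zero => exact hr0 f hsupp
    | succ r ihr =>
      refine sz_step l (m + 1) r (fun m' h f h1 h2 h3 => ?_) ihr f hdeg hsupp hdvd
      have : m' = m := by omega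
      subst this
      exact ihm (r + 1) f h1 h2 h3

end Pool.Agent.Helper549.Tri.Sparse
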