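import Mathlib
import Pool.Agent.Helper549.Tri.Sparse
import Pool.Agent.Helper549.Tri.Lift
import Pool.Agent.Helper549.Tri.DvdEq
set_option autoImplicit false
noncomputable section
open Polynomial

namespace Pool.Agent.Helper549.Tri.RatMain
open Pool.Agent.Helper549.Tri.Sparse Pool.Agent.Helper549.Tri.Lift Pool.Agent.Helper549.Tri.DvdEq

theorem j6858_sum_abs {T : Type} (S : Finset T) (a : T → ℤ) (ε : T → ℕ) :
    ∑ i ∈ (∑ t ∈ S, C (a t) * X ^ ε t : ℤ[X]).support,
      |(∑ t ∈ S, C (a t) * X ^ ε t : ℤ[X]).coeff i| ≤ ∑ t ∈ S, |a t| := by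
  classical
  set g : ℤ[X] := ∑ t ∈ S, C (a t) * X ^ ε t with hg
  have hcoeff : ∀ i, g.coeff i = ∑ t ∈ S, if i = ε t then a t else 0 := by
    intro i
    rw [hg, finsetSum_coeff]
    refine Finset.sum_congr rfl fun t _ => ?_
    rw [coeff_C_mul, coeff_X_pow]
    simp
  calc ∑ i ∈ g.support, |g.coeff i|
      ≤ ∑ i ∈ g.support, ∑ t ∈ S, if i = ε t then |a t| else 0 := by
        refine Finset.sum_le_sum fun i _ => ?_
        rw [hcoeff]
        refine (Finset.abs_sum_le_sum_abs _ _).trans (le_of_eq ?_)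
        refine Finset.sum_congr rfl fun t _ => ?_
        split_ifs <;> simp
    _ = ∑ t ∈ S, ∑ i ∈ g.support, if i = ε t then |a t| else 0 := Finset.sum_comm
    _ ≤ ∑ t ∈ S, |a t| := by
        refine Finset.sum_le_sum fun t _ => ?_
        rw [Finset.sum_ite_eq']
        split_ifs
        · exact le_rfl
        · exact abs_nonneg _

theorem j6858_core (l : ℕ) [hl : Fact l.Prime] (h6 : 6 ≤ l) (m n1 : ℕ) (hn1 : 0 < n1)
    (hcop : ¬ l ∣ n1) {T : Type} [Fintype T] (hT : Fintype.card T ≤ 6) (a : T → ℤ) (ε : T → ℕ)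
    (ha : ∑ t, |a t| < (l : ℤ))
    (hd : ∀ ξ : AlgebraicClosure (ZMod l), IsPrimitiveRoot ξ n1 →
      (X - C ξ) ^ (6 * l ^ m) ∣ (∑ t, C (a t) * X ^ ε t : ℤ[X]).map
        (algebraMap ℤ (AlgebraicClosure (ZMod l))))
    (ω : ℂ) (hω : IsPrimitiveRoot ω (l ^ (m + 1) * n1)) :
    aeval ω (∑ t, C (a t) * X ^ ε t : ℤ[X]) = 0 := by
  classical
  set K := AlgebraicClosure (ZMod l) with hK
  set q : ℕ := l ^ (m + 1) with hq
  have hlpos : 0 < l := hl.out.pos
  have hqpos : 0 < q := pow_pos hlpos _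
  let g : ℕ → ℤ[X] := fun κ => ∑ t ∈ Finset.univ.filter (fun t => ε t % q = κ),
    C (a t) * X ^ ε t
  -- each g κ vanishes at the primitive roots in characteristic l
  have hgv : ∀ κ, ∀ ξ : K, IsPrimitiveRoot ξ n1 → aeval ξ (g κ) = 0 := by
    intro κ ξ hξ
    have hξ0 : ξ ≠ 0 := hξ.ne_zero hn1.ne'
    set f0 : K[X] := ∑ t, C ((a t : K) * ξ ^ ε t) * X ^ (ε t % q) with hf0
    have hmap : (∑ t, C (a t) * X ^ ε t : ℤ[X]).map (algebraMap ℤ K) =
        ∑ t, C ((a t : K)) * X ^ ε t := by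
      rw [Polynomial.map_sum]
      refine Finset.sum_congr rfl fun t _ => ?_
      rw [Polynomial.map_mul, Polynomial.map_pow, map_X, map_C, eq_intCast]
    have hdv := hd ξ hξ
    rw [hmap] at hdv
    have hcomp : (∑ t, C ((a t : K)) * X ^ ε t : K[X]).comp (C ξ * X) =
        ∑ t, C ((a t : K) * ξ ^ ε t) * X ^ ε t := by
      rw [Polynomial.sum_comp]
      refine Finset.sum_congr rfl fun t _ => ?_
      rw [mul_comp, C_comp, pow_comp, X_comp, mul_pow, C_mul, C_pow]
      ring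
    have h1 : (X - 1 : K[X]) ^ (6 * l ^ m) ∣ ∑ t, C ((a t : K) * ξ ^ ε t) * X ^ ε t := by
      obtain ⟨r, hr⟩ := hdv
      rw [← hcomp, hr, mul_comp, pow_comp, sub_comp, X_comp, C_comp]
      have : (C ξ * X - C ξ : K[X]) = C ξ * (X - 1) := by ring
      rw [this, mul_pow]
      exact ⟨C ξ ^ (6 * l ^ m) * r.comp (C ξ * X), by ring⟩
    have h2 : (X - 1 : K[X]) ^ (6 * l ^ m) ∣
        ∑ t, C ((a t : K) * ξ ^ ε t) * X ^ ε t - f0 := by
      rw [hf0, ← Finset.sum_sub_distrib]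
      refine Finset.dvd_sum fun t _ => ?_
      rw [← mul_sub]
      refine Dvd.dvd.mul_left ?_ _
      have h3 : (X - 1 : K[X]) ^ (6 * l ^ m) ∣ (X - 1) ^ q := by
        apply pow_dvd_pow
        rw [hq, pow_succ, mul_comm]
        exact Nat.mul_le_mul_left _ h6
      have h4 : ((X : K[X]) - 1) ^ q = X ^ q - 1 := by
        rw [hq, sub_pow_char_pow, one_pow]
      refine h3.trans ?_
      rw [h4]
      have h5 : (X : K[X]) ^ ε t - X ^ (ε t % q) = X ^ (ε t % q) * ((X ^ q) ^ (ε t / q) - 1) := by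
        rw [mul_sub, ← pow_mul, ← pow_add, Nat.mod_add_div, mul_one]
      rw [h5]
      refine Dvd.dvd.mul_left ?_ _
      simpa using sub_dvd_pow_sub_pow (X ^ q : K[X]) 1 (ε t / q)
    have h3 : (X - 1 : K[X]) ^ (6 * l ^ m) ∣ f0 := by
      have := dvd_sub h1 h2
      rwa [sub_sub_cancel] at this
    have hdeg : f0.natDegree < l ^ (m + 1) := by
      have hle : f0.natDegree ≤ q - 1 := by
        rw [hf0]
        refine natDegree_sum_le_of_forall_le _ _ fun t _ => ?_
        refine (natDegree_C_mul_X_pow_le _ _).trans ?_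
        have := Nat.mod_lt (ε t) hqpos
        omega
      omega
    have hsupp : f0.support.card ≤ 6 := by
      have hsub : f0.support ⊆ Finset.univ.image (fun t => ε t % q) := by
        intro i hi
        rw [mem_support_iff] at hi
        by_contra hcon
        apply hi
        rw [hf0, finsetSum_coeff]
        refine Finset.sum_eq_zero fun t _ => ?_
        rw [coeff_C_mul, coeff_X_pow, if_neg, mul_zero]
        intro h
        exact hcon (Finset.mem_image.mpr ⟨t, Finset.mem_univ _, h.symm⟩)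
      calc f0.support.card ≤ (Finset.univ.image (fun t => ε t % q)).card :=
            Finset.card_le_card hsub
        _ ≤ (Finset.univ : Finset T).card := Finset.card_image_le
        _ ≤ 6 := by rw [Finset.card_univ]; exact hT
    have hz := sparse_zero l m 6 f0 hdeg hsupp h3
    have hc := congrArg (fun p : K[X] => p.coeff κ) hz
    simp only [coeff_zero] at hc
    rw [hf0, finsetSum_coeff] at hc
    have : aeval ξ (g κ) = ∑ t, (C ((a t : K) * ξ ^ ε t) * X ^ (ε t % q) : K[X]).coeff κ := by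
      simp only [g]
      rw [map_sum, Finset.sum_filter]
      refine Finset.sum_congr rfl fun t _ => ?_
      rw [coeff_C_mul, coeff_X_pow]
      by_cases hk : ε t % q = κ
      · rw [if_pos hk, if_pos hk.symm]
        simp
      · rw [if_neg hk, if_neg (fun h => hk h.symm), mul_zero]
    rw [this, hc]
  -- lift to characteristic zero
  have hgz : ∀ κ, ∀ z : ℂ, IsPrimitiveRoot z n1 → aeval z (g κ) = 0 := by
    intro κ z hz
    refine lift_zero l n1 hn1 hcop (g κ) (hgv κ) ?_ z hz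
    refine lt_of_le_of_lt (j6858_sum_abs _ a ε) (lt_of_le_of_lt ?_ ha)
    exact Finset.sum_le_sum_of_subset_of_nonneg (Finset.filter_subset _ _)
      fun t _ _ => abs_nonneg _
  -- decompose ω
  have hcop2 : Nat.Coprime q n1 := by
    rw [hq]
    exact Nat.Coprime.pow_left _ ((Nat.Prime.coprime_iff_not_dvd hl.out).mpr hcop)
  have hωq : IsPrimitiveRoot (ω ^ q) n1 :=
    hω.pow (Nat.mul_pos hqpos hn1) rfl
  obtain ⟨b, hb1, hb2⟩ : ∃ b : ℕ, Nat.Coprime b n1 ∧ q * b ≡ 1 [MOD n1] := by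
    rcases Nat.eq_or_lt_of_le (Nat.succ_le_of_lt hn1) with h1 | h1
    · refine ⟨0, ?_, ?_⟩
      · rw [← h1]; simp
      · rw [← h1]; exact Nat.modEq_one
    · obtain ⟨b, hb⟩ := Nat.exists_mul_mod_eq_one_of_coprime hcop2 h1
      have hb' : q * b ≡ 1 [MOD n1] := by
        unfold Nat.ModEq
        rw [hb.2, Nat.mod_eq_of_lt h1]
      refine ⟨b, ?_, hb'⟩
      have := hb'.gcd_eq
      have h2 : Nat.Coprime (q * b) n1 := by
        unfold Nat.Coprime
        rw [this]; simp
      exact Nat.Coprime.coprime_mul_left h2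
  set z : ℂ := ω ^ (q * b) with hz
  have hzp : IsPrimitiveRoot z n1 := by
    rw [hz, pow_mul]
    exact hωq.pow_of_coprime b hb1
  have hω0 : ω ≠ 0 := hω.ne_zero (Nat.mul_pos hqpos hn1).ne'
  have hz0 : z ≠ 0 := pow_ne_zero _ hω0
  set ζ : ℂ := ω * z⁻¹ with hζ
  have hωζ : ω = ζ * z := by rw [hζ, mul_assoc, inv_mul_cancel₀ hz0, mul_one]
  have hzq : z ^ q = ω ^ q := by
    have h1 : (ω ^ q) ^ (q * b) = (ω ^ q) ^ 1 :=
      pow_eq_pow_of_modEq hb2 hωq.pow_eq_one
    rw [hz, ← pow_mul, mul_comm (q * b) q, pow_mul, h1, pow_one]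
  have hζq : ζ ^ q = 1 := by
    rw [hζ, mul_pow, inv_pow, hzq, mul_inv_cancel₀ (pow_ne_zero _ hω0)]
  have hζmod : ∀ e, ζ ^ e = ζ ^ (e % q) := by
    intro e
    conv_lhs => rw [← Nat.mod_add_div e q, pow_add, pow_mul, hζq, one_pow, mul_one]
  have hsum : aeval ω (∑ t, C (a t) * X ^ ε t : ℤ[X]) =
      ∑ κ ∈ Finset.range q, ζ ^ κ * aeval z (g κ) := by
    have h1 : ∀ κ ∈ Finset.range q, ζ ^ κ * aeval z (g κ) =
        ∑ t, if ε t % q = κ then (a t : ℂ) * ω ^ ε t else 0 := by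
      intro κ _
      simp only [g]
      rw [map_sum, Finset.mul_sum, Finset.sum_filter]
      refine Finset.sum_congr rfl fun t _ => ?_
      by_cases hk : ε t % q = κ
      · rw [if_pos hk, if_pos hk, hωζ, mul_pow ζ z, hζmod (ε t), hk]
        simp
        ring
      · rw [if_neg hk, if_neg hk]
    rw [Finset.sum_congr rfl h1, Finset.sum_comm, map_sum]
    refine Finset.sum_congr rfl fun t _ => ?_
    rw [Finset.sum_ite_eq, if_pos (Finset.mem_range.mpr (Nat.mod_lt _ hqpos))]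
    simp
  rw [hsum]
  refine Finset.sum_eq_zero fun κ _ => ?_
  rw [hgz κ z hzp, mul_zero]

theorem j6858_S (n l : ℕ) (hn : 0 < n) (hl : 0 < l) (θ : ℕ) (hθ : θ ≤ 2 * n) :
    Complex.exp (2 * Real.pi * Complex.I / ((2 * n * l : ℕ) : ℂ)) ^ (l * θ) -
      Complex.exp (2 * Real.pi * Complex.I / ((2 * n * l : ℕ) : ℂ)) ^ (2 * n * l - l * θ) =
      Complex.I * ((2 * Real.sin (Real.pi * θ / n) : ℝ) : ℂ) := by
  have hn' : (n : ℂ) ≠ 0 := by exact_mod_cast hn.ne'
  have hl' : (l : ℂ) ≠ 0 := by exact_mod_cast hl.ne'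
  have hle : l * θ ≤ 2 * n * l := by
    calc l * θ ≤ l * (2 * n) := Nat.mul_le_mul_left _ hθ
      _ = 2 * n * l := by ring
  rw [← Complex.exp_nat_mul, ← Complex.exp_nat_mul]
  have h1 : ((l * θ : ℕ) : ℂ) * (2 * Real.pi * Complex.I / ((2 * n * l : ℕ) : ℂ)) =
      ((Real.pi * θ / n : ℝ) : ℂ) * Complex.I := by
    push_cast
    field_simp
  have h2 : ((2 * n * l - l * θ : ℕ) : ℂ) * (2 * Real.pi * Complex.I / ((2 * n * l : ℕ) : ℂ)) =
      2 * Real.pi * Complex.I + (-((Real.pi * θ / n : ℝ) : ℂ)) * Complex.I := by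
    rw [Nat.cast_sub hle]
    push_cast
    field_simp
    ring
  rw [h1, h2, Complex.exp_add, Complex.exp_two_pi_mul_I, one_mul, Complex.exp_mul_I,
    Complex.exp_mul_I, Complex.cos_neg, Complex.sin_neg]
  push_cast
  ring

/-- TARGET -/
theorem rational_main (l : ℕ) (hl : l.Prime) (h17 : 17 ≤ l) (n : ℕ)
    (θ A c : Fin 3 → ℕ) (hθ : ∀ k, 0 < θ k) (hA : ∀ k, 0 < A k)
    (hθs : θ 0 + θ 1 + θ 2 = n) (hAs : A 0 + A 1 + A 2 = n)
    (hc : 2 * (c 0 + c 1 + c 2) < l) (hc0 : 0 < c 0 + c 1 + c 2)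
    (x : ℝ) (hx : x = ∑ k, (c k : ℝ) * (2 * Real.sin (Real.pi * θ k / n)))
    (h : x ^ 2 * (2 * Real.sin (Real.pi * A 1 / n)) * (2 * Real.sin (Real.pi * A 2 / n)) =
      l * (∏ k, (2 * Real.sin (Real.pi * θ k / n))) * (2 * Real.sin (Real.pi * A 0 / n))) :
    False := by
  have _ : Fact l.Prime := ⟨hl⟩
  have hlpos : 0 < l := hl.pos
  have hn : 0 < n := by have := hθ 0; omega
  have hθn : ∀ k, θ k < n := by
    intro k
    have h0 := hθ 0
    have h1 := hθ 1
    have h2 := hθ 2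
    fin_cases k <;> simp <;> omega
  have hAn : ∀ k, A k < n := by
    intro k
    have h0 := hA 0
    have h1 := hA 1
    have h2 := hA 2
    fin_cases k <;> simp <;> omega
  have hsin : ∀ k, 0 < Real.sin (Real.pi * θ k / n) := by
    intro k
    have h1 : (0 : ℝ) < θ k := by exact_mod_cast hθ k
    have h2 : (θ k : ℝ) < n := by exact_mod_cast hθn k
    have h3 : (0 : ℝ) < n := by exact_mod_cast hn
    apply Real.sin_pos_of_pos_of_lt_pi
    · positivity
    · rw [div_lt_iff₀ h3]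
      exact mul_lt_mul_of_pos_left h2 Real.pi_pos
  have hxpos : 0 < x := by
    rw [hx, Fin.sum_univ_three]
    have h0 := hsin 0
    have h1 := hsin 1
    have h2 := hsin 2
    have hcc : 0 < c 0 ∨ 0 < c 1 ∨ 0 < c 2 := by omega
    rcases hcc with h' | h' | h'
    · have : (0 : ℝ) < c 0 := by exact_mod_cast h'
      positivity
    · have : (0 : ℝ) < c 1 := by exact_mod_cast h'
      positivity
    · have : (0 : ℝ) < c 2 := by exact_mod_cast h'
      positivity
  have hN : 2 * n * l ≠ 0 := by positivity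
  obtain ⟨v, n1, hcop, hNv⟩ := Nat.exists_eq_pow_mul_and_not_dvd hN l hl.ne_one
  obtain ⟨m, rfl⟩ : ∃ m, v = m + 1 := by
    rcases v with _ | m
    · exfalso
      rw [pow_zero, one_mul] at hNv
      exact hcop (hNv ▸ Dvd.intro_left (2 * n) rfl)
    · exact ⟨m, rfl⟩
  have hn1 : 0 < n1 := by
    rcases Nat.eq_zero_or_pos n1 with h0 | h0
    · rw [h0, mul_zero] at hNv; exact absurd hNv hN
    · exact h0
  set ω : ℂ := Complex.exp (2 * Real.pi * Complex.I / ((2 * n * l : ℕ) : ℂ)) with hωdef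
  have hω : IsPrimitiveRoot ω (2 * n * l) := Complex.isPrimitiveRoot_exp _ hN
  rw [hNv] at hω
  let S : ℕ → ℤ[X] := fun E => X ^ E - X ^ (l ^ (m + 1) * n1 - E)
  have hS : ∀ t, t ≤ 2 * n → aeval ω (S (l * t)) =
      Complex.I * ((2 * Real.sin (Real.pi * t / n) : ℝ) : ℂ) := by
    intro t ht
    simp only [S]
    rw [map_sub, map_pow, map_pow, aeval_X, ← hNv]
    exact j6858_S n l hn hlpos t ht
  let a : Fin 3 × Bool → ℤ := fun t => if t.2 then (c t.1 : ℤ) else -(c t.1 : ℤ)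
  let ε : Fin 3 × Bool → ℕ := fun t => if t.2 then l * θ t.1 else l ^ (m + 1) * n1 - l * θ t.1
  set Y : ℤ[X] := ∑ t, C (a t) * X ^ ε t with hY
  have hYS : Y = ∑ k : Fin 3, C (c k : ℤ) * S (l * θ k) := by
    rw [hY, Fintype.sum_prod_type]
    refine Finset.sum_congr rfl fun k _ => ?_
    simp only [a, ε, S, Fintype.sum_bool, if_true, Bool.false_eq_true, if_false, C_neg]
    ring
  have hYω : aeval ω Y = Complex.I * (x : ℂ) := by
    rw [hYS, map_sum, hx]
    push_cast
    rw [Finset.mul_sum]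
    refine Finset.sum_congr rfl fun k _ => ?_
    rw [map_mul, hS (θ k) (by have := hθn k; omega)]
    simp
    ring
  let R : ℤ[X] := (∏ k, S (l * θ k)) * S (l * A 0)
  have hmain : aeval ω (Y ^ 2 * (X ^ (l * A 1) - X ^ (l ^ (m + 1) * n1 - l * A 1)) *
      (X ^ (l * A 2) - X ^ (l ^ (m + 1) * n1 - l * A 2)) - C (l : ℤ) * R) = 0 := by
    change aeval ω (Y ^ 2 * S (l * A 1) * S (l * A 2) - C (l : ℤ) * R) = 0
    rw [map_sub, map_mul, map_mul, map_pow, hYω, hS (A 1) (by have := hAn 1; omega),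
      hS (A 2) (by have := hAn 2; omega), map_mul]
    simp only [R]
    rw [map_mul, map_prod, hS (A 0) (by have := hAn 0; omega)]
    have hprod : ∏ k, aeval ω (S (l * θ k)) =
        ∏ k, (Complex.I * ((2 * Real.sin (Real.pi * θ k / n) : ℝ) : ℂ)) :=
      Finset.prod_congr rfl fun k _ => hS (θ k) (by have := hθn k; omega)
    rw [hprod, Finset.prod_mul_distrib]
    have hI : (∏ _k : Fin 3, Complex.I) = Complex.I ^ 3 := by simp
    rw [hI, ← Complex.ofReal_prod]
    have hh := congrArg (fun r : ℝ => (r : ℂ)) h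
    have hl2 : aeval ω (C (l : ℤ) : ℤ[X]) = (l : ℂ) := by simp
    rw [hl2]
    have hI2 : Complex.I ^ 2 = -1 := Complex.I_sq
    have e1 : (Complex.I * (x : ℂ)) ^ 2 * (Complex.I * ((2 * Real.sin (Real.pi * A 1 / n) : ℝ) : ℂ)) *
        (Complex.I * ((2 * Real.sin (Real.pi * A 2 / n) : ℝ) : ℂ)) =
        ((x ^ 2 * (2 * Real.sin (Real.pi * A 1 / n)) * (2 * Real.sin (Real.pi * A 2 / n)) : ℝ) : ℂ) := by
      push_cast
      linear_combination ((x : ℂ) ^ 2 * (2 * Complex.sin (Real.pi * A 1 / n)) *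
        (2 * Complex.sin (Real.pi * A 2 / n))) * (Complex.I ^ 2 - 1) * hI2
    have e2 : (l : ℂ) * (Complex.I ^ 3 *
        ((∏ k, (2 * Real.sin (Real.pi * θ k / n)) : ℝ) : ℂ) *
        (Complex.I * ((2 * Real.sin (Real.pi * A 0 / n) : ℝ) : ℂ))) =
        ((l * (∏ k, (2 * Real.sin (Real.pi * θ k / n))) * (2 * Real.sin (Real.pi * A 0 / n)) : ℝ) : ℂ) := by
      push_cast
      linear_combination ((l : ℂ) * (∏ k, (2 * Complex.sin (Real.pi * θ k / n))) *
        (2 * Complex.sin (Real.pi * A 0 / n))) * (Complex.I ^ 2 - 1) * hI2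
    rw [e1, e2, hh, sub_self]
  have hYz : aeval ω Y = 0 := by
    refine j6858_core l (by omega) m n1 hn1 hcop (T := Fin 3 × Bool) (by simp) a ε ?_ ?_ ω hω
    · rw [Fintype.sum_prod_type]
      simp only [a, Fintype.sum_bool, if_true, Bool.false_eq_true, if_false, abs_neg]
      rw [Fin.sum_univ_three]
      have habs : ∀ k, |(c k : ℤ)| = c k := fun k => abs_of_nonneg (by positivity)
      rw [habs, habs, habs]
      omega
    · intro ξ hξ
      have hb : ∀ k, l * A k < l ^ (m + 1) * n1 := by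
        intro k
        rw [← hNv]
        have := hAn k
        calc l * A k < l * n := Nat.mul_lt_mul_of_pos_left this hlpos
          _ ≤ 2 * n * l := by nlinarith
      have hb2 : ∀ k, 2 * (l * A k) ≠ l ^ (m + 1) * n1 := by
        intro k
        rw [← hNv]
        have := hAn k
        have h3 : 2 * (l * A k) < 2 * n * l := by
          calc 2 * (l * A k) = 2 * l * A k := by ring
            _ < 2 * l * n := Nat.mul_lt_mul_of_pos_left this (by omega)
            _ = 2 * n * l := by ring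
        omega
      exact dvd_of_eq l (by omega) m n1 hn1 hcop ω hω Y R (l * A 1) (l * A 2)
        (hb 1) (Nat.mul_pos hlpos (hA 1)) (hb2 1) (hb 2) (Nat.mul_pos hlpos (hA 2)) (hb2 2)
        hmain ξ hξ
  rw [hYω] at hYz
  have := mul_eq_zero.mp hYz
  rcases this with h' | h'
  · exact Complex.I_ne_zero h'
  · rw [Complex.ofReal_eq_zero] at h'
    exact hxpos.ne' h'

end Pool.Agent.Helper549.Tri.RatMain
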