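import Mathlib
import Pool.Agent.Helper549.Tri.Defs
import Pool.Agent.Helper549.Tri.Basic
import Pool.Agent.Helper549.Tri.Angles
import Pool.Agent.Helper549.Tri.Char
import Pool.Agent.Helper549.Tri.Odd
import Pool.Agent.Helper549.Tri.Corner
import Pool.Agent.Helper549.Tri.Class
import Pool.Agent.Helper549.Tri.Vertex
import Pool.Agent.Helper549.Tri.RealChar
import Pool.Agent.Helper549.Tri.AngleSum
set_option autoImplicit false
noncomputable section
open scoped BigOperators
open MeasureTheory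

namespace Pool.Agent.Helper549.Tri.RightIso
open Pool.Agent.Helper549.Tri.Basic Pool.Agent.Helper549.Tri.Angles Pool.Agent.Helper549.Tri.Char Pool.Agent.Helper549.Tri.Odd Pool.Agent.Helper549.Tri.Corner Pool.Agent.Helper549.Tri.Class Pool.Agent.Helper549.Tri.Vertex Pool.Agent.Helper549.Tri.RealChar Pool.Agent.Helper549.Tri.AngleSum

theorem ri_sum3 {M : Type*} [AddCommMonoid M] (m : Fin 3) (f : Fin 3 → M) :
    ∑ k, f k = f m + f (m + 1) + f (m + 2) := by
  rw [Fin.sum_univ_three]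
  fin_cases m
  · rfl
  · change f 0 + f 1 + f 2 = f 1 + f 2 + f 0
    rw [add_comm (f 1 + f 2) (f 0), add_assoc]
  · change f 0 + f 1 + f 2 = f 2 + f 0 + f 1
    rw [add_comm (f 0 + f 1) (f 2), add_assoc]

theorem ri_cases (a b c : Fin 3) (hab : a ≠ b) (hac : a ≠ c) (hbc : b ≠ c) (k : Fin 3) :
    k = a ∨ k = b ∨ k = c := by
  omega

theorem ri_sum_abc {M : Type*} [AddCommMonoid M] (a b c : Fin 3) (hab : a ≠ b) (hac : a ≠ c)
    (hbc : b ≠ c) (f : Fin 3 → M) : ∑ k, f k = f a + f b + f c := by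
  have h : (Finset.univ : Finset (Fin 3)) = {a, b, c} := by
    ext k
    simp only [Finset.mem_univ, Finset.mem_insert, Finset.mem_singleton, true_iff]
    exact ri_cases a b c hab hac hbc k
  rw [h, Finset.sum_insert (by simp [hab, hac]), Finset.sum_insert (by simp [hbc]),
    Finset.sum_singleton, add_assoc]

theorem ri_prod_abc {M : Type*} [CommMonoid M] (a b c : Fin 3) (hab : a ≠ b) (hac : a ≠ c)
    (hbc : b ≠ c) (f : Fin 3 → M) : ∏ k, f k = f a * f b * f c := by
  have h : (Finset.univ : Finset (Fin 3)) = {a, b, c} := by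
    ext k
    simp only [Finset.mem_univ, Finset.mem_insert, Finset.mem_singleton, true_iff]
    exact ri_cases a b c hab hac hbc k
  rw [h, Finset.prod_insert (by simp [hab, hac]), Finset.prod_insert (by simp [hbc]),
    Finset.prod_singleton, mul_assoc]

theorem ri_root4 (χ : ℂ) (h : χ ^ 4 = 1) : ∃ p q : ℤ, χ = p + q * Complex.I ∧ (p + q) % 2 = 1 := by
  have h1 : (χ - 1) * (χ + 1) * ((χ - Complex.I) * (χ + Complex.I)) = 0 := by
    linear_combination h + (1 - χ ^ 2) * Complex.I_sq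
  rcases mul_eq_zero.1 h1 with h2 | h2
  · rcases mul_eq_zero.1 h2 with h3 | h3
    · exact ⟨1, 0, by simp [sub_eq_zero.1 h3], by norm_num⟩
    · exact ⟨-1, 0, by simp [eq_neg_of_add_eq_zero_left h3], by norm_num⟩
  · rcases mul_eq_zero.1 h2 with h3 | h3
    · exact ⟨0, 1, by simp [sub_eq_zero.1 h3], by norm_num⟩
    · exact ⟨0, -1, by simp [eq_neg_of_add_eq_zero_left h3], by norm_num⟩

/-- the key relation for one sign `ζ` -/
theorem ri_key {N : ℕ} {T : Fin 3 → ℂ}
    {t : Fin N → Fin 3 → ℂ} (h : Dis N T t)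
    (τ : Fin N → Equiv.Perm (Fin 3)) (ℓ θ : Fin 3 → ℝ) (hlen : ∀ i m, len (t i) m = ℓ (τ i m))
    (hang : ∀ i m, ang (t i) m = θ (τ i m)) (hsum : θ 0 + θ 1 + θ 2 = Real.pi)
    (hirr : ¬ ∀ k, ∃ q : ℚ, θ k = q * Real.pi)
    (a b c : Fin 3) (hab : a ≠ b) (hac : a ≠ c) (hbc : b ≠ c)
    (hright : θ c = Real.pi / 2) (j0 : Fin 3)
    (h1 : ang T (j0 + 1) = θ a) (h2 : ang T (j0 + 2) = θ a)
    (ζ : ℝ) (hζ : ζ ^ 2 = 1) :
    ∃ u u1 w1 : ℤ, (u + u1 - N) % 2 = 0 ∧ (w1 - u1) % 2 = 0 ∧
      (ℓ c - ζ * ℓ b) * u - ζ * ℓ a * w1 = len T j0 - ζ * len T (j0 + 1) - ζ * len T (j0 + 2) := by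
  have hζC : (ζ : ℂ) ^ 2 = 1 := by exact_mod_cast hζ
  have hζ0 : (ζ : ℂ) ≠ 0 := by
    intro h0
    rw [h0] at hζC
    norm_num at hζC
  have hI4 : Complex.I ^ 4 = 1 := Complex.I_pow_four
  have hsum' : θ a + θ b + θ c = Real.pi := by
    rw [← ri_sum_abc a b c hab hac hbc θ, Fin.sum_univ_three]
    exact hsum
  set d : Fin 3 → ℤ := fun k => if k = c then -1 else 1 with hd
  set X : Fin 3 → ℂ := fun k => if k = a then (ζ : ℂ) else if k = b then Complex.I * ζ else Complex.I
    with hX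
  have hda : d a = 1 := by simp [hd, hac]
  have hdb : d b = 1 := by simp [hd, hbc]
  have hdc : d c = -1 := by simp [hd]
  have hXa : X a = ζ := by simp [hX]
  have hXb : X b = Complex.I * ζ := by simp [hX, hab.symm]
  have hXc : X c = Complex.I := by simp [hX, hac.symm, hbc.symm]
  have hX0 : ∀ k, X k ≠ 0 := by
    intro k
    rcases ri_cases a b c hab hac hbc k with rfl | rfl | rfl
    · rw [hXa]; exact hζ0
    · rw [hXb]; exact mul_ne_zero Complex.I_ne_zero hζ0
    · rw [hXc]; exact Complex.I_ne_zero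
  have hX4 : ∀ k, X k ^ 4 = 1 := by
    intro k
    have hz4 : (ζ : ℂ) ^ 4 = 1 := by
      rw [show (4 : ℕ) = 2 * 2 by norm_num, pow_mul, hζC, one_pow]
    rcases ri_cases a b c hab hac hbc k with rfl | rfl | rfl
    · rw [hXa]; exact hz4
    · rw [hXb, mul_pow, hI4, hz4, one_mul]
    · rw [hXc]; exact hI4
  have hz0 : dir T j0 ≠ 0 := by
    intro h0
    have := norm_dir T h.ccwT j0
    rw [h0, norm_zero] at this
    exact zero_ne_one this
  obtain ⟨φ, hφ1, hφ2, hφ3⟩ := char_exists θ hsum hirr d (by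
      rw [ri_sum_abc a b c hab hac hbc, hda, hdb, hdc]
      push_cast
      linarith) ⟨c, hdc⟩ X hX0 (by
      have := ri_prod_abc a b c hab hac hbc X
      rw [Fin.prod_univ_three] at this
      rw [this, hXa, hXb, hXc]
      linear_combination Complex.I ^ 2 * hζC + Complex.I_sq) (by
      rw [ri_prod_abc a b c hab hac hbc, hda, hdb, hdc, hXa, hXb, hXc, zpow_one, zpow_one,
        zpow_neg_one, Complex.inv_I]
      linear_combination (-Complex.I ^ 2) * hζC - Complex.I_sq) (dir T j0) hz0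
  have hφ0 : φ (dir T j0) = 1 := by
    have := hφ2 0 0
    simpa using this
  -- inverse rotation
  have hφinv : ∀ z k, φ (Complex.exp (-(θ k : ℂ) * Complex.I) * z) = (X k)⁻¹ * φ z := by
    intro z k
    have h3 := hφ3 (Complex.exp (-(θ k : ℂ) * Complex.I) * z) k
    rw [← mul_assoc, ← Complex.exp_add] at h3
    have h4 : (θ k : ℂ) * Complex.I + -(θ k : ℂ) * Complex.I = 0 := by ring
    rw [h4, Complex.exp_zero, one_mul] at h3
    rw [h3, ← mul_assoc, inv_mul_cancel₀ (hX0 k), one_mul]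
  -- general direction formulas
  have hdir1 : ∀ (v : Fin 3 → ℂ), 0 < dd v → ∀ m k, ang v (m + 2) = θ k →
      φ (dir v (m + 1)) = - (X k)⁻¹ * φ (dir v m) := by
    intro v hv m k hk
    have h3 := dir_rel v hv (m + 2)
    have e1 : m + 2 + 2 = m + 1 := by omega
    have e2 : m + 2 + 1 = m := by omega
    rw [e1, e2, hk] at h3
    rw [h3, neg_mul, hφ1, hφinv]
    ring
  have hdir2 : ∀ (v : Fin 3 → ℂ), 0 < dd v → ∀ m k, ang v (m + 1) = θ k →
      φ (dir v (m + 2)) = - X k * φ (dir v m) := by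
    intro v hv m k hk
    have h3 := dir_rel v hv (m + 1)
    have e1 : m + 1 + 2 = m := by omega
    have e2 : m + 1 + 1 = m + 2 := by omega
    rw [e1, e2, hk] at h3
    have h4 : φ (dir v m) = - (X k)⁻¹ * φ (dir v (m + 2)) := by
      rw [h3, neg_mul, hφ1, hφinv]
      ring
    rw [h4]
    have := hX0 k
    field_simp
  have hinvζ : (ζ : ℂ)⁻¹ = ζ := by
    exact inv_eq_of_mul_eq_one_right (by rw [← pow_two]; exact hζC)
  have hinvb : (X b)⁻¹ = - Complex.I * ζ := by
    rw [hXb, mul_inv, hinvζ, Complex.inv_I]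
  have hinva : (X a)⁻¹ = ζ := by rw [hXa, hinvζ]
  -- per tile
  have htile : ∀ i, ∃ p q s : ℤ, (p + q) % 2 = 1 ∧ (s = 1 ∨ s = -1) ∧
      (∑ k, (len (t i) k : ℂ) * φ (dir (t i) k)).re =
        (ℓ c - ζ * ℓ b) * p - ζ * ℓ a * (s * q) := by
    intro i
    set m := (τ i).symm c with hm
    have hmc : τ i m = c := by rw [hm, Equiv.apply_symm_apply]
    obtain ⟨e, x, hex⟩ := dir_coset h τ θ hang i m j0
    have hχ : φ (dir (t i) m) ^ 4 = 1 := by
      rw [hex, hφ2, mul_pow, ← Finset.prod_pow]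
      have h5 : ((-1 : ℂ) ^ e) ^ 4 = 1 := by
        rw [← zpow_natCast, ← zpow_mul, mul_comm, zpow_mul]
        norm_num
      have h6 : ∀ k, (X k ^ x k) ^ 4 = 1 := by
        intro k
        rw [← zpow_natCast, ← zpow_mul, mul_comm, zpow_mul]
        have := hX4 k
        rw [show ((4 : ℕ) : ℤ) = ((4 : ℕ) : ℤ) from rfl, zpow_natCast, this, one_zpow]
      rw [h5, one_mul]
      exact Finset.prod_eq_one fun k _ => h6 k
    obtain ⟨p, q, hpq, hpar⟩ := ri_root4 _ hχ
    have hm1 : τ i (m + 1) ≠ c := by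
      rw [← hmc]
      intro hh
      have := (τ i).injective hh
      omega
    have hm2 : τ i (m + 2) ≠ c := by
      rw [← hmc]
      intro hh
      have := (τ i).injective hh
      omega
    have hm12 : τ i (m + 1) ≠ τ i (m + 2) := by
      intro hh
      have := (τ i).injective hh
      omega
    rcases ri_cases a b c hab hac hbc (τ i (m + 1)) with ha1 | hb1 | hc1
    · have hb2 : τ i (m + 2) = b := by
        rcases ri_cases a b c hab hac hbc (τ i (m + 2)) with g | g | g
        · exact absurd (ha1.trans g.symm) hm12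
        · exact g
        · exact absurd g hm2
      refine ⟨p, q, 1, hpar, Or.inl rfl, ?_⟩
      rw [ri_sum3 m, hdir1 (t i) (h.ccwt i) m b (by rw [hang, hb2]),
        hdir2 (t i) (h.ccwt i) m a (by rw [hang, ha1]), hlen, hlen, hlen, hmc, ha1, hb2, hinvb, hXa,
        hpq]
      simp [Complex.add_re, Complex.mul_re, Complex.mul_im, Complex.add_im]
      ring
    · have ha2 : τ i (m + 2) = a := by
        rcases ri_cases a b c hab hac hbc (τ i (m + 2)) with g | g | g
        · exact g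
        · exact absurd (hb1.trans g.symm) hm12
        · exact absurd g hm2
      refine ⟨p, q, -1, hpar, Or.inr rfl, ?_⟩
      rw [ri_sum3 m, hdir1 (t i) (h.ccwt i) m a (by rw [hang, ha2]),
        hdir2 (t i) (h.ccwt i) m b (by rw [hang, hb1]), hlen, hlen, hlen, hmc, hb1, ha2, hinva, hXb,
        hpq]
      simp [Complex.add_re, Complex.mul_re, Complex.mul_im, Complex.add_im]
      ring
    · exact absurd hc1 hm1
  choose p q s hpar hs hre using htile
  have hmain := congrArg Complex.re (odd_sum h φ hφ1)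
  rw [Complex.re_sum] at hmain
  have hT : (∑ k, (len T k : ℂ) * φ (dir T k)).re =
      len T j0 - ζ * len T (j0 + 1) - ζ * len T (j0 + 2) := by
    rw [ri_sum3 j0, hdir1 T h.ccwT j0 a h2, hdir2 T h.ccwT j0 a h1, hφ0, hinva, hXa]
    simp
    ring
  rw [hT, Finset.sum_congr rfl (fun i _ => hre i)] at hmain
  refine ⟨∑ i, p i, ∑ i, q i, ∑ i, s i * q i, ?_, ?_, ?_⟩
  · have h5 : (∑ i, p i + ∑ i, q i - (N : ℤ)) = ∑ i : Fin N, (p i + q i - 1) := by
      rw [Finset.sum_sub_distrib, Finset.sum_add_distrib]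
      simp
    rw [h5]
    apply Int.emod_eq_zero_of_dvd
    apply Finset.dvd_sum
    intro i _
    have := hpar i
    omega
  · have h5 : (∑ i, s i * q i - ∑ i, q i) = ∑ i : Fin N, (s i - 1) * q i := by
      rw [← Finset.sum_sub_distrib]
      apply Finset.sum_congr rfl
      intro i _
      ring
    rw [h5]
    apply Int.emod_eq_zero_of_dvd
    apply Finset.dvd_sum
    intro i _
    apply Dvd.dvd.mul_right
    rcases hs i with g | g <;> rw [g] <;> norm_num
  · rw [← hmain]
    push_cast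
    rw [Finset.mul_sum, Finset.mul_sum, ← Finset.sum_sub_distrib]

/-- TARGET: right tile, T isosceles with angles (theta a, theta a, 2*theta b), N odd: impossible -/
theorem right_isosceles_impossible {N : ℕ} (hN : N % 2 = 1) {T : Fin 3 → ℂ}
    {t : Fin N → Fin 3 → ℂ} (h : Dis N T t)
    (τ : Fin N → Equiv.Perm (Fin 3)) (ℓ θ : Fin 3 → ℝ) (hlen : ∀ i m, len (t i) m = ℓ (τ i m))
    (hang : ∀ i m, ang (t i) m = θ (τ i m)) (hsum : θ 0 + θ 1 + θ 2 = Real.pi)
    (hirr : ¬ ∀ k, ∃ q : ℚ, θ k = q * Real.pi)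
    (a b c : Fin 3) (hab : a ≠ b) (hac : a ≠ c) (hbc : b ≠ c)
    (hright : θ c = Real.pi / 2) (j0 : Fin 3)
    (h0 : ang T j0 = 2 * θ b) (h1 : ang T (j0 + 1) = θ a) (h2 : ang T (j0 + 2) = θ a) : False := by
  have hsum' : θ a + θ b + θ c = Real.pi := by
    rw [← ri_sum_abc a b c hab hac hbc θ, Fin.sum_univ_three]
    exact hsum
  have hβ : θ b = Real.pi / 2 - θ a := by linarith
  -- a tile
  have hNpos : 0 < N := by omega
  set i0 : Fin N := ⟨0, hNpos⟩ with hi0
  have hpos : ∀ k, 0 < ℓ k := by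
    intro k
    have := len_pos (t i0) (h.ccwt i0) ((τ i0).symm k)
    rwa [hlen, Equiv.apply_symm_apply] at this
  have hsl : ∀ k l, ℓ k * Real.sin (θ l) = ℓ l * Real.sin (θ k) := by
    intro k l
    have := sine_law (t i0) (h.ccwt i0) ((τ i0).symm k) ((τ i0).symm l)
    rwa [hlen, hlen, hang, hang, Equiv.apply_symm_apply, Equiv.apply_symm_apply] at this
  have hα0 : 0 < θ a := by
    have := ang_pos T h.ccwT (j0 + 1)
    rwa [h1] at this
  have hαπ : θ a < Real.pi := by
    have := ang_lt_pi T h.ccwT (j0 + 1)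
    rwa [h1] at this
  have hsα : 0 < Real.sin (θ a) := Real.sin_pos_of_pos_of_lt_pi hα0 hαπ
  have hA : ℓ a = ℓ c * Real.sin (θ a) := by
    have := hsl a c
    rwa [hright, Real.sin_pi_div_two, mul_one] at this
  have hB : ℓ b = ℓ c * Real.cos (θ a) := by
    have := hsl b c
    rwa [hright, Real.sin_pi_div_two, mul_one, hβ, Real.sin_pi_div_two_sub] at this
  have hC := hpos c
  have hApos := hpos a
  have hBpos := hpos b
  -- sides of T
  set S := len T (j0 + 1) with hS
  have hS' : len T (j0 + 2) = S := by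
    have := sine_law T h.ccwT (j0 + 1) (j0 + 2)
    rw [h1, h2] at this
    exact (mul_right_cancel₀ hsα.ne' this).symm
  have hSpos : 0 < S := len_pos T h.ccwT _
  have hsin2 : Real.sin (2 * θ b) = 2 * Real.sin (θ a) * Real.cos (θ a) := by
    rw [hβ, show 2 * (Real.pi / 2 - θ a) = Real.pi - 2 * θ a by ring, Real.sin_pi_sub,
      Real.sin_two_mul]
  have hS1 : len T j0 = 2 * S * Real.cos (θ a) := by
    have := sine_law T h.ccwT j0 (j0 + 1)
    rw [h1, h0, hsin2] at this
    have h3 : (len T j0 - 2 * S * Real.cos (θ a)) * Real.sin (θ a) = 0 := by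
      rw [sub_mul, this, ← hS]; ring
    rcases mul_eq_zero.1 h3 with h4 | h4
    · linarith
    · exact absurd h4 hsα.ne'
  -- area
  have hareaT : dd T = S * S * Real.sin (2 * θ b) := by
    rw [dd_eq T h.ccwT j0, hS', h0]
  have hareat : ∀ i, dd (t i) = ℓ a * ℓ b := by
    intro i
    set m := (τ i).symm c with hm
    have hmc : τ i m = c := by rw [hm, Equiv.apply_symm_apply]
    have h3 := dd_eq (t i) (h.ccwt i) m
    rw [hang, hmc, hright, Real.sin_pi_div_two, mul_one, hlen, hlen] at h3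
    have hm1 : τ i (m + 1) ≠ c := by
      rw [← hmc]
      intro hh
      have := (τ i).injective hh
      omega
    have hm2 : τ i (m + 2) ≠ c := by
      rw [← hmc]
      intro hh
      have := (τ i).injective hh
      omega
    have hm12 : τ i (m + 1) ≠ τ i (m + 2) := by
      intro hh
      have := (τ i).injective hh
      omega
    rcases ri_cases a b c hab hac hbc (τ i (m + 1)) with g1 | g1 | g1 <;>
      rcases ri_cases a b c hab hac hbc (τ i (m + 2)) with g2 | g2 | g2
    · exact absurd (g1.trans g2.symm) hm12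
    · rw [h3, g1, g2]
    · exact absurd g2 hm2
    · rw [h3, g1, g2, mul_comm]
    · exact absurd (g1.trans g2.symm) hm12
    · exact absurd g2 hm2
    · exact absurd g1 hm1
    · exact absurd g1 hm1
    · exact absurd g1 hm1
  have harea : (N : ℝ) * (ℓ a * ℓ b) = S * S * Real.sin (2 * θ b) := by
    rw [← hareaT, ← area_sum h, Finset.sum_congr rfl (fun i _ => hareat i)]
    simp
  set R : ℝ := 2 * S / ℓ c with hR
  have hR2 : R ^ 2 = 2 * N := by
    have h3 : (ℓ c * ℓ c) * (Real.sin (θ a) * Real.cos (θ a)) * N =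
        2 * S * S * (Real.sin (θ a) * Real.cos (θ a)) := by
      have := harea
      rw [hsin2] at this
      calc _ = (N : ℝ) * ((ℓ c * Real.sin (θ a)) * (ℓ c * Real.cos (θ a))) := by ring
        _ = (N : ℝ) * (ℓ a * ℓ b) := by rw [← hA, ← hB]
        _ = _ := by rw [this]; ring
    have hsc : Real.sin (θ a) * Real.cos (θ a) ≠ 0 := by
      intro h4
      have h5 : ℓ a * ℓ b = 0 := by
        rw [hA, hB]
        calc _ = ℓ c * ℓ c * (Real.sin (θ a) * Real.cos (θ a)) := by ring
          _ = 0 := by rw [h4, mul_zero]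
      exact (mul_pos hApos hBpos).ne' h5
    have h6 : (ℓ c * ℓ c) * N = 2 * S * S := by
      apply mul_right_cancel₀ hsc
      linarith
    rw [hR]
    field_simp
    linarith
  obtain ⟨u, u1, w1, hp1, hp2, he⟩ := ri_key h τ ℓ θ hlen hang hsum hirr a b c hab hac hbc hright j0
    h1 h2 1 (by norm_num)
  obtain ⟨v, v1, x1, hq1, hq2, he'⟩ := ri_key h τ ℓ θ hlen hang hsum hirr a b c hab hac hbc hright j0
    h1 h2 (-1) (by norm_num)
  have hRC : R * ℓ c = 2 * S := by rw [hR]; field_simp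
  have hRB : R * ℓ b = 2 * S * Real.cos (θ a) := by
    rw [hB, ← hRC]; ring
  have e1 : (R + u) * (ℓ c - ℓ b) = ℓ a * w1 := by
    rw [hS', hS1, ← hRB] at he
    have h7 : R * ℓ b - 1 * S - 1 * S = R * ℓ b - R * ℓ c := by rw [hRC]; ring
    rw [← hS, h7] at he
    linear_combination he
  have e2 : (R - v) * (ℓ c + ℓ b) = ℓ a * x1 := by
    rw [hS', hS1, ← hRB] at he'
    have h7 : R * ℓ b - -1 * S - -1 * S = R * ℓ b + R * ℓ c := by rw [hRC]; ring
    rw [← hS, h7] at he'
    linear_combination (-1) * he'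
  have hpyth : (ℓ c - ℓ b) * (ℓ c + ℓ b) = ℓ a * ℓ a := by
    rw [hA, hB]
    have := Real.sin_sq_add_cos_sq (θ a)
    linear_combination (-(ℓ c) ^ 2) * this
  have e3 : (R + u) * (R - v) = w1 * x1 := by
    have h8 : ((R + u) * (R - v)) * (ℓ a * ℓ a) = (w1 * x1 : ℝ) * (ℓ a * ℓ a) := by
      calc _ = ((R + u) * (ℓ c - ℓ b)) * ((R - v) * (ℓ c + ℓ b)) := by rw [← hpyth]; ring
        _ = _ := by rw [e1, e2]; ring
    exact mul_right_cancel₀ (mul_pos hApos hApos).ne' h8
  have hirrR : Irrational R := by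
    apply irrational_nrt_of_notint_nrt 2 (2 * N : ℤ) (by rw [hR2]; push_cast; ring) _ (by norm_num)
    rintro ⟨y, hy⟩
    rw [hy] at hR2
    have h9 : y ^ 2 = 2 * (N : ℤ) := by exact_mod_cast hR2
    have h10 : y ^ 2 % 4 = 2 := by omega
    have h11 : y ^ 2 % 4 = 0 ∨ y ^ 2 % 4 = 1 := by
      rcases Int.even_or_odd' y with ⟨k, hk | hk⟩
      · left; rw [hk]; ring_nf; omega
      · right; rw [hk]; ring_nf; omega
    omega
  have huv : u = v := by
    by_contra hne
    have hne' : ((u : ℝ) - v) ≠ 0 := by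
      intro hh
      apply hne
      have : (u : ℝ) = v := by linarith
      exact_mod_cast this
    apply hirrR
    refine ⟨((w1 * x1 + u * v - 2 * N : ℤ) : ℚ) / ((u - v : ℤ) : ℚ), ?_⟩
    push_cast
    rw [div_eq_iff hne']
    linear_combination (-1) * e3 + hR2
  subst huv
  have e4 : 2 * (N : ℤ) - u ^ 2 = w1 * x1 := by
    have h12 : (2 * (N : ℝ) - (u : ℝ) ^ 2) = w1 * x1 := by
      linear_combination e3 - hR2
    exact_mod_cast h12
  rcases Int.even_or_odd' u with ⟨k, hk | hk⟩
  · -- u even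
    have g1 : w1 % 2 = 1 := by omega
    have g2 : x1 % 2 = 1 := by omega
    have g3 : (w1 * x1) % 2 = 1 := by rw [Int.mul_emod, g1, g2]; norm_num
    rw [← e4, hk] at g3
    ring_nf at g3
    omega
  · have g1 : w1 % 2 = 0 := by omega
    have g3 : (w1 * x1) % 2 = 0 := by rw [Int.mul_emod, g1]; simp
    rw [← e4, hk] at g3
    ring_nf at g3
    omega

end Pool.Agent.Helper549.Tri.RightIso
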