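import Mathlib
import Pool.Agent.Helper549.Tri.Defs
import Pool.Agent.Helper549.Tri.Basic
import Pool.Agent.Helper549.Tri.Angles
set_option autoImplicit false
noncomputable section
open scoped BigOperators
open MeasureTheory

namespace Pool.Agent.Helper549.Tri.Setup
open Pool.Agent.Helper549.Tri.Basic Pool.Agent.Helper549.Tri.Angles

theorem mem_hull3 {E : Type*} [AddCommGroup E] [Module ℝ E] (v : Fin 3 → E) (x : E)
    (hx : x ∈ convexHull ℝ (Set.range v)) :
    ∃ w : Fin 3 → ℝ, (∀ i, 0 ≤ w i) ∧ ∑ i, w i = 1 ∧ ∑ i, w i • v i = x := by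
  have hsub : convexHull ℝ (Set.range v) ⊆
      (Fintype.linearCombination ℝ v) '' (stdSimplex ℝ (Fin 3)) := by
    apply convexHull_min
    · rintro _ ⟨i, rfl⟩
      refine ⟨Pi.single i 1, single_mem_stdSimplex ℝ i, ?_⟩
      rw [Fintype.linearCombination_apply_single, one_smul]
    · exact (convex_stdSimplex ℝ (Fin 3)).linear_image _
  obtain ⟨w, hw, hwx⟩ := hsub hx
  refine ⟨w, hw.1, hw.2, ?_⟩
  rw [← hwx, Fintype.linearCombination_apply]

theorem extr3 {E : Type*} [AddCommGroup E] [Module ℝ E] (Q : Fin 3 → E)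
    (hQ : AffineIndependent ℝ Q) (i : Fin 3) :
    Q i ∈ (convexHull ℝ (Set.range Q)).extremePoints ℝ := by
  rw [mem_extremePoints_iff_left]
  refine ⟨subset_convexHull ℝ _ ⟨i, rfl⟩, ?_⟩
  intro x hx y hy hxy
  obtain ⟨w1, hw1, hw1s, rfl⟩ := mem_hull3 Q x hx
  obtain ⟨w2, hw2, hw2s, rfl⟩ := mem_hull3 Q y hy
  obtain ⟨a, b, ha, hb, hab, h⟩ := hxy
  have key := (affineIndependent_iff.1 hQ) Finset.univ
    (fun j => a * w1 j + b * w2 j - (Pi.single i (1:ℝ) : Fin 3 → ℝ) j) (by
      rw [Finset.sum_sub_distrib, Finset.sum_add_distrib, ← Finset.mul_sum, ← Finset.mul_sum,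
        hw1s, hw2s, Finset.sum_pi_single']
      simp [hab]) (by
      have e1 : ∑ j, (a * w1 j + b * w2 j - (Pi.single i (1:ℝ) : Fin 3 → ℝ) j) • Q j =
          (a • ∑ j, w1 j • Q j + b • ∑ j, w2 j • Q j) -
            ∑ j, (Pi.single i (1:ℝ) : Fin 3 → ℝ) j • Q j := by
        rw [Finset.smul_sum, Finset.smul_sum, ← Finset.sum_add_distrib, ← Finset.sum_sub_distrib]
        refine Finset.sum_congr rfl fun j _ => ?_
        rw [sub_smul, add_smul, smul_smul, smul_smul]
      rw [e1, h, Finset.sum_eq_single i]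
      · simp
      · intro j _ hj
        rw [Pi.single_eq_of_ne hj, zero_smul]
      · intro hi
        exact absurd (Finset.mem_univ i) hi)
  have hz : ∀ j, j ≠ i → w1 j = 0 := by
    intro j hj
    have h1 := key j (Finset.mem_univ j)
    rw [Pi.single_eq_of_ne hj, sub_zero] at h1
    have h2 : 0 ≤ a * w1 j := mul_nonneg ha.le (hw1 j)
    have h3 : 0 ≤ b * w2 j := mul_nonneg hb.le (hw2 j)
    have h4 : a * w1 j = 0 := by linarith
    rcases mul_eq_zero.1 h4 with h5 | h5
    · exact absurd h5 ha.ne'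
    · exact h5
  have hone : w1 i = 1 := by
    rw [← hw1s, Finset.sum_eq_single i]
    · intro j _ hj
      exact hz j hj
    · intro hi
      exact absurd (Finset.mem_univ i) hi
  rw [Finset.sum_eq_single i]
  · rw [hone, one_smul]
  · intro j _ hj
    rw [hz j hj, zero_smul]
  · intro hi
    exact absurd (Finset.mem_univ i) hi

theorem angle_of_dist {V P V' P' : Type*} [NormedAddCommGroup V] [InnerProductSpace ℝ V]
    [MetricSpace P] [NormedAddTorsor V P] [NormedAddCommGroup V'] [InnerProductSpace ℝ V']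
    [MetricSpace P'] [NormedAddTorsor V' P'] (a b c : P) (a' b' c' : P')
    (h1 : dist a b = dist a' b') (h2 : dist c b = dist c' b') (h3 : dist a c = dist a' c') :
    EuclideanGeometry.angle a b c = EuclideanGeometry.angle a' b' c' := by
  unfold EuclideanGeometry.angle InnerProductGeometry.angle
  congr 1
  rw [real_inner_eq_norm_mul_self_add_norm_mul_self_sub_norm_sub_mul_self_div_two,
    real_inner_eq_norm_mul_self_add_norm_mul_self_sub_norm_sub_mul_self_div_two,
    vsub_sub_vsub_cancel_right, vsub_sub_vsub_cancel_right, ← dist_eq_norm_vsub V,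
    ← dist_eq_norm_vsub V, ← dist_eq_norm_vsub V, ← dist_eq_norm_vsub V',
    ← dist_eq_norm_vsub V', ← dist_eq_norm_vsub V', h1, h2, h3]

theorem perm3 (τ : Equiv.Perm (Fin 3)) (m : Fin 3) :
    (τ (m + 1) = τ m + 1 ∧ τ (m + 2) = τ m + 2) ∨
      (τ (m + 1) = τ m + 2 ∧ τ (m + 2) = τ m + 1) := by
  revert τ m
  decide

theorem dd_ne (v : Fin 3 → ℂ) (hv : AffineIndependent ℝ v) : dd v ≠ 0 := by
  intro h0
  have key : ∀ a b : ℝ, (a : ℝ) • (v 1 - v 0) + b • (v 2 - v 0) = 0 → a = 0 ∧ b = 0 := by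
    intro a b hab
    have := (affineIndependent_iff.1 hv) Finset.univ ![-(a + b), a, b] (by
      simp [Fin.sum_univ_three]) (by
      rw [Fin.sum_univ_three]
      simp only [Matrix.cons_val_zero, Matrix.cons_val_one, Matrix.cons_val]
      rw [← hab]
      module)
    exact ⟨by simpa using this 1 (Finset.mem_univ _), by simpa using this 2 (Finset.mem_univ _)⟩
  unfold dd cr at h0
  have k1 := key ((v 2 - v 0).re) (-(v 1 - v 0).re) (by
    apply Complex.ext
    · simp only [Complex.add_re, Complex.smul_re, smul_eq_mul, Complex.zero_re]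
      ring
    · simp only [Complex.add_im, Complex.smul_im, smul_eq_mul, Complex.zero_im]
      linarith)
  have k2 := key ((v 2 - v 0).im) (-(v 1 - v 0).im) (by
    apply Complex.ext
    · simp only [Complex.add_re, Complex.smul_re, smul_eq_mul, Complex.zero_re]
      linarith
    · simp only [Complex.add_im, Complex.smul_im, smul_eq_mul, Complex.zero_im]
      ring)
  have k3 := key 1 0 (by
    apply Complex.ext
    · simp only [Complex.add_re, Complex.smul_re, smul_eq_mul, Complex.zero_re]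
      linarith [k1.2]
    · simp only [Complex.add_im, Complex.smul_im, smul_eq_mul, Complex.zero_im]
      linarith [k2.2])
  exact one_ne_zero k3.1

/-- the identification of the plane with `ℂ` -/
def eC : EuclideanSpace ℝ (Fin 2) ≃ₗᵢ[ℝ] ℂ := Complex.orthonormalBasisOneI.repr.symm

theorem orient (V : Fin 3 → EuclideanSpace ℝ (Fin 2)) (hV : AffineIndependent ℝ V) :
    ∃ ρ : Equiv.Perm (Fin 3), 0 < dd (fun k => eC (V (ρ k))) := by
  have h1 : AffineIndependent ℝ (fun k => eC (V k)) :=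
    hV.map' eC.toLinearEquiv.toLinearMap.toAffineMap eC.injective
  have h2 := dd_ne _ h1
  rcases lt_or_gt_of_ne h2 with h | h
  · refine ⟨Equiv.swap 1 2, ?_⟩
    have e1 : dd (fun k => eC (V (Equiv.swap 1 2 k))) = - dd (fun k => eC (V k)) := by
      have s0 : (Equiv.swap (1 : Fin 3) 2) 0 = 0 := by decide
      have s1 : (Equiv.swap (1 : Fin 3) 2) 1 = 2 := by decide
      have s2 : (Equiv.swap (1 : Fin 3) 2) 2 = 1 := by decide
      unfold dd cr
      simp only [s0, s1, s2]
      ring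
    rw [e1]
    linarith
  · exact ⟨1, h⟩

theorem hull_img (V : Fin 3 → EuclideanSpace ℝ (Fin 2)) (ρ : Equiv.Perm (Fin 3)) :
    hull (fun k => eC (V (ρ k))) = eC '' convexHull ℝ (Set.range V) := by
  have h1 : Set.range (fun k => eC (V (ρ k))) = eC '' Set.range V := by
    ext z
    constructor
    · rintro ⟨k, rfl⟩
      exact ⟨V (ρ k), ⟨ρ k, rfl⟩, rfl⟩
    · rintro ⟨_, ⟨k, rfl⟩, rfl⟩
      refine ⟨ρ.symm k, ?_⟩
      simp
  unfold hull
  rw [h1]
  exact (eC.toLinearEquiv.toLinearMap.image_convexHull (Set.range V)).symm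

/-- TARGET 1 -/
theorem cong_perm (Q R : Fin 3 → EuclideanSpace ℝ (Fin 2)) (hQ : AffineIndependent ℝ Q)
    (hR : AffineIndependent ℝ R)
    (f : EuclideanSpace ℝ (Fin 2) ≃ᵢ EuclideanSpace ℝ (Fin 2))
    (hf : f '' convexHull ℝ (Set.range Q) = convexHull ℝ (Set.range R)) :
    ∃ σ : Equiv.Perm (Fin 3), ∀ k l, dist (R k) (R l) = dist (Q (σ k)) (Q (σ l)) := by
  have hg : ∀ x, f.toRealAffineIsometryEquiv x = f x := fun x => rfl
  have hAI : AffineIndependent ℝ (fun k => f (Q k)) :=
    hQ.map' f.toRealAffineIsometryEquiv.toAffineEquiv.toAffineMap f.injective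
  have himg : f '' convexHull ℝ (Set.range Q) = convexHull ℝ (Set.range (fun k => f (Q k))) := by
    have h1 := f.toRealAffineIsometryEquiv.toAffineEquiv.toAffineMap.image_convexHull
      (Set.range Q)
    have h2 : Set.range (fun k => f (Q k)) = f '' Set.range Q := by
      rw [← Set.range_comp]
      rfl
    rw [h2]
    exact h1
  have hsub : ∀ k, ∃ j, f (Q j) = R k := by
    intro k
    have h1 := extr3 R hR k
    rw [← hf, himg] at h1
    have h2 : R k ∈ Set.range (fun k => f (Q k)) := extremePoints_convexHull_subset h1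
    exact h2
  choose s hs using hsub
  have hinj : Function.Injective s := by
    intro k l hkl
    apply hR.injective
    rw [← hs k, ← hs l, hkl]
  refine ⟨Equiv.ofBijective s (Finite.injective_iff_bijective.1 hinj), ?_⟩
  intro k l
  show dist (R k) (R l) = dist (Q (s k)) (Q (s l))
  rw [← hs k, ← hs l, f.dist_eq]

/-- TARGET 2 -/
theorem setup {N : ℕ} [NeZero N] (A : Fin 3 → EuclideanSpace ℝ (Fin 2))
    (P : Fin N → Fin 3 → EuclideanSpace ℝ (Fin 2)) (hA : AffineIndependent ℝ A)
    (hP : ∀ i, AffineIndependent ℝ (P i))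
    (hdist : ∀ i, ∃ σ : Equiv.Perm (Fin 3), ∀ k l,
      dist (P i k) (P i l) = dist (P 0 (σ k)) (P 0 (σ l)))
    (hU : (⋃ i, convexHull ℝ (Set.range (P i))) = convexHull ℝ (Set.range A))
    (hD : ∀ i j, i ≠ j → Disjoint (interior (convexHull ℝ (Set.range (P i))))
          (interior (convexHull ℝ (Set.range (P j))))) :
    ∃ (T : Fin 3 → ℂ) (t : Fin N → Fin 3 → ℂ) (τ : Fin N → Equiv.Perm (Fin 3)) (ℓ θ : Fin 3 → ℝ)
      (ρ : Equiv.Perm (Fin 3)),
      Dis N T t ∧ (∀ i m, len (t i) m = ℓ (τ i m)) ∧ (∀ i m, ang (t i) m = θ (τ i m)) ∧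
      (∀ k, len T k = dist (A (ρ (k + 1))) (A (ρ (k + 2)))) := by
  obtain ⟨ρ, hρ⟩ := orient A hA
  choose r hr using fun i => orient (P i) (hP i)
  choose σ hσ using hdist
  have hd : ∀ i a b, dist (eC (P i (r i a))) (eC (P i (r i b))) =
      dist (P 0 (σ i (r i a))) (P 0 (σ i (r i b))) := by
    intro i a b
    rw [eC.dist_map, hσ]
  refine ⟨fun k => eC (A (ρ k)), fun i k => eC (P i (r i k)), fun i => (r i).trans (σ i),
    fun k => dist (P 0 (k + 1)) (P 0 (k + 2)),
    fun k => EuclideanGeometry.angle (P 0 (k + 1)) (P 0 k) (P 0 (k + 2)), ρ, ?_, ?_, ?_, ?_⟩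
  · refine ⟨hρ, hr, ?_, ?_⟩
    · rw [hull_img A ρ, ← hU, Set.image_iUnion]
      refine Set.iUnion_congr fun i => ?_
      exact hull_img (P i) (r i)
    · intro i j hij
      rw [hull_img (P i) (r i), hull_img (P j) (r j)]
      have h1 : ∀ S : Set (EuclideanSpace ℝ (Fin 2)), interior (eC '' S) = eC '' interior S :=
        fun S => (eC.toHomeomorph.image_interior S).symm
      rw [h1, h1]
      exact (Set.disjoint_image_iff eC.injective).2 (hD i j hij)
  · intro i m
    show ‖eC (P i (r i (m + 2))) - eC (P i (r i (m + 1)))‖ = _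
    rw [← dist_eq_norm, hd]
    show dist (P 0 (((r i).trans (σ i)) (m + 2))) (P 0 (((r i).trans (σ i)) (m + 1))) =
      dist (P 0 (((r i).trans (σ i)) m + 1)) (P 0 (((r i).trans (σ i)) m + 2))
    rcases perm3 ((r i).trans (σ i)) m with ⟨h1, h2⟩ | ⟨h1, h2⟩
    · rw [h1, h2, dist_comm]
    · rw [h1, h2]
  · intro i m
    show EuclideanGeometry.angle (eC (P i (r i (m + 1)))) (eC (P i (r i m)))
      (eC (P i (r i (m + 2)))) = EuclideanGeometry.angle (P 0 (((r i).trans (σ i)) m + 1))
        (P 0 (((r i).trans (σ i)) m)) (P 0 (((r i).trans (σ i)) m + 2))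
    rw [angle_of_dist _ _ _ (P 0 (((r i).trans (σ i)) (m + 1)))
        (P 0 (((r i).trans (σ i)) m)) (P 0 (((r i).trans (σ i)) (m + 2))) (hd i _ _)
        (hd i _ _) (hd i _ _)]
    rcases perm3 ((r i).trans (σ i)) m with ⟨h1, h2⟩ | ⟨h1, h2⟩
    · rw [h1, h2]
    · rw [h1, h2, EuclideanGeometry.angle_comm]
  · intro k
    show ‖eC (A (ρ (k + 2))) - eC (A (ρ (k + 1)))‖ = _
    rw [← dist_eq_norm, eC.dist_map, dist_comm]

end Pool.Agent.Helper549.Tri.Setup
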