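import Mathlib
import Pool.Agent.Helper549.Tri.Defs
import Pool.Agent.Helper549.Tri.DataDef
import Pool.Agent.Helper549.Tri.DataDis
import Pool.Agent.Helper549.Tri.ClassDis
import Pool.Agent.Helper549.Tri.RatFalse
import Pool.Agent.Helper549.Tri.RightIso
import Pool.Agent.Helper549.Tri.Setup
import Pool.Agent.Helper549.Tri.Final0
set_option autoImplicit false
open scoped BigOperators

namespace Pool.Agent.Helper549.Tri

/-- no dissection of a triangle into 19 triangles with the same sides and angles -/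
theorem no_dis19 {T : Fin 3 → ℂ} {t : Fin 19 → Fin 3 → ℂ} (h : Dis 19 T t)
    (τ : Fin 19 → Equiv.Perm (Fin 3)) (ℓ θ : Fin 3 → ℝ) (hlen : ∀ i m, len (t i) m = ℓ (τ i m))
    (hang : ∀ i m, ang (t i) m = θ (τ i m)) : False := by
  by_cases hrat : ∀ k, ∃ q : ℚ, θ k = q * Real.pi
  · exact RatFalse.rational_false (by norm_num) (by norm_num) h τ ℓ θ hlen hang hrat
  · have hD := DataDis.data_of_dis (by norm_num) h τ ℓ θ hlen hang hrat
    obtain ⟨σ, P, hP, hc⟩ := ClassDis.class_of_dis (by norm_num) h τ θ hang hrat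
    obtain ⟨a, b, c, hab, hac, hbc, hr, j0, h0, h1, h2⟩ := Final0.data_final hD σ P hP hc
    exact RightIso.right_isosceles_impossible (by norm_num) h τ ℓ θ hlen hang hD.tsum hrat
      a b c hab hac hbc hr j0 h0 h1 h2

end Pool.Agent.Helper549.Tri
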