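import Mathlib
import Pool.Agent.Helper549.Tri.Defs
import Pool.Agent.Helper549.Tri.DataDef
import Pool.Agent.Helper549.Tri.Angles
import Pool.Agent.Helper549.Tri.DataDis
import Pool.Agent.Helper549.Tri.ClassDis
import Pool.Agent.Helper549.Tri.RatFalse
import Pool.Agent.Helper549.Tri.Setup
import Pool.Agent.Helper549.Tri.EqFinal
set_option autoImplicit false
open scoped BigOperators

namespace Pool.Agent.Helper549.Tri

theorem sin_eq_imp {x y z : ℝ} (hx : 0 < x) (hy : 0 < y) (hz : 0 < z) (hs : x + y + z = Real.pi)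
    (h : Real.sin x = Real.sin y) : x = y := by
  have h0 : Real.sin x - Real.sin y = 0 := by rw [h]; ring
  rw [Real.sin_sub_sin] at h0
  have hc : 0 < Real.cos ((x + y) / 2) := by
    apply Real.cos_pos_of_mem_Ioo
    constructor <;> linarith [Real.pi_pos]
  have hs2 : Real.sin ((x - y) / 2) = 0 := by
    rcases mul_eq_zero.mp h0 with h1 | h1
    · linarith [h1]
    · exact absurd h1 hc.ne'
  have h3 : (x - y) / 2 = 0 := by
    have hpi := Real.pi_pos
    exact (Real.sin_eq_zero_iff_of_lt_of_lt (by linarith) (by linarith)).mp hs2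
  linarith

/-- angles of an equilateral triangle -/
theorem ang_equilateral (v : Fin 3 → ℂ) (hv : 0 < dd v) (h01 : len v 0 = len v 1)
    (h12 : len v 1 = len v 2) : ∀ j, ang v j = Real.pi / 3 := by
  have hp := Angles.ang_pos v hv
  have hs := Angles.ang_sum v hv
  have e01 := Angles.sine_law v hv 0 1
  have e12 := Angles.sine_law v hv 1 2
  have hl0 : 0 < len v 0 := Basic.len_pos v hv 0
  have hl1 : 0 < len v 1 := Basic.len_pos v hv 1
  rw [← h01] at e01
  rw [← h12] at e12
  have s01 : Real.sin (ang v 1) = Real.sin (ang v 0) := mul_left_cancel₀ hl0.ne' e01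
  have s12 : Real.sin (ang v 2) = Real.sin (ang v 1) := mul_left_cancel₀ hl1.ne' e12
  have a01 : ang v 1 = ang v 0 := sin_eq_imp (hp 1) (hp 0) (hp 2) (by linarith) s01
  have a12 : ang v 2 = ang v 1 := sin_eq_imp (hp 2) (hp 1) (hp 0) (by linarith) s12
  intro j
  fin_cases j
  · show ang v 0 = _
    linarith
  · show ang v 1 = _
    linarith
  · show ang v 2 = _
    linarith

/-- no dissection of an equilateral triangle into a prime number >= 17 of congruent triangles -/
theorem no_dis_eq {N : ℕ} (hN : N.Prime) (h17 : 17 ≤ N) {T : Fin 3 → ℂ} {t : Fin N → Fin 3 → ℂ}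
    (h : Dis N T t) (h01 : len T 0 = len T 1) (h12 : len T 1 = len T 2)
    (τ : Fin N → Equiv.Perm (Fin 3)) (ℓ θ : Fin 3 → ℝ) (hlen : ∀ i m, len (t i) m = ℓ (τ i m))
    (hang : ∀ i m, ang (t i) m = θ (τ i m)) : False := by
  by_cases hrat : ∀ k, ∃ q : ℚ, θ k = q * Real.pi
  · exact RatFalse.rational_false hN h17 h τ ℓ θ hlen hang hrat
  · have hD := DataDis.data_of_dis (by omega) h τ ℓ θ hlen hang hrat
    obtain ⟨σ, P, hP, hc⟩ := ClassDis.class_of_dis (by omega) h τ θ hang hrat
    exact EqFinal.equilateral_final hN (by omega) hD (ang_equilateral T h.ccwT h01 h12) σ P hP hc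

/-- an equilateral triple with distinct first two points is affinely independent -/
theorem affineIndependent_of_equilateral (a : Fin 3 → EuclideanSpace ℝ (Fin 2)) (h : a 0 ≠ a 1)
    (h01 : dist (a 0) (a 1) = dist (a 1) (a 2)) (h12 : dist (a 1) (a 2) = dist (a 2) (a 0)) :
    AffineIndependent ℝ a := by
  have ha : a = ![a 0, a 1, a 2] := by
    funext i; fin_cases i <;> rfl
  rw [ha]
  rw [affineIndependent_iff_not_collinear_set]
  intro hc
  have hd : 0 < dist (a 0) (a 1) := dist_pos.mpr h
  have key : ∀ x y z : EuclideanSpace ℝ (Fin 2), 0 < dist x y → dist x y = dist y z →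
      dist y z = dist z x → ¬ Wbtw ℝ x y z := by
    intro x y z h1 h2 h3 hw
    have := hw.dist_add_dist
    rw [dist_comm z x] at h3
    linarith
  rcases hc.wbtw_or_wbtw_or_wbtw with h1 | h1 | h1
  · exact key _ _ _ hd h01 h12 h1
  · exact key _ _ _ (by linarith) h12 (by linarith) h1
  · exact key _ _ _ (by linarith) (by linarith) h01 h1

end Pool.Agent.Helper549.Tri
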