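import Mathlib
import Pool.Agent.Helper549.Tri.DataDef
set_option autoImplicit false
noncomputable section
open scoped BigOperators

namespace Pool.Agent.Helper549.Tri.ShapeE1

theorem e1_arith (m n : ℤ) (hm : 0 < m) (hn : 0 < n) (hm2 : m % 2 = 1) (hn2 : n % 2 = 1) (hmn : m * n < 19)
    (h : 32 * (19 - m * n) * (m + n) ^ 2 * (4 * (m * n) ^ 2 + 2 * (m * n) * (19 - m * n) + (19 - m * n) ^ 2) ^ 2 =
      ((8 * (19 - m * n) + (m + n) ^ 2) * (4 * (m * n) ^ 2 + 2 * (m * n) * (19 - m * n) + (19 - m * n) ^ 2)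
        - (n - m) ^ 2 * ((19 - m * n) - 2 * (m * n)) ^ 2) ^ 2) : False := by
  have h1 : m ≤ 18 := by nlinarith
  have h2 : n ≤ 18 := by nlinarith
  interval_cases m <;> first | omega | (interval_cases n <;> omega)

theorem e1_real (a b c s : ℝ) (ha : 0 < a) (hb : 0 < b) (hc : 0 < c) (hs : 0 < s) (M1 M2 : ℤ)
    (hM1 : (M1 - 19) % 2 = 0) (hM2 : (M2 - 19) % 2 = 0)
    (hcc : c ^ 2 = a ^ 2 + a * b + b ^ 2)
    (h1 : s * (2 * c - a - 2 * b) = M1 * (a - b + c))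
    (h2 : -(s * (2 * c + a + 2 * b)) = M2 * (-a + b + c))
    (hA : 19 * b = s ^ 2 * (a + 2 * b)) : False := by
  obtain ⟨n, rfl⟩ : ∃ n : ℤ, M2 = -n := ⟨-M2, by ring⟩
  have hab : 0 < a * b := mul_pos ha hb
  have hcb : b < c := by
    by_contra hcon
    push Not at hcon
    nlinarith
  have hca : a < c := by
    by_contra hcon
    push Not at hcon
    nlinarith
  have h2c : a + 2 * b < 2 * c := by
    by_contra hcon
    push Not at hcon
    nlinarith
  push_cast at h2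
  have h2' : s * (2 * c + a + 2 * b) = n * (-a + b + c) := by linarith
  have hd1 : 0 < a - b + c := by linarith
  have hd2 : 0 < -a + b + c := by linarith
  have hm0 : (0 : ℝ) < M1 := by
    by_contra hcon
    push Not at hcon
    have : 0 < s * (2 * c - a - 2 * b) := mul_pos hs (by linarith)
    nlinarith
  have hn0 : (0 : ℝ) < n := by
    by_contra hcon
    push Not at hcon
    have : 0 < s * (2 * c + a + 2 * b) := mul_pos hs (by linarith)
    nlinarith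
  have hprod : s ^ 2 * a = M1 * n * b := by
    have e : (s * (2 * c - a - 2 * b)) * (s * (2 * c + a + 2 * b)) = (M1 * (a - b + c)) * (n * (-a + b + c)) := by
      rw [h1, h2']
    have e2 : (s * (2 * c - a - 2 * b)) * (s * (2 * c + a + 2 * b)) = (s ^ 2 * a) * (3 * a) := by
      have : (s * (2 * c - a - 2 * b)) * (s * (2 * c + a + 2 * b)) = s ^ 2 * (4 * c ^ 2 - (a + 2 * b) ^ 2) := by ring
      rw [this, hcc]; ring
    have e3 : (M1 * (a - b + c)) * (n * (-a + b + c)) = (M1 * n * b) * (3 * a) := by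
      have : (M1 * (a - b + c)) * (n * (-a + b + c)) = M1 * n * (c ^ 2 - (a - b) ^ 2) := by ring
      rw [this, hcc]; ring
    rw [e2, e3] at e
    exact mul_right_cancel₀ (by positivity) e
  have hP : 19 * a = M1 * n * (a + 2 * b) := by
    have : (19 * a) * b = (M1 * n * (a + 2 * b)) * b := by
      calc (19 * a) * b = a * (19 * b) := by ring
        _ = (s ^ 2 * a) * (a + 2 * b) := by rw [hA]; ring
        _ = (M1 * n * (a + 2 * b)) * b := by rw [hprod]; ring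
    exact mul_right_cancel₀ hb.ne' this
  have hmnpos : (0 : ℝ) < M1 * n := mul_pos hm0 hn0
  have hlt : (M1 : ℝ) * n < 19 := by
    by_contra hcon
    push Not at hcon
    have h5 : 0 < (M1 : ℝ) * n * b := by positivity
    nlinarith
  set P : ℝ := (M1 : ℝ) * n with hPdef
  set r : ℝ := 19 - P with hr
  have hrb : 2 * P * b = r * a := by rw [hr]; linarith
  have hs2 : 2 * s ^ 2 = r := by
    have : (2 * s ^ 2) * a = r * a := by rw [← hrb]; linarith
    exact mul_right_cancel₀ ha.ne' this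
  have hlin : (4 * s - (M1 + n)) * c = (n - M1) * (b - a) := by linarith
  have hlin2 : (4 * s - (M1 + n)) * (2 * P * c) = (n - M1) * (r - 2 * P) * a := by
    calc (4 * s - (M1 + n)) * (2 * P * c) = 2 * P * ((4 * s - (M1 + n)) * c) := by ring
      _ = (n - M1) * (2 * P * b - 2 * P * a) := by rw [hlin]; ring
      _ = (n - M1) * (r - 2 * P) * a := by rw [hrb]; ring
  have hH : (2 * P * c) ^ 2 = a ^ 2 * (4 * P ^ 2 + 2 * P * r + r ^ 2) := by
    calc (2 * P * c) ^ 2 = 4 * P ^ 2 * c ^ 2 := by ring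
      _ = 4 * P ^ 2 * a ^ 2 + 2 * P * a * (2 * P * b) + (2 * P * b) ^ 2 := by rw [hcc]; ring
      _ = a ^ 2 * (4 * P ^ 2 + 2 * P * r + r ^ 2) := by rw [hrb]; ring
  have hsq : (4 * s - (M1 + n)) ^ 2 * (4 * P ^ 2 + 2 * P * r + r ^ 2) = (n - M1) ^ 2 * (r - 2 * P) ^ 2 := by
    have e : ((4 * s - (M1 + n)) * (2 * P * c)) ^ 2 = ((n - M1) * (r - 2 * P) * a) ^ 2 := by rw [hlin2]
    rw [mul_pow, hH] at e
    have e2 : ((4 * s - (M1 + n)) ^ 2 * (4 * P ^ 2 + 2 * P * r + r ^ 2)) * a ^ 2 =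
        ((n - M1) ^ 2 * (r - 2 * P) ^ 2) * a ^ 2 := by linarith
    exact mul_right_cancel₀ (by positivity) e2
  have hfin : 32 * r * (M1 + n) ^ 2 * (4 * P ^ 2 + 2 * P * r + r ^ 2) ^ 2 =
      ((8 * r + (M1 + n) ^ 2) * (4 * P ^ 2 + 2 * P * r + r ^ 2) - (n - M1) ^ 2 * (r - 2 * P) ^ 2) ^ 2 := by
    have e : 8 * s * (M1 + n) * (4 * P ^ 2 + 2 * P * r + r ^ 2) =
        (8 * r + (M1 + n) ^ 2) * (4 * P ^ 2 + 2 * P * r + r ^ 2) - (n - M1) ^ 2 * (r - 2 * P) ^ 2 := by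
      rw [← hsq, ← hs2]; ring
    rw [← e]
    calc 32 * r * (M1 + n) ^ 2 * (4 * P ^ 2 + 2 * P * r + r ^ 2) ^ 2
        = 32 * (2 * s ^ 2) * (M1 + n) ^ 2 * (4 * P ^ 2 + 2 * P * r + r ^ 2) ^ 2 := by rw [hs2]
      _ = (8 * s * (M1 + n) * (4 * P ^ 2 + 2 * P * r + r ^ 2)) ^ 2 := by ring
  apply e1_arith M1 n (by exact_mod_cast hm0) (by exact_mod_cast hn0) (by omega) (by omega)
    (by rw [hPdef] at hlt; exact_mod_cast hlt)
  rw [hr, hPdef] at hfin
  exact_mod_cast hfin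

/-- TARGET: this corner pattern is impossible for N = 19 -/
theorem shapeE1 {ℓ θ S A : Fin 3 → ℝ} {β : Fin 3 → Fin 3 → ℕ}
    (h : Data 19 ℓ θ S A ![![1,0,0],![1,0,0],![1,3,0]] β) : False := by
  have hA0 := h.angles 0
  have hA1 := h.angles 1
  have hA2 := h.angles 2
  simp [Fin.sum_univ_three] at hA0 hA1 hA2
  have hAs := h.Asum
  have hts := h.tsum
  rw [hA0, hA1, hA2] at hAs
  have hbe : θ 1 = Real.pi / 3 - θ 0 := by linarith
  have hga : θ 2 = Real.pi - Real.pi / 3 := by linarith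
  have hlp0 := h.lpos 0
  have hlp1 := h.lpos 1
  have hlp2 := h.lpos 2
  have ht0 := h.tpos 0
  have ht1 := h.tpos 1
  have hpi := Real.pi_pos
  have hs3 : 0 < Real.sin (Real.pi / 3) := Real.sin_pos_of_pos_of_lt_pi (by positivity) (by linarith)
  have hsg : Real.sin (θ 2) = Real.sin (Real.pi / 3) := by rw [hga, Real.sin_pi_sub]
  have hsa : 0 < Real.sin (θ 0) := Real.sin_pos_of_pos_of_lt_pi ht0 (by linarith)
  have hsb : Real.sin (θ 1) = Real.sin (Real.pi / 3) * Real.cos (θ 0) - 1 / 2 * Real.sin (θ 0) := by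
    rw [hbe, Real.sin_sub, Real.cos_pi_div_three]
  have h02 := h.sinet 0 2
  have h12 := h.sinet 1 2
  rw [hsg] at h02 h12
  -- `ℓ 0 * σ = ℓ 2 * sin θ 0`, `ℓ 1 * σ = ℓ 2 * sin θ 1`
  have hσ2 : Real.sin (Real.pi / 3) ^ 2 = 3 / 4 := by
    rw [Real.sin_pi_div_three, div_pow, Real.sq_sqrt (by norm_num)]; norm_num
  set σ := Real.sin (Real.pi / 3) with hσ
  have hcos : 2 * ℓ 2 * Real.cos (θ 0) = ℓ 0 + 2 * ℓ 1 := by
    rw [hsb] at h12
    have : (2 * ℓ 2 * Real.cos (θ 0)) * σ = (ℓ 0 + 2 * ℓ 1) * σ := by linarith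
    exact mul_right_cancel₀ hs3.ne' this
  have hcc : ℓ 2 ^ 2 = ℓ 0 ^ 2 + ℓ 0 * ℓ 1 + ℓ 1 ^ 2 := by
    have h1 := Real.sin_sq_add_cos_sq (θ 0)
    -- multiply by 4 ℓ2² σ²
    have h2 : ℓ 0 ^ 2 * σ ^ 2 = ℓ 2 ^ 2 * Real.sin (θ 0) ^ 2 := by
      have := congrArg (fun x => x ^ 2) h02
      simp only [mul_pow] at this
      exact this
    have h3 : 4 * ℓ 2 ^ 2 * Real.cos (θ 0) ^ 2 = (ℓ 0 + 2 * ℓ 1) ^ 2 := by
      rw [← hcos]; ring
    rw [hσ2] at h2
    nlinarith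
  have hS01 : S 0 = S 1 := by
    have := h.sineT 0 1
    rw [hA0, hA1] at this
    exact mul_right_cancel₀ hsa.ne' this
  have hsA2 : Real.sin (A 2) = 2 * Real.sin (θ 0) * Real.cos (θ 0) := by
    have : A 2 = Real.pi - 2 * θ 0 := by rw [hA2]; linarith
    rw [this, Real.sin_pi_sub, Real.sin_two_mul]
  have hS2 : S 2 = 2 * Real.cos (θ 0) * S 0 := by
    have := h.sineT 0 2
    rw [hA0, hsA2] at this
    have h4 : (S 2) * Real.sin (θ 0) = (2 * Real.cos (θ 0) * S 0) * Real.sin (θ 0) := by linarith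
    exact mul_right_cancel₀ hsa.ne' h4
  obtain ⟨s, hs⟩ : ∃ s, S 0 = s * ℓ 2 := ⟨S 0 / ℓ 2, by field_simp⟩
  have hspos : 0 < s := by
    have := h.Spos 0
    rw [hs] at this
    exact (pos_iff_pos_of_mul_pos this).mpr hlp2
  have hS2' : S 2 = s * (ℓ 0 + 2 * ℓ 1) := by
    rw [hS2, hs, ← hcos]; ring
  have harea := h.area
  rw [hsA2, hsg, ← hS01, hs] at harea
  have hA : 19 * ℓ 1 = s ^ 2 * (ℓ 0 + 2 * ℓ 1) := by
    have e : (19 * ℓ 1) * (ℓ 0 * σ) = (s ^ 2 * (ℓ 0 + 2 * ℓ 1)) * (ℓ 0 * σ) := by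
      have h5 : s * ℓ 2 * (s * ℓ 2) * (2 * Real.sin (θ 0) * Real.cos (θ 0)) =
          s ^ 2 * (ℓ 2 * Real.sin (θ 0)) * (2 * ℓ 2 * Real.cos (θ 0)) := by ring
      rw [h5, ← h02, hcos] at harea
      push_cast at harea
      linarith
    exact mul_right_cancel₀ (by positivity) e
  obtain ⟨M1, _, hM1, hE1, _⟩ := h.char ![1, -1, 1] (by intro k; fin_cases k <;> simp) (by simp)
    ⟨2, by simp [Fin.sum_univ_three]⟩ (by simp [Fin.prod_univ_three, Fin.sum_univ_three]; try decide)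
  obtain ⟨M2, _, hM2, hE2, _⟩ := h.char ![-1, 1, 1] (by intro k; fin_cases k <;> simp) (by simp)
    ⟨2, by simp [Fin.sum_univ_three]⟩ (by simp [Fin.prod_univ_three, Fin.sum_univ_three]; try decide)
  simp [Fin.prod_univ_three, Fin.sum_univ_three] at hE1 hE2
  refine e1_real (ℓ 0) (ℓ 1) (ℓ 2) s hlp0 hlp1 hlp2 hspos M1 M2 (by exact_mod_cast hM1) (by exact_mod_cast hM2) hcc ?_ ?_ hA
  · rw [← hS01, hS2', hs] at hE1
    linarith
  · rw [← hS01, hS2', hs] at hE2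
    linarith

end Pool.Agent.Helper549.Tri.ShapeE1
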