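import Mathlib
set_option autoImplicit false
noncomputable section

namespace Pool.Agent.Helper549.Tri

/-- the closed triangle with vertices v 0, v 1, v 2 -/
def TriSet (v : Fin 3 → EuclideanSpace ℝ (Fin 2)) : Set (EuclideanSpace ℝ (Fin 2)) :=
  convexHull ℝ (Set.range v)

/-- T can be cut into N congruent (reflections allowed) non-degenerate triangles -/
def CanCut (T : Fin 3 → EuclideanSpace ℝ (Fin 2)) (N : ℕ) : Prop :=
  ∃ P : Fin N → Fin 3 → EuclideanSpace ℝ (Fin 2),
    (∀ i, AffineIndependent ℝ (P i)) ∧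
    (∀ i j, ∃ f : EuclideanSpace ℝ (Fin 2) ≃ᵢ EuclideanSpace ℝ (Fin 2),
      f '' TriSet (P i) = TriSet (P j)) ∧
    (⋃ i, TriSet (P i)) = TriSet T ∧
    (∀ i j, i ≠ j → Disjoint (interior (TriSet (P i))) (interior (TriSet (P j))))

/-- every number of congruent triangles into which T can be cut is a perfect square -/
def SquareOnly (T : Fin 3 → EuclideanSpace ℝ (Fin 2)) : Prop :=
  ∀ N : ℕ, 1 ≤ N → CanCut T N → IsSquare N

/-- length of the side opposite to vertex i -/
noncomputable def side (T : Fin 3 → EuclideanSpace ℝ (Fin 2)) (i : Fin 3) : ℝ :=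
  dist (T (i + 1)) (T (i + 2))

/-- angle at vertex i -/
noncomputable def angle (T : Fin 3 → EuclideanSpace ℝ (Fin 2)) (i : Fin 3) : ℝ :=
  EuclideanGeometry.angle (T (i + 1)) (T i) (T (i + 2))

end Pool.Agent.Helper549.Tri
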