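import Mathlib
import Pool.Agent.Helper549.Tri.SqDefs
set_option autoImplicit false
noncomputable section
open scoped BigOperators

namespace Pool.Agent.Helper549.Tri.SqSub

theorem sbd_coord (v : Fin 3 → EuclideanSpace ℝ (Fin 2)) (hv : AffineIndependent ℝ v) :
    ∃ X Y : EuclideanSpace ℝ (Fin 2) → ℝ,
      (∀ p, p = v 0 + X p • (v 1 - v 0) + Y p • (v 2 - v 0)) ∧
      (∀ s t : ℝ, X (v 0 + s • (v 1 - v 0) + t • (v 2 - v 0)) = s ∧
        Y (v 0 + s • (v 1 - v 0) + t • (v 2 - v 0)) = t) := by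
  have h1 := (affineIndependent_iff_linearIndependent_vsub ℝ v 0).1 hv
  obtain ⟨f, hf⟩ : ∃ f : Fin 2 → {x : Fin 3 // x ≠ 0},
      f = ![⟨1, by decide⟩, ⟨2, by decide⟩] := ⟨_, rfl⟩
  have hfinj : Function.Injective f := by
    rw [hf]
    decide
  have hli := h1.comp f hfinj
  have hcard : Fintype.card (Fin 2) = Module.finrank ℝ (EuclideanSpace ℝ (Fin 2)) := by
    simp
  obtain ⟨B, hB⟩ : ∃ B : Module.Basis (Fin 2) ℝ (EuclideanSpace ℝ (Fin 2)),
      (B : Fin 2 → EuclideanSpace ℝ (Fin 2)) =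
        (fun i : {x : Fin 3 // x ≠ 0} => v i -ᵥ v 0) ∘ f :=
    ⟨basisOfLinearIndependentOfCardEqFinrank hli hcard,
      coe_basisOfLinearIndependentOfCardEqFinrank hli hcard⟩
  have hB0 : B 0 = v 1 - v 0 := by rw [hB, hf]; rfl
  have hB1 : B 1 = v 2 - v 0 := by rw [hB, hf]; rfl
  refine ⟨fun p => B.repr (p - v 0) 0, fun p => B.repr (p - v 0) 1, fun p => ?_, fun s t => ?_⟩
  · have h := B.sum_repr (p - v 0)
    rw [Fin.sum_univ_two, hB0, hB1] at h
    rw [add_assoc, h]
    abel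
  · have e : v 0 + s • (v 1 - v 0) + t • (v 2 - v 0) - v 0 = s • B 0 + t • B 1 := by
      rw [hB0, hB1]; abel
    simp only [e]
    rw [map_add, map_smul, map_smul, Module.Basis.repr_self, Module.Basis.repr_self]
    simp

section sbd

variable {v : Fin 3 → EuclideanSpace ℝ (Fin 2)} {X Y : EuclideanSpace ℝ (Fin 2) → ℝ}

theorem sbd_inj (h1 : ∀ p, p = v 0 + X p • (v 1 - v 0) + Y p • (v 2 - v 0))
    {p q : EuclideanSpace ℝ (Fin 2)} (hX : X p = X q) (hY : Y p = Y q) : p = q := by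
  rw [h1 p, h1 q, hX, hY]

theorem sbd_add (h1 : ∀ p, p = v 0 + X p • (v 1 - v 0) + Y p • (v 2 - v 0))
    (h2 : ∀ s t : ℝ, X (v 0 + s • (v 1 - v 0) + t • (v 2 - v 0)) = s ∧
        Y (v 0 + s • (v 1 - v 0) + t • (v 2 - v 0)) = t)
    (p : EuclideanSpace ℝ (Fin 2)) (s t : ℝ) :
    X (p + s • (v 1 - v 0) + t • (v 2 - v 0)) = X p + s ∧
      Y (p + s • (v 1 - v 0) + t • (v 2 - v 0)) = Y p + t := by
  have e : p + s • (v 1 - v 0) + t • (v 2 - v 0) =
      v 0 + (X p + s) • (v 1 - v 0) + (Y p + t) • (v 2 - v 0) := by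
    conv_lhs => rw [h1 p]
    module
  rw [e]
  exact h2 _ _

theorem sbd_hull (h1 : ∀ p, p = v 0 + X p • (v 1 - v 0) + Y p • (v 2 - v 0))
    (h2 : ∀ s t : ℝ, X (v 0 + s • (v 1 - v 0) + t • (v 2 - v 0)) = s ∧
        Y (v 0 + s • (v 1 - v 0) + t • (v 2 - v 0)) = t) (p : EuclideanSpace ℝ (Fin 2)) :
    p ∈ TriSet v ↔ 0 ≤ X p ∧ 0 ≤ Y p ∧ X p + Y p ≤ 1 := by
  constructor
  · have hcomb : ∀ (p q : EuclideanSpace ℝ (Fin 2)) (a b : ℝ), a + b = 1 →
        X (a • p + b • q) = a * X p + b * X q ∧ Y (a • p + b • q) = a * Y p + b * Y q := by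
      intro p q a b hab
      have e : a • p + b • q = v 0 + (a * X p + b * X q) • (v 1 - v 0) +
          (a * Y p + b * Y q) • (v 2 - v 0) := by
        have hb : b = 1 - a := by linarith
        conv_lhs => rw [h1 p, h1 q]
        rw [hb]
        module
      rw [e]
      exact h2 _ _
    have hconv : Convex ℝ {p | 0 ≤ X p ∧ 0 ≤ Y p ∧ X p + Y p ≤ 1} := by
      rintro p ⟨p1, p2, p3⟩ q ⟨q1, q2, q3⟩ a b ha hb hab
      obtain ⟨e1, e2⟩ := hcomb p q a b hab
      refine ⟨?_, ?_, ?_⟩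
      · rw [e1]; positivity
      · rw [e2]; positivity
      · rw [e1, e2]
        have : a * (X p + Y p) + b * (X q + Y q) ≤ a * 1 + b * 1 := by gcongr
        linarith
    intro hp
    refine convexHull_min (t := {p | 0 ≤ X p ∧ 0 ≤ Y p ∧ X p + Y p ≤ 1}) ?_ hconv hp
    rintro _ ⟨k, rfl⟩
    have e0 := h2 0 0
    have e1 := h2 1 0
    have e2 := h2 0 1
    rw [zero_smul, zero_smul, add_zero, add_zero] at e0
    rw [zero_smul, one_smul, add_zero, add_sub_cancel] at e1
    rw [zero_smul, one_smul, add_zero, add_sub_cancel] at e2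
    fin_cases k
    · change 0 ≤ X (v 0) ∧ 0 ≤ Y (v 0) ∧ X (v 0) + Y (v 0) ≤ 1
      rw [e0.1, e0.2]; norm_num
    · change 0 ≤ X (v 1) ∧ 0 ≤ Y (v 1) ∧ X (v 1) + Y (v 1) ≤ 1
      rw [e1.1, e1.2]; norm_num
    · change 0 ≤ X (v 2) ∧ 0 ≤ Y (v 2) ∧ X (v 2) + Y (v 2) ≤ 1
      rw [e2.1, e2.2]; norm_num
  · rintro ⟨p1, p2, p3⟩
    have h := (convex_convexHull ℝ (Set.range v)).sum_mem (t := Finset.univ)
      (w := ![1 - X p - Y p, X p, Y p]) (z := v) (by
        intro i _
        fin_cases i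
        · change 0 ≤ 1 - X p - Y p; linarith
        · exact p1
        · exact p2) (by
        rw [Fin.sum_univ_three]
        change 1 - X p - Y p + X p + Y p = 1
        ring) (fun i _ => subset_convexHull ℝ _ (Set.mem_range_self i))
    rw [Fin.sum_univ_three] at h
    change (1 - X p - Y p) • v 0 + X p • v 1 + Y p • v 2 ∈ convexHull ℝ (Set.range v) at h
    have e : (1 - X p - Y p) • v 0 + X p • v 1 + Y p • v 2 = p := by
      conv_rhs => rw [h1 p]
      module
    rw [e] at h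
    exact h

/-- small triangle -/
noncomputable def sbdP (v : Fin 3 → EuclideanSpace ℝ (Fin 2)) (m c1 c2 r : ℝ) (k : Fin 3) :
    EuclideanSpace ℝ (Fin 2) :=
  (r / m) • v k + (v 0 + (c1 / m) • (v 1 - v 0) + (c2 / m) • (v 2 - v 0) - (r / m) • v 0)

theorem sbd_P_aff (hv : AffineIndependent ℝ v) {m c1 c2 r : ℝ} (hm : m ≠ 0) (hr : r ≠ 0) :
    AffineIndependent ℝ (sbdP v m c1 c2 r) ∧
    TriSet (sbdP v m c1 c2 r) = (fun p => (r / m) • p +
      (v 0 + (c1 / m) • (v 1 - v 0) + (c2 / m) • (v 2 - v 0) - (r / m) • v 0)) '' TriSet v := by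
  obtain ⟨w, hw⟩ : ∃ w, w = v 0 + (c1 / m) • (v 1 - v 0) + (c2 / m) • (v 2 - v 0) -
    (r / m) • v 0 := ⟨_, rfl⟩
  obtain ⟨f, hf⟩ : ∃ f : EuclideanSpace ℝ (Fin 2) →ᵃ[ℝ] EuclideanSpace ℝ (Fin 2),
      f = ((r / m) • (LinearMap.id : EuclideanSpace ℝ (Fin 2) →ₗ[ℝ]
        EuclideanSpace ℝ (Fin 2))).toAffineMap + AffineMap.const ℝ _ w := ⟨_, rfl⟩
  have hfx : ∀ p, f p = (r / m) • p + w := by
    intro p
    rw [hf]
    simp
  have hP : sbdP v m c1 c2 r = f ∘ v := by
    funext k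
    rw [Function.comp_apply, hfx, hw]
    rfl
  have hrm : r / m ≠ 0 := div_ne_zero hr hm
  have hinj : Function.Injective f := by
    intro p q hpq
    rw [hfx, hfx] at hpq
    exact smul_right_injective _ hrm (add_right_cancel hpq)
  constructor
  · rw [hP]
    exact hv.map' f hinj
  · rw [hP, TriSet, Set.range_comp, ← AffineMap.image_convexHull, ← hw]
    have : (f : EuclideanSpace ℝ (Fin 2) → EuclideanSpace ℝ (Fin 2)) =
        fun p => (r / m) • p + w := funext hfx
    rw [this]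
    rfl

theorem sbd_P_mem (hv : AffineIndependent ℝ v)
    (h1 : ∀ p, p = v 0 + X p • (v 1 - v 0) + Y p • (v 2 - v 0))
    (h2 : ∀ s t : ℝ, X (v 0 + s • (v 1 - v 0) + t • (v 2 - v 0)) = s ∧
        Y (v 0 + s • (v 1 - v 0) + t • (v 2 - v 0)) = t) {m c1 c2 r : ℝ} (hm : 0 < m)
    (hr : r * r = 1) (q : EuclideanSpace ℝ (Fin 2)) :
    q ∈ TriSet (sbdP v m c1 c2 r) ↔ 0 ≤ r * (m * X q - c1) ∧ 0 ≤ r * (m * Y q - c2) ∧
      r * (m * X q - c1) + r * (m * Y q - c2) ≤ 1 := by
  have hr0 : r ≠ 0 := by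
    rintro rfl
    norm_num at hr
  rw [(sbd_P_aff hv hm.ne' hr0).2]
  have hXY : ∀ p, X ((r / m) • p +
      (v 0 + (c1 / m) • (v 1 - v 0) + (c2 / m) • (v 2 - v 0) - (r / m) • v 0)) =
        c1 / m + r / m * X p ∧
      Y ((r / m) • p +
      (v 0 + (c1 / m) • (v 1 - v 0) + (c2 / m) • (v 2 - v 0) - (r / m) • v 0)) =
        c2 / m + r / m * Y p := by
    intro p
    have e : (r / m) • p +
      (v 0 + (c1 / m) • (v 1 - v 0) + (c2 / m) • (v 2 - v 0) - (r / m) • v 0) =
      v 0 + (c1 / m + r / m * X p) • (v 1 - v 0) + (c2 / m + r / m * Y p) • (v 2 - v 0) := by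
      conv_lhs => rw [h1 p]
      module
    rw [e]
    exact h2 _ _
  constructor
  · rintro ⟨p, hp, rfl⟩
    rw [sbd_hull h1 h2] at hp
    obtain ⟨e1, e2⟩ := hXY p
    beta_reduce
    rw [e1, e2]
    have g1 : r * (m * (c1 / m + r / m * X p) - c1) = X p := by
      field_simp
      linear_combination (X p) * hr
    have g2 : r * (m * (c2 / m + r / m * Y p) - c2) = Y p := by
      field_simp
      linear_combination (Y p) * hr
    rw [g1, g2]
    exact hp
  · intro hq
    refine ⟨v 0 + (r * (m * X q - c1)) • (v 1 - v 0) + (r * (m * Y q - c2)) • (v 2 - v 0), ?_, ?_⟩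
    · rw [sbd_hull h1 h2, (h2 _ _).1, (h2 _ _).2]
      exact hq
    · obtain ⟨e1, e2⟩ := hXY (v 0 + (r * (m * X q - c1)) • (v 1 - v 0) +
        (r * (m * Y q - c2)) • (v 2 - v 0))
      rw [(h2 _ _).1] at e1
      rw [(h2 _ _).2] at e2
      apply sbd_inj h1
      · rw [e1]
        field_simp
        linear_combination (m * X q - c1) * hr
      · rw [e2]
        field_simp
        linear_combination (m * Y q - c2) * hr

theorem sbd_dir {S : Set (EuclideanSpace ℝ (Fin 2))} {p : EuclideanSpace ℝ (Fin 2)}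
    (hp : p ∈ interior S) (d : EuclideanSpace ℝ (Fin 2)) : ∃ t : ℝ, 0 < t ∧ p + t • d ∈ S := by
  have hg : Continuous fun t : ℝ => p + t • d := by fun_prop
  have h0 : (fun t : ℝ => p + t • d) ⁻¹' (interior S) ∈ nhds (0 : ℝ) := by
    apply (isOpen_interior.preimage hg).mem_nhds
    simpa using hp
  obtain ⟨ε, hε, hb⟩ := Metric.mem_nhds_iff.1 h0
  refine ⟨ε / 2, by positivity, interior_subset (hb ?_)⟩
  rw [Metric.mem_ball, dist_zero_right, Real.norm_eq_abs, abs_of_pos (by positivity)]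
  linarith

theorem sbd_P_int (hv : AffineIndependent ℝ v)
    (h1 : ∀ p, p = v 0 + X p • (v 1 - v 0) + Y p • (v 2 - v 0))
    (h2 : ∀ s t : ℝ, X (v 0 + s • (v 1 - v 0) + t • (v 2 - v 0)) = s ∧
        Y (v 0 + s • (v 1 - v 0) + t • (v 2 - v 0)) = t) {m c1 c2 r : ℝ} (hm : 0 < m)
    (hr : r * r = 1) (q : EuclideanSpace ℝ (Fin 2))
    (hq : q ∈ interior (TriSet (sbdP v m c1 c2 r))) : 0 < r * (m * X q - c1) ∧
      0 < r * (m * Y q - c2) ∧ r * (m * X q - c1) + r * (m * Y q - c2) < 1 := by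
  refine ⟨?_, ?_, ?_⟩
  · obtain ⟨t, ht, hmem⟩ := sbd_dir hq (-r • (v 1 - v 0))
    rw [sbd_P_mem hv h1 h2 hm hr] at hmem
    have e : q + t • (-r • (v 1 - v 0)) = q + (-(t * r)) • (v 1 - v 0) + (0 : ℝ) • (v 2 - v 0) := by
      module
    obtain ⟨e1, e2⟩ := sbd_add h1 h2 q (-(t * r)) 0
    rw [e, e1] at hmem
    have h3 := hmem.1
    have h4 : r * (m * (X q + -(t * r)) - c1) = r * (m * X q - c1) - m * t := by
      linear_combination (-(m * t)) * hr
    rw [h4] at h3
    have : 0 < m * t := by positivity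
    linarith
  · obtain ⟨t, ht, hmem⟩ := sbd_dir hq (-r • (v 2 - v 0))
    rw [sbd_P_mem hv h1 h2 hm hr] at hmem
    have e : q + t • (-r • (v 2 - v 0)) = q + (0 : ℝ) • (v 1 - v 0) + (-(t * r)) • (v 2 - v 0) := by
      module
    obtain ⟨e1, e2⟩ := sbd_add h1 h2 q 0 (-(t * r))
    rw [e, e2] at hmem
    have h3 := hmem.2.1
    have h4 : r * (m * (Y q + -(t * r)) - c2) = r * (m * Y q - c2) - m * t := by
      linear_combination (-(m * t)) * hr
    rw [h4] at h3
    have : 0 < m * t := by positivity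
    linarith
  · obtain ⟨t, ht, hmem⟩ := sbd_dir hq (r • (v 1 - v 0))
    rw [sbd_P_mem hv h1 h2 hm hr] at hmem
    have e : q + t • (r • (v 1 - v 0)) = q + (t * r) • (v 1 - v 0) + (0 : ℝ) • (v 2 - v 0) := by
      module
    obtain ⟨e1, e2⟩ := sbd_add h1 h2 q (t * r) 0
    rw [e, e1, e2] at hmem
    have h3 := hmem.2.2
    have h4 : r * (m * (X q + (t * r)) - c1) = r * (m * X q - c1) + m * t := by
      linear_combination (m * t) * hr
    rw [h4, add_zero] at h3
    have : 0 < m * t := by positivity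
    linarith

end sbd

/-- TARGET: subdivision of a triangle into m^2 triangles similar to it with ratio 1/m -/
theorem subdivide (v : Fin 3 → EuclideanSpace ℝ (Fin 2)) (hv : AffineIndependent ℝ v) (m : ℕ)
    (hm : 0 < m) :
    ∃ P : Fin (m ^ 2) → Fin 3 → EuclideanSpace ℝ (Fin 2),
      (∀ i, AffineIndependent ℝ (P i)) ∧
      (∀ i k l, dist (P i k) (P i l) = dist (v k) (v l) / m) ∧
      (⋃ i, TriSet (P i)) = TriSet v ∧
      (∀ i j, i ≠ j → Disjoint (interior (TriSet (P i))) (interior (TriSet (P j)))) := by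
  classical
  obtain ⟨X, Y, h1, h2⟩ := sbd_coord v hv
  have hmr : (0 : ℝ) < m := by exact_mod_cast hm
  obtain ⟨σ⟩ : Nonempty (Fin (m ^ 2) ≃ Fin m × Fin m) :=
    ⟨(finCongr (sq m)).trans finProdFinEquiv.symm⟩
  obtain ⟨Q, hQ⟩ : ∃ Q : ℕ → ℕ → Fin 3 → EuclideanSpace ℝ (Fin 2), Q = fun a b =>
      if a + b < m then sbdP v m a b 1 else sbdP v m (m - a) (m - b) (-1) := ⟨_, rfl⟩
  have hQ1 : ∀ a b, a + b < m → Q a b = sbdP v m a b 1 := by
    intro a b h
    rw [hQ]; exact if_pos h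
  have hQ2 : ∀ a b, ¬ (a + b < m) → Q a b = sbdP v m (m - a) (m - b) (-1) := by
    intro a b h
    rw [hQ]; exact if_neg h
  have hmem1 : ∀ a b, a + b < m → ∀ q, q ∈ TriSet (Q a b) ↔ (a : ℝ) ≤ m * X q ∧
      (b : ℝ) ≤ m * Y q ∧ m * X q + m * Y q ≤ a + b + 1 := by
    intro a b h q
    rw [hQ1 a b h, sbd_P_mem hv h1 h2 hmr (by norm_num)]
    constructor
    · rintro ⟨g1, g2, g3⟩
      exact ⟨by linarith, by linarith, by linarith⟩
    · rintro ⟨g1, g2, g3⟩
      exact ⟨by linarith, by linarith, by linarith⟩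
  have hmem2 : ∀ a b, ¬ (a + b < m) → ∀ q, q ∈ TriSet (Q a b) ↔ m * X q ≤ (m : ℝ) - a ∧
      m * Y q ≤ (m : ℝ) - b ∧ 2 * (m : ℝ) - a - b - 1 ≤ m * X q + m * Y q := by
    intro a b h q
    rw [hQ2 a b h, sbd_P_mem hv h1 h2 hmr (by norm_num)]
    constructor
    · rintro ⟨g1, g2, g3⟩
      exact ⟨by linarith, by linarith, by linarith⟩
    · rintro ⟨g1, g2, g3⟩
      exact ⟨by linarith, by linarith, by linarith⟩
  have hint1 : ∀ a b, a + b < m → ∀ q, q ∈ interior (TriSet (Q a b)) → (a : ℝ) < m * X q ∧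
      (b : ℝ) < m * Y q ∧ m * X q + m * Y q < a + b + 1 := by
    intro a b h q hq
    rw [hQ1 a b h] at hq
    obtain ⟨g1, g2, g3⟩ := sbd_P_int hv h1 h2 hmr (by norm_num) q hq
    exact ⟨by linarith, by linarith, by linarith⟩
  have hint2 : ∀ a b, ¬ (a + b < m) → ∀ q, q ∈ interior (TriSet (Q a b)) →
      m * X q < (m : ℝ) - a ∧
      m * Y q < (m : ℝ) - b ∧ 2 * (m : ℝ) - a - b - 1 < m * X q + m * Y q := by
    intro a b h q hq
    rw [hQ2 a b h] at hq
    obtain ⟨g1, g2, g3⟩ := sbd_P_int hv h1 h2 hmr (by norm_num) q hq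
    exact ⟨by linarith, by linarith, by linarith⟩
  have hdistP : ∀ (c1 c2 r : ℝ), |r| = 1 → ∀ k l,
      dist (sbdP v m c1 c2 r k) (sbdP v m c1 c2 r l) = dist (v k) (v l) / m := by
    intro c1 c2 r hr k l
    unfold sbdP
    rw [dist_add_right, dist_smul₀, Real.norm_eq_abs, abs_div, hr, abs_of_pos hmr]
    ring
  refine ⟨fun i => Q (σ i).1 (σ i).2, fun i => ?_, fun i k l => ?_, ?_, fun i j hij => ?_⟩
  · beta_reduce
    by_cases h : ((σ i).1 : ℕ) + (σ i).2 < m
    · rw [hQ1 _ _ h]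
      exact (sbd_P_aff hv hmr.ne' (by norm_num)).1
    · rw [hQ2 _ _ h]
      exact (sbd_P_aff hv hmr.ne' (by norm_num)).1
  · beta_reduce
    by_cases h : ((σ i).1 : ℕ) + (σ i).2 < m
    · rw [hQ1 _ _ h]
      exact hdistP _ _ _ (by simp) k l
    · rw [hQ2 _ _ h]
      exact hdistP _ _ _ (by simp) k l
  · beta_reduce
    apply Set.Subset.antisymm
    · intro q hq
      obtain ⟨i, hi⟩ := Set.mem_iUnion.1 hq
      rw [sbd_hull h1 h2]
      have ha1 : (((σ i).1 : ℕ) : ℝ) + 1 ≤ m := by exact_mod_cast (σ i).1.2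
      have hb1 : (((σ i).2 : ℕ) : ℝ) + 1 ≤ m := by exact_mod_cast (σ i).2.2
      have ha0 : (0 : ℝ) ≤ (((σ i).1 : ℕ) : ℝ) := Nat.cast_nonneg _
      have hb0 : (0 : ℝ) ≤ (((σ i).2 : ℕ) : ℝ) := Nat.cast_nonneg _
      have key : 0 ≤ m * X q ∧ 0 ≤ m * Y q ∧ m * X q + m * Y q ≤ m := by
        by_cases h : ((σ i).1 : ℕ) + (σ i).2 < m
        · obtain ⟨g1, g2, g3⟩ := (hmem1 _ _ h q).1 hi
          have h' : (((σ i).1 : ℕ) : ℝ) + (((σ i).2 : ℕ) : ℝ) + 1 ≤ m := by exact_mod_cast h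
          exact ⟨by linarith, by linarith, by linarith⟩
        · obtain ⟨g1, g2, g3⟩ := (hmem2 _ _ h q).1 hi
          have h' : (m : ℝ) ≤ (((σ i).1 : ℕ) : ℝ) + (((σ i).2 : ℕ) : ℝ) := by
            exact_mod_cast not_lt.1 h
          exact ⟨by linarith, by linarith, by linarith⟩
      obtain ⟨k1, k2, k3⟩ := key
      refine ⟨nonneg_of_mul_nonneg_right k1 hmr, nonneg_of_mul_nonneg_right k2 hmr, ?_⟩
      have : (m : ℝ) * (X q + Y q) ≤ m * 1 := by linarith
      exact le_of_mul_le_mul_left this hmr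
    · intro q hq
      rw [sbd_hull h1 h2] at hq
      obtain ⟨k1, k2, k3⟩ := hq
      obtain ⟨x, hx⟩ : ∃ x, x = m * X q := ⟨_, rfl⟩
      obtain ⟨y, hy⟩ : ∃ y, y = m * Y q := ⟨_, rfl⟩
      have hx0 : 0 ≤ x := by rw [hx]; positivity
      have hy0 : 0 ≤ y := by rw [hy]; positivity
      have hxy : x + y ≤ m := by
        have : (m : ℝ) * (X q + Y q) ≤ m * 1 := mul_le_mul_of_nonneg_left k3 hmr.le
        rw [hx, hy]; linarith
      have hexi : ∀ a b : ℕ, a < m → b < m → q ∈ TriSet (Q a b) →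
          q ∈ ⋃ i, TriSet (Q (σ i).1 (σ i).2) := by
        intro a b ha hb hq
        rw [Set.mem_iUnion]
        refine ⟨σ.symm (⟨a, ha⟩, ⟨b, hb⟩), ?_⟩
        rw [Equiv.apply_symm_apply]
        exact hq
      have fa1 := Nat.floor_le hx0
      have fa2 := Nat.lt_floor_add_one x
      have fb1 := Nat.floor_le hy0
      have fb2 := Nat.lt_floor_add_one y
      obtain ⟨a, ha⟩ : ∃ a, a = ⌊x⌋₊ := ⟨_, rfl⟩
      obtain ⟨b, hb⟩ : ∃ b, b = ⌊y⌋₊ := ⟨_, rfl⟩
      rw [← ha] at fa1 fa2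
      rw [← hb] at fb1 fb2
      have hab : a + b ≤ m := by
        have : (a : ℝ) + b ≤ m := by linarith
        exact_mod_cast this
      by_cases hcase : x + y ≤ a + b + 1
      · by_cases hab2 : a + b < m
        · refine hexi a b (by omega) (by omega) ((hmem1 a b hab2 q).2 ?_)
          rw [← hx, ← hy]
          exact ⟨fa1, fb1, hcase⟩
        · have habm : a + b = m := by omega
          have habr : (a : ℝ) + b = m := by exact_mod_cast habm
          have hxa : x = a := by linarith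
          have hyb : y = b := by linarith
          rcases Nat.eq_zero_or_pos a with h0 | h0
          · refine hexi 0 (m - 1) (by omega) (by omega) ((hmem1 0 (m - 1) (by omega) q).2 ?_)
            rw [← hx, ← hy, Nat.cast_sub (by omega)]
            have ha0 : (a : ℝ) = 0 := by rw [h0]; simp
            push_cast
            exact ⟨by linarith, by linarith, by linarith⟩
          · refine hexi (a - 1) b (by omega) (by omega) ((hmem1 (a - 1) b (by omega) q).2 ?_)
            rw [← hx, ← hy, Nat.cast_sub (by omega)]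
            push_cast
            exact ⟨by linarith, by linarith, by linarith⟩
      · push Not at hcase
        have hab3 : a + b + 1 < m := by
          have : (a : ℝ) + b + 1 < m := by linarith
          exact_mod_cast this
        refine hexi (m - 1 - a) (m - 1 - b) (by omega) (by omega)
          ((hmem2 (m - 1 - a) (m - 1 - b) (by omega) q).2 ?_)
        rw [← hx, ← hy]
        have ea : ((m - 1 - a : ℕ) : ℝ) = m - 1 - a := by
          rw [Nat.cast_sub (by omega), Nat.cast_sub (by omega)]; simp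
        have eb : ((m - 1 - b : ℕ) : ℝ) = m - 1 - b := by
          rw [Nat.cast_sub (by omega), Nat.cast_sub (by omega)]; simp
        rw [ea, eb]
        exact ⟨by linarith, by linarith, by linarith⟩
  · rw [Set.disjoint_left]
    intro q hqi hqj
    apply hij
    apply σ.injective
    obtain ⟨a, ha⟩ : ∃ a : ℕ, a = (σ i).1 := ⟨_, rfl⟩
    obtain ⟨b, hb⟩ : ∃ b : ℕ, b = (σ i).2 := ⟨_, rfl⟩
    obtain ⟨a', ha'⟩ : ∃ a' : ℕ, a' = (σ j).1 := ⟨_, rfl⟩
    obtain ⟨b', hb'⟩ : ∃ b' : ℕ, b' = (σ j).2 := ⟨_, rfl⟩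
    have ham : a < m := by rw [ha]; exact (σ i).1.2
    have hbm : b < m := by rw [hb]; exact (σ i).2.2
    have ham' : a' < m := by rw [ha']; exact (σ j).1.2
    have hbm' : b' < m := by rw [hb']; exact (σ j).2.2
    have hfin : a = a' ∧ b = b' → σ i = σ j := by
      rintro ⟨e1, e2⟩
      apply Prod.ext
      · apply Fin.ext; rw [← ha, ← ha', e1]
      · apply Fin.ext; rw [← hb, ← hb', e2]
    apply hfin
    beta_reduce at hqi hqj
    rw [← ha, ← hb] at hqi
    rw [← ha', ← hb'] at hqj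
    by_cases h : a + b < m
    · by_cases h' : a' + b' < m
      · obtain ⟨g1, g2, g3⟩ := hint1 a b h q hqi
        obtain ⟨g1', g2', g3'⟩ := hint1 a' b' h' q hqj
        have i1 : (a : ℝ) < a' + 1 := by linarith
        have i2 : (a' : ℝ) < a + 1 := by linarith
        have i3 : (b : ℝ) < b' + 1 := by linarith
        have i4 : (b' : ℝ) < b + 1 := by linarith
        have j1 : a < a' + 1 := by exact_mod_cast i1
        have j2 : a' < a + 1 := by exact_mod_cast i2
        have j3 : b < b' + 1 := by exact_mod_cast i3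
        have j4 : b' < b + 1 := by exact_mod_cast i4
        omega
      · exfalso
        obtain ⟨g1, g2, g3⟩ := hint1 a b h q hqi
        obtain ⟨g1', g2', g3'⟩ := hint2 a' b' h' q hqj
        have i1 : (a : ℝ) + a' < m := by linarith
        have i3 : (b : ℝ) + b' < m := by linarith
        have j1 : a + a' < m := by exact_mod_cast i1
        have j3 : b + b' < m := by exact_mod_cast i3
        have k1 : (a : ℝ) + a' + 1 ≤ m := by exact_mod_cast j1
        have k3 : (b : ℝ) + b' + 1 ≤ m := by exact_mod_cast j3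
        linarith
    · by_cases h' : a' + b' < m
      · exfalso
        obtain ⟨g1, g2, g3⟩ := hint2 a b h q hqi
        obtain ⟨g1', g2', g3'⟩ := hint1 a' b' h' q hqj
        have i1 : (a : ℝ) + a' < m := by linarith
        have i3 : (b : ℝ) + b' < m := by linarith
        have j1 : a + a' < m := by exact_mod_cast i1
        have j3 : b + b' < m := by exact_mod_cast i3
        have k1 : (a : ℝ) + a' + 1 ≤ m := by exact_mod_cast j1
        have k3 : (b : ℝ) + b' + 1 ≤ m := by exact_mod_cast j3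
        linarith
      · obtain ⟨g1, g2, g3⟩ := hint2 a b h q hqi
        obtain ⟨g1', g2', g3'⟩ := hint2 a' b' h' q hqj
        have i1 : (a : ℝ) < a' + 1 := by linarith
        have i2 : (a' : ℝ) < a + 1 := by linarith
        have i3 : (b : ℝ) < b' + 1 := by linarith
        have i4 : (b' : ℝ) < b + 1 := by linarith
        have j1 : a < a' + 1 := by exact_mod_cast i1
        have j2 : a' < a + 1 := by exact_mod_cast i2
        have j3 : b < b' + 1 := by exact_mod_cast i3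
        have j4 : b' < b + 1 := by exact_mod_cast i4
        omega

end Pool.Agent.Helper549.Tri.SqSub
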