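import Mathlib
import Pool.Agent.Helper549.Tri.SqDefs
import Pool.Agent.Helper549.Tri.SqSub
set_option autoImplicit false
noncomputable section
open scoped BigOperators

namespace Pool.Agent.Helper549.Tri.SqCut
open Pool.Agent.Helper549.Tri.SqSub

/-- planar determinant -/
noncomputable def det2 (u v : EuclideanSpace ℝ (Fin 2)) : ℝ := u 0 * v 1 - u 1 * v 0

lemma ai_of_det {P : Fin 3 → EuclideanSpace ℝ (Fin 2)} (h : det2 (P 1 - P 0) (P 2 - P 0) ≠ 0) :
    AffineIndependent ℝ P := by
  rw [affineIndependent_iff_linearIndependent_vsub ℝ P 0]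
  rw [Fintype.linearIndependent_iff]
  intro g hg
  have huniv : (Finset.univ : Finset {x : Fin 3 // x ≠ 0}) = {⟨1, by decide⟩, ⟨2, by decide⟩} := by
    ext ⟨x, hx⟩
    simp only [Finset.mem_univ, Finset.mem_insert, Finset.mem_singleton, Subtype.mk.injEq, true_iff]
    revert x; decide
  rw [huniv, Finset.sum_pair (by simp)] at hg
  simp only [vsub_eq_sub] at hg
  have h0 := congrFun (congrArg WithLp.ofLp hg) 0
  have h1 := congrFun (congrArg WithLp.ofLp hg) 1
  simp at h0 h1
  unfold det2 at h
  simp at h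
  set x := g ⟨1, by decide⟩ with hx
  set y := g ⟨2, by decide⟩ with hy
  have hx0 : x = 0 := by
    have : x * ((P 1 0 - P 0 0) * (P 2 1 - P 0 1) - (P 1 1 - P 0 1) * (P 2 0 - P 0 0)) = 0 := by
      linear_combination (P 2 1 - P 0 1) * h0 - (P 2 0 - P 0 0) * h1
    rcases mul_eq_zero.mp this with h' | h'
    · exact h'
    · exact absurd h' h
  have hy0 : y = 0 := by
    have : y * ((P 1 0 - P 0 0) * (P 2 1 - P 0 1) - (P 1 1 - P 0 1) * (P 2 0 - P 0 0)) = 0 := by
      linear_combination - (P 1 1 - P 0 1) * h0 + (P 1 0 - P 0 0) * h1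
    rcases mul_eq_zero.mp this with h' | h'
    · exact h'
    · exact absurd h' h
  rintro ⟨z, hz⟩
  have hz' : z = 1 ∨ z = 2 := by revert z; decide
  rcases hz' with rfl | rfl
  · exact hx0
  · exact hy0

lemma fin3_a : ∀ i j k x : Fin 3, i ≠ j → i ≠ k → j ≠ k → x ≠ i → (x = j ∨ x = k) := by decide

lemma fin3_b : ∀ i j : Fin 3, i ≠ j → ∃ k : Fin 3, i ≠ k ∧ j ≠ k := by decide

lemma fin3_c : ∀ i j k : Fin 3, i ≠ j → i ≠ k → j ≠ k →
    (k + 1 = i ∧ k + 2 = j) ∨ (k + 1 = j ∧ k + 2 = i) := by decide

lemma det_of_ai {T : Fin 3 → EuclideanSpace ℝ (Fin 2)} (hT : AffineIndependent ℝ T) {i j k : Fin 3}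
    (hij : i ≠ j) (hik : i ≠ k) (hjk : j ≠ k) : det2 (T j - T i) (T k - T i) ≠ 0 := by
  intro h
  rw [affineIndependent_iff_linearIndependent_vsub ℝ T i] at hT
  rw [Fintype.linearIndependent_iff] at hT
  have huniv : (Finset.univ : Finset {x : Fin 3 // x ≠ i}) = {⟨j, hij.symm⟩, ⟨k, hik.symm⟩} := by
    ext ⟨x, hx⟩
    simp only [Finset.mem_univ, Finset.mem_insert, Finset.mem_singleton, Subtype.mk.injEq, true_iff]
    exact fin3_a i j k x hij hik hjk hx
  have key : ∀ a b : ℝ, a • (T j - T i) + b • (T k - T i) = 0 → a = 0 ∧ b = 0 := by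
    intro a b hab
    have h1 := hT (fun x => if (x : Fin 3) = j then a else b) (by
      rw [huniv, Finset.sum_pair (by simpa using hjk)]
      simp only [vsub_eq_sub, if_true]
      rw [if_neg hjk.symm]
      exact hab)
    have h2 := h1 ⟨j, hij.symm⟩
    have h3 := h1 ⟨k, hik.symm⟩
    simp only [if_true] at h2
    rw [if_neg hjk.symm] at h3
    exact ⟨h2, h3⟩
  set u := T j - T i with hu
  set v := T k - T i with hv
  unfold det2 at h
  -- v 1 u - u 1 v has first coordinate det = 0, second 0
  have k1 := key (v 1) (-(u 1)) (by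
    ext l
    fin_cases l
    · simp; linarith
    · simp; ring)
  have k2 := key (v 0) (-(u 0)) (by
    ext l
    fin_cases l
    · simp; ring
    · simp; linarith)
  have k3 := key 1 0 (by
    ext l
    fin_cases l
    · simp; linarith [k2.2]
    · simp; linarith [k1.2])
  exact one_ne_zero k3.1

lemma exists_isom {P Q : Fin 3 → EuclideanSpace ℝ (Fin 2)} (hP : AffineIndependent ℝ P)
    (hd : ∀ k l, dist (P k) (P l) = dist (Q k) (Q l)) :
    ∃ f : EuclideanSpace ℝ (Fin 2) ≃ᵢ EuclideanSpace ℝ (Fin 2), f '' TriSet P = TriSet Q := by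
  have hdet := det_of_ai hP (i := 0) (j := 1) (k := 2) (by decide) (by decide) (by decide)
  have hu : LinearIndependent ℝ ![P 1 - P 0, P 2 - P 0] := by
    rw [LinearIndependent.pair_iff]
    intro s t hst
    have h0 := congrFun (congrArg WithLp.ofLp hst) 0
    have h1 := congrFun (congrArg WithLp.ofLp hst) 1
    simp at h0 h1
    unfold det2 at hdet
    simp at hdet
    constructor
    · have : s * ((P 1 0 - P 0 0) * (P 2 1 - P 0 1) - (P 1 1 - P 0 1) * (P 2 0 - P 0 0)) = 0 := by
        linear_combination (P 2 1 - P 0 1) * h0 - (P 2 0 - P 0 0) * h1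
      rcases mul_eq_zero.mp this with h' | h'
      · exact h'
      · exact absurd h' hdet
    · have : t * ((P 1 0 - P 0 0) * (P 2 1 - P 0 1) - (P 1 1 - P 0 1) * (P 2 0 - P 0 0)) = 0 := by
        linear_combination - (P 1 1 - P 0 1) * h0 + (P 1 0 - P 0 0) * h1
      rcases mul_eq_zero.mp this with h' | h'
      · exact h'
      · exact absurd h' hdet
  let b := basisOfLinearIndependentOfCardEqFinrank hu (by simp)
  have hb : ∀ i, b i = ![P 1 - P 0, P 2 - P 0] i := by
    intro i
    simp [b]
  let w : Fin 2 → EuclideanSpace ℝ (Fin 2) := ![Q 1 - Q 0, Q 2 - Q 0]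
  let L : EuclideanSpace ℝ (Fin 2) →ₗ[ℝ] EuclideanSpace ℝ (Fin 2) := b.constr ℝ w
  have hLb : ∀ i, L (b i) = w i := fun i => b.constr_basis ℝ w i
  have hpol : ∀ x y : EuclideanSpace ℝ (Fin 2), inner ℝ x y = (‖x‖ ^ 2 + ‖y‖ ^ 2 - ‖x - y‖ ^ 2) / 2 := by
    intro x y
    rw [norm_sub_sq_real]; ring
  have n1 : ‖P 1 - P 0‖ = ‖Q 1 - Q 0‖ := by
    have := hd 1 0
    rwa [dist_eq_norm, dist_eq_norm] at this
  have n2 : ‖P 2 - P 0‖ = ‖Q 2 - Q 0‖ := by
    have := hd 2 0
    rwa [dist_eq_norm, dist_eq_norm] at this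
  have n12 : ‖(P 1 - P 0) - (P 2 - P 0)‖ = ‖(Q 1 - Q 0) - (Q 2 - Q 0)‖ := by
    have := hd 1 2
    rw [dist_eq_norm, dist_eq_norm] at this
    rw [sub_sub_sub_cancel_right, sub_sub_sub_cancel_right]; exact this
  have i11 : inner ℝ (P 1 - P 0) (P 1 - P 0) = inner ℝ (Q 1 - Q 0) (Q 1 - Q 0) := by
    rw [real_inner_self_eq_norm_sq, real_inner_self_eq_norm_sq, n1]
  have i22 : inner ℝ (P 2 - P 0) (P 2 - P 0) = inner ℝ (Q 2 - Q 0) (Q 2 - Q 0) := by
    rw [real_inner_self_eq_norm_sq, real_inner_self_eq_norm_sq, n2]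
  have i12 : inner ℝ (P 1 - P 0) (P 2 - P 0) = inner ℝ (Q 1 - Q 0) (Q 2 - Q 0) := by
    rw [hpol, hpol, n1, n2, n12]
  have i21 : inner ℝ (P 2 - P 0) (P 1 - P 0) = inner ℝ (Q 2 - Q 0) (Q 1 - Q 0) := by
    rw [real_inner_comm, i12, real_inner_comm]
  have hL : ∀ x y, inner ℝ (L x) (L y) = inner ℝ x y := by
    intro x y
    have hx : x = b.repr x 0 • (P 1 - P 0) + b.repr x 1 • (P 2 - P 0) := by
      conv_lhs => rw [← b.sum_repr x]
      rw [Fin.sum_univ_two, hb, hb]
      rfl
    have hy : y = b.repr y 0 • (P 1 - P 0) + b.repr y 1 • (P 2 - P 0) := by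
      conv_lhs => rw [← b.sum_repr y]
      rw [Fin.sum_univ_two, hb, hb]
      rfl
    have hL1 : L (P 1 - P 0) = Q 1 - Q 0 := by
      have := hLb 0
      rw [hb] at this
      exact this
    have hL2 : L (P 2 - P 0) = Q 2 - Q 0 := by
      have := hLb 1
      rw [hb] at this
      exact this
    generalize b.repr x 0 = x0 at hx
    generalize b.repr x 1 = x1 at hx
    generalize b.repr y 0 = y0 at hy
    generalize b.repr y 1 = y1 at hy
    rw [hx, hy]
    rw [map_add, map_add, map_smul, map_smul, map_smul, map_smul, hL1, hL2]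
    simp only [inner_add_left, inner_add_right, inner_smul_left, inner_smul_right, i11, i12, i21, i22]
  let Le := (L.isometryOfInner hL).toLinearIsometryEquiv rfl
  have hLe : ∀ x, Le x = L x := fun x => rfl
  let f : EuclideanSpace ℝ (Fin 2) ≃ᵃⁱ[ℝ] EuclideanSpace ℝ (Fin 2) :=
    AffineIsometryEquiv.mk' (fun x => Le (x - P 0) + Q 0) Le (P 0) (by
      intro p'
      simp)
  have hf : ∀ x, f x = L (x - P 0) + Q 0 := fun x => rfl
  refine ⟨f.toIsometryEquiv, ?_⟩
  have h1 : (fun x => f.toIsometryEquiv x) '' TriSet P = (f.toAffineEquiv.toAffineMap : EuclideanSpace ℝ (Fin 2) → EuclideanSpace ℝ (Fin 2)) '' TriSet P := rfl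
  have h2 : (f.toAffineEquiv.toAffineMap : EuclideanSpace ℝ (Fin 2) → EuclideanSpace ℝ (Fin 2)) '' TriSet P = TriSet Q := by
    unfold TriSet
    rw [AffineMap.image_convexHull, ← Set.range_comp]
    congr 1
    congr 1
    funext l
    show f (P l) = Q l
    rw [hf]
    have hl : l = 0 ∨ l = 1 ∨ l = 2 := by revert l; decide
    rcases hl with rfl | rfl | rfl
    · simp
    · have := hLb 0
      rw [hb] at this
      have h' : L (P 1 - P 0) = Q 1 - Q 0 := this
      rw [h']; simp
    · have := hLb 1
      rw [hb] at this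
      have h' : L (P 2 - P 0) = Q 2 - Q 0 := this
      rw [h']; simp
  exact h2

lemma side_eq (T : Fin 3 → EuclideanSpace ℝ (Fin 2)) {i j k : Fin 3} (hij : i ≠ j) (hik : i ≠ k) (hjk : j ≠ k) :
    side T i = dist (T j) (T k) := by
  unfold side
  have : (i + 1 = j ∧ i + 2 = k) ∨ (i + 1 = k ∧ i + 2 = j) := by revert i j k; decide
  rcases this with ⟨h1, h2⟩ | ⟨h1, h2⟩
  · rw [h1, h2]
  · rw [h1, h2, dist_comm]

lemma range_eq (T : Fin 3 → EuclideanSpace ℝ (Fin 2)) {i j k : Fin 3} (hij : i ≠ j) (hik : i ≠ k) (hjk : j ≠ k) :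
    Set.range T = {T i, T j, T k} := by
  ext x
  simp only [Set.mem_range, Set.mem_insert_iff, Set.mem_singleton_iff]
  constructor
  · rintro ⟨l, rfl⟩
    have hl : l = i ∨ l = j ∨ l = k := by revert i j k l; decide
    rcases hl with rfl | rfl | rfl
    · exact Or.inl rfl
    · exact Or.inr (Or.inl rfl)
    · exact Or.inr (Or.inr rfl)
  · rintro (rfl | rfl | rfl)
    · exact ⟨_, rfl⟩
    · exact ⟨_, rfl⟩
    · exact ⟨_, rfl⟩

lemma tri_vec (p q r : EuclideanSpace ℝ (Fin 2)) : TriSet ![p, q, r] = convexHull ℝ {p, q, r} := by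
  unfold TriSet
  congr 1
  rw [range_eq ![p, q, r] (i := 0) (j := 1) (k := 2) (by decide) (by decide) (by decide)]
  rfl

lemma comb_mem (p q r : EuclideanSpace ℝ (Fin 2)) {a b c : ℝ} (ha : 0 ≤ a) (hb : 0 ≤ b) (hc : 0 ≤ c)
    (h : a + b + c = 1) : a • p + b • q + c • r ∈ convexHull ℝ ({p, q, r} : Set (EuclideanSpace ℝ (Fin 2))) := by
  have := (convex_convexHull ℝ ({p, q, r} : Set (EuclideanSpace ℝ (Fin 2)))).sum_mem (t := Finset.univ)
    (w := ![a, b, c]) (z := ![p, q, r]) (by
      intro l _
      fin_cases l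
      · exact ha
      · exact hb
      · exact hc) (by rw [Fin.sum_univ_three]; exact h) (by
      intro l _
      apply subset_convexHull
      fin_cases l
      · simp
      · simp
      · simp)
  rw [Fin.sum_univ_three] at this
  exact this

lemma mem_comb {p q r x : EuclideanSpace ℝ (Fin 2)}
    (h : x ∈ convexHull ℝ ({p, q, r} : Set (EuclideanSpace ℝ (Fin 2)))) :
    ∃ a b c : ℝ, 0 ≤ a ∧ 0 ≤ b ∧ 0 ≤ c ∧ a + b + c = 1 ∧ a • p + b • q + c • r = x := by
  rw [convexHull_insert ⟨q, by simp⟩, convexHull_pair, convexJoin_singleton_left] at h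
  simp only [Set.mem_iUnion] at h
  obtain ⟨y, ⟨a1, b1, ha1, hb1, hab1, rfl⟩, ⟨a2, b2, ha2, hb2, hab2, rfl⟩⟩ := h
  refine ⟨a2, b2 * a1, b2 * b1, ha2, mul_nonneg hb2 ha1, mul_nonneg hb2 hb1, ?_, ?_⟩
  · rw [add_assoc, ← mul_add, hab1, mul_one, hab2]
  · rw [smul_add, smul_smul, smul_smul, add_assoc]

/-- cutting a triangle by a cevian: union -/
lemma cut_union (p q r : EuclideanSpace ℝ (Fin 2)) {t : ℝ} (h0 : 0 < t) (h1 : t < 1) :
    convexHull ℝ ({p, (1 - t) • p + t • q, r} : Set (EuclideanSpace ℝ (Fin 2))) ∪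
      convexHull ℝ ({q, (1 - t) • p + t • q, r} : Set (EuclideanSpace ℝ (Fin 2))) =
      convexHull ℝ ({p, q, r} : Set (EuclideanSpace ℝ (Fin 2))) := by
  have hM : (1 - t) • p + t • q ∈ convexHull ℝ ({p, q, r} : Set (EuclideanSpace ℝ (Fin 2))) := by
    have := comb_mem p q r (a := 1 - t) (b := t) (c := 0) (by linarith) h0.le le_rfl (by ring)
    simpa using this
  have hs := subset_convexHull ℝ ({p, q, r} : Set (EuclideanSpace ℝ (Fin 2)))
  apply Set.Subset.antisymm
  · apply Set.union_subset
    · apply convexHull_min _ (convex_convexHull ℝ _)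
      intro x hx
      simp only [Set.mem_insert_iff, Set.mem_singleton_iff] at hx
      rcases hx with rfl | rfl | rfl
      · exact hs (by simp)
      · exact hM
      · exact hs (by simp)
    · apply convexHull_min _ (convex_convexHull ℝ _)
      intro x hx
      simp only [Set.mem_insert_iff, Set.mem_singleton_iff] at hx
      rcases hx with rfl | rfl | rfl
      · exact hs (by simp)
      · exact hM
      · exact hs (by simp)
  · intro x hx
    obtain ⟨a, b, c, ha, hb, hc, habc, rfl⟩ := mem_comb hx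
    have ht : 0 < 1 - t := by linarith
    rcases le_total (b * (1 - t)) (a * t) with hle | hle
    · left
      have := comb_mem p ((1 - t) • p + t • q) r (a := a - b * (1 - t) / t) (b := b / t) (c := c)
        (by
          rw [sub_nonneg, div_le_iff₀ h0]; exact hle) (by positivity) hc (by
          field_simp
          linear_combination t * habc)
      convert this using 1
      ext l
      simp only [PiLp.add_apply, PiLp.smul_apply, smul_eq_mul]
      field_simp
      ring
    · right
      have := comb_mem q ((1 - t) • p + t • q) r (a := b - a * t / (1 - t)) (b := a / (1 - t)) (c := c)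
        (by
          rw [sub_nonneg, div_le_iff₀ ht]; exact hle) (by positivity) hc (by
          field_simp
          linear_combination (1 - t) * habc)
      convert this using 1
      ext l
      simp only [PiLp.add_apply, PiLp.smul_apply, smul_eq_mul]
      field_simp
      ring

/-- cutting a triangle by a cevian: the interiors are disjoint -/
lemma cut_disj (p q r : EuclideanSpace ℝ (Fin 2)) {t : ℝ} (h0 : 0 < t) (h1 : t < 1)
    (hdet : det2 (q - p) (r - p) ≠ 0) :
    Disjoint (interior (convexHull ℝ ({p, (1 - t) • p + t • q, r} : Set (EuclideanSpace ℝ (Fin 2)))))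
      (interior (convexHull ℝ ({q, (1 - t) • p + t • q, r} : Set (EuclideanSpace ℝ (Fin 2))))) := by
  set M := (1 - t) • p + t • q with hM
  set D := det2 (q - p) (r - p) with hD
  let ψ : EuclideanSpace ℝ (Fin 2) → ℝ := fun x => D * det2 (r - M) (x - M)
  have hlin : ∀ (x y : EuclideanSpace ℝ (Fin 2)) (a b : ℝ), a + b = 1 → ψ (a • x + b • y) = a * ψ x + b * ψ y := by
    intro x y a b hab
    have hb : b = 1 - a := by linarith
    subst hb
    simp only [ψ, det2, PiLp.add_apply, PiLp.smul_apply, PiLp.sub_apply, smul_eq_mul]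
    ring
  have hp : 0 ≤ ψ p := by
    have : ψ p = t * D ^ 2 := by
      simp only [ψ, hM, hD, det2, PiLp.add_apply, PiLp.smul_apply, PiLp.sub_apply, smul_eq_mul]
      ring
    rw [this]; positivity
  have hq : ψ q ≤ 0 := by
    have : ψ q = - ((1 - t) * D ^ 2) := by
      simp only [ψ, hM, hD, det2, PiLp.add_apply, PiLp.smul_apply, PiLp.sub_apply, smul_eq_mul]
      ring
    rw [this]
    have : 0 ≤ (1 - t) * D ^ 2 := mul_nonneg (by linarith) (sq_nonneg _)
    linarith
  have hMz : ψ M = 0 := by
    simp only [ψ, det2, PiLp.sub_apply]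
    ring
  have hr : ψ r = 0 := by
    simp only [ψ, det2, PiLp.sub_apply]
    ring
  have hA : convexHull ℝ ({p, M, r} : Set (EuclideanSpace ℝ (Fin 2))) ⊆ {x | 0 ≤ ψ x} := by
    apply convexHull_min
    · intro x hx
      simp only [Set.mem_insert_iff, Set.mem_singleton_iff] at hx
      rcases hx with h | h | h
      · rw [h]; exact hp
      · rw [h]; exact hMz.ge
      · rw [h]; exact hr.ge
    · intro x hx y hy a b ha hb hab
      show 0 ≤ ψ (a • x + b • y)
      rw [hlin x y a b hab]
      exact add_nonneg (mul_nonneg ha hx) (mul_nonneg hb hy)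
  have hB : convexHull ℝ ({q, M, r} : Set (EuclideanSpace ℝ (Fin 2))) ⊆ {x | ψ x ≤ 0} := by
    apply convexHull_min
    · intro x hx
      simp only [Set.mem_insert_iff, Set.mem_singleton_iff] at hx
      rcases hx with h | h | h
      · rw [h]; exact hq
      · rw [h]; exact hMz.le
      · rw [h]; exact hr.le
    · intro x hx y hy a b ha hb hab
      show ψ (a • x + b • y) ≤ 0
      rw [hlin x y a b hab]
      have h1 : a * ψ x ≤ 0 := mul_nonpos_of_nonneg_of_nonpos ha hx
      have h2 : b * ψ y ≤ 0 := mul_nonpos_of_nonneg_of_nonpos hb hy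
      linarith
  rw [Set.disjoint_left]
  intro x hx hx'
  have hxint : x ∈ interior {x : EuclideanSpace ℝ (Fin 2) | ψ x = 0} := by
    have h1 : x ∈ interior {x | 0 ≤ ψ x} := interior_mono hA hx
    have h2 : x ∈ interior {x | ψ x ≤ 0} := interior_mono hB hx'
    have h3 : x ∈ interior ({x | 0 ≤ ψ x} ∩ {x | ψ x ≤ 0}) := by
      rw [interior_inter]; exact ⟨h1, h2⟩
    refine interior_mono ?_ h3
    rintro y ⟨hy1, hy2⟩
    exact le_antisymm hy2 hy1
  have hx0 : ψ x = 0 := by
    have h5 := interior_subset hxint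
    exact h5
  rw [mem_interior_iff_mem_nhds] at hxint
  have hcont : Filter.Tendsto (fun s : ℝ => x + s • (p - q)) (nhds 0) (nhds x) := by
    have : Continuous (fun s : ℝ => x + s • (p - q)) := by fun_prop
    have h := this.tendsto 0
    simpa using h
  have hev := hcont hxint
  rw [Filter.mem_map, Metric.mem_nhds_iff] at hev
  obtain ⟨ε, hε, hball⟩ := hev
  have hmem : (ε / 2) ∈ Metric.ball (0 : ℝ) ε := by
    rw [Metric.mem_ball, dist_zero_right, Real.norm_eq_abs, abs_of_pos (by linarith)]; linarith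
  have h3 : ψ (x + (ε / 2) • (p - q)) = 0 := hball hmem
  have h4 : ψ (x + (ε / 2) • (p - q)) = ψ x + (ε / 2) * D ^ 2 := by
    simp only [ψ, hM, hD, det2, PiLp.add_apply, PiLp.smul_apply, PiLp.sub_apply, smul_eq_mul]
    ring
  rw [h3, hx0] at h4
  have : 0 < (ε / 2) * D ^ 2 := by positivity
  linarith

/-- TARGET 1: isosceles triangles can be cut into two congruent triangles -/
theorem cut_isosceles (T : Fin 3 → EuclideanSpace ℝ (Fin 2)) (hT : AffineIndependent ℝ T)
    (i j : Fin 3) (hij : i ≠ j) (h : side T i = side T j) : CanCut T 2 := by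
  obtain ⟨k, hik, hjk⟩ : ∃ k : Fin 3, i ≠ k ∧ j ≠ k := fin3_b i j hij
  have hdet := det_of_ai hT hij hik hjk
  rw [side_eq T hij hik hjk, side_eq T hij.symm hjk hik] at h
  set M : EuclideanSpace ℝ (Fin 2) := (1 - (1 / 2 : ℝ)) • T i + (1 / 2 : ℝ) • T j with hM
  have hTri : TriSet T = convexHull ℝ ({T i, T j, T k} : Set (EuclideanSpace ℝ (Fin 2))) := by
    unfold TriSet; rw [range_eq T hij hik hjk]
  have hai1 : AffineIndependent ℝ ![T i, M, T k] := by
    apply ai_of_det
    intro h0
    apply hdet
    have : det2 (T j - T i) (T k - T i) = 2 * det2 (![T i, M, T k] 1 - ![T i, M, T k] 0) (![T i, M, T k] 2 - ![T i, M, T k] 0) := by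
      simp only [det2, hM, Matrix.cons_val_zero, Matrix.cons_val_one, Matrix.cons_val_two, Matrix.cons_val,
        Matrix.head_cons, Matrix.tail_cons, PiLp.add_apply, PiLp.smul_apply, PiLp.sub_apply, smul_eq_mul]
      ring
    rw [this, h0, mul_zero]
  have hai2 : AffineIndependent ℝ ![T j, M, T k] := by
    apply ai_of_det
    intro h0
    apply hdet
    have : det2 (T j - T i) (T k - T i) = -2 * det2 (![T j, M, T k] 1 - ![T j, M, T k] 0) (![T j, M, T k] 2 - ![T j, M, T k] 0) := by
      simp only [det2, hM, Matrix.cons_val_zero, Matrix.cons_val_one, Matrix.cons_val_two, Matrix.cons_val,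
        Matrix.head_cons, Matrix.tail_cons, PiLp.add_apply, PiLp.smul_apply, PiLp.sub_apply, smul_eq_mul]
      ring
    rw [this, h0, mul_zero]
  have e1 : dist (T i) M = dist (T j) M := by
    rw [dist_eq_norm, dist_eq_norm]
    have : T i - M = -(T j - M) := by
      rw [hM]; module
    rw [this, norm_neg]
  have e2 : dist (T i) (T k) = dist (T j) (T k) := h.symm
  have hd : ∀ k' l, dist (![T i, M, T k] k') (![T i, M, T k] l) = dist (![T j, M, T k] k') (![T j, M, T k] l) := by
    intro k' l
    fin_cases k' <;> fin_cases l <;>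
      simp [e1, e2, dist_comm M (T i), dist_comm M (T j), dist_comm (T k) (T i), dist_comm (T k) (T j)]
  refine ⟨![![T i, M, T k], ![T j, M, T k]], ?_, ?_, ?_, ?_⟩
  · intro l
    fin_cases l
    · exact hai1
    · exact hai2
  · intro l l'
    fin_cases l <;> fin_cases l'
    · exact exists_isom hai1 (fun _ _ => rfl)
    · exact exists_isom hai1 hd
    · exact exists_isom hai2 (fun a b => (hd a b).symm)
    · exact exists_isom hai2 (fun _ _ => rfl)
  · rw [hTri, ← cut_union (T i) (T j) (T k) (t := 1 / 2) (by norm_num) (by norm_num)]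
    ext x
    simp only [Set.mem_iUnion, Fin.exists_fin_two, Matrix.cons_val_zero, Matrix.cons_val_one, tri_vec, Set.mem_union]
    exact Iff.rfl
  · have hdj := cut_disj (T i) (T j) (T k) (t := 1 / 2) (by norm_num) (by norm_num) hdet
    intro l l' hll
    fin_cases l <;> fin_cases l'
    · exact absurd rfl hll
    · show Disjoint (interior (TriSet ![T i, M, T k])) (interior (TriSet ![T j, M, T k]))
      rw [tri_vec, tri_vec]; exact hdj
    · show Disjoint (interior (TriSet ![T j, M, T k])) (interior (TriSet ![T i, M, T k]))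
      rw [tri_vec, tri_vec]; exact hdj.symm
    · exact absurd rfl hll

/-- TARGET 2: right triangles with legs in ratio m : n can be cut into m^2+n^2 congruent triangles -/
theorem cut_right (T : Fin 3 → EuclideanSpace ℝ (Fin 2)) (hT : AffineIndependent ℝ T)
    (i j k : Fin 3) (hij : i ≠ j) (hik : i ≠ k) (hjk : j ≠ k) (hr : angle T k = Real.pi / 2)
    (m n : ℕ) (hm : 0 < m) (hn : 0 < n) (h : side T i * n = side T j * m) :
    CanCut T (m ^ 2 + n ^ 2) := by
  have hdet := det_of_ai hT hij hik hjk
  rw [side_eq T hij hik hjk, side_eq T hij.symm hjk hik] at h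
  have hinn : inner ℝ (T i - T k) (T j - T k) = (0 : ℝ) := by
    unfold angle EuclideanGeometry.angle at hr
    rw [← InnerProductGeometry.inner_eq_zero_iff_angle_eq_pi_div_two, vsub_eq_sub, vsub_eq_sub] at hr
    have : (k + 1 = i ∧ k + 2 = j) ∨ (k + 1 = j ∧ k + 2 = i) := fin3_c i j k hij hik hjk
    rcases this with ⟨h1, h2⟩ | ⟨h1, h2⟩
    · rw [h1, h2] at hr; exact hr
    · rw [h1, h2, real_inner_comm] at hr; exact hr
  have hTri : TriSet T = convexHull ℝ ({T i, T j, T k} : Set (EuclideanSpace ℝ (Fin 2))) := by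
    unfold TriSet; rw [range_eq T hij hik hjk]
  set p := T i with hp
  set q := T j with hq
  set r := T k with hrr
  have hpr : p ≠ r := by
    intro h'
    apply hdet
    rw [h']
    simp [det2]
  have hqr : q ≠ r := by
    intro h'
    apply hdet
    rw [h']
    simp only [det2]; ring
  have hpq : p ≠ q := by
    intro h'
    apply hdet
    rw [h']
    simp [det2]
  set a := dist q r with ha
  set b := dist p r with hb
  set c := dist p q with hc
  have ha0 : 0 < a := dist_pos.mpr hqr
  have hb0 : 0 < b := dist_pos.mpr hpr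
  have hc0 : 0 < c := dist_pos.mpr hpq
  have hna : ‖q - r‖ = a := (dist_eq_norm q r).symm
  have hnb : ‖p - r‖ = b := (dist_eq_norm p r).symm
  have hnc : ‖p - q‖ = c := (dist_eq_norm p q).symm
  have hpyth : c ^ 2 = a ^ 2 + b ^ 2 := by
    have : p - q = (p - r) - (q - r) := by abel
    rw [← hnc, this, norm_sub_sq_real, hinn, hna, hnb]; ring
  set t : ℝ := b ^ 2 / c ^ 2 with ht
  have ht0 : 0 < t := by positivity
  have ht1 : t < 1 := by
    rw [ht, div_lt_one (by positivity), hpyth]
    have : 0 < a ^ 2 := by positivity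
    linarith
  have h1t : 1 - t = a ^ 2 / c ^ 2 := by
    rw [ht]; field_simp; linarith
  set F : EuclideanSpace ℝ (Fin 2) := (1 - t) • p + t • q with hF
  have dFq : dist F q = a * (a / c) := by
    rw [dist_eq_norm]
    have : F - q = (1 - t) • (p - q) := by rw [hF]; module
    rw [this, norm_smul, hnc, Real.norm_eq_abs, abs_of_pos (by linarith), h1t]
    field_simp
  have dFp : dist F p = b * (b / c) := by
    rw [dist_eq_norm]
    have : F - p = (-t) • (p - q) := by rw [hF]; module
    rw [this, norm_smul, hnc, norm_neg, Real.norm_eq_abs, abs_of_pos ht0, ht]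
    field_simp
  have dFr : dist F r = b * (a / c) := by
    rw [dist_eq_norm]
    have h1 : F - r = (1 - t) • (p - r) + t • (q - r) := by rw [hF]; module
    have h2 : ‖F - r‖ ^ 2 = (b * (a / c)) ^ 2 := by
      rw [h1, norm_add_sq_real, norm_smul, norm_smul, inner_smul_left, inner_smul_right, hinn, hna, hnb,
        Real.norm_eq_abs, Real.norm_eq_abs, abs_of_pos ht0, abs_of_pos (show 0 < 1 - t by linarith), h1t, ht]
      field_simp
      rw [hpyth]
      ring
    have h3 : 0 ≤ b * (a / c) := by positivity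
    exact (pow_left_inj₀ (norm_nonneg _) h3 two_ne_zero).mp h2
  have hai1 : AffineIndependent ℝ ![F, q, r] := by
    apply ai_of_det
    intro h0
    apply hdet
    have : (1 - t) * det2 (q - p) (r - p) = det2 (![F, q, r] 1 - ![F, q, r] 0) (![F, q, r] 2 - ![F, q, r] 0) := by
      simp only [det2, hF, Matrix.cons_val_zero, Matrix.cons_val_one, Matrix.cons_val_two, Matrix.cons_val,
        Matrix.head_cons, Matrix.tail_cons, PiLp.add_apply, PiLp.smul_apply, PiLp.sub_apply, smul_eq_mul]
      ring
    rw [h0] at this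
    rcases mul_eq_zero.mp this with h' | h'
    · linarith
    · exact h'
  have hai2 : AffineIndependent ℝ ![F, r, p] := by
    apply ai_of_det
    intro h0
    apply hdet
    have : t * det2 (q - p) (r - p) = det2 (![F, r, p] 1 - ![F, r, p] 0) (![F, r, p] 2 - ![F, r, p] 0) := by
      simp only [det2, hF, Matrix.cons_val_zero, Matrix.cons_val_one, Matrix.cons_val_two, Matrix.cons_val,
        Matrix.head_cons, Matrix.tail_cons, PiLp.add_apply, PiLp.smul_apply, PiLp.sub_apply, smul_eq_mul]
      ring
    rw [h0] at this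
    rcases mul_eq_zero.mp this with h' | h'
    · linarith
    · exact h'
  obtain ⟨P1, h11, h12, h13, h14⟩ := subdivide ![F, q, r] hai1 m hm
  obtain ⟨P2, h21, h22, h23, h24⟩ := subdivide ![F, r, p] hai2 n hn
  have hm0 : (0 : ℝ) < m := by exact_mod_cast hm
  have hn0 : (0 : ℝ) < n := by exact_mod_cast hn
  have hratio : a / m = b / n := by
    rw [div_eq_div_iff hm0.ne' hn0.ne']; exact h
  have hdd : ∀ k' l, dist (![F, q, r] k') (![F, q, r] l) / m = dist (![F, r, p] k') (![F, r, p] l) / n := by
    have x1 : a * (a / c) / m = b * (a / c) / n := by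
      have : a * (a / c) / m = (a / m) * (a / c) := by ring
      rw [this, hratio]; ring
    have x2 : b * (a / c) / m = b * (b / c) / n := by
      have : b * (a / c) / m = (a / m) * (b / c) := by ring
      rw [this, hratio]; ring
    have y1 : dist F q / m = dist F r / n := by rw [dFq, dFr]; exact x1
    have y2 : dist F r / m = dist F p / n := by rw [dFr, dFp]; exact x2
    have y3 : dist q r / m = dist r p / n := by rw [dist_comm r p]; exact hratio
    intro k' l
    fin_cases k' <;> fin_cases l
    · simp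
    · exact y1
    · exact y2
    · show dist q F / m = dist r F / n
      rw [dist_comm q F, dist_comm r F]; exact y1
    · simp
    · exact y3
    · show dist r F / m = dist p F / n
      rw [dist_comm r F, dist_comm p F]; exact y2
    · show dist r q / m = dist p r / n
      rw [dist_comm r q, dist_comm p r]; exact y3
    · simp
  have hS1 : TriSet ![F, q, r] = convexHull ℝ ({q, F, r} : Set (EuclideanSpace ℝ (Fin 2))) := by
    rw [tri_vec, Set.insert_comm]
  have hS2 : TriSet ![F, r, p] = convexHull ℝ ({p, F, r} : Set (EuclideanSpace ℝ (Fin 2))) := by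
    rw [tri_vec]
    congr 1
    ext x
    simp only [Set.mem_insert_iff, Set.mem_singleton_iff]
    tauto
  have hU := cut_union p q r ht0 ht1
  have hD := cut_disj p q r ht0 ht1 hdet
  have hsub1 : ∀ l, TriSet (P1 l) ⊆ TriSet ![F, q, r] := by
    intro l
    rw [← h13]
    exact Set.subset_iUnion (fun l => TriSet (P1 l)) l
  have hsub2 : ∀ l, TriSet (P2 l) ⊆ TriSet ![F, r, p] := by
    intro l
    rw [← h23]
    exact Set.subset_iUnion (fun l => TriSet (P2 l)) l
  have hcross : ∀ l l', Disjoint (interior (TriSet (P1 l))) (interior (TriSet (P2 l'))) := by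
    intro l l'
    have h1 := interior_mono (hsub1 l)
    have h2 := interior_mono (hsub2 l')
    rw [hS1] at h1
    rw [hS2] at h2
    exact Set.disjoint_of_subset h1 h2 hD.symm
  refine ⟨Fin.append P1 P2, ?_, ?_, ?_, ?_⟩
  · intro l
    refine Fin.addCases (fun l => ?_) (fun l => ?_) l
    · rw [Fin.append_left]; exact h11 l
    · rw [Fin.append_right]; exact h21 l
  · have hdist : ∀ l k' l', dist (Fin.append P1 P2 l k') (Fin.append P1 P2 l l') =
        dist (![F, q, r] k') (![F, q, r] l') / m := by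
      intro l k' l'
      refine Fin.addCases (fun l => ?_) (fun l => ?_) l
      · rw [Fin.append_left]; exact h12 l k' l'
      · rw [Fin.append_right, h22 l k' l', hdd]
    intro l l'
    apply exists_isom
    · refine Fin.addCases (fun l => ?_) (fun l => ?_) l
      · rw [Fin.append_left]; exact h11 l
      · rw [Fin.append_right]; exact h21 l
    · intro k' k''
      rw [hdist, hdist]
  · rw [hTri, ← hU, Set.union_comm, ← hS1, ← hS2, ← h13, ← h23]
    ext x
    simp only [Set.mem_iUnion, Set.mem_union]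
    constructor
    · rintro ⟨l, hl⟩
      revert hl
      refine Fin.addCases (fun l => ?_) (fun l => ?_) l
      · rw [Fin.append_left]; exact fun hl => Or.inl ⟨l, hl⟩
      · rw [Fin.append_right]; exact fun hl => Or.inr ⟨l, hl⟩
    · rintro (⟨l, hl⟩ | ⟨l, hl⟩)
      · exact ⟨Fin.castAdd _ l, by rw [Fin.append_left]; exact hl⟩
      · exact ⟨Fin.natAdd _ l, by rw [Fin.append_right]; exact hl⟩
  · intro l l'
    refine Fin.addCases (fun l => ?_) (fun l => ?_) l
    · refine Fin.addCases (fun l' => ?_) (fun l' => ?_) l'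
      · intro hll
        rw [Fin.append_left, Fin.append_left]
        exact h14 l l' (fun h' => hll (by rw [h']))
      · intro _
        rw [Fin.append_left, Fin.append_right]
        exact hcross l l'
    · refine Fin.addCases (fun l' => ?_) (fun l' => ?_) l'
      · intro _
        rw [Fin.append_left, Fin.append_right]
        exact (hcross l' l).symm
      · intro hll
        rw [Fin.append_right, Fin.append_right]
        exact h24 l l' (fun h' => hll (by rw [h']))

end Pool.Agent.Helper549.Tri.SqCut
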