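import Mathlib
import Pool.Agent.Helper549.Tri.DataDef
set_option autoImplicit false
noncomputable section
open scoped BigOperators

namespace Pool.Agent.Helper549.Tri.SqG

theorem pos_of_nonsq_7924 {N : ℕ} (hN : ¬ IsSquare N) : 0 < N := by
  rcases Nat.eq_zero_or_pos N with h | h
  · exact absurd (h ▸ ⟨0, rfl⟩) hN
  · exact h

/-- TARGET 1: conjugate eigenvector argument for a nonsquare N -/
theorem conj_set_gen (N : ℕ) (hN : ¬ IsSquare N) (M : Fin 3 → Fin 3 → ℕ) (v : Fin 3 → ℝ) (hv : ∀ k, 0 < v k)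
    (h : ∀ k, ∑ l, (M k l : ℝ) * v l = Real.sqrt N * v k) :
    ∃ (J : Finset (Fin 3)) (e : Fin 3 → Bool), J.Nonempty ∧
      ∀ k ∈ J, ∀ l, 0 < M k l → l ∈ J ∧ e l ≠ e k := by
  set s : ℝ := Real.sqrt N with hs
  have hs2 : s * s = (N : ℝ) := Real.mul_self_sqrt (Nat.cast_nonneg N)
  have hirr : Irrational s := by
    exact irrational_sqrt_natCast_iff.mpr hN
  set A : Matrix (Fin 3) (Fin 3) ℝ := Matrix.of fun k l => (M k l : ℝ) with hA
  have hdet : (A - s • (1 : Matrix (Fin 3) (Fin 3) ℝ)).det = 0 := by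
    apply Matrix.exists_mulVec_eq_zero_iff.mp
    refine ⟨v, ?_, ?_⟩
    · intro h0
      have := hv 0
      rw [h0] at this
      simp at this
    · ext k
      have hk := h k
      rw [Matrix.sub_mulVec, Matrix.smul_mulVec, Matrix.one_mulVec]
      simp only [Pi.sub_apply, Pi.smul_apply, smul_eq_mul, Pi.zero_apply]
      have : A.mulVec v k = ∑ l, (M k l : ℝ) * v l := by
        simp [Matrix.mulVec, dotProduct, hA]
      rw [this, hk]
      ring
  have hdet' : (A + s • (1 : Matrix (Fin 3) (Fin 3) ℝ)).det = 0 := by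
    rw [Matrix.det_fin_three] at hdet ⊢
    simp only [Matrix.sub_apply, Matrix.add_apply, Matrix.smul_apply, Matrix.one_apply, hA, smul_eq_mul, Matrix.of_apply] at hdet ⊢
    have n12 : ((1 : Fin 3) = 2) = False := by simp
    have n21 : ((2 : Fin 3) = 1) = False := by simp
    have n20 : ((2 : Fin 3) = 0) = False := by simp
    have n02 : ((0 : Fin 3) = 2) = False := by simp
    have n10 : ((1 : Fin 3) = 0) = False := by simp
    have n01 : ((0 : Fin 3) = 1) = False := by simp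
    simp only [n12, n21, n20, n02, n10, n01, if_false, if_true, mul_zero, mul_one, sub_zero, add_zero] at hdet ⊢
    -- integers
    set a : ℤ := (M 0 0 : ℤ) + M 1 1 + M 2 2 with ha
    set b : ℤ := (M 0 0 : ℤ) * M 1 1 + (M 0 0 : ℤ) * M 2 2 + (M 1 1 : ℤ) * M 2 2
      - (M 0 1 : ℤ) * M 1 0 - (M 0 2 : ℤ) * M 2 0 - (M 1 2 : ℤ) * M 2 1 with hb
    set c : ℤ := (M 0 0 : ℤ) * M 1 1 * M 2 2 - (M 0 0 : ℤ) * M 1 2 * M 2 1 - (M 0 1 : ℤ) * M 1 0 * M 2 2
      + (M 0 1 : ℤ) * M 1 2 * M 2 0 + (M 0 2 : ℤ) * M 1 0 * M 2 1 - (M 0 2 : ℤ) * M 1 1 * M 2 0 with hc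
    have e1 : ((-(N : ℤ) - b : ℤ) : ℝ) * s + (((N : ℤ) * a + c : ℤ) : ℝ) = 0 := by
      have hs3 : s * s * s = (N : ℝ) * s := by rw [hs2]
      rw [ha, hb, hc]
      push_cast
      linear_combination hdet + (-(M 0 0 : ℝ) - M 1 1 - M 2 2 + s) * hs2
    have e2 : (-(N : ℤ) - b : ℤ) = 0 := by
      by_contra hne
      have h1 : s = ((-((N : ℤ) * a + c : ℤ) : ℚ) / ((-(N : ℤ) - b : ℤ) : ℚ) : ℚ) := by
        have hne' : ((-(N : ℤ) - b : ℤ) : ℝ) ≠ 0 := by exact_mod_cast hne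
        push_cast at e1 hne' ⊢
        field_simp
        linarith
      exact hirr ⟨_, h1.symm⟩
    have e3 : ((N : ℤ) * a + c : ℤ) = 0 := by
      rw [e2] at e1
      have : (((N : ℤ) * a + c : ℤ) : ℝ) = 0 := by simpa using e1
      exact_mod_cast this
    have e4 : -((-(N : ℤ) - b : ℤ) : ℝ) * s + (((N : ℤ) * a + c : ℤ) : ℝ) = 0 := by
      rw [e2, e3]; simp
    rw [ha, hb, hc] at e4
    push_cast at e4
    linear_combination e4 + ((M 0 0 : ℝ) + M 1 1 + M 2 2 + s) * hs2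
  obtain ⟨w, hw0, hw⟩ := Matrix.exists_mulVec_eq_zero_iff.mpr hdet'
  have hw' : ∀ k, ∑ l, (M k l : ℝ) * w l = - s * w k := by
    intro k
    have := congrFun hw k
    rw [Matrix.add_mulVec, Matrix.smul_mulVec, Matrix.one_mulVec] at this
    simp only [Pi.add_apply, Pi.smul_apply, smul_eq_mul, Pi.zero_apply] at this
    have h2 : A.mulVec w k = ∑ l, (M k l : ℝ) * w l := by
      simp [Matrix.mulVec, dotProduct, hA]
    rw [h2] at this
    linarith
  obtain ⟨k0, hk0⟩ := Finite.exists_max (fun k => |w k| / v k)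
  set r : ℝ := |w k0| / v k0 with hr
  have hle : ∀ k, |w k| ≤ r * v k := by
    intro k
    have := hk0 k
    rwa [div_le_iff₀ (hv k)] at this
  have hrpos : 0 < r := by
    obtain ⟨k, hk⟩ : ∃ k, w k ≠ 0 := by
      by_contra hcon
      push Not at hcon
      exact hw0 (funext hcon)
    have h1 := hle k
    have h2 : 0 < |w k| := abs_pos.mpr hk
    have h3 : 0 < r * v k := lt_of_lt_of_le h2 h1
    exact pos_of_mul_pos_left h3 (hv k).le
  refine ⟨Finset.univ.filter (fun k => |w k| = r * v k), fun k => decide (0 < w k), ⟨k0, ?_⟩, ?_⟩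
  · simp only [Finset.mem_filter, Finset.mem_univ, true_and]
    rw [hr]
    field_simp [(hv k0).ne']
  · intro k hk l hl
    simp only [Finset.mem_filter, Finset.mem_univ, true_and] at hk ⊢
    have hkp : 0 < r * v k := mul_pos hrpos (hv k)
    have hlp : 0 < r * v l := mul_pos hrpos (hv l)
    have hMl : (0 : ℝ) < M k l := by exact_mod_cast hl
    rcases lt_or_ge 0 (w k) with hpos | hneg
    · have hwk : w k = r * v k := by rwa [abs_of_pos hpos] at hk
      have hsum : ∑ l, (M k l : ℝ) * (w l + r * v l) = 0 := by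
        have : ∑ l, (M k l : ℝ) * (w l + r * v l) = ∑ l, (M k l : ℝ) * w l + r * ∑ l, (M k l : ℝ) * v l := by
          rw [Finset.mul_sum, ← Finset.sum_add_distrib]
          exact Finset.sum_congr rfl (fun l _ => by ring)
        rw [this, hw' k, h k, hwk]
        ring
      have hz := (Finset.sum_eq_zero_iff_of_nonneg (fun i _ => mul_nonneg (Nat.cast_nonneg _) (by
        have := neg_abs_le (w i); have := hle i; linarith))).mp hsum l (Finset.mem_univ l)
      have hz2 : w l + r * v l = 0 := by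
        rcases mul_eq_zero.mp hz with h1 | h1
        · exact absurd h1 hMl.ne'
        · exact h1
      have hwl : w l < 0 := by linarith
      refine ⟨?_, ?_⟩
      · rw [abs_of_neg hwl]; linarith
      · simp [hpos, not_lt.mpr hwl.le]
    · have hwk : w k = - (r * v k) := by
        rw [abs_of_nonpos hneg] at hk; linarith
      have hsum : ∑ l, (M k l : ℝ) * (r * v l - w l) = 0 := by
        have : ∑ l, (M k l : ℝ) * (r * v l - w l) = r * ∑ l, (M k l : ℝ) * v l - ∑ l, (M k l : ℝ) * w l := by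
          rw [Finset.mul_sum, ← Finset.sum_sub_distrib]
          exact Finset.sum_congr rfl (fun l _ => by ring)
        rw [this, hw' k, h k, hwk]
        ring
      have hz := (Finset.sum_eq_zero_iff_of_nonneg (fun i _ => mul_nonneg (Nat.cast_nonneg _) (by
        have := le_abs_self (w i); have := hle i; linarith))).mp hsum l (Finset.mem_univ l)
      have hz2 : r * v l - w l = 0 := by
        rcases mul_eq_zero.mp hz with h1 | h1
        · exact absurd h1 hMl.ne'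
        · exact h1
      have hwl : 0 < w l := by linarith
      refine ⟨?_, ?_⟩
      · rw [abs_of_pos hwl]; linarith
      · simp [hwl, not_lt.mpr hneg]

theorem row_pos_7924 (N : ℕ) (hN : ¬ IsSquare N) (M : Fin 3 → Fin 3 → ℕ) (v : Fin 3 → ℝ) (hv : ∀ k, 0 < v k)
    (h : ∀ k, ∑ l, (M k l : ℝ) * v l = Real.sqrt N * v k) (k : Fin 3) : ∃ l, 0 < M k l := by
  by_contra hcon
  push Not at hcon
  have h0 : ∀ l, M k l = 0 := fun l => Nat.le_zero.mp (hcon l)
  have h1 := h k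
  simp only [h0, Nat.cast_zero, zero_mul, Finset.sum_const_zero] at h1
  have h2 : 0 < Real.sqrt N * v k := mul_pos (Real.sqrt_pos.mpr (by exact_mod_cast pos_of_nonsq_7924 hN)) (hv k)
  linarith

/-- TARGET 2 -/
theorem all_good_false_gen (N : ℕ) (hN : ¬ IsSquare N) (M : Fin 3 → Fin 3 → ℕ) (v : Fin 3 → ℝ)
    (hv : ∀ k, 0 < v k)
    (h : ∀ k, ∑ l, (M k l : ℝ) * v l = Real.sqrt N * v k)
    (hgood : ∀ k l, l ≠ k → ∃ l', l' ≠ k ∧ 0 < M l l') : False := by
  obtain ⟨J, e, ⟨k, hk⟩, hJ⟩ := conj_set_gen N hN M v hv h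
  obtain ⟨l, hl⟩ := row_pos_7924 N hN M v hv h k
  obtain ⟨hlJ, hel⟩ := hJ k hk l hl
  have hkl : k ≠ l := fun hh => hel (by rw [hh])
  obtain ⟨m, hml, hm⟩ := hgood l k hkl
  obtain ⟨hmJ, hem⟩ := hJ k hk m hm
  have hmk : m ≠ k := fun hh => hem (by rw [hh])
  obtain ⟨p, hpk, hp⟩ := hgood k m hmk
  obtain ⟨hpJ, hep⟩ := hJ m hmJ p hp
  have hp3 : p = l ∨ p = m := by
    clear hJ hel hem hep hlJ hmJ hpJ hk hl hm hp hgood h hv
    revert k l m p
    decide
  rcases hp3 with rfl | rfl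
  · revert hel hem hep
    cases e k <;> cases e p <;> cases e m <;> simp
  · exact hep rfl

/-- TARGET 3: good corners 0 and 1 only -/
theorem two_good_gen (N : ℕ) (hN : ¬ IsSquare N) (M : Fin 3 → Fin 3 → ℕ) (v : Fin 3 → ℝ)
    (hv : ∀ k, 0 < v k)
    (h : ∀ k, ∑ l, (M k l : ℝ) * v l = Real.sqrt N * v k)
    (hgood : ∀ k l, k ≠ 2 → l ≠ k → ∃ l', l' ≠ k ∧ 0 < M l l')
    (hpyth : v 0 ^ 2 + v 1 ^ 2 = v 2 ^ 2) :
    ∃ m n : ℕ, 0 < m ∧ 0 < n ∧ m ^ 2 + n ^ 2 = N ∧ v 0 * n = v 1 * m := by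
  obtain ⟨J, e, ⟨k0, hk0⟩, hJ⟩ := conj_set_gen N hN M v hv h
  obtain ⟨k, l, hk, hl2, hl⟩ : ∃ k l, k ∈ J ∧ l ≠ 2 ∧ 0 < M k l := by
    obtain ⟨l, hl⟩ := row_pos_7924 N hN M v hv h k0
    by_cases hl2 : l = 2
    · subst hl2
      obtain ⟨h2J, -⟩ := hJ k0 hk0 2 hl
      obtain ⟨l2, hl2⟩ := row_pos_7924 N hN M v hv h 2
      obtain ⟨-, hel⟩ := hJ 2 h2J l2 hl2
      exact ⟨2, l2, h2J, fun hh => hel (by rw [hh]), hl2⟩
    · exact ⟨k0, l, hk0, hl2, hl⟩
  obtain ⟨hlJ, hel⟩ := hJ k hk l hl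
  have hkl : k ≠ l := fun hh => hel (by rw [hh])
  obtain ⟨m, hml, hm⟩ := hgood l k hl2 hkl
  obtain ⟨hmJ, hem⟩ := hJ k hk m hm
  have hmk : m ≠ k := fun hh => hem (by rw [hh])
  by_cases hk2 : k = 2
  · subst hk2
    have hJall : ∀ i, i ∈ J ∧ (i ≠ 2 → e i ≠ e 2) := by
      intro i
      have hi : i = l ∨ i = m ∨ i = 2 := by
        clear hJ hel hem hlJ hmJ hk hl hm hgood h hv hpyth
        revert l m i
        decide
      rcases hi with rfl | rfl | rfl
      · exact ⟨hlJ, fun _ => hel⟩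
      · exact ⟨hmJ, fun _ => hem⟩
      · exact ⟨hk, fun hh => absurd rfl hh⟩
    have hz : ∀ i j, i ≠ 2 → j ≠ 2 → M i j = 0 := by
      intro i j hi hj
      by_contra hne
      have h1 := (hJ i (hJall i).1 j (Nat.pos_of_ne_zero hne)).2
      have h2 := (hJall i).2 hi
      have h3 := (hJall j).2 hj
      revert h1 h2 h3
      cases e i <;> cases e j <;> cases e 2 <;> simp
    have h0 := h 0
    have h1 := h 1
    rw [Fin.sum_univ_three] at h0 h1
    rw [hz 0 0 (by decide) (by decide), hz 0 1 (by decide) (by decide)] at h0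
    rw [hz 1 0 (by decide) (by decide), hz 1 1 (by decide) (by decide)] at h1
    simp only [Nat.cast_zero, zero_mul, zero_add] at h0 h1
    have hs2 : Real.sqrt N * Real.sqrt N = (N : ℝ) := Real.mul_self_sqrt (Nat.cast_nonneg N)
    have hfin : ((M 0 2 : ℝ) ^ 2 + (M 1 2 : ℝ) ^ 2) * v 2 ^ 2 = (N : ℝ) * v 2 ^ 2 := by
      have e0 : ((M 0 2 : ℝ) * v 2) ^ 2 = (N : ℝ) * v 0 ^ 2 := by rw [h0, mul_pow, sq (Real.sqrt N), hs2]
      have e1 : ((M 1 2 : ℝ) * v 2) ^ 2 = (N : ℝ) * v 1 ^ 2 := by rw [h1, mul_pow, sq (Real.sqrt N), hs2]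
      rw [← hpyth]
      nlinarith [e0, e1, hpyth]
    have hv2 : v 2 ^ 2 ≠ 0 := pow_ne_zero _ (hv 2).ne'
    have hfin2 := mul_right_cancel₀ hv2 hfin
    have hfin3 : (M 0 2) ^ 2 + (M 1 2) ^ 2 = N := by exact_mod_cast hfin2
    have hsp : 0 < Real.sqrt N := Real.sqrt_pos.mpr (by exact_mod_cast pos_of_nonsq_7924 hN)
    have hp0 : (0 : ℝ) < M 0 2 := by
      have h5 : 0 < (M 0 2 : ℝ) * v 2 := by rw [h0]; exact mul_pos hsp (hv 0)
      exact pos_of_mul_pos_left h5 (hv 2).le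
    have hp1 : (0 : ℝ) < M 1 2 := by
      have h5 : 0 < (M 1 2 : ℝ) * v 2 := by rw [h1]; exact mul_pos hsp (hv 1)
      exact pos_of_mul_pos_left h5 (hv 2).le
    refine ⟨M 0 2, M 1 2, by exact_mod_cast hp0, by exact_mod_cast hp1, hfin3, ?_⟩
    have h6 : Real.sqrt N * (v 0 * (M 1 2 : ℝ)) = Real.sqrt N * (v 1 * (M 0 2 : ℝ)) := by
      calc Real.sqrt N * (v 0 * (M 1 2 : ℝ)) = (Real.sqrt N * v 0) * (M 1 2 : ℝ) := by ring
        _ = ((M 0 2 : ℝ) * v 2) * (M 1 2 : ℝ) := by rw [h0]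
        _ = ((M 1 2 : ℝ) * v 2) * (M 0 2 : ℝ) := by ring
        _ = (Real.sqrt N * v 1) * (M 0 2 : ℝ) := by rw [h1]
        _ = Real.sqrt N * (v 1 * (M 0 2 : ℝ)) := by ring
    exact mul_left_cancel₀ hsp.ne' h6
  · exfalso
    obtain ⟨p, hpk, hp⟩ := hgood k m hk2 hmk
    obtain ⟨hpJ, hep⟩ := hJ m hmJ p hp
    have hp3 : p = l ∨ p = m := by
      clear hJ hel hem hep hlJ hmJ hpJ hk hl hm hp hgood h hv hk2 hl2 hpyth
      revert k l m p
      decide
    rcases hp3 with rfl | rfl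
    · revert hel hem hep
      cases e k <;> cases e p <;> cases e m <;> simp
    · exact hep rfl

/-- TARGET 4: tile similar to T with one tile per corner -/
theorem shapeG_gen {N : ℕ} (hN : ¬ IsSquare N) {ℓ θ S A : Fin 3 → ℝ} {β : Fin 3 → Fin 3 → ℕ}
    (h : Data N ℓ θ S A ![![1,0,0],![0,1,0],![0,0,1]] β) : False := by
  have hA : ∀ j, A j = θ j := by
    intro j
    rw [h.angles j]
    fin_cases j <;> simp [Fin.sum_univ_three]
  have hsin : ∀ k, 0 < Real.sin (θ k) := by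
    intro k
    apply Real.sin_pos_of_pos_of_lt_pi (h.tpos k)
    have h1 := h.tsum
    have h2 := h.tpos 0
    have h3 := h.tpos 1
    have h4 := h.tpos 2
    fin_cases k
    · simp only [Fin.zero_eta]; linarith
    · simp only [Fin.mk_one]; linarith
    · simp only [Fin.reduceFinMk]; linarith
  obtain ⟨ρ, hρ⟩ : ∃ ρ, ρ = S 0 / ℓ 0 := ⟨_, rfl⟩
  have hρpos : 0 < ρ := by rw [hρ]; exact div_pos (h.Spos 0) (h.lpos 0)
  have hS0 : S 0 = ρ * ℓ 0 := by
    rw [hρ, div_mul_cancel₀ _ (h.lpos 0).ne']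
  have hS : ∀ j, S j = ρ * ℓ j := by
    intro j
    have h1 := h.sineT j 0
    have h2 := h.sinet j 0
    rw [hA, hA] at h1
    have h3 : (S j - ρ * ℓ j) * Real.sin (θ 0) = 0 := by
      rw [hS0] at h1
      linear_combination h1 - ρ * h2
    rcases mul_eq_zero.1 h3 with h4 | h4
    · linarith
    · exact absurd h4 (hsin 0).ne'
  have hsq : ρ ^ 2 = (N : ℝ) := by
    have h1 := h.area
    rw [hA, hS 0, hS 1] at h1
    have h2 : (ρ ^ 2 - (N : ℝ)) * (ℓ 0 * ℓ 1 * Real.sin (θ 2)) = 0 := by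
      push_cast at h1
      linear_combination -h1
    rcases mul_eq_zero.1 h2 with h4 | h4
    · linarith
    · exact absurd h4 (mul_pos (mul_pos (h.lpos 0) (h.lpos 1)) (hsin 2)).ne'
  have hρ19 : Real.sqrt N = ρ := by
    rw [← hsq]
    exact Real.sqrt_sq hρpos.le
  refine all_good_false_gen N hN β ℓ h.lpos ?_ ?_
  · intro k
    rw [hρ19, ← hS k, ← h.side k]
  · intro k l hlk
    obtain ⟨x, y, hxy, hx, hy⟩ := h.corner k l (Ne.symm hlk)
    have hxk : x = k := by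
      revert hx
      fin_cases k <;> fin_cases x <;> simp
    exact ⟨y, by rw [← hxk]; exact hxy.symm, hy⟩

/-- TARGET 5: right tile similar to T -/
theorem shapeC2_gen {N : ℕ} (hN : ¬ IsSquare N) {ℓ θ S A : Fin 3 → ℝ} {β : Fin 3 → Fin 3 → ℕ}
    (h : Data N ℓ θ S A ![![1,0,0],![0,1,0],![1,1,0]] β) :
    A 2 = Real.pi / 2 ∧ ∃ m n : ℕ, 0 < m ∧ 0 < n ∧ m ^ 2 + n ^ 2 = N ∧ S 0 * n = S 1 * m := by
  have a0 := h.angles 0
  have a1 := h.angles 1
  have a2 := h.angles 2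
  simp only [Fin.sum_univ_three, Matrix.cons_val_zero, Matrix.cons_val_one, Matrix.cons_val,
    Nat.cast_one, Nat.cast_zero, one_mul, zero_mul, add_zero, zero_add] at a0 a1 a2
  have hA := h.Asum
  have ht := h.tsum
  have hg : θ 2 = Real.pi / 2 := by linarith
  have hA2 : A 2 = Real.pi / 2 := by linarith
  have hb : θ 1 = Real.pi / 2 - θ 0 := by linarith
  have hsl0 := h.sinet 0 2
  have hsl1 := h.sinet 1 2
  have hsS0 := h.sineT 0 2
  have hsS1 := h.sineT 1 2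
  rw [hg, Real.sin_pi_div_two, mul_one] at hsl0 hsl1
  rw [hA2, Real.sin_pi_div_two, mul_one] at hsS0 hsS1
  rw [a0] at hsS0
  rw [a1] at hsS1
  have hl2 := h.lpos 2
  have hl0 := h.lpos 0
  have hl1 := h.lpos 1
  have hS2 := h.Spos 2
  have har := h.area
  rw [hg, hA2, Real.sin_pi_div_two, mul_one, mul_one] at har
  obtain ⟨ρ, hρ⟩ : ∃ ρ, ρ = S 2 / ℓ 2 := ⟨_, rfl⟩
  have hρpos : 0 < ρ := by rw [hρ]; positivity
  have hr2 : S 2 = ρ * ℓ 2 := by rw [hρ]; field_simp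
  have hr0 : S 0 = ρ * ℓ 0 := by rw [hsS0, hr2, hsl0]; ring
  have hr1 : S 1 = ρ * ℓ 1 := by rw [hsS1, hr2, hsl1]; ring
  have hρ2 : ρ ^ 2 = (N : ℝ) := by
    rw [hr0, hr1] at har
    have h1 : (ρ ^ 2 - (N : ℝ)) * (ℓ 0 * ℓ 1) = 0 := by
      push_cast at har
      linear_combination -har
    rcases mul_eq_zero.1 h1 with h2 | h2
    · linarith
    · exact absurd h2 (by positivity)
  have hρs : ρ = Real.sqrt N := by
    rw [← hρ2, Real.sqrt_sq hρpos.le]
  have hS : ∀ k, S k = ρ * ℓ k := by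
    intro k
    fin_cases k
    · exact hr0
    · exact hr1
    · exact hr2
  have key : ∃ m n : ℕ, 0 < m ∧ 0 < n ∧ m ^ 2 + n ^ 2 = N ∧ ℓ 0 * n = ℓ 1 * m := by
    refine two_good_gen N hN β ℓ h.lpos (fun k => ?_) (fun k l hk hlk => ?_) ?_
    · rw [← h.side k, hS k, hρs]
    · obtain ⟨x, y, hxy, hx, hy⟩ := h.corner k l (Ne.symm hlk)
      refine ⟨y, ?_, hy⟩
      have hxk : x = k := by
        revert hx hk
        clear hy hxy hlk
        revert k x
        decide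
      rw [← hxk]
      exact Ne.symm hxy
    · rw [hsl0, hsl1, hb, Real.sin_pi_div_two_sub]
      have := Real.sin_sq_add_cos_sq (θ 0)
      linear_combination (ℓ 2) ^ 2 * this
  obtain ⟨m, n, hm, hn, hmn, h7⟩ := key
  refine ⟨hA2, m, n, hm, hn, hmn, ?_⟩
  rw [hr0, hr1, mul_assoc, h7, mul_assoc]

end Pool.Agent.Helper549.Tri.SqG
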