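import Mathlib
import Pool.Agent.Helper549.Tri.DataDef
set_option autoImplicit false
noncomputable section
open scoped BigOperators

namespace Pool.Agent.Helper549.Tri

theorem law_cos' {a b c x y z : ℝ} (hx : 0 < Real.sin z) (hxyz : x + y + z = Real.pi)
    (h1 : a * Real.sin z = c * Real.sin x) (h2 : b * Real.sin z = c * Real.sin y) :
    c ^ 2 = a ^ 2 + b ^ 2 - 2 * a * b * Real.cos z := by
  have hz : z = Real.pi - (x + y) := by linarith
  have hs : Real.sin z = Real.sin x * Real.cos y + Real.cos x * Real.sin y := by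
    rw [hz, Real.sin_pi_sub, Real.sin_add]
  have hc : Real.cos z = -(Real.cos x * Real.cos y - Real.sin x * Real.sin y) := by
    rw [hz, Real.cos_pi_sub, Real.cos_add]
  have e : Real.sin z ^ 2 = Real.sin x ^ 2 + Real.sin y ^ 2 - 2 * Real.sin x * Real.sin y * Real.cos z := by
    rw [hs, hc]
    have e1 := Real.sin_sq_add_cos_sq x
    have e2 := Real.sin_sq_add_cos_sq y
    have e3 : Real.cos x ^ 2 = 1 - Real.sin x ^ 2 := by linarith
    have e4 : Real.cos y ^ 2 = 1 - Real.sin y ^ 2 := by linarith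
    linear_combination (Real.sin x ^ 2) * e4 + (Real.sin y ^ 2) * e3
  have h3 : Real.sin z ^ 2 * c ^ 2 = Real.sin z ^ 2 * (a ^ 2 + b ^ 2 - 2 * a * b * Real.cos z) := by
    calc Real.sin z ^ 2 * c ^ 2 = (Real.sin x ^ 2 + Real.sin y ^ 2 - 2 * Real.sin x * Real.sin y * Real.cos z) * c ^ 2 := by rw [e]
      _ = (c * Real.sin x) ^ 2 + (c * Real.sin y) ^ 2 - 2 * (c * Real.sin x) * (c * Real.sin y) * Real.cos z := by ring
      _ = (a * Real.sin z) ^ 2 + (b * Real.sin z) ^ 2 - 2 * (a * Real.sin z) * (b * Real.sin z) * Real.cos z := by rw [h1, h2]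
      _ = _ := by ring
  exact mul_left_cancel₀ (pow_ne_zero 2 hx.ne') h3

theorem tri_aux' {a b c x y z : ℝ} (ha : 0 < a) (hb : 0 < b) (hx : 0 < Real.sin z)
    (hxyz : x + y + z = Real.pi)
    (h1 : a * Real.sin z = c * Real.sin x) (h2 : b * Real.sin z = c * Real.sin y) : c < a + b := by
  have h3 := law_cos' hx hxyz h1 h2
  have h4 : -1 < Real.cos z := by
    have := Real.sin_sq_add_cos_sq z
    nlinarith
  have hab := mul_pos ha hb
  apply lt_of_pow_lt_pow_left₀ 2 (by positivity)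
  rw [h3]
  nlinarith

theorem fin_aux' {N : ℕ} (hN : ¬ IsSquare N) {ρ t : ℝ} {M : ℤ} (h1 : ρ ^ 2 = N) (ht : 0 < t)
    (h2 : ρ * t = M * t) : False := by
  have h3 : ρ = M := mul_right_cancel₀ ht.ne' h2
  rw [h3] at h1
  have h4 : M ^ 2 = N := by exact_mod_cast h1
  apply hN
  refine ⟨M.natAbs, ?_⟩
  have h5 : ((M.natAbs * M.natAbs : ℕ) : ℤ) = N := by
    rw [← h4]
    push_cast
    rw [← abs_mul, abs_of_nonneg (mul_self_nonneg M)]
    ring
  exact_mod_cast h5.symm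

section

variable {N : ℕ} {ℓ θ S A : Fin 3 → ℝ} {κ β : Fin 3 → Fin 3 → ℕ}

theorem Data.lt_pi (h : Data N ℓ θ S A κ β) (k : Fin 3) : θ k < Real.pi := by
  have h0 := h.tpos 0
  have h1 := h.tpos 1
  have h2 := h.tpos 2
  have h3 := h.tsum
  fin_cases k
  · show θ 0 < Real.pi
    linarith
  · show θ 1 < Real.pi
    linarith
  · show θ 2 < Real.pi
    linarith

theorem Data.sin_pos (h : Data N ℓ θ S A κ β) (k : Fin 3) : 0 < Real.sin (θ k) :=
  Real.sin_pos_of_pos_of_lt_pi (h.tpos k) (h.lt_pi k)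

theorem Data.tri2 (h : Data N ℓ θ S A κ β) : ℓ 2 < ℓ 0 + ℓ 1 :=
  tri_aux' (h.lpos 0) (h.lpos 1) (h.sin_pos 2) h.tsum (h.sinet 0 2) (h.sinet 1 2)

theorem Data.tri0 (h : Data N ℓ θ S A κ β) : ℓ 0 < ℓ 1 + ℓ 2 :=
  tri_aux' (h.lpos 1) (h.lpos 2) (h.sin_pos 0) (by linarith [h.tsum]) (h.sinet 1 0) (h.sinet 2 0)

theorem Data.tri1 (h : Data N ℓ θ S A κ β) : ℓ 1 < ℓ 0 + ℓ 2 :=
  tri_aux' (h.lpos 0) (h.lpos 2) (h.sin_pos 1) (by linarith [h.tsum]) (h.sinet 0 1) (h.sinet 2 1)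

/-- proportionality -/
theorem Data.prop (h : Data N ℓ θ S A κ β) (hA2 : A 2 = θ 2) (i j : Fin 3) (hA : A i = θ j) :
    S i = S 2 / ℓ 2 * ℓ j := by
  have h1 := h.sineT i 2
  rw [hA2, hA] at h1
  have h2 := h.sinet j 2
  have h3 := h.lpos 2
  have h4 := h.sin_pos 2
  apply mul_right_cancel₀ h4.ne'
  rw [h1, mul_assoc, h2]
  field_simp

theorem Data.rho_sq (h : Data N ℓ θ S A κ β) (hA2 : A 2 = θ 2)
    (hS : S 0 * S 1 = (S 2 / ℓ 2) ^ 2 * (ℓ 0 * ℓ 1)) : (S 2 / ℓ 2) ^ 2 = N := by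
  have h1 := h.area
  rw [hA2, hS] at h1
  have h2 := h.sin_pos 2
  have h3 : 0 < ℓ 0 * ℓ 1 * Real.sin (θ 2) := mul_pos (mul_pos (h.lpos 0) (h.lpos 1)) h2
  apply mul_right_cancel₀ h3.ne'
  linear_combination -h1

end
/-- TARGET 1 -/

theorem shapeB1_gen {N : ℕ} (hN : ¬ IsSquare N) {ℓ θ S A : Fin 3 → ℝ} {β : Fin 3 → Fin 3 → ℕ}
    (h : Data N ℓ θ S A ![![2,0,0],![1,0,0],![0,0,1]] β) : False := by
  have hA0 : A 0 = 2 * θ 0 := by
    have := h.angles 0
    simpa [Fin.sum_univ_three] using this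
  have hA1 : A 1 = θ 0 := by
    have := h.angles 1
    simpa [Fin.sum_univ_three] using this
  have hA2 : A 2 = θ 2 := by
    have := h.angles 2
    simpa [Fin.sum_univ_three] using this
  have hA0' : A 0 = θ 1 := by
    have := h.Asum
    have := h.tsum
    linarith
  have p0 := h.prop hA2 0 1 hA0'
  have p1 := h.prop hA2 1 0 hA1
  have p2 := h.prop hA2 2 2 hA2
  have hr := h.rho_sq hA2 (by rw [p0, p1]; ring)
  obtain ⟨M, -, -, hM, -⟩ := h.char ![1, 1, -1] (by intro k; fin_cases k <;> simp) (by simp)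
    ⟨1, by simp [Fin.sum_univ_three]⟩ (by simp [Fin.sum_univ_three, Fin.prod_univ_three])
  simp [Fin.sum_univ_three, Fin.prod_univ_three] at hM
  have ht : 0 < ℓ 0 + ℓ 1 - ℓ 2 := by linarith [h.tri2]
  refine fin_aux' hN hr ht (M := M) ?_
  rw [p0, p1] at hM
  linear_combination hM + p2

/-- TARGET 2 -/
theorem shapeD4_gen {N : ℕ} (hN : ¬ IsSquare N) {ℓ θ S A : Fin 3 → ℝ} {β : Fin 3 → Fin 3 → ℕ}
    (h : Data N ℓ θ S A ![![1,0,0],![0,1,0],![2,1,0]] β) : False := by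
  have hA0 : A 0 = θ 0 := by
    have := h.angles 0
    simpa [Fin.sum_univ_three] using this
  have hA1 : A 1 = θ 1 := by
    have := h.angles 1
    simpa [Fin.sum_univ_three] using this
  have hA2 : A 2 = θ 2 := by
    have := h.Asum
    have := h.tsum
    linarith
  have p0 := h.prop hA2 0 0 hA0
  have p1 := h.prop hA2 1 1 hA1
  have p2 := h.prop hA2 2 2 hA2
  have hr := h.rho_sq hA2 (by rw [p0, p1]; ring)
  obtain ⟨M, -, -, hM, -⟩ := h.char ![-1, 1, 1] (by intro k; fin_cases k <;> simp) (by simp)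
    ⟨2, by simp [Fin.sum_univ_three]⟩ (by simp [Fin.sum_univ_three, Fin.prod_univ_three]; try norm_num)
  simp [Fin.sum_univ_three, Fin.prod_univ_three] at hM
  have ht : 0 < -ℓ 0 + ℓ 1 + ℓ 2 := by linarith [h.tri0]
  refine fin_aux' hN hr ht (M := M) ?_
  rw [p0, p1] at hM
  linear_combination hM - p2

/-- TARGET 3 -/
theorem shapeE3_gen {N : ℕ} (hN : ¬ IsSquare N) {ℓ θ S A : Fin 3 → ℝ} {β : Fin 3 → Fin 3 → ℕ}
    (h : Data N ℓ θ S A ![![1,0,0],![0,1,0],![2,2,0]] β) : False := by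
  have hA0 : A 0 = θ 0 := by
    have := h.angles 0
    simpa [Fin.sum_univ_three] using this
  have hA1 : A 1 = θ 1 := by
    have := h.angles 1
    simpa [Fin.sum_univ_three] using this
  have hA2 : A 2 = θ 2 := by
    have := h.Asum
    have := h.tsum
    linarith
  have p0 := h.prop hA2 0 0 hA0
  have p1 := h.prop hA2 1 1 hA1
  have p2 := h.prop hA2 2 2 hA2
  have hr := h.rho_sq hA2 (by rw [p0, p1]; ring)
  obtain ⟨M, -, -, hM, -⟩ := h.char ![1, -1, 1] (by intro k; fin_cases k <;> simp) (by simp)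
    ⟨2, by simp [Fin.sum_univ_three]⟩ (by simp [Fin.sum_univ_three, Fin.prod_univ_three]; try norm_num)
  simp [Fin.sum_univ_three, Fin.prod_univ_three] at hM
  have ht : 0 < ℓ 0 - ℓ 1 + ℓ 2 := by linarith [h.tri1]
  refine fin_aux' hN hr ht (M := M) ?_
  rw [p0, p1] at hM
  linear_combination hM - p2

end Pool.Agent.Helper549.Tri
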