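import Mathlib
import Pool.Agent.Helper549.Tri.DataDef
import Pool.Agent.Helper549.Tri.PermX
import Pool.Agent.Helper549.Tri.SqG
import Pool.Agent.Helper549.Tri.SqSim
import Pool.Agent.Helper549.Tri.AlgD
import Pool.Agent.Helper549.Tri.AlgE
set_option autoImplicit false
noncomputable section
open scoped BigOperators

namespace Pool.Agent.Helper549.Tri.SqFinal
open Pool.Agent.Helper549.Tri.SqG Pool.Agent.Helper549.Tri.AlgD Pool.Agent.Helper549.Tri.AlgE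

/-- the conclusion -/
def QQ (N : ℕ) (S A : Fin 3 → ℝ) : Prop :=
    (∃ i j, i ≠ j ∧ A i = A j) ∨
    (∃ i j k, i ≠ j ∧ A k = Real.pi / 2 ∧ i ≠ k ∧ j ≠ k ∧
      ∃ m n : ℕ, 0 < m ∧ 0 < n ∧ m ^ 2 + n ^ 2 = N ∧ S i * n = S j * m) ∨
    ((∀ i j, IsAlgebraic ℚ (S i / S j)) ∧
      ((∃ i j, i ≠ j ∧ A i = 2 * A j) ∨ (∃ i, A i = Real.pi / 3) ∨
       (∃ i j, i ≠ j ∧ A i - A j = Real.pi / 3) ∨
       (∃ i j, i ≠ j ∧ 3 * A i + 4 * A j = 2 * Real.pi)))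

theorem QQ_perm {N : ℕ} {S A : Fin 3 → ℝ} (π : Equiv.Perm (Fin 3))
    (h : QQ N (fun j => S (π j)) (fun j => A (π j))) : QQ N S A := by
  rcases h with ⟨i, j, hij, h⟩ | ⟨i, j, k, h1, h2, h3, h4, h5⟩ | ⟨h1, h2⟩
  · exact Or.inl ⟨π i, π j, π.injective.ne hij, h⟩
  · exact Or.inr (Or.inl ⟨π i, π j, π k, π.injective.ne h1, h2, π.injective.ne h3,
      π.injective.ne h4, h5⟩)
  · refine Or.inr (Or.inr ⟨fun i j => ?_, ?_⟩)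
    · have h3 := h1 (π.symm i) (π.symm j)
      simpa using h3
    · rcases h2 with ⟨i, j, a, b⟩ | ⟨i, a⟩ | ⟨i, j, a, b⟩ | ⟨i, j, a, b⟩
      · exact Or.inl ⟨π i, π j, π.injective.ne a, b⟩
      · exact Or.inr (Or.inl ⟨π i, a⟩)
      · exact Or.inr (Or.inr (Or.inl ⟨π i, π j, π.injective.ne a, b⟩))
      · exact Or.inr (Or.inr (Or.inr ⟨π i, π j, π.injective.ne a, b⟩))

theorem use_gen {N : ℕ} {ℓ θ S A : Fin 3 → ℝ} {κ β : Fin 3 → Fin 3 → ℕ}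
    (h : Data N ℓ θ S A κ β) (π τ : Equiv.Perm (Fin 3)) (M : Fin 3 → Fin 3 → ℕ)
    (hk : (fun j k => κ (π j) (τ k)) = M) :
    Data N (fun k => ℓ (τ k)) (fun k => θ (τ k)) (fun j => S (π j)) (fun j => A (π j)) M
      (fun j k => β (π j) (τ k)) := by
  have h1 := (h.perm_corners π).perm_types τ
  rw [← hk]
  exact h1

section shapesQQ

variable {N : ℕ} {ℓ θ S A : Fin 3 → ℝ} {κ β : Fin 3 → Fin 3 → ℕ}

theorem QQ_G (hN : ¬ IsSquare N) (h : Data N ℓ θ S A ![![1,0,0],![0,1,0],![0,0,1]] β) : QQ N S A :=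
  (shapeG_gen hN h).elim

theorem QQ_B1 (hN : ¬ IsSquare N) (h : Data N ℓ θ S A ![![2,0,0],![1,0,0],![0,0,1]] β) : QQ N S A :=
  (shapeB1_gen hN h).elim

theorem QQ_D4 (hN : ¬ IsSquare N) (h : Data N ℓ θ S A ![![1,0,0],![0,1,0],![2,1,0]] β) : QQ N S A :=
  (shapeD4_gen hN h).elim

theorem QQ_E3 (hN : ¬ IsSquare N) (h : Data N ℓ θ S A ![![1,0,0],![0,1,0],![2,2,0]] β) : QQ N S A :=
  (shapeE3_gen hN h).elim

theorem QQ_C2 (hN : ¬ IsSquare N) (h : Data N ℓ θ S A ![![1,0,0],![0,1,0],![1,1,0]] β) : QQ N S A := by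
  obtain ⟨h1, h2⟩ := shapeC2_gen hN h
  exact Or.inr (Or.inl ⟨0, 1, 2, by decide, h1, by decide, by decide, h2⟩)

theorem QQ_D2 (_hN : ¬ IsSquare N) (h : Data N ℓ θ S A ![![1,0,0],![2,0,0],![0,2,0]] β) : QQ N S A := by
  refine Or.inr (Or.inr ⟨shapeD2_alg h, Or.inl ⟨1, 0, by decide, ?_⟩⟩)
  have h0 := h.angles 0
  have h1 := h.angles 1
  simp [Fin.sum_univ_three] at h0 h1
  linarith

theorem QQ_D5 (_hN : ¬ IsSquare N) (h : Data N ℓ θ S A ![![2,0,0],![0,1,0],![1,1,0]] β) : QQ N S A := by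
  refine Or.inr (Or.inr ⟨shapeD5_alg h, Or.inr (Or.inr (Or.inr ⟨0, 1, by decide, ?_⟩))⟩)
  have h0 := h.angles 0
  have h1 := h.angles 1
  have h2 := h.angles 2
  have hs := h.Asum
  simp [Fin.sum_univ_three] at h0 h1 h2
  linarith

theorem QQ_E2 (_hN : ¬ IsSquare N) (h : Data N ℓ θ S A ![![1,0,0],![1,1,0],![1,2,0]] β) : QQ N S A := by
  refine Or.inr (Or.inr ⟨shapeE2_alg h, Or.inr (Or.inl ⟨1, ?_⟩)⟩)
  have h0 := h.angles 0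
  have h1 := h.angles 1
  have h2 := h.angles 2
  have hs := h.Asum
  simp [Fin.sum_univ_three] at h0 h1 h2
  linarith

theorem QQ_E4 (_hN : ¬ IsSquare N) (h : Data N ℓ θ S A ![![1,0,0],![2,0,0],![0,3,0]] β) : QQ N S A := by
  refine Or.inr (Or.inr ⟨shapeE4_alg h, Or.inl ⟨1, 0, by decide, ?_⟩⟩)
  have h0 := h.angles 0
  have h1 := h.angles 1
  simp [Fin.sum_univ_three] at h0 h1
  linarith

theorem QQ_E5 (_hN : ¬ IsSquare N) (h : Data N ℓ θ S A ![![1,0,0],![2,1,0],![0,2,0]] β) : QQ N S A := by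
  refine Or.inr (Or.inr ⟨shapeE5_alg h, Or.inr (Or.inr (Or.inl ⟨1, 0, by decide, ?_⟩))⟩)
  have h0 := h.angles 0
  have h1 := h.angles 1
  have h2 := h.angles 2
  have hs := h.Asum
  simp [Fin.sum_univ_three] at h0 h1 h2
  linarith

theorem QQ_E6 (_hN : ¬ IsSquare N) (h : Data N ℓ θ S A ![![2,0,0],![1,1,0],![0,2,0]] β) : QQ N S A := by
  refine Or.inr (Or.inr ⟨shapeE6_alg h, Or.inr (Or.inl ⟨1, ?_⟩)⟩)
  have h0 := h.angles 0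
  have h1 := h.angles 1
  have h2 := h.angles 2
  have hs := h.Asum
  simp [Fin.sum_univ_three] at h0 h1 h2
  linarith

theorem mat_eq (a0 b0 c0 a1 b1 c1 a2 b2 c2 : ℕ) (h00 : κ 0 0 = a0) (h01 : κ 0 1 = b0)
    (h02 : κ 0 2 = c0) (h10 : κ 1 0 = a1) (h11 : κ 1 1 = b1) (h12 : κ 1 2 = c1)
    (h20 : κ 2 0 = a2) (h21 : κ 2 1 = b2) (h22 : κ 2 2 = c2) :
    κ = ![![a0, b0, c0], ![a1, b1, c1], ![a2, b2, c2]] := by
  funext j k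
  fin_cases j <;> fin_cases k <;> simp [*]

theorem rows_eq (h : Data N ℓ θ S A κ β) (i j : Fin 3) (hij : i ≠ j) (h0 : κ i 0 = κ j 0)
    (h1 : κ i 1 = κ j 1) (h2 : κ i 2 = κ j 2) : QQ N S A := by
  refine Or.inl ⟨i, j, hij, ?_⟩
  rw [h.angles i, h.angles j, Fin.sum_univ_three, Fin.sum_univ_three, h0, h1, h2]

theorem cl111 (a0 a1 a2 b0 b1 b2 c0 c1 c2 : ℕ) (ha : a0 + a1 + a2 = 1) (hb : b0 + b1 + b2 = 1)
    (hc : c0 + c1 + c2 = 1) (h0 : 0 < 16 * a0 + 4 * b0 + c0)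
    (h1 : 16 * a0 + 4 * b0 + c0 < 16 * a1 + 4 * b1 + c1)
    (h2 : 16 * a1 + 4 * b1 + c1 < 16 * a2 + 4 * b2 + c2) :
    (a0 = 0 ∧ b0 = 0 ∧ c0 = 1 ∧ a1 = 0 ∧ b1 = 1 ∧ c1 = 0 ∧ a2 = 1 ∧ b2 = 0 ∧ c2 = 0) := by
  have e1 : a0 ≤ 1 := by omega
  have e2 : a1 ≤ 1 := by omega
  have e3 : b0 ≤ 1 := by omega
  have e4 : b1 ≤ 1 := by omega
  have e5 : c0 ≤ 1 := by omega
  have e6 : c1 ≤ 1 := by omega
  obtain rfl : a2 = 1 - a0 - a1 := by omega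
  obtain rfl : b2 = 1 - b0 - b1 := by omega
  obtain rfl : c2 = 1 - c0 - c1 := by omega
  interval_cases a0 <;> interval_cases a1 <;> first | (exfalso; omega) | (interval_cases b0 <;> interval_cases b1 <;> first | (exfalso; omega) | (interval_cases c0 <;> interval_cases c1 <;> first | (exfalso; omega) | simp))

theorem cl201 (a0 a1 a2 b0 b1 b2 c0 c1 c2 : ℕ) (ha : a0 + a1 + a2 = 2) (hb : b0 + b1 + b2 = 0)
    (hc : c0 + c1 + c2 = 1) (h0 : 0 < 16 * a0 + 4 * b0 + c0)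
    (h1 : 16 * a0 + 4 * b0 + c0 < 16 * a1 + 4 * b1 + c1)
    (h2 : 16 * a1 + 4 * b1 + c1 < 16 * a2 + 4 * b2 + c2) :
    False := by
  omega

theorem cl301 (a0 a1 a2 b0 b1 b2 c0 c1 c2 : ℕ) (ha : a0 + a1 + a2 = 3) (hb : b0 + b1 + b2 = 0)
    (hc : c0 + c1 + c2 = 1) (h0 : 0 < 16 * a0 + 4 * b0 + c0)
    (h1 : 16 * a0 + 4 * b0 + c0 < 16 * a1 + 4 * b1 + c1)
    (h2 : 16 * a1 + 4 * b1 + c1 < 16 * a2 + 4 * b2 + c2) :
    (a0 = 0 ∧ b0 = 0 ∧ c0 = 1 ∧ a1 = 1 ∧ b1 = 0 ∧ c1 = 0 ∧ a2 = 2 ∧ b2 = 0 ∧ c2 = 0) := by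
  have e1 : a0 ≤ 3 := by omega
  have e2 : a1 ≤ 3 := by omega
  have e3 : b0 ≤ 0 := by omega
  have e4 : b1 ≤ 0 := by omega
  have e5 : c0 ≤ 1 := by omega
  have e6 : c1 ≤ 1 := by omega
  obtain rfl : a2 = 3 - a0 - a1 := by omega
  obtain rfl : b2 = 0 - b0 - b1 := by omega
  obtain rfl : c2 = 1 - c0 - c1 := by omega
  interval_cases a0 <;> interval_cases a1 <;> first | (exfalso; omega) | (interval_cases b0 <;> interval_cases b1 <;> first | (exfalso; omega) | (interval_cases c0 <;> interval_cases c1 <;> first | (exfalso; omega) | simp))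

theorem cl220 (a0 a1 a2 b0 b1 b2 c0 c1 c2 : ℕ) (ha : a0 + a1 + a2 = 2) (hb : b0 + b1 + b2 = 2)
    (hc : c0 + c1 + c2 = 0) (h0 : 0 < 16 * a0 + 4 * b0 + c0)
    (h1 : 16 * a0 + 4 * b0 + c0 < 16 * a1 + 4 * b1 + c1)
    (h2 : 16 * a1 + 4 * b1 + c1 < 16 * a2 + 4 * b2 + c2) :
    (a0 = 0 ∧ b0 = 1 ∧ c0 = 0 ∧ a1 = 1 ∧ b1 = 0 ∧ c1 = 0 ∧ a2 = 1 ∧ b2 = 1 ∧ c2 = 0) := by
  have e1 : a0 ≤ 2 := by omega
  have e2 : a1 ≤ 2 := by omega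
  have e3 : b0 ≤ 2 := by omega
  have e4 : b1 ≤ 2 := by omega
  have e5 : c0 ≤ 0 := by omega
  have e6 : c1 ≤ 0 := by omega
  obtain rfl : a2 = 2 - a0 - a1 := by omega
  obtain rfl : b2 = 2 - b0 - b1 := by omega
  obtain rfl : c2 = 0 - c0 - c1 := by omega
  interval_cases a0 <;> interval_cases a1 <;> first | (exfalso; omega) | (interval_cases b0 <;> interval_cases b1 <;> first | (exfalso; omega) | (interval_cases c0 <;> interval_cases c1 <;> first | (exfalso; omega) | simp))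

theorem cl320 (a0 a1 a2 b0 b1 b2 c0 c1 c2 : ℕ) (ha : a0 + a1 + a2 = 3) (hb : b0 + b1 + b2 = 2)
    (hc : c0 + c1 + c2 = 0) (h0 : 0 < 16 * a0 + 4 * b0 + c0)
    (h1 : 16 * a0 + 4 * b0 + c0 < 16 * a1 + 4 * b1 + c1)
    (h2 : 16 * a1 + 4 * b1 + c1 < 16 * a2 + 4 * b2 + c2) :
    (a0 = 0 ∧ b0 = 1 ∧ c0 = 0 ∧ a1 = 1 ∧ b1 = 0 ∧ c1 = 0 ∧ a2 = 2 ∧ b2 = 1 ∧ c2 = 0) ∨
    (a0 = 0 ∧ b0 = 1 ∧ c0 = 0 ∧ a1 = 1 ∧ b1 = 1 ∧ c1 = 0 ∧ a2 = 2 ∧ b2 = 0 ∧ c2 = 0) ∨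
    (a0 = 0 ∧ b0 = 2 ∧ c0 = 0 ∧ a1 = 1 ∧ b1 = 0 ∧ c1 = 0 ∧ a2 = 2 ∧ b2 = 0 ∧ c2 = 0) := by
  have e1 : a0 ≤ 3 := by omega
  have e2 : a1 ≤ 3 := by omega
  have e3 : b0 ≤ 2 := by omega
  have e4 : b1 ≤ 2 := by omega
  have e5 : c0 ≤ 0 := by omega
  have e6 : c1 ≤ 0 := by omega
  obtain rfl : a2 = 3 - a0 - a1 := by omega
  obtain rfl : b2 = 2 - b0 - b1 := by omega
  obtain rfl : c2 = 0 - c0 - c1 := by omega
  interval_cases a0 <;> interval_cases a1 <;> first | (exfalso; omega) | (interval_cases b0 <;> interval_cases b1 <;> first | (exfalso; omega) | (interval_cases c0 <;> interval_cases c1 <;> first | (exfalso; omega) | simp))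

theorem cl330 (a0 a1 a2 b0 b1 b2 c0 c1 c2 : ℕ) (ha : a0 + a1 + a2 = 3) (hb : b0 + b1 + b2 = 3)
    (hc : c0 + c1 + c2 = 0) (h0 : 0 < 16 * a0 + 4 * b0 + c0)
    (h1 : 16 * a0 + 4 * b0 + c0 < 16 * a1 + 4 * b1 + c1)
    (h2 : 16 * a1 + 4 * b1 + c1 < 16 * a2 + 4 * b2 + c2) :
    (a0 = 0 ∧ b0 = 1 ∧ c0 = 0 ∧ a1 = 0 ∧ b1 = 2 ∧ c1 = 0 ∧ a2 = 3 ∧ b2 = 0 ∧ c2 = 0) ∨
    (a0 = 0 ∧ b0 = 1 ∧ c0 = 0 ∧ a1 = 1 ∧ b1 = 0 ∧ c1 = 0 ∧ a2 = 2 ∧ b2 = 2 ∧ c2 = 0) ∨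
    (a0 = 0 ∧ b0 = 1 ∧ c0 = 0 ∧ a1 = 1 ∧ b1 = 1 ∧ c1 = 0 ∧ a2 = 2 ∧ b2 = 1 ∧ c2 = 0) ∨
    (a0 = 0 ∧ b0 = 1 ∧ c0 = 0 ∧ a1 = 1 ∧ b1 = 2 ∧ c1 = 0 ∧ a2 = 2 ∧ b2 = 0 ∧ c2 = 0) ∨
    (a0 = 0 ∧ b0 = 2 ∧ c0 = 0 ∧ a1 = 1 ∧ b1 = 0 ∧ c1 = 0 ∧ a2 = 2 ∧ b2 = 1 ∧ c2 = 0) ∨
    (a0 = 0 ∧ b0 = 2 ∧ c0 = 0 ∧ a1 = 1 ∧ b1 = 1 ∧ c1 = 0 ∧ a2 = 2 ∧ b2 = 0 ∧ c2 = 0) ∨
    (a0 = 0 ∧ b0 = 3 ∧ c0 = 0 ∧ a1 = 1 ∧ b1 = 0 ∧ c1 = 0 ∧ a2 = 2 ∧ b2 = 0 ∧ c2 = 0) ∨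
    (a0 = 1 ∧ b0 = 0 ∧ c0 = 0 ∧ a1 = 1 ∧ b1 = 1 ∧ c1 = 0 ∧ a2 = 1 ∧ b2 = 2 ∧ c2 = 0) := by
  have e1 : a0 ≤ 3 := by omega
  have e2 : a1 ≤ 3 := by omega
  have e3 : b0 ≤ 3 := by omega
  have e4 : b1 ≤ 3 := by omega
  have e5 : c0 ≤ 0 := by omega
  have e6 : c1 ≤ 0 := by omega
  obtain rfl : a2 = 3 - a0 - a1 := by omega
  obtain rfl : b2 = 3 - b0 - b1 := by omega
  obtain rfl : c2 = 0 - c0 - c1 := by omega
  interval_cases a0 <;> interval_cases a1 <;> first | (exfalso; omega) | (interval_cases b0 <;> interval_cases b1 <;> first | (exfalso; omega) | (interval_cases c0 <;> interval_cases c1 <;> first | (exfalso; omega) | simp))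

theorem cl003 (a0 a1 a2 b0 b1 b2 c0 c1 c2 : ℕ) (ha : a0 + a1 + a2 = 0) (hb : b0 + b1 + b2 = 0)
    (hc : c0 + c1 + c2 = 3) (h0 : 0 < 16 * a0 + 4 * b0 + c0)
    (h1 : 16 * a0 + 4 * b0 + c0 < 16 * a1 + 4 * b1 + c1)
    (h2 : 16 * a1 + 4 * b1 + c1 < 16 * a2 + 4 * b2 + c2) :
    False := by
  omega

theorem coreQ (hN : ¬ IsSquare N) (h : Data N ℓ θ S A κ β) (P : Fin 3 → ℕ)
    (hP : ∀ k, ∑ j, κ j k = P k)
    (hc : P = ![1, 1, 1] ∨ P = ![2, 0, 1] ∨ P = ![3, 0, 1] ∨ P = ![2, 2, 0] ∨ P = ![3, 2, 0] ∨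
        P = ![3, 3, 0] ∨ P = ![0, 0, 3])
    (m0 : 16 * κ 0 0 + 4 * κ 0 1 + κ 0 2 ≤ 16 * κ 1 0 + 4 * κ 1 1 + κ 1 2)
    (m1 : 16 * κ 1 0 + 4 * κ 1 1 + κ 1 2 ≤ 16 * κ 2 0 + 4 * κ 2 1 + κ 2 2) : QQ N S A := by
  have s0 := hP 0
  have s1 := hP 1
  have s2 := hP 2
  rw [Fin.sum_univ_three] at s0 s1 s2
  have hb : P 0 ≤ 3 ∧ P 1 ≤ 3 ∧ P 2 ≤ 3 := by
    rcases hc with h | h | h | h | h | h | h <;> rw [h] <;> decide
  obtain ⟨hb0, hb1, hb2⟩ := hb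
  have hpos : 0 < 16 * κ 0 0 + 4 * κ 0 1 + κ 0 2 := by
    obtain ⟨k, hk⟩ := h.kpos 0
    fin_cases k
    · have hk' : 0 < κ 0 0 := hk
      omega
    · have hk' : 0 < κ 0 1 := hk
      omega
    · have hk' : 0 < κ 0 2 := hk
      omega
  by_cases q0 : 16 * κ 0 0 + 4 * κ 0 1 + κ 0 2 = 16 * κ 1 0 + 4 * κ 1 1 + κ 1 2
  · exact rows_eq h 0 1 (by decide) (by omega) (by omega) (by omega)
  by_cases q1 : 16 * κ 1 0 + 4 * κ 1 1 + κ 1 2 = 16 * κ 2 0 + 4 * κ 2 1 + κ 2 2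
  · exact rows_eq h 1 2 (by decide) (by omega) (by omega) (by omega)
  have n0 := lt_of_le_of_ne m0 q0
  have n1 := lt_of_le_of_ne m1 q1
  rcases hc with hc | hc | hc | hc | hc | hc | hc
  · have p0 : P 0 = 1 := by rw [hc]; rfl
    have p1 : P 1 = 1 := by rw [hc]; rfl
    have p2 : P 2 = 1 := by rw [hc]; rfl
    rw [p0] at s0
    rw [p1] at s1
    rw [p2] at s2
    rcases cl111 _ _ _ _ _ _ _ _ _ s0 s1 s2 hpos n0 n1 with ⟨h00, h01, h02, h10, h11, h12, h20, h21, h22⟩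
    · have hm := mat_eq (κ := κ) 0 0 1 0 1 0 1 0 0 h00 h01 h02 h10 h11 h12 h20 h21 h22
      exact QQ_perm (Equiv.swap 0 2) (QQ_G hN (use_gen h (Equiv.swap 0 2) 1 _ (by rw [hm]; decide)))
  · have p0 : P 0 = 2 := by rw [hc]; rfl
    have p1 : P 1 = 0 := by rw [hc]; rfl
    have p2 : P 2 = 1 := by rw [hc]; rfl
    rw [p0] at s0
    rw [p1] at s1
    rw [p2] at s2
    exact (cl201 _ _ _ _ _ _ _ _ _ s0 s1 s2 hpos n0 n1).elim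
  · have p0 : P 0 = 3 := by rw [hc]; rfl
    have p1 : P 1 = 0 := by rw [hc]; rfl
    have p2 : P 2 = 1 := by rw [hc]; rfl
    rw [p0] at s0
    rw [p1] at s1
    rw [p2] at s2
    rcases cl301 _ _ _ _ _ _ _ _ _ s0 s1 s2 hpos n0 n1 with ⟨h00, h01, h02, h10, h11, h12, h20, h21, h22⟩
    · have hm := mat_eq (κ := κ) 0 0 1 1 0 0 2 0 0 h00 h01 h02 h10 h11 h12 h20 h21 h22
      exact QQ_perm (Equiv.swap 0 2) (QQ_B1 hN (use_gen h (Equiv.swap 0 2) 1 _ (by rw [hm]; decide)))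
  · have p0 : P 0 = 2 := by rw [hc]; rfl
    have p1 : P 1 = 2 := by rw [hc]; rfl
    have p2 : P 2 = 0 := by rw [hc]; rfl
    rw [p0] at s0
    rw [p1] at s1
    rw [p2] at s2
    rcases cl220 _ _ _ _ _ _ _ _ _ s0 s1 s2 hpos n0 n1 with ⟨h00, h01, h02, h10, h11, h12, h20, h21, h22⟩
    · have hm := mat_eq (κ := κ) 0 1 0 1 0 0 1 1 0 h00 h01 h02 h10 h11 h12 h20 h21 h22
      exact QQ_perm (Equiv.swap 0 1) (QQ_C2 hN (use_gen h (Equiv.swap 0 1) 1 _ (by rw [hm]; decide)))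
  · have p0 : P 0 = 3 := by rw [hc]; rfl
    have p1 : P 1 = 2 := by rw [hc]; rfl
    have p2 : P 2 = 0 := by rw [hc]; rfl
    rw [p0] at s0
    rw [p1] at s1
    rw [p2] at s2
    rcases cl320 _ _ _ _ _ _ _ _ _ s0 s1 s2 hpos n0 n1 with ⟨h00, h01, h02, h10, h11, h12, h20, h21, h22⟩ | ⟨h00, h01, h02, h10, h11, h12, h20, h21, h22⟩ | ⟨h00, h01, h02, h10, h11, h12, h20, h21, h22⟩
    · have hm := mat_eq (κ := κ) 0 1 0 1 0 0 2 1 0 h00 h01 h02 h10 h11 h12 h20 h21 h22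
      exact QQ_perm (Equiv.swap 0 1) (QQ_D4 hN (use_gen h (Equiv.swap 0 1) 1 _ (by rw [hm]; decide)))
    · have hm := mat_eq (κ := κ) 0 1 0 1 1 0 2 0 0 h00 h01 h02 h10 h11 h12 h20 h21 h22
      exact QQ_perm (finRotate 3)⁻¹ (QQ_D5 hN (use_gen h (finRotate 3)⁻¹ 1 _ (by rw [hm]; decide)))
    · have hm := mat_eq (κ := κ) 0 2 0 1 0 0 2 0 0 h00 h01 h02 h10 h11 h12 h20 h21 h22
      exact QQ_perm (finRotate 3) (QQ_D2 hN (use_gen h (finRotate 3) 1 _ (by rw [hm]; decide)))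
  · have p0 : P 0 = 3 := by rw [hc]; rfl
    have p1 : P 1 = 3 := by rw [hc]; rfl
    have p2 : P 2 = 0 := by rw [hc]; rfl
    rw [p0] at s0
    rw [p1] at s1
    rw [p2] at s2
    rcases cl330 _ _ _ _ _ _ _ _ _ s0 s1 s2 hpos n0 n1 with ⟨h00, h01, h02, h10, h11, h12, h20, h21, h22⟩ | ⟨h00, h01, h02, h10, h11, h12, h20, h21, h22⟩ | ⟨h00, h01, h02, h10, h11, h12, h20, h21, h22⟩ | ⟨h00, h01, h02, h10, h11, h12, h20, h21, h22⟩ | ⟨h00, h01, h02, h10, h11, h12, h20, h21, h22⟩ | ⟨h00, h01, h02, h10, h11, h12, h20, h21, h22⟩ | ⟨h00, h01, h02, h10, h11, h12, h20, h21, h22⟩ | ⟨h00, h01, h02, h10, h11, h12, h20, h21, h22⟩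
    · have hm := mat_eq (κ := κ) 0 1 0 0 2 0 3 0 0 h00 h01 h02 h10 h11 h12 h20 h21 h22
      exact QQ_perm 1 (QQ_E4 hN (use_gen h 1 (Equiv.swap 0 1) _ (by rw [hm]; decide)))
    · have hm := mat_eq (κ := κ) 0 1 0 1 0 0 2 2 0 h00 h01 h02 h10 h11 h12 h20 h21 h22
      exact QQ_perm (Equiv.swap 0 1) (QQ_E3 hN (use_gen h (Equiv.swap 0 1) 1 _ (by rw [hm]; decide)))
    · have hm := mat_eq (κ := κ) 0 1 0 1 1 0 2 1 0 h00 h01 h02 h10 h11 h12 h20 h21 h22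
      exact QQ_perm 1 (QQ_E2 hN (use_gen h 1 (Equiv.swap 0 1) _ (by rw [hm]; decide)))
    · have hm := mat_eq (κ := κ) 0 1 0 1 2 0 2 0 0 h00 h01 h02 h10 h11 h12 h20 h21 h22
      exact QQ_perm 1 (QQ_E5 hN (use_gen h 1 (Equiv.swap 0 1) _ (by rw [hm]; decide)))
    · have hm := mat_eq (κ := κ) 0 2 0 1 0 0 2 1 0 h00 h01 h02 h10 h11 h12 h20 h21 h22
      exact QQ_perm (finRotate 3) (QQ_E5 hN (use_gen h (finRotate 3) 1 _ (by rw [hm]; decide)))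
    · have hm := mat_eq (κ := κ) 0 2 0 1 1 0 2 0 0 h00 h01 h02 h10 h11 h12 h20 h21 h22
      exact QQ_perm (Equiv.swap 0 2) (QQ_E6 hN (use_gen h (Equiv.swap 0 2) 1 _ (by rw [hm]; decide)))
    · have hm := mat_eq (κ := κ) 0 3 0 1 0 0 2 0 0 h00 h01 h02 h10 h11 h12 h20 h21 h22
      exact QQ_perm (finRotate 3) (QQ_E4 hN (use_gen h (finRotate 3) 1 _ (by rw [hm]; decide)))
    · have hm := mat_eq (κ := κ) 1 0 0 1 1 0 1 2 0 h00 h01 h02 h10 h11 h12 h20 h21 h22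
      exact QQ_perm 1 (QQ_E2 hN (use_gen h 1 1 _ (by rw [hm]; decide)))
  · have p0 : P 0 = 0 := by rw [hc]; rfl
    have p1 : P 1 = 0 := by rw [hc]; rfl
    have p2 : P 2 = 3 := by rw [hc]; rfl
    rw [p0] at s0
    rw [p1] at s1
    rw [p2] at s2
    exact (cl003 _ _ _ _ _ _ _ _ _ s0 s1 s2 hpos n0 n1).elim

end shapesQQ

/-- TARGET: what a tiling with a nonsquare number of tiles says about the big triangle -/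
theorem sq_final {N : ℕ} (hN : ¬ IsSquare N) {ℓ θ S A : Fin 3 → ℝ} {κ β : Fin 3 → Fin 3 → ℕ}
    (h : Data N ℓ θ S A κ β) (σ : Equiv.Perm (Fin 3)) (P : Fin 3 → ℕ)
    (hP : ∀ k, ∑ j, κ j (σ k) = P k)
    (hc : P = ![1, 1, 1] ∨ P = ![2, 0, 1] ∨ P = ![3, 0, 1] ∨ P = ![2, 2, 0] ∨ P = ![3, 2, 0] ∨
        P = ![3, 3, 0] ∨ P = ![0, 0, 3]) :
    (∃ i j, i ≠ j ∧ A i = A j) ∨
    (∃ i j k, i ≠ j ∧ A k = Real.pi / 2 ∧ i ≠ k ∧ j ≠ k ∧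
      ∃ m n : ℕ, 0 < m ∧ 0 < n ∧ m ^ 2 + n ^ 2 = N ∧ S i * n = S j * m) ∨
    ((∀ i j, IsAlgebraic ℚ (S i / S j)) ∧
      ((∃ i j, i ≠ j ∧ A i = 2 * A j) ∨ (∃ i, A i = Real.pi / 3) ∨
       (∃ i j, i ≠ j ∧ A i - A j = Real.pi / 3) ∨
       (∃ i j, i ≠ j ∧ 3 * A i + 4 * A j = 2 * Real.pi))) := by
  have h2 := h.perm_types σ
  obtain ⟨f, hf⟩ : ∃ f : Fin 3 → ℕ, f = fun j => 16 * κ j (σ 0) + 4 * κ j (σ 1) + κ j (σ 2) :=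
    ⟨_, rfl⟩
  obtain ⟨π, hπ⟩ : ∃ π, π = Tuple.sort f := ⟨_, rfl⟩
  have hmono : Monotone (f ∘ π) := by rw [hπ]; exact Tuple.monotone_sort f
  have h3 := h2.perm_corners π
  have hfin : QQ N S A := by
    apply QQ_perm π
    refine coreQ hN h3 P ?_ hc ?_ ?_
    · intro k
      show ∑ j, κ (π j) (σ k) = P k
      rw [← hP k]
      exact Equiv.sum_comp π (fun j => κ j (σ k))
    · have h4 := hmono (show (0 : Fin 3) ≤ 1 by decide)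
      rw [hf] at h4
      exact h4
    · have h4 := hmono (show (1 : Fin 3) ≤ 2 by decide)
      rw [hf] at h4
      exact h4
  exact hfin

end Pool.Agent.Helper549.Tri.SqFinal
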