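import Mathlib
import Pool.Agent.Helper549.Tri.Defs
import Pool.Agent.Helper549.Tri.Basic
import Pool.Agent.Helper549.Tri.Angles
import Pool.Agent.Helper549.Tri.AngleSum
import Pool.Agent.Helper549.Tri.Vertex
import Pool.Agent.Helper549.Tri.DataDef
import Pool.Agent.Helper549.Tri.DataDis
import Pool.Agent.Helper549.Tri.ClassDis
import Pool.Agent.Helper549.Tri.Setup
import Pool.Agent.Helper549.Tri.SqFinal
import Pool.Agent.Helper549.Tri.SqDefs
import Pool.Agent.Helper549.Tri.SqCut
set_option autoImplicit false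
noncomputable section
open scoped BigOperators
open MeasureTheory

namespace Pool.Agent.Helper549.Tri.SqMain
open Pool.Agent.Helper549.Tri.Basic Pool.Agent.Helper549.Tri.Angles Pool.Agent.Helper549.Tri.AngleSum Pool.Agent.Helper549.Tri.Vertex Pool.Agent.Helper549.Tri.DataDis Pool.Agent.Helper549.Tri.ClassDis Pool.Agent.Helper549.Tri.Setup Pool.Agent.Helper549.Tri.SqFinal Pool.Agent.Helper549.Tri.SqCut

theorem perm3_7978 (ρ : Equiv.Perm (Fin 3)) (k : Fin 3) :
    (ρ (k + 1) = ρ k + 1 ∧ ρ (k + 2) = ρ k + 2) ∨ (ρ (k + 1) = ρ k + 2 ∧ ρ (k + 2) = ρ k + 1) := by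
  have f1 : ∀ k : Fin 3, k + 1 ≠ k := by decide
  have f2 : ∀ k : Fin 3, k + 2 ≠ k := by decide
  have f3 : ∀ k : Fin 3, k + 1 ≠ k + 2 := by decide
  have h1 : ρ (k + 1) ≠ ρ k := fun h => f1 k (ρ.injective h)
  have h2 : ρ (k + 2) ≠ ρ k := fun h => f2 k (ρ.injective h)
  have h3 : ρ (k + 1) ≠ ρ (k + 2) := fun h => f3 k (ρ.injective h)
  have key : ∀ a b c : Fin 3, b ≠ a → c ≠ a → b ≠ c →
      (b = a + 1 ∧ c = a + 2) ∨ (b = a + 2 ∧ c = a + 1) := by decide
  exact key _ _ _ h1 h2 h3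

theorem angle_eq_7978 {E F : Type} [NormedAddCommGroup E] [InnerProductSpace ℝ E]
    [NormedAddCommGroup F] [InnerProductSpace ℝ F] (a b c : E) (a' b' c' : F)
    (h1 : dist a b = dist a' b') (h2 : dist c b = dist c' b') (h3 : dist a c = dist a' c') :
    EuclideanGeometry.angle a b c = EuclideanGeometry.angle a' b' c' := by
  unfold EuclideanGeometry.angle InnerProductGeometry.angle
  rw [real_inner_eq_norm_mul_self_add_norm_mul_self_sub_norm_sub_mul_self_div_two,
    real_inner_eq_norm_mul_self_add_norm_mul_self_sub_norm_sub_mul_self_div_two,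
    vsub_sub_vsub_cancel_right, vsub_sub_vsub_cancel_right]
  rw [← dist_eq_norm_vsub, ← dist_eq_norm_vsub, ← dist_eq_norm_vsub, ← dist_eq_norm_vsub,
    ← dist_eq_norm_vsub, ← dist_eq_norm_vsub, h1, h2, h3]

theorem sin_law_7978 (T : Fin 3 → EuclideanSpace ℝ (Fin 2)) (i j : Fin 3) :
    side T i * Real.sin (angle T j) = side T j * Real.sin (angle T i) := by
  have K : ∀ i : Fin 3, side T i * Real.sin (angle T (i + 1))
      = side T (i + 1) * Real.sin (angle T i) := by
    intro i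
    have e1 : i + 1 + 1 = i + 2 := by revert i; decide
    have e2 : i + 1 + 2 = i := by revert i; decide
    unfold side angle
    rw [e1, e2]
    have h := EuclideanGeometry.law_sin (T i) (T (i + 1)) (T (i + 2))
    rw [EuclideanGeometry.angle_comm (T (i + 2)) (T (i + 1)) (T i),
      EuclideanGeometry.angle_comm (T (i + 1)) (T i) (T (i + 2))]
    linarith
  have key : ∀ i j : Fin 3, j = i ∨ j = i + 1 ∨ i = j + 1 := by decide
  rcases key i j with h | h | h
  · rw [h]
  · rw [h]; exact K i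
  · rw [h]; exact (K j).symm

theorem sin_pos_7978 (T : Fin 3 → EuclideanSpace ℝ (Fin 2)) (hT : AffineIndependent ℝ T)
    (j : Fin 3) : 0 < Real.sin (angle T j) := by
  unfold angle
  apply EuclideanGeometry.sin_pos_of_not_collinear
  rw [affineIndependent_iff_not_collinear] at hT
  have h1 : ({T (j + 1), T j, T (j + 2)} : Set (EuclideanSpace ℝ (Fin 2))) = Set.range T := by
    ext x
    simp only [Set.mem_insert_iff, Set.mem_singleton_iff, Set.mem_range]
    constructor
    · rintro (h | h | h)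
      · exact ⟨_, h.symm⟩
      · exact ⟨_, h.symm⟩
      · exact ⟨_, h.symm⟩
    · rintro ⟨i, rfl⟩
      have key : ∀ i j : Fin 3, i = j + 1 ∨ i = j ∨ i = j + 2 := by decide
      rcases key i j with h | h | h
      · left; rw [h]
      · right; left; rw [h]
      · right; right; rw [h]
  rw [h1]
  exact hT

theorem side_pos_7978 (T : Fin 3 → EuclideanSpace ℝ (Fin 2)) (hT : AffineIndependent ℝ T)
    (j : Fin 3) : 0 < side T j := by
  unfold side
  rw [dist_pos]
  intro h
  have h1 := hT.injective h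
  have key : ∀ j : Fin 3, j + 1 ≠ j + 2 := by decide
  exact key j h1

theorem ratio_7978 (T : Fin 3 → EuclideanSpace ℝ (Fin 2)) (hT : AffineIndependent ℝ T)
    (i j : Fin 3) : side T i / side T j = Real.sin (angle T i) / Real.sin (angle T j) := by
  have h1 := (side_pos_7978 T hT j).ne'
  have h2 := (sin_pos_7978 T hT j).ne'
  rw [div_eq_div_iff h1 h2]
  have := sin_law_7978 T i j
  linarith

/-- TARGET 1: tiling with nonsquare N, in terms of the Euclidean triangle -/
theorem nonsquare_cut {N : ℕ} (hN : ¬ IsSquare N) (T : Fin 3 → EuclideanSpace ℝ (Fin 2))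
    (hT : AffineIndependent ℝ T) (h : CanCut T N) :
    (∀ i, ∃ q : ℚ, angle T i = q * Real.pi) ∨
    (∃ i j, i ≠ j ∧ side T i = side T j) ∨
    (∃ i j k, i ≠ j ∧ i ≠ k ∧ j ≠ k ∧ angle T k = Real.pi / 2 ∧
      ∃ m n : ℕ, 0 < m ∧ 0 < n ∧ m ^ 2 + n ^ 2 = N ∧ side T i * n = side T j * m) ∨
    ((∀ i j, IsAlgebraic ℚ (side T i / side T j)) ∧
      ((∃ i j, i ≠ j ∧ angle T i = 2 * angle T j) ∨ (∃ i, angle T i = Real.pi / 3) ∨
       (∃ i j, i ≠ j ∧ angle T i - angle T j = Real.pi / 3) ∨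
       (∃ i j, i ≠ j ∧ 3 * angle T i + 4 * angle T j = 2 * Real.pi))) := by
  obtain ⟨P, hPaff, hcong, hU, hD⟩ := h
  have hN2 : 2 ≤ N := by
    by_contra hlt
    apply hN
    have h3 : N = 0 ∨ N = 1 := by omega
    rcases h3 with rfl | rfl
    · exact ⟨0, rfl⟩
    · exact ⟨1, rfl⟩
  have hNZ : NeZero N := ⟨by omega⟩
  have hdist : ∀ i, ∃ σ : Equiv.Perm (Fin 3), ∀ k l,
      dist (P i k) (P i l) = dist (P 0 (σ k)) (P 0 (σ l)) := by
    intro i
    obtain ⟨f, hf⟩ := hcong 0 i
    exact cong_perm (P 0) (P i) (hPaff 0) (hPaff i) f hf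
  obtain ⟨TC, t, τ, ℓ, θ, ρ, hDis, hlen, hang, hTlen⟩ := setup T P hT hPaff hdist hU hD
  have hcc := hDis.ccwT
  have e1 : ∀ k : Fin 3, k + 1 + 1 = k + 2 := by decide
  have e2 : ∀ k : Fin 3, k + 1 + 2 = k := by decide
  have e3 : ∀ k : Fin 3, k + 2 + 1 = k := by decide
  have e4 : ∀ k : Fin 3, k + 2 + 2 = k + 1 := by decide
  have hlenT : ∀ k, len TC k = side T (ρ k) := by
    intro k
    rw [hTlen]
    unfold side
    rcases perm3_7978 ρ k with ⟨h1, h2⟩ | ⟨h1, h2⟩
    · rw [h1, h2]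
    · rw [h1, h2, dist_comm]
  have hlend : ∀ k, len TC k = dist (TC (k + 1)) (TC (k + 2)) := by
    intro k
    unfold len sd
    rw [dist_comm, dist_eq_norm]
  have hangT : ∀ k, ang TC k = angle T (ρ k) := by
    intro k
    have d1 : dist (TC (k + 1)) (TC k) = dist (T (ρ (k + 1))) (T (ρ k)) := by
      have h1 := hlend (k + 2)
      rw [e3, e4, hTlen, e3, e4] at h1
      rw [dist_comm, ← h1, dist_comm]
    have d2 : dist (TC (k + 2)) (TC k) = dist (T (ρ (k + 2))) (T (ρ k)) := by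
      have h1 := hlend (k + 1)
      rw [e1, e2, hTlen, e1, e2] at h1
      rw [← h1]
    have d3 : dist (TC (k + 1)) (TC (k + 2)) = dist (T (ρ (k + 1))) (T (ρ (k + 2))) := by
      rw [← hlend, hTlen]
    have h2 : ang TC k = EuclideanGeometry.angle (T (ρ (k + 1))) (T (ρ k)) (T (ρ (k + 2))) :=
      angle_eq_7978 _ _ _ _ _ _ d1 d2 d3
    rw [h2]
    unfold angle
    rcases perm3_7978 ρ k with ⟨h1, h2⟩ | ⟨h1, h2⟩
    · rw [h1, h2]
    · rw [h1, h2, EuclideanGeometry.angle_comm]
  by_cases hirr : ∀ k, ∃ q : ℚ, θ k = q * Real.pi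
  · left
    intro i
    choose q hq using hirr
    have h1 := corner_angles hDis τ θ hang (ρ.symm i)
    rw [hangT, Equiv.apply_symm_apply] at h1
    refine ⟨∑ k, (cnt t τ (TC (ρ.symm i)) k : ℚ) * q k, ?_⟩
    rw [← h1]
    push_cast
    rw [Finset.sum_mul]
    refine Finset.sum_congr rfl fun k _ => ?_
    rw [hq k]
    ring
  · right
    have hdata := data_of_dis hN2 hDis τ ℓ θ hlen hang hirr
    obtain ⟨σ, Pc, hPc, hcls⟩ := class_of_dis (by omega) hDis τ θ hang hirr
    rcases sq_final hN hdata σ Pc hPc hcls with h | h | h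
    · left
      obtain ⟨i, j, hij, hA⟩ := h
      refine ⟨ρ i, ρ j, fun h => hij (ρ.injective h), ?_⟩
      have h1 := sine_law TC hcc i j
      have hs : 0 < Real.sin (ang TC j) :=
        Real.sin_pos_of_pos_of_lt_pi (ang_pos TC hcc j) (ang_lt_pi TC hcc j)
      rw [hA] at h1
      rw [← hlenT, ← hlenT]
      exact mul_right_cancel₀ hs.ne' h1
    · right; left
      obtain ⟨i, j, k, hij, hAk, hik, hjk, m, n, hm, hn, hmn, hS⟩ := h
      refine ⟨ρ i, ρ j, ρ k, fun h => hij (ρ.injective h), fun h => hik (ρ.injective h),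
        fun h => hjk (ρ.injective h), ?_, m, n, hm, hn, hmn, ?_⟩
      · rw [← hangT]; exact hAk
      · rw [← hlenT, ← hlenT]; exact hS
    · right; right
      obtain ⟨halg, h⟩ := h
      constructor
      · intro i j
        have h1 := halg (ρ.symm i) (ρ.symm j)
        rw [hlenT, hlenT, Equiv.apply_symm_apply, Equiv.apply_symm_apply] at h1
        exact h1
      · rcases h with ⟨i, j, hij, h⟩ | ⟨i, h⟩ | ⟨i, j, hij, h⟩ | ⟨i, j, hij, h⟩
        · left
          refine ⟨ρ i, ρ j, fun h => hij (ρ.injective h), ?_⟩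
          rw [← hangT, ← hangT]; exact h
        · right; left
          refine ⟨ρ i, ?_⟩
          rw [← hangT]; exact h
        · right; right; left
          refine ⟨ρ i, ρ j, fun h => hij (ρ.injective h), ?_⟩
          rw [← hangT, ← hangT]; exact h
        · right; right; right
          refine ⟨ρ i, ρ j, fun h => hij (ρ.injective h), ?_⟩
          rw [← hangT, ← hangT]; exact h

/-- TARGET 2 -/
theorem algebraic_of_rational_angles (T : Fin 3 → EuclideanSpace ℝ (Fin 2))
    (hT : AffineIndependent ℝ T) (h : ∀ i, ∃ q : ℚ, angle T i = q * Real.pi) (i j : Fin 3) :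
    IsAlgebraic ℚ (side T i / side T j) := by
  rw [ratio_7978 T hT i j]
  have hs : ∀ i, IsAlgebraic ℚ (Real.sin (angle T i)) := by
    intro i
    obtain ⟨q, hq⟩ := h i
    rw [hq]
    have h1 : IsAlgebraic ℤ (Real.sin ((q : ℝ) * Real.pi)) := Real.isAlgebraic_sin_rat_mul_pi q
    exact h1.extendScalars (RingHom.injective_int (algebraMap ℤ ℚ))
  rw [div_eq_mul_inv]
  exact (hs i).mul (hs j).inv

/-- TARGET 3 -/
theorem classification (T : Fin 3 → EuclideanSpace ℝ (Fin 2)) (hT : AffineIndependent ℝ T)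
    (hclass : (∃ i j, Transcendental ℚ (side T i / side T j)) ∨
      ((¬ ∀ i, ∃ q : ℚ, angle T i = q * Real.pi) ∧
       (∀ i j, i ≠ j → angle T i ≠ 2 * angle T j) ∧
       (∀ i, angle T i ≠ Real.pi / 3) ∧
       (∀ i j, i ≠ j → angle T i - angle T j ≠ Real.pi / 3) ∧
       (∀ i j, i ≠ j → 3 * angle T i + 4 * angle T j ≠ 2 * Real.pi))) :
    SquareOnly T ↔
      ((∀ i j, i ≠ j → side T i ≠ side T j) ∧
       ¬ ∃ i j k, i ≠ j ∧ i ≠ k ∧ j ≠ k ∧ angle T k = Real.pi / 2 ∧
         ∃ m n : ℕ, 0 < m ∧ 0 < n ∧ ¬ IsSquare (m ^ 2 + n ^ 2) ∧ side T i * n = side T j * m) := by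
  constructor
  · intro hsq
    constructor
    · intro i j hij h
      have h1 := hsq 2 (by norm_num) (cut_isosceles T hT i j hij h)
      obtain ⟨r, hr⟩ := h1
      have h2 : r ≤ 1 := by
        by_contra hcon
        push Not at hcon
        nlinarith
      interval_cases r <;> omega
    · rintro ⟨i, j, k, hij, hik, hjk, hr, m, n, hm, hn, hns, h⟩
      exact hns (hsq (m ^ 2 + n ^ 2) (by nlinarith) (cut_right T hT i j k hij hik hjk hr m n hm hn h))
  · rintro ⟨h1, h2⟩ N hN1 hcut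
    by_contra hns
    rcases nonsquare_cut hns T hT hcut with h | h | h | h
    · rcases hclass with ⟨i, j, hij⟩ | hcl
      · exact hij (algebraic_of_rational_angles T hT h i j)
      · exact hcl.1 h
    · obtain ⟨i, j, hij, h⟩ := h
      exact h1 i j hij h
    · obtain ⟨i, j, k, hij, hik, hjk, hr, m, n, hm, hn, hmn, h⟩ := h
      exact h2 ⟨i, j, k, hij, hik, hjk, hr, m, n, hm, hn, by rw [hmn]; exact hns, h⟩
    · obtain ⟨halg, h⟩ := h
      rcases hclass with ⟨i, j, hij⟩ | ⟨_, c1, c2, c3, c4⟩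
      · exact hij (halg i j)
      · rcases h with ⟨i, j, hij, h⟩ | ⟨i, h⟩ | ⟨i, j, hij, h⟩ | ⟨i, j, hij, h⟩
        · exact c1 i j hij h
        · exact c2 i h
        · exact c3 i j hij h
        · exact c4 i j hij h

end Pool.Agent.Helper549.Tri.SqMain
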